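import Pool.Agent.Lib.P07318m.Defs

/-!
# P07318m.DAux: crude bounds for `d3`, `hh`, `sg`, divisor-type functions

`d3_le`: `d3 n = ∑_{d | n} τ(d) ≤ τ(n)^2`, and `τ(n) ≤ C_ε n^ε` (standard; there are several proofs in the libraries, grep for
`card_divisors_le` / `divisor_bound`; a direct proof: `τ(n) = ∏ (v_p+1)`, `(v+1) ≤ p^{εv}` if `p^ε ≥ 2`, and
`v+1 ≤ C_{p,ε} p^{εv}` for the finitely many smaller primes: the functions below are all of the form
`∏_{p^v||n} f(p,v)` with `f(p,v) ≤ A (v+1)^B`, which is `≤ C_ε n^ε`, lemma `prod_le`).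

`prod_le`: for `A ≥ 1`, `B` fixed: `∏_{p | n} A (v_p+1)^B ≤ C n^ε`.
PROOF: `A (v+1)^B ≤ p^{εv}` whenever `p ≥ P_0(A,B,ε)` (`A (v+1)^B ≤ A 2^{Bv} ≤ (A 2^B)^v`, so `p^ε ≥ A 2^B` suffices);
for `p < P_0`: `A (v+1)^B ≤ K 2^{εv} ≤ K p^{εv}` with `K = K(A,B,ε) ≥ 1`; so the product is `≤ K^{P_0} n^ε`.

`hh_le`, `pow_omega_le`, `tot_le` are special cases (`1 ≤ hh a ≤ ∏ (v_p+1)`; `n/φ(n) = ∏ (1-1/p)^{-1} ≤ 2^{ω(n)}`).
`sum_d3_le`: `∑_{n ≤ x} d3 n ≤ C x^{1+ε}`: trivial from `d3_le`.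
`d3_summable`: `∑ d3 n n^{-c}` converges for `c > 1`.
-/

set_option autoImplicit false

open MeasureTheory Complex

namespace Pool.Agent.P07318m

namespace DAuxAux

open Finset

lemma exists_K (A : ℝ) (hA : 1 ≤ A) (B : ℕ) (r : ℝ) (hr : 1 < r) :
    ∃ K : ℝ, 1 ≤ K ∧ ∀ v : ℕ, A * ((v : ℝ) + 1) ^ B ≤ K * r ^ v := by
  have h1 := tendsto_pow_const_div_const_pow_of_one_lt B hr
  obtain ⟨K0, hK0⟩ := h1.bddAbove_range
  have h2 : ∀ n : ℕ, (n : ℝ) ^ B / r ^ n ≤ K0 := fun n => hK0 ⟨n, rfl⟩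
  have hK00 : 0 ≤ K0 := by
    have := h2 0
    refine le_trans ?_ this
    positivity
  refine ⟨max 1 (A * (K0 * r)), le_max_left _ _, fun v => ?_⟩
  have h3 := h2 (v + 1)
  have hr0 : 0 < r := by linarith
  rw [div_le_iff₀ (by positivity)] at h3
  push_cast at h3
  calc A * ((v : ℝ) + 1) ^ B ≤ A * (K0 * r ^ (v + 1)) :=
        mul_le_mul_of_nonneg_left h3 (by linarith)
    _ = A * (K0 * r) * r ^ v := by rw [pow_succ]; ring
    _ ≤ max 1 (A * (K0 * r)) * r ^ v :=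
        mul_le_mul_of_nonneg_right (le_max_right _ _) (by positivity)

lemma rpow_prod (n : ℕ) (hn : 1 ≤ n) (ε : ℝ) :
    (n : ℝ) ^ ε = ∏ p ∈ n.primeFactors, ((p : ℝ) ^ ε) ^ n.factorization p := by
  have h1 : (n : ℝ) = ∏ p ∈ n.primeFactors, ((p : ℝ) ^ n.factorization p) := by
    have h := Nat.prod_factorization_pow_eq_self (n := n) (by omega)
    conv_lhs => rw [← h]
    rw [Finsupp.prod, Nat.support_factorization]
    push_cast
    rfl
  conv_lhs => rw [h1]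
  rw [← Real.finset_prod_rpow _ _ (fun p _ => by positivity)]
  refine Finset.prod_congr rfl fun p _ => ?_
  rw [← Real.rpow_natCast, ← Real.rpow_natCast, ← Real.rpow_mul (Nat.cast_nonneg p),
    ← Real.rpow_mul (Nat.cast_nonneg p), mul_comm]

end DAuxAux

open DAuxAux

theorem prod_le (A : ℝ) (hA : 1 ≤ A) (B : ℕ) (ε : ℝ) (hε : 0 < ε) : ∃ C : ℝ, 1 ≤ C ∧ ∀ n : ℕ, 1 ≤ n →
    ∏ p ∈ n.primeFactors, (A * ((n.factorization p : ℝ) + 1) ^ B) ≤ C * (n : ℝ) ^ ε := by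
  have h2ε : (1 : ℝ) < 2 ^ ε := Real.one_lt_rpow (by norm_num) hε
  obtain ⟨K, hK1, hK⟩ := exists_K A hA B (2 ^ ε) h2ε
  obtain ⟨P0, hP0⟩ : ∃ P0 : ℕ, ∀ p : ℕ, P0 ≤ p → A * 2 ^ B ≤ (p : ℝ) ^ ε := by
    have h1 : Filter.Tendsto (fun p : ℕ => (p : ℝ) ^ ε) Filter.atTop Filter.atTop :=
      (tendsto_rpow_atTop hε).comp tendsto_natCast_atTop_atTop
    exact Filter.eventually_atTop.1 (h1.eventually_ge_atTop _)
  refine ⟨K ^ P0, one_le_pow₀ hK1, fun n hn => ?_⟩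
  have h1 : ∀ p ∈ n.primeFactors, A * ((n.factorization p : ℝ) + 1) ^ B ≤
      (if p < P0 then K else 1) * ((p : ℝ) ^ ε) ^ n.factorization p := by
    intro p hp
    have hpp := Nat.prime_of_mem_primeFactors hp
    have hp2 : (2 : ℝ) ≤ p := by exact_mod_cast hpp.two_le
    have hv : 1 ≤ n.factorization p :=
      (Nat.Prime.dvd_iff_one_le_factorization hpp (by omega)).1 (Nat.dvd_of_mem_primeFactors hp)
    by_cases hlt : p < P0
    · rw [if_pos hlt]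
      refine (hK _).trans ?_
      have : (2 : ℝ) ^ ε ≤ (p : ℝ) ^ ε := Real.rpow_le_rpow (by norm_num) hp2 hε.le
      have h0 : (0 : ℝ) ≤ 2 ^ ε := by positivity
      exact mul_le_mul_of_nonneg_left (pow_le_pow_left₀ h0 this _) (by linarith)
    · rw [if_neg hlt, one_mul]
      push Not at hlt
      have h3 := hP0 p hlt
      set v := n.factorization p with hvdef
      have h4 : ((v : ℝ) + 1) ≤ 2 ^ v := by
        have : v + 1 ≤ 2 ^ v := Nat.lt_two_pow_self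
        exact_mod_cast this
      calc A * ((v : ℝ) + 1) ^ B ≤ A ^ v * (2 ^ v) ^ B := by
            apply mul_le_mul
            · exact le_self_pow₀ hA (by omega)
            · exact pow_le_pow_left₀ (by positivity) h4 B
            · positivity
            · positivity
        _ = (A * 2 ^ B) ^ v := by
            rw [mul_pow, ← pow_mul, ← pow_mul, mul_comm v B]
        _ ≤ ((p : ℝ) ^ ε) ^ v := pow_le_pow_left₀ (by positivity) h3 v
  refine (Finset.prod_le_prod (fun p _ => by positivity) h1).trans ?_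
  rw [Finset.prod_mul_distrib, ← rpow_prod n hn ε]
  apply mul_le_mul_of_nonneg_right _ (by positivity)
  rw [Finset.prod_ite, Finset.prod_const, Finset.prod_const_one, mul_one]
  apply pow_le_pow_right₀ hK1
  have h2 : n.primeFactors.filter (fun p => p < P0) ⊆ Finset.range P0 := by
    intro p hp
    rw [Finset.mem_filter] at hp
    exact Finset.mem_range.2 hp.2
  have h3 := Finset.card_le_card h2
  rwa [Finset.card_range] at h3

theorem tau_le (ε : ℝ) (hε : 0 < ε) : ∃ C : ℝ, 1 ≤ C ∧ ∀ a : ℕ, 1 ≤ a →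
    (a.divisors.card : ℝ) ≤ C * (a : ℝ) ^ ε := by
  obtain ⟨C, hC1, hC⟩ := prod_le 1 le_rfl 1 ε hε
  refine ⟨C, hC1, fun a ha => ?_⟩
  have h := hC a ha
  rw [Nat.card_divisors (by omega)]
  push_cast
  simpa using h

theorem d3_le (ε : ℝ) (hε : 0 < ε) : ∃ C : ℝ, 1 ≤ C ∧ ∀ n : ℕ, 1 ≤ n → (d3 n : ℝ) ≤ C * (n : ℝ) ^ ε := by
  obtain ⟨C, hC1, hC⟩ := tau_le (ε / 2) (by positivity)
  refine ⟨C ^ 2, one_le_pow₀ hC1, fun n hn => ?_⟩
  have h1 : d3 n ≤ n.divisors.card ^ 2 := by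
    unfold d3
    calc ∑ d ∈ n.divisors, d.divisors.card ≤ ∑ _d ∈ n.divisors, n.divisors.card := by
          refine Finset.sum_le_sum fun d hd => ?_
          exact Finset.card_le_card (Nat.divisors_subset_of_dvd (by omega)
            (Nat.dvd_of_mem_divisors hd))
      _ = n.divisors.card ^ 2 := by rw [Finset.sum_const, smul_eq_mul, sq]
  have h2 : (d3 n : ℝ) ≤ (n.divisors.card : ℝ) ^ 2 := by exact_mod_cast h1
  refine h2.trans ((pow_le_pow_left₀ (by positivity) (hC n hn) 2).trans (le_of_eq ?_))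
  rw [mul_pow, ← Real.rpow_natCast ((n : ℝ) ^ (ε / 2)) 2, ← Real.rpow_mul (by positivity)]
  congr 2
  push_cast
  ring

theorem sum_d3_le (ε : ℝ) (hε : 0 < ε) : ∃ C : ℝ, 1 ≤ C ∧ ∀ x : ℝ, 0 ≤ x →
    ∑ n ∈ Finset.Icc 1 ⌊x⌋₊, (d3 n : ℝ) ≤ C * x ^ (1 + ε) := by
  obtain ⟨C, hC1, hC⟩ := d3_le ε hε
  refine ⟨C, hC1, fun x hx => ?_⟩
  rcases lt_or_ge x 1 with h | h
  · rw [Nat.floor_eq_zero.2 h]
    simp only [Finset.Icc_eq_empty_of_lt Nat.zero_lt_one, Finset.sum_empty]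
    have : 0 ≤ C := by linarith
    positivity
  · have h1 : ∀ n ∈ Finset.Icc 1 ⌊x⌋₊, (d3 n : ℝ) ≤ C * x ^ ε := by
      intro n hn
      rw [Finset.mem_Icc] at hn
      refine (hC n hn.1).trans ?_
      have h2 : (n : ℝ) ≤ x := (Nat.cast_le.2 hn.2).trans (Nat.floor_le hx)
      exact mul_le_mul_of_nonneg_left (Real.rpow_le_rpow (Nat.cast_nonneg n) h2 hε.le)
        (by linarith)
    refine (Finset.sum_le_sum h1).trans ?_
    rw [Finset.sum_const, nsmul_eq_mul, Nat.card_Icc, Nat.add_sub_cancel]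
    have h3 : (⌊x⌋₊ : ℝ) ≤ x := Nat.floor_le hx
    have h4 : x ^ (1 + ε) = x * x ^ ε := by
      rw [Real.rpow_add (by linarith), Real.rpow_one]
    rw [h4]
    have h5 : 0 ≤ C * x ^ ε := by
      have : 0 ≤ C := by linarith
      positivity
    calc (⌊x⌋₊ : ℝ) * (C * x ^ ε) ≤ x * (C * x ^ ε) := mul_le_mul_of_nonneg_right h3 h5
      _ = C * (x * x ^ ε) := by ring

theorem d3_summable {c : ℝ} (hc : 1 < c) : Summable (fun n : ℕ => (d3 n : ℝ) * (n : ℝ) ^ (-c)) := by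
  obtain ⟨C, hC1, hC⟩ := d3_le ((c - 1) / 2) (by linarith)
  have h1 : Summable (fun n : ℕ => C * (n : ℝ) ^ (-(c + 1) / 2)) := by
    apply Summable.mul_left
    rw [Real.summable_nat_rpow]
    linarith
  refine Summable.of_nonneg_of_le (fun n => by positivity) (fun n => ?_) h1
  rcases Nat.eq_zero_or_pos n with rfl | hn
  · have : d3 0 = 0 := by simp [d3]
    rw [this]
    have : 0 ≤ C := by linarith
    simp only [Nat.cast_zero, zero_mul]
    positivity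
  · have hn0 : (0 : ℝ) < n := by exact_mod_cast hn
    calc (d3 n : ℝ) * (n : ℝ) ^ (-c) ≤ C * (n : ℝ) ^ ((c - 1) / 2) * (n : ℝ) ^ (-c) :=
          mul_le_mul_of_nonneg_right (hC n hn) (by positivity)
      _ = C * (n : ℝ) ^ (-(c + 1) / 2) := by
          rw [mul_assoc, ← Real.rpow_add hn0]
          congr 2
          ring

namespace DAuxAux

lemma inv_le_one' (p : ℕ) : 1 / (p : ℝ) ≤ 1 := by
  rcases Nat.eq_zero_or_pos p with rfl | hp
  · simp
  · rw [div_le_one (by exact_mod_cast hp)]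
    exact_mod_cast hp

end DAuxAux

theorem one_le_hh (a : ℕ) : 1 ≤ hh a := by
  unfold hh
  have h : ∏ p ∈ a.primeFactors, (1 : ℝ) ≤
      ∏ p ∈ a.primeFactors, (1 + (a.factorization p : ℝ) * (1 - 1 / (p : ℝ))) := by
    refine Finset.prod_le_prod (fun _ _ => zero_le_one) fun p _ => ?_
    have h1 := DAuxAux.inv_le_one' p
    have h2 : 0 ≤ (a.factorization p : ℝ) * (1 - 1 / (p : ℝ)) :=
      mul_nonneg (Nat.cast_nonneg _) (by linarith)
    linarith
  rwa [Finset.prod_const_one] at h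

theorem hh_le (ε : ℝ) (hε : 0 < ε) : ∃ C : ℝ, 1 ≤ C ∧ ∀ a : ℕ, 1 ≤ a → hh a ≤ C * (a : ℝ) ^ ε := by
  obtain ⟨C, hC1, hC⟩ := prod_le 1 le_rfl 1 ε hε
  refine ⟨C, hC1, fun a ha => le_trans ?_ (hC a ha)⟩
  unfold hh
  refine Finset.prod_le_prod (fun p _ => ?_) fun p _ => ?_
  · have h1 := DAuxAux.inv_le_one' p
    have h2 : 0 ≤ (a.factorization p : ℝ) * (1 - 1 / (p : ℝ)) :=
      mul_nonneg (Nat.cast_nonneg _) (by linarith)
    linarith
  · have h1 : 0 ≤ 1 / (p : ℝ) := by positivity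
    have h2 : (0 : ℝ) ≤ (a.factorization p : ℝ) := Nat.cast_nonneg _
    rw [one_mul, pow_one]
    nlinarith

theorem pow_omega_le (ε : ℝ) (hε : 0 < ε) : ∃ C : ℝ, 1 ≤ C ∧ ∀ a : ℕ, 1 ≤ a →
    (2 : ℝ) ^ a.primeFactors.card ≤ C * (a : ℝ) ^ ε := by
  obtain ⟨C, hC1, hC⟩ := prod_le 2 (by norm_num) 0 ε hε
  refine ⟨C, hC1, fun a ha => ?_⟩
  have h := hC a ha
  simpa using h

theorem tot_le (ε : ℝ) (hε : 0 < ε) : ∃ C : ℝ, 1 ≤ C ∧ ∀ a : ℕ, 1 ≤ a →
    (a : ℝ) / (a.totient : ℝ) ≤ C * (a : ℝ) ^ ε := by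
  obtain ⟨C, hC1, hC⟩ := pow_omega_le ε hε
  refine ⟨C, hC1, fun a ha => le_trans ?_ (hC a ha)⟩
  have ha0 : (0 : ℝ) < a := by exact_mod_cast ha
  have h1 : (a.totient : ℝ) = a * ∏ p ∈ a.primeFactors, (1 - (p : ℝ)⁻¹) := by
    have h := Nat.totient_eq_mul_prod_factors a
    have h' := congrArg (fun q : ℚ => (q : ℝ)) h
    push_cast at h'
    exact h'
  have h2 : (1 / 2 : ℝ) ^ a.primeFactors.card ≤ ∏ p ∈ a.primeFactors, (1 - (p : ℝ)⁻¹) := by
    rw [← Finset.prod_const]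
    refine Finset.prod_le_prod (fun _ _ => by norm_num) fun p hp => ?_
    have hpp := Nat.prime_of_mem_primeFactors hp
    have hp2 : (2 : ℝ) ≤ p := by exact_mod_cast hpp.two_le
    have h3 : (p : ℝ)⁻¹ ≤ 2⁻¹ := inv_anti₀ (by norm_num) hp2
    norm_num at h3 ⊢
    linarith
  have h3 : 0 < ∏ p ∈ a.primeFactors, (1 - (p : ℝ)⁻¹) := lt_of_lt_of_le (by positivity) h2
  rw [h1, div_le_iff₀ (mul_pos ha0 h3)]
  have h4 : (1 : ℝ) ≤ 2 ^ a.primeFactors.card * ∏ p ∈ a.primeFactors, (1 - (p : ℝ)⁻¹) := by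
    calc (1 : ℝ) = 2 ^ a.primeFactors.card * (1 / 2 : ℝ) ^ a.primeFactors.card := by
          rw [← mul_pow]
          norm_num
      _ ≤ _ := mul_le_mul_of_nonneg_left h2 (by positivity)
  calc (a : ℝ) = a * 1 := (mul_one _).symm
    _ ≤ a * (2 ^ a.primeFactors.card * ∏ p ∈ a.primeFactors, (1 - (p : ℝ)⁻¹)) :=
        mul_le_mul_of_nonneg_left h4 ha0.le
    _ = _ := by ring

theorem sg_nonneg (a : ℕ) : 0 ≤ sg a :=
  Finset.sum_nonneg fun _ _ => sq_nonneg _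

theorem sg_le (a : ℕ) (ha : 1 ≤ a) : sg a ≤ Real.log a ^ 2 := by
  have hla : 0 ≤ Real.log a := Real.log_natCast_nonneg a
  have h1 : ∑ p ∈ a.primeFactors, Real.log p ≤ Real.log a := by
    rw [← Real.log_prod (fun p hp => by
      exact_mod_cast (Nat.prime_of_mem_primeFactors hp).ne_zero)]
    have h2 : ∏ p ∈ a.primeFactors, p ≤ a := Nat.le_of_dvd (by omega) (Nat.prod_primeFactors_dvd a)
    have h3 : 0 < ∏ p ∈ a.primeFactors, p :=
      Finset.prod_pos fun p hp => (Nat.prime_of_mem_primeFactors hp).pos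
    have h3' : (0 : ℝ) < ((∏ p ∈ a.primeFactors, p : ℕ) : ℝ) := Nat.cast_pos.2 h3
    have h2' : ((∏ p ∈ a.primeFactors, p : ℕ) : ℝ) ≤ (a : ℝ) := Nat.cast_le.2 h2
    rw [Nat.cast_prod] at h3' h2'
    exact Real.log_le_log h3' h2'
  unfold sg
  have h4 : ∀ p ∈ a.primeFactors, Real.log p ^ 2 ≤ Real.log p * Real.log a := by
    intro p hp
    have hpp := Nat.prime_of_mem_primeFactors hp
    have h5 : (p : ℝ) ≤ a := by
      exact_mod_cast Nat.le_of_dvd (by omega) (Nat.dvd_of_mem_primeFactors hp)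
    have h6 : Real.log p ≤ Real.log a :=
      Real.log_le_log (by exact_mod_cast hpp.pos) h5
    have h7 : 0 ≤ Real.log p := Real.log_natCast_nonneg p
    nlinarith
  refine (Finset.sum_le_sum h4).trans ?_
  rw [← Finset.sum_mul, sq]
  exact mul_le_mul_of_nonneg_right h1 hla

theorem dl_nonneg (a : ℕ) : 0 ≤ dl a := by
  unfold dl
  refine Finset.sum_nonneg fun p _ => ?_
  have h7 : 0 ≤ Real.log p := Real.log_natCast_nonneg p
  split_ifs
  · positivity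
  · positivity

end Pool.Agent.P07318m
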