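import Pool.Agent.Lib.P07318m.Defs
import Pool.Agent.Lib.P07318m.DAux

/-!
# P07318m.ESum: the error functions are bounded on average

`∑_{a ≤ x} (hh(a)²/a) (1 + Ea(a) + dl(a)) ≤ C (1+log x)^4` for `x ≥ 1`.
PROOF. `h = hh` is submultiplicative: `h(dm) ≤ h(d) h(m)` (`1+(v+w)c ≤ (1+vc)(1+wc)`), `h(m) ≤ τ(m)`.
(0) `∑_{m≤x} h(m)²/m ≤ ∑_{m ≤ x} τ(m)²/m ≤ (∑_{m≤x} 1/m)^4 ≤ (1+log x)^4`, since `τ(m)² ≤ d_4(m)` (multiplicative, `(v+1)² ≤ (v+1)(v+2)(v+3)/6`).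
(Any bound `C(1+log x)^4`; e.g. `τ(m)² = ∑`-type identities, or induction with submultiplicativity.)
(1) `∑_{a≤x} (h(a)²/a) ∑_{d|a} (1+log d)/d ≤ ∑_d ((1+log d) h(d)²/d²) ∑_{m≤x} h(m)²/m`, the `d`-sum converges (`h(d)² ≤ C d^{1/4}`).
(2) `∑_{a≤x} (h(a)²/a) ∑_{p^v || a} w(p,v) ≤ ∑_{p,v≥1} w(p,v) (v+1)² p^{-v} ∑_{m≤x} h(m)²/m`, with `w(p,1) = log p/p`, `w(p,v) = v² log p`, `v ≥ 2`: converges.
-/

set_option autoImplicit false

open MeasureTheory Complex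

namespace Pool.Agent.P07318m

namespace ESumAux

lemma sum_le_of_inj {α β : Type*} [DecidableEq β] (s : Finset α) (t : Finset β) (f : α → ℝ)
    (g : β → ℝ) (i : α → β) (hi : ∀ a ∈ s, i a ∈ t) (hinj : Set.InjOn i s)
    (hg : ∀ b ∈ t, 0 ≤ g b) (hfg : ∀ a ∈ s, f a ≤ g (i a)) :
    ∑ a ∈ s, f a ≤ ∑ b ∈ t, g b := by
  calc ∑ a ∈ s, f a ≤ ∑ a ∈ s, g (i a) := Finset.sum_le_sum hfg
    _ = ∑ b ∈ s.image i, g b := (Finset.sum_image hinj).symm
    _ ≤ _ := Finset.sum_le_sum_of_subset_of_nonneg (Finset.image_subset_iff.mpr hi)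
        (fun b hb _ => hg b hb)

lemma conv_le (N : ℕ) (f : ℕ → ℕ → ℝ) (hf : ∀ a b, 0 ≤ f a b) :
    ∑ a ∈ Finset.Icc 1 N, ∑ d ∈ a.divisors, f d (a / d) ≤
      ∑ d ∈ Finset.Icc 1 N, ∑ m ∈ Finset.Icc 1 N, f d m := by
  rw [Finset.sum_sigma', ← Finset.sum_product']
  refine sum_le_of_inj _ _ _ (fun p : ℕ × ℕ => f p.1 p.2)
    (fun s : (_ : ℕ) × ℕ => (s.2, s.1 / s.2)) ?_ ?_ (fun _ _ => hf _ _) (fun _ _ => le_rfl)
  · rintro ⟨a, d⟩ h
    rw [Finset.mem_sigma, Finset.mem_Icc, Nat.mem_divisors] at h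
    obtain ⟨⟨h1, h2⟩, h3, h4⟩ := h
    simp only at h1 h2 h3 h4
    have hd0 : 0 < d := Nat.pos_of_dvd_of_pos h3 h1
    have hda : d ≤ a := Nat.le_of_dvd h1 h3
    rw [Finset.mem_product, Finset.mem_Icc, Finset.mem_Icc]
    refine ⟨⟨hd0, hda.trans h2⟩, Nat.div_pos hda hd0, (Nat.div_le_self a d).trans h2⟩
  · rintro ⟨a, d⟩ h ⟨a', d'⟩ h' heq
    rw [Finset.mem_coe, Finset.mem_sigma, Finset.mem_Icc, Nat.mem_divisors] at h h'
    simp only [Prod.mk.injEq] at heq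
    obtain ⟨rfl, h5⟩ := heq
    have e1 : a = d * (a / d) := (Nat.mul_div_cancel' h.2.1).symm
    have e2 : a' = d * (a' / d) := (Nat.mul_div_cancel' h'.2.1).symm
    have : a = a' := by
      rw [e1, e2, h5]
    rw [this]

/-- `hh` as a product over a larger set of primes. -/
lemma hh_eq (a : ℕ) (U : Finset ℕ) (hU : a.primeFactors ⊆ U) :
    hh a = ∏ p ∈ U, (1 + (a.factorization p : ℝ) * (1 - 1 / (p : ℝ))) := by
  unfold hh
  apply Finset.prod_subset hU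
  intro p _ hp
  have : a.factorization p = 0 := by
    rw [← Finsupp.notMem_support_iff, Nat.support_factorization]
    exact hp
  rw [this]
  simp

lemma one_sub_nonneg {p : ℕ} (hp : p.Prime) : 0 ≤ 1 - 1 / (p : ℝ) := by
  have h2 : (2 : ℝ) ≤ p := by exact_mod_cast hp.two_le
  rw [sub_nonneg, div_le_one (by linarith)]
  linarith

lemma hh_submul {d m : ℕ} (hd : d ≠ 0) (hm : m ≠ 0) : hh (d * m) ≤ hh d * hh m := by
  have hU : (d * m).primeFactors = d.primeFactors ∪ m.primeFactors := Nat.primeFactors_mul hd hm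
  rw [hh_eq (d * m) (d.primeFactors ∪ m.primeFactors) (hU ▸ Finset.Subset.refl _),
    hh_eq d (d.primeFactors ∪ m.primeFactors) Finset.subset_union_left,
    hh_eq m (d.primeFactors ∪ m.primeFactors) Finset.subset_union_right,
    ← Finset.prod_mul_distrib]
  apply Finset.prod_le_prod
  · intro p hp
    have hpp : p.Prime := by
      rw [← hU] at hp
      exact Nat.prime_of_mem_primeFactors hp
    have := one_sub_nonneg hpp
    positivity
  · intro p hp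
    have hpp : p.Prime := by
      rw [← hU] at hp
      exact Nat.prime_of_mem_primeFactors hp
    have h1 := one_sub_nonneg hpp
    rw [Nat.factorization_mul hd hm, Finsupp.add_apply]
    push_cast
    have h2 : 0 ≤ ((d.factorization p : ℝ) * (1 - 1 / (p : ℝ))) *
        ((m.factorization p : ℝ) * (1 - 1 / (p : ℝ))) := by positivity
    nlinarith

lemma hh_nonneg (a : ℕ) : 0 ≤ hh a := by
  have := one_le_hh a
  linarith

lemma hh_le_tau {a : ℕ} (ha : a ≠ 0) : hh a ≤ (a.divisors.card : ℝ) := by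
  rw [Nat.card_divisors ha]
  unfold hh
  push_cast
  apply Finset.prod_le_prod
  · intro p hp
    have := one_sub_nonneg (Nat.prime_of_mem_primeFactors hp)
    positivity
  · intro p hp
    have hp0 : (0 : ℝ) < p := by
      exact_mod_cast (Nat.prime_of_mem_primeFactors hp).pos
    have h1 : 1 - 1 / (p : ℝ) ≤ 1 := by
      have : 0 < 1 / (p : ℝ) := by positivity
      linarith
    have h2 := mul_le_mul_of_nonneg_left h1 (Nat.cast_nonneg (α := ℝ) (a.factorization p))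
    linarith

lemma harm {x : ℝ} (hx : 1 ≤ x) : ∑ m ∈ Finset.Icc 1 ⌊x⌋₊, (1 / (m : ℝ)) ≤ 1 + Real.log x := by
  have h2 := harmonic_floor_le_one_add_log x hx
  have h3 : ((harmonic ⌊x⌋₊ : ℚ) : ℝ) = ∑ b ∈ Finset.Icc 1 ⌊x⌋₊, (1 / (b : ℝ)) := by
    rw [harmonic_eq_sum_Icc]
    push_cast
    exact Finset.sum_congr rfl fun _ _ => (one_div _).symm
  rwa [h3] at h2

lemma sum_h1 (N : ℕ) : ∑ d ∈ Finset.Icc 1 N, hh d / d ≤
    (∑ m ∈ Finset.Icc 1 N, (1 / (m : ℝ))) ^ 2 := by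
  have h1 : ∑ d ∈ Finset.Icc 1 N, hh d / d ≤
      ∑ a ∈ Finset.Icc 1 N, ∑ d ∈ a.divisors, 1 / (d : ℝ) * (1 / ((a / d : ℕ) : ℝ)) := by
    refine Finset.sum_le_sum fun a ha => ?_
    have ha1 := (Finset.mem_Icc.mp ha).1
    have ha0 : a ≠ 0 := by omega
    have h2 : ∀ d ∈ a.divisors, 1 / (d : ℝ) * (1 / ((a / d : ℕ) : ℝ)) = 1 / a := by
      intro d hd
      have h3 := Nat.mul_div_cancel' (Nat.dvd_of_mem_divisors hd)
      rw [one_div_mul_one_div, ← Nat.cast_mul, h3]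
    rw [Finset.sum_congr rfl h2, Finset.sum_const, nsmul_eq_mul, mul_one_div]
    exact div_le_div_of_nonneg_right (hh_le_tau ha0) (Nat.cast_nonneg a)
  refine h1.trans ((conv_le N (fun a b => 1 / (a : ℝ) * (1 / (b : ℝ)))
    (fun a b => by positivity)).trans (le_of_eq ?_))
  rw [sq, Finset.sum_mul_sum]

lemma sum_h2 (N : ℕ) : ∑ m ∈ Finset.Icc 1 N, hh m ^ 2 / m ≤
    (∑ d ∈ Finset.Icc 1 N, hh d / d) ^ 2 := by
  have h1 : ∑ m ∈ Finset.Icc 1 N, hh m ^ 2 / m ≤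
      ∑ a ∈ Finset.Icc 1 N, ∑ d ∈ a.divisors, hh d / (d : ℝ) * (hh (a / d) / ((a / d : ℕ) : ℝ)) := by
    refine Finset.sum_le_sum fun a ha => ?_
    have ha1 := (Finset.mem_Icc.mp ha).1
    have ha0 : a ≠ 0 := by omega
    have h2 : ∀ d ∈ a.divisors, hh a / a ≤ hh d / (d : ℝ) * (hh (a / d) / ((a / d : ℕ) : ℝ)) := by
      intro d hd
      have hdvd := Nat.dvd_of_mem_divisors hd
      have h3 := Nat.mul_div_cancel' hdvd
      have hd0 : d ≠ 0 := by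
        rintro rfl
        rw [zero_mul] at h3
        omega
      have hm0 : a / d ≠ 0 := by
        intro h4
        rw [h4, mul_zero] at h3
        omega
      rw [div_mul_div_comm, ← Nat.cast_mul, h3]
      apply div_le_div_of_nonneg_right _ (Nat.cast_nonneg a)
      have h4 := hh_submul hd0 hm0
      rwa [h3] at h4
    have h3 := Finset.sum_le_sum h2
    rw [Finset.sum_const, nsmul_eq_mul] at h3
    refine le_trans ?_ h3
    have h4 : hh a ^ 2 / a = hh a * (hh a / a) := by ring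
    rw [h4]
    apply mul_le_mul_of_nonneg_right (hh_le_tau ha0)
    exact div_nonneg (hh_nonneg a) (Nat.cast_nonneg a)
  refine h1.trans ((conv_le N (fun a b => hh a / (a : ℝ) * (hh b / (b : ℝ)))
    (fun a b => ?_)).trans (le_of_eq ?_))
  · exact mul_nonneg (div_nonneg (hh_nonneg a) (Nat.cast_nonneg a))
      (div_nonneg (hh_nonneg b) (Nat.cast_nonneg b))
  · rw [sq, Finset.sum_mul_sum]

lemma sum_H {x : ℝ} (hx : 1 ≤ x) : ∑ m ∈ Finset.Icc 1 ⌊x⌋₊, hh m ^ 2 / m ≤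
    (1 + Real.log x) ^ 4 := by
  have h0 : 0 ≤ ∑ m ∈ Finset.Icc 1 ⌊x⌋₊, (1 / (m : ℝ)) :=
    Finset.sum_nonneg fun _ _ => by positivity
  have h1 : 0 ≤ ∑ d ∈ Finset.Icc 1 ⌊x⌋₊, hh d / d :=
    Finset.sum_nonneg fun d _ => div_nonneg (hh_nonneg d) (Nat.cast_nonneg d)
  calc ∑ m ∈ Finset.Icc 1 ⌊x⌋₊, hh m ^ 2 / m ≤ (∑ d ∈ Finset.Icc 1 ⌊x⌋₊, hh d / d) ^ 2 :=
        sum_h2 _
    _ ≤ ((∑ m ∈ Finset.Icc 1 ⌊x⌋₊, (1 / (m : ℝ))) ^ 2) ^ 2 := pow_le_pow_left₀ h1 (sum_h1 _) 2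
    _ ≤ ((1 + Real.log x) ^ 2) ^ 2 :=
        pow_le_pow_left₀ (by positivity) (pow_le_pow_left₀ h0 (harm hx) 2) 2
    _ = _ := by ring

/-- Convergence of the `d`-sum for `Ea`. -/
lemma sum_d : ∃ C : ℝ, 0 < C ∧ ∀ N : ℕ,
    ∑ d ∈ Finset.Icc 1 N, (1 + Real.log d) / d * (hh d ^ 2 / d) ≤ C := by
  obtain ⟨C, hC, h⟩ := hh_le (1 / 8) (by norm_num)
  have hs : Summable (fun k : ℕ => 5 * C ^ 2 * (1 / (k : ℝ) ^ (3 / 2 : ℝ))) :=
    (Real.summable_one_div_nat_rpow.2 (by norm_num)).mul_left _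
  refine ⟨(∑' k : ℕ, 5 * C ^ 2 * (1 / (k : ℝ) ^ (3 / 2 : ℝ))) + 1, ?_, fun N => ?_⟩
  · have : 0 ≤ ∑' k : ℕ, 5 * C ^ 2 * (1 / (k : ℝ) ^ (3 / 2 : ℝ)) :=
      tsum_nonneg fun k => by positivity
    linarith
  · have h1 : ∑ d ∈ Finset.Icc 1 N, (1 + Real.log d) / d * (hh d ^ 2 / d) ≤
        ∑ d ∈ Finset.Icc 1 N, 5 * C ^ 2 * (1 / (d : ℝ) ^ (3 / 2 : ℝ)) := by
      refine Finset.sum_le_sum fun d hd => ?_
      have hd1 := (Finset.mem_Icc.mp hd).1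
      have hd1' : (1 : ℝ) ≤ d := by exact_mod_cast hd1
      have hd0 : (0 : ℝ) < d := by linarith
      have h2 := h d hd1
      have h3 : Real.log d ≤ (d : ℝ) ^ (1 / 4 : ℝ) / (1 / 4) :=
        Real.log_le_rpow_div hd0.le (by norm_num)
      have h4 : (1 : ℝ) ≤ (d : ℝ) ^ (1 / 4 : ℝ) := Real.one_le_rpow hd1' (by norm_num)
      have h5 : 1 + Real.log d ≤ 5 * (d : ℝ) ^ (1 / 4 : ℝ) := by linarith
      have h6 : hh d ^ 2 ≤ C ^ 2 * (d : ℝ) ^ (1 / 4 : ℝ) := by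
        calc hh d ^ 2 ≤ (C * (d : ℝ) ^ (1 / 8 : ℝ)) ^ 2 := pow_le_pow_left₀ (hh_nonneg d) h2 2
          _ = C ^ 2 * (d : ℝ) ^ (1 / 4 : ℝ) := by
            rw [mul_pow, ← Real.rpow_natCast ((d : ℝ) ^ (1 / 8 : ℝ)), ← Real.rpow_mul hd0.le]
            norm_num
      have h7 : (1 + Real.log d) / d * (hh d ^ 2 / d) =
          (1 + Real.log d) * hh d ^ 2 / (d : ℝ) ^ 2 := by
        field_simp
      have h8 : 5 * C ^ 2 * (1 / (d : ℝ) ^ (3 / 2 : ℝ)) =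
          (5 * (d : ℝ) ^ (1 / 4 : ℝ)) * (C ^ 2 * (d : ℝ) ^ (1 / 4 : ℝ)) / (d : ℝ) ^ 2 := by
        have h9 : (d : ℝ) ^ 2 = (d : ℝ) ^ (1 / 4 : ℝ) * (d : ℝ) ^ (1 / 4 : ℝ) *
            (d : ℝ) ^ (3 / 2 : ℝ) := by
          rw [← Real.rpow_add hd0, ← Real.rpow_add hd0, ← Real.rpow_natCast]
          norm_num
        rw [h9]
        have h10 : 0 < (d : ℝ) ^ (1 / 4 : ℝ) := by positivity
        have h11 : 0 < (d : ℝ) ^ (3 / 2 : ℝ) := by positivity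
        field_simp
      rw [h7, h8]
      apply div_le_div_of_nonneg_right _ (by positivity)
      exact mul_le_mul h5 h6 (sq_nonneg _) (by positivity)
    refine h1.trans ?_
    have h2 := hs.sum_le_tsum (Finset.Icc 1 N) (fun k _ => by positivity)
    linarith

lemma part_E : ∃ C : ℝ, 0 < C ∧ ∀ x : ℝ, 1 ≤ x →
    ∑ a ∈ Finset.Icc 1 ⌊x⌋₊, hh a ^ 2 / a * Ea a ≤ C * (1 + Real.log x) ^ 4 := by
  obtain ⟨C, hC, h⟩ := sum_d
  refine ⟨C, hC, fun x hx => ?_⟩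
  have h1 : ∑ a ∈ Finset.Icc 1 ⌊x⌋₊, hh a ^ 2 / a * Ea a ≤
      ∑ a ∈ Finset.Icc 1 ⌊x⌋₊, ∑ d ∈ a.divisors,
        ((1 + Real.log d) / d * (hh d ^ 2 / d)) * (hh (a / d) ^ 2 / ((a / d : ℕ) : ℝ)) := by
    refine Finset.sum_le_sum fun a ha => ?_
    have ha1 := (Finset.mem_Icc.mp ha).1
    unfold Ea
    rw [Finset.mul_sum]
    refine Finset.sum_le_sum fun d hd => ?_
    have hdvd := Nat.dvd_of_mem_divisors hd
    have h3 := Nat.mul_div_cancel' hdvd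
    have hd0 : d ≠ 0 := by
      rintro rfl
      rw [zero_mul] at h3
      omega
    have hm0 : a / d ≠ 0 := by
      intro h4
      rw [h4, mul_zero] at h3
      omega
    have h4 := hh_submul hd0 hm0
    rw [h3] at h4
    have h5 : hh a ^ 2 ≤ hh d ^ 2 * hh (a / d) ^ 2 := by
      rw [← mul_pow]
      exact pow_le_pow_left₀ (hh_nonneg a) h4 2
    have h6 : (1 + Real.log d) / d * (hh d ^ 2 / d) * (hh (a / d) ^ 2 / ((a / d : ℕ) : ℝ)) =
        (hh d ^ 2 * hh (a / d) ^ 2) / a * ((1 + Real.log d) / d) := by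
      have h7 : (a : ℝ) = (d : ℝ) * ((a / d : ℕ) : ℝ) := by
        rw [← Nat.cast_mul, h3]
      rw [h7]
      ring
    rw [h6]
    have h8 := Real.log_natCast_nonneg d
    apply mul_le_mul_of_nonneg_right _ (by positivity)
    exact div_le_div_of_nonneg_right h5 (Nat.cast_nonneg a)
  refine h1.trans ((conv_le _ (fun d m => ((1 + Real.log d) / d * (hh d ^ 2 / d)) *
    (hh m ^ 2 / (m : ℝ))) (fun a b => ?_)).trans ?_)
  · have h8 := Real.log_natCast_nonneg a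
    positivity
  · rw [← Finset.sum_mul_sum]
    have h9 : 0 ≤ ∑ m ∈ Finset.Icc 1 ⌊x⌋₊, hh m ^ 2 / (m : ℝ) :=
      Finset.sum_nonneg fun m _ => by positivity
    exact mul_le_mul (h _) (sum_H hx) h9 hC.le

/-- The weight of `dl`. -/
noncomputable def wt1 (p v : ℕ) : ℝ :=
  if v = 1 then Real.log p / p else (v : ℝ) ^ 2 * Real.log p

lemma wt1_nonneg (p v : ℕ) : 0 ≤ wt1 p v := by
  unfold wt1
  have := Real.log_natCast_nonneg p
  split_ifs <;> positivity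

/-- The majorant in the variables `p`, `v`. -/
lemma wt1_le {p v : ℕ} (hp : 2 ≤ p) (hv : 1 ≤ v) :
    wt1 p v * (((v : ℝ) + 1) ^ 2 / (p : ℝ) ^ v) ≤
      (4 * ((v : ℝ) ^ 2 * ((v : ℝ) + 1) ^ 2 * (1 / 2) ^ v)) * (Real.log p / (p : ℝ) ^ 2) := by
  have hp2 : (2 : ℝ) ≤ p := by exact_mod_cast hp
  have hp0 : (0 : ℝ) < p := by linarith
  have hlog : 0 ≤ Real.log p := Real.log_natCast_nonneg p
  unfold wt1
  rcases Nat.lt_or_ge 1 v with h | h
  · rw [if_neg (by omega)]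
    obtain ⟨k, rfl⟩ : ∃ k, v = k + 2 := ⟨v - 2, by omega⟩
    have h1 : 1 / (p : ℝ) ^ (k + 2) ≤ 4 * (1 / 2) ^ (k + 2) / (p : ℝ) ^ 2 := by
      have h2 : (2 : ℝ) ^ k ≤ (p : ℝ) ^ k := pow_le_pow_left₀ (by norm_num) hp2 k
      have h3 : (4 : ℝ) * (1 / 2) ^ (k + 2) = 1 / 2 ^ k := by
        rw [pow_add, one_div_pow]
        ring
      rw [h3, pow_add, div_div]
      apply one_div_le_one_div_of_le (by positivity)
      exact mul_le_mul_of_nonneg_right h2 (by positivity)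
    have h4 : ((k + 2 : ℕ) : ℝ) ^ 2 * Real.log p * ((((k + 2 : ℕ) : ℝ) + 1) ^ 2 /
        (p : ℝ) ^ (k + 2)) = ((k + 2 : ℕ) : ℝ) ^ 2 * Real.log p * (((k + 2 : ℕ) : ℝ) + 1) ^ 2 *
          (1 / (p : ℝ) ^ (k + 2)) := by ring
    rw [h4]
    have h5 := mul_le_mul_of_nonneg_left h1
      (show 0 ≤ ((k + 2 : ℕ) : ℝ) ^ 2 * Real.log p * (((k + 2 : ℕ) : ℝ) + 1) ^ 2 by positivity)
    refine h5.trans (le_of_eq ?_)
    ring
  · have hv1 : v = 1 := by omega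
    subst hv1
    rw [if_pos rfl]
    have h6 : 0 ≤ Real.log p / (p : ℝ) ^ 2 := by positivity
    have h7 : Real.log p / p * ((((1 : ℕ) : ℝ) + 1) ^ 2 / (p : ℝ) ^ 1) =
        4 * (Real.log p / (p : ℝ) ^ 2) := by
      push_cast
      field_simp
      norm_num
    rw [h7]
    push_cast
    norm_num
    linarith

lemma sum_v : Summable (fun v : ℕ => 4 * ((v : ℝ) ^ 2 * ((v : ℝ) + 1) ^ 2 * (1 / 2) ^ v)) := by
  have hr : ‖(1 / 2 : ℝ)‖ < 1 := by norm_num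
  have h4 := summable_pow_mul_geometric_of_norm_lt_one 4 hr
  have h3 := summable_pow_mul_geometric_of_norm_lt_one 3 hr
  have h2 := summable_pow_mul_geometric_of_norm_lt_one 2 hr
  refine (((h4.mul_left 4).add (h3.mul_left 8)).add (h2.mul_left 4)).congr fun v => ?_
  ring

lemma sum_p : Summable (fun p : ℕ => Real.log p / (p : ℝ) ^ 2) := by
  have hs : Summable (fun k : ℕ => 2 * (1 / (k : ℝ) ^ (3 / 2 : ℝ))) :=
    (Real.summable_one_div_nat_rpow.2 (by norm_num)).mul_left _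
  refine Summable.of_nonneg_of_le (fun p => ?_) (fun p => ?_) hs
  · have := Real.log_natCast_nonneg p
    positivity
  · rcases Nat.eq_zero_or_pos p with rfl | hp
    · simp
    have hp0 : (0 : ℝ) < p := by exact_mod_cast hp
    have h3 : Real.log p ≤ (p : ℝ) ^ (1 / 2 : ℝ) / (1 / 2) :=
      Real.log_le_rpow_div hp0.le (by norm_num)
    have h9 : (p : ℝ) ^ 2 = (p : ℝ) ^ (1 / 2 : ℝ) * (p : ℝ) ^ (3 / 2 : ℝ) := by
      rw [← Real.rpow_add hp0, ← Real.rpow_natCast]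
      norm_num
    have h10 : 0 < (p : ℝ) ^ (1 / 2 : ℝ) := by positivity
    have h11 : 0 < (p : ℝ) ^ (3 / 2 : ℝ) := by positivity
    rw [h9, mul_one_div, div_le_div_iff₀ (by positivity) h11]
    have h12 : Real.log p ≤ 2 * (p : ℝ) ^ (1 / 2 : ℝ) := by linarith
    nlinarith

lemma sum_pv : ∃ C : ℝ, 0 < C ∧ ∀ N : ℕ,
    ∑ p ∈ (Finset.Icc 2 N), ∑ v ∈ Finset.Icc 1 N,
      wt1 p v * (((v : ℝ) + 1) ^ 2 / (p : ℝ) ^ v) ≤ C := by
  set V : ℝ := ∑' v : ℕ, 4 * ((v : ℝ) ^ 2 * ((v : ℝ) + 1) ^ 2 * (1 / 2) ^ v) with hV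
  set P : ℝ := ∑' p : ℕ, Real.log p / (p : ℝ) ^ 2 with hP
  have hV0 : 0 ≤ V := tsum_nonneg fun v => by positivity
  have hP0 : 0 ≤ P := tsum_nonneg fun p => by
    have := Real.log_natCast_nonneg p
    positivity
  refine ⟨P * V + 1, by positivity, fun N => ?_⟩
  have h1 : ∑ p ∈ (Finset.Icc 2 N), ∑ v ∈ Finset.Icc 1 N,
      wt1 p v * (((v : ℝ) + 1) ^ 2 / (p : ℝ) ^ v) ≤
      ∑ p ∈ (Finset.Icc 2 N), ∑ v ∈ Finset.Icc 1 N, (Real.log p / (p : ℝ) ^ 2) *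
        (4 * ((v : ℝ) ^ 2 * ((v : ℝ) + 1) ^ 2 * (1 / 2) ^ v)) := by
    refine Finset.sum_le_sum fun p hp => Finset.sum_le_sum fun v hv => ?_
    rw [mul_comm (Real.log p / (p : ℝ) ^ 2)]
    exact wt1_le (Finset.mem_Icc.mp hp).1 (Finset.mem_Icc.mp hv).1
  refine h1.trans ?_
  rw [← Finset.sum_mul_sum]
  have h2 : ∑ p ∈ Finset.Icc 2 N, Real.log p / (p : ℝ) ^ 2 ≤ P :=
    sum_p.sum_le_tsum _ fun p _ => by
      have := Real.log_natCast_nonneg p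
      positivity
  have h3 : ∑ v ∈ Finset.Icc 1 N, 4 * ((v : ℝ) ^ 2 * ((v : ℝ) + 1) ^ 2 * (1 / 2) ^ v) ≤ V :=
    sum_v.sum_le_tsum _ fun v _ => by positivity
  have h4 := mul_le_mul h2 h3 (Finset.sum_nonneg fun v _ => by positivity) hP0
  linarith

lemma part_dl : ∃ C : ℝ, 0 < C ∧ ∀ x : ℝ, 1 ≤ x →
    ∑ a ∈ Finset.Icc 1 ⌊x⌋₊, hh a ^ 2 / a * dl a ≤ C * (1 + Real.log x) ^ 4 := by
  obtain ⟨C, hC, h⟩ := sum_pv
  refine ⟨C, hC, fun x hx => ?_⟩
  set N := ⌊x⌋₊ with hN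
  have e1 : ∀ a : ℕ, hh a ^ 2 / a * dl a =
      ∑ p ∈ a.primeFactors, hh a ^ 2 / a * wt1 p (a.factorization p) := by
    intro a
    unfold dl wt1
    rw [Finset.mul_sum]
  rw [Finset.sum_congr rfl (fun a _ => e1 a), Finset.sum_sigma']
  have h2 : ∑ s ∈ (Finset.Icc 1 N).sigma (fun a => a.primeFactors),
      hh s.1 ^ 2 / s.1 * wt1 s.2 (s.1.factorization s.2) ≤
      ∑ q ∈ (Finset.Icc 2 N ×ˢ Finset.Icc 1 N) ×ˢ Finset.Icc 1 N,
        (wt1 q.1.1 q.1.2 * (((q.1.2 : ℝ) + 1) ^ 2 / (q.1.1 : ℝ) ^ q.1.2)) *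
          (hh q.2 ^ 2 / (q.2 : ℝ)) := by
    refine sum_le_of_inj _ _ _ (fun q : (ℕ × ℕ) × ℕ =>
      (wt1 q.1.1 q.1.2 * (((q.1.2 : ℝ) + 1) ^ 2 / (q.1.1 : ℝ) ^ q.1.2)) *
          (hh q.2 ^ 2 / (q.2 : ℝ)))
      (fun s : (_ : ℕ) × ℕ => ((s.2, s.1.factorization s.2),
        s.1 / s.2 ^ s.1.factorization s.2)) ?_ ?_ ?_ ?_
    · rintro ⟨a, p⟩ hs
      rw [Finset.mem_sigma, Finset.mem_Icc] at hs
      obtain ⟨⟨h1, h2⟩, h3⟩ := hs
      simp only at h1 h2 h3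
      have hp := Nat.prime_of_mem_primeFactors h3
      have hdvd := Nat.dvd_of_mem_primeFactors h3
      have hv1 : 1 ≤ a.factorization p :=
        (hp.dvd_iff_one_le_factorization (by omega)).mp hdvd
      have hv2 : a.factorization p ≤ N := by
        have := Nat.factorization_lt p (show a ≠ 0 by omega)
        omega
      have hple : p ≤ N := (Nat.le_of_dvd h1 hdvd).trans h2
      have hpow : p ^ a.factorization p ∣ a := Nat.ordProj_dvd a p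
      have hpos : 0 < p ^ a.factorization p := pow_pos hp.pos _
      rw [Finset.mem_product, Finset.mem_product, Finset.mem_Icc, Finset.mem_Icc, Finset.mem_Icc]
      exact ⟨⟨⟨hp.two_le, hple⟩, hv1, hv2⟩, Nat.div_pos (Nat.le_of_dvd h1 hpow) hpos,
        (Nat.div_le_self _ _).trans h2⟩
    · rintro ⟨a, p⟩ hs ⟨a', p'⟩ hs' heq
      simp only [Prod.mk.injEq] at heq
      obtain ⟨⟨rfl, h5⟩, h6⟩ := heq
      have e1 : p ^ a.factorization p * (a / p ^ a.factorization p) = a :=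
        Nat.mul_div_cancel' (Nat.ordProj_dvd a p)
      have e2 : p ^ a'.factorization p * (a' / p ^ a'.factorization p) = a' :=
        Nat.mul_div_cancel' (Nat.ordProj_dvd a' p)
      have : a = a' := by
        rw [← e1, ← e2, h6, h5]
      rw [this]
    · rintro ⟨⟨p, v⟩, m⟩ _
      have := wt1_nonneg p v
      positivity
    · rintro ⟨a, p⟩ hs
      rw [Finset.mem_sigma, Finset.mem_Icc] at hs
      obtain ⟨⟨h1, h2⟩, h3⟩ := hs
      simp only at h1 h2 h3 ⊢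
      have hp := Nat.prime_of_mem_primeFactors h3
      have hpow : p ^ a.factorization p ∣ a := Nat.ordProj_dvd a p
      have hpos : 0 < p ^ a.factorization p := pow_pos hp.pos _
      obtain ⟨v, ev⟩ : ∃ v, v = a.factorization p := ⟨_, rfl⟩
      rw [← ev] at hpow hpos ⊢
      obtain ⟨m, em⟩ : ∃ m, m = a / p ^ v := ⟨_, rfl⟩
      rw [← em]
      have e1 : p ^ v * m = a := by
        rw [em]
        exact Nat.mul_div_cancel' hpow
      have hm0 : m ≠ 0 := by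
        rintro rfl
        rw [mul_zero] at e1
        omega
      have h4 := hh_submul hpos.ne' hm0
      rw [e1] at h4
      have h5 : hh (p ^ v) ≤ (v : ℝ) + 1 := by
        refine (hh_le_tau hpos.ne').trans ?_
        rw [Nat.divisors_prime_pow hp, Finset.card_map, Finset.card_range]
        push_cast
        exact le_rfl
      have h6 : hh a ^ 2 ≤ ((v : ℝ) + 1) ^ 2 * hh m ^ 2 := by
        rw [← mul_pow]
        apply pow_le_pow_left₀ (hh_nonneg a)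
        exact h4.trans (mul_le_mul_of_nonneg_right h5 (hh_nonneg m))
      have h7 : (a : ℝ) = (p : ℝ) ^ v * (m : ℝ) := by
        rw [← e1]
        push_cast
        rfl
      have h8 : wt1 p v * (((v : ℝ) + 1) ^ 2 / (p : ℝ) ^ v) * (hh m ^ 2 / (m : ℝ)) =
          (((v : ℝ) + 1) ^ 2 * hh m ^ 2) / a * wt1 p v := by
        rw [h7]
        ring
      rw [h8]
      apply mul_le_mul_of_nonneg_right _ (wt1_nonneg p v)
      exact div_le_div_of_nonneg_right h6 (Nat.cast_nonneg a)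
  refine h2.trans ?_
  rw [Finset.sum_product, Finset.sum_product]
  have h3 : ∑ p ∈ Finset.Icc 2 N, ∑ v ∈ Finset.Icc 1 N, ∑ m ∈ Finset.Icc 1 N,
      (wt1 p v * (((v : ℝ) + 1) ^ 2 / (p : ℝ) ^ v)) * (hh m ^ 2 / (m : ℝ)) =
      (∑ p ∈ Finset.Icc 2 N, ∑ v ∈ Finset.Icc 1 N, wt1 p v * (((v : ℝ) + 1) ^ 2 / (p : ℝ) ^ v)) *
        ∑ m ∈ Finset.Icc 1 N, hh m ^ 2 / (m : ℝ) := by
    rw [Finset.sum_mul]
    refine Finset.sum_congr rfl fun p _ => ?_
    rw [Finset.sum_mul]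
    refine Finset.sum_congr rfl fun v _ => ?_
    rw [Finset.mul_sum]
  refine (le_of_eq h3).trans ?_
  exact mul_le_mul (h N) (sum_H hx) (Finset.sum_nonneg fun m _ => by positivity) hC.le

end ESumAux

open ESumAux

theorem e_sum : ∃ C : ℝ, 0 < C ∧ ∀ x : ℝ, 1 ≤ x →
    ∑ a ∈ Finset.Icc 1 ⌊x⌋₊, hh a ^ 2 / a * (1 + Ea a + dl a) ≤ C * (1 + Real.log x) ^ 4 := by
  obtain ⟨C1, hC1, h1⟩ := part_E
  obtain ⟨C2, hC2, h2⟩ := part_dl
  refine ⟨1 + C1 + C2, by positivity, fun x hx => ?_⟩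
  have e : ∀ a : ℕ, hh a ^ 2 / a * (1 + Ea a + dl a) =
      hh a ^ 2 / a + hh a ^ 2 / a * Ea a + hh a ^ 2 / a * dl a := by
    intro a
    ring
  rw [Finset.sum_congr rfl (fun a _ => e a), Finset.sum_add_distrib, Finset.sum_add_distrib]
  have := sum_H hx
  have := h1 x hx
  have := h2 x hx
  linarith

end Pool.Agent.P07318m
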