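import Pool.Agent.Lib.P07318m.Defs
import Pool.Agent.Lib.P07318m.DAux

/-!
# P07318m.GSum: `∑_{a ≤ x} hh(a)² φ(a)/a² ~ a_3 (log x)^4/24`

Write `G(a) = hh(a)² φ(a)/a²` (multiplicative), `z1(n) = 1/n`, `m1(n) = μ(n)/n`, `f = G * m1 * m1 * m1 * m1` (Dirichlet convolution),
so `G = z1 * z1 * z1 * z1 * f`. With `x = 1/p` the local factor of `f` is a polynomial: `f(p) = x (-8x+5x²-x³)`,
`f(p²) = x² (-1+11x-4x²)`, `f(p³) = x³ (-4x-x²+x³)`, `f(p⁴) = x⁵`, `f(p^v) = 0` for `v ≥ 5`, with sum `(1-x)^4 (1+4x+x²)`.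
So `∑ |f(n)| < ∞` and `∑ f(n) = a3` by the Euler product.
`step`: if `∑_{n ≤ x} a(n) ~ A (log x)^k` then `∑_{n ≤ x} (z1 * a)(n) ~ A (log x)^{k+1}/(k+1)`. Four steps give the result.
-/

set_option autoImplicit false

open MeasureTheory Complex Filter Topology

namespace Pool.Agent.P07318m

namespace GSumAux

open Finset

/-! ### Summatory functions -/

/-- Summatory function. -/
noncomputable def Sm (a : ℕ → ℝ) (x : ℝ) : ℝ := ∑ n ∈ Ioc 0 ⌊x⌋₊, a n

/-- `n ↦ 1/n`. -/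
noncomputable def z1 : ArithmeticFunction ℝ := ⟨fun n => 1 / (n : ℝ), by simp⟩

lemma z1_apply (n : ℕ) : z1 n = 1 / (n : ℝ) := rfl

lemma Sm_mul (a : ArithmeticFunction ℝ) (x : ℝ) :
    Sm (z1 * a : ArithmeticFunction ℝ) x = ∑ m ∈ Ioc 0 ⌊x⌋₊, (1 / (m : ℝ)) * Sm a (x / m) := by
  unfold Sm
  rw [ArithmeticFunction.sum_Ioc_mul_eq_sum_sum]
  refine sum_congr rfl fun m _ => ?_
  rw [Nat.floor_div_natCast]
  rfl

lemma pow_diff_le {a b : ℝ} (ha : 0 ≤ a) (hab : a ≤ b) (k : ℕ) :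
    b ^ (k + 1) - a ^ (k + 1) ≤ ((k : ℝ) + 1) * b ^ k * (b - a) := by
  induction k with
  | zero => simp
  | succ k ih =>
    have hb : 0 ≤ b := ha.trans hab
    have h1 : b ^ (k + 1 + 1) - a ^ (k + 1 + 1) =
        b * (b ^ (k + 1) - a ^ (k + 1)) + a ^ (k + 1) * (b - a) := by ring
    have h2 : a ^ (k + 1) ≤ b ^ (k + 1) := pow_le_pow_left₀ ha hab _
    have h3 := mul_le_mul_of_nonneg_left ih hb
    have h4 := mul_le_mul_of_nonneg_right h2 (sub_nonneg.2 hab)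
    rw [h1]
    push_cast
    calc b * (b ^ (k + 1) - a ^ (k + 1)) + a ^ (k + 1) * (b - a)
        ≤ b * (((k : ℝ) + 1) * b ^ k * (b - a)) + b ^ (k + 1) * (b - a) := add_le_add h3 h4
      _ = ((k : ℝ) + 1 + 1) * b ^ (k + 1) * (b - a) := by ring

lemma le_pow_diff {a b : ℝ} (ha : 0 ≤ a) (hab : a ≤ b) (k : ℕ) :
    ((k : ℝ) + 1) * a ^ k * (b - a) ≤ b ^ (k + 1) - a ^ (k + 1) := by
  induction k with
  | zero => simp
  | succ k ih =>
    have hb : 0 ≤ b := ha.trans hab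
    have h1 : b ^ (k + 1 + 1) - a ^ (k + 1 + 1) =
        b ^ (k + 1) * (b - a) + a * (b ^ (k + 1) - a ^ (k + 1)) := by ring
    have h2 : a ^ (k + 1) ≤ b ^ (k + 1) := pow_le_pow_left₀ ha hab _
    have h3 := mul_le_mul_of_nonneg_left ih ha
    have h4 := mul_le_mul_of_nonneg_right h2 (sub_nonneg.2 hab)
    rw [h1]
    push_cast
    calc ((k : ℝ) + 1 + 1) * a ^ (k + 1) * (b - a)
        = a ^ (k + 1) * (b - a) + a * (((k : ℝ) + 1) * a ^ k * (b - a)) := by ring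
      _ ≤ _ := add_le_add h4 h3

/-- `T_k(x) = ∑_{m ≤ x} (1/m) log(x/m)^k`. -/
noncomputable def Tk (k : ℕ) (x : ℝ) : ℝ := ∑ m ∈ Ioc 0 ⌊x⌋₊, (1 / (m : ℝ)) * Real.log (x / m) ^ k

lemma log_step {x : ℝ} {N : ℕ} (hx : (N : ℝ) + 2 ≤ x) :
    0 ≤ Real.log (x / ((N + 2 : ℕ) : ℝ)) ∧
    Real.log (x / ((N + 2 : ℕ) : ℝ)) ≤ Real.log (x / ((N + 1 : ℕ) : ℝ)) ∧
    Real.log (x / ((N + 1 : ℕ) : ℝ)) - Real.log (x / ((N + 2 : ℕ) : ℝ)) ≤ 1 / ((N + 1 : ℕ) : ℝ) ∧
    1 / ((N + 2 : ℕ) : ℝ) ≤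
      Real.log (x / ((N + 1 : ℕ) : ℝ)) - Real.log (x / ((N + 2 : ℕ) : ℝ)) := by
  have hN : (0 : ℝ) ≤ (N : ℝ) := Nat.cast_nonneg N
  have hx0 : 0 < x := by linarith
  have h1 : (0 : ℝ) < ((N + 1 : ℕ) : ℝ) := by positivity
  have h2 : (0 : ℝ) < ((N + 2 : ℕ) : ℝ) := by positivity
  have e1 : ((N + 1 : ℕ) : ℝ) = (N : ℝ) + 1 := by push_cast; ring
  have e2 : ((N + 2 : ℕ) : ℝ) = (N : ℝ) + 2 := by push_cast; ring
  have hd : Real.log (x / ((N + 1 : ℕ) : ℝ)) - Real.log (x / ((N + 2 : ℕ) : ℝ)) =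
      Real.log (((N + 2 : ℕ) : ℝ) / ((N + 1 : ℕ) : ℝ)) := by
    rw [Real.log_div hx0.ne' h1.ne', Real.log_div hx0.ne' h2.ne', Real.log_div h2.ne' h1.ne']
    ring
  refine ⟨?_, ?_, ?_, ?_⟩
  · apply Real.log_nonneg
    rw [le_div_iff₀ h2, e2]
    linarith
  · apply Real.log_le_log (by positivity)
    apply div_le_div_of_nonneg_left hx0.le h1
    rw [e1, e2]
    linarith
  · rw [hd]
    refine (Real.log_le_sub_one_of_pos (by positivity)).trans (le_of_eq ?_)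
    rw [e1, e2]
    field_simp
    ring
  · rw [hd]
    have h3 := Real.one_sub_inv_le_log_of_pos (show 0 < ((N + 2 : ℕ) : ℝ) / ((N + 1 : ℕ) : ℝ) by
      positivity)
    refine le_trans (le_of_eq ?_) h3
    rw [inv_div, e1, e2]
    field_simp
    ring

lemma lower_ind (k : ℕ) (x : ℝ) : ∀ N : ℕ, (N : ℝ) + 1 ≤ x →
    Real.log x ^ (k + 1) - Real.log (x / ((N + 1 : ℕ) : ℝ)) ^ (k + 1) ≤
      ((k : ℝ) + 1) * ∑ m ∈ Ioc 0 N, (1 / (m : ℝ)) * Real.log (x / m) ^ k := by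
  intro N
  induction N with
  | zero =>
    intro _
    simp
  | succ N ih =>
    intro hx
    push_cast at hx
    have hx2 : (N : ℝ) + 2 ≤ x := by linarith
    have h1 := ih (by linarith)
    obtain ⟨ha, hab, hd, _⟩ := log_step hx2
    rw [Finset.sum_Ioc_succ_top (Nat.zero_le N), mul_add]
    have h2 := pow_diff_le ha hab k
    have h3 : ((k : ℝ) + 1) * Real.log (x / ((N + 1 : ℕ) : ℝ)) ^ k *
        (Real.log (x / ((N + 1 : ℕ) : ℝ)) - Real.log (x / ((N + 2 : ℕ) : ℝ))) ≤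
        ((k : ℝ) + 1) * Real.log (x / ((N + 1 : ℕ) : ℝ)) ^ k * (1 / ((N + 1 : ℕ) : ℝ)) := by
      apply mul_le_mul_of_nonneg_left hd
      have : 0 ≤ Real.log (x / ((N + 1 : ℕ) : ℝ)) := ha.trans hab
      positivity
    have h4 : ((k : ℝ) + 1) * Real.log (x / ((N + 1 : ℕ) : ℝ)) ^ k * (1 / ((N + 1 : ℕ) : ℝ)) =
      ((k : ℝ) + 1) * ((1 / ((N + 1 : ℕ) : ℝ)) * Real.log (x / ((N + 1 : ℕ) : ℝ)) ^ k) := by ring
    show Real.log x ^ (k + 1) - Real.log (x / ((N + 2 : ℕ) : ℝ)) ^ (k + 1) ≤ _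
    linarith

lemma upper_ind (k : ℕ) (x : ℝ) : ∀ N : ℕ, (N : ℝ) + 1 ≤ x →
    ((k : ℝ) + 1) * ∑ m ∈ Ioc 0 (N + 1), (1 / (m : ℝ)) * Real.log (x / m) ^ k ≤
      ((k : ℝ) + 1) * Real.log x ^ k + Real.log x ^ (k + 1) -
        Real.log (x / ((N + 1 : ℕ) : ℝ)) ^ (k + 1) := by
  intro N
  induction N with
  | zero =>
    intro _
    rw [Finset.sum_Ioc_succ_top (Nat.zero_le 0)]
    simp
  | succ N ih =>
    intro hx
    push_cast at hx
    have hx2 : (N : ℝ) + 2 ≤ x := by linarith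
    have h1 := ih (by linarith)
    obtain ⟨ha, hab, _, hd⟩ := log_step hx2
    rw [Finset.sum_Ioc_succ_top (Nat.zero_le (N + 1)), mul_add]
    have h2 := le_pow_diff ha hab k
    have h3 : ((k : ℝ) + 1) * Real.log (x / ((N + 2 : ℕ) : ℝ)) ^ k * (1 / ((N + 2 : ℕ) : ℝ)) ≤
        ((k : ℝ) + 1) * Real.log (x / ((N + 2 : ℕ) : ℝ)) ^ k *
        (Real.log (x / ((N + 1 : ℕ) : ℝ)) - Real.log (x / ((N + 2 : ℕ) : ℝ))) := by
      apply mul_le_mul_of_nonneg_left hd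
      positivity
    have h4 : ((k : ℝ) + 1) * Real.log (x / ((N + 2 : ℕ) : ℝ)) ^ k * (1 / ((N + 2 : ℕ) : ℝ)) =
      ((k : ℝ) + 1) * ((1 / ((N + 2 : ℕ) : ℝ)) * Real.log (x / ((N + 2 : ℕ) : ℝ)) ^ k) := by ring
    show _ + ((k : ℝ) + 1) * ((1 / ((N + 2 : ℕ) : ℝ)) * Real.log (x / ((N + 2 : ℕ) : ℝ)) ^ k) ≤
      ((k : ℝ) + 1) * Real.log x ^ k + Real.log x ^ (k + 1) -
        Real.log (x / ((N + 2 : ℕ) : ℝ)) ^ (k + 1)
    linarith

lemma log_term_nonneg {x : ℝ} (hx : 1 ≤ x) {m : ℕ} (hm : m ∈ Ioc 0 ⌊x⌋₊) :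
    0 ≤ Real.log (x / m) := by
  rw [Finset.mem_Ioc] at hm
  apply Real.log_nonneg
  have h1 : (0 : ℝ) < m := by exact_mod_cast hm.1
  rw [le_div_iff₀ h1, one_mul]
  exact (Nat.cast_le.2 hm.2).trans (Nat.floor_le (by linarith))

lemma Tk_nonneg (k : ℕ) {x : ℝ} (hx : 1 ≤ x) : 0 ≤ Tk k x :=
  Finset.sum_nonneg fun _ hm => mul_nonneg (by positivity) (pow_nonneg (log_term_nonneg hx hm) _)

lemma Tk_bounds (k : ℕ) {x : ℝ} (hx : 1 ≤ x) :
    (Real.log x ^ (k + 1) - 1) / ((k : ℝ) + 1) ≤ Tk k x ∧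
    Tk k x ≤ Real.log x ^ (k + 1) / ((k : ℝ) + 1) + Real.log x ^ k := by
  have hk : (0 : ℝ) < (k : ℝ) + 1 := by positivity
  have hx0 : 0 < x := by linarith
  obtain ⟨N, hN⟩ : ∃ N, ⌊x⌋₊ = N + 1 := by
    have : 1 ≤ ⌊x⌋₊ := (Nat.one_le_floor_iff x).2 hx
    exact ⟨⌊x⌋₊ - 1, by omega⟩
  have hNx : (N : ℝ) + 1 ≤ x := by
    have := Nat.floor_le hx0.le
    rw [hN] at this
    push_cast at this
    exact this
  have hx2 : x < (N : ℝ) + 2 := by
    have := Nat.lt_floor_add_one x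
    rw [hN] at this
    push_cast at this
    linarith
  have hN0 : (0 : ℝ) ≤ (N : ℝ) := Nat.cast_nonneg N
  have hl0 : 0 ≤ Real.log (x / ((N + 1 : ℕ) : ℝ)) := by
    apply Real.log_nonneg
    rw [le_div_iff₀ (by positivity)]
    push_cast
    linarith
  have hl1 : Real.log (x / ((N + 1 : ℕ) : ℝ)) ≤ 1 := by
    refine (Real.log_le_sub_one_of_pos (by positivity)).trans ?_
    have : x / ((N + 1 : ℕ) : ℝ) ≤ 2 := by
      rw [div_le_iff₀ (by positivity)]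
      push_cast
      linarith
    linarith
  constructor
  · have h1 := lower_ind k x N hNx
    have h2 : Real.log (x / ((N + 1 : ℕ) : ℝ)) ^ (k + 1) ≤ 1 := pow_le_one₀ hl0 hl1
    have h3 : ∑ m ∈ Ioc 0 N, (1 / (m : ℝ)) * Real.log (x / m) ^ k ≤ Tk k x := by
      unfold Tk
      rw [hN]
      apply Finset.sum_le_sum_of_subset_of_nonneg
      · exact Finset.Ioc_subset_Ioc_right (Nat.le_succ N)
      · intro m hm _
        rw [← hN] at hm
        exact mul_nonneg (by positivity) (pow_nonneg (log_term_nonneg hx hm) _)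
    rw [div_le_iff₀ hk]
    nlinarith
  · have h1 := upper_ind k x N hNx
    have h2 : 0 ≤ Real.log (x / ((N + 1 : ℕ) : ℝ)) ^ (k + 1) := pow_nonneg hl0 _
    have h3 : Tk k x = ∑ m ∈ Ioc 0 (N + 1), (1 / (m : ℝ)) * Real.log (x / m) ^ k := by
      unfold Tk
      rw [hN]
    rw [← h3] at h1
    have h4 : Real.log x ^ (k + 1) / ((k : ℝ) + 1) + Real.log x ^ k =
        (Real.log x ^ (k + 1) + ((k : ℝ) + 1) * Real.log x ^ k) / ((k : ℝ) + 1) := by
      field_simp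
    rw [h4, le_div_iff₀ hk]
    linarith

lemma Tk_tendsto (k : ℕ) :
    Tendsto (fun x : ℝ => Tk k x / Real.log x ^ (k + 1)) atTop (𝓝 (1 / ((k : ℝ) + 1))) := by
  have hk : (0 : ℝ) < (k : ℝ) + 1 := by positivity
  have hinv : Tendsto (fun x : ℝ => (Real.log x)⁻¹) atTop (𝓝 0) :=
    tendsto_inv_atTop_zero.comp Real.tendsto_log_atTop
  have hlo : Tendsto (fun x : ℝ => 1 / ((k : ℝ) + 1) -
      (1 / ((k : ℝ) + 1)) * ((Real.log x)⁻¹) ^ (k + 1)) atTop (𝓝 (1 / ((k : ℝ) + 1))) := by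
    have h1 := (hinv.pow (k + 1)).const_mul (1 / ((k : ℝ) + 1))
    have h2 := h1.const_sub (1 / ((k : ℝ) + 1))
    simpa using h2
  have hhi : Tendsto (fun x : ℝ => 1 / ((k : ℝ) + 1) + (Real.log x)⁻¹) atTop
      (𝓝 (1 / ((k : ℝ) + 1))) := by
    have h2 := hinv.const_add (1 / ((k : ℝ) + 1))
    simpa using h2
  refine tendsto_of_tendsto_of_tendsto_of_le_of_le' hlo hhi ?_ ?_
  · filter_upwards [eventually_gt_atTop (Real.exp 1)] with x hx
    have hx1 : 1 ≤ x := by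
      have := Real.one_le_exp (zero_le_one (α := ℝ))
      linarith
    have hL : 0 < Real.log x := by
      rw [Real.lt_log_iff_exp_lt (by linarith)]
      have := Real.exp_lt_exp.2 (zero_lt_one (α := ℝ))
      linarith
    have h1 := (Tk_bounds k hx1).1
    rw [le_div_iff₀ (by positivity)]
    refine le_trans (le_of_eq ?_) h1
    have : ((Real.log x)⁻¹) ^ (k + 1) * Real.log x ^ (k + 1) = 1 := by
      rw [← mul_pow, inv_mul_cancel₀ hL.ne', one_pow]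
    calc (1 / ((k : ℝ) + 1) - (1 / ((k : ℝ) + 1)) * ((Real.log x)⁻¹) ^ (k + 1)) *
          Real.log x ^ (k + 1) = (1 / ((k : ℝ) + 1)) * (Real.log x ^ (k + 1) -
          ((Real.log x)⁻¹) ^ (k + 1) * Real.log x ^ (k + 1)) := by ring
      _ = _ := by
          rw [this]
          ring
  · filter_upwards [eventually_gt_atTop (Real.exp 1)] with x hx
    have hx1 : 1 ≤ x := by
      have := Real.one_le_exp (zero_le_one (α := ℝ))
      linarith
    have hL : 0 < Real.log x := by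
      rw [Real.lt_log_iff_exp_lt (by linarith)]
      have := Real.exp_lt_exp.2 (zero_lt_one (α := ℝ))
      linarith
    have h1 := (Tk_bounds k hx1).2
    rw [div_le_iff₀ (by positivity)]
    refine h1.trans (le_of_eq ?_)
    rw [add_mul, pow_succ (Real.log x) k]
    field_simp

/-- The error estimate. -/
lemma step_err (a : ArithmeticFunction ℝ) (k : ℕ) (A : ℝ)
    (h : Tendsto (fun x : ℝ => Sm a x / Real.log x ^ k) atTop (𝓝 A)) (ε : ℝ) (hε : 0 < ε) :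
    ∃ C : ℝ, ∀ x : ℝ, 1 ≤ x →
      |Sm (z1 * a : ArithmeticFunction ℝ) x - A * Tk k x| ≤ ε * Tk k x + C := by
  obtain ⟨X, hX⟩ := (Metric.tendsto_atTop.1 h) ε hε
  set X0 : ℝ := max X 3 with hX0
  have hX03 : 3 ≤ X0 := le_max_right _ _
  set C1 : ℝ := ∑ n ∈ Ioc 0 ⌊X0⌋₊, |a n| + |A| * Real.log X0 ^ k with hC1
  have hlogX0 : 0 ≤ Real.log X0 := Real.log_nonneg (by linarith)
  have hC10 : 0 ≤ C1 := by positivity
  have key : ∀ y : ℝ, 1 ≤ y → |Sm a y - A * Real.log y ^ k| ≤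
      ε * Real.log y ^ k + (if y < X0 then C1 else 0) := by
    intro y hy
    have hly : 0 ≤ Real.log y := Real.log_nonneg hy
    by_cases hyX : y < X0
    · rw [if_pos hyX]
      have h1 : |Sm a y| ≤ ∑ n ∈ Ioc 0 ⌊X0⌋₊, |a n| := by
        refine (Finset.abs_sum_le_sum_abs _ _).trans ?_
        apply Finset.sum_le_sum_of_subset_of_nonneg
        · exact Finset.Ioc_subset_Ioc_right (Nat.floor_le_floor hyX.le)
        · intro _ _ _
          exact abs_nonneg _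
      have h2 : |A * Real.log y ^ k| ≤ |A| * Real.log X0 ^ k := by
        rw [abs_mul, abs_of_nonneg (pow_nonneg hly k)]
        exact mul_le_mul_of_nonneg_left (pow_le_pow_left₀ hly
          (Real.log_le_log (by linarith) hyX.le) k) (abs_nonneg _)
      have h3 := abs_sub (Sm a y) (A * Real.log y ^ k)
      have h4 : 0 ≤ ε * Real.log y ^ k := by positivity
      linarith
    · rw [if_neg hyX, add_zero]
      push Not at hyX
      have hL : 0 < Real.log y := Real.log_pos (by linarith)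
      have h1 := hX y ((le_max_left _ _).trans hyX)
      rw [Real.dist_eq] at h1
      have h2 : Sm a y - A * Real.log y ^ k = (Sm a y / Real.log y ^ k - A) * Real.log y ^ k := by
        field_simp
      rw [h2, abs_mul, abs_of_nonneg (pow_nonneg hly k)]
      exact mul_le_mul_of_nonneg_right h1.le (by positivity)
  refine ⟨C1 * X0, fun x hx => ?_⟩
  have hx0 : 0 < x := by linarith
  rw [Sm_mul]
  unfold Tk
  rw [Finset.mul_sum, ← Finset.sum_sub_distrib]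
  refine (Finset.abs_sum_le_sum_abs _ _).trans ?_
  have h1 : ∀ m ∈ Ioc 0 ⌊x⌋₊, |1 / (m : ℝ) * Sm a (x / m) - A * (1 / (m : ℝ) *
      Real.log (x / m) ^ k)| ≤ ε * (1 / (m : ℝ) * Real.log (x / m) ^ k) + C1 * X0 / x := by
    intro m hm
    have hm' := Finset.mem_Ioc.1 hm
    have hm0 : (0 : ℝ) < m := by exact_mod_cast hm'.1
    have hmx : (m : ℝ) ≤ x := (Nat.cast_le.2 hm'.2).trans (Nat.floor_le hx0.le)
    have h2 := key (x / m) (by rw [le_div_iff₀ hm0]; linarith)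
    have h3 : 1 / (m : ℝ) * Sm a (x / m) - A * (1 / (m : ℝ) * Real.log (x / m) ^ k) =
        1 / (m : ℝ) * (Sm a (x / m) - A * Real.log (x / m) ^ k) := by ring
    rw [h3, abs_mul, abs_of_pos (by positivity : 0 < 1 / (m : ℝ))]
    have h4 : 1 / (m : ℝ) * (if x / m < X0 then C1 else 0) ≤ C1 * X0 / x := by
      by_cases hc : x / m < X0
      · rw [if_pos hc]
        rw [div_lt_iff₀ hm0] at hc
        rw [one_div_mul_eq_div, div_le_div_iff₀ hm0 hx0]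
        nlinarith
      · rw [if_neg hc, mul_zero]
        positivity
    calc 1 / (m : ℝ) * |Sm a (x / m) - A * Real.log (x / m) ^ k|
        ≤ 1 / (m : ℝ) * (ε * Real.log (x / m) ^ k + (if x / m < X0 then C1 else 0)) :=
          mul_le_mul_of_nonneg_left h2 (by positivity)
      _ = ε * (1 / (m : ℝ) * Real.log (x / m) ^ k) +
          1 / (m : ℝ) * (if x / m < X0 then C1 else 0) := by ring
      _ ≤ _ := by linarith
  refine (Finset.sum_le_sum h1).trans ?_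
  rw [Finset.sum_add_distrib, ← Finset.mul_sum, Finset.sum_const, nsmul_eq_mul, Nat.card_Ioc,
    Nat.sub_zero]
  have h5 : (⌊x⌋₊ : ℝ) * (C1 * X0 / x) ≤ C1 * X0 := by
    have : (⌊x⌋₊ : ℝ) ≤ x := Nat.floor_le hx0.le
    calc (⌊x⌋₊ : ℝ) * (C1 * X0 / x) ≤ x * (C1 * X0 / x) :=
          mul_le_mul_of_nonneg_right this (by positivity)
      _ = C1 * X0 := by field_simp
  linarith

/-- The integration step. -/
theorem step (a : ArithmeticFunction ℝ) (k : ℕ) (A : ℝ)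
    (h : Tendsto (fun x : ℝ => Sm a x / Real.log x ^ k) atTop (𝓝 A)) :
    Tendsto (fun x : ℝ => Sm (z1 * a : ArithmeticFunction ℝ) x / Real.log x ^ (k + 1)) atTop
      (𝓝 (A * (1 / ((k : ℝ) + 1)))) := by
  have hT := Tk_tendsto k
  have hD : Tendsto (fun x : ℝ => (Sm (z1 * a : ArithmeticFunction ℝ) x - A * Tk k x) /
      Real.log x ^ (k + 1)) atTop (𝓝 0) := by
    rw [Metric.tendsto_atTop']
    intro ε hε
    obtain ⟨C, hC⟩ := step_err a k A h (ε / 4) (by positivity)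
    have hlim : Tendsto (fun x : ℝ => ε / 4 * (Tk k x / Real.log x ^ (k + 1)) +
        C * ((Real.log x)⁻¹) ^ (k + 1)) atTop (𝓝 (ε / 4 * (1 / ((k : ℝ) + 1)) + C * 0)) := by
      refine (hT.const_mul _).add (Tendsto.const_mul _ ?_)
      have hinv : Tendsto (fun x : ℝ => (Real.log x)⁻¹) atTop (𝓝 0) :=
        tendsto_inv_atTop_zero.comp Real.tendsto_log_atTop
      simpa using hinv.pow (k + 1)
    have hlt : ε / 4 * (1 / ((k : ℝ) + 1)) + C * 0 < ε := by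
      have : 1 / ((k : ℝ) + 1) ≤ 1 := by
        rw [div_le_one (by positivity)]
        have : (0 : ℝ) ≤ k := Nat.cast_nonneg k
        linarith
      nlinarith
    have hev := (hlim.eventually (gt_mem_nhds hlt)).and (eventually_gt_atTop (Real.exp 1))
    obtain ⟨N, hN⟩ := (eventually_atTop.1 hev)
    refine ⟨N, fun x hx => ?_⟩
    obtain ⟨h1, h2⟩ := hN x hx.le
    have hx1 : 1 ≤ x := by
      have := Real.one_le_exp (zero_le_one (α := ℝ))
      linarith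
    have hL : 0 < Real.log x := by
      rw [Real.lt_log_iff_exp_lt (by linarith)]
      have := Real.exp_lt_exp.2 (zero_lt_one (α := ℝ))
      linarith
    rw [Real.dist_eq, sub_zero, abs_div, abs_of_pos (pow_pos hL (k + 1))]
    refine lt_of_le_of_lt ?_ h1
    rw [div_le_iff₀ (pow_pos hL (k + 1))]
    refine (hC x hx1).trans (le_of_eq ?_)
    have : ((Real.log x)⁻¹) ^ (k + 1) * Real.log x ^ (k + 1) = 1 := by
      rw [← mul_pow, inv_mul_cancel₀ hL.ne', one_pow]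
    rw [add_mul, mul_assoc C, this, mul_one, mul_assoc, div_mul_cancel₀ _ (pow_pos hL _).ne']
  have hfin := hD.add (hT.const_mul A)
  rw [zero_add] at hfin
  refine hfin.congr' ?_
  filter_upwards with x
  ring

/-! ### The arithmetic functions -/

/-- `n ↦ μ(n)/n`. -/
noncomputable def m1 : ArithmeticFunction ℝ :=
  ⟨fun n => ((ArithmeticFunction.moebius n : ℤ) : ℝ) / (n : ℝ), by simp⟩

lemma m1_apply (n : ℕ) : m1 n = ((ArithmeticFunction.moebius n : ℤ) : ℝ) / (n : ℝ) := rfl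

lemma m1_mult : m1.IsMultiplicative := by
  rw [ArithmeticFunction.IsMultiplicative.iff_ne_zero]
  constructor
  · rw [m1_apply]
    simp
  · intro m n hm hn h
    rw [m1_apply, m1_apply, m1_apply,
      ArithmeticFunction.isMultiplicative_moebius.map_mul_of_coprime h]
    push_cast
    field_simp

lemma z1_m1 : z1 * m1 = 1 := by
  ext n
  rw [ArithmeticFunction.mul_apply]
  rcases Nat.eq_zero_or_pos n with rfl | hn
  · simp
  have hn0 : (n : ℝ) ≠ 0 := by exact_mod_cast hn.ne'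
  have h1 : ∀ q ∈ n.divisorsAntidiagonal, z1 q.1 * m1 q.2 =
      (1 / (n : ℝ)) * ((ArithmeticFunction.moebius q.2 : ℤ) : ℝ) := by
    intro q hq
    have h2 := (Nat.mem_divisorsAntidiagonal.1 hq).1
    have h3 : (q.1 : ℝ) * (q.2 : ℝ) = n := by exact_mod_cast h2
    rw [z1_apply, m1_apply, ← h3]
    have h4 : (q.1 : ℝ) ≠ 0 := by
      intro h0
      rw [h0, zero_mul] at h3
      exact hn0 h3.symm
    have h5 : (q.2 : ℝ) ≠ 0 := by
      intro h0
      rw [h0, mul_zero] at h3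
      exact hn0 h3.symm
    field_simp
  rw [Finset.sum_congr rfl h1, ← Finset.mul_sum, ← Int.cast_sum]
  have h6 : ∑ q ∈ n.divisorsAntidiagonal, ArithmeticFunction.moebius q.2 =
      (1 : ArithmeticFunction ℤ) n := by
    have h7 := congrArg (fun f : ArithmeticFunction ℤ => f n)
      ArithmeticFunction.coe_zeta_mul_moebius
    simp only [ArithmeticFunction.mul_apply] at h7
    rw [← h7]
    refine Finset.sum_congr rfl fun q hq => ?_
    have h8 : q.1 ≠ 0 := by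
      intro h0
      have h2 := (Nat.mem_divisorsAntidiagonal.1 hq)
      rw [h0, zero_mul] at h2
      exact h2.2 h2.1.symm
    rw [ArithmeticFunction.natCoe_apply, ArithmeticFunction.zeta_apply_ne h8]
    simp
  rw [h6]
  by_cases h1' : n = 1
  · subst h1'
    simp
  · rw [ArithmeticFunction.one_apply_ne h1', ArithmeticFunction.one_apply_ne h1']
    simp

lemma hh_mul {m n : ℕ} (h : m.Coprime n) : hh (m * n) = hh m * hh n := by
  unfold hh
  rw [h.primeFactors_mul, Finset.prod_union h.disjoint_primeFactors]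
  congr 1
  · refine Finset.prod_congr rfl fun p hp => ?_
    rw [Nat.factorization_eq_of_coprime_left h (Nat.mem_primeFactors_iff_mem_primeFactorsList.1 hp)]
  · refine Finset.prod_congr rfl fun p hp => ?_
    rw [Nat.factorization_eq_of_coprime_right h
      (Nat.mem_primeFactors_iff_mem_primeFactorsList.1 hp)]

/-- `G(n) = hh(n)² φ(n)/n²`. -/
noncomputable def Gf : ArithmeticFunction ℝ :=
  ⟨fun n => hh n ^ 2 * (n.totient : ℝ) / (n : ℝ) ^ 2, by simp⟩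

lemma Gf_apply (n : ℕ) : Gf n = hh n ^ 2 * (n.totient : ℝ) / (n : ℝ) ^ 2 := rfl

lemma Gf_mult : Gf.IsMultiplicative := by
  rw [ArithmeticFunction.IsMultiplicative.iff_ne_zero]
  constructor
  · rw [Gf_apply]
    simp [hh]
  · intro m n hm hn h
    rw [Gf_apply, Gf_apply, Gf_apply, hh_mul h, Nat.totient_mul h]
    push_cast
    have h1 : (m : ℝ) ≠ 0 := by exact_mod_cast hm
    have h2 : (n : ℝ) ≠ 0 := by exact_mod_cast hn
    field_simp

lemma Gf_one : Gf 1 = 1 := Gf_mult.map_one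

lemma Gf_pow {p : ℕ} (hp : p.Prime) (v : ℕ) :
    Gf (p ^ (v + 1)) = (1 + ((v : ℝ) + 1) * (1 - (p : ℝ)⁻¹)) ^ 2 * (1 - (p : ℝ)⁻¹) *
      ((p : ℝ)⁻¹) ^ (v + 1) := by
  have hp0 : (p : ℝ) ≠ 0 := by exact_mod_cast hp.ne_zero
  rw [Gf_apply]
  have h1 : hh (p ^ (v + 1)) = 1 + ((v : ℝ) + 1) * (1 - (p : ℝ)⁻¹) := by
    unfold hh
    rw [Nat.primeFactors_prime_pow (by omega) hp, Finset.prod_singleton,
      hp.factorization_pow, Finsupp.single_eq_same]
    push_cast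
    rw [one_div]
  rw [h1, Nat.totient_prime_pow_succ hp]
  push_cast [hp.one_le]
  rw [inv_pow]
  have hpv : (p : ℝ) ^ v ≠ 0 := pow_ne_zero _ hp0
  field_simp
  ring

/-- Convolution with `m1` at a prime power. -/
lemma conv_m1 (a : ArithmeticFunction ℝ) {p : ℕ} (hp : p.Prime) (j : ℕ) :
    (a * m1) (p ^ (j + 1)) = a (p ^ (j + 1)) - a (p ^ j) * (p : ℝ)⁻¹ := by
  rw [ArithmeticFunction.mul_apply,
    Nat.sum_divisorsAntidiagonal' (fun x y => a x * m1 y), Nat.sum_divisors_prime_pow hp]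
  rw [Finset.sum_range_succ', Finset.sum_range_succ']
  have h1 : ∑ i ∈ Finset.range j, a (p ^ (j + 1) / p ^ (i + 1 + 1)) * m1 (p ^ (i + 1 + 1)) =
      0 := by
    refine Finset.sum_eq_zero fun i _ => ?_
    have h2 : m1 (p ^ (i + 1 + 1)) = 0 := by
      rw [m1_apply, ArithmeticFunction.moebius_apply_prime_pow hp (by omega),
        if_neg (by omega)]
      simp
    rw [h2, mul_zero]
  rw [h1]
  have h3 : m1 (p ^ (0 + 1)) = - (p : ℝ)⁻¹ := by
    rw [m1_apply, ArithmeticFunction.moebius_apply_prime_pow hp (by omega), if_pos (by omega)]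
    simp [neg_div]
  have h4 : m1 (p ^ 0) = 1 := by
    rw [pow_zero]
    exact m1_mult.map_one
  have h5 : p ^ (j + 1) / p ^ (0 + 1) = p ^ j := by
    rw [zero_add, pow_one, pow_succ, Nat.mul_div_cancel _ hp.pos]
  rw [h3, h4, h5, pow_zero, Nat.div_one]
  ring

lemma conv_m1_zero (a : ArithmeticFunction ℝ) (p : ℕ) : (a * m1) (p ^ 0) = a (p ^ 0) := by
  rw [pow_zero, ArithmeticFunction.mul_apply]
  simp [m1_mult.map_one]

/-- The function `f`. -/
noncomputable def f1 : ArithmeticFunction ℝ := Gf * m1 * m1 * m1 * m1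

lemma f1_mult : f1.IsMultiplicative :=
  (((Gf_mult.mul m1_mult).mul m1_mult).mul m1_mult).mul m1_mult

lemma Gf_eq : z1 * (z1 * (z1 * (z1 * f1))) = Gf := by
  calc z1 * (z1 * (z1 * (z1 * f1))) = Gf * (z1 * m1) ^ 4 := by
        unfold f1
        ring
    _ = Gf := by rw [z1_m1, one_pow, mul_one]

lemma f1_0 (p : ℕ) : f1 (p ^ 0) = 1 := by
  rw [pow_zero]
  exact f1_mult.map_one

lemma f1_1 {p : ℕ} (hp : p.Prime) : f1 (p ^ 1) =
    (p : ℝ)⁻¹ * (-8 * (p : ℝ)⁻¹ + 5 * ((p : ℝ)⁻¹) ^ 2 - ((p : ℝ)⁻¹) ^ 3) := by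
  have e0 : Gf (p ^ 0) = 1 := by rw [pow_zero, Gf_one]
  have e1 := Gf_pow hp 0
  unfold f1
  change (Gf * m1 * m1 * m1 * m1) (p ^ (0 + 1)) = _
  simp only [conv_m1 _ hp, conv_m1_zero]
  rw [e0, e1]
  push_cast
  ring

lemma f1_2 {p : ℕ} (hp : p.Prime) : f1 (p ^ 2) =
    ((p : ℝ)⁻¹) ^ 2 * (-1 + 11 * (p : ℝ)⁻¹ - 4 * ((p : ℝ)⁻¹) ^ 2) := by
  have e0 : Gf (p ^ 0) = 1 := by rw [pow_zero, Gf_one]
  have e1 := Gf_pow hp 0
  have e2 := Gf_pow hp 1
  unfold f1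
  change (Gf * m1 * m1 * m1 * m1) (p ^ (0 + 1 + 1)) = _
  simp only [conv_m1 _ hp, conv_m1_zero]
  rw [zero_add] at e1 ⊢
  rw [e0, e1, e2]
  push_cast
  ring

lemma f1_3 {p : ℕ} (hp : p.Prime) : f1 (p ^ 3) =
    ((p : ℝ)⁻¹) ^ 3 * (-4 * (p : ℝ)⁻¹ - ((p : ℝ)⁻¹) ^ 2 + ((p : ℝ)⁻¹) ^ 3) := by
  have e0 : Gf (p ^ 0) = 1 := by rw [pow_zero, Gf_one]
  have e1 := Gf_pow hp 0
  have e2 := Gf_pow hp 1
  have e3 := Gf_pow hp 2
  unfold f1
  change (Gf * m1 * m1 * m1 * m1) (p ^ (0 + 1 + 1 + 1)) = _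
  simp only [conv_m1 _ hp, conv_m1_zero]
  rw [zero_add] at e1 ⊢
  rw [e0, e1, e2, e3]
  push_cast
  ring

lemma f1_4 {p : ℕ} (hp : p.Prime) : f1 (p ^ 4) = ((p : ℝ)⁻¹) ^ 5 := by
  have e0 : Gf (p ^ 0) = 1 := by rw [pow_zero, Gf_one]
  have e1 := Gf_pow hp 0
  have e2 := Gf_pow hp 1
  have e3 := Gf_pow hp 2
  have e4 := Gf_pow hp 3
  unfold f1
  change (Gf * m1 * m1 * m1 * m1) (p ^ (0 + 1 + 1 + 1 + 1)) = _
  simp only [conv_m1 _ hp, conv_m1_zero]
  rw [zero_add] at e1 ⊢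
  rw [e0, e1, e2, e3, e4]
  push_cast
  ring

lemma f1_5 {p : ℕ} (hp : p.Prime) (j : ℕ) : f1 (p ^ (j + 5)) = 0 := by
  have e1 := Gf_pow hp j
  have e2 := Gf_pow hp (j + 1)
  have e3 := Gf_pow hp (j + 1 + 1)
  have e4 := Gf_pow hp (j + 1 + 1 + 1)
  have e5 := Gf_pow hp (j + 1 + 1 + 1 + 1)
  unfold f1
  rw [show j + 5 = j + 1 + 1 + 1 + 1 + 1 from rfl]
  simp only [conv_m1 _ hp]
  rw [e1, e2, e3, e4, e5]
  push_cast
  ring

lemma f1_zero_of_five {p : ℕ} (hp : p.Prime) {v : ℕ} (hv : v ∉ Finset.range 5) :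
    f1 (p ^ v) = 0 := by
  rw [Finset.mem_range, not_lt] at hv
  obtain ⟨j, rfl⟩ := Nat.exists_eq_add_of_le' hv
  exact f1_5 hp j

lemma inv_prime {p : ℕ} (hp : p.Prime) : 0 < (p : ℝ)⁻¹ ∧ (p : ℝ)⁻¹ ≤ 1 / 2 := by
  have h2 : (2 : ℝ) ≤ p := by exact_mod_cast hp.two_le
  refine ⟨by positivity, ?_⟩
  rw [one_div]
  exact inv_anti₀ (by norm_num) h2

lemma local_abs {p : ℕ} (hp : p.Prime) :
    ∑' v : ℕ, |f1 (p ^ v)| ≤ 1 + 16 * ((p : ℝ)⁻¹) ^ 2 := by
  rw [tsum_eq_sum (s := Finset.range 5) (fun v hv => by rw [f1_zero_of_five hp hv, abs_zero])]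
  obtain ⟨h0, h1⟩ := inv_prime hp
  rw [Finset.sum_range_succ, Finset.sum_range_succ, Finset.sum_range_succ,
    Finset.sum_range_succ, Finset.sum_range_one, f1_0, f1_1 hp, f1_2 hp, f1_3 hp, f1_4 hp]
  set x := (p : ℝ)⁻¹ with hx
  have a1 : |x * (-8 * x + 5 * x ^ 2 - x ^ 3)| ≤ 8 * x ^ 2 := by
    rw [abs_le]
    constructor
    · nlinarith [mul_pos h0 h0, pow_pos h0 3, mul_nonneg (pow_pos h0 3).le (sub_nonneg.2 h1)]
    · have e : 8 * x ^ 2 - x * (-8 * x + 5 * x ^ 2 - x ^ 3) = x ^ 2 * (16 - 5 * x + x ^ 2) := by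
        ring
      have : 0 ≤ x ^ 2 * (16 - 5 * x + x ^ 2) := by
        apply mul_nonneg (by positivity)
        nlinarith
      linarith
  have a2 : |x ^ 2 * (-1 + 11 * x - 4 * x ^ 2)| ≤ 5 * x ^ 2 := by
    rw [abs_mul, abs_of_pos (by positivity : 0 < x ^ 2), mul_comm (5 : ℝ)]
    apply mul_le_mul_of_nonneg_left _ (by positivity)
    rw [abs_le]
    constructor
    · nlinarith
    · nlinarith
  have a3' : |x ^ 3 * (-4 * x - x ^ 2 + x ^ 3)| ≤ 2 * x ^ 2 := by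
    have e : x ^ 3 * (-4 * x - x ^ 2 + x ^ 3) = x ^ 2 * (x ^ 2 * (-4 - x + x ^ 2)) := by ring
    rw [e, abs_mul, abs_of_pos (by positivity : 0 < x ^ 2), mul_comm (2 : ℝ)]
    apply mul_le_mul_of_nonneg_left _ (by positivity)
    have hx2 : x ^ 2 ≤ 1 / 4 := by nlinarith
    rw [abs_mul, abs_of_pos (by positivity : 0 < x ^ 2)]
    have : |(-4 - x + x ^ 2)| ≤ 5 := by
      rw [abs_le]
      constructor
      · nlinarith
      · nlinarith
    calc x ^ 2 * |(-4 - x + x ^ 2)| ≤ 1 / 4 * 5 :=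
          mul_le_mul hx2 this (abs_nonneg _) (by norm_num)
      _ ≤ 2 := by norm_num
  have a4 : |x ^ 5| ≤ x ^ 2 := by
    rw [abs_of_pos (by positivity)]
    exact pow_le_pow_of_le_one h0.le (by linarith) (by norm_num)
  rw [abs_one]
  linarith

lemma local_sum {p : ℕ} (hp : p.Prime) : ∑' v : ℕ, f1 (p ^ v) =
    (1 - 1 / (p : ℝ)) ^ 4 * (1 + 4 / (p : ℝ) + 1 / (p : ℝ) ^ 2) := by
  rw [tsum_eq_sum (s := Finset.range 5) (fun v hv => f1_zero_of_five hp hv)]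
  rw [Finset.sum_range_succ, Finset.sum_range_succ, Finset.sum_range_succ,
    Finset.sum_range_succ, Finset.sum_range_one, f1_0, f1_1 hp, f1_2 hp, f1_3 hp, f1_4 hp]
  have e1 : 1 / (p : ℝ) = (p : ℝ)⁻¹ := one_div _
  have e2 : 4 / (p : ℝ) = 4 * (p : ℝ)⁻¹ := div_eq_mul_inv _ _
  have e3 : 1 / (p : ℝ) ^ 2 = ((p : ℝ)⁻¹) ^ 2 := by rw [one_div, inv_pow]
  rw [e1, e2, e3]
  ring

lemma f1_summable : Summable (fun n : ℕ => ‖f1 n‖) := by
  set F : ℕ → ℝ := fun n => |f1 n| with hF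
  have hF1 : F 1 = 1 := by
    rw [hF]
    simp [f1_mult.map_one]
  have hFm : ∀ {m n : ℕ}, Nat.Coprime m n → F (m * n) = F m * F n := by
    intro m n h
    simp only [hF]
    rw [f1_mult.map_mul_of_coprime h, abs_mul]
  have hFs : ∀ {p : ℕ}, p.Prime → Summable (fun n : ℕ => ‖F (p ^ n)‖) := by
    intro p hp
    refine summable_of_ne_finset_zero (s := Finset.range 5) fun v hv => ?_
    simp only [hF]
    rw [f1_zero_of_five hp hv]
    simp
  have hsq : Summable (fun n : ℕ => ((n : ℝ)⁻¹) ^ 2) := by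
    have := Real.summable_one_div_nat_pow.2 (by norm_num : 1 < 2)
    refine this.congr fun n => ?_
    rw [one_div, inv_pow]
  have hbound : ∀ N : ℕ, ∑ n ∈ Finset.range N, F n ≤
      Real.exp (16 * ∑' n : ℕ, ((n : ℝ)⁻¹) ^ 2) := by
    intro N
    have h1 := (EulerProduct.summable_and_hasSum_smoothNumbers_prod_primesBelow_tsum hF1 hFm
      hFs N).2
    replace h1 := (hasSum_subtype_iff_indicator (f := F) (s := Nat.smoothNumbers N)).1 h1
    have h2 : ∑ n ∈ Finset.range N, F n ≤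
        ∑ n ∈ Finset.range N, (Nat.smoothNumbers N).indicator F n := by
      refine Finset.sum_le_sum fun n hn => ?_
      rcases Nat.eq_zero_or_pos n with rfl | hn0
      · have : F 0 = 0 := by simp [hF]
        rw [this]
        exact Set.indicator_nonneg (fun _ _ => abs_nonneg _) _
      · rw [Set.indicator_of_mem (Nat.mem_smoothNumbers_of_lt hn0 (Finset.mem_range.1 hn))]
    have h3 : ∑ n ∈ Finset.range N, (Nat.smoothNumbers N).indicator F n ≤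
        ∏ p ∈ N.primesBelow, ∑' n : ℕ, F (p ^ n) :=
      sum_le_hasSum _ (fun _ _ => Set.indicator_nonneg (fun _ _ => abs_nonneg _) _) h1
    have h4 : ∏ p ∈ N.primesBelow, ∑' n : ℕ, F (p ^ n) ≤
        ∏ p ∈ N.primesBelow, Real.exp (16 * ((p : ℝ)⁻¹) ^ 2) := by
      refine Finset.prod_le_prod (fun p _ => tsum_nonneg fun _ => abs_nonneg _) fun p hp => ?_
      have h5 := local_abs (Nat.prime_of_mem_primesBelow hp)
      have h6 := Real.add_one_le_exp (16 * ((p : ℝ)⁻¹) ^ 2)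
      simp only [hF]
      linarith
    rw [← Real.exp_sum, ← Finset.mul_sum] at h4
    refine h2.trans (h3.trans (h4.trans ?_))
    apply Real.exp_le_exp.2
    apply mul_le_mul_of_nonneg_left _ (by norm_num)
    exact hsq.sum_le_tsum _ fun _ _ => by positivity
  exact summable_of_sum_range_le (fun n => abs_nonneg _) hbound

lemma prod_f1 : HasProd (fun p : Nat.Primes =>
    ((1 - 1 / ((p : ℕ) : ℝ)) ^ 4 * (1 + 4 / ((p : ℕ) : ℝ) + 1 / ((p : ℕ) : ℝ) ^ 2)))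
    (∑' n, f1 n) := by
  have h := ArithmeticFunction.IsMultiplicative.eulerProduct_hasProd f1_mult f1_summable
  have e : (fun p : Nat.Primes => ∑' v : ℕ, f1 ((p : ℕ) ^ v)) = fun p : Nat.Primes =>
    ((1 - 1 / ((p : ℕ) : ℝ)) ^ 4 * (1 + 4 / ((p : ℕ) : ℝ) + 1 / ((p : ℕ) : ℝ) ^ 2)) :=
    funext fun p => local_sum p.2
  rwa [e] at h

lemma a3_eq : a3 = ∑' n, f1 n := prod_f1.tprod_eq

lemma f1_base : Tendsto (fun x : ℝ => Sm f1 x / Real.log x ^ 0) atTop (𝓝 a3) := by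
  have h1 : Tendsto (fun N : ℕ => ∑ n ∈ Finset.range N, f1 n) atTop (𝓝 (∑' n, f1 n)) :=
    f1_summable.of_norm.hasSum.tendsto_sum_nat
  have h2 := (h1.comp (tendsto_add_atTop_nat 1)).comp
    (tendsto_nat_floor_atTop (α := ℝ))
  rw [a3_eq]
  refine h2.congr fun x => ?_
  simp only [Function.comp_apply, pow_zero, div_one]
  unfold Sm
  rw [Finset.range_eq_Ico, Finset.sum_eq_sum_Ico_succ_bot (Nat.succ_pos _)]
  rw [show f1 0 = 0 from f1.map_zero, zero_add]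
  refine Finset.sum_congr ?_ fun _ _ => rfl
  ext n
  simp only [Finset.mem_Ico, Finset.mem_Ioc]
  omega

end GSumAux

open GSumAux

theorem a3_multipliable : Multipliable (fun p : Nat.Primes =>
    ((1 - 1 / ((p : ℕ) : ℝ)) ^ 4 * (1 + 4 / ((p : ℕ) : ℝ) + 1 / ((p : ℕ) : ℝ) ^ 2))) :=
  prod_f1.multipliable

theorem a3_pos : 0 < a3 := by
  unfold a3
  set u : Nat.Primes → ℝ := fun p => -9 * (((p : ℕ) : ℝ)⁻¹) ^ 2 + 16 * (((p : ℕ) : ℝ)⁻¹) ^ 3 -
    9 * (((p : ℕ) : ℝ)⁻¹) ^ 4 + (((p : ℕ) : ℝ)⁻¹) ^ 6 with hu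
  have e : ∀ p : Nat.Primes, (1 - 1 / ((p : ℕ) : ℝ)) ^ 4 *
      (1 + 4 / ((p : ℕ) : ℝ) + 1 / ((p : ℕ) : ℝ) ^ 2) = 1 + u p := by
    intro p
    have e1 : 1 / ((p : ℕ) : ℝ) = ((p : ℕ) : ℝ)⁻¹ := one_div _
    have e2 : 4 / ((p : ℕ) : ℝ) = 4 * ((p : ℕ) : ℝ)⁻¹ := div_eq_mul_inv _ _
    have e3 : 1 / ((p : ℕ) : ℝ) ^ 2 = (((p : ℕ) : ℝ)⁻¹) ^ 2 := by rw [one_div, inv_pow]
    rw [e1, e2, e3, hu]
    ring
  have hpos : ∀ p : Nat.Primes, 0 < (1 - 1 / ((p : ℕ) : ℝ)) ^ 4 *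
      (1 + 4 / ((p : ℕ) : ℝ) + 1 / ((p : ℕ) : ℝ) ^ 2) := by
    intro p
    obtain ⟨h0, h1⟩ := inv_prime p.2
    have h2 : (0 : ℝ) < ((p : ℕ) : ℝ) := by exact_mod_cast p.2.pos
    have h3 : 0 < 1 - 1 / ((p : ℕ) : ℝ) := by
      rw [one_div]
      linarith
    positivity
  have hsq : Summable (fun p : Nat.Primes => 35 * (1 / ((p : ℕ) : ℝ) ^ 2)) :=
    ((Real.summable_one_div_nat_pow.2 (by norm_num : 1 < 2)).comp_injective
      Subtype.val_injective).mul_left 35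
  have hsum : Summable u := by
    refine Summable.of_norm_bounded hsq fun p => ?_
    obtain ⟨h0, h1⟩ := inv_prime p.2
    have e3 : 1 / ((p : ℕ) : ℝ) ^ 2 = (((p : ℕ) : ℝ)⁻¹) ^ 2 := by rw [one_div, inv_pow]
    rw [e3, hu, Real.norm_eq_abs]
    set x := (((p : ℕ) : ℝ)⁻¹) with hx
    have b3 : x ^ 3 ≤ x ^ 2 := pow_le_pow_of_le_one h0.le (by linarith) (by norm_num)
    have b4 : x ^ 4 ≤ x ^ 2 := pow_le_pow_of_le_one h0.le (by linarith) (by norm_num)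
    have b6 : x ^ 6 ≤ x ^ 2 := pow_le_pow_of_le_one h0.le (by linarith) (by norm_num)
    have c2 : 0 < x ^ 2 := by positivity
    have c3 : 0 < x ^ 3 := by positivity
    have c4 : 0 < x ^ 4 := by positivity
    have c6 : 0 < x ^ 6 := by positivity
    show |(-9 * x ^ 2 + 16 * x ^ 3 - 9 * x ^ 4 + x ^ 6)| ≤ 35 * x ^ 2
    rw [abs_le]
    constructor <;> linarith
  have hlog : Summable (fun p : Nat.Primes => Real.log ((1 - 1 / ((p : ℕ) : ℝ)) ^ 4 *
      (1 + 4 / ((p : ℕ) : ℝ) + 1 / ((p : ℕ) : ℝ) ^ 2))) := by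
    refine (Real.summable_log_one_add_of_summable hsum).congr fun p => ?_
    rw [e p]
  rw [← Real.rexp_tsum_eq_tprod hpos hlog]
  exact Real.exp_pos _

theorem g_sum : Tendsto (fun x : ℝ => (∑ a ∈ Finset.Icc 1 ⌊x⌋₊, hh a ^ 2 * (a.totient : ℝ) / (a : ℝ) ^ 2) / Real.log x ^ 4)
    atTop (𝓝 (a3 / 24)) := by
  have h1 := step f1 0 a3 f1_base
  have h2 := step (z1 * f1) 1 _ h1
  have h3 := step (z1 * (z1 * f1)) 2 _ h2
  have h4 := step (z1 * (z1 * (z1 * f1))) 3 _ h3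
  rw [Gf_eq] at h4
  have e : a3 * (1 / (((0 : ℕ) : ℝ) + 1)) * (1 / (((1 : ℕ) : ℝ) + 1)) *
      (1 / (((2 : ℕ) : ℝ) + 1)) * (1 / (((3 : ℕ) : ℝ) + 1)) = a3 / 24 := by
    push_cast
    ring
  rw [e] at h4
  refine h4.congr fun x => ?_
  unfold Sm
  rfl

end Pool.Agent.P07318m
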