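import Pool.Agent.Lib.P07318m.Defs
import Pool.Agent.Lib.P07318m.GSum

/-!
# P07318m.Mom: weighted sums from `g_sum` by partial summation

Notation `L = log Y`, `ℓ = log a`, `N = L - ℓ`, `g(a) = hh(a)² φ(a)/a²`, sums over `a ≤ √Y`.
`f2_sum`: `∑ g(a) (N^5/5 + ℓ N^4/2 + ℓ² N^3/3) ≤ (833/16 · a3/9! + ε) L^9`,
`f1_sum`: `∑ g(a) (N^5/5 + ℓ N^4/2 + 5/12 ℓ² N^3 + ℓ³ N²/8) ≥ (3667/64 · a3/9! - ε) L^9` for large `Y`.
PROOF. Moments: for every `j`: `∑_{a≤x} g(a) (log a)^j / (log x)^{j+4} → a3/(6(j+4))` (`j = 0` is `g_sum`; partial summation: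
`∑_{a≤x} g(a)(log a)^j = G(x)(log x)^j - ∫_1^x G(t) j (log t)^{j-1} dt/t`, `G(t) = (a3/24+o(1))(log t)^4`;
or with `sum_mul_eq_sub_integral_mul`). Expand the polynomials in `ℓ` (coefficients are monomials in `L`), `x = √Y`, `log x = L/2`. The limits are
`(1/6)∫_0^{1/2} u³ F(u) du` with `F` the polynomial for `L = 1`, `N = 1-u`; exact values: times `9!` these are `833/16` and `3667/64` (checked with
exact rational arithmetic). (Note `(a3/24) d(u^4) = (a3/6) u³ du`.)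
-/

set_option autoImplicit false

open MeasureTheory Complex Filter Topology

namespace Pool.Agent.P07318m

namespace MomAux

/-- `∫_1^x (log t)^n / t dt = (log x)^(n+1)/(n+1)`. -/
lemma int_log_pow (n : ℕ) {x : ℝ} (hx : 1 ≤ x) :
    IntervalIntegrable (fun t : ℝ => Real.log t ^ n / t) volume 1 x ∧
    ∫ t in (1 : ℝ)..x, Real.log t ^ n / t = Real.log x ^ (n + 1) / (n + 1) := by
  have hc : ContinuousOn (fun t : ℝ => Real.log t ^ n / t) (Set.uIcc 1 x) := by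
    rw [Set.uIcc_of_le hx]
    intro t ht
    have ht0 : t ≠ 0 := by
      have := ht.1
      positivity
    exact (((Real.continuousAt_log ht0).pow n).div continuousAt_id ht0).continuousWithinAt
  have hi : IntervalIntegrable (fun t : ℝ => Real.log t ^ n / t) volume 1 x :=
    hc.intervalIntegrable
  refine ⟨hi, ?_⟩
  have hd : ∀ t ∈ Set.uIcc 1 x, HasDerivAt (fun t : ℝ => Real.log t ^ (n + 1) / (n + 1))
      (Real.log t ^ n / t) t := by
    intro t ht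
    rw [Set.uIcc_of_le hx] at ht
    have ht0 : t ≠ 0 := by
      have := ht.1
      positivity
    have h := ((Real.hasDerivAt_log ht0).pow (n + 1)).div_const ((n : ℝ) + 1)
    refine h.congr_deriv ?_
    have hn : (n : ℝ) + 1 ≠ 0 := by positivity
    push_cast
    field_simp
  rw [intervalIntegral.integral_eq_sub_of_hasDerivAt hd hi]
  simp

/-- Abel summation for powers of the logarithm. -/
lemma abel (c : ℕ → ℝ) (hc : c 0 = 0) (j : ℕ) {x : ℝ} (hx : 1 ≤ x) :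
    (IntervalIntegrable (fun t : ℝ => ((j : ℝ) + 1) * (Real.log t ^ j / t) *
      ∑ k ∈ Finset.Icc 1 ⌊t⌋₊, c k) volume 1 x) ∧
    ∑ k ∈ Finset.Icc 1 ⌊x⌋₊, c k * Real.log k ^ (j + 1) =
      Real.log x ^ (j + 1) * (∑ k ∈ Finset.Icc 1 ⌊x⌋₊, c k) -
        ∫ t in (1 : ℝ)..x, ((j : ℝ) + 1) * (Real.log t ^ j / t) *
          ∑ k ∈ Finset.Icc 1 ⌊t⌋₊, c k := by
  have hI : ∀ (n : ℕ) (f : ℕ → ℝ), f 0 = 0 →
      ∑ k ∈ Finset.Icc 0 n, f k = ∑ k ∈ Finset.Icc 1 n, f k := by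
    intro n f hf
    symm
    apply Finset.sum_subset
    · intro k hk
      rw [Finset.mem_Icc] at hk ⊢
      omega
    · intro k hk hk'
      rw [Finset.mem_Icc] at hk hk'
      have : k = 0 := by omega
      rw [this, hf]
  have hder : ∀ t ∈ Set.Icc (1 : ℝ) x, HasDerivAt (fun t : ℝ => Real.log t ^ (j + 1))
      (((j : ℝ) + 1) * (Real.log t ^ j / t)) t := by
    intro t ht
    have ht0 : t ≠ 0 := by
      have := ht.1
      positivity
    have h := (Real.hasDerivAt_log ht0).pow (j + 1)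
    refine h.congr_deriv ?_
    push_cast
    rw [div_eq_mul_inv]
    ring_nf
  have hcont : ContinuousOn (fun t : ℝ => ((j : ℝ) + 1) * (Real.log t ^ j / t))
      (Set.Icc 1 x) := by
    intro t ht
    have ht0 : t ≠ 0 := by
      have := ht.1
      positivity
    exact (continuousAt_const.mul
      (((Real.continuousAt_log ht0).pow j).div continuousAt_id ht0)).continuousWithinAt
  have hint : IntegrableOn (fun t : ℝ => ((j : ℝ) + 1) * (Real.log t ^ j / t))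
      (Set.Icc 1 x) volume := hcont.integrableOn_Icc
  have hint' : IntegrableOn (deriv (fun t : ℝ => Real.log t ^ (j + 1))) (Set.Icc 1 x) volume := by
    refine hint.congr_fun ?_ measurableSet_Icc
    intro t ht
    exact ((hder t ht).deriv).symm
  have hprod : IntegrableOn (fun t : ℝ => ((j : ℝ) + 1) * (Real.log t ^ j / t) *
      ∑ k ∈ Finset.Icc 1 ⌊t⌋₊, c k) (Set.Icc 1 x) volume :=
    integrableOn_mul_sum_Icc (m := 1) c zero_le_one hint
  refine ⟨?_, ?_⟩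
  · rw [intervalIntegrable_iff_integrableOn_Icc_of_le hx]
    exact hprod
  · have h := sum_mul_eq_sub_integral_mul₀ c hc x (f := fun t : ℝ => Real.log t ^ (j + 1))
      (fun t ht => (hder t ht).differentiableAt) hint'
    have h1 : ∑ k ∈ Finset.Icc 1 ⌊x⌋₊, c k * Real.log k ^ (j + 1) =
        ∑ k ∈ Finset.Icc 0 ⌊x⌋₊, Real.log k ^ (j + 1) * c k := by
      rw [hI _ (fun k => Real.log k ^ (j + 1) * c k) (by simp [hc])]
      exact Finset.sum_congr rfl fun k _ => mul_comm _ _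
    rw [h1, h, hI _ c hc, intervalIntegral.integral_of_le hx]
    congr 1
    refine setIntegral_congr_fun measurableSet_Ioc ?_
    intro t ht
    have ht' : t ∈ Set.Icc 1 x := Set.Ioc_subset_Icc_self ht
    change deriv (fun t : ℝ => Real.log t ^ (j + 1)) t * _ = _
    rw [(hder t ht').deriv, hI _ c hc]

/-- Uniform version of the asymptotic formula. -/
lemma unif (κ : ℕ) (c : ℕ → ℝ) (A : ℝ) (h : Tendsto (fun x : ℝ =>
    (∑ k ∈ Finset.Icc 1 ⌊x⌋₊, c k) / Real.log x ^ κ) atTop (𝓝 A)) {ε : ℝ} (hε : 0 < ε) :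
    ∃ K : ℝ, 0 ≤ K ∧ ∀ t : ℝ, 1 ≤ t →
      |(∑ k ∈ Finset.Icc 1 ⌊t⌋₊, c k) - A * Real.log t ^ κ| ≤ K + ε * Real.log t ^ κ := by
  have h1 : ∀ᶠ x : ℝ in atTop,
      |(∑ k ∈ Finset.Icc 1 ⌊x⌋₊, c k) - A * Real.log x ^ κ| ≤ ε * Real.log x ^ κ := by
    have h2 := (Metric.tendsto_nhds.mp h) ε hε
    filter_upwards [h2, eventually_gt_atTop (1 : ℝ)] with x hx hx1
    have hL : 0 < Real.log x ^ κ := pow_pos (Real.log_pos hx1) κ
    rw [Real.dist_eq] at hx
    have e : (∑ k ∈ Finset.Icc 1 ⌊x⌋₊, c k) - A * Real.log x ^ κ =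
        ((∑ k ∈ Finset.Icc 1 ⌊x⌋₊, c k) / Real.log x ^ κ - A) * Real.log x ^ κ := by
      rw [sub_mul, div_mul_cancel₀ _ hL.ne']
    rw [e, abs_mul, abs_of_pos hL]
    exact mul_le_mul_of_nonneg_right hx.le hL.le
  obtain ⟨x0, hx0⟩ := eventually_atTop.mp h1
  set y : ℝ := max x0 1 with hy
  have hy1 : 1 ≤ y := le_max_right _ _
  refine ⟨(∑ k ∈ Finset.Icc 1 ⌊y⌋₊, |c k|) + |A| * Real.log y ^ κ, ?_, ?_⟩
  · have := Real.log_nonneg hy1
    have : 0 ≤ ∑ k ∈ Finset.Icc 1 ⌊y⌋₊, |c k| := Finset.sum_nonneg fun _ _ => abs_nonneg _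
    positivity
  · intro t ht
    have hlt := Real.log_nonneg ht
    have hly := Real.log_nonneg hy1
    have hs0 : 0 ≤ ∑ k ∈ Finset.Icc 1 ⌊y⌋₊, |c k| := Finset.sum_nonneg fun _ _ => abs_nonneg _
    rcases le_total y t with hyt | hty
    · have h3 := hx0 t ((le_max_left _ _).trans hyt)
      have : 0 ≤ |A| * Real.log y ^ κ := by positivity
      linarith
    · have h3 : |(∑ k ∈ Finset.Icc 1 ⌊t⌋₊, c k)| ≤ ∑ k ∈ Finset.Icc 1 ⌊y⌋₊, |c k| := by
        refine (Finset.abs_sum_le_sum_abs _ _).trans ?_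
        apply Finset.sum_le_sum_of_subset_of_nonneg
        · intro k hk
          rw [Finset.mem_Icc] at hk ⊢
          exact ⟨hk.1, hk.2.trans (Nat.floor_le_floor hty)⟩
        · intro _ _ _
          exact abs_nonneg _
      have h4 : |A * Real.log t ^ κ| ≤ |A| * Real.log y ^ κ := by
        rw [abs_mul, abs_of_nonneg (pow_nonneg hlt κ)]
        apply mul_le_mul_of_nonneg_left _ (abs_nonneg A)
        exact pow_le_pow_left₀ hlt (Real.log_le_log (by linarith) hty) κ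
      have h5 := abs_sub (∑ k ∈ Finset.Icc 1 ⌊t⌋₊, c k) (A * Real.log t ^ κ)
      have h6 : 0 ≤ ε * Real.log t ^ κ := by positivity
      linarith

/-- Moments of a sequence with `∑_{k ≤ x} c k ~ A (log x)^κ`. -/
lemma moments (κ : ℕ) (hκ : 1 ≤ κ) (c : ℕ → ℝ) (hc : c 0 = 0) (A : ℝ) (h : Tendsto (fun x : ℝ =>
    (∑ k ∈ Finset.Icc 1 ⌊x⌋₊, c k) / Real.log x ^ κ) atTop (𝓝 A)) (j : ℕ) :
    Tendsto (fun x : ℝ => (∑ k ∈ Finset.Icc 1 ⌊x⌋₊, c k * Real.log k ^ j) /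
      Real.log x ^ (j + κ)) atTop (𝓝 (κ * A / (j + κ))) := by
  have hκ0 : (0 : ℝ) < κ := by exact_mod_cast hκ
  rcases Nat.eq_zero_or_pos j with rfl | hj
  · have e : ((κ : ℝ) * A / (((0 : ℕ) : ℝ) + κ)) = A := by
      push_cast
      rw [zero_add, mul_div_cancel_left₀ _ hκ0.ne']
    rw [e]
    refine h.congr fun x => ?_
    simp
  obtain ⟨i, rfl⟩ : ∃ i, j = i + 1 := ⟨j - 1, by omega⟩
  have hiκ : (0 : ℝ) < (i : ℝ) + κ + 1 := by positivity
  -- the error term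
  have key : Tendsto (fun x : ℝ => (∫ t in (1 : ℝ)..x, ((i : ℝ) + 1) * (Real.log t ^ i / t) *
      ∑ k ∈ Finset.Icc 1 ⌊t⌋₊, c k) / Real.log x ^ (i + κ + 1)) atTop
      (𝓝 (A * (((i : ℝ) + 1) / (i + κ + 1)))) := by
    rw [Metric.tendsto_nhds]
    intro ε hε
    obtain ⟨K, hK0, hK⟩ := unif κ c A h (half_pos (half_pos hε))
    have hL4 : Tendsto (fun x : ℝ => Real.log x ^ κ) atTop atTop :=
      (tendsto_pow_atTop (by omega)).comp Real.tendsto_log_atTop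
    filter_upwards [hL4.eventually (eventually_gt_atTop (K / (ε / 4))),
      eventually_gt_atTop (1 : ℝ)] with x hx hx1
    have hx1' : (1 : ℝ) ≤ x := hx1.le
    have hL : 0 < Real.log x := Real.log_pos hx1
    obtain ⟨hint, -⟩ := abel c hc i hx1'
    obtain ⟨hi1, he1⟩ := int_log_pow (i + κ) hx1'
    obtain ⟨hi2, he2⟩ := int_log_pow i hx1'
    have hmain : ∫ t in (1 : ℝ)..x, ((i : ℝ) + 1) * A * (Real.log t ^ (i + κ) / t) =
        A * (((i : ℝ) + 1) / (i + κ + 1)) * Real.log x ^ (i + κ + 1) := by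
      rw [intervalIntegral.integral_const_mul, he1]
      push_cast
      ring
    have hdiff : |(∫ t in (1 : ℝ)..x, ((i : ℝ) + 1) * (Real.log t ^ i / t) *
        ∑ k ∈ Finset.Icc 1 ⌊t⌋₊, c k) -
          ∫ t in (1 : ℝ)..x, ((i : ℝ) + 1) * A * (Real.log t ^ (i + κ) / t)| ≤
        K * Real.log x ^ (i + 1) + ε / 4 * Real.log x ^ (i + κ + 1) := by
      rw [← intervalIntegral.integral_sub hint (hi1.const_mul _), ← Real.norm_eq_abs]
      have hb : ∀ t ∈ Set.Ioc (1 : ℝ) x,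
          ‖((i : ℝ) + 1) * (Real.log t ^ i / t) * (∑ k ∈ Finset.Icc 1 ⌊t⌋₊, c k) -
            ((i : ℝ) + 1) * A * (Real.log t ^ (i + κ) / t)‖ ≤
          ((i : ℝ) + 1) * K * (Real.log t ^ i / t) +
            ((i : ℝ) + 1) * (ε / 4) * (Real.log t ^ (i + κ) / t) := by
        intro t ht
        have ht1 : 1 ≤ t := ht.1.le
        have hlt := Real.log_nonneg ht1
        have e : ((i : ℝ) + 1) * (Real.log t ^ i / t) * (∑ k ∈ Finset.Icc 1 ⌊t⌋₊, c k) -
            ((i : ℝ) + 1) * A * (Real.log t ^ (i + κ) / t) =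
            ((i : ℝ) + 1) * (Real.log t ^ i / t) *
              ((∑ k ∈ Finset.Icc 1 ⌊t⌋₊, c k) - A * Real.log t ^ κ) := by
          rw [pow_add]
          ring
        have h0 : 0 ≤ ((i : ℝ) + 1) * (Real.log t ^ i / t) := by positivity
        rw [e, Real.norm_eq_abs, abs_mul, abs_of_nonneg h0]
        refine (mul_le_mul_of_nonneg_left (hK t ht1) h0).trans (le_of_eq ?_)
        rw [pow_add]
        ring
      have hbi : IntervalIntegrable (fun t : ℝ => ((i : ℝ) + 1) * K * (Real.log t ^ i / t) +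
            ((i : ℝ) + 1) * (ε / 4) * (Real.log t ^ (i + κ) / t)) volume 1 x :=
        (hi2.const_mul _).add (hi1.const_mul _)
      refine (intervalIntegral.norm_integral_le_of_norm_le hx1'
        (ae_of_all _ hb) hbi).trans ?_
      rw [intervalIntegral.integral_add (hi2.const_mul _) (hi1.const_mul _),
        intervalIntegral.integral_const_mul, intervalIntegral.integral_const_mul, he1, he2]
      have h5 : ((i : ℝ) + 1) * K * (Real.log x ^ (i + 1) / (i + 1)) =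
          K * Real.log x ^ (i + 1) := by
        field_simp
      have h6 : ((i : ℝ) + 1) * (ε / 4) * (Real.log x ^ (i + κ + 1) / (((i + κ : ℕ) : ℝ) + 1)) ≤
          ε / 4 * Real.log x ^ (i + κ + 1) := by
        push_cast
        have h7 : ((i : ℝ) + 1) / (i + κ + 1) ≤ 1 := by
          rw [div_le_one hiκ]
          linarith
        have h8 : 0 ≤ ε / 4 * Real.log x ^ (i + κ + 1) := by positivity
        calc ((i : ℝ) + 1) * (ε / 4) * (Real.log x ^ (i + κ + 1) / ((i : ℝ) + κ + 1)) =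
            (((i : ℝ) + 1) / (i + κ + 1)) * (ε / 4 * Real.log x ^ (i + κ + 1)) := by ring
          _ ≤ 1 * (ε / 4 * Real.log x ^ (i + κ + 1)) := mul_le_mul_of_nonneg_right h7 h8
          _ = _ := one_mul _
      rw [h5]
      linarith
    rw [hmain] at hdiff
    rw [Real.dist_eq]
    have hL5 : 0 < Real.log x ^ (i + κ + 1) := pow_pos hL _
    have e : (∫ t in (1 : ℝ)..x, ((i : ℝ) + 1) * (Real.log t ^ i / t) *
        ∑ k ∈ Finset.Icc 1 ⌊t⌋₊, c k) / Real.log x ^ (i + κ + 1) -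
          A * (((i : ℝ) + 1) / (i + κ + 1)) =
        ((∫ t in (1 : ℝ)..x, ((i : ℝ) + 1) * (Real.log t ^ i / t) *
        ∑ k ∈ Finset.Icc 1 ⌊t⌋₊, c k) -
          A * (((i : ℝ) + 1) / (i + κ + 1)) * Real.log x ^ (i + κ + 1)) /
          Real.log x ^ (i + κ + 1) := by
      rw [sub_div, mul_div_cancel_right₀ _ hL5.ne']
    rw [e, abs_div, abs_of_pos hL5, div_lt_iff₀ hL5]
    refine lt_of_le_of_lt hdiff ?_
    have h7 : K < ε / 4 * Real.log x ^ κ := by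
      rw [div_lt_iff₀ (by positivity)] at hx
      linarith
    have h8 : Real.log x ^ (i + κ + 1) = Real.log x ^ (i + 1) * Real.log x ^ κ := by
      rw [← pow_add]
      congr 1
      omega
    have h9 : 0 < Real.log x ^ (i + 1) := pow_pos hL _
    have h10 : K * Real.log x ^ (i + 1) < ε / 4 * Real.log x ^ (i + κ + 1) := by
      rw [h8]
      have := mul_lt_mul_of_pos_right h7 h9
      linarith
    have h11 : 0 < ε * Real.log x ^ (i + κ + 1) := by positivity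
    linarith
  have hlim : Tendsto (fun x : ℝ => (∑ k ∈ Finset.Icc 1 ⌊x⌋₊, c k) / Real.log x ^ κ -
      (∫ t in (1 : ℝ)..x, ((i : ℝ) + 1) * (Real.log t ^ i / t) *
      ∑ k ∈ Finset.Icc 1 ⌊t⌋₊, c k) / Real.log x ^ (i + κ + 1)) atTop
      (𝓝 (A - A * (((i : ℝ) + 1) / (i + κ + 1)))) := h.sub key
  have e : A - A * (((i : ℝ) + 1) / (i + κ + 1)) = κ * A / (((i + 1 : ℕ) : ℝ) + κ) := by
    push_cast
    have h1 : (i : ℝ) + 1 + κ = i + κ + 1 := by ring
    rw [h1]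
    field_simp
    ring
  rw [e] at hlim
  refine hlim.congr' ?_
  filter_upwards [eventually_gt_atTop (1 : ℝ)] with x hx1
  have hL : 0 < Real.log x := Real.log_pos hx1
  obtain ⟨-, hsum⟩ := abel c hc i hx1.le
  rw [hsum, sub_div]
  have h1 : Real.log x ^ (i + 1 + κ) = Real.log x ^ (i + 1) * Real.log x ^ κ := pow_add _ _ _
  have h2 : i + κ + 1 = i + 1 + κ := by omega
  rw [h2, h1, mul_div_mul_left _ _ (pow_pos hL _).ne']

end MomAux

open MomAux

theorem g_mom (j : ℕ) : Tendsto (fun x : ℝ =>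
    (∑ a ∈ Finset.Icc 1 ⌊x⌋₊, hh a ^ 2 * (a.totient : ℝ) / (a : ℝ) ^ 2 * Real.log a ^ j) / Real.log x ^ (j + 4))
    atTop (𝓝 (a3 / (6 * (j + 4)))) := by
  have h := moments 4 (by norm_num) (fun a : ℕ => hh a ^ 2 * (a.totient : ℝ) / (a : ℝ) ^ 2)
    (by simp) _ g_sum j
  have e : ((4 : ℕ) : ℝ) * (a3 / 24) / ((j : ℝ) + (4 : ℕ)) = a3 / (6 * (j + 4)) := by
    push_cast
    field_simp
    ring
  rw [e] at h
  exact h

namespace MomAux

/-- The moments at `√Y`. -/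
noncomputable def Mj (j : ℕ) (Y : ℝ) : ℝ :=
  ∑ a ∈ Finset.Icc 1 ⌊Real.sqrt Y⌋₊, hh a ^ 2 * (a.totient : ℝ) / (a : ℝ) ^ 2 * Real.log a ^ j

lemma mj_lim (j : ℕ) : Tendsto (fun Y : ℝ => Mj j Y / Real.log Y ^ (j + 4)) atTop
    (𝓝 (a3 / (6 * (j + 4)) / 2 ^ (j + 4))) := by
  have hs : Tendsto Real.sqrt atTop atTop := Real.tendsto_sqrt_atTop
  have h := ((g_mom j).comp hs).div_const ((2 : ℝ) ^ (j + 4))
  refine h.congr' ?_
  filter_upwards [eventually_ge_atTop (0 : ℝ)] with Y hY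
  have hl : Real.log (Real.sqrt Y) = Real.log Y / 2 := Real.log_sqrt hY
  simp only [Function.comp_apply]
  rw [hl, div_pow, div_div]
  unfold Mj
  congr 1
  have : (2 : ℝ) ^ (j + 4) ≠ 0 := by positivity
  field_simp

end MomAux

theorem f2_sum (ε : ℝ) (hε : 0 < ε) : ∀ᶠ Y : ℝ in atTop,
    ∑ a ∈ Finset.Icc 1 ⌊Real.sqrt Y⌋₊, hh a ^ 2 * (a.totient : ℝ) / (a : ℝ) ^ 2 *
      ((Real.log Y - Real.log a) ^ 5 / 5 + Real.log a * (Real.log Y - Real.log a) ^ 4 / 2 +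
        Real.log a ^ 2 * (Real.log Y - Real.log a) ^ 3 / 3) ≤
      (833 / 16 * (a3 / (Nat.factorial 9 : ℝ)) + ε) * Real.log Y ^ 9 := by
  have h := ((((mj_lim 0).const_mul (1 / 5)).sub ((mj_lim 1).const_mul (1 / 2))).add
    ((mj_lim 2).const_mul (1 / 3))).sub ((mj_lim 5).const_mul (1 / 30))
  have hlt : 1 / 5 * (a3 / (6 * (((0 : ℕ) : ℝ) + 4)) / 2 ^ (0 + 4)) -
      1 / 2 * (a3 / (6 * (((1 : ℕ) : ℝ) + 4)) / 2 ^ (1 + 4)) +
      1 / 3 * (a3 / (6 * (((2 : ℕ) : ℝ) + 4)) / 2 ^ (2 + 4)) -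
      1 / 30 * (a3 / (6 * (((5 : ℕ) : ℝ) + 4)) / 2 ^ (5 + 4)) <
      833 / 16 * (a3 / (Nat.factorial 9 : ℝ)) + ε := by
    have hf : (Nat.factorial 9 : ℝ) = 362880 := by
      norm_num [Nat.factorial]
    rw [hf]
    push_cast
    norm_num
    linarith
  filter_upwards [h.eventually (eventually_lt_nhds hlt), eventually_gt_atTop (1 : ℝ)] with Y hY hY1
  have hL : 0 < Real.log Y := Real.log_pos hY1
  have hL9 : 0 < Real.log Y ^ 9 := pow_pos hL 9
  have e : ∑ a ∈ Finset.Icc 1 ⌊Real.sqrt Y⌋₊, hh a ^ 2 * (a.totient : ℝ) / (a : ℝ) ^ 2 *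
      ((Real.log Y - Real.log a) ^ 5 / 5 + Real.log a * (Real.log Y - Real.log a) ^ 4 / 2 +
        Real.log a ^ 2 * (Real.log Y - Real.log a) ^ 3 / 3) =
      1 / 5 * Real.log Y ^ 5 * Mj 0 Y - 1 / 2 * Real.log Y ^ 4 * Mj 1 Y +
        1 / 3 * Real.log Y ^ 3 * Mj 2 Y - 1 / 30 * Mj 5 Y := by
    unfold Mj
    rw [Finset.mul_sum, Finset.mul_sum, Finset.mul_sum, Finset.mul_sum,
      ← Finset.sum_sub_distrib, ← Finset.sum_add_distrib, ← Finset.sum_sub_distrib]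
    refine Finset.sum_congr rfl fun a _ => ?_
    ring
  rw [e]
  have e2 : 1 / 5 * Real.log Y ^ 5 * Mj 0 Y - 1 / 2 * Real.log Y ^ 4 * Mj 1 Y +
        1 / 3 * Real.log Y ^ 3 * Mj 2 Y - 1 / 30 * Mj 5 Y =
      (1 / 5 * (Mj 0 Y / Real.log Y ^ (0 + 4)) - 1 / 2 * (Mj 1 Y / Real.log Y ^ (1 + 4)) +
        1 / 3 * (Mj 2 Y / Real.log Y ^ (2 + 4)) - 1 / 30 * (Mj 5 Y / Real.log Y ^ (5 + 4))) *
        Real.log Y ^ 9 := by
    simp only [Nat.reduceAdd]
    field_simp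
  rw [e2]
  exact mul_le_mul_of_nonneg_right hY.le hL9.le

theorem f1_sum (ε : ℝ) (hε : 0 < ε) : ∀ᶠ Y : ℝ in atTop,
    (3667 / 64 * (a3 / (Nat.factorial 9 : ℝ)) - ε) * Real.log Y ^ 9 ≤
    ∑ a ∈ Finset.Icc 1 ⌊Real.sqrt Y⌋₊, hh a ^ 2 * (a.totient : ℝ) / (a : ℝ) ^ 2 *
      ((Real.log Y - Real.log a) ^ 5 / 5 + Real.log a * (Real.log Y - Real.log a) ^ 4 / 2 +
        5 / 12 * Real.log a ^ 2 * (Real.log Y - Real.log a) ^ 3 + Real.log a ^ 3 * (Real.log Y - Real.log a) ^ 2 / 8) := by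
  have h := (((((mj_lim 0).const_mul (1 / 5)).sub ((mj_lim 1).const_mul (1 / 2))).add
    ((mj_lim 2).const_mul (5 / 12))).sub ((mj_lim 3).const_mul (1 / 8))).add
      ((mj_lim 5).const_mul (1 / 120))
  have hlt : 3667 / 64 * (a3 / (Nat.factorial 9 : ℝ)) - ε <
      1 / 5 * (a3 / (6 * (((0 : ℕ) : ℝ) + 4)) / 2 ^ (0 + 4)) -
      1 / 2 * (a3 / (6 * (((1 : ℕ) : ℝ) + 4)) / 2 ^ (1 + 4)) +
      5 / 12 * (a3 / (6 * (((2 : ℕ) : ℝ) + 4)) / 2 ^ (2 + 4)) -
      1 / 8 * (a3 / (6 * (((3 : ℕ) : ℝ) + 4)) / 2 ^ (3 + 4)) +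
      1 / 120 * (a3 / (6 * (((5 : ℕ) : ℝ) + 4)) / 2 ^ (5 + 4)) := by
    have hf : (Nat.factorial 9 : ℝ) = 362880 := by
      norm_num [Nat.factorial]
    rw [hf]
    push_cast
    norm_num
    linarith
  filter_upwards [h.eventually (eventually_gt_nhds hlt), eventually_gt_atTop (1 : ℝ)] with Y hY hY1
  have hL : 0 < Real.log Y := Real.log_pos hY1
  have hL9 : 0 < Real.log Y ^ 9 := pow_pos hL 9
  have e : ∑ a ∈ Finset.Icc 1 ⌊Real.sqrt Y⌋₊, hh a ^ 2 * (a.totient : ℝ) / (a : ℝ) ^ 2 *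
      ((Real.log Y - Real.log a) ^ 5 / 5 + Real.log a * (Real.log Y - Real.log a) ^ 4 / 2 +
        5 / 12 * Real.log a ^ 2 * (Real.log Y - Real.log a) ^ 3 + Real.log a ^ 3 * (Real.log Y - Real.log a) ^ 2 / 8) =
      1 / 5 * Real.log Y ^ 5 * Mj 0 Y - 1 / 2 * Real.log Y ^ 4 * Mj 1 Y +
        5 / 12 * Real.log Y ^ 3 * Mj 2 Y - 1 / 8 * Real.log Y ^ 2 * Mj 3 Y +
        1 / 120 * Mj 5 Y := by
    unfold Mj
    rw [Finset.mul_sum, Finset.mul_sum, Finset.mul_sum, Finset.mul_sum, Finset.mul_sum,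
      ← Finset.sum_sub_distrib, ← Finset.sum_add_distrib, ← Finset.sum_sub_distrib,
      ← Finset.sum_add_distrib]
    refine Finset.sum_congr rfl fun a _ => ?_
    ring
  rw [e]
  have e2 : 1 / 5 * Real.log Y ^ 5 * Mj 0 Y - 1 / 2 * Real.log Y ^ 4 * Mj 1 Y +
        5 / 12 * Real.log Y ^ 3 * Mj 2 Y - 1 / 8 * Real.log Y ^ 2 * Mj 3 Y +
        1 / 120 * Mj 5 Y =
      (1 / 5 * (Mj 0 Y / Real.log Y ^ (0 + 4)) - 1 / 2 * (Mj 1 Y / Real.log Y ^ (1 + 4)) +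
        5 / 12 * (Mj 2 Y / Real.log Y ^ (2 + 4)) - 1 / 8 * (Mj 3 Y / Real.log Y ^ (3 + 4)) +
        1 / 120 * (Mj 5 Y / Real.log Y ^ (5 + 4))) *
        Real.log Y ^ 9 := by
    simp only [Nat.reduceAdd]
    field_simp
  rw [e2]
  exact mul_le_mul_of_nonneg_right (le_of_lt hY) hL9.le

end Pool.Agent.P07318m
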