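import Pool.Agent.Lib.P07318m.Defs
import Pool.Agent.Lib.P07318m.GSum
import Pool.Agent.Lib.P07318m.ESum
import Pool.Agent.Lib.P07318m.Mom
import Pool.Agent.Lib.P4a7640L.Base
import Pool.Agent.Lib.P4a7640L.MertensA

/-!
# P07318m.DSum: `∑_{a ≤ x} (hh(a)² φ(a)/a²) sg(a) ≤ (a_3/180 + ε) (log x)^6` for large `x`

PROOF. `g(a) = hh(a)²φ(a)/a²` is multiplicative and `≥ 0`, `g(p) = (2-1/p)²(1-1/p)/p ≤ 4/p`, `g(p^v) ≤ (v+1)² p^{-v}`. With `G(x) = ∑_{a≤x} g(a)`: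
`∑_{a≤x} g(a) ∑_{p|a} log² p = ∑_{p^v, v≥1} log² p g(p^v) ∑_{m ≤ x/p^v, p∤m} g(m) ≤ ∑_p log² p ∑_v g(p^v) G(x/p^v)`.
Terms `v ≥ 2`: `≤ G(x) ∑_p log² p ∑_{v≥2} (v+1)² p^{-v} = O((log x)^4)`. Terms `v = 1`: `≤ 4 ∑_{p≤x} (log² p/p) G(x/p)`, and
`G(y) ≤ (a3/24+ε')(log y)^4 + K_{ε'}` for all `y ≥ 1` (`g_sum`). By Mertens `∑_{p≤t} log p/p = log t + O(1)`
(grep Mathlib/the libraries for `Mertens`; elementary from Chebyshev/`log n!` if needed) and partial summation with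
`F(t) = log t (log(x/t))^4`, `∑_{p≤x} (log p/p) F(p) = ∫_1^x F(t) dt/t + O((log x)^5) = (log x)^6/30 + O((log x)^5)`
(`∫_0^L u (L-u)^4 du = L^6/30`; `F` has total variation `O((log x)^5)` on `[1,x]`). The `K_{ε'}` part gives `O((log x)^2)`.
So the total is `≤ 4 (a3/24+ε') (log x)^6/30 + O((log x)^5)`, `4/(24·30) = 1/180`.
(Upper bounds only: one can also split `[0,L]` into finitely many pieces `e^{u_i} < p ≤ e^{u_{i+1}}` and use
`∑_{p in piece} log p/p ≤ u_{i+1}-u_i + C`, monotonicity, a Riemann sum.)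
-/

set_option autoImplicit false

open MeasureTheory Complex Filter Topology

namespace Pool.Agent.P07318m

open MomAux ESumAux

namespace DSumAux

/-- The weight `log p / p` on the primes. -/
noncomputable def c1 (k : ℕ) : ℝ := if k.Prime then Real.log k / k else 0

lemma c1_nonneg (k : ℕ) : 0 ≤ c1 k := by
  unfold c1
  have := Real.log_natCast_nonneg k
  split_ifs <;> positivity

lemma c1_sum (n : ℕ) : ∑ k ∈ Finset.Icc 1 n, c1 k = ∑ p ∈ Nat.primesLE n, Real.log p / p := by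
  unfold c1
  rw [← Finset.sum_filter]
  apply Finset.sum_congr _ fun _ _ => rfl
  ext p
  rw [Finset.mem_filter, Finset.mem_Icc, Nat.mem_primesLE]
  constructor
  · rintro ⟨⟨h1, h2⟩, h3⟩
    exact ⟨h2, h3⟩
  · rintro ⟨h2, h3⟩
    exact ⟨⟨h3.one_lt.le, h2⟩, h3⟩

lemma c1_lim : Tendsto (fun x : ℝ => (∑ k ∈ Finset.Icc 1 ⌊x⌋₊, c1 k) / Real.log x ^ 1) atTop
    (𝓝 1) := by
  obtain ⟨C, hC⟩ := Pool.Agent.Lib.P4a7640L.mertens_one_lower
  set K : ℝ := |C| + Real.log 4 + Real.log 2 with hK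
  have hl4 : 0 < Real.log 4 := Real.log_pos (by norm_num)
  have hl2 : 0 < Real.log 2 := Real.log_pos (by norm_num)
  have h0 : Tendsto (fun x : ℝ => K / Real.log x) atTop (𝓝 0) :=
    Real.tendsto_log_atTop.const_div_atTop K
  have h1 : Tendsto (fun x : ℝ => (∑ k ∈ Finset.Icc 1 ⌊x⌋₊, c1 k) / Real.log x ^ 1 - 1) atTop
      (𝓝 0) := by
    apply squeeze_zero_norm' _ h0
    filter_upwards [eventually_gt_atTop (1 : ℝ)] with x hx
    have hL : 0 < Real.log x := Real.log_pos hx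
    have hn1 : 1 ≤ ⌊x⌋₊ := Nat.le_floor (by push_cast; exact hx.le)
    have hn1' : (1 : ℝ) ≤ (⌊x⌋₊ : ℝ) := by exact_mod_cast hn1
    have hf1 : (⌊x⌋₊ : ℝ) ≤ x := Nat.floor_le (by linarith)
    have hf2 : x < ⌊x⌋₊ + 1 := Nat.lt_floor_add_one x
    have hl1 : Real.log ⌊x⌋₊ ≤ Real.log x := Real.log_le_log (by linarith) hf1
    have hl3 : Real.log x - Real.log 2 ≤ Real.log ⌊x⌋₊ := by
      rw [← Real.log_div (by linarith) (by norm_num)]
      apply Real.log_le_log (by linarith)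
      linarith
    have hlow := hC ⌊x⌋₊ hn1
    have hup := Pool.Agent.Lib.P4a7640.sum_log_div_le ⌊x⌋₊ hn1
    rw [c1_sum, Real.norm_eq_abs, pow_one]
    have e : (∑ p ∈ Nat.primesLE ⌊x⌋₊, Real.log p / p) / Real.log x - 1 =
        ((∑ p ∈ Nat.primesLE ⌊x⌋₊, Real.log p / p) - Real.log x) / Real.log x := by
      rw [sub_div, div_self hL.ne']
    rw [e, abs_div, abs_of_pos hL]
    apply div_le_div_of_nonneg_right _ hL.le
    have hCa := le_abs_self C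
    rw [abs_le]
    constructor <;> linarith [abs_nonneg C]
  have h2 := h1.add_const 1
  simp only [sub_add_cancel, zero_add] at h2
  exact h2

/-- moments of `c1` -/
noncomputable def Cj (j : ℕ) (x : ℝ) : ℝ := ∑ k ∈ Finset.Icc 1 ⌊x⌋₊, c1 k * Real.log k ^ j

lemma cj_lim (j : ℕ) : Tendsto (fun x : ℝ => Cj j x / Real.log x ^ (j + 1)) atTop
    (𝓝 (1 / ((j : ℝ) + 1))) := by
  have h := moments 1 le_rfl c1 (by unfold c1; simp [Nat.not_prime_zero]) 1 c1_lim j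
  simpa [Cj] using h

/-- The weight `g`. -/
noncomputable def g (a : ℕ) : ℝ := hh a ^ 2 * (a.totient : ℝ) / (a : ℝ) ^ 2

lemma g_nonneg (a : ℕ) : 0 ≤ g a := by
  unfold g
  positivity

lemma g_mul_le {p m : ℕ} (hp : p.Prime) (hm : m ≠ 0) : g (p * m) ≤ 4 / p * g m := by
  have hp0 : (0 : ℝ) < p := by exact_mod_cast hp.pos
  have hm0 : (0 : ℝ) < m := by exact_mod_cast Nat.pos_of_ne_zero hm
  have h1 : hh p ≤ 2 := by
    refine (hh_le_tau hp.ne_zero).trans ?_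
    rw [hp.divisors, Finset.card_pair hp.one_lt.ne]
    norm_num
  have h2 : hh (p * m) ≤ 2 * hh m :=
    (hh_submul hp.ne_zero hm).trans (mul_le_mul_of_nonneg_right h1 (hh_nonneg m))
  have h3 : hh (p * m) ^ 2 ≤ 4 * hh m ^ 2 := by
    calc hh (p * m) ^ 2 ≤ (2 * hh m) ^ 2 := pow_le_pow_left₀ (hh_nonneg _) h2 2
      _ = 4 * hh m ^ 2 := by ring
  have h4 : ((p * m).totient : ℝ) ≤ p * (m.totient : ℝ) := by
    have : (p * m).totient ≤ p * m.totient := by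
      by_cases hd : p ∣ m
      · rw [Nat.totient_mul_of_prime_of_dvd hp hd]
      · rw [Nat.totient_mul_of_prime_of_not_dvd hp hd]
        exact Nat.mul_le_mul_right _ (Nat.sub_le p 1)
    exact_mod_cast this
  unfold g
  push_cast
  have e : 4 / (p : ℝ) * (hh m ^ 2 * (m.totient : ℝ) / (m : ℝ) ^ 2) =
      (4 * hh m ^ 2) * (p * (m.totient : ℝ)) / ((p : ℝ) * m) ^ 2 := by
    field_simp
  rw [e]
  apply div_le_div_of_nonneg_right _ (by positivity)
  exact mul_le_mul h3 h4 (Nat.cast_nonneg _) (by positivity)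

/-- The main inequality. -/
lemma main_ineq {x : ℝ} (hx : 1 ≤ x) :
    ∑ a ∈ Finset.Icc 1 ⌊x⌋₊, g a * sg a ≤
      ∑ k ∈ Finset.Icc 1 ⌊x⌋₊, 4 * (c1 k * Real.log k) * ∑ m ∈ Finset.Icc 1 ⌊x / k⌋₊, g m := by
  have e1 : ∀ a : ℕ, g a * sg a = ∑ p ∈ a.primeFactors, g a * Real.log p ^ 2 := by
    intro a
    unfold sg
    rw [Finset.mul_sum]
  have e2 : ∀ k : ℕ, 4 * (c1 k * Real.log k) * ∑ m ∈ Finset.Icc 1 ⌊x / k⌋₊, g m =
      ∑ m ∈ Finset.Icc 1 ⌊x / k⌋₊, 4 * (c1 k * Real.log k) * g m := by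
    intro k
    rw [Finset.mul_sum]
  rw [Finset.sum_congr rfl (fun a _ => e1 a), Finset.sum_congr rfl (fun k _ => e2 k),
    Finset.sum_sigma', Finset.sum_sigma']
  refine sum_le_of_inj _ _ _ (fun q : (_ : ℕ) × ℕ => 4 * (c1 q.1 * Real.log q.1) * g q.2)
    (fun s : (_ : ℕ) × ℕ => (⟨s.2, s.1 / s.2⟩ : (_ : ℕ) × ℕ)) ?_ ?_ ?_ ?_
  · rintro ⟨a, p⟩ hs
    rw [Finset.mem_sigma, Finset.mem_Icc] at hs
    obtain ⟨⟨h1, h2⟩, h3⟩ := hs
    simp only at h1 h2 h3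
    have hp := Nat.prime_of_mem_primeFactors h3
    have hdvd := Nat.dvd_of_mem_primeFactors h3
    have hple : p ≤ a := Nat.le_of_dvd h1 hdvd
    rw [Finset.mem_sigma, Finset.mem_Icc, Finset.mem_Icc]
    refine ⟨⟨hp.one_lt.le, hple.trans h2⟩, Nat.div_pos hple hp.pos, ?_⟩
    apply Nat.le_floor
    have h4 : (a : ℝ) ≤ x := (Nat.cast_le.mpr h2).trans (Nat.floor_le (by linarith))
    have hp0 : (0 : ℝ) < p := by exact_mod_cast hp.pos
    exact (Nat.cast_div_le).trans (div_le_div_of_nonneg_right h4 hp0.le)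
  · rintro ⟨a, p⟩ hs ⟨a', p'⟩ hs' heq
    rw [Finset.mem_coe, Finset.mem_sigma] at hs hs'
    simp only [Sigma.mk.injEq, heq_eq_eq] at heq
    obtain ⟨rfl, h6⟩ := heq
    have e1 : a = p * (a / p) := (Nat.mul_div_cancel' (Nat.dvd_of_mem_primeFactors hs.2)).symm
    have e2 : a' = p * (a' / p) := (Nat.mul_div_cancel' (Nat.dvd_of_mem_primeFactors hs'.2)).symm
    have : a = a' := by
      rw [e1, e2, h6]
    rw [this]
  · rintro ⟨k, m⟩ _
    have h1 := c1_nonneg k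
    have h2 := g_nonneg m
    have h3 := Real.log_natCast_nonneg k
    positivity
  · rintro ⟨a, p⟩ hs
    rw [Finset.mem_sigma, Finset.mem_Icc] at hs
    obtain ⟨⟨h1, h2⟩, h3⟩ := hs
    simp only at h1 h2 h3 ⊢
    have hp := Nat.prime_of_mem_primeFactors h3
    have hdvd := Nat.dvd_of_mem_primeFactors h3
    have hp0 : (0 : ℝ) < p := by exact_mod_cast hp.pos
    have hmul : p * (a / p) = a := Nat.mul_div_cancel' hdvd
    have hm : a / p ≠ 0 := by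
      intro h
      rw [h, mul_zero] at hmul
      omega
    have h4 := g_mul_le hp hm
    rw [hmul] at h4
    have h5 := mul_le_mul_of_nonneg_right h4 (sq_nonneg (Real.log p))
    refine h5.trans (le_of_eq ?_)
    unfold c1
    rw [if_pos hp]
    ring

end DSumAux

open DSumAux

theorem d_sum (ε : ℝ) (hε : 0 < ε) : ∀ᶠ x : ℝ in atTop,
    ∑ a ∈ Finset.Icc 1 ⌊x⌋₊, hh a ^ 2 * (a.totient : ℝ) / (a : ℝ) ^ 2 * sg a ≤ (a3 / 180 + ε) * Real.log x ^ 6 := by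
  obtain ⟨K, hK0, hK⟩ := unif 4 g (a3 / 24) g_sum hε
  -- the limit of the majorant
  have hlog4 : Tendsto (fun x : ℝ => 1 / Real.log x ^ 4) atTop (𝓝 0) := by
    have h := ((tendsto_pow_atTop (α := ℝ) (n := 4) (by norm_num)).comp
      Real.tendsto_log_atTop).const_div_atTop 1
    exact h
  have hT := (((((cj_lim 1).const_mul 1).sub ((cj_lim 2).const_mul 4)).add
    ((cj_lim 3).const_mul 6)).sub ((cj_lim 4).const_mul 4)).add ((cj_lim 5).const_mul 1)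
  have hS := (cj_lim 1).mul hlog4
  have hall := (hT.const_mul (4 * (a3 / 24 + ε))).add (hS.const_mul (4 * K))
  have hlt : 4 * (a3 / 24 + ε) * (1 * (1 / (((1 : ℕ) : ℝ) + 1)) - 4 * (1 / (((2 : ℕ) : ℝ) + 1)) +
      6 * (1 / (((3 : ℕ) : ℝ) + 1)) - 4 * (1 / (((4 : ℕ) : ℝ) + 1)) +
      1 * (1 / (((5 : ℕ) : ℝ) + 1))) + 4 * K * (1 / (((1 : ℕ) : ℝ) + 1) * 0) <
      a3 / 180 + ε := by
    push_cast
    norm_num
    linarith
  filter_upwards [hall.eventually (eventually_lt_nhds hlt), eventually_gt_atTop (1 : ℝ)]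
    with x hx hx1
  have hL : 0 < Real.log x := Real.log_pos hx1
  have hL6 : 0 < Real.log x ^ 6 := pow_pos hL 6
  have h1 := main_ineq hx1.le
  have h2 : ∑ k ∈ Finset.Icc 1 ⌊x⌋₊, 4 * (c1 k * Real.log k) *
      ∑ m ∈ Finset.Icc 1 ⌊x / k⌋₊, g m ≤
      ∑ k ∈ Finset.Icc 1 ⌊x⌋₊, 4 * (c1 k * Real.log k) *
        ((a3 / 24 + ε) * (Real.log x - Real.log k) ^ 4 + K) := by
    refine Finset.sum_le_sum fun k hk => ?_
    obtain ⟨hk1, hk2⟩ := Finset.mem_Icc.mp hk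
    have hk1' : (1 : ℝ) ≤ k := by exact_mod_cast hk1
    have hk2' : (k : ℝ) ≤ x := (Nat.cast_le.mpr hk2).trans (Nat.floor_le (by linarith))
    have hq : 1 ≤ x / k := by
      rw [le_div_iff₀ (by linarith)]
      linarith
    have h3 := (abs_le.mp (hK (x / k) hq)).2
    rw [Real.log_div (by linarith) (by linarith)] at h3
    apply mul_le_mul_of_nonneg_left _
      (mul_nonneg (by norm_num) (mul_nonneg (c1_nonneg k) (Real.log_natCast_nonneg k)))
    linarith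
  have h3 : ∑ k ∈ Finset.Icc 1 ⌊x⌋₊, 4 * (c1 k * Real.log k) *
        ((a3 / 24 + ε) * (Real.log x - Real.log k) ^ 4 + K) =
      4 * (a3 / 24 + ε) * (Real.log x ^ 4 * Cj 1 x - 4 * Real.log x ^ 3 * Cj 2 x +
        6 * Real.log x ^ 2 * Cj 3 x - 4 * Real.log x * Cj 4 x + Cj 5 x) + 4 * K * Cj 1 x := by
    unfold Cj
    simp only [Finset.mul_sum, ← Finset.sum_add_distrib, ← Finset.sum_sub_distrib]
    refine Finset.sum_congr rfl fun k _ => ?_
    ring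
  have h4 : 4 * (a3 / 24 + ε) * (Real.log x ^ 4 * Cj 1 x - 4 * Real.log x ^ 3 * Cj 2 x +
        6 * Real.log x ^ 2 * Cj 3 x - 4 * Real.log x * Cj 4 x + Cj 5 x) + 4 * K * Cj 1 x =
      (4 * (a3 / 24 + ε) * (1 * (Cj 1 x / Real.log x ^ (1 + 1)) -
        4 * (Cj 2 x / Real.log x ^ (2 + 1)) + 6 * (Cj 3 x / Real.log x ^ (3 + 1)) -
        4 * (Cj 4 x / Real.log x ^ (4 + 1)) + 1 * (Cj 5 x / Real.log x ^ (5 + 1))) +
        4 * K * (Cj 1 x / Real.log x ^ (1 + 1) * (1 / Real.log x ^ 4))) * Real.log x ^ 6 := by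
    simp only [Nat.reduceAdd]
    field_simp
  refine h1.trans (h2.trans ?_)
  rw [h3, h4]
  exact mul_le_mul_of_nonneg_right hx.le hL6.le

end Pool.Agent.P07318m
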