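import Pool.Agent.Lib.P07318m.Defs
import Pool.Agent.Lib.P4f18dfS.ShiftPoly

/-!
# P07318m.Poles: shifting a vertical line across a simple, double or triple pole

Setting: `F` is holomorphic on an open set `U` containing the closed strip `a ≤ Re s ≤ b`, with
`‖F s‖ ≤ K / (1+|Im s|)^2` there, and `a < Re ρ < b`.

PROOF. `pole1`: the case without pole is `P4f18dfS.shift_poly_on` (same hypotheses). Put
`E(s) = exp((s-ρ)^2)` (entire, `E(ρ) = 1`, Gaussian decay in vertical strips) and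
`G(s) = dslope (fun s => F s - F ρ * E s) ρ s`, holomorphic on `U` (`Complex.differentiableOn_dslope`, `U` a neighbourhood of `ρ`),
equal to `(F s - F ρ E s)/(s-ρ)` for `s ≠ ρ`. For `s` in the strip with `‖s-ρ‖ ≥ δ` the bound
`‖G s‖ ≤ K' / (1+|Im s|)^2` is clear, on the compact rest use continuity (`IsCompact.exists_bound_of_continuousOn` on
`[a,b] × [Im ρ - 1, Im ρ + 1]`). Shift `G` with `shift_poly_on`; the remaining integral
`∫ E(c+it)/(c+it-ρ) dt`, `c ≠ Re ρ`, has jump `2π` between `c = a` and `c = b`: this is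
`P4f18dfS.shift_pole_poly` for the entire function `E` (or any other way, e.g. after translation the value is `±π`).
Alternatively apply `shift_pole_poly`-type arguments directly.
`pole2`, `pole3`: the same argument with Taylor polynomials,
`(F s - (F ρ + F'(ρ)(s-ρ)) E s)/(s-ρ)^2` and
`(F s - (F ρ + F'(ρ)(s-ρ) + (F''(ρ)/2 - F ρ)(s-ρ)^2) E s)/(s-ρ)^3` are holomorphic (iterated dslope) and decay, and
`∫ E(c+it)/(c+it-ρ)^2 dt` and `∫ E(c+it)/(c+it-ρ)^3 dt`: differences between `b` and `a` are `0` and `2π`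
(`exp(w^2)/w^2` has residue `0`, `exp(w^2)/w^3` has residue `1` at `0`; e.g. `(exp(w^2)-1)/w^3 - 1/w` is... or integrate
by parts: `d/dw (E/w) = 2E - E/w^2`, `d/dw (E/w^2) = 2E/w - 2E/w^3`, so
`∫E/w^2 = 2∫E - [..]` has no jump and `∫E/w^3 = ∫E/w` has jump `2π`; with `E(w)=exp(w^2)`, `w = s-ρ`).
Another way for `pole2`, `pole3`: differentiate `pole1` once/twice with respect to `ρ` under the integral sign
(`hasDerivAt_integral_of_dominated_loc_of_deriv_le`; `‖F‖ ≤ K/(1+|t|)^2` and `|c+it-ρ'| ≥ d > 0` for `ρ'` near `ρ`), both sides are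
holomorphic in `ρ`: `d/dρ (s-ρ)^{-1} = (s-ρ)^{-2}`, `d/dρ (s-ρ)^{-2} = 2 (s-ρ)^{-3}`.
-/

set_option autoImplicit false

open MeasureTheory Complex Filter Topology

namespace Pool.Agent.P07318m

open Pool.Agent.P4f18dfS Pool.Agent.P4f18dfS.ShiftPolyAux

namespace PolesAux

/-- The Gaussian used to subtract the pole. -/
noncomputable def Eg (ρ s : ℂ) : ℂ := cexp ((s - ρ) ^ 2)

lemma eg_norm (ρ s : ℂ) : ‖Eg ρ s‖ = Real.exp ((s.re - ρ.re) ^ 2 - (s.im - ρ.im) ^ 2) := by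
  unfold Eg
  rw [Complex.norm_exp]
  congr 1
  simp [pow_two, Complex.mul_re]

lemma eg_diff (ρ : ℂ) : Differentiable ℂ (Eg ρ) := by
  unfold Eg
  fun_prop

lemma eg_self (ρ : ℂ) : Eg ρ ρ = 1 := by
  unfold Eg
  simp

lemma eg_bound {a b : ℝ} {ρ : ℂ} (ha : a < ρ.re) (hb : ρ.re < b) {s : ℂ} (h1 : a ≤ s.re)
    (h2 : s.re ≤ b) :
    ‖Eg ρ s‖ ≤ (2 * Real.exp ((b - a) ^ 2) * (1 + |ρ.im|) ^ 2) / (1 + |s.im|) ^ 2 := by
  have hp : 0 < (1 + |s.im|) ^ 2 := by positivity
  rw [le_div_iff₀ hp, eg_norm]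
  set x : ℝ := |s.im - ρ.im| with hx
  have hx0 : 0 ≤ x := abs_nonneg _
  have hxx : (s.im - ρ.im) ^ 2 = x ^ 2 := (sq_abs _).symm
  have h3 : 1 + |s.im| ≤ (1 + |ρ.im|) * (1 + x) := by
    have : |s.im| ≤ |ρ.im| + x := by
      calc |s.im| = |ρ.im + (s.im - ρ.im)| := by ring_nf
        _ ≤ _ := abs_add_le _ _
    nlinarith [abs_nonneg ρ.im, mul_nonneg (abs_nonneg ρ.im) hx0]
  have h4 : (1 + |s.im|) ^ 2 ≤ (1 + |ρ.im|) ^ 2 * (1 + x) ^ 2 := by
    rw [← mul_pow]
    exact pow_le_pow_left₀ (by positivity) h3 2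
  have h5 : (1 + x) ^ 2 ≤ 2 * Real.exp (x ^ 2) := by
    have := Real.add_one_le_exp (x ^ 2)
    nlinarith [sq_nonneg (1 - x)]
  have h6 : (s.re - ρ.re) ^ 2 ≤ (b - a) ^ 2 := by
    apply sq_le_sq'
    · linarith
    · linarith
  rw [hxx, Real.exp_sub, div_mul_eq_mul_div, div_le_iff₀ (Real.exp_pos _)]
  calc Real.exp ((s.re - ρ.re) ^ 2) * (1 + |s.im|) ^ 2
      ≤ Real.exp ((b - a) ^ 2) * ((1 + |ρ.im|) ^ 2 * (2 * Real.exp (x ^ 2))) := by
        apply mul_le_mul (Real.exp_le_exp.2 h6) _ hp.le (Real.exp_pos _).le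
        exact h4.trans (mul_le_mul_of_nonneg_left h5 (by positivity))
    _ = _ := by ring

lemma line_int {g : ℝ → ℂ} {K : ℝ} (hg : Continuous g) (h : ∀ t, ‖g t‖ ≤ K / (1 + |t|) ^ 2) :
    Integrable g := by
  have hK : 0 ≤ K := by
    have := (norm_nonneg _).trans (h 0)
    simpa using this
  exact (integrable_inv_one_add_sq.const_mul K).mono' hg.aestronglyMeasurable
    (Eventually.of_forall fun t => (h t).trans (inv_sq_le hK))

lemma line_cont {F : ℂ → ℂ} {a b : ℝ} {U : Set ℂ} (hU : IsOpen U)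
    (hUs : ∀ s : ℂ, a ≤ s.re → s.re ≤ b → s ∈ U) (hF : DifferentiableOn ℂ F U) (c : ℝ) (hc1 : a ≤ c)
    (hc2 : c ≤ b) : Continuous (fun t : ℝ => F (c + t * I)) := by
  rw [continuous_iff_continuousAt]
  intro t
  have h1 : ((c : ℂ) + t * I) ∈ U := hUs _ (by simpa using hc1) (by simpa using hc2)
  have h2 : ContinuousAt F ((c : ℂ) + t * I) := (hF.differentiableAt (hU.mem_nhds h1)).continuousAt
  have h3 : ContinuousAt (fun t : ℝ => (c : ℂ) + t * I) t := by fun_prop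
  exact ContinuousAt.comp (f := fun t : ℝ => (c : ℂ) + t * I) h2 h3

lemma dist_line {c t : ℝ} {z : ℂ} : |c - z.re| ≤ ‖(c : ℂ) + t * I - z‖ := by
  have := Complex.abs_re_le_norm ((c : ℂ) + t * I - z)
  simpa using this

lemma pow_deriv (w A z : ℂ) (hz : w - z ≠ 0) (n : ℕ) :
    HasDerivAt (fun z : ℂ => A / (w - z) ^ n) (n * (A / (w - z) ^ (n + 1))) z := by
  have h1 : HasDerivAt (fun z : ℂ => w - z) (-1) z := by
    simpa using (hasDerivAt_id z).const_sub w
  have h2 := (h1.pow n).inv (pow_ne_zero n hz)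
  have h3 := h2.const_mul A
  have e : (fun z : ℂ => A / (w - z) ^ n) = fun z => A * ((fun z => (w - z)) ^ n)⁻¹ z := by
    funext y
    simp [div_eq_mul_inv]
  rw [e]
  refine h3.congr_deriv ?_
  rcases n with _ | m
  · simp
  · simp only [Nat.add_sub_cancel, Pi.pow_apply]
    field_simp
    ring

lemma hasDeriv_line {F : ℂ → ℂ} {c K : ℝ} (hcont : Continuous (fun t : ℝ => F (c + t * I)))
    (hK : ∀ t : ℝ, ‖F (c + t * I)‖ ≤ K / (1 + |t|) ^ 2) (n : ℕ) {ρ : ℂ} (hc : c ≠ ρ.re) :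
    HasDerivAt (fun z : ℂ => ∫ t : ℝ, F (c + t * I) / (c + t * I - z) ^ n)
      (n * ∫ t : ℝ, F (c + t * I) / (c + t * I - ρ) ^ (n + 1)) ρ := by
  have hK0 : 0 ≤ K := by
    have := (norm_nonneg _).trans (hK 0)
    simpa using this
  set d : ℝ := |c - ρ.re| / 2 with hd
  have hd0 : 0 < d := by
    have : 0 < |c - ρ.re| := abs_pos.2 (sub_ne_zero.2 hc)
    positivity
  have hball : ∀ z ∈ Metric.ball ρ d, ∀ t : ℝ, d ≤ ‖(c : ℂ) + t * I - z‖ := by
    intro z hz t
    refine le_trans ?_ dist_line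
    have h1 : ‖z - ρ‖ < d := by simpa [dist_eq_norm] using hz
    have h2 : |z.re - ρ.re| ≤ ‖z - ρ‖ := by simpa using Complex.abs_re_le_norm (z - ρ)
    have h3 : |c - ρ.re| ≤ |c - z.re| + |z.re - ρ.re| := abs_sub_le _ _ _
    have h4 : |c - ρ.re| = 2 * d := by rw [hd]; ring
    linarith
  have hne : ∀ z ∈ Metric.ball ρ d, ∀ t : ℝ, (c : ℂ) + t * I - z ≠ 0 := by
    intro z hz t h0
    have := hball z hz t
    rw [h0, norm_zero] at this
    linarith
  have hρ : ρ ∈ Metric.ball ρ d := Metric.mem_ball_self hd0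
  have hc2 : ∀ z ∈ Metric.ball ρ d, ∀ m : ℕ,
      Continuous (fun t : ℝ => F (c + t * I) / (c + t * I - z) ^ m) := by
    intro z hz m
    apply hcont.div (by fun_prop)
    intro t
    exact pow_ne_zero _ (hne z hz t)
  have hb2 : ∀ z ∈ Metric.ball ρ d, ∀ m : ℕ, ∀ t : ℝ, ‖F (c + t * I) / (c + t * I - z) ^ m‖ ≤
      (K / d ^ m) / (1 + |t|) ^ 2 := by
    intro z hz m t
    rw [norm_div, norm_pow]
    calc ‖F (c + t * I)‖ / ‖(c : ℂ) + t * I - z‖ ^ m ≤ (K / (1 + |t|) ^ 2) / d ^ m := by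
          apply div_le_div₀ (by positivity) (hK t) (by positivity)
          exact pow_le_pow_left₀ hd0.le (hball z hz t) m
      _ = _ := by ring
  have key := hasDerivAt_integral_of_dominated_loc_of_deriv_le (μ := volume)
    (F := fun (z : ℂ) (t : ℝ) => F (c + t * I) / (c + t * I - z) ^ n)
    (F' := fun (z : ℂ) (t : ℝ) => (n : ℂ) * (F (c + t * I) / (c + t * I - z) ^ (n + 1)))
    (x₀ := ρ) (s := Metric.ball ρ d)
    (bound := fun t : ℝ => n * ((K / d ^ (n + 1)) * (1 + t ^ 2)⁻¹))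
    (Metric.ball_mem_nhds ρ hd0)
    (by
      filter_upwards [Metric.ball_mem_nhds ρ hd0] with z hz
      exact (hc2 z hz n).aestronglyMeasurable)
    (line_int (hc2 ρ hρ n) (hb2 ρ hρ n))
    ((hc2 ρ hρ (n + 1)).const_smul (n : ℂ)).aestronglyMeasurable
    (by
      refine Eventually.of_forall fun t z hz => ?_
      rw [norm_mul, Complex.norm_natCast]
      apply mul_le_mul_of_nonneg_left _ (Nat.cast_nonneg _)
      exact (hb2 z hz (n + 1) t).trans (inv_sq_le (by positivity)))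
    ((integrable_inv_one_add_sq.const_mul _).const_mul _)
    (by
      refine Eventually.of_forall fun t z hz => ?_
      exact pow_deriv _ _ _ (hne z hz t) n)
  have h2 := key.2
  rw [integral_const_mul] at h2
  exact h2

end PolesAux

open PolesAux

theorem pole1 {F : ℂ → ℂ} {a b K : ℝ} {U : Set ℂ} (hU : IsOpen U)
    (hUs : ∀ s : ℂ, a ≤ s.re → s.re ≤ b → s ∈ U) (hF : DifferentiableOn ℂ F U)
    (hK : ∀ s : ℂ, a ≤ s.re → s.re ≤ b → ‖F s‖ ≤ K / (1 + |s.im|) ^ 2)
    {ρ : ℂ} (ha : a < ρ.re) (hb : ρ.re < b) :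
    ∫ t : ℝ, F (b + t * I) / (b + t * I - ρ) =
      (∫ t : ℝ, F (a + t * I) / (a + t * I - ρ)) + 2 * Real.pi * F ρ := by
  have hab : a ≤ b := (ha.trans hb).le
  have hK0 : 0 ≤ K := by
    have := (norm_nonneg _).trans (hK (a : ℂ) (by simp) (by simpa using hab))
    simpa using this
  have hρU : ρ ∈ U := hUs ρ ha.le hb.le
  set H : ℂ → ℂ := fun s => F s - F ρ * Eg ρ s with hH
  have hHd : DifferentiableOn ℂ H U := hF.sub ((eg_diff ρ).differentiableOn.const_mul _)
  set G : ℂ → ℂ := dslope H ρ with hG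
  have hGd : DifferentiableOn ℂ G U := (Complex.differentiableOn_dslope (hU.mem_nhds hρU)).2 hHd
  set C1 : ℝ := 2 * Real.exp ((b - a) ^ 2) * (1 + |ρ.im|) ^ 2 with hC1
  have hC10 : 0 ≤ C1 := by positivity
  have hcpt : IsCompact (Set.Icc a b ×ℂ Set.Icc (ρ.im - 1) (ρ.im + 1)) :=
    isCompact_Icc.reProdIm isCompact_Icc
  obtain ⟨M, hM⟩ := hcpt.exists_bound_of_continuousOn (f := G) (by
    apply hGd.continuousOn.mono
    intro z hz
    rw [Complex.mem_reProdIm] at hz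
    exact hUs z hz.1.1 hz.1.2)
  have hM0 : 0 ≤ M := by
    have := hM ρ (by
      rw [Complex.mem_reProdIm]
      exact ⟨⟨ha.le, hb.le⟩, by constructor <;> linarith⟩)
    exact (norm_nonneg _).trans this
  have hHρ : H ρ = 0 := by simp [hH, eg_self]
  have hGs : ∀ s : ℂ, s ≠ ρ → G s = H s / (s - ρ) := by
    intro s hs
    rw [hG, dslope_of_ne _ hs, slope_def_field, hHρ, sub_zero]
  set K' : ℝ := M * (2 + |ρ.im|) ^ 2 + (K + ‖F ρ‖ * C1) with hK'
  have hGb : ∀ s : ℂ, a ≤ s.re → s.re ≤ b → ‖G s‖ ≤ K' / (1 + |s.im|) ^ 2 := by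
    intro s h1 h2
    have hp : 0 < (1 + |s.im|) ^ 2 := by positivity
    rw [le_div_iff₀ hp]
    rcases le_or_gt |s.im - ρ.im| 1 with h3 | h3
    · have h4 : ‖G s‖ ≤ M := by
        apply hM
        rw [Complex.mem_reProdIm]
        have := abs_le.1 h3
        exact ⟨⟨h1, h2⟩, by constructor <;> linarith [this.1, this.2]⟩
      have h5 : 1 + |s.im| ≤ 2 + |ρ.im| := by
        have : |s.im| ≤ |ρ.im| + |s.im - ρ.im| := by
          calc |s.im| = |ρ.im + (s.im - ρ.im)| := by ring_nf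
            _ ≤ _ := abs_add_le _ _
        linarith
      calc ‖G s‖ * (1 + |s.im|) ^ 2 ≤ M * (2 + |ρ.im|) ^ 2 := by
            apply mul_le_mul h4 (pow_le_pow_left₀ (by positivity) h5 2) hp.le hM0
        _ ≤ K' := by
            rw [hK']
            have : 0 ≤ K + ‖F ρ‖ * C1 := by positivity
            linarith
    · have h4 : 1 ≤ ‖s - ρ‖ := by
        have := Complex.abs_im_le_norm (s - ρ)
        rw [Complex.sub_im] at this
        linarith
      have hne : s ≠ ρ := by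
        rintro rfl
        simp at h4
        linarith
      have h5 : ‖G s‖ ≤ ‖H s‖ := by
        rw [hGs s hne, norm_div]
        exact div_le_self (norm_nonneg _) h4
      have h6 : ‖H s‖ ≤ K / (1 + |s.im|) ^ 2 + ‖F ρ‖ * (C1 / (1 + |s.im|) ^ 2) := by
        rw [hH]
        refine (norm_sub_le _ _).trans ?_
        rw [norm_mul]
        exact add_le_add (hK s h1 h2) (mul_le_mul_of_nonneg_left (eg_bound ha hb h1 h2) (norm_nonneg _))
      calc ‖G s‖ * (1 + |s.im|) ^ 2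
          ≤ (K / (1 + |s.im|) ^ 2 + ‖F ρ‖ * (C1 / (1 + |s.im|) ^ 2)) * (1 + |s.im|) ^ 2 :=
            mul_le_mul_of_nonneg_right (h5.trans h6) hp.le
        _ = K + ‖F ρ‖ * C1 := by field_simp
        _ ≤ K' := by
            rw [hK']
            have : 0 ≤ M * (2 + |ρ.im|) ^ 2 := by positivity
            linarith
  have e1 := shift_poly_on hab hU hUs hGd hGb
  have hE : ∀ s : ℂ, a ≤ s.re → s.re ≤ b → ‖F ρ * Eg ρ s‖ ≤ (‖F ρ‖ * C1) / (1 + |s.im|) ^ 2 := by
    intro s h1 h2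
    rw [norm_mul, mul_div_assoc]
    exact mul_le_mul_of_nonneg_left (eg_bound ha hb h1 h2) (norm_nonneg _)
  have e2 := shift_pole_poly (F := fun s => F ρ * Eg ρ s) ((eg_diff ρ).const_mul _) (a := a) (b := b)
    (K := ‖F ρ‖ * C1) (by
      intro s h1 h2
      refine (hE s h1 h2).trans ?_
      apply div_le_div_of_nonneg_left (by positivity) (by positivity)
      have := abs_nonneg s.im
      nlinarith) ρ ha hb
  have split : ∀ c : ℝ, a ≤ c → c ≤ b → c ≠ ρ.re →
      ∫ t : ℝ, F (c + t * I) / (c + t * I - ρ) =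
        (∫ t : ℝ, G (c + t * I)) + ∫ t : ℝ, (F ρ * Eg ρ (c + t * I)) / (c + t * I - ρ) := by
    intro c h1 h2 hc
    rw [← integral_add]
    · refine integral_congr_ae (Eventually.of_forall fun t => ?_)
      have hne : (c : ℂ) + t * I - ρ ≠ 0 := pole_ne hc
      have : G (c + t * I) = H (c + t * I) / (c + t * I - ρ) := hGs _ (sub_ne_zero.1 hne)
      simp only [this, hH]
      field_simp
      ring
    · apply line_int (K := K') (line_cont hU hUs hGd c h1 h2)
      intro t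
      have := hGb ((c : ℂ) + t * I) (by simpa using h1) (by simpa using h2)
      simpa using this
    · apply line_int (K := (‖F ρ‖ * C1) / |c - ρ.re|)
      · apply Continuous.div
        · exact continuous_const.mul ((eg_diff ρ).continuous.comp (by fun_prop))
        · fun_prop
        · intro t
          exact pole_ne hc
      · intro t
        have h3 := hE ((c : ℂ) + t * I) (by simpa using h1) (by simpa using h2)
        have him : ((c : ℂ) + t * I).im = t := by simp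
        rw [him] at h3
        have h4 : 0 < |c - ρ.re| := abs_pos.2 (sub_ne_zero.2 hc)
        rw [norm_div]
        calc ‖F ρ * Eg ρ (c + t * I)‖ / ‖(c : ℂ) + t * I - ρ‖
            ≤ ((‖F ρ‖ * C1) / (1 + |t|) ^ 2) / |c - ρ.re| :=
              div_le_div₀ (by positivity) h3 h4 dist_line
          _ = _ := by ring
  rw [split b hab le_rfl hb.ne', split a le_rfl hab ha.ne, e1, e2, eg_self]
  ring

theorem pole2 {F : ℂ → ℂ} {a b K : ℝ} {U : Set ℂ} (hU : IsOpen U)
    (hUs : ∀ s : ℂ, a ≤ s.re → s.re ≤ b → s ∈ U) (hF : DifferentiableOn ℂ F U)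
    (hK : ∀ s : ℂ, a ≤ s.re → s.re ≤ b → ‖F s‖ ≤ K / (1 + |s.im|) ^ 2)
    {ρ : ℂ} (ha : a < ρ.re) (hb : ρ.re < b) :
    ∫ t : ℝ, F (b + t * I) / (b + t * I - ρ) ^ 2 =
      (∫ t : ℝ, F (a + t * I) / (a + t * I - ρ) ^ 2) + 2 * Real.pi * deriv F ρ := by
  have hab : a ≤ b := (ha.trans hb).le
  have hρU : ρ ∈ U := hUs ρ ha.le hb.le
  have hline : ∀ c : ℝ, a ≤ c → c ≤ b → ∀ t : ℝ, ‖F (c + t * I)‖ ≤ K / (1 + |t|) ^ 2 := by
    intro c h1 h2 t
    have := hK ((c : ℂ) + t * I) (by simpa using h1) (by simpa using h2)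
    simpa using this
  have hB := hasDeriv_line (line_cont hU hUs hF b hab le_rfl) (hline b hab le_rfl) 1 (ρ := ρ) hb.ne'
  have hA := hasDeriv_line (line_cont hU hUs hF a le_rfl hab) (hline a le_rfl hab) 1 (ρ := ρ) ha.ne
  have hFd : HasDerivAt F (deriv F ρ) ρ := (hF.differentiableAt (hU.mem_nhds hρU)).hasDerivAt
  have hR := hA.add (hFd.const_mul (2 * Real.pi : ℂ))
  have hev : (fun z : ℂ => ∫ t : ℝ, F (b + t * I) / (b + t * I - z) ^ 1) =ᶠ[𝓝 ρ]
      (fun z : ℂ => (∫ t : ℝ, F (a + t * I) / (a + t * I - z) ^ 1) + 2 * Real.pi * F z) := by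
    have h1 : {z : ℂ | a < z.re ∧ z.re < b} ∈ 𝓝 ρ := by
      apply IsOpen.mem_nhds
      · exact (isOpen_lt continuous_const Complex.continuous_re).inter
          (isOpen_lt Complex.continuous_re continuous_const)
      · exact ⟨ha, hb⟩
    filter_upwards [h1] with z hz
    simp only [pow_one]
    exact pole1 hU hUs hF hK hz.1 hz.2
  have := hB.unique (hR.congr_of_eventuallyEq hev)
  simpa using this

theorem pole3 {F : ℂ → ℂ} {a b K : ℝ} {U : Set ℂ} (hU : IsOpen U)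
    (hUs : ∀ s : ℂ, a ≤ s.re → s.re ≤ b → s ∈ U) (hF : DifferentiableOn ℂ F U)
    (hK : ∀ s : ℂ, a ≤ s.re → s.re ≤ b → ‖F s‖ ≤ K / (1 + |s.im|) ^ 2)
    {ρ : ℂ} (ha : a < ρ.re) (hb : ρ.re < b) :
    ∫ t : ℝ, F (b + t * I) / (b + t * I - ρ) ^ 3 =
      (∫ t : ℝ, F (a + t * I) / (a + t * I - ρ) ^ 3) + Real.pi * deriv (deriv F) ρ := by
  have hab : a ≤ b := (ha.trans hb).le
  have hρU : ρ ∈ U := hUs ρ ha.le hb.le
  have hline : ∀ c : ℝ, a ≤ c → c ≤ b → ∀ t : ℝ, ‖F (c + t * I)‖ ≤ K / (1 + |t|) ^ 2 := by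
    intro c h1 h2 t
    have := hK ((c : ℂ) + t * I) (by simpa using h1) (by simpa using h2)
    simpa using this
  have hB := hasDeriv_line (line_cont hU hUs hF b hab le_rfl) (hline b hab le_rfl) 2 (ρ := ρ) hb.ne'
  have hA := hasDeriv_line (line_cont hU hUs hF a le_rfl hab) (hline a le_rfl hab) 2 (ρ := ρ) ha.ne
  have hFd : HasDerivAt (deriv F) (deriv (deriv F) ρ) ρ :=
    ((hF.deriv hU).differentiableAt (hU.mem_nhds hρU)).hasDerivAt
  have hR := hA.add (hFd.const_mul (2 * Real.pi : ℂ))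
  have hev : (fun z : ℂ => ∫ t : ℝ, F (b + t * I) / (b + t * I - z) ^ 2) =ᶠ[𝓝 ρ]
      (fun z : ℂ => (∫ t : ℝ, F (a + t * I) / (a + t * I - z) ^ 2) + 2 * Real.pi * deriv F z) := by
    have h1 : {z : ℂ | a < z.re ∧ z.re < b} ∈ 𝓝 ρ := by
      apply IsOpen.mem_nhds
      · exact (isOpen_lt continuous_const Complex.continuous_re).inter
          (isOpen_lt Complex.continuous_re continuous_const)
      · exact ⟨ha, hb⟩
    filter_upwards [h1] with z hz
    exact pole2 hU hUs hF hK hz.1 hz.2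
  have := hB.unique (hR.congr_of_eventuallyEq hev)
  push_cast at this
  have h2 : (2 : ℂ) ≠ 0 := two_ne_zero
  apply mul_left_cancel₀ h2
  rw [this]
  ring

end Pool.Agent.P07318m
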