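import Pool.Agent.Lib.P07318m.Defs

/-!
# P07318m.GaussChar: additive characters through Dirichlet characters

`norm_gauss_le`: for EVERY Dirichlet character `χ` mod `q` (primitive or not) `|τ(χ)| ≤ √q`,
`τ(χ) = gaussSum χ stdAddChar = ∑_x χ(x) e(x/q)`.
PROOF. For `u` a unit mod `q`: `∑_x χ(x) e(ux/q) = χ(u)⁻¹ τ(χ)` has modulus `|τ(χ)|`. So
`φ(q) |τ(χ)|² ≤ ∑_{u mod q} |∑_x χ(x) e(ux/q)|² = q ∑_x |χ(x)|² = q φ(q)` (Parseval on `ZMod q`: expand the square,
orthogonality of additive characters).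

`ee_expand`: for `x` coprime to `q`:
`e(-x/q) = (1/φ(q)) ∑_χ τ(χ⁻¹) χ(-x)` (orthogonality of characters), and the principal character contributes
`τ(1) = ∑_{y unit} e(y/q) = μ(q)` (Ramanujan sum).
-/

set_option autoImplicit false

open MeasureTheory Complex

namespace Pool.Agent.P07318m

/-- Parseval on `ZMod q`. -/
theorem gauss_parseval {q : ℕ} [NeZero q] (f : ZMod q → ℂ) :
    ∑ u : ZMod q, ‖∑ x : ZMod q, f x * ZMod.stdAddChar (u * x)‖ ^ 2 = q * ∑ x : ZMod q, ‖f x‖ ^ 2 := by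
  have key : ∀ u : ZMod q, ((‖∑ x : ZMod q, f x * ZMod.stdAddChar (u * x)‖ ^ 2 : ℝ) : ℂ) =
      ∑ x : ZMod q, ∑ y : ZMod q, (f x * (starRingEnd ℂ) (f y)) *
        ZMod.stdAddChar (u * (x - y)) := by
    intro u
    rw [← Complex.normSq_eq_norm_sq, ← Complex.mul_conj, map_sum, Finset.sum_mul_sum]
    refine Finset.sum_congr rfl fun x _ => Finset.sum_congr rfl fun y _ => ?_
    have h1 : (starRingEnd ℂ) (ZMod.stdAddChar (u * y) : ℂ) = ZMod.stdAddChar (-(u * y)) :=
      (AddChar.map_neg_eq_conj _ _).symm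
    have h2 : ZMod.stdAddChar (u * (x - y)) =
        (ZMod.stdAddChar (u * x) : ℂ) * ZMod.stdAddChar (-(u * y)) := by
      rw [← AddChar.map_add_eq_mul]
      congr 1
      ring
    rw [RingHom.map_mul, h1, h2]
    ring
  have h2 : ((∑ u : ZMod q, ‖∑ x : ZMod q, f x * ZMod.stdAddChar (u * x)‖ ^ 2 : ℝ) : ℂ) =
      ((q * ∑ x : ZMod q, ‖f x‖ ^ 2 : ℝ) : ℂ) := by
    rw [Complex.ofReal_sum, Finset.sum_congr rfl fun u _ => key u, Finset.sum_comm]
    push_cast
    rw [Finset.mul_sum]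
    refine Finset.sum_congr rfl fun x _ => ?_
    rw [Finset.sum_comm]
    have h3 : ∀ y : ZMod q, ∑ u : ZMod q, (f x * (starRingEnd ℂ) (f y)) *
        ZMod.stdAddChar (u * (x - y)) = if y = x then (q : ℂ) * (‖f x‖ : ℂ) ^ 2 else 0 := by
      intro y
      rw [← Finset.mul_sum, AddChar.sum_mulShift _ (ZMod.isPrimitive_stdAddChar q)]
      by_cases hy : y = x
      · subst hy
        simp only [sub_self, if_true, ZMod.card]
        rw [Complex.mul_conj, Complex.normSq_eq_norm_sq]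
        push_cast
        ring
      · rw [if_neg hy, if_neg (sub_ne_zero.2 (Ne.symm hy))]
        simp
    rw [Finset.sum_congr rfl fun y _ => h3 y]
    simp
  exact_mod_cast h2

theorem norm_gauss_le {q : ℕ} [NeZero q] (χ : DirichletCharacter ℂ q) :
    ‖gaussSum χ (ZMod.stdAddChar (N := q))‖ ≤ Real.sqrt q := by
  classical
  have hq : 0 < q := Nat.pos_of_ne_zero (NeZero.ne q)
  have hP := gauss_parseval (fun x : ZMod q => χ x)
  have hφ : 0 < q.totient := Nat.totient_pos.2 hq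
  -- the right side
  have hR : ∑ x : ZMod q, ‖χ x‖ ^ 2 = (q.totient : ℝ) := by
    have h1 : ∀ x : ZMod q, ‖χ x‖ ^ 2 = if IsUnit x then (1 : ℝ) else 0 := by
      intro x
      split_ifs with hx
      · obtain ⟨u, rfl⟩ := hx
        rw [χ.unit_norm_eq_one u]; norm_num
      · rw [χ.map_nonunit hx]; simp
    rw [Finset.sum_congr rfl fun x _ => h1 x, ← Finset.sum_filter, Finset.sum_const,
      nsmul_eq_mul, mul_one]
    rw [← ZMod.card_units_eq_totient]
    congr 1
    rw [← Finset.card_univ]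
    refine (Finset.card_bij (fun (u : (ZMod q)ˣ) _ => (u : ZMod q)) ?_ ?_ ?_).symm
    · intro u _; simp
    · intro u _ v _ h; exact Units.ext h
    · intro x hx
      rw [Finset.mem_filter] at hx
      obtain ⟨u, hu⟩ := hx.2
      exact ⟨u, Finset.mem_univ _, hu⟩
  -- the left side
  have hL : (q.totient : ℝ) * ‖gaussSum χ (ZMod.stdAddChar (N := q))‖ ^ 2 ≤
      ∑ u : ZMod q, ‖∑ x : ZMod q, χ x * ZMod.stdAddChar (u * x)‖ ^ 2 := by
    have h1 : ∀ u : (ZMod q)ˣ, ‖∑ x : ZMod q, χ x * ZMod.stdAddChar ((u : ZMod q) * x)‖ =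
        ‖gaussSum χ (ZMod.stdAddChar (N := q))‖ := by
      intro u
      rw [← gaussSum_mulShift χ (ZMod.stdAddChar (N := q)) u, norm_mul, χ.unit_norm_eq_one, one_mul]
      rfl
    have h2 : ∑ u : (ZMod q)ˣ, ‖∑ x : ZMod q, χ x * ZMod.stdAddChar ((u : ZMod q) * x)‖ ^ 2 =
        (q.totient : ℝ) * ‖gaussSum χ (ZMod.stdAddChar (N := q))‖ ^ 2 := by
      rw [Finset.sum_congr rfl fun u _ => by rw [h1 u], Finset.sum_const, nsmul_eq_mul,
        Finset.card_univ, ZMod.card_units_eq_totient]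
    rw [← h2]
    have h3 : ∑ u : (ZMod q)ˣ, ‖∑ x : ZMod q, χ x * ZMod.stdAddChar ((u : ZMod q) * x)‖ ^ 2 =
        ∑ v ∈ (Finset.univ : Finset (ZMod q)ˣ).map ⟨fun u : (ZMod q)ˣ => (u : ZMod q), Units.val_injective⟩,
          ‖∑ x : ZMod q, χ x * ZMod.stdAddChar (v * x)‖ ^ 2 := by
      rw [Finset.sum_map]; rfl
    rw [h3]
    exact Finset.sum_le_sum_of_subset_of_nonneg (Finset.subset_univ _) fun _ _ _ => by positivity
  rw [hP, hR] at hL
  have hφ' : (0 : ℝ) < q.totient := by exact_mod_cast hφ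
  apply Real.le_sqrt_of_sq_le
  nlinarith

/-- The sum over `ZMod q` as a sum over `range q`. -/
theorem gauss_sum_range {q : ℕ} [NeZero q] (f : ZMod q → ℂ) :
    ∑ x : ZMod q, f x = ∑ k ∈ Finset.range q, f (k : ZMod q) := by
  refine Finset.sum_nbij' (fun x => x.val) (fun k => (k : ZMod q)) ?_ ?_ ?_ ?_ ?_
  · intro x _; rw [Finset.mem_range]; exact ZMod.val_lt x
  · intro k _; exact Finset.mem_univ _
  · intro x _; exact ZMod.natCast_zmod_val x
  · intro k hk; exact ZMod.val_cast_of_lt (Finset.mem_range.1 hk)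
  · intro x _; rw [ZMod.natCast_zmod_val]

theorem gauss_pow {q : ℕ} [NeZero q] (k : ℕ) :
    (ZMod.stdAddChar (k : ZMod q) : ℂ) = (ZMod.stdAddChar (1 : ZMod q) : ℂ) ^ k := by
  rw [← AddChar.map_nsmul_eq_pow, nsmul_eq_mul, mul_one]

theorem gauss_prim (q : ℕ) [NeZero q] :
    IsPrimitiveRoot (ZMod.stdAddChar (1 : ZMod q) : ℂ) q := by
  constructor
  · rw [← gauss_pow, ZMod.natCast_self, AddChar.map_zero_eq_one]
  · intro l hl
    rw [← gauss_pow] at hl
    have h1 : (ZMod.stdAddChar (l : ZMod q) : ℂ) = ZMod.stdAddChar (0 : ZMod q) := by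
      rw [hl, AddChar.map_zero_eq_one]
    have h2 := ZMod.injective_stdAddChar h1
    exact (ZMod.natCast_eq_zero_iff l q).1 h2

/-- The sum over the multiples of `d`. -/
theorem gauss_mult {q d : ℕ} [NeZero q] (hd : d ∣ q) :
    ∑ k ∈ (Finset.range q).filter (fun k => d ∣ k), (ZMod.stdAddChar (k : ZMod q) : ℂ) =
      if d = q then 1 else 0 := by
  obtain ⟨e, he⟩ := hd
  have hq : 0 < q := Nat.pos_of_ne_zero (NeZero.ne q)
  have hd0 : 0 < d := Nat.pos_of_ne_zero (by rintro rfl; rw [zero_mul] at he; omega)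
  have he0 : 0 < e := Nat.pos_of_ne_zero (by rintro rfl; rw [mul_zero] at he; omega)
  have h1 : ∑ k ∈ (Finset.range q).filter (fun k => d ∣ k), (ZMod.stdAddChar (k : ZMod q) : ℂ) =
      ∑ j ∈ Finset.range e, ((ZMod.stdAddChar (1 : ZMod q) : ℂ) ^ d) ^ j := by
    symm
    refine Finset.sum_nbij (fun j => d * j) ?_ ?_ ?_ ?_
    · intro j hj
      rw [Finset.mem_range] at hj
      rw [Finset.mem_filter, Finset.mem_range, he]
      exact ⟨Nat.mul_lt_mul_of_pos_left hj hd0, dvd_mul_right _ _⟩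
    · intro i _ j _ hij
      exact Nat.eq_of_mul_eq_mul_left hd0 hij
    · intro k hk
      rw [Finset.mem_coe, Finset.mem_filter, Finset.mem_range] at hk
      obtain ⟨hk1, j, rfl⟩ := hk
      rw [he] at hk1
      exact ⟨j, by simpa using Nat.lt_of_mul_lt_mul_left hk1, rfl⟩
    · intro j _
      rw [← pow_mul, ← gauss_pow]
  rw [h1]
  have hprim : IsPrimitiveRoot ((ZMod.stdAddChar (1 : ZMod q) : ℂ) ^ d) e :=
    (gauss_prim q).pow hq he
  by_cases hdq : d = q
  · rw [if_pos hdq]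
    have : e = 1 := by
      rw [hdq] at he
      exact Nat.eq_of_mul_eq_mul_left hq (by omega)
    rw [this]; simp
  · rw [if_neg hdq]
    apply hprim.geom_sum_eq_zero
    by_contra hlt
    have : e = 1 := by omega
    rw [this, mul_one] at he
    exact hdq he.symm

theorem gauss_one {q : ℕ} [NeZero q] :
    gaussSum (1 : DirichletCharacter ℂ q) (ZMod.stdAddChar (N := q)) = ((ArithmeticFunction.moebius q : ℤ) : ℂ) := by
  have hq : 0 < q := Nat.pos_of_ne_zero (NeZero.ne q)
  unfold gaussSum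
  rw [gauss_sum_range]
  have h1 : ∀ k : ℕ, (1 : DirichletCharacter ℂ q) (k : ZMod q) =
      ∑ d ∈ q.divisors, if d ∣ k then ((ArithmeticFunction.moebius d : ℤ) : ℂ) else 0 := by
    intro k
    have h2 : ∑ d ∈ (k.gcd q).divisors, ((ArithmeticFunction.moebius d : ℤ) : ℂ) =
        if k.gcd q = 1 then 1 else 0 := by
      have h3 := congrArg (fun F : ArithmeticFunction ℤ => F (k.gcd q))
        ArithmeticFunction.coe_zeta_mul_moebius
      simp only [ArithmeticFunction.coe_zeta_mul_apply, ArithmeticFunction.one_apply] at h3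
      rw [← Int.cast_sum, h3]
      split_ifs <;> simp
    have h4 : ∑ d ∈ q.divisors, (if d ∣ k then ((ArithmeticFunction.moebius d : ℤ) : ℂ) else 0) =
        ∑ d ∈ (k.gcd q).divisors, ((ArithmeticFunction.moebius d : ℤ) : ℂ) := by
      rw [← Finset.sum_filter]
      apply Finset.sum_congr _ fun _ _ => rfl
      ext d
      rw [Finset.mem_filter, Nat.mem_divisors, Nat.mem_divisors, Nat.dvd_gcd_iff]
      constructor
      · rintro ⟨⟨h5, -⟩, h6⟩
        exact ⟨⟨h6, h5⟩, (Nat.gcd_pos_of_pos_right _ hq).ne'⟩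
      · rintro ⟨⟨h6, h5⟩, -⟩
        exact ⟨⟨h5, hq.ne'⟩, h6⟩
    rw [h4, h2]
    by_cases hc : k.gcd q = 1
    · rw [if_pos hc]
      exact MulChar.one_apply ((ZMod.isUnit_iff_coprime k q).2 hc)
    · rw [if_neg hc]
      apply MulChar.map_nonunit
      intro hu
      exact hc ((ZMod.isUnit_iff_coprime k q).1 hu)
  rw [Finset.sum_congr rfl fun k _ => by rw [h1 k, Finset.sum_mul], Finset.sum_comm]
  have h2 : ∀ d ∈ q.divisors, ∑ k ∈ Finset.range q,
      (if d ∣ k then ((ArithmeticFunction.moebius d : ℤ) : ℂ) else 0) *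
        ZMod.stdAddChar (k : ZMod q) = if d = q then ((ArithmeticFunction.moebius d : ℤ) : ℂ) else 0 := by
    intro d hd
    have h3 : ∀ k : ℕ, (if d ∣ k then ((ArithmeticFunction.moebius d : ℤ) : ℂ) else 0) *
        ZMod.stdAddChar (k : ZMod q) = if d ∣ k then ((ArithmeticFunction.moebius d : ℤ) : ℂ) *
          ZMod.stdAddChar (k : ZMod q) else 0 := by
      intro k
      split_ifs <;> simp
    rw [Finset.sum_congr rfl fun k _ => h3 k, ← Finset.sum_filter, ← Finset.mul_sum,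
      gauss_mult (Nat.dvd_of_mem_divisors hd)]
    split_ifs <;> simp
  rw [Finset.sum_congr rfl h2, Finset.sum_ite_eq' q.divisors q
    (fun d => ((ArithmeticFunction.moebius d : ℤ) : ℂ)), if_pos (Nat.mem_divisors_self q hq.ne')]

theorem gauss_ee {q : ℕ} [NeZero q] (x : ℕ) :
    (ZMod.stdAddChar (-(x : ZMod q)) : ℂ) = ee (-((x : ℝ) / q)) := by
  have h := ZMod.stdAddChar_coe (N := q) (-(x : ℤ))
  push_cast at h
  rw [h]
  unfold ee
  congr 1
  push_cast
  ring

open Classical in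
theorem ee_expand {q : ℕ} [NeZero q] {x : ℕ} (hx : x.Coprime q) :
    ee (-((x : ℝ) / q)) - ((ArithmeticFunction.moebius q : ℤ) : ℂ) / ((q.totient : ℕ) : ℂ) =
      (1 / ((q.totient : ℕ) : ℂ)) * ∑ χ ∈ Finset.univ.erase (1 : DirichletCharacter ℂ q),
        gaussSum χ⁻¹ (ZMod.stdAddChar (N := q)) * χ (-1) * χ (x : ZMod q) := by
  have hq : 0 < q := Nat.pos_of_ne_zero (NeZero.ne q)
  have hφ : ((q.totient : ℕ) : ℂ) ≠ 0 := by exact_mod_cast (Nat.totient_pos.2 hq).ne'
  have hxu : IsUnit (x : ZMod q) := (ZMod.isUnit_iff_coprime x q).2 hx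
  have hfull : ∑ χ : DirichletCharacter ℂ q,
      gaussSum χ⁻¹ (ZMod.stdAddChar (N := q)) * χ (-1) * χ (x : ZMod q) =
      (q.totient : ℂ) * ee (-((x : ℝ) / q)) := by
    have h1 : ∀ χ : DirichletCharacter ℂ q,
        gaussSum χ⁻¹ (ZMod.stdAddChar (N := q)) * χ (-1) * χ (x : ZMod q) =
        ∑ y : ZMod q, (χ⁻¹ y * χ (-(x : ZMod q))) * ZMod.stdAddChar y := by
      intro χ
      have h2 : χ (-1) * χ (x : ZMod q) = χ (-(x : ZMod q)) := by
        rw [← map_mul, neg_one_mul]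
      rw [mul_assoc, h2]
      unfold gaussSum
      rw [Finset.sum_mul]
      refine Finset.sum_congr rfl fun y _ => ?_
      ring
    rw [Finset.sum_congr rfl fun χ _ => h1 χ, Finset.sum_comm]
    have h3 : ∀ y : ZMod q, ∑ χ : DirichletCharacter ℂ q,
        (χ⁻¹ y * χ (-(x : ZMod q))) * ZMod.stdAddChar y =
        if y = -(x : ZMod q) then (q.totient : ℂ) * ZMod.stdAddChar y else 0 := by
      intro y
      rw [← Finset.sum_mul]
      by_cases hy : IsUnit y
      · have h4 : ∀ χ : DirichletCharacter ℂ q, χ⁻¹ y = χ y⁻¹ := by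
          intro χ
          rw [MulChar.inv_apply_eq_inv']
          have h5 : χ y⁻¹ * χ y = 1 := by
            rw [← map_mul, ZMod.inv_mul_of_unit y hy, map_one]
          exact (eq_inv_of_mul_eq_one_left h5).symm
        rw [Finset.sum_congr rfl fun χ _ => by rw [h4 χ],
          DirichletCharacter.sum_char_inv_mul_char_eq ℂ hy]
        split_ifs <;> simp
      · have h4 : y ≠ -(x : ZMod q) := by
          rintro rfl
          exact hy hxu.neg
        rw [if_neg h4, Finset.sum_eq_zero, zero_mul]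
        intro χ _
        rw [MulChar.map_nonunit _ hy, zero_mul]
    rw [Finset.sum_congr rfl fun y _ => h3 y, Finset.sum_ite_eq' Finset.univ (-(x : ZMod q))
      (fun y => (q.totient : ℂ) * ZMod.stdAddChar y), if_pos (Finset.mem_univ _), gauss_ee]
  have hone : gaussSum (1 : DirichletCharacter ℂ q)⁻¹ (ZMod.stdAddChar (N := q)) *
      (1 : DirichletCharacter ℂ q) (-1) * (1 : DirichletCharacter ℂ q) (x : ZMod q) =
      ((ArithmeticFunction.moebius q : ℤ) : ℂ) := by
    rw [inv_one, gauss_one, MulChar.one_apply isUnit_one.neg, MulChar.one_apply hxu, mul_one,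
      mul_one]
  rw [Finset.sum_erase_eq_sub (Finset.mem_univ _), hfull, hone]
  field_simp

end Pool.Agent.P07318m
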