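import Pool.Agent.Lib.P07318m.Defs
import Pool.Agent.Lib.P07318m.GaussChar
import Pool.Agent.Lib.P4f18dfS.XFac
import Pool.Agent.Lib.KeZhao.LBounds

/-!
# P07318m.XKap: the functional equation of Dirichlet `L`-functions and its gamma factor

`XK κ s = Gammaℝ (1 - s + κ) / Gammaℝ (s + κ)`, `κ = 0` for even and `κ = 1` for odd characters (`Bool`).

`xk_bound`: `|XK κ s| ≤ C (1+|Im s|)` for `-1/4 ≤ Re s ≤ 9/16`. PROOF (`s = σ + iv`, `y = v/2`).
`‖Gammaℝ w‖ = π^{-Re w/2} ‖Γ(w/2)‖` (`P4f18dfS.norm_gammaR`).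
`κ = 1`: `|Γ((2-σ)/2 - iy)| / |Γ((1+σ)/2 + iy)|`, both real parts lie in `[1/16, 2]`, by `P4f18dfS.gamma_ratio_sym` it is
`≤ C |y|^{1/2-σ} ≤ C (1+|v|)^{3/4}` for `|y| ≥ 1/8`.
`κ = 0`: the same for `σ ≥ 1/8`; for `σ < 1/8` use `Γ(σ/2+iy) = Γ(1+σ/2+iy)/(σ/2+iy)`:
`≤ C |σ/2+iy| |y|^{(1-σ)/2 - 1 - σ/2} ≤ C |y|^{1/2-σ} ≤ C|y|^{3/4}`.
`|y| ≤ 1/8`: `XK κ` is holomorphic for `Re s < 1` (`Gammaℝ` has no zeros, `1/Gammaℝ` is entire: `Complex.differentiable_Gammaℝ_inv`),
hence bounded on the compact rectangle.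

`lfun_fe`: for primitive `χ` mod `q ≥ 2` and all `s` with `Re s < 1`:
`L(s,χ) = w q^{1/2-s} XK κ s L(1-s,χ⁻¹)` with `|w| ≤ 1` independent of `s`. PROOF. `DirichletCharacter.IsPrimitive.completedLFunction_one_sub`
(applied to `χ⁻¹`, at `s`, or to `χ` at `1-s`), `LFunction_eq_completed_div_gammaFactor`, `gammaFactor` is `Gammaℝ s` or `Gammaℝ (s+1)`
(`DirichletCharacter.gammaFactor`), `w = rootNumber`, `|rootNumber| ≤ 1` as `|gaussSum χ stdAddChar| ≤ √q` (`GaussChar.norm_gauss_le`, or the exact value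
for primitive characters in Mathlib). The parity of `χ⁻¹` is that of `χ`. At the zeros of `1/Gammaℝ(s+κ)` (poles of `Gammaℝ (s+κ)`) both sides
are fine: `LFunction_eq_completed_div_gammaFactor` holds for all `s` with `s ≠ 0` or `q ≠ 1`.

`lfun_left`: consequence: polynomial bound of `L(s,χ)` for primitive `χ`, `-1/4 ≤ Re s ≤ 9/16`, constant may depend on `q`.
PROOF: `|L(1-s,χ⁻¹)| ≤ q |1-s| cZ` if `Re (1-s) ≥ 1/2` (`KeZhao.norm_LFunction_le`), and directly for `Re s ≥ 1/2`.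
-/

set_option autoImplicit false

open MeasureTheory Complex

namespace Pool.Agent.P07318m

open DirichletCharacter

/-- The gamma factor of the functional equation. -/
noncomputable def XK (κ : Bool) (s : ℂ) : ℂ :=
  if κ then Gammaℝ (2 - s) / Gammaℝ (s + 1) else Gammaℝ (1 - s) / Gammaℝ s

theorem xk_false : XK false = P4f18dfS.XF := by
  funext s
  simp [XK, P4f18dfS.XF]

lemma gammaR_diffAt {s : ℂ} (hs : 0 < s.re) : DifferentiableAt ℂ Complex.Gammaℝ s := by
  have : Complex.Gammaℝ = fun s : ℂ => ((Real.pi : ℂ) ^ (-s / 2)) * Complex.Gamma (s / 2) := by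
    funext s
    rw [Complex.Gammaℝ_def]
  rw [this]
  apply DifferentiableAt.mul
  · apply DifferentiableAt.const_cpow
    · fun_prop
    · left
      exact_mod_cast Real.pi_ne_zero
  · apply DifferentiableAt.fun_comp' s (f := fun s : ℂ => s / 2) (g := Complex.Gamma)
    · apply Complex.differentiableAt_Gamma
      intro m h
      have := congrArg Complex.re h
      have e2 : (s / 2).re = s.re / 2 := by
        have : (s / 2) = ((1 / 2 : ℝ) : ℂ) * s := by push_cast; ring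
        rw [this, Complex.re_ofReal_mul]
        ring
      rw [e2] at this
      simp at this
      have hm : (0 : ℝ) ≤ m := Nat.cast_nonneg m
      linarith
    · fun_prop

theorem xk_diff (κ : Bool) : DifferentiableOn ℂ (XK κ) {s : ℂ | s.re < 1} := by
  cases κ with
  | false => rw [xk_false]; exact P4f18dfS.xf_diff
  | true =>
    intro w hw
    have hw' : w.re < 1 := hw
    apply DifferentiableAt.differentiableWithinAt
    have e : XK true = fun w => Complex.Gammaℝ (2 - w) * (Complex.Gammaℝ (w + 1))⁻¹ := by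
      funext w
      simp only [XK, if_true]
      rw [div_eq_mul_inv]
    rw [e]
    apply DifferentiableAt.mul
    · exact DifferentiableAt.fun_comp' w (f := fun s : ℂ => 2 - s)
        (gammaR_diffAt (s := 2 - w) (by simp; linarith)) (by fun_prop)
    · exact DifferentiableAt.fun_comp' w (f := fun s : ℂ => s + 1) (g := fun s => (Complex.Gammaℝ s)⁻¹)
        (Complex.differentiable_Gammaℝ_inv (w + 1)) (by fun_prop)

lemma norm_xk_true (σ v : ℝ) : ‖XK true ((σ : ℂ) + v * I)‖ =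
    Real.pi ^ (σ - 1 / 2) * ‖Complex.Gamma ((((2 - σ) / 2 : ℝ) : ℂ) + ((v / 2 : ℝ) : ℂ) * I)‖ /
      ‖Complex.Gamma ((((1 + σ) / 2 : ℝ) : ℂ) + ((v / 2 : ℝ) : ℂ) * I)‖ := by
  simp only [XK, if_true]
  rw [norm_div, P4f18dfS.XFac.norm_gammaR, P4f18dfS.XFac.norm_gammaR]
  have h1 : (2 - ((σ : ℂ) + v * I)) / 2 =
      (starRingEnd ℂ) ((((2 - σ) / 2 : ℝ) : ℂ) + ((v / 2 : ℝ) : ℂ) * I) := by
    rw [map_add, map_mul, Complex.conj_ofReal, Complex.conj_ofReal, Complex.conj_I]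
    push_cast
    ring
  have h2 : ((σ : ℂ) + v * I + 1) / 2 = ((((1 + σ) / 2 : ℝ) : ℂ) + ((v / 2 : ℝ) : ℂ) * I) := by
    push_cast
    ring
  rw [h1, h2, Complex.Gamma_conj, Complex.norm_conj]
  have h3 : (2 - ((σ : ℂ) + v * I)).re = 2 - σ := by simp
  have h4 : ((σ : ℂ) + v * I + 1).re = σ + 1 := by simp
  rw [h3, h4]
  have hpi := Real.pi_pos
  have h5 : Real.pi ^ (-(2 - σ) / 2) = Real.pi ^ (σ - 1 / 2) * Real.pi ^ (-(σ + 1) / 2) := by
    rw [← Real.rpow_add hpi]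
    congr 1
    ring
  rw [h5]
  have h6 : Real.pi ^ (-(σ + 1) / 2) ≠ 0 := (Real.rpow_pos_of_pos hpi _).ne'
  rw [mul_assoc, mul_comm (Real.pi ^ (-(σ + 1) / 2)) ‖_‖, mul_comm (Real.pi ^ (-(σ + 1) / 2)) ‖_‖, ← mul_assoc,
    mul_div_mul_right _ _ h6]

lemma pi_pow_le {σ : ℝ} (h2 : σ ≤ 9 / 16) : Real.pi ^ (σ - 1 / 2) ≤ 2 := by
  calc Real.pi ^ (σ - 1 / 2) ≤ Real.pi ^ (1 / 2 : ℝ) :=
        Real.rpow_le_rpow_of_exponent_le (by linarith [Real.pi_gt_three]) (by linarith)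
    _ ≤ 4 ^ (1 / 2 : ℝ) := Real.rpow_le_rpow Real.pi_pos.le Real.pi_le_four (by norm_num)
    _ = 2 := by
      rw [← Real.sqrt_eq_rpow, show (4 : ℝ) = 2 ^ 2 by norm_num, Real.sqrt_sq (by norm_num)]

lemma xk_bound_one (κ : Bool) : ∃ C : ℝ, 0 < C ∧ ∀ s : ℂ, -(1 / 4 : ℝ) ≤ s.re → s.re ≤ 9 / 16 →
    ‖XK κ s‖ ≤ C * (1 + |s.im|) := by
  obtain ⟨C, hC, H⟩ := P4f18dfS.XFac.gamma_ratio_sym
  have hcpt : IsCompact (Set.Icc (-(1 / 4 : ℝ)) (9 / 16) ×ℂ Set.Icc (-2 : ℝ) 2) :=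
    isCompact_Icc.reProdIm isCompact_Icc
  obtain ⟨D, hD⟩ := hcpt.exists_bound_of_continuousOn (f := XK κ) (by
    apply (xk_diff κ).continuousOn.mono
    intro z hz
    rw [Complex.mem_reProdIm] at hz
    have := hz.1.2
    show z.re < 1
    linarith)
  refine ⟨|D| + Real.exp (C * 2) * 8, by positivity, ?_⟩
  intro w h1 h2
  have hone : (1 : ℝ) ≤ 1 + |w.im| := by
    have := abs_nonneg w.im
    linarith
  by_cases hv : |w.im| ≤ 2
  · have hm : w ∈ (Set.Icc (-(1 / 4 : ℝ)) (9 / 16) ×ℂ Set.Icc (-2 : ℝ) 2) := by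
      rw [Complex.mem_reProdIm]
      exact ⟨⟨h1, h2⟩, abs_le.mp hv⟩
    calc ‖XK κ w‖ ≤ D := hD w hm
      _ ≤ |D| := le_abs_self D
      _ ≤ (|D| + Real.exp (C * 2) * 8) * 1 := by
        have : 0 < Real.exp (C * 2) := Real.exp_pos _
        linarith
      _ ≤ (|D| + Real.exp (C * 2) * 8) * (1 + |w.im|) := by
        apply mul_le_mul_of_nonneg_left hone
        positivity
  · push Not at hv
    set σ := w.re with hσ
    set v := w.im with hvdef
    have hw : w = (σ : ℂ) + v * I := by rw [hσ, hvdef, Complex.re_add_im]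
    have hvne : v ≠ 0 := by
      intro h
      rw [h] at hv
      simp at hv
      linarith
    have hy1 : 1 ≤ |v / 2| := by
      rw [abs_div, abs_two]
      linarith
    have hy : 1 / 8 ≤ |v / 2| := by linarith
    have hv2 : |v / 2| ≤ 1 + |v| := by
      rw [abs_div, abs_two]
      linarith [abs_nonneg v]
    have hpi1 := pi_pow_le h2
    have hGne : ∀ x : ℝ, 0 < ‖Complex.Gamma (((x : ℝ) : ℂ) + ((v / 2 : ℝ) : ℂ) * I)‖ := by
      intro x
      rw [norm_pos_iff]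
      apply Complex.Gamma_ne_zero
      intro m h
      have := congrArg Complex.im h
      simp at this
      exact hvne this
    cases κ with
    | false =>
      obtain ⟨-, hb⟩ := H ((1 - σ) / 2) (σ / 2 + 1) (v / 2) (by linarith) (by linarith) (by linarith)
        (by linarith) hy
      rw [hw, xk_false, P4f18dfS.XFac.norm_xf]
      have hGz := hGne (σ / 2)
      set z : ℂ := ((σ / 2 : ℝ) : ℂ) + ((v / 2 : ℝ) : ℂ) * I with hz
      have hz0 : z ≠ 0 := by
        intro h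
        have := congrArg Complex.im h
        simp [hz] at this
        exact hvne this
      have hzz : (((σ / 2 + 1 : ℝ) : ℂ) + ((v / 2 : ℝ) : ℂ) * I) = z + 1 := by
        rw [hz]
        push_cast
        ring
      rw [hzz, Complex.Gamma_add_one z hz0, norm_mul] at hb
      have hdle : |(1 - σ) / 2 - (σ / 2 + 1)| ≤ 2 := by
        rw [abs_le]
        constructor <;> linarith
      have hexp : Real.exp (C * |(1 - σ) / 2 - (σ / 2 + 1)|) ≤ Real.exp (C * 2) :=
        Real.exp_le_exp.mpr (mul_le_mul_of_nonneg_left hdle hC.le)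
      have hpow : |v / 2| ^ ((1 - σ) / 2 - (σ / 2 + 1)) ≤ 1 := by
        calc |v / 2| ^ ((1 - σ) / 2 - (σ / 2 + 1)) ≤ |v / 2| ^ (0 : ℝ) :=
              Real.rpow_le_rpow_of_exponent_le hy1 (by linarith)
          _ = 1 := Real.rpow_zero _
      have hznorm : ‖z‖ ≤ 1 + |v| := by
        calc ‖z‖ ≤ ‖((σ / 2 : ℝ) : ℂ)‖ + ‖((v / 2 : ℝ) : ℂ) * I‖ := norm_add_le _ _
          _ = |σ / 2| + |v / 2| := by
            rw [norm_mul, Complex.norm_I, mul_one, Complex.norm_real, Complex.norm_real, Real.norm_eq_abs,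
              Real.norm_eq_abs]
          _ ≤ 1 + |v| := by
            have : |σ / 2| ≤ 1 := by
              rw [abs_le]
              constructor <;> linarith
            rw [abs_div v, abs_two]
            linarith [abs_nonneg v]
      rw [div_le_iff₀ hGz]
      have hz' : 0 ≤ ‖z‖ := norm_nonneg z
      calc Real.pi ^ (σ - 1 / 2) * ‖Complex.Gamma ((((1 - σ) / 2 : ℝ) : ℂ) + ((v / 2 : ℝ) : ℂ) * I)‖
          ≤ 2 * (Real.exp (C * |(1 - σ) / 2 - (σ / 2 + 1)|) * |v / 2| ^ ((1 - σ) / 2 - (σ / 2 + 1)) *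
            (‖z‖ * ‖Complex.Gamma z‖)) := by
            apply mul_le_mul hpi1 hb (norm_nonneg _) (by norm_num)
        _ ≤ 2 * (Real.exp (C * 2) * 1 * ((1 + |v|) * ‖Complex.Gamma z‖)) := by
            gcongr
        _ = Real.exp (C * 2) * 2 * ((1 + |v|) * ‖Complex.Gamma z‖) := by ring
        _ ≤ (|D| + Real.exp (C * 2) * 8) * ((1 + |v|) * ‖Complex.Gamma z‖) := by
            apply mul_le_mul_of_nonneg_right _ (by positivity)
            have : 0 < Real.exp (C * 2) := Real.exp_pos _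
            linarith [abs_nonneg D]
        _ = (|D| + Real.exp (C * 2) * 8) * (1 + |v|) * ‖Complex.Gamma z‖ := by ring
    | true =>
      obtain ⟨-, hb⟩ := H ((2 - σ) / 2) ((1 + σ) / 2) (v / 2) (by linarith) (by linarith) (by linarith)
        (by linarith) hy
      rw [hw, norm_xk_true]
      have hGz := hGne ((1 + σ) / 2)
      set z : ℂ := (((1 + σ) / 2 : ℝ) : ℂ) + ((v / 2 : ℝ) : ℂ) * I with hz
      have hdle : |(2 - σ) / 2 - (1 + σ) / 2| ≤ 2 := by
        rw [abs_le]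
        constructor <;> linarith
      have hexp : Real.exp (C * |(2 - σ) / 2 - (1 + σ) / 2|) ≤ Real.exp (C * 2) :=
        Real.exp_le_exp.mpr (mul_le_mul_of_nonneg_left hdle hC.le)
      have hpow : |v / 2| ^ ((2 - σ) / 2 - (1 + σ) / 2) ≤ |v / 2| := by
        calc |v / 2| ^ ((2 - σ) / 2 - (1 + σ) / 2) ≤ |v / 2| ^ (1 : ℝ) :=
              Real.rpow_le_rpow_of_exponent_le hy1 (by linarith)
          _ = |v / 2| := Real.rpow_one _
      have hpow' := hpow.trans hv2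
      rw [div_le_iff₀ hGz]
      calc Real.pi ^ (σ - 1 / 2) * ‖Complex.Gamma ((((2 - σ) / 2 : ℝ) : ℂ) + ((v / 2 : ℝ) : ℂ) * I)‖
          ≤ 2 * (Real.exp (C * |(2 - σ) / 2 - (1 + σ) / 2|) * |v / 2| ^ ((2 - σ) / 2 - (1 + σ) / 2) *
            ‖Complex.Gamma z‖) := by
            apply mul_le_mul hpi1 hb (norm_nonneg _) (by norm_num)
        _ ≤ 2 * (Real.exp (C * 2) * (1 + |v|) * ‖Complex.Gamma z‖) := by
            gcongr
        _ = Real.exp (C * 2) * 2 * ((1 + |v|) * ‖Complex.Gamma z‖) := by ring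
        _ ≤ (|D| + Real.exp (C * 2) * 8) * ((1 + |v|) * ‖Complex.Gamma z‖) := by
            apply mul_le_mul_of_nonneg_right _ (by positivity)
            have : 0 < Real.exp (C * 2) := Real.exp_pos _
            linarith [abs_nonneg D]
        _ = (|D| + Real.exp (C * 2) * 8) * (1 + |v|) * ‖Complex.Gamma z‖ := by ring

theorem xk_bound : ∃ C : ℝ, 0 < C ∧ ∀ (κ : Bool) (s : ℂ), -(1 / 4 : ℝ) ≤ s.re → s.re ≤ 9 / 16 →
    ‖XK κ s‖ ≤ C * (1 + |s.im|) := by
  obtain ⟨C1, h1, H1⟩ := xk_bound_one false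
  obtain ⟨C2, h2, H2⟩ := xk_bound_one true
  refine ⟨C1 + C2, by linarith, ?_⟩
  intro κ s ha hb
  have hp : 0 ≤ 1 + |s.im| := by positivity
  cases κ with
  | false => exact (H1 s ha hb).trans (mul_le_mul_of_nonneg_right (by linarith) hp)
  | true => exact (H2 s ha hb).trans (mul_le_mul_of_nonneg_right (by linarith) hp)

lemma inv_mul_neg_one {q : ℕ} (χ : DirichletCharacter ℂ q) : χ (-1) * χ⁻¹ (-1) = 1 := by
  rw [← MulChar.mul_apply, mul_inv_cancel, MulChar.one_apply (isUnit_one.neg)]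

lemma inv_even {q : ℕ} {χ : DirichletCharacter ℂ q} (h : χ.Even) : (χ⁻¹).Even := by
  have h' : χ (-1) = 1 := h
  have h2 := inv_mul_neg_one χ
  rw [h', one_mul] at h2
  exact h2

lemma inv_odd {q : ℕ} {χ : DirichletCharacter ℂ q} (h : χ.Odd) : (χ⁻¹).Odd := by
  have h' : χ (-1) = -1 := h
  have h2 := inv_mul_neg_one χ
  rw [h'] at h2
  show χ⁻¹ (-1) = -1
  linear_combination -h2

lemma norm_rootNumber_le {q : ℕ} [NeZero q] (χ : DirichletCharacter ℂ q) : ‖rootNumber χ‖ ≤ 1 := by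
  unfold rootNumber
  rw [norm_div, norm_div, norm_pow, Complex.norm_I, one_pow, div_one]
  have hq : (0 : ℝ) < q := by exact_mod_cast Nat.pos_of_ne_zero (NeZero.ne q)
  have e : ‖(q : ℂ) ^ (1 / 2 : ℂ)‖ = Real.sqrt q := by
    rw [Complex.norm_natCast_cpow_of_pos (Nat.pos_of_ne_zero (NeZero.ne q)), Real.sqrt_eq_rpow]
    norm_num
  rw [e, div_le_one (Real.sqrt_pos.mpr hq)]
  exact norm_gauss_le χ

theorem lfun_fe {q : ℕ} [NeZero q] (hq : 2 ≤ q) {χ : DirichletCharacter ℂ q} (hχ : χ.IsPrimitive) :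
    ∃ (κ : Bool) (w : ℂ), ‖w‖ ≤ 1 ∧ ∀ s : ℂ, s.re < 1 →
      LFunction χ s = w * (q : ℂ) ^ (1 / 2 - s) * XK κ s * LFunction χ⁻¹ (1 - s) := by
  have hq1 : q ≠ 1 := by omega
  have key : ∀ s : ℂ, completedLFunction χ s = (q : ℂ) ^ (1 / 2 - s) * rootNumber χ * completedLFunction χ⁻¹ (1 - s) := by
    intro s
    have := hχ.completedLFunction_one_sub (1 - s)
    rw [sub_sub_cancel] at this
    rw [this]
    congr 3
    ring
  have hne : ∀ s : ℂ, s.re < 1 → (1 - s).re > 0 := by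
    intro s hs
    simp
    linarith
  rcases χ.even_or_odd with he | ho
  · refine ⟨false, rootNumber χ, norm_rootNumber_le χ, ?_⟩
    intro s hs
    rw [LFunction_eq_completed_div_gammaFactor χ s (Or.inr hq1),
      LFunction_eq_completed_div_gammaFactor χ⁻¹ (1 - s) (Or.inr hq1), he.gammaFactor_def, (inv_even he).gammaFactor_def,
      key s]
    have h1 : Complex.Gammaℝ (1 - s) ≠ 0 := Complex.Gammaℝ_ne_zero_of_re_pos (hne s hs)
    simp only [XK, Bool.false_eq_true, if_false]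
    field_simp
  · refine ⟨true, rootNumber χ, norm_rootNumber_le χ, ?_⟩
    intro s hs
    rw [LFunction_eq_completed_div_gammaFactor χ s (Or.inr hq1),
      LFunction_eq_completed_div_gammaFactor χ⁻¹ (1 - s) (Or.inr hq1), ho.gammaFactor_def, (inv_odd ho).gammaFactor_def,
      key s]
    have h0 : (1 - s + 1) = 2 - s := by ring
    rw [h0]
    have h1 : Complex.Gammaℝ (2 - s) ≠ 0 := Complex.Gammaℝ_ne_zero_of_re_pos (by simp; linarith)
    simp only [XK, if_true]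
    field_simp

lemma prim_ne_one {q : ℕ} (hq : 2 ≤ q) {χ : DirichletCharacter ℂ q} (hχ : χ.IsPrimitive) : χ ≠ 1 := by
  intro h
  have h2 : χ.conductor = q := hχ
  have : NeZero q := ⟨by omega⟩
  rw [h, DirichletCharacter.conductor_one] at h2
  omega

theorem lfun_left {q : ℕ} [NeZero q] (hq : 2 ≤ q) {χ : DirichletCharacter ℂ q} (hχ : χ.IsPrimitive) :
    ∃ C : ℝ, 0 < C ∧ ∀ s : ℂ, -(1 / 4 : ℝ) ≤ s.re → s.re ≤ 3 → ‖LFunction χ s‖ ≤ C * (1 + |s.im|) ^ 2 := by
  have hne := prim_ne_one hq hχ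
  have hne' : χ⁻¹ ≠ 1 := by
    intro h
    exact hne (inv_eq_one.mp h)
  obtain ⟨κ, w, hw, hfe⟩ := lfun_fe hq hχ
  obtain ⟨B, hB, HB⟩ := xk_bound
  have hZ := KeZhao.cZ_nonneg
  have hq0 : (0 : ℝ) < q := by exact_mod_cast Nat.pos_of_ne_zero (NeZero.ne q)
  have hq1 : (1 : ℝ) ≤ q := by exact_mod_cast (by omega : 1 ≤ q)
  refine ⟨q * 4 * (KeZhao.cZ + 1) + q * B * (q * 4 * (KeZhao.cZ + 1)), by positivity, ?_⟩
  intro s h1 h2
  have hnorm : ∀ z : ℂ, |z.re| ≤ 3 → ‖z‖ ≤ 4 * (1 + |z.im|) := by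
    intro z hz
    refine (Complex.norm_le_abs_re_add_abs_im z).trans ?_
    linarith [abs_nonneg z.im]
  have hT : 1 ≤ 1 + |s.im| := by linarith [abs_nonneg s.im]
  have hT2 : 1 + |s.im| ≤ (1 + |s.im|) ^ 2 := by nlinarith
  by_cases hs : 1 / 2 ≤ s.re
  · have := KeZhao.norm_LFunction_le hne hs
    have h3 := hnorm s (by rw [abs_le]; constructor <;> linarith)
    calc ‖LFunction χ s‖ ≤ q * ‖s‖ * KeZhao.cZ := this
      _ ≤ q * (4 * (1 + |s.im|)) * (KeZhao.cZ + 1) := by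
        gcongr
        linarith
      _ = q * 4 * (KeZhao.cZ + 1) * (1 + |s.im|) := by ring
      _ ≤ q * 4 * (KeZhao.cZ + 1) * (1 + |s.im|) ^ 2 := by gcongr
      _ ≤ _ := by
        apply mul_le_mul_of_nonneg_right _ (by positivity)
        have : 0 ≤ q * B * (q * 4 * (KeZhao.cZ + 1)) := by positivity
        linarith
  · push Not at hs
    rw [hfe s (by linarith)]
    have h4 := KeZhao.norm_LFunction_le hne' (s := 1 - s) (by simp; linarith)
    have h5 : ‖(1 - s)‖ ≤ 4 * (1 + |s.im|) := by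
      have := hnorm (1 - s) (by
        rw [Complex.sub_re, Complex.one_re, abs_le]; constructor <;> linarith)
      simpa using this
    have h6 := HB κ s h1 (by linarith)
    have h7 : ‖(q : ℂ) ^ (1 / 2 - s)‖ ≤ q := by
      rw [Complex.norm_natCast_cpow_of_pos (Nat.pos_of_ne_zero (NeZero.ne q))]
      calc (q : ℝ) ^ (1 / 2 - s).re ≤ (q : ℝ) ^ (1 : ℝ) := by
            apply Real.rpow_le_rpow_of_exponent_le hq1
            simp
            linarith
        _ = q := Real.rpow_one _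
    rw [norm_mul, norm_mul, norm_mul]
    calc ‖w‖ * ‖(q : ℂ) ^ (1 / 2 - s)‖ * ‖XK κ s‖ * ‖LFunction χ⁻¹ (1 - s)‖
        ≤ 1 * q * (B * (1 + |s.im|)) * (q * (4 * (1 + |s.im|)) * (KeZhao.cZ + 1)) := by
          gcongr
          refine h4.trans ?_
          gcongr
          linarith
      _ = q * B * (q * 4 * (KeZhao.cZ + 1)) * (1 + |s.im|) ^ 2 := by ring
      _ ≤ _ := by
        apply mul_le_mul_of_nonneg_right _ (by positivity)
        have : 0 ≤ q * 4 * (KeZhao.cZ + 1) := by positivity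
        linarith

end Pool.Agent.P07318m
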