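import Pool.Agent.Lib.P07318m.Defs
import Pool.Agent.Lib.P07318m.XKap
import Pool.Agent.Lib.P07318m.Poles
import Pool.Agent.Lib.P07318s.WMellin

/-!
# P07318m.AfePrim: approximate functional equation for primitive characters

For `q ≥ 2`, `1/2 ≤ Re s ≤ 9/16` there are coefficient sequences `γ_0, γ_true, γ_false` (depending on `q`, `s` only), bounded by
`C q^ε (1+|Im s|)^{3/2} n^{-1/2} min(1, (√q/n)^{3/4})`, such that for every primitive `χ` mod `q`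
`L(s,χ) = ∑ χ(n) γ_0(n) + w ∑ χ⁻¹(n) γ_κ(n)`, `|w| ≤ 1`, `κ` the parity.
PROOF. Let `W(y)` be the function of `P07318s` with `W(y) = π⁻¹ ∫ e^{w²} y^{-w}/w dv` on `Re w = c > 0` (`P07318s.W_eq`),
`0 ≤ W ≤ 2`, `W(y) ≤ C_A y^{-A}` (`W_le_rpow`). `N = √q`. On `Re w = 1` (`Re (s+w) > 1`), term by term:
`(1/2π) ∫ L(s+w,χ) e^{w²} N^w / w dv = (1/2) ∑ χ(n) n^{-s} W(n/N)`. So `γ_0(n) = n^{-s} W(n/N)/2`, `γ_0(0) = 0`;
`|γ_0(n)| ≤ C n^{-1/2} min(1,(N/n)^{3/4})`.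
Shift to `Re w = -1/4 - σ`, `σ = Re s` (`pole1` with `F(w) = L(s+w,χ) e^{w²} N^w`, entire, bounded by Gaussian decay times `lfun_left`; `ρ = 0`;
`Re(s+w)` runs over `[-1/4, 25/16]`): the value at the pole is `L(s,χ)`. So
`L(s,χ) = (1/2)∑ χ(n) n^{-s} W(n/N) - (1/2π) ∫_{Re w = -1/4-σ} L(s+w,χ) e^{w²} N^w/w dv`.
In the last integral insert `lfun_fe`: `L(s+w,χ) = w_χ q^{1/2-s-w} XK κ (s+w) ∑ χ⁻¹(n) n^{-(1-s-w)}` (`Re (1-s-w) = 5/4`, absolutely convergent),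
interchange. So `γ_κ(n) = -(1/2π) ∫_{Re w = -1/4-σ} q^{1/2-s-w} XK κ (s+w) e^{w²} N^w n^{-(1-s-w)} / w dv`.
Bound 1: `|γ_κ(n)| ≤ C q^{3/4} N^{-1/4-σ} n^{-5/4} (1+|t|) = C N^{1/2-σ} (q/N)^{3/4} n^{-5/4} (1+|t|) ≤ C n^{-1/2} (√q/n)^{3/4} (1+|t|)`
(`N = √q`, `N^{1/2-σ} ≤ 1`, `xk_bound`, `|w| ≥ 3/4`, `e^{w²}` absorbs the growth in `v`).
Bound 2 (for `n ≤ √q`): shift the integral defining `γ_κ(n)` to `Re w = -ε'` with `0 < ε' ≤ 1/16` (no pole, `shift_poly_on`; `-1/4 ≤ Re(s+w) ≤ 9/16`):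
`|γ_κ(n)| ≤ C_{ε'} q^{1/2-σ+ε'} N^{-ε'} n^{σ-1-ε'} (1+|t|) ≤ C q^{ε'} n^{-1/2} (1+|t|)` since `q^{1/2-σ} n^{σ-1/2} ≤ 1` for `n ≤ q`.
-/

set_option autoImplicit false

open MeasureTheory Complex

namespace Pool.Agent.P07318m

open DirichletCharacter

namespace AfeAux

open Pool.Agent.P07318s (W W_eq W_nonneg W_le_two W_le_rpow)

lemma pow4 (v : ℝ) : (1 + |v|) ^ 4 * Real.exp (-v ^ 2) ≤ 24 * Real.exp (5 / 4) := by
  have h1 := Real.pow_div_factorial_le_exp (1 + |v|) (by positivity) 4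
  have h2 : (1 + |v|) ^ 4 ≤ 24 * Real.exp (1 + |v|) := by
    have h3 : ((Nat.factorial 4 : ℕ) : ℝ) = 24 := by norm_num [Nat.factorial]
    rw [h3] at h1
    linarith
  calc (1 + |v|) ^ 4 * Real.exp (-v ^ 2) ≤ 24 * Real.exp (1 + |v|) * Real.exp (-v ^ 2) :=
        mul_le_mul_of_nonneg_right h2 (Real.exp_pos _).le
    _ = 24 * Real.exp (1 + |v| - v ^ 2) := by
        rw [mul_assoc, ← Real.exp_add]
        ring_nf
    _ ≤ _ := by
        have h3 : v ^ 2 = |v| ^ 2 := (sq_abs v).symm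
        have h4 : 1 + |v| - v ^ 2 ≤ 5 / 4 := by nlinarith [sq_nonneg (|v| - 1 / 2)]
        exact mul_le_mul_of_nonneg_left (Real.exp_le_exp.mpr h4) (by norm_num)

lemma exp_sq_norm (w : ℂ) : ‖cexp (w ^ 2)‖ = Real.exp (w.re ^ 2 - w.im ^ 2) := by
  rw [Complex.norm_exp]
  congr 1
  rw [sq, Complex.mul_re]
  ring

/-- the constant of the Gaussian decay -/
noncomputable def K0 : ℝ := 24 * Real.exp (9 / 4)

lemma K0_pos : 0 < K0 := by unfold K0; positivity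

lemma gbound (v : ℝ) : (1 + |v|) ^ 4 * Real.exp (1 - v ^ 2) ≤ K0 := by
  have h1 := pow4 v
  have h2 : Real.exp (1 - v ^ 2) = Real.exp 1 * Real.exp (-v ^ 2) := by
    rw [← Real.exp_add]; ring_nf
  have h3 : Real.exp (9 / 4) = Real.exp 1 * Real.exp (5 / 4) := by
    rw [← Real.exp_add]; norm_num
  rw [K0, h2, h3]
  have h4 := Real.exp_pos 1
  nlinarith

/-- Gaussian majorant -/
noncomputable def gm (v : ℝ) : ℝ := (1 + |v|) * Real.exp (1 - v ^ 2)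

lemma gm_nonneg (v : ℝ) : 0 ≤ gm v := by unfold gm; positivity

lemma gm_le (v : ℝ) : gm v ≤ K0 / (1 + |v|) ^ 2 := by
  have h1 : (0 : ℝ) < (1 + |v|) ^ 2 := by positivity
  rw [le_div_iff₀ h1]
  refine le_trans ?_ (gbound v)
  unfold gm
  have h2 : (1 : ℝ) ≤ 1 + |v| := by linarith [abs_nonneg v]
  have h3 : 0 < Real.exp (1 - v ^ 2) := Real.exp_pos _
  have h4 : (1 + |v|) ^ 3 ≤ (1 + |v|) ^ 4 := pow_le_pow_right₀ h2 (by norm_num)
  calc (1 + |v|) * Real.exp (1 - v ^ 2) * (1 + |v|) ^ 2 = (1 + |v|) ^ 3 * Real.exp (1 - v ^ 2) := by ring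
    _ ≤ _ := mul_le_mul_of_nonneg_right h4 h3.le

lemma gm_integrable : Integrable gm := by
  refine (integrable_inv_one_add_sq.const_mul K0).mono' ?_ ?_
  · apply Continuous.aestronglyMeasurable
    unfold gm
    fun_prop
  · refine Filter.Eventually.of_forall fun v => ?_
    rw [Real.norm_eq_abs, abs_of_nonneg (gm_nonneg v)]
    refine (gm_le v).trans ?_
    rw [div_eq_mul_inv]
    apply mul_le_mul_of_nonneg_left _ K0_pos.le
    apply inv_anti₀ (by positivity)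
    have : v ^ 2 = |v| ^ 2 := (sq_abs v).symm
    nlinarith [abs_nonneg v]

/-- its integral -/
noncomputable def JJ : ℝ := ∫ v, gm v

lemma JJ_nonneg : 0 ≤ JJ := integral_nonneg gm_nonneg

/-- interchange of the Dirichlet series with an integral -/
lemma swap {q : ℕ} [NeZero q] (χ : DirichletCharacter ℂ q) (z : ℝ → ℂ) (c : ℝ → ℂ) {x : ℝ}
    (hx : 1 < x) (hz : ∀ v, (z v).re = x) (hzc : Continuous z) (hc : Integrable c) :
    ∫ v, LFunction χ (z v) * c v = ∑' n : ℕ, χ (n : ZMod q) * ∫ v, (n : ℂ) ^ (-(z v)) * c v := by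
  have hz0 : ∀ v, z v ≠ 0 := fun v h => by
    have := hz v
    rw [h, Complex.zero_re] at this
    linarith
  have h1 : ∀ v, LFunction χ (z v) * c v =
      ∑' n : ℕ, χ (n : ZMod q) * ((n : ℂ) ^ (-(z v)) * c v) := by
    intro v
    rw [LFunction_eq_LSeries χ (by rw [hz v]; exact hx), LSeries, ← tsum_mul_right]
    refine tsum_congr fun n => ?_
    rw [LSeries.term_def]
    by_cases hn : n = 0
    · rw [if_pos hn, hn]
      simp only [Nat.cast_zero]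
      rw [Complex.zero_cpow (neg_ne_zero.mpr (hz0 v))]
      ring
    · rw [if_neg hn, Complex.cpow_neg]
      ring
  have hnorm : ∀ (n : ℕ) (v : ℝ), ‖(n : ℂ) ^ (-(z v))‖ ≤ (n : ℝ) ^ (-x) := by
    intro n v
    rcases Nat.eq_zero_or_pos n with hn | hn
    · rw [hn, Nat.cast_zero, Complex.zero_cpow (neg_ne_zero.mpr (hz0 v)), norm_zero]
      positivity
    · rw [norm_natCast_cpow_of_pos hn, Complex.neg_re, hz v]
  have hmeas : ∀ n : ℕ, AEStronglyMeasurable (fun v => (n : ℂ) ^ (-(z v))) volume := by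
    intro n
    rcases Nat.eq_zero_or_pos n with hn | hn
    · have : (fun v => ((n : ℕ) : ℂ) ^ (-(z v))) = fun _ => 0 := by
        funext v
        rw [hn, Nat.cast_zero, Complex.zero_cpow (neg_ne_zero.mpr (hz0 v))]
      rw [this]
      exact aestronglyMeasurable_const
    · apply Continuous.aestronglyMeasurable
      have hn0 : (n : ℂ) ≠ 0 := by exact_mod_cast hn.ne'
      exact Continuous.const_cpow hzc.neg (Or.inl hn0)
  have hint : ∀ n : ℕ, Integrable (fun v => (n : ℂ) ^ (-(z v)) * c v) := fun n =>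
    hc.bdd_mul (hmeas n) (Filter.Eventually.of_forall (hnorm n))
  have hsum := hasSum_integral_of_summable_integral_norm
    (F := fun (n : ℕ) v => χ (n : ZMod q) * ((n : ℂ) ^ (-(z v)) * c v))
    (fun n => (hint n).const_mul _) (by
      refine Summable.of_nonneg_of_le (fun n => integral_nonneg fun v => norm_nonneg _)
        (fun n => ?_) ((Real.summable_nat_rpow.mpr (show -x < -1 by linarith)).mul_right (∫ v, ‖c v‖))
      rw [← integral_const_mul]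
      refine integral_mono ((hint n).const_mul _).norm (hc.norm.const_mul _) (fun v => ?_)
      simp only
      rw [norm_mul, norm_mul]
      calc ‖χ (n : ZMod q)‖ * (‖(n : ℂ) ^ (-(z v))‖ * ‖c v‖) ≤ 1 * ((n : ℝ) ^ (-x) * ‖c v‖) :=
            mul_le_mul (DirichletCharacter.norm_le_one χ _)
              (mul_le_mul_of_nonneg_right (hnorm n v) (norm_nonneg _)) (by positivity) (by norm_num)
        _ = _ := by ring)
  simp_rw [h1]
  rw [← hsum.tsum_eq]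
  exact tsum_congr fun n => (integral_const_mul _ _)

lemma line_re (c v : ℝ) : ((c : ℂ) + v * I).re = c := by simp
lemma line_im (c v : ℝ) : ((c : ℂ) + v * I).im = v := by simp

lemma line_cont (c : ℝ) : Continuous (fun v : ℝ => (c : ℂ) + v * I) := by fun_prop

lemma line_norm_ge (c v : ℝ) : |c| ≤ ‖(c : ℂ) + v * I‖ := by
  have := Complex.abs_re_le_norm ((c : ℂ) + v * I)
  rwa [line_re] at this

lemma sq_pos {q : ℕ} (hq : 2 ≤ q) : 1 ≤ Real.sqrt q := by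
  rw [Real.one_le_sqrt]
  have : (2 : ℝ) ≤ q := by exact_mod_cast hq
  linarith

/-- the first coefficient sequence -/
noncomputable def g0 (q : ℕ) (s : ℂ) (n : ℕ) : ℂ :=
  (1 / (2 * Real.pi)) * ∫ v : ℝ, (n : ℂ) ^ (-(s + ((1 : ℝ) + v * I))) *
    (cexp (((1 : ℝ) + v * I) ^ 2) * ((Real.sqrt q : ℝ) : ℂ) ^ (((1 : ℝ) : ℂ) + v * I) / (((1 : ℝ) : ℂ) + v * I))

/-- the kernel of the second coefficient sequence, without `n` -/
noncomputable def ck (κ : Bool) (q : ℕ) (s w : ℂ) : ℂ :=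
  (q : ℂ) ^ (1 / 2 - s - w) * XK κ (s + w) * cexp (w ^ 2) * ((Real.sqrt q : ℝ) : ℂ) ^ w / w

/-- the second coefficient sequence -/
noncomputable def g1 (κ : Bool) (q : ℕ) (s : ℂ) (n : ℕ) : ℂ :=
  -(1 / (2 * Real.pi)) * ∫ v : ℝ, (n : ℂ) ^ (-(1 - s - ((((-(1 / 4) - s.re : ℝ)) : ℂ) + v * I))) *
    ck κ q s ((((-(1 / 4) - s.re : ℝ)) : ℂ) + v * I)

lemma g0_eq {q : ℕ} (hq : 2 ≤ q) (s : ℂ) {n : ℕ} (hn : 1 ≤ n) :
    g0 q s n = (n : ℂ) ^ (-s) * (W (n / Real.sqrt q) : ℂ) / 2 := by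
  have hN := sq_pos hq
  have hN0 : 0 < Real.sqrt q := by linarith
  have hn0 : (0 : ℝ) < n := by exact_mod_cast hn
  have hnc : (n : ℂ) ≠ 0 := by exact_mod_cast hn0.ne'
  have hy : 0 < (n : ℝ) / Real.sqrt q := by positivity
  rw [W_eq (c := 1) one_pos hy, g0]
  have h1 : ∀ v : ℝ, (n : ℂ) ^ (-(s + ((1 : ℝ) + v * I))) *
      (cexp (((1 : ℝ) + v * I) ^ 2) * ((Real.sqrt q : ℝ) : ℂ) ^ (((1 : ℝ) : ℂ) + v * I) /
        (((1 : ℝ) : ℂ) + v * I)) = (n : ℂ) ^ (-s) * (cexp ((((1 : ℝ) : ℂ) + v * I) ^ 2) *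
        ((n / Real.sqrt q : ℝ) : ℂ) ^ (-(((1 : ℝ) : ℂ) + v * I)) / (((1 : ℝ) : ℂ) + v * I)) := by
    intro v
    rw [P07318s.WMellinAux.cpow_eq hy, Real.log_div hn0.ne' hN0.ne',
      Complex.cpow_def_of_ne_zero hnc, Complex.cpow_def_of_ne_zero hnc,
      Complex.cpow_def_of_ne_zero (x := ((Real.sqrt q : ℝ) : ℂ)) (by exact_mod_cast hN0.ne')]
    have e1 : Complex.log (n : ℂ) = ((Real.log n : ℝ) : ℂ) := by
      rw [Complex.ofReal_log hn0.le]
      simp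
    have e2 : Complex.log ((Real.sqrt q : ℝ) : ℂ) = ((Real.log (Real.sqrt q) : ℝ) : ℂ) := by
      rw [Complex.ofReal_log hN0.le]
    rw [e1, e2]
    rw [mul_div_assoc', mul_div_assoc']
    congr 1
    rw [← Complex.exp_add, ← Complex.exp_add, ← Complex.exp_add, ← Complex.exp_add]
    congr 1
    push_cast
    ring
  simp_rw [h1]
  rw [integral_const_mul]
  have hpi : (Real.pi : ℂ) ≠ 0 := by exact_mod_cast Real.pi_ne_zero
  generalize (∫ v : ℝ, cexp ((((1 : ℝ) : ℂ) + v * I) ^ 2) *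
        ((n / Real.sqrt q : ℝ) : ℂ) ^ (-(((1 : ℝ) : ℂ) + v * I)) / (((1 : ℝ) : ℂ) + v * I)) = J
  field_simp


lemma g0_bound : ∃ C : ℝ, 1 ≤ C ∧ ∀ (q : ℕ), 2 ≤ q → ∀ (s : ℂ), 1 / 2 ≤ s.re → ∀ n : ℕ, 1 ≤ n →
    ‖g0 q s n‖ ≤ C * ((n : ℝ) ^ (-(1 / 2) : ℝ) * min 1 ((Real.sqrt q / n) ^ (3 / 4 : ℝ))) := by
  obtain ⟨C, hC, hW⟩ := W_le_rpow (3 / 4) (by norm_num)
  refine ⟨max 1 C, le_max_left _ _, ?_⟩
  intro q hq s hs n hn
  have hN := sq_pos hq
  have hN0 : 0 < Real.sqrt q := by linarith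
  have hn0 : (0 : ℝ) < n := by exact_mod_cast hn
  have hn1 : (1 : ℝ) ≤ n := by exact_mod_cast hn
  have hy : 0 < (n : ℝ) / Real.sqrt q := by positivity
  rw [g0_eq hq s hn, norm_div, norm_mul, norm_natCast_cpow_of_pos hn, Complex.neg_re,
    Complex.norm_real, Real.norm_eq_abs, abs_of_nonneg (W_nonneg _)]
  have h1 : (n : ℝ) ^ (-s.re) ≤ (n : ℝ) ^ (-(1 / 2) : ℝ) :=
    Real.rpow_le_rpow_of_exponent_le hn1 (by linarith)
  have h2 : W (n / Real.sqrt q) / 2 ≤ max 1 C * min 1 ((Real.sqrt q / n) ^ (3 / 4 : ℝ)) := by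
    have h3 : ((n : ℝ) / Real.sqrt q) ^ (-(3 / 4) : ℝ) = (Real.sqrt q / n) ^ (3 / 4 : ℝ) := by
      rw [Real.rpow_neg hy.le, ← Real.inv_rpow hy.le, inv_div]
    have h4 := hW _ hy
    rw [h3] at h4
    have h5 := W_le_two (n / Real.sqrt q)
    have h6 : 0 ≤ (Real.sqrt q / n) ^ (3 / 4 : ℝ) := by positivity
    have h7 := le_max_left 1 C
    have h8 := le_max_right 1 C
    rcases min_choice 1 ((Real.sqrt q / n) ^ (3 / 4 : ℝ)) with h | h
    · rw [h]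
      linarith
    · rw [h]
      nlinarith [mul_le_mul_of_nonneg_right h8 h6, mul_nonneg (hC.le) h6]
  have h2' : ‖(2 : ℂ)‖ = 2 := by norm_num
  rw [h2', mul_div_assoc]
  have h9 : 0 ≤ W (n / Real.sqrt q) / 2 := div_nonneg (W_nonneg _) (by norm_num)
  calc (n : ℝ) ^ (-s.re) * (W (n / Real.sqrt q) / 2) ≤ (n : ℝ) ^ (-(1 / 2) : ℝ) *
        (max 1 C * min 1 ((Real.sqrt q / n) ^ (3 / 4 : ℝ))) :=
        mul_le_mul h1 h2 h9 (by positivity)
    _ = _ := by ring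

lemma ck_norm {CX : ℝ} (hX : ∀ (κ : Bool) (s : ℂ), -(1 / 4 : ℝ) ≤ s.re → s.re ≤ 9 / 16 →
    ‖XK κ s‖ ≤ CX * (1 + |s.im|)) (hCX : 0 < CX) {q : ℕ} (hq : 2 ≤ q) (κ : Bool) (s w : ℂ)
    (h1 : -(1 / 4 : ℝ) ≤ s.re + w.re) (h2 : s.re + w.re ≤ 9 / 16) (hu : w.re < 0)
    (hu1 : -1 ≤ w.re) :
    ‖ck κ q s w‖ ≤ (q : ℝ) ^ (1 / 2 - s.re - w.re) * (Real.sqrt q) ^ w.re / (-w.re) *
      (CX * (1 + |s.im|)) * gm w.im := by
  have hN := sq_pos hq
  have hN0 : 0 < Real.sqrt q := by linarith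
  have hq0 : 0 < q := by omega
  have e1 : ‖(q : ℂ) ^ (1 / 2 - s - w)‖ = (q : ℝ) ^ (1 / 2 - s.re - w.re) := by
    rw [norm_natCast_cpow_of_pos hq0]
    congr 1
    simp
  have e2 : ‖((Real.sqrt q : ℝ) : ℂ) ^ w‖ = (Real.sqrt q) ^ w.re :=
    norm_cpow_eq_rpow_re_of_pos hN0 w
  have e3 : ‖XK κ (s + w)‖ ≤ CX * (1 + |s.im|) * (1 + |w.im|) := by
    refine (hX κ (s + w) (by rw [Complex.add_re]; exact h1) (by rw [Complex.add_re]; exact h2)).trans ?_
    rw [Complex.add_im, mul_assoc]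
    apply mul_le_mul_of_nonneg_left _ hCX.le
    have := abs_add_le s.im w.im
    have h3 := mul_nonneg (abs_nonneg s.im) (abs_nonneg w.im)
    nlinarith
  have e4 : ‖cexp (w ^ 2)‖ ≤ Real.exp (1 - w.im ^ 2) := by
    rw [exp_sq_norm]
    apply Real.exp_le_exp.mpr
    nlinarith
  have e5 : -w.re ≤ ‖w‖ := by
    have := Complex.abs_re_le_norm w
    rw [abs_of_neg hu] at this
    exact this
  have hu' : 0 < -w.re := by linarith
  have p1 : 0 ≤ (q : ℝ) ^ (1 / 2 - s.re - w.re) := by positivity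
  have p2 : 0 ≤ (Real.sqrt q) ^ w.re := by positivity
  rw [ck, norm_div, norm_mul, norm_mul, norm_mul, e1, e2]
  calc (q : ℝ) ^ (1 / 2 - s.re - w.re) * ‖XK κ (s + w)‖ * ‖cexp (w ^ 2)‖ * Real.sqrt q ^ w.re / ‖w‖
      ≤ (q : ℝ) ^ (1 / 2 - s.re - w.re) * ‖XK κ (s + w)‖ * ‖cexp (w ^ 2)‖ * Real.sqrt q ^ w.re /
        (-w.re) := div_le_div_of_nonneg_left (by positivity) hu' e5
    _ ≤ (q : ℝ) ^ (1 / 2 - s.re - w.re) * (CX * (1 + |s.im|) * (1 + |w.im|)) *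
        Real.exp (1 - w.im ^ 2) * Real.sqrt q ^ w.re / (-w.re) := by
        apply div_le_div_of_nonneg_right _ hu'.le
        apply mul_le_mul_of_nonneg_right _ p2
        apply mul_le_mul _ e4 (norm_nonneg _) (by positivity)
        exact mul_le_mul_of_nonneg_left e3 p1
    _ = _ := by
        unfold gm
        field_simp

lemma ck_diff (κ : Bool) {q : ℕ} (hq : 2 ≤ q) {s : ℂ} (hs : s.re ≤ 9 / 16) :
    DifferentiableOn ℂ (ck κ q s) {w : ℂ | w.re < 0} := by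
  have hN := sq_pos hq
  have hN0 : (0 : ℝ) < Real.sqrt q := by linarith
  have hqc : (q : ℂ) ≠ 0 := by
    have : q ≠ 0 := by omega
    exact_mod_cast this
  have hNc : ((Real.sqrt q : ℝ) : ℂ) ≠ 0 := by exact_mod_cast hN0.ne'
  have hid : DifferentiableOn ℂ (fun w : ℂ => w) {w : ℂ | w.re < 0} := differentiableOn_id
  unfold ck
  apply DifferentiableOn.div
  · apply DifferentiableOn.mul
    · apply DifferentiableOn.mul
      · apply DifferentiableOn.mul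
        · exact DifferentiableOn.const_cpow ((differentiableOn_const _).sub hid) (Or.inl hqc)
        · refine (xk_diff κ).comp ((differentiableOn_const _).add hid) ?_
          intro w hw
          simp only [Set.mem_ofPred_eq, Complex.add_re] at hw ⊢
          linarith
      · exact (hid.pow 2).cexp
    · exact DifferentiableOn.const_cpow hid (Or.inl hNc)
  · exact hid
  · intro w hw h
    simp only [Set.mem_ofPred_eq] at hw
    rw [h] at hw
    simp at hw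

/-- continuity of a function, holomorphic to the left of `0`, on a vertical line -/
lemma cont_line {f : ℂ → ℂ} (hf : DifferentiableOn ℂ f {w : ℂ | w.re < 0}) {u : ℝ} (hu : u < 0) :
    Continuous (fun v : ℝ => f ((u : ℂ) + v * I)) := by
  have hop : IsOpen {w : ℂ | w.re < 0} := isOpen_lt Complex.continuous_re continuous_const
  rw [continuous_iff_continuousAt]
  intro v
  have h1 : ((u : ℂ) + v * I) ∈ {w : ℂ | w.re < 0} := by
    simp only [Set.mem_ofPred_eq, line_re]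
    exact hu
  have h2 : ContinuousAt f ((u : ℂ) + v * I) := (hf.differentiableAt (hop.mem_nhds h1)).continuousAt
  exact ContinuousAt.comp (f := fun v : ℝ => (u : ℂ) + v * I) h2 (line_cont u).continuousAt

/-- the kernel with `n` -/
noncomputable def gk (κ : Bool) (q : ℕ) (s : ℂ) (n : ℕ) (w : ℂ) : ℂ :=
  (n : ℂ) ^ (-(1 - s - w)) * ck κ q s w

lemma gk_diff (κ : Bool) {q : ℕ} (hq : 2 ≤ q) {s : ℂ} (hs : s.re ≤ 9 / 16) {n : ℕ} (hn : 1 ≤ n) :
    DifferentiableOn ℂ (gk κ q s n) {w : ℂ | w.re < 0} := by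
  unfold gk
  have hnc : (n : ℂ) ≠ 0 := by
    have : n ≠ 0 := by omega
    exact_mod_cast this
  refine DifferentiableOn.mul ?_ (ck_diff κ hq hs)
  exact DifferentiableOn.const_cpow ((differentiableOn_const _).sub differentiableOn_id).neg (Or.inl hnc)

lemma gk_norm {CX : ℝ} (hX : ∀ (κ : Bool) (s : ℂ), -(1 / 4 : ℝ) ≤ s.re → s.re ≤ 9 / 16 →
    ‖XK κ s‖ ≤ CX * (1 + |s.im|)) (hCX : 0 < CX) {q : ℕ} (hq : 2 ≤ q) (κ : Bool) (s w : ℂ)
    (h1 : -(1 / 4 : ℝ) ≤ s.re + w.re) (h2 : s.re + w.re ≤ 9 / 16) (hu : w.re < 0)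
    (hu1 : -1 ≤ w.re) {n : ℕ} (hn : 1 ≤ n) :
    ‖gk κ q s n w‖ ≤ (n : ℝ) ^ (-(1 - s.re - w.re)) * ((q : ℝ) ^ (1 / 2 - s.re - w.re) *
      (Real.sqrt q) ^ w.re / (-w.re)) * (CX * (1 + |s.im|)) * gm w.im := by
  have h3 := ck_norm hX hCX hq κ s w h1 h2 hu hu1
  rw [gk, norm_mul, norm_natCast_cpow_of_pos hn]
  have e1 : (-(1 - s - w)).re = -(1 - s.re - w.re) := by simp
  rw [e1]
  have p1 : 0 ≤ (n : ℝ) ^ (-(1 - s.re - w.re)) := by positivity
  calc _ ≤ (n : ℝ) ^ (-(1 - s.re - w.re)) * ((q : ℝ) ^ (1 / 2 - s.re - w.re) *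
      (Real.sqrt q) ^ w.re / (-w.re) * (CX * (1 + |s.im|)) * gm w.im) :=
        mul_le_mul_of_nonneg_left h3 p1
    _ = _ := by ring

lemma gk_line {CX : ℝ} (hX : ∀ (κ : Bool) (s : ℂ), -(1 / 4 : ℝ) ≤ s.re → s.re ≤ 9 / 16 →
    ‖XK κ s‖ ≤ CX * (1 + |s.im|)) (hCX : 0 < CX) {q : ℕ} (hq : 2 ≤ q) (κ : Bool) (s : ℂ) (u : ℝ)
    (h1 : -(1 / 4 : ℝ) ≤ s.re + u) (h2 : s.re + u ≤ 9 / 16) (hu : u < 0)
    (hu1 : -1 ≤ u) {n : ℕ} (hn : 1 ≤ n) :
    ‖∫ v : ℝ, gk κ q s n ((u : ℂ) + v * I)‖ ≤ (n : ℝ) ^ (-(1 - s.re - u)) *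
      ((q : ℝ) ^ (1 / 2 - s.re - u) * (Real.sqrt q) ^ u / (-u)) * (CX * (1 + |s.im|)) * JJ := by
  have h3 : ∀ v : ℝ, ‖gk κ q s n ((u : ℂ) + v * I)‖ ≤ (n : ℝ) ^ (-(1 - s.re - u)) *
      ((q : ℝ) ^ (1 / 2 - s.re - u) * (Real.sqrt q) ^ u / (-u)) * (CX * (1 + |s.im|)) * gm v := by
    intro v
    have := gk_norm hX hCX hq κ s ((u : ℂ) + v * I) (by rw [line_re]; exact h1)
      (by rw [line_re]; exact h2) (by rw [line_re]; exact hu) (by rw [line_re]; exact hu1) hn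
    rwa [line_re, line_im] at this
  refine (norm_integral_le_of_norm_le (gm_integrable.const_mul _)
    (Filter.Eventually.of_forall h3)).trans (le_of_eq ?_)
  rw [integral_const_mul]
  rfl

lemma g1_gk (κ : Bool) (q : ℕ) (s : ℂ) (n : ℕ) : g1 κ q s n =
    -(1 / (2 * Real.pi)) * ∫ v : ℝ, gk κ q s n ((((-(1 / 4) - s.re : ℝ)) : ℂ) + v * I) := rfl

lemma g1_shift {CX : ℝ} (hX : ∀ (κ : Bool) (s : ℂ), -(1 / 4 : ℝ) ≤ s.re → s.re ≤ 9 / 16 →
    ‖XK κ s‖ ≤ CX * (1 + |s.im|)) (hCX : 0 < CX) {q : ℕ} (hq : 2 ≤ q) (κ : Bool) (s : ℂ)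
    (hs1 : 1 / 2 ≤ s.re) (hs2 : s.re ≤ 9 / 16) {ε : ℝ} (hε : 0 < ε) (hε1 : ε ≤ 1 / 16)
    {n : ℕ} (hn : 1 ≤ n) : g1 κ q s n =
    -(1 / (2 * Real.pi)) * ∫ v : ℝ, gk κ q s n (((-ε : ℝ) : ℂ) + v * I) := by
  rw [g1_gk]
  congr 1
  have hN := sq_pos hq
  have hq1 : (1 : ℝ) ≤ q := by
    have : (2 : ℝ) ≤ q := by exact_mod_cast hq
    linarith
  have hn1 : (1 : ℝ) ≤ n := by exact_mod_cast hn
  refine P4f18dfS.shift_poly_on (F := gk κ q s n) (U := {w : ℂ | w.re < 0})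
    (K := ((q : ℝ) ^ (3 / 4 : ℝ) / ε) * (CX * (1 + |s.im|)) * K0) (by linarith)
    (isOpen_lt Complex.continuous_re continuous_const) ?_ (gk_diff κ hq hs2 hn) ?_
  · intro w _ h2
    simp only [Set.mem_ofPred_eq]
    linarith
  · intro w h1 h2
    refine (gk_norm hX hCX hq κ s w (by linarith) (by linarith) (by linarith) (by linarith) hn).trans ?_
    have p1 : 0 ≤ CX * (1 + |s.im|) := by positivity
    have p2 : (n : ℝ) ^ (-(1 - s.re - w.re)) ≤ 1 :=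
      Real.rpow_le_one_of_one_le_of_nonpos hn1 (by linarith)
    have p3 : (q : ℝ) ^ (1 / 2 - s.re - w.re) ≤ (q : ℝ) ^ (3 / 4 : ℝ) :=
      Real.rpow_le_rpow_of_exponent_le hq1 (by linarith)
    have p4 : (Real.sqrt q) ^ w.re ≤ 1 :=
      Real.rpow_le_one_of_one_le_of_nonpos hN (by linarith)
    have p5 : (q : ℝ) ^ (1 / 2 - s.re - w.re) * (Real.sqrt q) ^ w.re / (-w.re) ≤
        (q : ℝ) ^ (3 / 4 : ℝ) / ε := by
      have p6 : (q : ℝ) ^ (1 / 2 - s.re - w.re) * (Real.sqrt q) ^ w.re ≤ (q : ℝ) ^ (3 / 4 : ℝ) * 1 :=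
        mul_le_mul p3 p4 (by positivity) (by positivity)
      rw [mul_one] at p6
      exact div_le_div₀ (by positivity) p6 hε (by linarith)
    have p7 : 0 ≤ (q : ℝ) ^ (1 / 2 - s.re - w.re) * (Real.sqrt q) ^ w.re / (-w.re) :=
      div_nonneg (by positivity) (by linarith)
    have p8 : (n : ℝ) ^ (-(1 - s.re - w.re)) * ((q : ℝ) ^ (1 / 2 - s.re - w.re) *
        (Real.sqrt q) ^ w.re / (-w.re)) ≤ 1 * ((q : ℝ) ^ (3 / 4 : ℝ) / ε) :=
      mul_le_mul p2 p5 p7 (by norm_num)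
    rw [one_mul] at p8
    refine (mul_le_mul (mul_le_mul_of_nonneg_right p8 p1) (gm_le w.im) (gm_nonneg _)
      (by positivity)).trans (le_of_eq ?_)
    ring

lemma norm_two_pi : ‖-(1 / (2 * (Real.pi : ℂ)))‖ = 1 / (2 * Real.pi) := by
  rw [norm_neg, norm_div, norm_mul, Complex.norm_real, Real.norm_eq_abs,
    abs_of_pos Real.pi_pos]
  norm_num

lemma two_pi_le : 1 / (2 * Real.pi) ≤ 1 := by
  rw [div_le_one (by positivity)]
  have := Real.pi_gt_three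
  linarith

lemma g1_bound (ε : ℝ) (hε : 0 < ε) : ∃ C : ℝ, 1 ≤ C ∧ ∀ (q : ℕ), 2 ≤ q → ∀ (s : ℂ), 1 / 2 ≤ s.re →
    s.re ≤ 9 / 16 → ∀ (κ : Bool) (n : ℕ), 1 ≤ n →
    ‖g1 κ q s n‖ ≤ C * (q : ℝ) ^ ε * (1 + |s.im|) *
      ((n : ℝ) ^ (-(1 / 2) : ℝ) * min 1 ((Real.sqrt q / n) ^ (3 / 4 : ℝ))) := by
  obtain ⟨CX, hCX, hX⟩ := xk_bound
  set δ : ℝ := min ε (1 / 16) with hδ
  have hδ0 : 0 < δ := lt_min hε (by norm_num)
  have hδ1 : δ ≤ 1 / 16 := min_le_right _ _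
  have hδ2 : δ ≤ ε := min_le_left _ _
  have hJ := JJ_nonneg
  refine ⟨1 + (1 / δ) * CX * JJ, ?_, ?_⟩
  · have : 0 ≤ (1 / δ) * CX * JJ := by positivity
    linarith
  intro q hq s hs1 hs2 κ n hn
  have hN := sq_pos hq
  have hN0 : (0 : ℝ) < Real.sqrt q := by linarith
  have hq1 : (1 : ℝ) ≤ q := by
    have : (2 : ℝ) ≤ q := by exact_mod_cast hq
    linarith
  have hq0 : (0 : ℝ) < q := by linarith
  have hn1 : (1 : ℝ) ≤ n := by exact_mod_cast hn
  have hn0 : (0 : ℝ) < n := by linarith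
  have hqN : (q : ℝ) = Real.sqrt q ^ (2 : ℝ) := by
    rw [Real.rpow_two, Real.sq_sqrt hq0.le]
  have hqε : 1 ≤ (q : ℝ) ^ ε := Real.one_le_rpow hq1 hε.le
  have ht : 1 ≤ 1 + |s.im| := by linarith [abs_nonneg s.im]
  have hC0 : 0 ≤ (1 / δ) * CX * JJ := by positivity
  -- bound 1
  have b1 : ‖g1 κ q s n‖ ≤ ((1 / δ) * CX * JJ) * (q : ℝ) ^ ε * (1 + |s.im|) *
      ((n : ℝ) ^ (-(1 / 2) : ℝ) * (Real.sqrt q / n) ^ (3 / 4 : ℝ)) := by
    rw [g1_gk, norm_mul, norm_two_pi]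
    have h1 := gk_line hX hCX hq κ s (-(1 / 4) - s.re) (by linarith) (by linarith) (by linarith)
      (by linarith) hn
    have e1 : -(1 - s.re - (-(1 / 4) - s.re)) = -(5 / 4 : ℝ) := by ring
    have e2 : 1 / 2 - s.re - (-(1 / 4) - s.re) = (3 / 4 : ℝ) := by ring
    rw [e1, e2] at h1
    have e3 : (q : ℝ) ^ (3 / 4 : ℝ) * Real.sqrt q ^ (-(1 / 4) - s.re) ≤
        Real.sqrt q ^ (3 / 4 : ℝ) := by
      have : (q : ℝ) ^ (3 / 4 : ℝ) * Real.sqrt q ^ (-(1 / 4) - s.re) =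
          Real.sqrt q ^ (2 * (3 / 4) + (-(1 / 4) - s.re)) := by
        rw [Real.rpow_add hN0, Real.rpow_mul hN0.le, ← hqN]
      rw [this]
      exact Real.rpow_le_rpow_of_exponent_le hN (by linarith)
    have e4 : (q : ℝ) ^ (3 / 4 : ℝ) * Real.sqrt q ^ (-(1 / 4) - s.re) / (-(-(1 / 4) - s.re)) ≤
        Real.sqrt q ^ (3 / 4 : ℝ) * (1 / δ) := by
      calc (q : ℝ) ^ (3 / 4 : ℝ) * Real.sqrt q ^ (-(1 / 4) - s.re) / (-(-(1 / 4) - s.re)) ≤
          (q : ℝ) ^ (3 / 4 : ℝ) * Real.sqrt q ^ (-(1 / 4) - s.re) / δ :=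
            div_le_div_of_nonneg_left (by positivity) hδ0 (by linarith)
        _ ≤ Real.sqrt q ^ (3 / 4 : ℝ) / δ := div_le_div_of_nonneg_right e3 hδ0.le
        _ = _ := by ring
    have e5 : (n : ℝ) ^ (-(5 / 4) : ℝ) * Real.sqrt q ^ (3 / 4 : ℝ) =
        (n : ℝ) ^ (-(1 / 2) : ℝ) * (Real.sqrt q / n) ^ (3 / 4 : ℝ) := by
      rw [Real.div_rpow hN0.le hn0.le]
      have : (n : ℝ) ^ (-(5 / 4) : ℝ) = (n : ℝ) ^ (-(1 / 2) : ℝ) * ((n : ℝ) ^ (3 / 4 : ℝ))⁻¹ := by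
        rw [← Real.rpow_neg hn0.le, ← Real.rpow_add hn0]
        norm_num
      rw [this, div_eq_mul_inv]
      ring
    calc 1 / (2 * Real.pi) * ‖∫ v : ℝ, gk κ q s n ((((-(1 / 4) - s.re : ℝ)) : ℂ) + v * I)‖
        ≤ 1 * ((n : ℝ) ^ (-(5 / 4) : ℝ) * (Real.sqrt q ^ (3 / 4 : ℝ) * (1 / δ)) *
          (CX * (1 + |s.im|)) * JJ) := by
          apply mul_le_mul two_pi_le _ (norm_nonneg _) (by norm_num)
          refine h1.trans ?_
          apply mul_le_mul_of_nonneg_right _ hJ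
          apply mul_le_mul_of_nonneg_right _ (by positivity)
          exact mul_le_mul_of_nonneg_left e4 (by positivity)
      _ = ((1 / δ) * CX * JJ) * 1 * (1 + |s.im|) *
          ((n : ℝ) ^ (-(5 / 4) : ℝ) * Real.sqrt q ^ (3 / 4 : ℝ)) := by ring
      _ ≤ _ := by
          rw [e5]
          apply mul_le_mul_of_nonneg_right _ (by positivity)
          apply mul_le_mul_of_nonneg_right _ (by positivity)
          exact mul_le_mul_of_nonneg_left hqε hC0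
  -- bound 2
  have b2 : (n : ℝ) ≤ Real.sqrt q → ‖g1 κ q s n‖ ≤ ((1 / δ) * CX * JJ) * (q : ℝ) ^ ε *
      (1 + |s.im|) * ((n : ℝ) ^ (-(1 / 2) : ℝ) * 1) := by
    intro hnN
    rw [g1_shift hX hCX hq κ s hs1 hs2 hδ0 hδ1 hn, norm_mul, norm_two_pi]
    have h1 := gk_line hX hCX hq κ s (-δ) (by linarith) (by linarith) (by linarith)
      (by linarith) hn
    rw [neg_neg] at h1
    have hnq : (n : ℝ) ≤ q := by
      refine hnN.trans ?_
      rw [Real.sqrt_le_left hq0.le]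
      nlinarith
    have e1 : Real.sqrt q ^ (-δ) ≤ 1 := Real.rpow_le_one_of_one_le_of_nonpos hN (by linarith)
    have e2 : (n : ℝ) ^ (-(1 - s.re - -δ)) ≤ (n : ℝ) ^ (-(1 / 2) : ℝ) * (n : ℝ) ^ (s.re - 1 / 2) := by
      rw [← Real.rpow_add hn0]
      exact Real.rpow_le_rpow_of_exponent_le hn1 (by linarith)
    have e3 : (n : ℝ) ^ (s.re - 1 / 2) ≤ (q : ℝ) ^ (s.re - 1 / 2) :=
      Real.rpow_le_rpow hn0.le hnq (by linarith)
    have e4 : (q : ℝ) ^ (1 / 2 - s.re - -δ) = (q : ℝ) ^ δ * (q : ℝ) ^ (-(s.re - 1 / 2)) := by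
      rw [← Real.rpow_add hq0]
      congr 1
      ring
    have e5 : (q : ℝ) ^ δ ≤ (q : ℝ) ^ ε := Real.rpow_le_rpow_of_exponent_le hq1 hδ2
    have e6 : (n : ℝ) ^ (-(1 - s.re - -δ)) * ((q : ℝ) ^ (1 / 2 - s.re - -δ) * Real.sqrt q ^ (-δ) / δ) ≤
        (n : ℝ) ^ (-(1 / 2) : ℝ) * ((q : ℝ) ^ ε * (1 / δ)) := by
      have e7 : (q : ℝ) ^ (s.re - 1 / 2) * (q : ℝ) ^ (-(s.re - 1 / 2)) = 1 := by
        rw [← Real.rpow_add hq0]
        simp
      calc (n : ℝ) ^ (-(1 - s.re - -δ)) * ((q : ℝ) ^ (1 / 2 - s.re - -δ) * Real.sqrt q ^ (-δ) / δ)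
          ≤ ((n : ℝ) ^ (-(1 / 2) : ℝ) * (q : ℝ) ^ (s.re - 1 / 2)) *
            (((q : ℝ) ^ ε * (q : ℝ) ^ (-(s.re - 1 / 2))) * 1 / δ) := by
            apply mul_le_mul
            · exact e2.trans (mul_le_mul_of_nonneg_left e3 (by positivity))
            · apply div_le_div_of_nonneg_right _ hδ0.le
              rw [e4]
              apply mul_le_mul _ e1 (by positivity) (by positivity)
              exact mul_le_mul_of_nonneg_right e5 (by positivity)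
            · positivity
            · positivity
        _ = (n : ℝ) ^ (-(1 / 2) : ℝ) * ((q : ℝ) ^ ε * (1 / δ)) *
            ((q : ℝ) ^ (s.re - 1 / 2) * (q : ℝ) ^ (-(s.re - 1 / 2))) := by ring
        _ = _ := by rw [e7, mul_one]
    calc 1 / (2 * Real.pi) * ‖∫ v : ℝ, gk κ q s n (((-δ : ℝ) : ℂ) + v * I)‖
        ≤ 1 * ((n : ℝ) ^ (-(1 / 2) : ℝ) * ((q : ℝ) ^ ε * (1 / δ)) *
          (CX * (1 + |s.im|)) * JJ) := by
          apply mul_le_mul two_pi_le _ (norm_nonneg _) (by norm_num)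
          refine h1.trans ?_
          apply mul_le_mul_of_nonneg_right _ hJ
          exact mul_le_mul_of_nonneg_right e6 (by positivity)
      _ = _ := by ring
  have hfin : ∀ m : ℝ, 0 ≤ m → ‖g1 κ q s n‖ ≤ ((1 / δ) * CX * JJ) * (q : ℝ) ^ ε *
      (1 + |s.im|) * ((n : ℝ) ^ (-(1 / 2) : ℝ) * m) → ‖g1 κ q s n‖ ≤
      (1 + (1 / δ) * CX * JJ) * (q : ℝ) ^ ε * (1 + |s.im|) * ((n : ℝ) ^ (-(1 / 2) : ℝ) * m) := by
    intro m hm h
    refine h.trans ?_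
    apply mul_le_mul_of_nonneg_right _ (by positivity)
    apply mul_le_mul_of_nonneg_right _ (by positivity)
    apply mul_le_mul_of_nonneg_right _ (by positivity)
    linarith
  apply hfin _ (by positivity)
  rcases le_total (n : ℝ) (Real.sqrt q) with h | h
  · have : min 1 ((Real.sqrt q / n) ^ (3 / 4 : ℝ)) = 1 := by
      apply min_eq_left
      apply Real.one_le_rpow _ (by norm_num)
      rw [one_le_div hn0]
      exact h
    rw [this]
    exact b2 h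
  · have : min 1 ((Real.sqrt q / n) ^ (3 / 4 : ℝ)) = (Real.sqrt q / n) ^ (3 / 4 : ℝ) := by
      apply min_eq_right
      apply Real.rpow_le_one (by positivity) _ (by norm_num)
      rw [div_le_one hn0]
      exact h
    rw [this]
    exact b1

end AfeAux


theorem afe_prim (ε : ℝ) (hε : 0 < ε) : ∃ C : ℝ, 0 < C ∧ ∀ (q : ℕ) [NeZero q], 2 ≤ q → ∀ s : ℂ,
    1 / 2 ≤ s.re → s.re ≤ 9 / 16 → ∃ (γ₀ : ℕ → ℂ) (γ : Bool → ℕ → ℂ),
      (∀ n : ℕ, 1 ≤ n → ‖γ₀ n‖ ≤ C * (q : ℝ) ^ ε * (1 + |s.im|) ^ (3 / 2 : ℝ) *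
        ((n : ℝ) ^ (-(1 / 2) : ℝ) * min 1 ((Real.sqrt q / n) ^ (3 / 4 : ℝ)))) ∧
      (∀ (κ : Bool) (n : ℕ), 1 ≤ n → ‖γ κ n‖ ≤ C * (q : ℝ) ^ ε * (1 + |s.im|) ^ (3 / 2 : ℝ) *
        ((n : ℝ) ^ (-(1 / 2) : ℝ) * min 1 ((Real.sqrt q / n) ^ (3 / 4 : ℝ)))) ∧
      γ₀ 0 = 0 ∧ (∀ κ, γ κ 0 = 0) ∧
      ∀ χ : DirichletCharacter ℂ q, χ.IsPrimitive → ∃ (κ : Bool) (w : ℂ), ‖w‖ ≤ 1 ∧
        LFunction χ s = ∑' n : ℕ, χ (n : ZMod q) * γ₀ n + w * ∑' n : ℕ, χ⁻¹ (n : ZMod q) * γ κ n := by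
  obtain ⟨C0, hC0, h0⟩ := AfeAux.g0_bound
  obtain ⟨C1, hC1, h1⟩ := AfeAux.g1_bound ε hε
  refine ⟨max C0 C1, lt_of_lt_of_le one_pos (hC0.trans (le_max_left _ _)), ?_⟩
  intro q _ hq s hs1 hs2
  have hN := AfeAux.sq_pos hq
  have hN0 : (0 : ℝ) < Real.sqrt q := by linarith
  have hNc : ((Real.sqrt q : ℝ) : ℂ) ≠ 0 := by exact_mod_cast hN0.ne'
  have hq1 : (1 : ℝ) ≤ q := by
    have : (2 : ℝ) ≤ q := by exact_mod_cast hq
    linarith
  have hqε : 1 ≤ (q : ℝ) ^ ε := Real.one_le_rpow hq1 hε.le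
  have ht : 1 ≤ 1 + |s.im| := by linarith [abs_nonneg s.im]
  have ht2 : 1 + |s.im| ≤ (1 + |s.im|) ^ (3 / 2 : ℝ) := by
    calc 1 + |s.im| = (1 + |s.im|) ^ (1 : ℝ) := (Real.rpow_one _).symm
      _ ≤ _ := Real.rpow_le_rpow_of_exponent_le ht (by norm_num)
  have hsc : (((-(1 / 4) - s.re : ℝ)) : ℂ) = ((-(1 / 4) - s.re : ℝ) : ℂ) := rfl
  refine ⟨AfeAux.g0 q s, fun κ => AfeAux.g1 κ q s, ?_, ?_, ?_, ?_, ?_⟩
  · intro n hn
    refine (h0 q hq s hs1 n hn).trans ?_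
    apply mul_le_mul_of_nonneg_right _ (by positivity)
    have h2 : C0 ≤ max C0 C1 := le_max_left _ _
    have h3 : (1 : ℝ) ≤ (q : ℝ) ^ ε * (1 + |s.im|) ^ (3 / 2 : ℝ) :=
      one_le_mul_of_one_le_of_one_le hqε (ht.trans ht2)
    have h4 : 0 ≤ C0 := by linarith
    calc C0 = C0 * 1 := (mul_one _).symm
      _ ≤ max C0 C1 * ((q : ℝ) ^ ε * (1 + |s.im|) ^ (3 / 2 : ℝ)) :=
        mul_le_mul h2 h3 (by norm_num) (h4.trans h2)
      _ = _ := by ring
  · intro κ n hn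
    refine (h1 q hq s hs1 hs2 κ n hn).trans ?_
    apply mul_le_mul_of_nonneg_right _ (by positivity)
    have h2 : C1 ≤ max C0 C1 := le_max_right _ _
    have h4 : 0 ≤ C1 := by linarith
    apply mul_le_mul _ ht2 (by linarith) (by positivity)
    exact mul_le_mul_of_nonneg_right h2 (by positivity)
  · rw [AfeAux.g0]
    have : ∀ v : ℝ, ((0 : ℕ) : ℂ) ^ (-(s + ((1 : ℝ) + v * I))) = 0 := by
      intro v
      rw [Nat.cast_zero]
      apply Complex.zero_cpow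
      intro h
      have := congrArg Complex.re h
      simp at this
      linarith
    simp only [this, zero_mul, integral_zero, mul_zero]
  · intro κ
    show AfeAux.g1 κ q s 0 = 0
    rw [AfeAux.g1]
    have : ∀ v : ℝ, ((0 : ℕ) : ℂ) ^ (-(1 - s - ((((-(1 / 4) - s.re : ℝ)) : ℂ) + v * I))) = 0 := by
      intro v
      rw [Nat.cast_zero]
      apply Complex.zero_cpow
      intro h
      have := congrArg Complex.re h
      simp at this
      linarith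
    simp only [this, zero_mul, integral_zero, mul_zero]
  intro χ hχ
  obtain ⟨κ, w, hw, hfe⟩ := lfun_fe hq hχ
  obtain ⟨CL, hCL, hL⟩ := lfun_left hq hχ
  have hχ1 : χ ≠ 1 := by
    intro h
    rw [h, DirichletCharacter.IsPrimitive, DirichletCharacter.conductor_one] at hχ
    omega
  refine ⟨κ, w, hw, ?_⟩
  set F : ℂ → ℂ := fun z => LFunction χ (s + z) * cexp (z ^ 2) * ((Real.sqrt q : ℝ) : ℂ) ^ z with hF
  have hFd : Differentiable ℂ F := by
    have e1 : Differentiable ℂ (fun z : ℂ => LFunction χ (s + z)) :=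
      (differentiable_LFunction hχ1).comp (differentiable_id.const_add s)
    have e2 : Differentiable ℂ (fun z : ℂ => cexp (z ^ 2)) := (differentiable_id.pow 2).cexp
    have e3 : Differentiable ℂ (fun z : ℂ => ((Real.sqrt q : ℝ) : ℂ) ^ z) :=
      differentiable_id.const_cpow (Or.inl hNc)
    exact (e1.mul e2).mul e3
  have hFK : ∀ z : ℂ, (-(1 / 4) - s.re : ℝ) ≤ z.re → z.re ≤ (1 : ℝ) →
      ‖F z‖ ≤ (CL * (1 + |s.im|) ^ 2 * Real.sqrt q * AfeAux.K0) / (1 + |z.im|) ^ 2 := by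
    intro z hz1 hz2
    have hz3 : -1 ≤ z.re := by linarith
    have h2 : (0 : ℝ) < (1 + |z.im|) ^ 2 := by positivity
    rw [le_div_iff₀ h2]
    have e1 : ‖LFunction χ (s + z)‖ ≤ CL * ((1 + |s.im|) ^ 2 * (1 + |z.im|) ^ 2) := by
      refine (hL (s + z) (by rw [Complex.add_re]; linarith) (by rw [Complex.add_re]; linarith)).trans ?_
      apply mul_le_mul_of_nonneg_left _ hCL.le
      rw [← mul_pow, Complex.add_im]
      apply pow_le_pow_left₀ (by positivity)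
      have := abs_add_le s.im z.im
      have h3 := mul_nonneg (abs_nonneg s.im) (abs_nonneg z.im)
      nlinarith
    have e2 : ‖cexp (z ^ 2)‖ ≤ Real.exp (1 - z.im ^ 2) := by
      rw [AfeAux.exp_sq_norm]
      apply Real.exp_le_exp.mpr
      nlinarith
    have e3 : ‖((Real.sqrt q : ℝ) : ℂ) ^ z‖ ≤ Real.sqrt q := by
      rw [norm_cpow_eq_rpow_re_of_pos hN0]
      calc Real.sqrt q ^ z.re ≤ Real.sqrt q ^ (1 : ℝ) := Real.rpow_le_rpow_of_exponent_le hN hz2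
        _ = _ := Real.rpow_one _
    rw [hF]
    simp only
    rw [norm_mul, norm_mul]
    calc ‖LFunction χ (s + z)‖ * ‖cexp (z ^ 2)‖ * ‖((Real.sqrt q : ℝ) : ℂ) ^ z‖ * (1 + |z.im|) ^ 2
        ≤ (CL * ((1 + |s.im|) ^ 2 * (1 + |z.im|) ^ 2)) * Real.exp (1 - z.im ^ 2) * Real.sqrt q *
          (1 + |z.im|) ^ 2 := by
          apply mul_le_mul_of_nonneg_right _ (by positivity)
          apply mul_le_mul _ e3 (norm_nonneg _) (by positivity)
          exact mul_le_mul e1 e2 (norm_nonneg _) (by positivity)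
      _ = CL * (1 + |s.im|) ^ 2 * Real.sqrt q * ((1 + |z.im|) ^ 4 * Real.exp (1 - z.im ^ 2)) := by
          ring
      _ ≤ _ := mul_le_mul_of_nonneg_left (AfeAux.gbound _) (by positivity)
  have hpole := pole1 (F := F) (a := -(1 / 4) - s.re) (b := 1) (U := Set.univ) isOpen_univ
    (fun _ _ _ => Set.mem_univ _) hFd.differentiableOn hFK (ρ := 0)
    (by rw [Complex.zero_re]; linarith) (by rw [Complex.zero_re]; norm_num)
  have hF0 : F 0 = LFunction χ s := by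
    rw [hF]
    simp
  have hpi : (Real.pi : ℂ) ≠ 0 := by exact_mod_cast Real.pi_ne_zero
  -- the right line
  have hB : ∫ v : ℝ, F ((1 : ℝ) + v * I) / ((1 : ℝ) + v * I - 0) =
      2 * Real.pi * ∑' n : ℕ, χ (n : ZMod q) * AfeAux.g0 q s n := by
    have hc : Integrable (fun v : ℝ => cexp ((((1 : ℝ) : ℂ) + v * I) ^ 2) *
        ((Real.sqrt q : ℝ) : ℂ) ^ (((1 : ℝ) : ℂ) + v * I) / (((1 : ℝ) : ℂ) + v * I)) := by
      have hne : ∀ v : ℝ, (((1 : ℝ) : ℂ) + v * I) ≠ 0 := fun v h => by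
        have := congrArg Complex.re h
        rw [AfeAux.line_re] at this
        simp at this
      refine (AfeAux.gm_integrable.const_mul (Real.sqrt q)).mono' ?_ ?_
      · apply Continuous.aestronglyMeasurable
        have hl := AfeAux.line_cont 1
        refine Continuous.div ?_ hl hne
        exact ((hl.pow 2).cexp).mul (Continuous.const_cpow hl (Or.inl hNc))
      · refine Filter.Eventually.of_forall fun v => ?_
        rw [norm_div, norm_mul, AfeAux.exp_sq_norm, norm_cpow_eq_rpow_re_of_pos hN0,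
          AfeAux.line_re, AfeAux.line_im, Real.rpow_one]
        have h2 := AfeAux.line_norm_ge 1 v
        rw [abs_one] at h2
        have h3 : 0 < Real.exp (1 ^ 2 - v ^ 2) := Real.exp_pos _
        calc Real.exp (1 ^ 2 - v ^ 2) * Real.sqrt q / ‖((1 : ℝ) : ℂ) + v * I‖
            ≤ Real.exp (1 ^ 2 - v ^ 2) * Real.sqrt q / 1 :=
              div_le_div_of_nonneg_left (by positivity) one_pos h2
          _ ≤ Real.sqrt q * AfeAux.gm v := by
              rw [AfeAux.gm, div_one]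
              have h4 := abs_nonneg v
              have h5 : Real.exp (1 ^ 2 - v ^ 2) = Real.exp (1 - v ^ 2) := by norm_num
              rw [h5]
              have h6 : Real.exp (1 - v ^ 2) ≤ (1 + |v|) * Real.exp (1 - v ^ 2) := by
                nlinarith [Real.exp_pos (1 - v ^ 2)]
              nlinarith
    have h2 := AfeAux.swap χ (fun v => s + (((1 : ℝ) : ℂ) + v * I)) _ (x := s.re + 1) (by linarith)
      (fun v => by rw [Complex.add_re, AfeAux.line_re]) (continuous_const.add (AfeAux.line_cont 1)) hc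
    have h3 : ∀ v : ℝ, F ((1 : ℝ) + v * I) / ((1 : ℝ) + v * I - 0) =
        LFunction χ (s + (((1 : ℝ) : ℂ) + v * I)) * (cexp ((((1 : ℝ) : ℂ) + v * I) ^ 2) *
        ((Real.sqrt q : ℝ) : ℂ) ^ (((1 : ℝ) : ℂ) + v * I) / (((1 : ℝ) : ℂ) + v * I)) := by
      intro v
      rw [hF, sub_zero]
      ring
    simp_rw [h3]
    rw [h2, ← tsum_mul_left]
    have hJ : ∀ x J : ℂ, x * J = 2 * Real.pi * (x * (1 / (2 * Real.pi) * J)) := by
      intro x J
      field_simp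
    exact tsum_congr fun n => hJ _ _
  -- the left line
  have hC : ∫ v : ℝ, F (((-(1 / 4) - s.re : ℝ) : ℂ) + v * I) /
      (((-(1 / 4) - s.re : ℝ) : ℂ) + v * I - 0) =
      w * (-(2 * Real.pi) * ∑' n : ℕ, χ⁻¹ (n : ZMod q) * AfeAux.g1 κ q s n) := by
    obtain ⟨CX, hCX, hX⟩ := xk_bound
    have hc : Integrable (fun v : ℝ => AfeAux.ck κ q s (((-(1 / 4) - s.re : ℝ) : ℂ) + v * I)) := by
      refine (AfeAux.gm_integrable.const_mul ((q : ℝ) ^ (1 / 2 - s.re - (-(1 / 4) - s.re)) *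
        (Real.sqrt q) ^ (-(1 / 4) - s.re) / (-(-(1 / 4) - s.re)) * (CX * (1 + |s.im|)))).mono'
        (AfeAux.cont_line (AfeAux.ck_diff κ hq hs2) (by linarith)).aestronglyMeasurable ?_
      refine Filter.Eventually.of_forall fun v => ?_
      have h2 := AfeAux.ck_norm hX hCX hq κ s (((-(1 / 4) - s.re : ℝ) : ℂ) + v * I)
        (by rw [AfeAux.line_re]; linarith) (by rw [AfeAux.line_re]; linarith)
        (by rw [AfeAux.line_re]; linarith) (by rw [AfeAux.line_re]; linarith)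
      rwa [AfeAux.line_re, AfeAux.line_im] at h2
    have h2 := AfeAux.swap χ⁻¹ (fun v => 1 - s - (((-(1 / 4) - s.re : ℝ) : ℂ) + v * I)) _ (x := 5 / 4)
      (by norm_num)
      (fun v => by
        rw [Complex.sub_re, AfeAux.line_re, Complex.sub_re, Complex.one_re]
        ring) (continuous_const.sub (AfeAux.line_cont _)) hc
    have h3 : ∀ v : ℝ, F (((-(1 / 4) - s.re : ℝ) : ℂ) + v * I) /
        (((-(1 / 4) - s.re : ℝ) : ℂ) + v * I - 0) =
        w * (LFunction χ⁻¹ (1 - s - (((-(1 / 4) - s.re : ℝ) : ℂ) + v * I)) *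
          AfeAux.ck κ q s (((-(1 / 4) - s.re : ℝ) : ℂ) + v * I)) := by
      intro v
      have h4 := hfe (s + (((-(1 / 4) - s.re : ℝ) : ℂ) + v * I)) (by
        rw [Complex.add_re, AfeAux.line_re]
        linarith)
      rw [hF, sub_zero]
      simp only
      rw [h4, AfeAux.ck]
      rw [← sub_sub, ← sub_sub]
      ring_nf
    simp_rw [h3]
    rw [integral_const_mul, h2]
    congr 1
    rw [← tsum_mul_left]
    have hJ : ∀ x J : ℂ, x * J = -(2 * Real.pi) * (x * (-(1 / (2 * Real.pi)) * J)) := by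
      intro x J
      field_simp
    exact tsum_congr fun n => hJ _ _
  rw [hB, hC, hF0] at hpole
  have h2pi : (2 * Real.pi : ℂ) ≠ 0 := mul_ne_zero two_ne_zero hpi
  apply mul_left_cancel₀ h2pi
  linear_combination -hpole

end Pool.Agent.P07318m
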