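import Pool.Agent.Lib.P07318m.SixthGe

/-!
# P07318m.AvgF: from Gaussian averages to intervals
-/

set_option autoImplicit false

open MeasureTheory Complex Filter Topology

namespace Pool.Agent.P07318m

open Pool.Agent.P4f18dfS (wt XF)

theorem wt_pos (τ Δ t : ℝ) : 0 < wt τ Δ t := by unfold wt; exact Real.exp_pos _

theorem tail_bound {f : ℝ → ℝ} (hf : Continuous f) (h0 : ∀ t, 0 ≤ f t) {K : ℝ} (hK : 0 ≤ K)
    (hb : ∀ t, f t ≤ K * (1 + |t|) ^ 6) {τ Δ T R : ℝ} (hΔ : 1 ≤ Δ) (hΔT : Δ ≤ 1 + T) (hτ0 : 0 ≤ τ) (hτT : τ ≤ T)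
    (hR : 0 ≤ R) :
    ∫ t : ℝ, wt τ Δ t * f t ≤ (∫ t in (τ - R * Δ)..(τ + R * Δ), wt τ Δ t * f t) +
      K * (1 + T) ^ 8 * ((Nat.factorial 8 : ℝ) * Real.exp (3 / 2) * Real.pi) * Real.exp (-(R ^ 2 / 2)) := by
  have hΔ0 : 0 < Δ := by linarith
  have hT0 : 0 ≤ T := by linarith
  set M : ℝ := K * (1 + T) ^ 8 * ((Nat.factorial 8 : ℝ) * Real.exp (3 / 2)) * Real.exp (-(R ^ 2 / 2)) with hM
  have hM0 : 0 ≤ M := by positivity
  have hle : τ - R * Δ ≤ τ + R * Δ := by nlinarith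
  have i1 : Integrable (fun t : ℝ => wt τ Δ t * f t) := by
    have := wt_poly_integrable (τ := τ) hΔ0 hf (K := K) (n := 6) (fun t => by
      rw [Real.norm_of_nonneg (h0 t)]; exact hb t)
    simpa [smul_eq_mul] using this
  have i2 : Integrable (Set.indicator (Set.Ioc (τ - R * Δ) (τ + R * Δ)) (fun t : ℝ => wt τ Δ t * f t)) :=
    i1.indicator measurableSet_Ioc
  have i3 : Integrable (fun t : ℝ => (1 + (t - τ) ^ 2)⁻¹) :=
    (integrable_inv_one_add_sq).comp_sub_right τ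
  have e3 : ∫ t : ℝ, (1 + (t - τ) ^ 2)⁻¹ = Real.pi := by
    rw [integral_sub_right_eq_self (fun t : ℝ => (1 + t ^ 2)⁻¹) τ]
    exact integral_univ_inv_one_add_sq
  have hpt : ∀ t : ℝ, wt τ Δ t * f t ≤
      Set.indicator (Set.Ioc (τ - R * Δ) (τ + R * Δ)) (fun t : ℝ => wt τ Δ t * f t) t + M * (1 + (t - τ) ^ 2)⁻¹ := by
    intro t
    by_cases ht : t ∈ Set.Ioc (τ - R * Δ) (τ + R * Δ)
    · rw [Set.indicator_of_mem ht]
      have : 0 ≤ M * (1 + (t - τ) ^ 2)⁻¹ := by positivity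
      linarith
    · rw [Set.indicator_of_notMem ht, zero_add]
      set x : ℝ := |t - τ| with hx
      have hx0 : 0 ≤ x := abs_nonneg _
      have hxR : R * Δ ≤ x := by
        by_contra h
        push Not at h
        have := abs_lt.1 h
        exact ht ⟨by linarith, by linarith⟩
      have hx2 : (t - τ) ^ 2 = x ^ 2 := (sq_abs _).symm
      set u : ℝ := x / Δ with hu
      have hxu : x = Δ * u := by rw [hu]; field_simp
      have hu0 : 0 ≤ u := by positivity
      have huR : R ≤ u := by rw [hu, le_div_iff₀ hΔ0]; exact hxR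
      have hw : wt τ Δ t = Real.exp (-(u ^ 2)) := by
        unfold wt
        congr 1
        rw [hu, div_pow, div_pow, hx2]
      have hx3 : Δ * u ≤ (1 + T) * u := mul_le_mul_of_nonneg_right hΔT hu0
      have h1 : 1 + |t| ≤ (1 + T) * (1 + u) := by
        have : |t| ≤ x + τ := by
          calc |t| = |(t - τ) + τ| := by ring_nf
            _ ≤ |t - τ| + |τ| := abs_add_le _ _
            _ = x + τ := by rw [abs_of_nonneg hτ0]
        nlinarith
      have h2 : 1 + x ^ 2 ≤ ((1 + T) * (1 + u)) ^ 2 := by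
        have h3 : 1 + x ≤ (1 + T) * (1 + u) := by rw [hxu]; nlinarith
        calc 1 + x ^ 2 ≤ (1 + x) ^ 2 := by nlinarith
          _ ≤ _ := pow_le_pow_left₀ (by positivity) h3 2
      have h4 : f t ≤ K * ((1 + T) * (1 + u)) ^ 6 := (hb t).trans
        (mul_le_mul_of_nonneg_left (pow_le_pow_left₀ (by positivity) h1 6) hK)
      rw [hx2, ← div_eq_mul_inv, le_div_iff₀ (by positivity), hw]
      have h5 : (1 + u) ^ 8 * Real.exp (-(u ^ 2)) ≤
          ((Nat.factorial 8 : ℝ) * Real.exp (3 / 2)) * Real.exp (-(R ^ 2 / 2)) := by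
        have h6 := Real.pow_div_factorial_le_exp (x := 1 + u) (by positivity) 8
        rw [div_le_iff₀ (by positivity)] at h6
        calc (1 + u) ^ 8 * Real.exp (-(u ^ 2)) ≤ (Real.exp (1 + u) * (Nat.factorial 8 : ℝ)) * Real.exp (-(u ^ 2)) :=
              mul_le_mul_of_nonneg_right h6 (Real.exp_pos _).le
          _ = (Nat.factorial 8 : ℝ) * Real.exp (1 + u + -(u ^ 2)) := by rw [Real.exp_add (1 + u)]; ring
          _ ≤ (Nat.factorial 8 : ℝ) * Real.exp (3 / 2 + -(R ^ 2 / 2)) := by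
              apply mul_le_mul_of_nonneg_left _ (by positivity)
              apply Real.exp_le_exp.2
              have : R ^ 2 ≤ u ^ 2 := pow_le_pow_left₀ hR huR 2
              nlinarith [sq_nonneg (u - 1)]
          _ = _ := by rw [Real.exp_add]; ring
      calc Real.exp (-(u ^ 2)) * f t * (1 + x ^ 2)
          ≤ Real.exp (-(u ^ 2)) * (K * ((1 + T) * (1 + u)) ^ 6) * (((1 + T) * (1 + u)) ^ 2) := by
            apply mul_le_mul _ h2 (by positivity) (by positivity)
            exact mul_le_mul_of_nonneg_left h4 (Real.exp_pos _).le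
        _ = K * (1 + T) ^ 8 * ((1 + u) ^ 8 * Real.exp (-(u ^ 2))) := by ring
        _ ≤ K * (1 + T) ^ 8 * (((Nat.factorial 8 : ℝ) * Real.exp (3 / 2)) * Real.exp (-(R ^ 2 / 2))) :=
            mul_le_mul_of_nonneg_left h5 (by positivity)
        _ = M := by rw [hM]; ring
  have hmono := integral_mono i1 (i2.add (i3.const_mul M)) hpt
  have hadd : ∫ t : ℝ, (Set.indicator (Set.Ioc (τ - R * Δ) (τ + R * Δ)) (fun t : ℝ => wt τ Δ t * f t) +
      fun t : ℝ => M * (1 + (t - τ) ^ 2)⁻¹) t =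
      (∫ t in (τ - R * Δ)..(τ + R * Δ), wt τ Δ t * f t) + M * Real.pi := by
    rw [integral_add' i2 (i3.const_mul M), integral_indicator measurableSet_Ioc, integral_const_mul, e3,
      intervalIntegral.integral_of_le hle]
  rw [hadd] at hmono
  refine hmono.trans (le_of_eq ?_)
  rw [hM]
  ring

theorem wt_int_le (τ1 τ2 Δ t : ℝ) (hΔ : 0 < Δ) (h12 : τ1 ≤ τ2) :
    ∫ τ in τ1..τ2, wt τ Δ t ≤ Δ * Real.sqrt Real.pi := by
  have h1 : ∀ τ : ℝ, wt τ Δ t = Real.exp (-(1 / Δ ^ 2) * (τ - t) ^ 2) := by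
    intro τ
    unfold wt
    congr 1
    field_simp
    ring
  have h2 : Integrable (fun τ : ℝ => Real.exp (-(1 / Δ ^ 2) * (τ - t) ^ 2)) :=
    (integrable_exp_neg_mul_sq (b := 1 / Δ ^ 2) (by positivity)).comp_sub_right t
  have h3 : ∫ τ : ℝ, Real.exp (-(1 / Δ ^ 2) * (τ - t) ^ 2) = Δ * Real.sqrt Real.pi := by
    rw [integral_sub_right_eq_self (fun τ : ℝ => Real.exp (-(1 / Δ ^ 2) * τ ^ 2)) t, integral_gaussian]
    have : Real.pi / (1 / Δ ^ 2) = Δ ^ 2 * Real.pi := by field_simp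
    rw [this, Real.sqrt_mul (by positivity), Real.sqrt_sq hΔ.le]
  simp_rw [h1]
  rw [intervalIntegral.integral_of_le h12, ← h3]
  exact setIntegral_le_integral h2 (Eventually.of_forall fun τ => (Real.exp_pos _).le)

theorem avg_int {f : ℝ → ℝ} (hf : Continuous f) (h0 : ∀ t, 0 ≤ f t) {a b τ1 τ2 Δ B : ℝ} (hΔ : 0 < Δ) (h12 : τ1 ≤ τ2)
    (hab : a ≤ b) (hB : ∀ τ, τ1 ≤ τ → τ ≤ τ2 → B ≤ ∫ t in a..b, wt τ Δ t * f t) :
    (τ2 - τ1) * B ≤ Δ * Real.sqrt Real.pi * ∫ t in a..b, f t := by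
  have hcont : Continuous (fun p : ℝ × ℝ => wt p.1 Δ p.2 * f p.2) := by
    unfold wt
    fun_prop
  have hint : Integrable (fun p : ℝ × ℝ => wt p.1 Δ p.2 * f p.2)
      ((volume.restrict (Set.uIoc τ1 τ2)).prod (volume.restrict (Set.Ioc a b))) := by
    rw [Measure.prod_restrict]
    have : IntegrableOn (fun p : ℝ × ℝ => wt p.1 Δ p.2 * f p.2) (Set.uIcc τ1 τ2 ×ˢ Set.Icc a b) (volume.prod volume) := by
      apply ContinuousOn.integrableOn_compact
      · exact isCompact_uIcc.prod isCompact_Icc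
      · exact hcont.continuousOn
    exact this.mono_set (Set.prod_mono Set.uIoc_subset_uIcc Set.Ioc_subset_Icc_self)
  have hsw : ∫ τ in τ1..τ2, (∫ t in a..b, wt τ Δ t * f t) = ∫ t in a..b, (∫ τ in τ1..τ2, wt τ Δ t * f t) := by
    have h := MeasureTheory.intervalIntegral_integral_swap (a := τ1) (b := τ2)
      (f := fun τ t => wt τ Δ t * f t) (μ := volume.restrict (Set.Ioc a b)) hint
    rw [intervalIntegral.integral_of_le hab]
    rw [← h]
    congr 1
    ext τ
    rw [intervalIntegral.integral_of_le hab]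
  have hc1 : Continuous (fun τ : ℝ => ∫ t in a..b, wt τ Δ t * f t) :=
    intervalIntegral.continuous_parametric_intervalIntegral_of_continuous' hcont a b
  have hc2 : Continuous (fun t : ℝ => ∫ τ in τ1..τ2, wt τ Δ t * f t) :=
    intervalIntegral.continuous_parametric_intervalIntegral_of_continuous'
      (f := fun t τ => wt τ Δ t * f t) (hcont.comp continuous_swap) τ1 τ2
  have l1 : (τ2 - τ1) * B ≤ ∫ τ in τ1..τ2, (∫ t in a..b, wt τ Δ t * f t) := by
    have : ∫ τ in τ1..τ2, B = (τ2 - τ1) * B := by simp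
    rw [← this]
    exact intervalIntegral.integral_mono_on h12 (by simp) (hc1.intervalIntegrable _ _)
      (fun τ hτ => hB τ hτ.1 hτ.2)
  refine l1.trans ?_
  rw [hsw, ← intervalIntegral.integral_const_mul]
  refine intervalIntegral.integral_mono_on hab (hc2.intervalIntegrable _ _)
    ((continuous_const.mul hf).intervalIntegrable _ _) (fun t _ => ?_)
  rw [intervalIntegral.integral_mul_const]
  exact mul_le_mul_of_nonneg_right (wt_int_le τ1 τ2 Δ t hΔ h12) (h0 t)

end Pool.Agent.P07318m
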