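import Pool.Agent.Lib.P07318m.Defs

/-!
# P07318m.BHarm: `∑_{b ≤ X, (b,a)=1} (1/b) log^j(X/b)`

`= (φ(a)/a) (log X)^{j+1}/(j+1) + O_j(Ea(a) (1+log X)^j)` for `X ≥ 1`, `a ≥ 1`, `Ea(a) = ∑_{d|a} (1+log d)/d`.
PROOF. Möbius: `1_{(b,a)=1} = ∑_{d | (a,b)} μ(d)`, so the sum is `∑_{d | a, d ≤ X} (μ(d)/d) T(X/d)`, `T(y) = ∑_{m ≤ y} (1/m) log^j(y/m)`. For `y ≥ 1`, `j ≥ 1`:
`|T(y) - (log y)^{j+1}/(j+1)| ≤ (log y)^j` (telescoping sum, `v^j (u-v) ≤ (u^{j+1} - v^{j+1})/(j+1) ≤ u^j (u-v)`).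
Then replace `(log(X/d))^{j+1}` by `(log X)^{j+1}`: the difference is `≤ (j+1) log d (log X)^j` for `d ≤ X`, and for `d > X`
`(log X)^{j+1} ≤ log d (log X)^j`. `∑_{d | a} μ(d)/d = φ(a)/a`.
-/

set_option autoImplicit false

open MeasureTheory Complex

namespace Pool.Agent.P07318m

namespace BHarmAux

theorem pow_diff_upper (j : ℕ) {u v : ℝ} (hv : 0 ≤ v) (huv : v ≤ u) :
    u ^ (j + 1) - v ^ (j + 1) ≤ (j + 1) * (u ^ j * (u - v)) := by
  have hu : 0 ≤ u := hv.trans huv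
  induction j with
  | zero => simp
  | succ j ih =>
    have h1 : u ^ (j + 1 + 1) - v ^ (j + 1 + 1) =
        u * (u ^ (j + 1) - v ^ (j + 1)) + v ^ (j + 1) * (u - v) := by ring
    rw [h1]
    have h2 : u * (u ^ (j + 1) - v ^ (j + 1)) ≤ u * ((j + 1) * (u ^ j * (u - v))) :=
      mul_le_mul_of_nonneg_left ih hu
    have h3 : v ^ (j + 1) * (u - v) ≤ u ^ (j + 1) * (u - v) :=
      mul_le_mul_of_nonneg_right (pow_le_pow_left₀ hv huv _) (sub_nonneg.2 huv)
    push_cast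
    calc u * (u ^ (j + 1) - v ^ (j + 1)) + v ^ (j + 1) * (u - v)
        ≤ u * ((j + 1) * (u ^ j * (u - v))) + u ^ (j + 1) * (u - v) := add_le_add h2 h3
      _ = ((j : ℝ) + 1 + 1) * (u ^ (j + 1) * (u - v)) := by ring

theorem pow_diff_lower (j : ℕ) {u v : ℝ} (hv : 0 ≤ v) (huv : v ≤ u) :
    (j + 1) * (v ^ j * (u - v)) ≤ u ^ (j + 1) - v ^ (j + 1) := by
  have hu : 0 ≤ u := hv.trans huv
  induction j with
  | zero => simp
  | succ j ih =>
    have h1 : u ^ (j + 1 + 1) - v ^ (j + 1 + 1) =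
        v * (u ^ (j + 1) - v ^ (j + 1)) + u ^ (j + 1) * (u - v) := by ring
    rw [h1]
    have h2 : v * ((j + 1) * (v ^ j * (u - v))) ≤ v * (u ^ (j + 1) - v ^ (j + 1)) :=
      mul_le_mul_of_nonneg_left ih hv
    have h3 : v ^ (j + 1) * (u - v) ≤ u ^ (j + 1) * (u - v) :=
      mul_le_mul_of_nonneg_right (pow_le_pow_left₀ hv huv _) (sub_nonneg.2 huv)
    push_cast
    calc ((j : ℝ) + 1 + 1) * (v ^ (j + 1) * (u - v))
        = v * ((j + 1) * (v ^ j * (u - v))) + v ^ (j + 1) * (u - v) := by ring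
      _ ≤ _ := add_le_add h2 h3

/-- the summand -/
noncomputable def ff (j : ℕ) (y : ℝ) (m : ℕ) : ℝ := (1 / (m : ℝ)) * Real.log (y / m) ^ j

theorem log_step {m : ℕ} (hm : 1 ≤ m) :
    1 / ((m : ℝ) + 1) ≤ Real.log ((m + 1) / m) ∧ Real.log ((m + 1) / m) ≤ 1 / m := by
  have hm0 : (0 : ℝ) < m := by exact_mod_cast hm
  constructor
  · have h := Real.one_sub_inv_le_log_of_pos (x := ((m : ℝ) + 1) / m) (by positivity)
    have e : 1 - (((m : ℝ) + 1) / m)⁻¹ = 1 / ((m : ℝ) + 1) := by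
      field_simp
      ring
    rwa [e] at h
  · have h := Real.log_le_sub_one_of_pos (x := ((m : ℝ) + 1) / m) (by positivity)
    have e : ((m : ℝ) + 1) / m - 1 = 1 / m := by
      field_simp
      ring
    rwa [e] at h

theorem log_nonneg' {y : ℝ} {m : ℕ} (hm : 1 ≤ m) (hmy : (m : ℝ) ≤ y) : 0 ≤ Real.log (y / m) := by
  have hm0 : (0 : ℝ) < m := by exact_mod_cast hm
  apply Real.log_nonneg
  rw [le_div_iff₀ hm0]
  linarith

theorem partial_sums (j : ℕ) {y : ℝ} (N : ℕ) (hN : 1 ≤ N) (hNy : (N : ℝ) ≤ y) :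
    (Real.log y ^ (j + 1) - Real.log (y / N) ^ (j + 1)) / (j + 1) + ff j y N ≤
      ∑ m ∈ Finset.Icc 1 N, ff j y m ∧
    ∑ m ∈ Finset.Icc 1 N, ff j y m ≤
      Real.log y ^ j + (Real.log y ^ (j + 1) - Real.log (y / N) ^ (j + 1)) / (j + 1) := by
  induction N, hN using Nat.le_induction with
  | base => simp [ff]
  | succ N hN ih =>
    push_cast at hNy
    have hN0 : (0 : ℝ) < N := by exact_mod_cast hN
    have hy0 : 0 < y := by linarith
    obtain ⟨ih1, ih2⟩ := ih (by linarith)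
    have hv : 0 ≤ Real.log (y / ((N + 1 : ℕ) : ℝ)) :=
      log_nonneg' (by omega) (by push_cast; exact hNy)
    have hd : Real.log (y / N) - Real.log (y / ((N + 1 : ℕ) : ℝ)) = Real.log ((N + 1) / N) := by
      push_cast
      rw [Real.log_div hy0.ne' hN0.ne', Real.log_div hy0.ne' (by positivity),
        Real.log_div (by positivity) hN0.ne']
      ring
    obtain ⟨hs1, hs2⟩ := log_step hN
    have hd0 : 0 ≤ Real.log (((N : ℝ) + 1) / N) := le_trans (by positivity) hs1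
    have huv : Real.log (y / ((N + 1 : ℕ) : ℝ)) ≤ Real.log (y / N) := by linarith
    have hU := pow_diff_upper j hv huv
    have hL := pow_diff_lower j hv huv
    rw [hd] at hU hL
    have hj : (0 : ℝ) < (j : ℝ) + 1 := by positivity
    have hu0 : 0 ≤ Real.log (y / N) := hv.trans huv
    have h1 : (Real.log (y / N) ^ (j + 1) - Real.log (y / ((N + 1 : ℕ) : ℝ)) ^ (j + 1)) / (j + 1) ≤
        ff j y N := by
      rw [div_le_iff₀ hj]
      refine hU.trans ?_
      unfold ff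
      have : Real.log (y / N) ^ j * Real.log (((N : ℝ) + 1) / N) ≤
          Real.log (y / N) ^ j * (1 / N) := mul_le_mul_of_nonneg_left hs2 (pow_nonneg hu0 _)
      nlinarith
    have h2 : ff j y (N + 1) ≤
        (Real.log (y / N) ^ (j + 1) - Real.log (y / ((N + 1 : ℕ) : ℝ)) ^ (j + 1)) / (j + 1) := by
      rw [le_div_iff₀ hj]
      refine le_trans ?_ hL
      unfold ff
      push_cast
      have : Real.log (y / ((N : ℝ) + 1)) ^ j * (1 / ((N : ℝ) + 1)) ≤
          Real.log (y / ((N : ℝ) + 1)) ^ j * Real.log (((N : ℝ) + 1) / N) := by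
        apply mul_le_mul_of_nonneg_left hs1
        push_cast at hv
        exact pow_nonneg hv _
      nlinarith
    rw [Finset.sum_Icc_succ_top (by omega)]
    have e : (Real.log y ^ (j + 1) - Real.log (y / ((N + 1 : ℕ) : ℝ)) ^ (j + 1)) / ((j : ℝ) + 1) =
        (Real.log y ^ (j + 1) - Real.log (y / N) ^ (j + 1)) / ((j : ℝ) + 1) +
        (Real.log (y / N) ^ (j + 1) - Real.log (y / ((N + 1 : ℕ) : ℝ)) ^ (j + 1)) / ((j : ℝ) + 1) := by
      ring
    rw [e]
    constructor <;> linarith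

/-- the full sum -/
theorem T_bound (j : ℕ) {y : ℝ} (hy : 1 ≤ y) :
    |∑ m ∈ Finset.Icc 1 ⌊y⌋₊, ff j y m - Real.log y ^ (j + 1) / (j + 1)| ≤ Real.log y ^ j := by
  have hN : 1 ≤ ⌊y⌋₊ := Nat.one_le_floor_iff _ |>.2 hy
  have hNy : (⌊y⌋₊ : ℝ) ≤ y := Nat.floor_le (by linarith)
  obtain ⟨h1, h2⟩ := partial_sums j ⌊y⌋₊ hN hNy
  set N := ⌊y⌋₊ with hNdef
  have hN0 : (0 : ℝ) < N := by exact_mod_cast hN
  have hu : 0 ≤ Real.log (y / N) := log_nonneg' hN hNy
  have hj : (0 : ℝ) < (j : ℝ) + 1 := by positivity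
  have hle : Real.log (y / N) ≤ 1 / N := by
    refine le_trans (Real.log_le_log (by positivity) ?_) (log_step hN).2
    exact div_le_div_of_nonneg_right (Nat.lt_floor_add_one y).le hN0.le
  have h3 : Real.log (y / N) ^ (j + 1) / (j + 1) ≤ ff j y N := by
    unfold ff
    rw [div_le_iff₀ hj, pow_succ]
    have h4 : Real.log (y / N) ^ j * Real.log (y / N) ≤ Real.log (y / N) ^ j * (1 / N) :=
      mul_le_mul_of_nonneg_left hle (pow_nonneg hu _)
    have h5 : 0 ≤ Real.log (y / N) ^ j * (1 / N) := by positivity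
    have h6 : (0 : ℝ) ≤ j := Nat.cast_nonneg j
    nlinarith
  have h4 : 0 ≤ Real.log (y / N) ^ (j + 1) / (j + 1) := by positivity
  have e : (Real.log y ^ (j + 1) - Real.log (y / N) ^ (j + 1)) / ((j : ℝ) + 1) =
      Real.log y ^ (j + 1) / (j + 1) - Real.log (y / N) ^ (j + 1) / (j + 1) := by ring
  rw [e] at h1 h2
  have h5 : 0 ≤ Real.log y ^ j := pow_nonneg (Real.log_nonneg hy) _
  rw [abs_le]
  constructor <;> linarith

/-- the sum over the multiples of `d` -/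
theorem mult_sum (j : ℕ) {X : ℝ} {d : ℕ} (hd : 1 ≤ d) :
    ∑ b ∈ (Finset.Icc 1 ⌊X⌋₊).filter (fun b => d ∣ b), ff j X b =
      (1 / (d : ℝ)) * ∑ m ∈ Finset.Icc 1 ⌊X / d⌋₊, ff j (X / d) m := by
  have hd0 : (0 : ℝ) < d := by exact_mod_cast hd
  rw [Finset.mul_sum]
  symm
  refine Finset.sum_nbij (fun m => d * m) ?_ ?_ ?_ ?_
  · intro m hm
    rw [Finset.mem_Icc] at hm
    rw [Finset.mem_filter, Finset.mem_Icc]
    refine ⟨⟨Nat.mul_pos hd hm.1, ?_⟩, dvd_mul_right _ _⟩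
    rw [Nat.floor_div_natCast] at hm
    calc d * m ≤ d * (⌊X⌋₊ / d) := Nat.mul_le_mul_left _ hm.2
      _ ≤ ⌊X⌋₊ := Nat.mul_div_le _ _
  · intro a _ b _ hab
    exact Nat.eq_of_mul_eq_mul_left hd hab
  · intro b hb
    rw [Finset.mem_coe, Finset.mem_filter, Finset.mem_Icc] at hb
    obtain ⟨⟨h1, h2⟩, m, rfl⟩ := hb
    refine ⟨m, ?_, rfl⟩
    rw [Finset.mem_coe, Finset.mem_Icc, Nat.floor_div_natCast, Nat.le_div_iff_mul_le hd]
    refine ⟨Nat.pos_of_ne_zero ?_, by rw [mul_comm]; exact h2⟩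
    rintro rfl
    omega
  · intro m _
    unfold ff
    push_cast
    have e : X / (d : ℝ) / m = X / (d * m) := div_div _ _ _
    have e2 : 1 / ((d : ℝ) * m) = 1 / d * (1 / m) := by rw [one_div_mul_one_div]
    rw [e, e2]
    ring

theorem sum_moebius_div {a : ℕ} (ha : 1 ≤ a) :
    ∑ d ∈ a.divisors, ((ArithmeticFunction.moebius d : ℤ) : ℝ) / d = (a.totient : ℝ) / a := by
  have h := (ArithmeticFunction.sum_eq_iff_sum_mul_moebius_eq
    (f := fun n => (n.totient : ℝ)) (g := fun n => (n : ℝ))).1 (by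
      intro n _
      rw [← Nat.cast_sum, Nat.sum_totient]) a ha
  rw [← h, Finset.sum_div, Nat.sum_divisorsAntidiagonal
    (f := fun d e => ((ArithmeticFunction.moebius d : ℤ) : ℝ) * (e : ℝ) / (a : ℝ))]
  refine Finset.sum_congr rfl fun d hd => ?_
  obtain ⟨e, rfl⟩ := Nat.dvd_of_mem_divisors hd
  have hd0 : d ≠ 0 := by rintro rfl; simp at ha
  have he0 : e ≠ 0 := by rintro rfl; simp at ha
  rw [Nat.mul_div_cancel_left _ (Nat.pos_of_ne_zero hd0)]
  push_cast
  field_simp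

theorem indicator_eq {a b : ℕ} (ha : 1 ≤ a) :
    (if b.Coprime a then (1 : ℝ) else 0) =
      ∑ d ∈ a.divisors, if d ∣ b then ((ArithmeticFunction.moebius d : ℤ) : ℝ) else 0 := by
  have h2 : ∑ d ∈ (b.gcd a).divisors, ((ArithmeticFunction.moebius d : ℤ) : ℝ) =
      if b.gcd a = 1 then 1 else 0 := by
    have h3 := congrArg (fun F : ArithmeticFunction ℤ => F (b.gcd a))
      ArithmeticFunction.coe_zeta_mul_moebius
    simp only [ArithmeticFunction.coe_zeta_mul_apply, ArithmeticFunction.one_apply] at h3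
    rw [← Int.cast_sum, h3]
    split_ifs <;> simp
  have h4 : ∑ d ∈ a.divisors, (if d ∣ b then ((ArithmeticFunction.moebius d : ℤ) : ℝ) else 0) =
      ∑ d ∈ (b.gcd a).divisors, ((ArithmeticFunction.moebius d : ℤ) : ℝ) := by
    rw [← Finset.sum_filter]
    apply Finset.sum_congr _ fun _ _ => rfl
    ext d
    rw [Finset.mem_filter, Nat.mem_divisors, Nat.mem_divisors, Nat.dvd_gcd_iff]
    constructor
    · rintro ⟨⟨h5, -⟩, h6⟩
      exact ⟨⟨h6, h5⟩, (Nat.gcd_pos_of_pos_right _ ha).ne'⟩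
    · rintro ⟨⟨h6, h5⟩, -⟩
      exact ⟨⟨h5, by omega⟩, h6⟩
  rw [h4, h2]

/-- the error of one divisor -/
theorem one_div_bound (j : ℕ) {X : ℝ} (hX : 1 ≤ X) {d : ℕ} (hd : 1 ≤ d) :
    |∑ m ∈ Finset.Icc 1 ⌊X / d⌋₊, ff j (X / d) m - Real.log X ^ (j + 1) / (j + 1)| ≤
      (1 + Real.log d) * (1 + Real.log X) ^ j := by
  have hd0 : (0 : ℝ) < d := by exact_mod_cast hd
  have hd1 : (1 : ℝ) ≤ d := by exact_mod_cast hd
  have hL : 0 ≤ Real.log X := Real.log_nonneg hX
  have hld : 0 ≤ Real.log d := Real.log_nonneg hd1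
  have hj : (0 : ℝ) < (j : ℝ) + 1 := by positivity
  have hLj : Real.log X ^ j ≤ (1 + Real.log X) ^ j := pow_le_pow_left₀ hL (by linarith) _
  have hLj0 : 0 ≤ Real.log X ^ j := pow_nonneg hL _
  by_cases hdX : (d : ℝ) ≤ X
  · have hy : 1 ≤ X / d := by rw [le_div_iff₀ hd0]; linarith
    have h1 := T_bound j hy
    have e : Real.log (X / d) = Real.log X - Real.log d :=
      Real.log_div (by linarith) hd0.ne'
    have hy0 : 0 ≤ Real.log (X / d) := Real.log_nonneg hy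
    have hle : Real.log (X / d) ≤ Real.log X := by rw [e]; linarith
    have h2 := pow_diff_upper j hy0 hle
    have h3 : Real.log (X / d) ^ (j + 1) ≤ Real.log X ^ (j + 1) := pow_le_pow_left₀ hy0 hle _
    have h4 : Real.log (X / d) ^ j ≤ Real.log X ^ j := pow_le_pow_left₀ hy0 hle _
    have h5 : Real.log X ^ (j + 1) / (j + 1) - Real.log (X / d) ^ (j + 1) / (j + 1) ≤
        Real.log X ^ j * Real.log d := by
      rw [← sub_div, div_le_iff₀ hj]
      refine h2.trans (le_of_eq ?_)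
      rw [e]; ring
    have h6 : 0 ≤ Real.log X ^ (j + 1) / (j + 1) - Real.log (X / d) ^ (j + 1) / (j + 1) := by
      rw [← sub_div]
      exact div_nonneg (by linarith) hj.le
    have h7 : Real.log X ^ j * Real.log d ≤ (1 + Real.log X) ^ j * Real.log d :=
      mul_le_mul_of_nonneg_right hLj hld
    rw [abs_le] at h1 ⊢
    constructor <;> nlinarith [h1.1, h1.2]
  · push Not at hdX
    have h0 : ⌊X / d⌋₊ = 0 := by
      rw [Nat.floor_eq_zero, div_lt_one hd0]
      exact hdX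
    rw [h0]
    simp only [Finset.Icc_eq_empty_of_lt (by norm_num : (0 : ℕ) < 1), Finset.sum_empty, zero_sub,
      abs_neg]
    rw [abs_of_nonneg (by positivity)]
    have h1 : Real.log X ≤ Real.log d := Real.log_le_log (by linarith) hdX.le
    have h2 : Real.log X ^ (j + 1) / (j + 1) ≤ Real.log X ^ j * Real.log X := by
      rw [← pow_succ]
      apply div_le_self (by positivity)
      have : (0 : ℝ) ≤ j := Nat.cast_nonneg j
      linarith
    calc Real.log X ^ (j + 1) / (j + 1) ≤ Real.log X ^ j * Real.log X := h2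
      _ ≤ (1 + Real.log X) ^ j * Real.log d :=
          mul_le_mul hLj h1 hL (by positivity)
      _ ≤ (1 + Real.log d) * (1 + Real.log X) ^ j := by
          have : 0 ≤ (1 + Real.log X) ^ j := by positivity
          nlinarith

end BHarmAux

open BHarmAux in
theorem b_harm (j : ℕ) (hj : 1 ≤ j) : ∃ C : ℝ, 0 < C ∧ ∀ (a : ℕ) (X : ℝ), 1 ≤ a → 1 ≤ X →
    |∑ b ∈ (Finset.Icc 1 ⌊X⌋₊).filter (fun b => b.Coprime a), (1 / (b : ℝ)) * Real.log (X / b) ^ j -
      (a.totient : ℝ) / a * (Real.log X ^ (j + 1) / (j + 1))| ≤ C * Ea a * (1 + Real.log X) ^ j := by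
  refine ⟨1, one_pos, fun a X ha hX => ?_⟩
  have h1 : ∑ b ∈ (Finset.Icc 1 ⌊X⌋₊).filter (fun b => b.Coprime a),
      (1 / (b : ℝ)) * Real.log (X / b) ^ j =
      ∑ d ∈ a.divisors, ((ArithmeticFunction.moebius d : ℤ) : ℝ) / d *
        ∑ m ∈ Finset.Icc 1 ⌊X / d⌋₊, ff j (X / d) m := by
    have h2 : ∑ b ∈ (Finset.Icc 1 ⌊X⌋₊).filter (fun b => b.Coprime a),
        (1 / (b : ℝ)) * Real.log (X / b) ^ j =
        ∑ b ∈ Finset.Icc 1 ⌊X⌋₊, ∑ d ∈ a.divisors,
          if d ∣ b then ((ArithmeticFunction.moebius d : ℤ) : ℝ) * ff j X b else 0 := by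
      rw [Finset.sum_filter]
      refine Finset.sum_congr rfl fun b _ => ?_
      have h3 : (if b.Coprime a then (1 / (b : ℝ)) * Real.log (X / b) ^ j else 0) =
          (if b.Coprime a then (1 : ℝ) else 0) * ff j X b := by
        unfold ff
        split_ifs <;> simp
      rw [h3, indicator_eq ha, Finset.sum_mul]
      refine Finset.sum_congr rfl fun d _ => ?_
      split_ifs <;> simp
    rw [h2, Finset.sum_comm]
    refine Finset.sum_congr rfl fun d hd => ?_
    have hd1 : 1 ≤ d := Nat.pos_of_mem_divisors hd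
    rw [← Finset.sum_filter, ← Finset.mul_sum, mult_sum j hd1]
    ring
  rw [h1, ← sum_moebius_div ha, Finset.sum_mul, ← Finset.sum_sub_distrib, one_mul]
  refine (Finset.abs_sum_le_sum_abs _ _).trans ?_
  unfold Ea
  rw [Finset.sum_mul]
  refine Finset.sum_le_sum fun d hd => ?_
  have hd1 : 1 ≤ d := Nat.pos_of_mem_divisors hd
  have hd0 : (0 : ℝ) < d := by exact_mod_cast hd1
  rw [← mul_sub, abs_mul]
  have h2 := one_div_bound j hX hd1
  have h3 : |((ArithmeticFunction.moebius d : ℤ) : ℝ) / d| ≤ 1 / d := by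
    rw [abs_div, abs_of_pos hd0]
    apply div_le_div_of_nonneg_right _ hd0.le
    have := ArithmeticFunction.abs_moebius_le_one (n := d)
    exact_mod_cast this
  calc |((ArithmeticFunction.moebius d : ℤ) : ℝ) / d| *
        |∑ m ∈ Finset.Icc 1 ⌊X / d⌋₊, ff j (X / d) m - Real.log X ^ (j + 1) / (j + 1)|
      ≤ 1 / d * ((1 + Real.log d) * (1 + Real.log X) ^ j) :=
        mul_le_mul h3 h2 (abs_nonneg _) (by positivity)
    _ = (1 + Real.log d) / d * (1 + Real.log X) ^ j := by ring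

end Pool.Agent.P07318m
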