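import Pool.Agent.Lib.P07318m.Defs
import Pool.Agent.Lib.P4f18dfS.ShiftPoly
import Pool.Agent.Lib.KeZhao.LBounds

/-!
# P07318m.BSum: the smooth sum over `b`

For `χ ≠ 1` mod `q`, `q | a`, `X ≥ 1`, `0 < δ ≤ 1/16`, `z = 1/2 + iξ`:
`|∑_{b ≤ X, (b,a)=1} log²(X/b) χ(b) b^{-z}| ≤ C_δ 2^{ω(a)} X^δ ∫ |L(z+δ+iv,χ)| (1+|v|)^{-3} dv`.
PROOF. (1) `(log^+ x)² = (2/2π) ∫ x^w w^{-3} dv`, `w = 1+iv`, `x > 0`: Mellin inversion for `f(y) = (log^+(1/y))²`, whose
Mellin transform is `2/w³` (second derivative of `1/w`).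
(2) Sum over `b`: on `Re w = 1`, `Re(z+w) = 3/2`, so `∑_{(b,a)=1} χ(b) b^{-(z+w)} = L(z+w,ψ)`, `ψ` the character mod `a` induced by `χ`.
(3) Shift `w` from `Re w = 1` to `Re w = δ` by `shift_poly_on`.
(4) On `Re w = δ`: `L(z+w,ψ) = L(z+w,χ) ∏_{p | a} (1 - χ(p) p^{-z-w})`, `|X^w| = X^δ`, `|w|^{-3} ≤ C_δ (1+|v|)^{-3}`.
-/

set_option autoImplicit false

open MeasureTheory Complex

namespace Pool.Agent.P07318m

open DirichletCharacter

namespace BSumAux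

open Set Filter Topology Asymptotics

/-! ### The Perron kernel -/

/-- The indicator of `(0, 1]`. -/
noncomputable def g0 : ℝ → ℂ := indicator (Ioc 0 1) (fun _ => (1 : ℂ))

/-- `log t` on `(0, 1]`. -/
noncomputable def g1 : ℝ → ℂ := fun t => Real.log t • g0 t

/-- `log² t` on `(0, 1]`. -/
noncomputable def g2 : ℝ → ℂ := fun t => Real.log t • g1 t

lemma g0_eventually_zero : g0 =ᶠ[atTop] fun _ => (0 : ℂ) := by
  filter_upwards [eventually_gt_atTop 1] with t ht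
  unfold g0
  rw [indicator_of_notMem]
  intro h
  exact absurd h.2 (not_le.2 ht)

lemma g1_eventually_zero : g1 =ᶠ[atTop] fun _ => (0 : ℂ) := by
  filter_upwards [g0_eventually_zero] with t ht
  unfold g1
  rw [ht, smul_zero]

lemma g0_norm_le (t : ℝ) : ‖g0 t‖ ≤ 1 := by
  unfold g0
  refine (norm_indicator_le_norm_self _ _).trans ?_
  simp

lemma g1_eq {t : ℝ} (ht : 0 < t) : g1 t = ((min (Real.log t) 0 : ℝ) : ℂ) := by
  unfold g1 g0
  by_cases h : t ≤ 1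
  · rw [indicator_of_mem (show t ∈ Ioc (0 : ℝ) 1 from ⟨ht, h⟩),
      min_eq_left (Real.log_nonpos ht.le h)]
    simp
  · rw [indicator_of_notMem (fun h' => h h'.2), smul_zero,
      min_eq_right (Real.log_nonneg (not_le.1 h).le)]
    simp

lemma g2_eq {t : ℝ} (ht : 0 < t) : g2 t = ((max (-Real.log t) 0 ^ 2 : ℝ) : ℂ) := by
  unfold g2
  rw [g1_eq ht]
  rcases le_total (Real.log t) 0 with h | h
  · rw [min_eq_left h, max_eq_left (by linarith)]
    simp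
    ring
  · rw [min_eq_right h, max_eq_right (by linarith)]
    simp

lemma mellin_g0 {s : ℂ} (hs : 0 < s.re) : mellin g0 s = 1 / s := (hasMellin_one_Ioc hs).2

lemma mellin_g1 {s : ℂ} (hs : 0 < s.re) : mellin g1 s = -1 / s ^ 2 := by
  have hs0 : s ≠ 0 := by
    intro h
    rw [h] at hs
    simp at hs
  have h1 : LocallyIntegrableOn g0 (Ioi 0) := by
    have : Integrable g0 := by
      unfold g0
      rw [integrable_indicator_iff measurableSet_Ioc]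
      exact integrableOn_const (by simp) (by simp)
    exact this.locallyIntegrable.locallyIntegrableOn _
  have h2 : g0 =O[atTop] (fun t : ℝ => t ^ (-(s.re + 1))) :=
    g0_eventually_zero.trans_isBigO (isBigO_zero _ _)
  have h3 : g0 =O[𝓝[>] 0] (fun t : ℝ => t ^ (-(0 : ℝ))) := by
    refine IsBigO.of_bound 1 (Eventually.of_forall fun t => ?_)
    simp only [neg_zero, Real.rpow_zero, norm_one, mul_one]
    exact g0_norm_le t
  have h4 := (mellin_hasDerivAt_of_isBigO_rpow h1 h2 (by linarith) h3 hs).2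
  have h5 : HasDerivAt (fun s : ℂ => 1 / s) (-1 / s ^ 2) s := by
    have e : (fun s : ℂ => 1 / s) = fun y : ℂ => y⁻¹ := funext one_div
    rw [e]
    refine (hasDerivAt_inv hs0).congr_deriv ?_
    rw [neg_div, one_div]
  have h6 : mellin g0 =ᶠ[𝓝 s] fun s : ℂ => 1 / s := by
    have : {w : ℂ | 0 < w.re} ∈ 𝓝 s := (isOpen_lt continuous_const continuous_re).mem_nhds hs
    filter_upwards [this] with w hw
    exact mellin_g0 hw
  exact h4.unique (h5.congr_of_eventuallyEq h6)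

lemma conv_g2 {s : ℂ} (hs : 0 < s.re) : MellinConvergent g2 s ∧ mellin g2 s = 2 / s ^ 3 := by
  have hs0 : s ≠ 0 := by
    intro h
    rw [h] at hs
    simp at hs
  have h1 : LocallyIntegrableOn g1 (Ioi 0) := by
    refine ContinuousOn.locallyIntegrableOn ?_ measurableSet_Ioi
    have hc : ContinuousOn (fun t : ℝ => ((min (Real.log t) 0 : ℝ) : ℂ)) (Ioi 0) := by
      refine Complex.continuous_ofReal.comp_continuousOn ?_
      have hlog : ContinuousOn Real.log (Ioi 0) :=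
        Real.continuousOn_log.mono fun t ht => ne_of_gt (show (0 : ℝ) < t from ht)
      exact fun t ht => (hlog t ht).min continuousWithinAt_const
    exact hc.congr fun t ht => g1_eq ht
  have h2 : g1 =O[atTop] (fun t : ℝ => t ^ (-(s.re + 1))) :=
    g1_eventually_zero.trans_isBigO (isBigO_zero _ _)
  have h3 : g1 =O[𝓝[>] 0] (fun t : ℝ => t ^ (-(s.re / 2))) := by
    have h31 : g1 =O[𝓝[>] 0] Real.log := by
      refine IsBigO.of_bound 1 (Eventually.of_forall fun t => ?_)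
      unfold g1
      rw [norm_smul, one_mul]
      exact mul_le_of_le_one_right (norm_nonneg _) (g0_norm_le t)
    exact h31.trans (isLittleO_log_rpow_nhdsGT_zero (by linarith)).isBigO
  have h4 := (mellin_hasDerivAt_of_isBigO_rpow h1 h2 (by linarith) h3 (by linarith))
  refine ⟨h4.1, ?_⟩
  have h5 : HasDerivAt (fun s : ℂ => -1 / s ^ 2) (2 / s ^ 3) s := by
    have h := (hasDerivAt_const s (-1 : ℂ)).div (hasDerivAt_pow 2 s) (pow_ne_zero 2 hs0)
    refine h.congr_deriv ?_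
    push_cast
    field_simp
    ring
  have h6 : mellin g1 =ᶠ[𝓝 s] fun s : ℂ => -1 / s ^ 2 := by
    have : {w : ℂ | 0 < w.re} ∈ 𝓝 s := (isOpen_lt continuous_const continuous_re).mem_nhds hs
    filter_upwards [this] with w hw
    exact mellin_g1 hw
  exact h4.2.unique (h5.congr_of_eventuallyEq h6)

lemma cont_g2 {u : ℝ} (hu : 0 < u) : ContinuousAt g2 u := by
  have h1 : g2 =ᶠ[𝓝 u] fun t => ((max (-Real.log t) 0 ^ 2 : ℝ) : ℂ) := by
    filter_upwards [lt_mem_nhds hu] with v hv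
    exact g2_eq hv
  refine ContinuousAt.congr ?_ h1.symm
  have h2 : ContinuousAt Real.log u := Real.continuousAt_log hu.ne'
  exact Complex.continuous_ofReal.continuousAt.comp ((h2.neg.max continuousAt_const).pow 2)

lemma ne_zero_line {c : ℝ} (hc : 0 < c) (v : ℝ) : (c : ℂ) + v * I ≠ 0 := by
  intro h
  have := congrArg Complex.re h
  simp at this
  linarith

/-- The decay of the kernel. -/
lemma kernel_le {c : ℝ} (hc : 0 < c) (v : ℝ) :
    ‖(2 : ℂ) / ((c : ℂ) + v * I) ^ 3‖ ≤ 2 * (1 / c + 1) ^ 3 * ((1 + |v|) ^ 3)⁻¹ := by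
  have h1 : c ≤ ‖(c : ℂ) + v * I‖ := by
    have := Complex.abs_re_le_norm ((c : ℂ) + v * I)
    simp at this
    exact (le_abs_self c).trans this
  have h2 : |v| ≤ ‖(c : ℂ) + v * I‖ := by
    have := Complex.abs_im_le_norm ((c : ℂ) + v * I)
    simpa using this
  have h3 : 1 + |v| ≤ (1 / c + 1) * ‖(c : ℂ) + v * I‖ := by
    have : 1 ≤ 1 / c * ‖(c : ℂ) + v * I‖ := by
      rw [one_div_mul_eq_div, le_div_iff₀ hc, one_mul]
      exact h1
    linarith
  have h4 : 0 < ‖(c : ℂ) + v * I‖ := by linarith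
  have hv := abs_nonneg v
  rw [norm_div, norm_pow, Complex.norm_ofNat, ← div_eq_mul_inv, div_le_div_iff₀ (by positivity)
    (by positivity)]
  have h5 := pow_le_pow_left₀ (by linarith) h3 3
  rw [mul_pow] at h5
  nlinarith

lemma kernel_le2 {c : ℝ} (hc : 0 < c) (v : ℝ) :
    ‖(2 : ℂ) / ((c : ℂ) + v * I) ^ 3‖ ≤ 2 * (1 / c + 1) ^ 3 * (1 + v ^ 2)⁻¹ := by
  refine (kernel_le hc v).trans ?_
  apply mul_le_mul_of_nonneg_left _ (by positivity)
  apply inv_anti₀ (by positivity)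
  have h1 := abs_nonneg v
  have h2 : |v| ^ 2 = v ^ 2 := sq_abs v
  nlinarith [pow_nonneg h1 3]

lemma kernel_cont {c : ℝ} (hc : 0 < c) :
    Continuous (fun v : ℝ => (2 : ℂ) / ((c : ℂ) + v * I) ^ 3) :=
  Continuous.div continuous_const (by fun_prop) fun v => pow_ne_zero 3 (ne_zero_line hc v)

lemma kernel_int {c : ℝ} (hc : 0 < c) :
    Integrable (fun v : ℝ => (2 : ℂ) / ((c : ℂ) + v * I) ^ 3) :=
  (integrable_inv_one_add_sq.const_mul (2 * (1 / c + 1) ^ 3)).mono'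
    (kernel_cont hc).aestronglyMeasurable (Eventually.of_forall (kernel_le2 hc))

lemma perron {x : ℝ} (hx : 0 < x) : ((max (Real.log x) 0 ^ 2 : ℝ) : ℂ) =
    (1 / (2 * Real.pi) : ℝ) • ∫ v : ℝ, (x : ℂ) ^ (((1 : ℝ) : ℂ) + v * I) *
      ((2 : ℂ) / (((1 : ℝ) : ℂ) + v * I) ^ 3) := by
  have hm : ∀ y : ℝ, mellin g2 (((1 : ℝ) : ℂ) + y * I) = (2 : ℂ) / (((1 : ℝ) : ℂ) + y * I) ^ 3 :=
    fun y => (conv_g2 (by simp)).2
  have hv : VerticalIntegrable (mellin g2) 1 := by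
    unfold VerticalIntegrable
    simp_rw [hm]
    exact kernel_int one_pos
  have hc : MellinConvergent g2 ((1 : ℝ) : ℂ) := (conv_g2 (by simp)).1
  have hx' : 0 < x⁻¹ := inv_pos.2 hx
  have h := mellinInv_mellin_eq 1 g2 hx' hc hv (cont_g2 hx')
  rw [g2_eq hx', Real.log_inv, neg_neg] at h
  rw [← h, mellinInv]
  congr 1
  refine integral_congr_ae (Eventually.of_forall fun v => ?_)
  simp only
  rw [hm v, smul_eq_mul]
  congr 1
  rw [ofReal_inv, Complex.inv_cpow _ _ (by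
    rw [Complex.arg_ofReal_of_nonneg hx.le]
    exact Real.pi_pos.ne), Complex.cpow_neg, inv_inv]

/-! ### Integrability -/

variable {q : ℕ} [NeZero q]

lemma norm_line_le (χ : DirichletCharacter ℂ q) (hχ : χ ≠ 1) {δ : ℝ} (hδ : 0 < δ) (ξ v : ℝ) :
    ‖LFunction χ (1 / 2 + δ + ((ξ + v : ℝ) : ℂ) * I)‖ ≤
      (q * KeZhao.cZ * (3 + δ + |ξ|)) * (1 + |v|) := by
  have hre : (1 / 2 + (δ : ℂ) + ((ξ + v : ℝ) : ℂ) * I).re = 1 / 2 + δ := by
    simp
  have h1 := KeZhao.norm_LFunction_le hχ (s := 1 / 2 + δ + ((ξ + v : ℝ) : ℂ) * I)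
    (by rw [hre]; linarith)
  have h2 : ‖(1 / 2 + (δ : ℂ) + ((ξ + v : ℝ) : ℂ) * I)‖ ≤ (3 + δ + |ξ|) * (1 + |v|) := by
    have e : (1 / 2 + (δ : ℂ)) = ((1 / 2 + δ : ℝ) : ℂ) := by push_cast; ring
    have h3 : ‖(1 / 2 + (δ : ℂ) + ((ξ + v : ℝ) : ℂ) * I)‖ ≤ |1 / 2 + δ| + |ξ + v| := by
      rw [e]
      refine (norm_add_le _ _).trans ?_
      rw [norm_mul, norm_I, mul_one, Complex.norm_real, Complex.norm_real]
      rfl
    have h4 := abs_add_le ξ v
    have h5 : |1 / 2 + δ| = 1 / 2 + δ := abs_of_pos (by linarith)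
    have h6 := abs_nonneg ξ
    have h7 := abs_nonneg v
    rw [h5] at h3
    nlinarith [mul_nonneg h6 h7, mul_nonneg hδ.le h7]
  have hcZ := KeZhao.cZ_nonneg
  calc ‖LFunction χ (1 / 2 + δ + ((ξ + v : ℝ) : ℂ) * I)‖
      ≤ q * ‖(1 / 2 + (δ : ℂ) + ((ξ + v : ℝ) : ℂ) * I)‖ * KeZhao.cZ := h1
    _ ≤ q * ((3 + δ + |ξ|) * (1 + |v|)) * KeZhao.cZ := by gcongr
    _ = _ := by ring

end BSumAux

open BSumAux

theorem bsum_integrable {q : ℕ} [NeZero q] (χ : DirichletCharacter ℂ q) (hχ : χ ≠ 1) {δ : ℝ} (hδ : 0 < δ) (ξ : ℝ) :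
    Integrable (fun v : ℝ => ‖LFunction χ (1 / 2 + δ + ((ξ + v : ℝ) : ℂ) * I)‖ * ((1 + |v|) ^ 3)⁻¹) := by
  have hcZ := KeZhao.cZ_nonneg
  set K : ℝ := q * KeZhao.cZ * (3 + δ + |ξ|) with hK
  have hK0 : 0 ≤ K := by
    have := abs_nonneg ξ
    positivity
  refine (integrable_inv_one_add_sq.const_mul K).mono' ?_ (Filter.Eventually.of_forall fun v => ?_)
  · have hc : Continuous (fun v : ℝ => LFunction χ (1 / 2 + δ + ((ξ + v : ℝ) : ℂ) * I)) :=
      (differentiable_LFunction hχ).continuous.comp (by fun_prop)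
    refine (hc.norm.mul ?_).aestronglyMeasurable
    refine Continuous.inv₀ (by fun_prop) fun v => ?_
    have := abs_nonneg v
    positivity
  · have h1 := norm_line_le χ hχ hδ ξ v
    have hv := abs_nonneg v
    rw [Real.norm_of_nonneg (by positivity)]
    calc ‖LFunction χ (1 / 2 + δ + ((ξ + v : ℝ) : ℂ) * I)‖ * ((1 + |v|) ^ 3)⁻¹
        ≤ (K * (1 + |v|)) * ((1 + |v|) ^ 3)⁻¹ := by gcongr
      _ = K / (1 + |v|) ^ 2 := by
          field_simp
      _ ≤ K * (1 + v ^ 2)⁻¹ := P4f18dfS.ShiftPolyAux.inv_sq_le hK0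

namespace BSumAux

/-! ### The Dirichlet series -/

/-- The summand. -/
noncomputable def Fb {a : ℕ} (ψ : DirichletCharacter ℂ a) (X : ℝ) (z : ℂ) (b : ℕ) (v : ℝ) : ℂ :=
  ψ (b : ZMod a) * (b : ℂ) ^ (-(z + (((1 : ℝ) : ℂ) + v * I))) *
    ((X : ℂ) ^ (((1 : ℝ) : ℂ) + v * I) * ((2 : ℂ) / (((1 : ℝ) : ℂ) + v * I) ^ 3))

lemma Fb_zero {a : ℕ} (ψ : DirichletCharacter ℂ a) (X : ℝ) {z : ℂ} (hz : z.re = 1 / 2) (v : ℝ) :
    Fb ψ X z 0 v = 0 := by
  unfold Fb
  rw [Nat.cast_zero (R := ℂ), Complex.zero_cpow, mul_zero, zero_mul]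
  intro h
  have := congrArg Complex.re h
  simp [hz] at this
  norm_num at this

lemma Fb_norm {a : ℕ} (ψ : DirichletCharacter ℂ a) {X : ℝ} (hX : 1 ≤ X) {z : ℂ}
    (hz : z.re = 1 / 2) (b : ℕ) (v : ℝ) :
    ‖Fb ψ X z b v‖ ≤ (b : ℝ) ^ (-(3 / 2) : ℝ) * (X * (16 * (1 + v ^ 2)⁻¹)) := by
  rcases Nat.eq_zero_or_pos b with rfl | hb
  · rw [Fb_zero ψ X hz, norm_zero]
    positivity
  · unfold Fb
    rw [norm_mul, norm_mul, norm_mul, norm_natCast_cpow_of_pos hb,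
      Complex.norm_cpow_eq_rpow_re_of_pos (by linarith)]
    have e1 : (-(z + (((1 : ℝ) : ℂ) + v * I))).re = -(3 / 2) := by
      simp [hz]
      norm_num
    have e2 : ((((1 : ℝ) : ℂ) + v * I)).re = 1 := by simp
    rw [e1, e2, Real.rpow_one]
    have h1 : ‖ψ (b : ZMod a)‖ ≤ 1 := DirichletCharacter.norm_le_one ψ _
    have h2 := kernel_le2 one_pos v
    have h3 : 2 * (1 / (1 : ℝ) + 1) ^ 3 * (1 + v ^ 2)⁻¹ = 16 * (1 + v ^ 2)⁻¹ := by norm_num
    rw [h3] at h2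
    have h4 : (0 : ℝ) ≤ (b : ℝ) ^ (-(3 / 2) : ℝ) := by positivity
    calc ‖ψ (b : ZMod a)‖ * (b : ℝ) ^ (-(3 / 2) : ℝ) *
          (X * ‖(2 : ℂ) / (((1 : ℝ) : ℂ) + v * I) ^ 3‖)
        ≤ 1 * (b : ℝ) ^ (-(3 / 2) : ℝ) * (X * (16 * (1 + v ^ 2)⁻¹)) := by gcongr
      _ = _ := by rw [one_mul]

lemma Fb_cont {a : ℕ} (ψ : DirichletCharacter ℂ a) {X : ℝ} (hX : 1 ≤ X) {z : ℂ}
    (hz : z.re = 1 / 2) (b : ℕ) : Continuous (Fb ψ X z b) := by
  rcases Nat.eq_zero_or_pos b with rfl | hb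
  · have : Fb ψ X z 0 = fun _ => 0 := funext fun v => Fb_zero ψ X hz v
    rw [this]
    exact continuous_const
  · unfold Fb
    have hb0 : (b : ℂ) ≠ 0 := by exact_mod_cast hb.ne'
    have hX0 : (X : ℂ) ≠ 0 := by exact_mod_cast (by linarith : X ≠ 0)
    refine (continuous_const.mul (Continuous.const_cpow (by fun_prop) (Or.inl hb0))).mul
      ((Continuous.const_cpow (by fun_prop) (Or.inl hX0)).mul (kernel_cont one_pos))

lemma Fb_int {a : ℕ} (ψ : DirichletCharacter ℂ a) {X : ℝ} (hX : 1 ≤ X) {z : ℂ}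
    (hz : z.re = 1 / 2) (b : ℕ) : Integrable (Fb ψ X z b) :=
  (((integrable_inv_one_add_sq.const_mul 16).const_mul X).const_mul
    ((b : ℝ) ^ (-(3 / 2) : ℝ))).mono' (Fb_cont ψ hX hz b).aestronglyMeasurable
    (Filter.Eventually.of_forall (Fb_norm ψ hX hz b))

lemma Fb_summable {a : ℕ} (ψ : DirichletCharacter ℂ a) {X : ℝ} (hX : 1 ≤ X) {z : ℂ}
    (hz : z.re = 1 / 2) : Summable (fun b : ℕ => ∫ v : ℝ, ‖Fb ψ X z b v‖) := by
  have h1 : Summable (fun b : ℕ => (b : ℝ) ^ (-(3 / 2) : ℝ) *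
      ∫ v : ℝ, X * (16 * (1 + v ^ 2)⁻¹)) := by
    apply Summable.mul_right
    rw [Real.summable_nat_rpow]
    norm_num
  refine Summable.of_nonneg_of_le (fun b => integral_nonneg fun v => norm_nonneg _)
    (fun b => ?_) h1
  rw [← integral_const_mul]
  exact integral_mono (Fb_int ψ hX hz b).norm
    (((integrable_inv_one_add_sq.const_mul 16).const_mul X).const_mul _)
    (fun v => Fb_norm ψ hX hz b v)

lemma Fb_tsum {a : ℕ} [NeZero a] (ψ : DirichletCharacter ℂ a) (X : ℝ) {z : ℂ}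
    (hz : z.re = 1 / 2) (v : ℝ) :
    ∑' b : ℕ, Fb ψ X z b v = LFunction ψ (z + (((1 : ℝ) : ℂ) + v * I)) *
      ((X : ℂ) ^ (((1 : ℝ) : ℂ) + v * I) * ((2 : ℂ) / (((1 : ℝ) : ℂ) + v * I) ^ 3)) := by
  unfold Fb
  rw [tsum_mul_right]
  congr 1
  have hre : (z + (((1 : ℝ) : ℂ) + v * I)).re = 3 / 2 := by
    simp [hz]
    norm_num
  rw [LFunction_eq_LSeries ψ (by rw [hre]; norm_num), LSeries]
  refine tsum_congr fun b => ?_
  rcases Nat.eq_zero_or_pos b with rfl | hb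
  · rw [LSeries.term_zero, Nat.cast_zero (R := ℂ), Complex.zero_cpow, mul_zero]
    intro h
    have := congrArg Complex.re h
    rw [neg_re, hre] at this
    norm_num at this
  · rw [LSeries.term_of_ne_zero hb.ne', Complex.cpow_neg]
    rfl

/-- The finite sum as an integral. -/
lemma sum_eq {a q : ℕ} [NeZero a] [NeZero q] (χ : DirichletCharacter ℂ q) (hqa : q ∣ a)
    {X : ℝ} (hX : 1 ≤ X) (z : ℂ) (hz : z.re = 1 / 2) :
    ∑ b ∈ (Finset.Icc 1 ⌊X⌋₊).filter (fun b => b.Coprime a),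
        ((Real.log (X / b) ^ 2 : ℝ) : ℂ) * χ (b : ZMod q) * (b : ℂ) ^ (-z) =
      (1 / (2 * Real.pi) : ℝ) • ∫ v : ℝ, LFunction (changeLevel hqa χ)
        (z + (((1 : ℝ) : ℂ) + v * I)) * ((X : ℂ) ^ (((1 : ℝ) : ℂ) + v * I) *
          ((2 : ℂ) / (((1 : ℝ) : ℂ) + v * I) ^ 3)) := by
  set ψ := changeLevel hqa χ with hψ
  have hX0 : 0 < X := by linarith
  have h1 := (hasSum_integral_of_summable_integral_norm (Fb_int ψ hX hz)
    (Fb_summable ψ hX hz)).tsum_eq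
  have h2 : ∀ b : ℕ, (1 / (2 * Real.pi) : ℝ) • ∫ v : ℝ, Fb ψ X z b v =
      ((max (Real.log (X / b)) 0 ^ 2 : ℝ) : ℂ) * ψ (b : ZMod a) * (b : ℂ) ^ (-z) := by
    intro b
    rcases Nat.eq_zero_or_pos b with rfl | hb
    · simp only [Fb_zero ψ X hz]
      simp
    · have hb0 : (b : ℂ) ≠ 0 := by exact_mod_cast hb.ne'
      have hbr : (0 : ℝ) < b := by exact_mod_cast hb
      rw [perron (div_pos hX0 hbr), smul_mul_assoc, smul_mul_assoc, mul_assoc,
        ← integral_mul_const]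
      congr 1
      refine integral_congr_ae (Filter.Eventually.of_forall fun v => ?_)
      simp only [Fb]
      have e1 : (((X / b : ℝ)) : ℂ) ^ (((1 : ℝ) : ℂ) + v * I) =
          (X : ℂ) ^ (((1 : ℝ) : ℂ) + v * I) * (b : ℂ) ^ (-(((1 : ℝ) : ℂ) + v * I)) := by
        rw [div_eq_mul_inv, Complex.ofReal_mul, Complex.mul_cpow_ofReal_nonneg hX0.le
          (by positivity), Complex.ofReal_inv, Complex.ofReal_natCast, Complex.inv_cpow _ _ (by
            rw [Complex.natCast_arg]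
            exact Real.pi_pos.ne), Complex.cpow_neg]
      have e2 : (b : ℂ) ^ (-(z + (((1 : ℝ) : ℂ) + v * I))) =
          (b : ℂ) ^ (-z) * (b : ℂ) ^ (-(((1 : ℝ) : ℂ) + v * I)) := by
        rw [← Complex.cpow_add _ _ hb0]
        congr 1
        ring
      rw [e1, e2]
      ring
  have h3 : ∑' b : ℕ, ((max (Real.log (X / b)) 0 ^ 2 : ℝ) : ℂ) * ψ (b : ZMod a) *
      (b : ℂ) ^ (-z) = (1 / (2 * Real.pi) : ℝ) • ∫ v : ℝ, ∑' b : ℕ, Fb ψ X z b v := by
    rw [← h1, ← tsum_const_smul'']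
    exact tsum_congr fun b => (h2 b).symm
  have h4 : ∀ v : ℝ, ∑' b : ℕ, Fb ψ X z b v = LFunction ψ (z + (((1 : ℝ) : ℂ) + v * I)) *
      ((X : ℂ) ^ (((1 : ℝ) : ℂ) + v * I) * ((2 : ℂ) / (((1 : ℝ) : ℂ) + v * I) ^ 3)) :=
    fun v => Fb_tsum ψ X hz v
  simp_rw [h4] at h3
  rw [← h3]
  rw [tsum_eq_sum (s := Finset.Icc 1 ⌊X⌋₊)]
  · rw [Finset.sum_filter]
    refine Finset.sum_congr rfl fun b hb => ?_
    rw [Finset.mem_Icc] at hb
    have hb0 : (0 : ℝ) < b := by exact_mod_cast hb.1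
    have hlog : 0 ≤ Real.log (X / b) := by
      apply Real.log_nonneg
      rw [le_div_iff₀ hb0, one_mul]
      exact (Nat.cast_le.2 hb.2).trans (Nat.floor_le hX0.le)
    rw [max_eq_left hlog]
    by_cases hcop : b.Coprime a
    · rw [if_pos hcop]
      have : ψ (b : ZMod a) = χ (b : ZMod q) := by
        have h5 := changeLevel_eq_cast_of_dvd χ hqa (ZMod.unitOfCoprime b hcop)
        rw [ZMod.coe_unitOfCoprime, ZMod.cast_natCast hqa] at h5
        exact h5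
      rw [this]
    · rw [if_neg hcop]
      have : ψ (b : ZMod a) = 0 := by
        apply MulChar.map_nonunit
        rwa [ZMod.isUnit_iff_coprime]
      rw [this]
      simp
  · intro b hb
    rw [Finset.mem_Icc, not_and_or] at hb
    have : max (Real.log (X / b)) 0 = 0 := by
      apply max_eq_right
      rcases hb with hb | hb
      · have : b = 0 := by omega
        subst this
        simp
      · push Not at hb
        have h5 : X < b := (Nat.floor_lt hX0.le).1 hb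
        have h6 : 0 < (b : ℝ) := by linarith
        apply Real.log_nonpos (by positivity)
        rw [div_le_one h6]
        exact h5.le
    rw [this]
    simp

end BSumAux

theorem bsum (δ : ℝ) (hδ : 0 < δ) (hδ' : δ ≤ 1 / 16) : ∃ C : ℝ, 0 < C ∧
    ∀ (a q : ℕ) [NeZero q] (χ : DirichletCharacter ℂ q), 1 ≤ a → q ∣ a → χ ≠ 1 → ∀ X ξ : ℝ, 1 ≤ X →
    ‖∑ b ∈ (Finset.Icc 1 ⌊X⌋₊).filter (fun b => b.Coprime a),
        ((Real.log (X / b) ^ 2 : ℝ) : ℂ) * χ (b : ZMod q) * (b : ℂ) ^ (-(1 / 2 + ξ * I))‖ ≤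
      C * 2 ^ a.primeFactors.card * X ^ δ *
        ∫ v : ℝ, ‖LFunction χ (1 / 2 + δ + ((ξ + v : ℝ) : ℂ) * I)‖ * ((1 + |v|) ^ 3)⁻¹ := by
  refine ⟨1 / (2 * Real.pi) * (2 * (1 / δ + 1) ^ 3), by have := Real.pi_pos; positivity, ?_⟩
  intro a q _ χ ha hqa hχ X ξ hX
  haveI : NeZero a := ⟨by omega⟩
  set z : ℂ := 1 / 2 + ξ * I with hz
  have hzre : z.re = 1 / 2 := by simp [hz]
  have hX0 : 0 < X := by linarith
  rw [sum_eq χ hqa hX z hzre]
  set ψ := changeLevel hqa χ with hψ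
  have hψ1 : ψ ≠ 1 := fun h => hχ ((changeLevel_eq_one_iff hqa).1 h)
  -- the shifted integrand
  set G : ℂ → ℂ := fun w => LFunction ψ (z + w) * ((X : ℂ) ^ w * ((2 : ℂ) / w ^ 3)) with hG
  have hX0' : (X : ℂ) ≠ 0 := by exact_mod_cast hX0.ne'
  have hU : IsOpen {w : ℂ | 0 < w.re} := isOpen_lt continuous_const continuous_re
  have hGd : DifferentiableOn ℂ G {w : ℂ | 0 < w.re} := by
    intro w hw
    have hw0 : w ≠ 0 := by
      intro h
      rw [h] at hw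
      simp at hw
    apply DifferentiableAt.differentiableWithinAt
    have d1 : DifferentiableAt ℂ (fun w : ℂ => LFunction ψ (z + w)) w :=
      ((differentiable_LFunction hψ1) (z + w)).comp w (by fun_prop)
    have d2 : DifferentiableAt ℂ (fun w : ℂ => (X : ℂ) ^ w) w :=
      differentiableAt_id.const_cpow (Or.inl hX0')
    have d3 : DifferentiableAt ℂ (fun w : ℂ => (2 : ℂ) / w ^ 3) w :=
      (differentiableAt_const _).div (by fun_prop) (pow_ne_zero 3 hw0)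
    exact d1.mul (d2.mul d3)
  have hcZ := KeZhao.cZ_nonneg
  set K : ℝ := (a * KeZhao.cZ * (4 + |ξ|)) * (X * (2 * (1 / δ + 1) ^ 3)) with hK
  have hGb : ∀ w : ℂ, δ ≤ w.re → w.re ≤ 1 → ‖G w‖ ≤ K / (1 + |w.im|) ^ 2 := by
    intro w hw1 hw2
    have hwre : 0 < w.re := by linarith
    have h1 := KeZhao.norm_LFunction_le hψ1 (s := z + w) (by
      rw [add_re, hzre]
      linarith)
    have h2 : ‖z + w‖ ≤ (4 + |ξ|) * (1 + |w.im|) := by
      have h3 := Complex.norm_le_abs_re_add_abs_im (z + w)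
      have h4 : (z + w).re = 1 / 2 + w.re := by rw [add_re, hzre]
      have h5 : (z + w).im = ξ + w.im := by simp [hz]
      rw [h4, h5, abs_of_pos (by linarith : 0 < 1 / 2 + w.re)] at h3
      have h6 := abs_add_le ξ w.im
      have h7 := abs_nonneg ξ
      have h8 := abs_nonneg w.im
      nlinarith [mul_nonneg h7 h8]
    have h9 : ‖(X : ℂ) ^ w‖ ≤ X := by
      rw [Complex.norm_cpow_eq_rpow_re_of_pos hX0]
      calc X ^ w.re ≤ X ^ (1 : ℝ) := Real.rpow_le_rpow_of_exponent_le hX hw2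
        _ = X := Real.rpow_one X
    have h10 : ‖(2 : ℂ) / w ^ 3‖ ≤ 2 * (1 / δ + 1) ^ 3 * ((1 + |w.im|) ^ 3)⁻¹ := by
      have h11 := kernel_le hwre w.im
      rw [Complex.re_add_im] at h11
      refine h11.trans ?_
      have hv := abs_nonneg w.im
      gcongr
    have hv := abs_nonneg w.im
    rw [hG]
    simp only
    rw [norm_mul, norm_mul]
    calc ‖LFunction ψ (z + w)‖ * (‖(X : ℂ) ^ w‖ * ‖(2 : ℂ) / w ^ 3‖)
        ≤ (a * ((4 + |ξ|) * (1 + |w.im|)) * KeZhao.cZ) *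
          (X * (2 * (1 / δ + 1) ^ 3 * ((1 + |w.im|) ^ 3)⁻¹)) := by
          gcongr
          refine h1.trans ?_
          gcongr
      _ = K / (1 + |w.im|) ^ 2 := by
          rw [hK]
          field_simp
  have hshift := P4f18dfS.shift_poly_on (a := δ) (b := 1) (by linarith) hU
    (fun s hs1 _ => by show 0 < s.re; linarith) hGd hGb
  have e1 : (∫ v : ℝ, LFunction ψ (z + (((1 : ℝ) : ℂ) + v * I)) *
      ((X : ℂ) ^ (((1 : ℝ) : ℂ) + v * I) * ((2 : ℂ) / (((1 : ℝ) : ℂ) + v * I) ^ 3))) =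
      ∫ v : ℝ, G ((δ : ℂ) + v * I) := hshift.symm
  rw [e1, norm_smul, Real.norm_of_nonneg (by have := Real.pi_pos; positivity)]
  -- the bound on the line
  have hline : ∀ v : ℝ, ‖G ((δ : ℂ) + v * I)‖ ≤ (2 * (1 / δ + 1) ^ 3 * 2 ^ a.primeFactors.card *
      X ^ δ) * (‖LFunction χ (1 / 2 + δ + ((ξ + v : ℝ) : ℂ) * I)‖ * ((1 + |v|) ^ 3)⁻¹) := by
    intro v
    have e2 : z + ((δ : ℂ) + v * I) = 1 / 2 + δ + ((ξ + v : ℝ) : ℂ) * I := by
      rw [hz]
      push_cast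
      ring
    have e3 : LFunction ψ (1 / 2 + δ + ((ξ + v : ℝ) : ℂ) * I) =
        LFunction χ (1 / 2 + δ + ((ξ + v : ℝ) : ℂ) * I) *
        ∏ p ∈ a.primeFactors, (1 - χ p * (p : ℂ) ^ (-(1 / 2 + (δ : ℂ) +
          ((ξ + v : ℝ) : ℂ) * I))) :=
      LFunction_changeLevel hqa χ (Or.inl hχ)
    have hprod : ‖∏ p ∈ a.primeFactors, (1 - χ p * (p : ℂ) ^ (-(1 / 2 + (δ : ℂ) +
          ((ξ + v : ℝ) : ℂ) * I)))‖ ≤ 2 ^ a.primeFactors.card := by
      rw [norm_prod, ← Finset.prod_const]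
      refine Finset.prod_le_prod (fun _ _ => norm_nonneg _) fun p hp => ?_
      have hpp := Nat.prime_of_mem_primeFactors hp
      refine (norm_sub_le _ _).trans ?_
      rw [norm_one, norm_mul, norm_natCast_cpow_of_pos hpp.pos]
      have h1 : ‖χ (p : ZMod q)‖ ≤ 1 := DirichletCharacter.norm_le_one χ _
      have h2 : (p : ℝ) ^ (-(1 / 2 + (δ : ℂ) + ((ξ + v : ℝ) : ℂ) * I)).re ≤ 1 := by
        apply Real.rpow_le_one_of_one_le_of_nonpos (by exact_mod_cast hpp.one_lt.le)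
        simp
        linarith
      have h3 : 0 ≤ (p : ℝ) ^ (-(1 / 2 + (δ : ℂ) + ((ξ + v : ℝ) : ℂ) * I)).re := by positivity
      have h4 : ‖χ (p : ZMod q)‖ * (p : ℝ) ^ (-(1 / 2 + (δ : ℂ) + ((ξ + v : ℝ) : ℂ) * I)).re ≤
          1 * 1 := mul_le_mul h1 h2 h3 zero_le_one
      linarith
    have h9 : ‖(X : ℂ) ^ ((δ : ℂ) + v * I)‖ = X ^ δ := by
      rw [Complex.norm_cpow_eq_rpow_re_of_pos hX0]
      simp
    have h10 := kernel_le hδ v
    have hv := abs_nonneg v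
    rw [hG]
    simp only
    rw [e2, e3, norm_mul, norm_mul, norm_mul, h9]
    calc ‖LFunction χ (1 / 2 + δ + ((ξ + v : ℝ) : ℂ) * I)‖ *
          ‖∏ p ∈ a.primeFactors, (1 - χ p * (p : ℂ) ^ (-(1 / 2 + (δ : ℂ) +
          ((ξ + v : ℝ) : ℂ) * I)))‖ * (X ^ δ * ‖(2 : ℂ) / ((δ : ℂ) + v * I) ^ 3‖)
        ≤ ‖LFunction χ (1 / 2 + δ + ((ξ + v : ℝ) : ℂ) * I)‖ * 2 ^ a.primeFactors.card *
          (X ^ δ * (2 * (1 / δ + 1) ^ 3 * ((1 + |v|) ^ 3)⁻¹)) := by gcongr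
      _ = _ := by ring
  have hint := (bsum_integrable χ hχ hδ ξ).const_mul (2 * (1 / δ + 1) ^ 3 *
    2 ^ a.primeFactors.card * X ^ δ)
  have hfin : ‖∫ v : ℝ, G ((δ : ℂ) + v * I)‖ ≤ (2 * (1 / δ + 1) ^ 3 * 2 ^ a.primeFactors.card *
      X ^ δ) * ∫ v : ℝ, ‖LFunction χ (1 / 2 + δ + ((ξ + v : ℝ) : ℂ) * I)‖ *
        ((1 + |v|) ^ 3)⁻¹ := by
    rw [← integral_const_mul]
    exact norm_integral_le_of_norm_le hint (Filter.Eventually.of_forall hline)
  have hpi : 0 ≤ 1 / (2 * Real.pi) := by have := Real.pi_pos; positivity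
  calc 1 / (2 * Real.pi) * ‖∫ v : ℝ, G ((δ : ℂ) + v * I)‖
      ≤ 1 / (2 * Real.pi) * ((2 * (1 / δ + 1) ^ 3 * 2 ^ a.primeFactors.card *
      X ^ δ) * ∫ v : ℝ, ‖LFunction χ (1 / 2 + δ + ((ξ + v : ℝ) : ℂ) * I)‖ *
        ((1 + |v|) ^ 3)⁻¹) := mul_le_mul_of_nonneg_left hfin hpi
    _ = _ := by ring

end Pool.Agent.P07318m
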