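import Pool.Agent.Lib.P07318m.Defs
import Pool.Agent.Lib.P07318m.BHarm
import Pool.Agent.Lib.P07318m.ESum
import Pool.Agent.Lib.P07318m.Mom

/-!
# P07318m.S2Up: upper bound for the diagonal sum of the denominator

For `(a,b) ∈ PS Y` put `λ = log(Y/(ab)) ≥ 0`, `ℓ = log a ≥ 0`, `λ' = lp(Y e^{-D}/(ab)) = max(λ-D,0)`. Then
`Ph Y D a b = λ² + ℓ λ~`, `λ~ = (λ²-λ'²)/(2D)`, and `0 ≤ λ~ ≤ λ`, `λ - D/2 ≤ λ~` (`ph_bounds`: if `λ ≥ D`: `λ~ = λ - D/2`; if `λ ≤ D`: `λ~ = λ²/(2D)`).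
So `0 ≤ Ph ≤ λ² + ℓλ`, `Ph² ≤ λ^4 + 2ℓλ^3 + ℓ²λ²`.
`PS Y` is the set of pairs with `a ≤ √Y`, `b ≤ Y/a`, `(b,a) = 1` (`a² ≤ Y` iff `a ≤ √Y`): `ps_sum` rewrites sums over `PS Y` as iterated sums.
Sum over `b` with `b_harm` (`X = Y/a ≥ √Y ≥ 1`, `log X = N = L - ℓ`, `j = 4,3,2`):
`S2 ≤ ∑_{a≤√Y} (hh²/a) [ (φ/a)(N^5/5 + 2ℓN^4/4 + ℓ²N^3/3) + C Ea(a) (1+L)^4 ]`, then `f2_sum` and `e_sum`.
-/

set_option autoImplicit false

open MeasureTheory Complex Filter Topology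

namespace Pool.Agent.P07318m

namespace S2UpAux

lemma mem_ps {Y : ℝ} (hY : 1 ≤ Y) (p : ℕ × ℕ) : p ∈ PS Y ↔
    p.1 ∈ Finset.Icc 1 ⌊Real.sqrt Y⌋₊ ∧
      p.2 ∈ (Finset.Icc 1 ⌊Y / p.1⌋₊).filter (fun b => b.Coprime p.1) := by
  have hY0 : (0 : ℝ) ≤ Y := by linarith
  unfold PS
  rw [Finset.mem_filter, Finset.mem_product, Finset.mem_Icc, Finset.mem_Icc, Finset.mem_Icc,
    Finset.mem_filter, Finset.mem_Icc]
  constructor
  · rintro ⟨⟨⟨h1, h2⟩, h3, h4⟩, h5, h6, h7⟩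
    have h1' : (0 : ℝ) < p.1 := by exact_mod_cast h1
    refine ⟨⟨h1, ?_⟩, ⟨h3, ?_⟩, h5.symm⟩
    · apply Nat.le_floor
      exact Real.le_sqrt_of_sq_le h6
    · apply Nat.le_floor
      rw [le_div_iff₀ h1']
      linarith
  · rintro ⟨⟨h1, h2⟩, ⟨h3, h4⟩, h5⟩
    have h1' : (1 : ℝ) ≤ p.1 := by exact_mod_cast h1
    have h3' : (1 : ℝ) ≤ p.2 := by exact_mod_cast h3
    have h2' : (p.1 : ℝ) ≤ Real.sqrt Y :=
      (Nat.cast_le.mpr h2).trans (Nat.floor_le (Real.sqrt_nonneg _))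
    have h4' : (p.2 : ℝ) ≤ Y / p.1 :=
      (Nat.cast_le.mpr h4).trans (Nat.floor_le (by positivity))
    have h6 : (p.1 : ℝ) ^ 2 ≤ Y := by
      calc (p.1 : ℝ) ^ 2 ≤ Real.sqrt Y ^ 2 := pow_le_pow_left₀ (by linarith) h2' 2
        _ = Y := Real.sq_sqrt hY0
    have h7 : (p.1 : ℝ) * p.2 ≤ Y := by
      rw [le_div_iff₀ (by linarith)] at h4'
      linarith
    refine ⟨⟨⟨h1, ?_⟩, h3, ?_⟩, h5.symm, h6, h7⟩
    · apply Nat.le_floor
      nlinarith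
    · apply Nat.le_floor
      nlinarith

end S2UpAux

open S2UpAux

theorem ps_sum {Y : ℝ} (hY : 1 ≤ Y) (f : ℕ → ℕ → ℝ) :
    ∑ p ∈ PS Y, f p.1 p.2 = ∑ a ∈ Finset.Icc 1 ⌊Real.sqrt Y⌋₊,
      ∑ b ∈ (Finset.Icc 1 ⌊Y / a⌋₊).filter (fun b => b.Coprime a), f a b := by
  rw [Finset.sum_sigma']
  refine Finset.sum_bij' (fun p _ => (⟨p.1, p.2⟩ : (_ : ℕ) × ℕ)) (fun s _ => (s.1, s.2)) ?_ ?_ ?_ ?_ ?_
  · intro p hp
    rw [Finset.mem_sigma]
    exact (mem_ps hY p).mp hp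
  · intro s hs
    rw [Finset.mem_sigma] at hs
    exact (mem_ps hY (s.1, s.2)).mpr hs
  · intro p _
    rfl
  · intro s _
    rfl
  · intro p _
    rfl

theorem ph_bounds {Y D : ℝ} (hD : 0 < D) {p : ℕ × ℕ} (hp : p ∈ PS Y) :
    0 ≤ Ph Y D p.1 p.2 ∧
    Ph Y D p.1 p.2 ≤ Real.log (Y / (p.1 * p.2)) ^ 2 + Real.log p.1 * Real.log (Y / (p.1 * p.2)) ∧
    Real.log (Y / (p.1 * p.2)) ^ 2 + Real.log p.1 * (Real.log (Y / (p.1 * p.2)) - D / 2) ≤ Ph Y D p.1 p.2 := by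
  unfold PS at hp
  rw [Finset.mem_filter, Finset.mem_product, Finset.mem_Icc, Finset.mem_Icc] at hp
  obtain ⟨⟨⟨h1, -⟩, h3, -⟩, -, -, h7⟩ := hp
  have h1' : (1 : ℝ) ≤ p.1 := by exact_mod_cast h1
  have h3' : (1 : ℝ) ≤ p.2 := by exact_mod_cast h3
  have hab : (0 : ℝ) < (p.1 : ℝ) * p.2 := by positivity
  have hx : 1 ≤ Y / ((p.1 : ℝ) * p.2) := by
    rw [le_div_iff₀ hab]
    linarith
  have hx0 : 0 < Y / ((p.1 : ℝ) * p.2) := by linarith
  have hlam := Real.log_nonneg hx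
  have hell := Real.log_nonneg h1'
  have e1 : lp (Y / (p.1 * p.2)) = Real.log (Y / (p.1 * p.2)) := by
    unfold lp
    exact max_eq_left hlam
  have e2 : lp (Y * Real.exp (-D) / (p.1 * p.2)) = max (Real.log (Y / (p.1 * p.2)) - D) 0 := by
    unfold lp
    have : Y * Real.exp (-D) / ((p.1 : ℝ) * p.2) = Y / (p.1 * p.2) * Real.exp (-D) := by ring
    rw [this, Real.log_mul hx0.ne' (Real.exp_pos _).ne', Real.log_exp]
    rfl
  unfold Ph
  rw [e1, e2]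
  obtain ⟨lam, hl⟩ : ∃ lam : ℝ, lam = Real.log (Y / (p.1 * p.2)) := ⟨_, rfl⟩
  obtain ⟨ell, he⟩ : ∃ ell : ℝ, ell = Real.log p.1 := ⟨_, rfl⟩
  rw [← hl, ← he]
  rw [← hl] at hlam
  rw [← he] at hell
  have e3 : (1 + ell / (2 * D)) * lam ^ 2 - ell / (2 * D) * max (lam - D) 0 ^ 2 =
      lam ^ 2 + ell * ((lam ^ 2 - max (lam - D) 0 ^ 2) / (2 * D)) := by
    field_simp
    ring
  rw [e3]
  have hkey : 0 ≤ (lam ^ 2 - max (lam - D) 0 ^ 2) / (2 * D) ∧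
      (lam ^ 2 - max (lam - D) 0 ^ 2) / (2 * D) ≤ lam ∧
      lam - D / 2 ≤ (lam ^ 2 - max (lam - D) 0 ^ 2) / (2 * D) := by
    rcases le_total D lam with h | h
    · have e4 : max (lam - D) 0 = lam - D := max_eq_left (by linarith)
      have e5 : (lam ^ 2 - (lam - D) ^ 2) / (2 * D) = lam - D / 2 := by
        field_simp
        ring
      rw [e4, e5]
      refine ⟨by linarith, by linarith, le_rfl⟩
    · have e4 : max (lam - D) 0 = 0 := max_eq_right (by linarith)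
      rw [e4]
      have h2D : 0 < 2 * D := by linarith
      refine ⟨div_nonneg (by nlinarith [sq_nonneg lam]) h2D.le, ?_, ?_⟩
      · rw [div_le_iff₀ h2D]
        nlinarith
      · rw [le_div_iff₀ h2D]
        nlinarith [sq_nonneg (lam - D)]
  obtain ⟨k1, k2, k3⟩ := hkey
  have m1 := mul_nonneg hell k1
  have m2 := mul_le_mul_of_nonneg_left k2 hell
  have m3 := mul_le_mul_of_nonneg_left k3 hell
  have m0 : 0 ≤ lam ^ 2 := sq_nonneg _
  refine ⟨by linarith, by linarith, by linarith⟩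

namespace S2UpAux

/-- The sums over `b`. -/
noncomputable def Tj (j : ℕ) (Y : ℝ) (a : ℕ) : ℝ :=
  ∑ b ∈ (Finset.Icc 1 ⌊Y / a⌋₊).filter (fun b => b.Coprime a), (1 / (b : ℝ)) * Real.log (Y / a / b) ^ j

lemma Ea_nonneg (a : ℕ) : 0 ≤ Ea a := by
  unfold Ea
  refine Finset.sum_nonneg fun d _ => ?_
  have := Real.log_natCast_nonneg d
  positivity

lemma sum_E : ∃ C : ℝ, 0 < C ∧ ∀ Y : ℝ, 1 ≤ Y →
    ∑ a ∈ Finset.Icc 1 ⌊Real.sqrt Y⌋₊, hh a ^ 2 / a * (1 + Ea a) ≤ C * (1 + Real.log Y) ^ 4 := by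
  obtain ⟨C, hC, h⟩ := e_sum
  refine ⟨C, hC, fun Y hY => ?_⟩
  have hs : 1 ≤ Real.sqrt Y := Real.one_le_sqrt.mpr hY
  have h1 := h (Real.sqrt Y) hs
  have h2 : Real.log (Real.sqrt Y) ≤ Real.log Y := by
    rw [Real.log_sqrt (by linarith)]
    have := Real.log_nonneg hY
    linarith
  have h3 : 0 ≤ Real.log (Real.sqrt Y) := Real.log_nonneg hs
  have h4 : C * (1 + Real.log (Real.sqrt Y)) ^ 4 ≤ C * (1 + Real.log Y) ^ 4 :=
    mul_le_mul_of_nonneg_left (pow_le_pow_left₀ (by linarith) (by linarith) 4) hC.le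
  refine le_trans (Finset.sum_le_sum fun a _ => ?_) (h1.trans h4)
  apply mul_le_mul_of_nonneg_left _ (by positivity)
  have := dl_nonneg a
  linarith

lemma tj_bound (j : ℕ) (hj : 1 ≤ j) : ∃ C : ℝ, 0 < C ∧ ∀ (Y : ℝ) (a : ℕ), 1 ≤ Y →
    a ∈ Finset.Icc 1 ⌊Real.sqrt Y⌋₊ →
    |Tj j Y a - (a.totient : ℝ) / a * ((Real.log Y - Real.log a) ^ (j + 1) / (j + 1))| ≤
      C * Ea a * (1 + Real.log Y) ^ j := by
  obtain ⟨C, hC, h⟩ := b_harm j hj
  refine ⟨C, hC, fun Y a hY ha => ?_⟩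
  rw [Finset.mem_Icc] at ha
  have ha1 : (1 : ℝ) ≤ a := by exact_mod_cast ha.1
  have ha2 : (a : ℝ) ≤ Real.sqrt Y :=
    (Nat.cast_le.mpr ha.2).trans (Nat.floor_le (Real.sqrt_nonneg _))
  have ha3 : (a : ℝ) ≤ Y := by
    refine ha2.trans ?_
    rw [Real.sqrt_le_left (by linarith)]
    nlinarith
  have hX : 1 ≤ Y / a := by
    rw [le_div_iff₀ (by linarith)]
    linarith
  have hl : Real.log (Y / a) = Real.log Y - Real.log a :=
    Real.log_div (by linarith) (by linarith)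
  have h1 := h a (Y / a) ha.1 hX
  rw [hl] at h1
  refine h1.trans ?_
  have hla := Real.log_nonneg ha1
  have h2 : 0 ≤ Real.log Y - Real.log a := by
    rw [← hl]
    exact Real.log_nonneg hX
  apply mul_le_mul_of_nonneg_left _ (mul_nonneg hC.le (Ea_nonneg a))
  exact pow_le_pow_left₀ (by linarith) (by linarith) j

lemma log_le_of_mem {Y : ℝ} (hY : 1 ≤ Y) {a : ℕ} (ha : a ∈ Finset.Icc 1 ⌊Real.sqrt Y⌋₊) :
    0 ≤ Real.log a ∧ 2 * Real.log a ≤ Real.log Y := by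
  rw [Finset.mem_Icc] at ha
  have ha1 : (1 : ℝ) ≤ a := by exact_mod_cast ha.1
  have ha2 : (a : ℝ) ≤ Real.sqrt Y :=
    (Nat.cast_le.mpr ha.2).trans (Nat.floor_le (Real.sqrt_nonneg _))
  refine ⟨Real.log_nonneg ha1, ?_⟩
  have h := Real.log_le_log (by linarith) ha2
  rw [Real.log_sqrt (by linarith)] at h
  linarith

/-- a power of `1 + log Y` of exponent 8 is small -/
lemma small_pow (K : ℝ) {ε : ℝ} (hε : 0 < ε) : ∀ᶠ Y : ℝ in atTop,
    K * (1 + Real.log Y) ^ 8 ≤ ε * Real.log Y ^ 9 := by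
  have h1 : Tendsto (fun Y : ℝ => Real.log Y) atTop atTop := Real.tendsto_log_atTop
  filter_upwards [h1.eventually (eventually_ge_atTop (1 : ℝ)),
    h1.eventually (eventually_ge_atTop (|K| * 2 ^ 8 / ε))] with Y h2 h3
  have hL : 0 < Real.log Y := by linarith
  have h4 : (1 + Real.log Y) ^ 8 ≤ (2 * Real.log Y) ^ 8 :=
    pow_le_pow_left₀ (by linarith) (by linarith) 8
  have h5 : |K| * 2 ^ 8 ≤ Real.log Y * ε := by
    rwa [div_le_iff₀ hε] at h3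
  calc K * (1 + Real.log Y) ^ 8 ≤ |K| * (1 + Real.log Y) ^ 8 :=
        mul_le_mul_of_nonneg_right (le_abs_self K) (by positivity)
    _ ≤ |K| * (2 * Real.log Y) ^ 8 := mul_le_mul_of_nonneg_left h4 (abs_nonneg K)
    _ = |K| * 2 ^ 8 * Real.log Y ^ 8 := by
        rw [mul_pow]
        ring
    _ ≤ Real.log Y * ε * Real.log Y ^ 8 := mul_le_mul_of_nonneg_right h5 (by positivity)
    _ = ε * Real.log Y ^ 9 := by ring

end S2UpAux

theorem s2_up (ε : ℝ) (hε : 0 < ε) : ∀ᶠ Y : ℝ in atTop, ∀ D : ℝ, 0 < D →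
    S2 Y D ≤ (833 / 16 * (a3 / (Nat.factorial 9 : ℝ)) + ε) * Real.log Y ^ 9 := by
  obtain ⟨C4, hC4, h4⟩ := tj_bound 4 (by norm_num)
  obtain ⟨C3, hC3, h3⟩ := tj_bound 3 (by norm_num)
  obtain ⟨C2, hC2, h2⟩ := tj_bound 2 (by norm_num)
  obtain ⟨C, hC, hE⟩ := sum_E
  filter_upwards [f2_sum (ε / 2) (half_pos hε), small_pow ((C4 + 2 * C3 + C2) * C) (half_pos hε),
    eventually_ge_atTop (1 : ℝ)] with Y hF hS hY
  intro D hD
  have hL : 0 ≤ Real.log Y := Real.log_nonneg hY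
  have step1 : S2 Y D ≤ ∑ p ∈ PS Y, hh p.1 ^ 2 / ((p.1 : ℝ) * (p.2 : ℝ)) *
      (Real.log (Y / (p.1 * p.2)) ^ 2 + Real.log p.1 * Real.log (Y / (p.1 * p.2))) ^ 2 := by
    unfold S2
    refine Finset.sum_le_sum fun p hp => ?_
    obtain ⟨b1, b2, -⟩ := ph_bounds hD hp
    apply mul_le_mul_of_nonneg_left _ (by positivity)
    exact pow_le_pow_left₀ b1 b2 2
  refine step1.trans ?_
  rw [ps_sum hY (fun a b => hh a ^ 2 / ((a : ℝ) * (b : ℝ)) *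
      (Real.log (Y / (a * b)) ^ 2 + Real.log a * Real.log (Y / (a * b))) ^ 2)]
  have step2 : ∀ a ∈ Finset.Icc 1 ⌊Real.sqrt Y⌋₊,
      ∑ b ∈ (Finset.Icc 1 ⌊Y / a⌋₊).filter (fun b => b.Coprime a), hh a ^ 2 / ((a : ℝ) * (b : ℝ)) *
        (Real.log (Y / (a * b)) ^ 2 + Real.log a * Real.log (Y / (a * b))) ^ 2 ≤
      hh a ^ 2 * (a.totient : ℝ) / (a : ℝ) ^ 2 *
        ((Real.log Y - Real.log a) ^ 5 / 5 + Real.log a * (Real.log Y - Real.log a) ^ 4 / 2 +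
          Real.log a ^ 2 * (Real.log Y - Real.log a) ^ 3 / 3) +
      (C4 + 2 * C3 + C2) * (1 + Real.log Y) ^ 4 * (hh a ^ 2 / a * (1 + Ea a)) := by
    intro a ha
    obtain ⟨l1, l2⟩ := log_le_of_mem hY ha
    have ha1 : (1 : ℝ) ≤ a := by
      rw [Finset.mem_Icc] at ha
      exact_mod_cast ha.1
    have e : ∑ b ∈ (Finset.Icc 1 ⌊Y / a⌋₊).filter (fun b => b.Coprime a),
        hh a ^ 2 / ((a : ℝ) * (b : ℝ)) *
        (Real.log (Y / (a * b)) ^ 2 + Real.log a * Real.log (Y / (a * b))) ^ 2 =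
        hh a ^ 2 / a * (Tj 4 Y a + 2 * Real.log a * Tj 3 Y a + Real.log a ^ 2 * Tj 2 Y a) := by
      unfold Tj
      rw [Finset.mul_sum, Finset.mul_sum, ← Finset.sum_add_distrib, ← Finset.sum_add_distrib,
        Finset.mul_sum]
      refine Finset.sum_congr rfl fun b _ => ?_
      rw [← div_div Y, div_mul_eq_div_div]
      ring
    rw [e]
    have b4 := (abs_le.mp (h4 Y a hY ha)).2
    have b3 := (abs_le.mp (h3 Y a hY ha)).2
    have b2 := (abs_le.mp (h2 Y a hY ha)).2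
    have hEa := Ea_nonneg a
    have hL1 : 1 ≤ 1 + Real.log Y := by linarith
    set E1 : ℝ := Ea a * (1 + Real.log Y) ^ 4 with hE1
    have hE10 : 0 ≤ E1 := by positivity
    have c3 : Real.log a * (C3 * Ea a * (1 + Real.log Y) ^ 3) ≤ C3 * E1 := by
      have : Real.log a ≤ 1 + Real.log Y := by linarith
      calc Real.log a * (C3 * Ea a * (1 + Real.log Y) ^ 3) ≤
            (1 + Real.log Y) * (C3 * Ea a * (1 + Real.log Y) ^ 3) :=
            mul_le_mul_of_nonneg_right this (by positivity)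
        _ = C3 * E1 := by
            rw [hE1]
            ring
    have c2 : Real.log a ^ 2 * (C2 * Ea a * (1 + Real.log Y) ^ 2) ≤ C2 * E1 := by
      have : Real.log a ^ 2 ≤ (1 + Real.log Y) ^ 2 :=
        pow_le_pow_left₀ l1 (by linarith) 2
      calc Real.log a ^ 2 * (C2 * Ea a * (1 + Real.log Y) ^ 2) ≤
            (1 + Real.log Y) ^ 2 * (C2 * Ea a * (1 + Real.log Y) ^ 2) :=
            mul_le_mul_of_nonneg_right this (by positivity)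
        _ = C2 * E1 := by
            rw [hE1]
            ring
    set φ : ℝ := (a.totient : ℝ) / a with hφ
    set N : ℝ := Real.log Y - Real.log a with hN
    have d3 : Real.log a * Tj 3 Y a ≤ Real.log a * (φ * (N ^ (3 + 1) / ((3 : ℕ) + 1))) +
        C3 * E1 := by
      have := mul_le_mul_of_nonneg_left b3 l1
      linarith
    have d2 : Real.log a ^ 2 * Tj 2 Y a ≤ Real.log a ^ 2 * (φ * (N ^ (2 + 1) / ((2 : ℕ) + 1))) +
        C2 * E1 := by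
      have := mul_le_mul_of_nonneg_left b2 (sq_nonneg (Real.log a))
      linarith
    have d4 : Tj 4 Y a ≤ φ * (N ^ (4 + 1) / ((4 : ℕ) + 1)) + C4 * E1 := by
      rw [hE1]
      linarith
    have dall : Tj 4 Y a + 2 * Real.log a * Tj 3 Y a + Real.log a ^ 2 * Tj 2 Y a ≤
        φ * (N ^ 5 / 5 + Real.log a * N ^ 4 / 2 + Real.log a ^ 2 * N ^ 3 / 3) +
          (C4 + 2 * C3 + C2) * E1 := by
      push_cast at d2 d3 d4
      norm_num at d2 d3 d4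
      linarith
    have hw : 0 ≤ hh a ^ 2 / a := by positivity
    have := mul_le_mul_of_nonneg_left dall hw
    refine this.trans ?_
    have e5 : hh a ^ 2 / a * (φ * (N ^ 5 / 5 + Real.log a * N ^ 4 / 2 + Real.log a ^ 2 * N ^ 3 / 3) +
          (C4 + 2 * C3 + C2) * E1) = hh a ^ 2 * (a.totient : ℝ) / (a : ℝ) ^ 2 *
        (N ^ 5 / 5 + Real.log a * N ^ 4 / 2 + Real.log a ^ 2 * N ^ 3 / 3) +
        (C4 + 2 * C3 + C2) * (1 + Real.log Y) ^ 4 * (hh a ^ 2 / a * Ea a) := by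
      rw [hφ, hE1]
      ring
    rw [e5]
    have h7 : hh a ^ 2 / a * Ea a ≤ hh a ^ 2 / a * (1 + Ea a) :=
      mul_le_mul_of_nonneg_left (by linarith) hw
    have h8 : 0 ≤ (C4 + 2 * C3 + C2) * (1 + Real.log Y) ^ 4 := by positivity
    have := mul_le_mul_of_nonneg_left h7 h8
    linarith
  refine (Finset.sum_le_sum step2).trans ?_
  rw [Finset.sum_add_distrib, ← Finset.mul_sum]
  have hE' := mul_le_mul_of_nonneg_left (hE Y hY)
    (show 0 ≤ (C4 + 2 * C3 + C2) * (1 + Real.log Y) ^ 4 by positivity)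
  have e6 : (C4 + 2 * C3 + C2) * (1 + Real.log Y) ^ 4 * (C * (1 + Real.log Y) ^ 4) =
      (C4 + 2 * C3 + C2) * C * (1 + Real.log Y) ^ 8 := by ring
  rw [e6] at hE'
  have e7 : (833 / 16 * (a3 / (Nat.factorial 9 : ℝ)) + ε) * Real.log Y ^ 9 =
      (833 / 16 * (a3 / (Nat.factorial 9 : ℝ)) + ε / 2) * Real.log Y ^ 9 +
        ε / 2 * Real.log Y ^ 9 := by ring
  rw [e7]
  linarith

end Pool.Agent.P07318m
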