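import Pool.Agent.Lib.P07318m.Defs
import Pool.Agent.Lib.P07318m.DAux
import Pool.Agent.Lib.P07318m.ESum
import Pool.Agent.Lib.P07318m.S2Up

/-!
# P07318m.CSum: crude bounds for sums over the test function

`Y ≥ 1`, `D > 0`, `L = log Y`. `ph_bounds` gives `0 ≤ Ph ≤ λ² + ℓλ ≤ 2L²` on `PS Y` (`0 ≤ λ, ℓ ≤ L`), `hh a ≤ C a^ε' ≤ C Y^ε'`, `L² ≤ C Y^ε'`.
`|ct| = ct = hh Ph/√(ab)`. `ps_sum` turns the sums into iterated sums `a ≤ √Y`, `b ≤ Y/a`; drop the coprimality condition.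
`csum1`: `∑_a a^{-1/2} ∑_{b≤Y/a} b^{-1/2} ≤ ∑_a a^{-1/2} 2 (Y/a)^{1/2} = 2 Y^{1/2} ∑ 1/a ≤ C Y^{1/2+ε'}`.
`csum2`: `|ct| (a/b)^{1/2} = hh Ph/b`, `∑_{a≤√Y} ∑_{b≤Y} 1/b ≤ √Y (1+L)`.
`csum3`: `|ct| a^{1/2} = hh Ph b^{-1/2}`, `∑_{a≤√Y} 2 (Y/a)^{1/2} ≤ 4 Y^{1/2} Y^{1/4}`.
`csum4`: `(hh/a) Ph b^{-1/2}`, `∑_a (1/a) 2 (Y/a)^{1/2} ≤ C Y^{1/2}(1+L)`.
`csum5`: `(hh²/(ab)) Ph (1+dl)`: `≤ 2L² ∑_a (hh²/a)(1+dl a) ∑_{b≤Y} 1/b`, `e_sum` (with `Ea ≥ 0`).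

-/

set_option autoImplicit false

open MeasureTheory Complex

namespace Pool.Agent.P07318m

open ESumAux S2UpAux

/-- Membership in `PS Y`. -/
private lemma mem_ps_c {Y : ℝ} {p : ℕ × ℕ} (hp : p ∈ PS Y) :
    1 ≤ p.1 ∧ 1 ≤ p.2 ∧ (p.1 : ℝ) ^ 2 ≤ Y ∧ (p.1 : ℝ) * (p.2 : ℝ) ≤ Y := by
  unfold PS at hp
  simp only [Finset.mem_filter, Finset.mem_product, Finset.mem_Icc] at hp
  exact ⟨hp.1.1.1, hp.1.2.1, hp.2.2.1, hp.2.2.2⟩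

private lemma ps_sum_le {Y : ℝ} (hY : 1 ≤ Y) (f : ℕ → ℕ → ℝ) (hf : ∀ a b, 0 ≤ f a b) :
    ∑ p ∈ PS Y, f p.1 p.2 ≤ ∑ a ∈ Finset.Icc 1 ⌊Real.sqrt Y⌋₊, ∑ b ∈ Finset.Icc 1 ⌊Y / a⌋₊, f a b := by
  rw [ps_sum hY f]
  refine Finset.sum_le_sum fun a _ => ?_
  exact Finset.sum_le_sum_of_subset_of_nonneg (Finset.filter_subset _ _) fun b _ _ => hf a b

private lemma sqrt_sum_nat (n : ℕ) : ∑ b ∈ Finset.Icc 1 n, (b : ℝ) ^ (-(1 / 2) : ℝ) ≤ 2 * Real.sqrt n := by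
  induction n with
  | zero => simp
  | succ n ih =>
    rw [Finset.sum_Icc_succ_top (by omega)]
    have h1 : ((n + 1 : ℕ) : ℝ) ^ (-(1 / 2) : ℝ) = 1 / Real.sqrt ((n + 1 : ℕ) : ℝ) := by
      rw [Real.rpow_neg (Nat.cast_nonneg _), ← Real.sqrt_eq_rpow, one_div]
    have hn : (0 : ℝ) ≤ n := Nat.cast_nonneg n
    have hpos : 0 < Real.sqrt ((n + 1 : ℕ) : ℝ) := Real.sqrt_pos.2 (by positivity)
    have h2 : Real.sqrt ((n + 1 : ℕ) : ℝ) ^ 2 = n + 1 := by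
      rw [Real.sq_sqrt (by positivity)]; push_cast; ring
    have h3 : Real.sqrt (n : ℝ) ^ 2 = n := Real.sq_sqrt hn
    have h4 : 0 ≤ Real.sqrt (n : ℝ) := Real.sqrt_nonneg _
    rw [h1]
    have h5 : 1 / Real.sqrt ((n + 1 : ℕ) : ℝ) ≤ 2 * (Real.sqrt ((n + 1 : ℕ) : ℝ) - Real.sqrt n) := by
      rw [div_le_iff₀ hpos]
      nlinarith [sq_nonneg (Real.sqrt ((n + 1 : ℕ) : ℝ) - Real.sqrt n)]
    linarith

private lemma sqrt_sum {x : ℝ} (hx : 0 ≤ x) : ∑ b ∈ Finset.Icc 1 ⌊x⌋₊, (b : ℝ) ^ (-(1 / 2) : ℝ) ≤ 2 * Real.sqrt x :=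
  (sqrt_sum_nat _).trans (by
    have := Real.sqrt_le_sqrt (Nat.floor_le hx)
    linarith)

private lemma sqrt_ge_one {Y : ℝ} (hY : 1 ≤ Y) : 1 ≤ Real.sqrt Y := by rw [Real.one_le_sqrt]; exact hY

private lemma sqrt_le_self' {Y : ℝ} (hY : 1 ≤ Y) : Real.sqrt Y ≤ Y := by
  have h1 := sqrt_ge_one hY
  have h2 : Real.sqrt Y * Real.sqrt Y = Y := Real.mul_self_sqrt (by linarith)
  nlinarith

private lemma log_sqrt_le {Y : ℝ} (hY : 1 ≤ Y) : Real.log (Real.sqrt Y) ≤ Real.log Y :=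
  Real.log_le_log (by linarith [sqrt_ge_one hY]) (sqrt_le_self' hY)

private lemma harm' {Y : ℝ} (hY : 1 ≤ Y) : ∑ a ∈ Finset.Icc 1 ⌊Real.sqrt Y⌋₊, (1 / (a : ℝ)) ≤ 1 + Real.log Y :=
  (harm (sqrt_ge_one hY)).trans (by linarith [log_sqrt_le hY])

private lemma harm_b {Y : ℝ} (hY : 1 ≤ Y) {a : ℕ} (ha : 1 ≤ a) :
    ∑ b ∈ Finset.Icc 1 ⌊Y / a⌋₊, (1 / (b : ℝ)) ≤ 1 + Real.log Y := by
  have ha' : (1:ℝ) ≤ a := by exact_mod_cast ha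
  have h1 : Finset.Icc 1 ⌊Y / a⌋₊ ⊆ Finset.Icc 1 ⌊Y⌋₊ :=
    Finset.Icc_subset_Icc_right (Nat.floor_mono (div_le_self (by linarith) ha'))
  exact (Finset.sum_le_sum_of_subset_of_nonneg h1 fun b _ _ => by positivity).trans (harm hY)

/-- Bounds for `Ph`, `hh` on `PS Y`. -/
private lemma ph_crude {Y D : ℝ} (hY : 1 ≤ Y) (hD : 0 < D) {p : ℕ × ℕ} (hp : p ∈ PS Y) :
    0 ≤ Ph Y D p.1 p.2 ∧ Ph Y D p.1 p.2 ≤ 2 * Real.log Y ^ 2 := by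
  obtain ⟨b1, b2, _⟩ := ph_bounds hD hp
  obtain ⟨m1, m2, m3, m4⟩ := mem_ps_c hp
  have a1 : (1:ℝ) ≤ p.1 := by exact_mod_cast m1
  have c1 : (1:ℝ) ≤ p.2 := by exact_mod_cast m2
  have hab : (1:ℝ) ≤ p.1 * p.2 := by nlinarith
  have hY0 : 0 < Y := by linarith
  have l1 : Real.log (Y / (p.1 * p.2)) ≤ Real.log Y :=
    Real.log_le_log (by positivity) (div_le_self hY0.le hab)
  have l0 : 0 ≤ Real.log (Y / (p.1 * p.2)) := Real.log_nonneg (by rw [le_div_iff₀ (by positivity)]; linarith)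
  have l2 : 0 ≤ Real.log p.1 := Real.log_nonneg a1
  have l3 : Real.log p.1 ≤ Real.log Y := Real.log_le_log (by linarith) (by nlinarith)
  refine ⟨b1, b2.trans ?_⟩
  nlinarith

private lemma m_bound (ε : ℝ) (hε : 0 < ε) : ∃ C : ℝ, 0 < C ∧ ∀ Y D : ℝ, 1 ≤ Y → 0 < D → ∀ p ∈ PS Y,
    hh p.1 * Ph Y D p.1 p.2 ≤ C * Y ^ ε := by
  obtain ⟨K, hK, hKle⟩ := hh_le (ε / 2) (by positivity)
  refine ⟨K * (2 * (1 / (ε / 4)) ^ 2), by positivity, fun Y D hY hD p hp => ?_⟩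
  obtain ⟨b1, b2⟩ := ph_crude hY hD hp
  obtain ⟨m1, m2, m3, m4⟩ := mem_ps_c hp
  have hY0 : 0 < Y := by linarith
  have a1 : (1:ℝ) ≤ p.1 := by exact_mod_cast m1
  have hpY : (p.1 : ℝ) ≤ Y := by nlinarith
  have h1 : hh p.1 ≤ K * Y ^ (ε / 2) := (hKle p.1 m1).trans
    (mul_le_mul_of_nonneg_left (Real.rpow_le_rpow (by positivity) hpY (by positivity)) (by linarith))
  have h2 : Real.log Y ≤ Y ^ (ε / 4) / (ε / 4) := Real.log_le_rpow_div hY0.le (by positivity)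
  have hL : 0 ≤ Real.log Y := Real.log_nonneg hY
  have h3 : Real.log Y ^ 2 ≤ (1 / (ε / 4)) ^ 2 * Y ^ (ε / 2) := by
    calc Real.log Y ^ 2 ≤ (Y ^ (ε / 4) / (ε / 4)) ^ 2 := pow_le_pow_left₀ hL h2 2
      _ = (1 / (ε / 4)) ^ 2 * (Y ^ (ε / 4)) ^ 2 := by ring
      _ = _ := by
        rw [← Real.rpow_natCast (Y ^ (ε / 4)) 2, ← Real.rpow_mul hY0.le]
        congr 2
        push_cast
        ring
  have h4 : Y ^ ε = Y ^ (ε / 2) * Y ^ (ε / 2) := by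
    rw [← Real.rpow_add hY0]; congr 1; ring
  calc hh p.1 * Ph Y D p.1 p.2 ≤ (K * Y ^ (ε / 2)) * (2 * ((1 / (ε / 4)) ^ 2 * Y ^ (ε / 2))) := by
        apply mul_le_mul h1 (by linarith) b1 (by positivity)
    _ = _ := by rw [h4]; ring

private lemma logfac (ε : ℝ) (hε : 0 < ε) {Y : ℝ} (hY : 1 ≤ Y) : 1 + Real.log Y ≤ (1 + 1 / ε) * Y ^ ε := by
  have h1 : Real.log Y ≤ Y ^ ε / ε := Real.log_le_rpow_div (by linarith) hε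
  have h2 : 1 ≤ Y ^ ε := Real.one_le_rpow hY hε.le
  have : (1 + 1 / ε) * Y ^ ε = Y ^ ε + Y ^ ε / ε := by ring
  rw [this]
  linarith

private lemma ct_abs {Y D : ℝ} (hD : 0 < D) {p : ℕ × ℕ} (hp : p ∈ PS Y) :
    |ct Y D p| = hh p.1 * Ph Y D p.1 p.2 / Real.sqrt ((p.1 : ℝ) * (p.2 : ℝ)) := by
  have h1 := (ph_bounds hD hp).1
  have h2 := hh_nonneg p.1
  unfold ct
  rw [abs_of_nonneg (by positivity)]

private lemma rpow_mhalf {x : ℝ} (hx : 0 ≤ x) : x ^ (-(1 / 2) : ℝ) = 1 / Real.sqrt x := by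
  rw [Real.rpow_neg hx, ← Real.sqrt_eq_rpow, one_div]

theorem csum1 (ε : ℝ) (hε : 0 < ε) : ∃ C : ℝ, 0 < C ∧ ∀ Y D : ℝ, 1 ≤ Y → 0 < D →
    ∑ p ∈ PS Y, |ct Y D p| ≤ C * Y ^ (1 / 2 + ε) := by
  obtain ⟨C, hC, h⟩ := m_bound (ε / 2) (by positivity)
  refine ⟨C * (2 * (1 + 1 / (ε / 2))), by positivity, fun Y D hY hD => ?_⟩
  have hY0 : 0 < Y := by linarith
  set M : ℝ := C * Y ^ (ε / 2) with hM
  have hM0 : 0 ≤ M := by positivity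
  have h1 : ∀ p ∈ PS Y, |ct Y D p| ≤ M * ((p.1 : ℝ) ^ (-(1 / 2) : ℝ) * (p.2 : ℝ) ^ (-(1 / 2) : ℝ)) := by
    intro p hp
    obtain ⟨m1, m2, m3, m4⟩ := mem_ps_c hp
    have a0 : (0:ℝ) < p.1 := by exact_mod_cast m1
    have b0 : (0:ℝ) < p.2 := by exact_mod_cast m2
    rw [ct_abs hD hp, rpow_mhalf a0.le, rpow_mhalf b0.le, Real.sqrt_mul a0.le, div_mul_div_comm, one_mul,
      mul_one_div]
    exact div_le_div_of_nonneg_right (h Y D hY hD p hp) (by positivity)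
  refine (Finset.sum_le_sum h1).trans ?_
  refine (ps_sum_le hY (fun a b => M * ((a : ℝ) ^ (-(1 / 2) : ℝ) * (b : ℝ) ^ (-(1 / 2) : ℝ)))
    (fun a b => by positivity)).trans ?_
  have h2 : ∀ a ∈ Finset.Icc 1 ⌊Real.sqrt Y⌋₊, ∑ b ∈ Finset.Icc 1 ⌊Y / a⌋₊,
      M * ((a : ℝ) ^ (-(1 / 2) : ℝ) * (b : ℝ) ^ (-(1 / 2) : ℝ)) ≤ M * (2 * Real.sqrt Y) * (1 / (a : ℝ)) := by
    intro a ha
    rw [Finset.mem_Icc] at ha
    have a0 : (0:ℝ) < a := by exact_mod_cast ha.1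
    rw [← Finset.mul_sum, ← Finset.mul_sum]
    have h3 := sqrt_sum (x := Y / a) (by positivity)
    rw [rpow_mhalf a0.le]
    have h4 : Real.sqrt (Y / a) = Real.sqrt Y / Real.sqrt a := Real.sqrt_div hY0.le _
    have h5 : Real.sqrt a * Real.sqrt a = a := Real.mul_self_sqrt a0.le
    have h6 : 0 < Real.sqrt a := Real.sqrt_pos.2 a0
    calc M * (1 / Real.sqrt a * ∑ b ∈ Finset.Icc 1 ⌊Y / a⌋₊, (b : ℝ) ^ (-(1 / 2) : ℝ))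
        ≤ M * (1 / Real.sqrt a * (2 * Real.sqrt (Y / a))) := by gcongr
      _ = M * (2 * Real.sqrt Y) * (1 / (Real.sqrt a * Real.sqrt a)) := by rw [h4]; field_simp
      _ = _ := by rw [h5]
  refine (Finset.sum_le_sum h2).trans ?_
  rw [← Finset.mul_sum]
  have h3 := (harm' hY).trans (logfac (ε / 2) (by positivity) hY)
  have h4 : Y ^ (1 / 2 + ε) = Real.sqrt Y * Y ^ (ε / 2) * Y ^ (ε / 2) := by
    rw [Real.sqrt_eq_rpow, ← Real.rpow_add hY0, ← Real.rpow_add hY0]; congr 1; ring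
  calc M * (2 * Real.sqrt Y) * ∑ a ∈ Finset.Icc 1 ⌊Real.sqrt Y⌋₊, (1 / (a : ℝ))
      ≤ M * (2 * Real.sqrt Y) * ((1 + 1 / (ε / 2)) * Y ^ (ε / 2)) := by gcongr
    _ = _ := by rw [h4, hM]; ring

theorem csum2 (ε : ℝ) (hε : 0 < ε) : ∃ C : ℝ, 0 < C ∧ ∀ Y D : ℝ, 1 ≤ Y → 0 < D →
    ∑ p ∈ PS Y, |ct Y D p| * ((p.1 : ℝ) / p.2) ^ (1 / 2 : ℝ) ≤ C * Y ^ (1 / 2 + ε) := by
  obtain ⟨C, hC, h⟩ := m_bound (ε / 2) (by positivity)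
  refine ⟨C * (1 + 1 / (ε / 2)), by positivity, fun Y D hY hD => ?_⟩
  have hY0 : 0 < Y := by linarith
  set M : ℝ := C * Y ^ (ε / 2) with hM
  have hM0 : 0 ≤ M := by positivity
  have h1 : ∀ p ∈ PS Y, |ct Y D p| * ((p.1 : ℝ) / p.2) ^ (1 / 2 : ℝ) ≤ M * (1 / (p.2 : ℝ)) := by
    intro p hp
    obtain ⟨m1, m2, m3, m4⟩ := mem_ps_c hp
    have a0 : (0:ℝ) < p.1 := by exact_mod_cast m1
    have b0 : (0:ℝ) < p.2 := by exact_mod_cast m2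
    have s1 : 0 < Real.sqrt p.1 := Real.sqrt_pos.2 a0
    have s2 : 0 < Real.sqrt p.2 := Real.sqrt_pos.2 b0
    have s3 : Real.sqrt p.2 * Real.sqrt p.2 = p.2 := Real.mul_self_sqrt b0.le
    rw [ct_abs hD hp, ← Real.sqrt_eq_rpow, Real.sqrt_mul a0.le, Real.sqrt_div a0.le]
    have e1 : hh p.1 * Ph Y D p.1 p.2 / (Real.sqrt p.1 * Real.sqrt p.2) * (Real.sqrt p.1 / Real.sqrt p.2) =
        hh p.1 * Ph Y D p.1 p.2 * (1 / (Real.sqrt p.2 * Real.sqrt p.2)) := by field_simp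
    rw [e1, s3]
    exact mul_le_mul_of_nonneg_right (h Y D hY hD p hp) (by positivity)
  refine (Finset.sum_le_sum h1).trans ?_
  refine (ps_sum_le hY (fun a b => M * (1 / (b : ℝ))) (fun a b => by positivity)).trans ?_
  have h2 : ∀ a ∈ Finset.Icc 1 ⌊Real.sqrt Y⌋₊, ∑ b ∈ Finset.Icc 1 ⌊Y / a⌋₊, M * (1 / (b : ℝ)) ≤
      M * (1 + Real.log Y) := by
    intro a ha
    rw [Finset.mem_Icc] at ha
    rw [← Finset.mul_sum]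
    exact mul_le_mul_of_nonneg_left (harm_b hY ha.1) hM0
  refine (Finset.sum_le_sum h2).trans ?_
  rw [Finset.sum_const, nsmul_eq_mul, Nat.card_Icc, Nat.add_sub_cancel]
  have hfl : ((⌊Real.sqrt Y⌋₊ : ℕ) : ℝ) ≤ Real.sqrt Y := Nat.floor_le (by positivity)
  have h4 : Y ^ (1 / 2 + ε) = Real.sqrt Y * Y ^ (ε / 2) * Y ^ (ε / 2) := by
    rw [Real.sqrt_eq_rpow, ← Real.rpow_add hY0, ← Real.rpow_add hY0]; congr 1; ring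
  have hL : 0 ≤ Real.log Y := Real.log_nonneg hY
  calc ((⌊Real.sqrt Y⌋₊ : ℕ) : ℝ) * (M * (1 + Real.log Y))
      ≤ Real.sqrt Y * (M * ((1 + 1 / (ε / 2)) * Y ^ (ε / 2))) := by
        apply mul_le_mul hfl _ (by positivity) (by positivity)
        exact mul_le_mul_of_nonneg_left (logfac (ε / 2) (by positivity) hY) hM0
    _ = _ := by rw [h4, hM]; ring

theorem csum3 (ε : ℝ) (hε : 0 < ε) : ∃ C : ℝ, 0 < C ∧ ∀ Y D : ℝ, 1 ≤ Y → 0 < D →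
    ∑ p ∈ PS Y, |ct Y D p| * (p.1 : ℝ) ^ (1 / 2 : ℝ) ≤ C * Y ^ (3 / 4 + ε) := by
  obtain ⟨C, hC, h⟩ := m_bound ε hε
  refine ⟨C * 4, by positivity, fun Y D hY hD => ?_⟩
  have hY0 : 0 < Y := by linarith
  set M : ℝ := C * Y ^ ε with hM
  have hM0 : 0 ≤ M := by positivity
  have h1 : ∀ p ∈ PS Y, |ct Y D p| * (p.1 : ℝ) ^ (1 / 2 : ℝ) ≤ M * (p.2 : ℝ) ^ (-(1 / 2) : ℝ) := by
    intro p hp
    obtain ⟨m1, m2, m3, m4⟩ := mem_ps_c hp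
    have a0 : (0:ℝ) < p.1 := by exact_mod_cast m1
    have b0 : (0:ℝ) < p.2 := by exact_mod_cast m2
    have s1 : 0 < Real.sqrt p.1 := Real.sqrt_pos.2 a0
    have s2 : 0 < Real.sqrt p.2 := Real.sqrt_pos.2 b0
    rw [ct_abs hD hp, ← Real.sqrt_eq_rpow, Real.sqrt_mul a0.le, rpow_mhalf b0.le]
    have e1 : hh p.1 * Ph Y D p.1 p.2 / (Real.sqrt p.1 * Real.sqrt p.2) * Real.sqrt p.1 =
        hh p.1 * Ph Y D p.1 p.2 * (1 / Real.sqrt p.2) := by field_simp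
    rw [e1]
    exact mul_le_mul_of_nonneg_right (h Y D hY hD p hp) (by positivity)
  refine (Finset.sum_le_sum h1).trans ?_
  refine (ps_sum_le hY (fun a b => M * (b : ℝ) ^ (-(1 / 2) : ℝ)) (fun a b => by positivity)).trans ?_
  have h2 : ∀ a ∈ Finset.Icc 1 ⌊Real.sqrt Y⌋₊, ∑ b ∈ Finset.Icc 1 ⌊Y / a⌋₊, M * (b : ℝ) ^ (-(1 / 2) : ℝ) ≤
      M * (2 * Real.sqrt Y) * (a : ℝ) ^ (-(1 / 2) : ℝ) := by
    intro a ha
    rw [Finset.mem_Icc] at ha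
    have a0 : (0:ℝ) < a := by exact_mod_cast ha.1
    rw [← Finset.mul_sum, rpow_mhalf a0.le]
    have h3 := sqrt_sum (x := Y / a) (by positivity)
    rw [Real.sqrt_div hY0.le] at h3
    calc M * ∑ b ∈ Finset.Icc 1 ⌊Y / a⌋₊, (b : ℝ) ^ (-(1 / 2) : ℝ) ≤ M * (2 * (Real.sqrt Y / Real.sqrt a)) :=
          mul_le_mul_of_nonneg_left h3 hM0
      _ = _ := by ring
  refine (Finset.sum_le_sum h2).trans ?_
  rw [← Finset.mul_sum]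
  have h3 := sqrt_sum (x := Real.sqrt Y) (by positivity)
  have h4 : Y ^ (3 / 4 + ε) = Real.sqrt Y * Real.sqrt (Real.sqrt Y) * Y ^ ε := by
    rw [Real.sqrt_eq_rpow, Real.sqrt_eq_rpow, ← Real.rpow_mul hY0.le, ← Real.rpow_add hY0, ← Real.rpow_add hY0]
    congr 1; ring
  calc M * (2 * Real.sqrt Y) * ∑ a ∈ Finset.Icc 1 ⌊Real.sqrt Y⌋₊, (a : ℝ) ^ (-(1 / 2) : ℝ)
      ≤ M * (2 * Real.sqrt Y) * (2 * Real.sqrt (Real.sqrt Y)) := by gcongr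
    _ = _ := by rw [h4, hM]; ring

theorem csum4 (ε : ℝ) (hε : 0 < ε) : ∃ C : ℝ, 0 < C ∧ ∀ Y D : ℝ, 1 ≤ Y → 0 < D →
    ∑ p ∈ PS Y, hh p.1 / p.1 * Ph Y D p.1 p.2 * (p.2 : ℝ) ^ (-(1 / 2) : ℝ) ≤ C * Y ^ (1 / 2 + ε) := by
  obtain ⟨C, hC, h⟩ := m_bound (ε / 2) (by positivity)
  refine ⟨C * (2 * (1 + 1 / (ε / 2))), by positivity, fun Y D hY hD => ?_⟩
  have hY0 : 0 < Y := by linarith
  set M : ℝ := C * Y ^ (ε / 2) with hM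
  have hM0 : 0 ≤ M := by positivity
  have h1 : ∀ p ∈ PS Y, hh p.1 / p.1 * Ph Y D p.1 p.2 * (p.2 : ℝ) ^ (-(1 / 2) : ℝ) ≤
      M * ((1 / (p.1 : ℝ)) * (p.2 : ℝ) ^ (-(1 / 2) : ℝ)) := by
    intro p hp
    obtain ⟨m1, m2, m3, m4⟩ := mem_ps_c hp
    have a0 : (0:ℝ) < p.1 := by exact_mod_cast m1
    have b0 : (0:ℝ) < p.2 := by exact_mod_cast m2
    have e1 : hh p.1 / p.1 * Ph Y D p.1 p.2 * (p.2 : ℝ) ^ (-(1 / 2) : ℝ) =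
        (hh p.1 * Ph Y D p.1 p.2) * ((1 / (p.1 : ℝ)) * (p.2 : ℝ) ^ (-(1 / 2) : ℝ)) := by ring
    rw [e1]
    exact mul_le_mul_of_nonneg_right (h Y D hY hD p hp) (by positivity)
  refine (Finset.sum_le_sum h1).trans ?_
  refine (ps_sum_le hY (fun a b => M * ((1 / (a : ℝ)) * (b : ℝ) ^ (-(1 / 2) : ℝ)))
    (fun a b => by positivity)).trans ?_
  have h2 : ∀ a ∈ Finset.Icc 1 ⌊Real.sqrt Y⌋₊, ∑ b ∈ Finset.Icc 1 ⌊Y / a⌋₊,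
      M * ((1 / (a : ℝ)) * (b : ℝ) ^ (-(1 / 2) : ℝ)) ≤ M * (2 * Real.sqrt Y) * (1 / (a : ℝ)) := by
    intro a ha
    rw [Finset.mem_Icc] at ha
    have a0 : (0:ℝ) < a := by exact_mod_cast ha.1
    have a1 : (1:ℝ) ≤ a := by exact_mod_cast ha.1
    rw [← Finset.mul_sum, ← Finset.mul_sum]
    have h3 := sqrt_sum (x := Y / a) (by positivity)
    have h4 : Real.sqrt (Y / a) ≤ Real.sqrt Y := Real.sqrt_le_sqrt (div_le_self hY0.le a1)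
    calc M * (1 / (a : ℝ) * ∑ b ∈ Finset.Icc 1 ⌊Y / a⌋₊, (b : ℝ) ^ (-(1 / 2) : ℝ))
        ≤ M * (1 / (a : ℝ) * (2 * Real.sqrt Y)) := by
          gcongr
          linarith
      _ = _ := by ring
  refine (Finset.sum_le_sum h2).trans ?_
  rw [← Finset.mul_sum]
  have h3 := (harm' hY).trans (logfac (ε / 2) (by positivity) hY)
  have h4 : Y ^ (1 / 2 + ε) = Real.sqrt Y * Y ^ (ε / 2) * Y ^ (ε / 2) := by
    rw [Real.sqrt_eq_rpow, ← Real.rpow_add hY0, ← Real.rpow_add hY0]; congr 1; ring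
  calc M * (2 * Real.sqrt Y) * ∑ a ∈ Finset.Icc 1 ⌊Real.sqrt Y⌋₊, (1 / (a : ℝ))
      ≤ M * (2 * Real.sqrt Y) * ((1 + 1 / (ε / 2)) * Y ^ (ε / 2)) := by gcongr
    _ = _ := by rw [h4, hM]; ring

theorem csum5 : ∃ C : ℝ, 0 < C ∧ ∀ Y D : ℝ, 1 ≤ Y → 0 < D →
    ∑ p ∈ PS Y, hh p.1 ^ 2 / ((p.1 : ℝ) * p.2) * Ph Y D p.1 p.2 * (1 + dl p.1) ≤ C * (1 + Real.log Y) ^ 7 := by
  obtain ⟨C, hC, h⟩ := e_sum
  refine ⟨2 * C, by positivity, fun Y D hY hD => ?_⟩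
  have hY0 : 0 < Y := by linarith
  have hL : 0 ≤ Real.log Y := Real.log_nonneg hY
  have h1 : ∀ p ∈ PS Y, hh p.1 ^ 2 / ((p.1 : ℝ) * p.2) * Ph Y D p.1 p.2 * (1 + dl p.1) ≤
      (2 * Real.log Y ^ 2) * ((hh p.1 ^ 2 / p.1 * (1 + Ea p.1 + dl p.1)) * (1 / (p.2 : ℝ))) := by
    intro p hp
    obtain ⟨m1, m2, m3, m4⟩ := mem_ps_c hp
    have a0 : (0:ℝ) < p.1 := by exact_mod_cast m1
    have b0 : (0:ℝ) < p.2 := by exact_mod_cast m2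
    obtain ⟨c1, c2⟩ := ph_crude hY hD hp
    have d0 := dl_nonneg p.1
    have e0 := Ea_nonneg p.1
    have e1 : hh p.1 ^ 2 / ((p.1 : ℝ) * p.2) * Ph Y D p.1 p.2 * (1 + dl p.1) =
        Ph Y D p.1 p.2 * ((hh p.1 ^ 2 / p.1 * (1 + dl p.1)) * (1 / (p.2 : ℝ))) := by
      field_simp
    rw [e1]
    apply mul_le_mul c2 _ (by positivity) (by positivity)
    gcongr
    linarith
  refine (Finset.sum_le_sum h1).trans ?_
  refine (ps_sum_le hY (fun a b => (2 * Real.log Y ^ 2) * ((hh a ^ 2 / a * (1 + Ea a + dl a)) * (1 / (b : ℝ))))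
    (fun a b => by
      have d0 := dl_nonneg a
      have e0 := Ea_nonneg a
      positivity)).trans ?_
  have h2 : ∀ a ∈ Finset.Icc 1 ⌊Real.sqrt Y⌋₊, ∑ b ∈ Finset.Icc 1 ⌊Y / a⌋₊,
      (2 * Real.log Y ^ 2) * ((hh a ^ 2 / a * (1 + Ea a + dl a)) * (1 / (b : ℝ))) ≤
      (2 * Real.log Y ^ 2) * (1 + Real.log Y) * (hh a ^ 2 / a * (1 + Ea a + dl a)) := by
    intro a ha
    rw [Finset.mem_Icc] at ha
    rw [← Finset.mul_sum, ← Finset.mul_sum]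
    have d0 := dl_nonneg a
    have e0 := Ea_nonneg a
    calc (2 * Real.log Y ^ 2) * ((hh a ^ 2 / a * (1 + Ea a + dl a)) * ∑ b ∈ Finset.Icc 1 ⌊Y / a⌋₊, (1 / (b : ℝ)))
        ≤ (2 * Real.log Y ^ 2) * ((hh a ^ 2 / a * (1 + Ea a + dl a)) * (1 + Real.log Y)) := by
          apply mul_le_mul_of_nonneg_left _ (by positivity)
          exact mul_le_mul_of_nonneg_left (harm_b hY ha.1) (by positivity)
      _ = _ := by ring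
  refine (Finset.sum_le_sum h2).trans ?_
  rw [← Finset.mul_sum]
  have h3 := h (Real.sqrt Y) (sqrt_ge_one hY)
  have hsl : 0 ≤ Real.log (Real.sqrt Y) := Real.log_nonneg (sqrt_ge_one hY)
  have h4 : C * (1 + Real.log (Real.sqrt Y)) ^ 4 ≤ C * (1 + Real.log Y) ^ 4 := by
    have := log_sqrt_le hY
    gcongr
  calc (2 * Real.log Y ^ 2) * (1 + Real.log Y) * ∑ a ∈ Finset.Icc 1 ⌊Real.sqrt Y⌋₊, hh a ^ 2 / a * (1 + Ea a + dl a)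
      ≤ (2 * Real.log Y ^ 2) * (1 + Real.log Y) * (C * (1 + Real.log Y) ^ 4) :=
        mul_le_mul_of_nonneg_left (h3.trans h4) (by positivity)
    _ ≤ (2 * (1 + Real.log Y) ^ 2) * (1 + Real.log Y) * (C * (1 + Real.log Y) ^ 4) := by
        gcongr
        linarith
    _ = _ := by ring

end Pool.Agent.P07318m
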