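import Pool.Agent.Lib.P07318m.Defs
import Pool.Agent.Lib.P07318m.DSum

/-!
# P07318m.DWt: the weighted sum with `sg`

`∑_{a≤√Y} g(a) sg(a) (N^3/3 + ℓ N²/2) ≤ (67/16 · a3/9! + ε) L^9` for large `Y` (`L = log Y`, `ℓ = log a`, `N = L-ℓ`, `g(a) = hh(a)²φ(a)/a²`).
PROOF. `q(ℓ) = (L-ℓ)^3/3 + ℓ(L-ℓ)²/2` is nonnegative and decreasing on `[0,L]` (`q' = -(L-ℓ)²/2 - ℓ(L-ℓ)`). With `D(x) = ∑_{a≤x} g(a) sg(a)`
partial summation gives `∑ = q(L/2) D(√Y) + ∫_0^{L/2} (-q'(u)) D(e^u) du`, and `D(e^u) ≤ (a3/180+ε') u^6` for `u ≥ u_0` (`d_sum`), `D(e^u) ≤ K` for `u ≤ u_0`.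
So `∑ ≤ (a3/180+ε') [q(L/2)(L/2)^6 + ∫_0^{L/2} (-q'(u)) u^6 du] + K·O(L³) = (a3/180+ε') · 6∫_0^{L/2} u^5 q(u) du + O(L³)`, and
`9!·(1/30)∫_0^{1/2} u^5 ((1-u)^3/3 + u(1-u)²/2) du = 67/16` (exact).
-/

set_option autoImplicit false

open MeasureTheory Complex Filter Topology

namespace Pool.Agent.P07318m

open MomAux DSumAux

namespace DWtAux

/-- The weighted coefficients. -/
noncomputable def c (k : ℕ) : ℝ := g k * sg k

lemma c_nonneg (k : ℕ) : 0 ≤ c k := mul_nonneg (g_nonneg k) (sg_nonneg k)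

lemma c_zero : c 0 = 0 := by
  unfold c g
  simp

lemma unif_up {ε : ℝ} (hε : 0 < ε) : ∃ K : ℝ, 0 ≤ K ∧ ∀ t : ℝ, 1 ≤ t →
    ∑ k ∈ Finset.Icc 1 ⌊t⌋₊, c k ≤ K + (a3 / 180 + ε) * Real.log t ^ 6 := by
  obtain ⟨x0, hx0⟩ := eventually_atTop.mp (d_sum ε hε)
  have ha := a3_pos
  refine ⟨∑ k ∈ Finset.Icc 1 ⌊max x0 1⌋₊, c k, Finset.sum_nonneg fun k _ => c_nonneg k, ?_⟩
  intro t ht
  have hlt := Real.log_nonneg ht
  rcases le_total (max x0 1) t with h | h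
  · have h1 := hx0 t ((le_max_left _ _).trans h)
    have h2 : 0 ≤ ∑ k ∈ Finset.Icc 1 ⌊max x0 1⌋₊, c k := Finset.sum_nonneg fun k _ => c_nonneg k
    have h3 : ∑ k ∈ Finset.Icc 1 ⌊t⌋₊, c k ≤ (a3 / 180 + ε) * Real.log t ^ 6 := h1
    linarith
  · have h1 : ∑ k ∈ Finset.Icc 1 ⌊t⌋₊, c k ≤ ∑ k ∈ Finset.Icc 1 ⌊max x0 1⌋₊, c k := by
      apply Finset.sum_le_sum_of_subset_of_nonneg
      · intro k hk
        rw [Finset.mem_Icc] at hk ⊢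
        exact ⟨hk.1, hk.2.trans (Nat.floor_le_floor h)⟩
      · intro k _ _
        exact c_nonneg k
    have h2 : 0 ≤ (a3 / 180 + ε) * Real.log t ^ 6 := by positivity
    linarith

/-- The deterministic inequality. -/
lemma det {K A X : ℝ} (hX : 1 ≤ X)
    (hD : ∀ t : ℝ, 1 ≤ t → ∑ k ∈ Finset.Icc 1 ⌊t⌋₊, c k ≤ K + A * Real.log t ^ 6) :
    ∑ k ∈ Finset.Icc 1 ⌊X⌋₊, c k * ((2 * Real.log X - Real.log k) ^ 3 / 3 +
      Real.log k * (2 * Real.log X - Real.log k) ^ 2 / 2) ≤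
      67 / 63 * A * Real.log X ^ 9 + 8 / 3 * K * Real.log X ^ 3 := by
  have hu := Real.log_nonneg hX
  obtain ⟨i0, a0⟩ := abel c c_zero 0 hX
  obtain ⟨i2, a2⟩ := abel c c_zero 2 hX
  obtain ⟨u, eu⟩ : ∃ u : ℝ, u = Real.log X := ⟨_, rfl⟩
  rw [← eu] at a0 a2 hu ⊢
  obtain ⟨D, eD⟩ : ∃ D : ℝ, D = ∑ k ∈ Finset.Icc 1 ⌊X⌋₊, c k := ⟨_, rfl⟩
  obtain ⟨I0, eI0⟩ : ∃ I : ℝ, I = ∫ t in (1 : ℝ)..X, (((0 : ℕ) : ℝ) + 1) * (Real.log t ^ 0 / t) *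
          ∑ k ∈ Finset.Icc 1 ⌊t⌋₊, c k := ⟨_, rfl⟩
  obtain ⟨I2, eI2⟩ : ∃ I : ℝ, I = ∫ t in (1 : ℝ)..X, (((2 : ℕ) : ℝ) + 1) * (Real.log t ^ 2 / t) *
          ∑ k ∈ Finset.Icc 1 ⌊t⌋₊, c k := ⟨_, rfl⟩
  rw [← eD, ← eI0] at a0
  rw [← eD, ← eI2] at a2
  have e1 : ∑ k ∈ Finset.Icc 1 ⌊X⌋₊, c k * ((2 * u - Real.log k) ^ 3 / 3 +
      Real.log k * (2 * u - Real.log k) ^ 2 / 2) =
      8 / 3 * u ^ 3 * D - 2 * u ^ 2 * (u ^ (0 + 1) * D - I0) + 1 / 6 * (u ^ (2 + 1) * D - I2) := by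
    rw [← a0, ← a2, eD, Finset.mul_sum, Finset.mul_sum, Finset.mul_sum,
      ← Finset.sum_sub_distrib, ← Finset.sum_add_distrib]
    refine Finset.sum_congr rfl fun k _ => ?_
    ring
  -- the integral
  have hint : 2 * u ^ 2 * I0 - 1 / 6 * I2 ≤
      2 * u ^ 2 * (K * u + A * (u ^ 7 / 7)) - 1 / 2 * (K * (u ^ 3 / 3) + A * (u ^ 9 / 9)) := by
    obtain ⟨j0, b0⟩ := int_log_pow 0 hX
    obtain ⟨j2, b2⟩ := int_log_pow 2 hX
    obtain ⟨j6, b6⟩ := int_log_pow 6 hX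
    obtain ⟨j8, b8⟩ := int_log_pow 8 hX
    rw [← eu] at b0 b2 b6 b8
    have hR : 2 * u ^ 2 * (K * u + A * (u ^ 7 / 7)) -
        1 / 2 * (K * (u ^ 3 / 3) + A * (u ^ 9 / 9)) =
        ∫ t in (1 : ℝ)..X, (((2 * u ^ 2 * K) * (Real.log t ^ 0 / t) +
          (2 * u ^ 2 * A) * (Real.log t ^ 6 / t)) -
          ((1 / 2 * K) * (Real.log t ^ 2 / t) + (1 / 2 * A) * (Real.log t ^ 8 / t))) := by
      rw [intervalIntegral.integral_sub ((j0.const_mul _).add (j6.const_mul _))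
        ((j2.const_mul _).add (j8.const_mul _)),
        intervalIntegral.integral_add (j0.const_mul _) (j6.const_mul _),
        intervalIntegral.integral_add (j2.const_mul _) (j8.const_mul _),
        intervalIntegral.integral_const_mul, intervalIntegral.integral_const_mul,
        intervalIntegral.integral_const_mul, intervalIntegral.integral_const_mul, b0, b2, b6, b8]
      push_cast
      ring
    have hLft : 2 * u ^ 2 * I0 - 1 / 6 * I2 =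
        ∫ t in (1 : ℝ)..X, ((2 * u ^ 2) * ((((0 : ℕ) : ℝ) + 1) * (Real.log t ^ 0 / t) *
          ∑ k ∈ Finset.Icc 1 ⌊t⌋₊, c k) - (1 / 6) * ((((2 : ℕ) : ℝ) + 1) * (Real.log t ^ 2 / t) *
          ∑ k ∈ Finset.Icc 1 ⌊t⌋₊, c k)) := by
      rw [intervalIntegral.integral_sub (i0.const_mul _) (i2.const_mul _),
        intervalIntegral.integral_const_mul, intervalIntegral.integral_const_mul, eI0, eI2]
    rw [hR, hLft]
    apply intervalIntegral.integral_mono_on hX ((i0.const_mul _).sub (i2.const_mul _))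
      (((j0.const_mul _).add (j6.const_mul _)).sub ((j2.const_mul _).add (j8.const_mul _)))
    intro t ht
    have ht1 : 1 ≤ t := ht.1
    have hlt := Real.log_nonneg ht1
    have hlu : Real.log t ≤ u := by
      rw [eu]
      exact Real.log_le_log (by linarith) ht.2
    have h1 := hD t ht1
    have h2 : Real.log t ^ 2 ≤ u ^ 2 := pow_le_pow_left₀ hlt hlu 2
    have h3 : 0 ≤ (2 * u ^ 2 - 1 / 2 * Real.log t ^ 2) / t := by
      apply div_nonneg _ (by linarith)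
      nlinarith [sq_nonneg u]
    have h4 := mul_le_mul_of_nonneg_left h1 h3
    have e2 : (2 * u ^ 2) * ((((0 : ℕ) : ℝ) + 1) * (Real.log t ^ 0 / t) *
          ∑ k ∈ Finset.Icc 1 ⌊t⌋₊, c k) - (1 / 6) * ((((2 : ℕ) : ℝ) + 1) * (Real.log t ^ 2 / t) *
          ∑ k ∈ Finset.Icc 1 ⌊t⌋₊, c k) = (2 * u ^ 2 - 1 / 2 * Real.log t ^ 2) / t *
          ∑ k ∈ Finset.Icc 1 ⌊t⌋₊, c k := by
      push_cast
      ring
    have e3 : ((2 * u ^ 2 * K) * (Real.log t ^ 0 / t) +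
          (2 * u ^ 2 * A) * (Real.log t ^ 6 / t)) -
          ((1 / 2 * K) * (Real.log t ^ 2 / t) + (1 / 2 * A) * (Real.log t ^ 8 / t)) =
          (2 * u ^ 2 - 1 / 2 * Real.log t ^ 2) / t * (K + A * Real.log t ^ 6) := by
      ring
    rw [e2, e3]
    exact h4
  have hDX : D ≤ K + A * u ^ 6 := by
    rw [eD, eu]
    exact hD X hX
  have h5 := mul_le_mul_of_nonneg_left hDX (show 0 ≤ 5 / 6 * u ^ 3 by positivity)
  have e4 : 8 / 3 * u ^ 3 * D - 2 * u ^ 2 * (u ^ (0 + 1) * D - I0) +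
      1 / 6 * (u ^ (2 + 1) * D - I2) = 5 / 6 * u ^ 3 * D + (2 * u ^ 2 * I0 - 1 / 6 * I2) := by
    ring
  have e5 : 67 / 63 * A * u ^ 9 + 8 / 3 * K * u ^ 3 = 5 / 6 * u ^ 3 * (K + A * u ^ 6) +
      (2 * u ^ 2 * (K * u + A * (u ^ 7 / 7)) - 1 / 2 * (K * (u ^ 3 / 3) + A * (u ^ 9 / 9))) := by
    ring
  rw [e1, e4, e5]
  linarith

end DWtAux

open DWtAux

theorem d_wt (ε : ℝ) (hε : 0 < ε) : ∀ᶠ Y : ℝ in atTop,
    ∑ a ∈ Finset.Icc 1 ⌊Real.sqrt Y⌋₊, hh a ^ 2 * (a.totient : ℝ) / (a : ℝ) ^ 2 * sg a *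
      ((Real.log Y - Real.log a) ^ 3 / 3 + Real.log a * (Real.log Y - Real.log a) ^ 2 / 2) ≤
      (67 / 16 * (a3 / (Nat.factorial 9 : ℝ)) + ε) * Real.log Y ^ 9 := by
  obtain ⟨K, hK0, hK⟩ := unif_up hε
  have hl : Tendsto (fun Y : ℝ => Real.log Y) atTop atTop := Real.tendsto_log_atTop
  filter_upwards [hl.eventually (eventually_ge_atTop (1 : ℝ)),
    hl.eventually (eventually_ge_atTop (K / ε)), eventually_ge_atTop (1 : ℝ)] with Y h1 h2 hY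
  have hX : 1 ≤ Real.sqrt Y := Real.one_le_sqrt.mpr hY
  have h3 := det hX hK
  have hlog : 2 * Real.log (Real.sqrt Y) = Real.log Y := by
    rw [Real.log_sqrt (by linarith)]
    ring
  rw [hlog] at h3
  have hlog2 : Real.log (Real.sqrt Y) = Real.log Y / 2 := Real.log_sqrt (by linarith)
  rw [hlog2] at h3
  refine le_trans h3 ?_
  have h4 : K ≤ Real.log Y * ε := by
    rwa [div_le_iff₀ hε] at h2
  obtain ⟨L, eL⟩ : ∃ L : ℝ, L = Real.log Y := ⟨_, rfl⟩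
  rw [← eL] at h1 h4 ⊢
  have hL3 : 0 < L ^ 3 := by positivity
  have hf : (Nat.factorial 9 : ℝ) = 362880 := by
    norm_num [Nat.factorial]
  rw [hf]
  have h5 : K * L ^ 3 ≤ ε * L ^ 9 := by
    have h6 : K * L ^ 3 ≤ L * ε * L ^ 3 := mul_le_mul_of_nonneg_right h4 hL3.le
    have h7 : L ^ 4 ≤ L ^ 9 := pow_le_pow_right₀ h1 (by norm_num)
    have h8 := mul_le_mul_of_nonneg_left h7 hε.le
    have h9 : L * ε * L ^ 3 = ε * L ^ 4 := by ring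
    linarith
  have h6 : 0 < ε * L ^ 9 := by positivity
  have e : 67 / 63 * (a3 / 180 + ε) * (L / 2) ^ 9 + 8 / 3 * K * (L / 2) ^ 3 =
      67 / 16 * (a3 / 362880) * L ^ 9 + 67 / 32256 * (ε * L ^ 9) + 1 / 3 * (K * L ^ 3) := by
    ring
  rw [e]
  have e2 : (67 / 16 * (a3 / 362880) + ε) * L ^ 9 =
      67 / 16 * (a3 / 362880) * L ^ 9 + ε * L ^ 9 := by ring
  rw [e2]
  linarith

end Pool.Agent.P07318m
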