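import Mathlib
import Pool.Agent.Lib.P4f18dfS.Defs

/-!
# A lower bound for the sixth moment of zeta: definitions

`wt τ Δ t = exp(-((t-τ)/Δ)^2)` is the Gaussian weight, `XF` the factor of the functional equation
(`ζ(w) = XF(w) ζ(1-w)`), both from `P4f18dfS.Defs`.

The test function is `F = X A + X^2 conj A` with `A(t) = ∑ ct(a,b) (a/b)^{-it}` over reduced fractions with `a^2 ≤ Y`,
`a b ≤ Y`.
-/

set_option autoImplicit false

open MeasureTheory Complex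

namespace Pool.Agent.P07318m

open Pool.Agent.P4f18dfS (wt XF)

/-- The analytic version of the Gaussian weight: `ga τ Δ (1/2 + i t) = wt τ Δ t`. -/
noncomputable def ga (τ Δ : ℝ) (s : ℂ) : ℂ := cexp (((s - 1 / 2 - τ * I) / Δ) ^ 2)

/-- `e(x) = exp(2 π i x)`. -/
noncomputable def ee (x : ℝ) : ℂ := cexp (2 * Real.pi * x * I)

/-- The Gaussian bump at `y = τ / 2π`. -/
noncomputable def GG (τ Δ y : ℝ) : ℝ := Real.exp (-((2 * Real.pi * y - τ) / Δ) ^ 2)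

/-- The kernel `W(Y) = ∫ w(t) X(1/2 - i t) Y^{-1/2-it} dt`. -/
noncomputable def Wf (τ Δ Y : ℝ) : ℂ :=
  ∫ t : ℝ, (wt τ Δ t : ℂ) * XF (1 / 2 - t * I) * (Y : ℂ) ^ (-(1 / 2 + t * I))

/-- The oscillatory integral `Ω(y)`. -/
noncomputable def Om (τ Δ y : ℝ) : ℂ :=
  (Real.sqrt Real.pi * Δ : ℝ) * ∫ u : ℝ, cexp ((u / 2 - Δ ^ 2 * u ^ 2 / 4 : ℝ) +
    ((τ * u - 2 * Real.pi * y * Real.exp u : ℝ) : ℂ) * I)

/-- The ternary divisor function (number of ordered factorisations into three factors). -/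
def d3 (n : ℕ) : ℕ := ∑ d ∈ n.divisors, d.divisors.card

/-- `c_a(n) / φ(a)`, the average of `e(-n b / a)` over the reduced residues `b` mod `a`. -/
noncomputable def rho (a n : ℕ) : ℝ :=
  ((ArithmeticFunction.moebius (a / n.gcd a) : ℤ) : ℝ) / ((a / n.gcd a).totient : ℝ)

/-- The multiplicative function with `h(p^v) = 1 + v (1 - 1/p)`. -/
noncomputable def hh (a : ℕ) : ℝ :=
  ∏ p ∈ a.primeFactors, (1 + (a.factorization p : ℝ) * (1 - 1 / (p : ℝ)))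

/-- The polynomial with `∑_k d3(p^{j+k}) x^k = Bp j x / (1-x)^3`. -/
noncomputable def Bp (j : ℕ) (x : ℂ) : ℂ :=
  ((j : ℂ) + 1) * ((j : ℂ) + 2) / 2 - (j : ℂ) * ((j : ℂ) + 2) * x + (j : ℂ) * ((j : ℂ) + 1) / 2 * x ^ 2

/-- `∏_{p^j || g} Bp j (f(p) p^{-z})`. -/
noncomputable def Bg (f : ℕ → ℂ) (g : ℕ) (z : ℂ) : ℂ :=
  ∏ p ∈ g.primeFactors, Bp (g.factorization p) (f p * (p : ℂ) ^ (-z))

/-- The local factor of the principal part. -/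
noncomputable def Kl (p v : ℕ) (z : ℂ) : ℂ :=
  (Bp v ((p : ℂ) ^ (-z)) - (p : ℂ) ^ (z - 1) * Bp (v - 1) ((p : ℂ) ^ (-z))) / (1 - 1 / (p : ℂ))

/-- `Ka a z = a^z R_a(z)`: `∑ d3(n) rho(a,n) n^{-z} = ζ(z)^3 a^{-z} Ka a z`. -/
noncomputable def Ka (a : ℕ) (z : ℂ) : ℂ := ∏ p ∈ a.primeFactors, Kl p (a.factorization p) z

/-- `σ(a) = ∑_{p | a} log^2 p`. -/
noncomputable def sg (a : ℕ) : ℝ := ∑ p ∈ a.primeFactors, (Real.log p) ^ 2

/-- An error function, bounded on average. -/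
noncomputable def dl (a : ℕ) : ℝ :=
  ∑ p ∈ a.primeFactors, (if a.factorization p = 1 then Real.log p / p else (a.factorization p : ℝ) ^ 2 * Real.log p)

/-- Another error function, bounded on average. -/
noncomputable def Ea (a : ℕ) : ℝ := ∑ d ∈ a.divisors, (1 + Real.log d) / d

/-- The Mellin transform of the bump. -/
noncomputable def Gh (τ Δ : ℝ) (z : ℂ) : ℂ := mellin (fun y : ℝ => (GG τ Δ y : ℂ)) z

/-- The twisted moment `∫ w ζ(s)^2 ζ(1-s) (a/b)^{it} dt`, `s = 1/2 + it`. -/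
noncomputable def Jt (τ Δ : ℝ) (a b : ℕ) : ℂ :=
  ∫ t : ℝ, (wt τ Δ t : ℂ) * (riemannZeta (1 / 2 + t * I) ^ 2 * riemannZeta (1 / 2 - t * I)) *
    cexp (((t * (Real.log a - Real.log b) : ℝ) : ℂ) * I)

/-- The arithmetic constant `a_3`. -/
noncomputable def a3 : ℝ :=
  ∏' p : Nat.Primes, ((1 - 1 / ((p : ℕ) : ℝ)) ^ 4 * (1 + 4 / ((p : ℕ) : ℝ) + 1 / ((p : ℕ) : ℝ) ^ 2))

/-- `log^+`. -/
noncomputable def lp (x : ℝ) : ℝ := max (Real.log x) 0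

/-- The set of reduced fractions `a/b` with `a^2 ≤ Y`, `a b ≤ Y`. -/
noncomputable def PS (Y : ℝ) : Finset (ℕ × ℕ) :=
  ((Finset.Icc 1 ⌊Y⌋₊) ×ˢ (Finset.Icc 1 ⌊Y⌋₊)).filter
    (fun p => p.1.Coprime p.2 ∧ (p.1 : ℝ) ^ 2 ≤ Y ∧ (p.1 : ℝ) * (p.2 : ℝ) ≤ Y)

/-- The weight `λ^2 + log a (λ^2 - λ'^2)/(2D)` with `λ = log^+(Y/ab)`, `λ' = log^+(Y e^{-D}/ab)`. -/
noncomputable def Ph (Y D : ℝ) (a b : ℕ) : ℝ :=
  (1 + Real.log a / (2 * D)) * (lp (Y / (a * b))) ^ 2 - Real.log a / (2 * D) * (lp (Y * Real.exp (-D) / (a * b))) ^ 2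

/-- The coefficients of the test function. -/
noncomputable def ct (Y D : ℝ) (p : ℕ × ℕ) : ℝ :=
  hh p.1 * Ph Y D p.1 p.2 / Real.sqrt ((p.1 : ℝ) * (p.2 : ℝ))

/-- The test function. -/
noncomputable def Ap (Y D t : ℝ) : ℂ :=
  ∑ p ∈ PS Y, (ct Y D p : ℂ) * cexp (((-(t * (Real.log p.1 - Real.log p.2)) : ℝ) : ℂ) * I)

/-- The diagonal sum of the numerator. -/
noncomputable def S1 (Y D : ℝ) : ℝ :=
  ∑ p ∈ PS Y, hh p.1 ^ 2 / ((p.1 : ℝ) * (p.2 : ℝ)) * Ph Y D p.1 p.2 *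
    (((Real.log (Y / p.2) - Real.log p.1 / 2) ^ 2 - 3 / 4 * sg p.1) / 2)

/-- The diagonal sum of the denominator. -/
noncomputable def S2 (Y D : ℝ) : ℝ :=
  ∑ p ∈ PS Y, hh p.1 ^ 2 / ((p.1 : ℝ) * (p.2 : ℝ)) * Ph Y D p.1 p.2 ^ 2

end Pool.Agent.P07318m
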