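import Pool.Agent.Lib.P07318m.NumLow

/-!
# P07318m.DenUp: upper bound for the denominator
-/

set_option autoImplicit false

open MeasureTheory Complex Filter Topology

namespace Pool.Agent.P07318m

open Pool.Agent.P4f18dfS (wt XF)

/-- `exp(-c T^a) T^m` is bounded. -/
theorem exp_rpow_bound (c a m : ℝ) (hc : 0 < c) (ha : 0 < a) : ∃ K : ℝ, 0 < K ∧ ∀ T : ℝ, 1 ≤ T →
    T ^ m * Real.exp (-(c * T ^ a)) ≤ K := by
  have h1 : Tendsto (fun x : ℝ => x ^ (m / a) * Real.exp (-c * x)) atTop (𝓝 0) :=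
    tendsto_rpow_mul_exp_neg_mul_atTop_nhds_zero (m / a) c hc
  have h2 : Tendsto (fun T : ℝ => (T ^ a) ^ (m / a) * Real.exp (-c * T ^ a)) atTop (𝓝 0) :=
    h1.comp (tendsto_rpow_atTop ha)
  have h3 : ∀ᶠ T : ℝ in atTop, (T ^ a) ^ (m / a) * Real.exp (-c * T ^ a) ≤ 1 :=
    (h2.eventually_lt_const (by norm_num : (0:ℝ) < 1)).mono fun _ h => h.le
  obtain ⟨T0, hT0⟩ := eventually_atTop.1 h3
  set T1 : ℝ := max T0 1 with hT1
  have hT11 : 1 ≤ T1 := le_max_right _ _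
  refine ⟨1 + T1 ^ |m|, by positivity, fun T hT => ?_⟩
  have hT' : 0 < T := by linarith
  have heq : (T ^ a) ^ (m / a) = T ^ m := by
    rw [← Real.rpow_mul hT'.le]
    congr 1
    field_simp
  by_cases h : T1 ≤ T
  · have := hT0 T ((le_max_left _ _).trans h)
    rw [heq] at this
    have h5 : -c * T ^ a = -(c * T ^ a) := by ring
    rw [h5] at this
    have : 0 ≤ T1 ^ |m| := by positivity
    linarith
  · push Not at h
    have h6 : Real.exp (-(c * T ^ a)) ≤ 1 := Real.exp_le_one_iff.2 (by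
      have : 0 ≤ c * T ^ a := by positivity
      linarith)
    have h7 : T ^ m ≤ T1 ^ |m| := by
      calc T ^ m ≤ T ^ |m| := Real.rpow_le_rpow_of_exponent_le hT (le_abs_self m)
        _ ≤ T1 ^ |m| := Real.rpow_le_rpow hT'.le h.le (abs_nonneg m)
    have h8 : T ^ m * Real.exp (-(c * T ^ a)) ≤ T ^ m := mul_le_of_le_one_right (by positivity) h6
    linarith

theorem s2_eq (Y D : ℝ) : ∑ p ∈ PS Y, ct Y D p ^ 2 = S2 Y D := by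
  unfold S2 ct
  refine Finset.sum_congr rfl fun p hp => ?_
  obtain ⟨m1, m2, m3, m4, m5⟩ := mem_ps hp
  have a0 : (0:ℝ) < p.1 := by exact_mod_cast m1
  have b0 : (0:ℝ) < p.2 := by exact_mod_cast m2
  rw [div_pow, mul_pow, Real.sq_sqrt (by positivity)]
  ring

/-- Upper bound for the denominator. -/
theorem den_up (κ η : ℝ) (hκ : 0 < κ) (hκ' : κ < 1 / 4) (hη : 0 < η) : ∃ C : ℝ, 0 < C ∧ ∀ (τ Δ Y D : ℝ),
    1 ≤ Δ → 1 ≤ τ → τ ^ η ≤ τ / Δ → τ ^ (1 - κ) ≤ Δ → 1 ≤ Y → Y ≤ τ ^ (1 - 2 * κ) → 4 * Real.pi * Y ≤ τ → 0 < D →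
    (∫ t : ℝ, wt τ Δ t * ‖As (PS Y) (ct Y D) t‖ ^ 2) +
      (∫ t : ℝ, (wt τ Δ t : ℂ) * XF (1 / 2 - t * I) * As (PS Y) (ct Y D) t ^ 2).re ≤
      Δ * Real.sqrt Real.pi * S2 Y D + C * Δ := by
  set ε : ℝ := κ / 8 with hε
  have hε0 : 0 < ε := by positivity
  obtain ⟨C1, hC1, h1⟩ := csum1 ε hε0
  obtain ⟨C2, hC2, h2⟩ := csum2 ε hε0
  obtain ⟨C3, hC3, h3⟩ := cross
  obtain ⟨K1, hK1, hK1'⟩ := exp_rpow_bound (1 / 16) (2 * κ) 2 (by norm_num) (by positivity)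
  obtain ⟨K2, hK2, hK2'⟩ := exp_rpow_bound (1 / 4) (2 * η) 2 (by norm_num) (by positivity)
  have hpi := Real.pi_pos
  refine ⟨Real.sqrt Real.pi * C1 ^ 2 * K1 + C3 * C2 ^ 2 * (2 + K2), by positivity,
    fun τ Δ Y D k1 k2 k3 k4 k5 k6 k7 hD => ?_⟩
  have hτ : 0 < τ := by linarith
  have hΔ : 0 < Δ := by linarith
  have hY0 : 0 < Y := by linarith
  have hYΔ : Y ≤ Δ := by
    refine k6.trans (le_trans ?_ k4)
    exact Real.rpow_le_rpow_of_exponent_le k2 (by linarith)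
  have hYτ : Y ≤ τ := by
    refine k6.trans ?_
    calc τ ^ (1 - 2 * κ) ≤ τ ^ (1 : ℝ) := Real.rpow_le_rpow_of_exponent_le k2 (by linarith)
      _ = τ := Real.rpow_one τ
  have hpow1 : (Y ^ (1 / 2 + ε)) ^ 2 ≤ τ ^ (2 : ℝ) := by
    have h5 : Y ^ (1 / 2 + ε) ≤ τ := by
      calc Y ^ (1 / 2 + ε) ≤ Y ^ (1 : ℝ) := Real.rpow_le_rpow_of_exponent_le k5 (by rw [hε]; linarith)
        _ = Y := Real.rpow_one Y
        _ ≤ τ := hYτ
    rw [Real.rpow_two]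
    exact pow_le_pow_left₀ (by positivity) h5 2
  -- mean square
  have m1 := (mean_sq (S := PS Y) (c := ct Y D) (Y := Y) (τ := τ) (Δ := Δ) hΔ (fun p hp => by
    obtain ⟨n1, n2, n3, n4, n5⟩ := mem_ps hp
    exact ⟨n1, n2, n3, n5⟩)).2
  rw [s2_eq] at m1
  have m2 := (abs_le.1 m1).2
  have e1 : Real.exp (-(Δ ^ 2 / (16 * Y ^ 2))) ≤ Real.exp (-(1 / 16 * τ ^ (2 * κ))) := by
    apply Real.exp_le_exp.2
    apply neg_le_neg
    have h5 : τ ^ κ * Y ≤ Δ := by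
      calc τ ^ κ * Y ≤ τ ^ κ * τ ^ (1 - 2 * κ) := mul_le_mul_of_nonneg_left k6 (by positivity)
        _ = τ ^ (κ + (1 - 2 * κ)) := (Real.rpow_add hτ _ _).symm
        _ = τ ^ (1 - κ) := by congr 1; ring
        _ ≤ Δ := k4
    have h6 : (τ ^ κ * Y) ^ 2 ≤ Δ ^ 2 := pow_le_pow_left₀ (by positivity) h5 2
    have h7 : (τ ^ κ * Y) ^ 2 = τ ^ (2 * κ) * Y ^ 2 := by
      rw [mul_pow, ← Real.rpow_natCast (τ ^ κ) 2, ← Real.rpow_mul hτ.le]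
      congr 2
      push_cast
      ring
    rw [h7] at h6
    rw [le_div_iff₀ (by positivity)]
    nlinarith
  have e2 : Real.sqrt Real.pi * Δ * (∑ p ∈ PS Y, |ct Y D p|) ^ 2 * Real.exp (-(Δ ^ 2 / (16 * Y ^ 2))) ≤
      Real.sqrt Real.pi * C1 ^ 2 * K1 * Δ := by
    have h5 : (∑ p ∈ PS Y, |ct Y D p|) ^ 2 ≤ C1 ^ 2 * τ ^ (2 : ℝ) := by
      calc (∑ p ∈ PS Y, |ct Y D p|) ^ 2 ≤ (C1 * Y ^ (1 / 2 + ε)) ^ 2 :=
            pow_le_pow_left₀ (Finset.sum_nonneg fun p _ => abs_nonneg _) (h1 Y D k5 hD) 2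
        _ = C1 ^ 2 * (Y ^ (1 / 2 + ε)) ^ 2 := by ring
        _ ≤ _ := mul_le_mul_of_nonneg_left hpow1 (by positivity)
    calc Real.sqrt Real.pi * Δ * (∑ p ∈ PS Y, |ct Y D p|) ^ 2 * Real.exp (-(Δ ^ 2 / (16 * Y ^ 2)))
        ≤ Real.sqrt Real.pi * Δ * (C1 ^ 2 * τ ^ (2 : ℝ)) * Real.exp (-(1 / 16 * τ ^ (2 * κ))) := by
          gcongr
      _ = Real.sqrt Real.pi * C1 ^ 2 * Δ * (τ ^ (2 : ℝ) * Real.exp (-(1 / 16 * τ ^ (2 * κ)))) := by ring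
      _ ≤ Real.sqrt Real.pi * C1 ^ 2 * Δ * K1 := mul_le_mul_of_nonneg_left (hK1' τ k2) (by positivity)
      _ = _ := by ring
  -- cross term
  have m3 := (h3 (PS Y) (ct Y D) Y τ Δ k1 k5 k7 (fun p hp => by
    obtain ⟨n1, n2, n3, n4, n5⟩ := mem_ps hp
    exact ⟨n1, n2, n4⟩)).2
  have m4 := (Complex.re_le_norm _).trans m3
  have e3 : C3 * ((1 + Y / Δ) / Δ + Real.exp (-((τ / Δ) ^ 2 / 4))) *
        (∑ p ∈ PS Y, |ct Y D p| * ((p.1 : ℝ) / p.2) ^ (1 / 2 : ℝ)) ^ 2 ≤ C3 * C2 ^ 2 * (2 + K2) * Δ := by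
    have h5 : (∑ p ∈ PS Y, |ct Y D p| * ((p.1 : ℝ) / p.2) ^ (1 / 2 : ℝ)) ^ 2 ≤ C2 ^ 2 * (Y ^ (1 / 2 + ε)) ^ 2 := by
      calc _ ≤ (C2 * Y ^ (1 / 2 + ε)) ^ 2 :=
            pow_le_pow_left₀ (Finset.sum_nonneg fun p _ => by positivity) (h2 Y D k5 hD) 2
        _ = _ := by ring
    have h6 : (1 + Y / Δ) / Δ ≤ 2 / Δ := by
      apply div_le_div_of_nonneg_right _ hΔ.le
      have : Y / Δ ≤ 1 := (div_le_one hΔ).2 hYΔ
      linarith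
    have h7 : Real.exp (-((τ / Δ) ^ 2 / 4)) ≤ Real.exp (-(1 / 4 * τ ^ (2 * η))) := by
      apply Real.exp_le_exp.2
      apply neg_le_neg
      have h8 : (τ ^ η) ^ 2 ≤ (τ / Δ) ^ 2 := pow_le_pow_left₀ (by positivity) k3 2
      have h9 : (τ ^ η) ^ 2 = τ ^ (2 * η) := by
        rw [← Real.rpow_natCast (τ ^ η) 2, ← Real.rpow_mul hτ.le]
        congr 1
        push_cast
        ring
      rw [h9] at h8
      linarith
    have h10 : (Y ^ (1 / 2 + ε)) ^ 2 / Δ ≤ 1 := by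
      rw [div_le_one hΔ]
      refine le_trans ?_ k4
      rw [← Real.rpow_natCast (Y ^ (1 / 2 + ε)) 2, ← Real.rpow_mul hY0.le]
      calc Y ^ ((1 / 2 + ε) * ((2 : ℕ) : ℝ)) ≤ (τ ^ (1 - 2 * κ)) ^ ((1 / 2 + ε) * ((2 : ℕ) : ℝ)) :=
            Real.rpow_le_rpow hY0.le k6 (by positivity)
        _ = τ ^ ((1 - 2 * κ) * ((1 / 2 + ε) * ((2 : ℕ) : ℝ))) := (Real.rpow_mul hτ.le _ _).symm
        _ ≤ τ ^ (1 - κ) := Real.rpow_le_rpow_of_exponent_le k2 (by push_cast; rw [hε]; nlinarith)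
    have h11 : (Y ^ (1 / 2 + ε)) ^ 2 * Real.exp (-(1 / 4 * τ ^ (2 * η))) ≤ K2 := by
      refine le_trans ?_ (hK2' τ k2)
      exact mul_le_mul_of_nonneg_right hpow1 (Real.exp_pos _).le
    calc C3 * ((1 + Y / Δ) / Δ + Real.exp (-((τ / Δ) ^ 2 / 4))) *
        (∑ p ∈ PS Y, |ct Y D p| * ((p.1 : ℝ) / p.2) ^ (1 / 2 : ℝ)) ^ 2
        ≤ C3 * (2 / Δ + Real.exp (-(1 / 4 * τ ^ (2 * η)))) * (C2 ^ 2 * (Y ^ (1 / 2 + ε)) ^ 2) := by
          gcongr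
      _ = C3 * C2 ^ 2 * (2 * ((Y ^ (1 / 2 + ε)) ^ 2 / Δ) + (Y ^ (1 / 2 + ε)) ^ 2 * Real.exp (-(1 / 4 * τ ^ (2 * η)))) := by
          ring
      _ ≤ C3 * C2 ^ 2 * (2 * 1 + K2) := by gcongr
      _ ≤ C3 * C2 ^ 2 * (2 + K2) * Δ := by
          rw [mul_one]
          exact le_mul_of_one_le_right (by positivity) k1
  have := add_le_add (sub_le_iff_le_add.1 m2) m4
  nlinarith [e2, e3]

end Pool.Agent.P07318m
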