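import Pool.Agent.Lib.P07318m.Defs
import Pool.Agent.Lib.P07318m.DAux

/-!
# P07318m.Orth4: the fourth moment of a short character sum

If `|c(n)| ≤ K n^{-1/2} min(1,(√q/n)^{3/4})` for `n ≥ 1`, `c(0) = 0`, then `∑_{χ mod q} |∑_n χ(n) c(n)|^4 ≤ C_ε K^4 q^{1+ε}`.
PROOF. `∑ |c(n)| < ∞` (`n^{-5/4}`). `(∑ χ(n)c(n))² = ∑_k χ(k) c₂(k)`, `c₂(k) = ∑_{mn=k} c(m)c(n)`,
`|c₂(k)| ≤ K² τ(k) k^{-1/2} min(1,(q/k)^{3/4})`. Group by residue classes: `∑_χ |∑_k χ(k) c₂(k)|² ≤ q ∑_{r mod q} (∑_{k≡r} |c₂(k)|)²`, and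
`∑_{k ≡ r} |c₂(k)| ≤ C K² (r^{-1/2+ε'} + q^{-1/2+ε'})` for `0 ≤ r < q`.
-/

set_option autoImplicit false

open MeasureTheory Complex

namespace Pool.Agent.P07318m

namespace Orth4Aux

/-- Parseval for Dirichlet characters. -/
theorem char_parseval {q : ℕ} [NeZero q] (F : ZMod q → ℂ) :
    ∑ χ : DirichletCharacter ℂ q, ‖∑ r : ZMod q, χ r * F r‖ ^ 2 ≤ q * ∑ r : ZMod q, ‖F r‖ ^ 2 := by
  classical
  have key : ∀ χ : DirichletCharacter ℂ q, ((‖∑ r : ZMod q, χ r * F r‖ ^ 2 : ℝ) : ℂ) =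
      ∑ r : ZMod q, ∑ s : ZMod q, (F r * (starRingEnd ℂ) (F s)) * (χ⁻¹ s * χ r) := by
    intro χ
    rw [← Complex.normSq_eq_norm_sq, ← Complex.mul_conj, map_sum, Finset.sum_mul_sum]
    refine Finset.sum_congr rfl fun r _ => Finset.sum_congr rfl fun s _ => ?_
    rw [RingHom.map_mul]
    have h1 : (starRingEnd ℂ) (χ s) = χ⁻¹ s := MulChar.star_apply' χ s
    rw [h1]
    ring
  have h2 : ((∑ χ : DirichletCharacter ℂ q, ‖∑ r : ZMod q, χ r * F r‖ ^ 2 : ℝ) : ℂ) =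
      ((∑ r : ZMod q, (if IsUnit r then (q.totient : ℝ) * ‖F r‖ ^ 2 else 0) : ℝ) : ℂ) := by
    rw [Complex.ofReal_sum, Finset.sum_congr rfl fun χ _ => key χ, Finset.sum_comm,
      Complex.ofReal_sum]
    refine Finset.sum_congr rfl fun r _ => ?_
    rw [Finset.sum_comm]
    have h3 : ∀ s : ZMod q, ∑ χ : DirichletCharacter ℂ q,
        (F r * (starRingEnd ℂ) (F s)) * (χ⁻¹ s * χ r) =
        if s = r then (if IsUnit r then (q.totient : ℂ) * (‖F r‖ : ℂ) ^ 2 else 0) else 0 := by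
      intro s
      rw [← Finset.mul_sum]
      by_cases hs : IsUnit s
      · have h4 : ∀ χ : DirichletCharacter ℂ q, χ⁻¹ s = χ s⁻¹ := by
          intro χ
          rw [MulChar.inv_apply_eq_inv']
          have h5 : χ s⁻¹ * χ s = 1 := by
            rw [← map_mul, ZMod.inv_mul_of_unit s hs, map_one]
          exact (eq_inv_of_mul_eq_one_left h5).symm
        rw [Finset.sum_congr rfl fun χ _ => by rw [h4 χ],
          DirichletCharacter.sum_char_inv_mul_char_eq ℂ hs]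
        by_cases hsr : s = r
        · subst hsr
          rw [if_pos rfl, if_pos rfl, if_pos hs, Complex.mul_conj, Complex.normSq_eq_norm_sq]
          push_cast
          ring
        · rw [if_neg hsr, if_neg hsr, mul_zero]
      · rw [Finset.sum_eq_zero (fun χ _ => by rw [MulChar.map_nonunit _ hs, zero_mul]), mul_zero]
        by_cases hsr : s = r
        · subst hsr
          rw [if_pos rfl, if_neg hs]
        · rw [if_neg hsr]
    rw [Finset.sum_congr rfl fun s _ => h3 s, Finset.sum_ite_eq' Finset.univ r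
      (fun _ => (if IsUnit r then (q.totient : ℂ) * (‖F r‖ : ℂ) ^ 2 else 0)),
      if_pos (Finset.mem_univ _)]
    split_ifs <;> simp
  have h3 := Complex.ofReal_injective h2
  rw [h3, Finset.mul_sum]
  refine Finset.sum_le_sum fun r _ => ?_
  have h4 : (q.totient : ℝ) ≤ q := by exact_mod_cast Nat.totient_le q
  split_ifs
  · exact mul_le_mul_of_nonneg_right h4 (by positivity)
  · positivity

/-- coefficient of the square -/
noncomputable def c2 (c : ℕ → ℂ) (k : ℕ) : ℂ := ∑ p ∈ k.divisorsAntidiagonal, c p.1 * c p.2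

theorem c2_zero (c : ℕ → ℂ) : c2 c 0 = 0 := by simp [c2]

theorem c2_norm {q : ℕ} {K : ℝ} (hK : 0 ≤ K) {c : ℕ → ℂ}
    (hc : ∀ n : ℕ, 1 ≤ n → ‖c n‖ ≤ K * ((n : ℝ) ^ (-(1 / 2) : ℝ) * min 1 ((Real.sqrt q / n) ^ (3 / 4 : ℝ))))
    {k : ℕ} (hk : 1 ≤ k) :
    ‖c2 c k‖ ≤ K ^ 2 * (k.divisors.card : ℝ) * ((k : ℝ) ^ (-(1 / 2) : ℝ) * min 1 (((q : ℝ) / k) ^ (3 / 4 : ℝ))) := by
  unfold c2
  refine (norm_sum_le _ _).trans ?_
  have h1 : ∀ p ∈ k.divisorsAntidiagonal, ‖c p.1 * c p.2‖ ≤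
      K ^ 2 * ((k : ℝ) ^ (-(1 / 2) : ℝ) * min 1 (((q : ℝ) / k) ^ (3 / 4 : ℝ))) := by
    rintro ⟨m, n⟩ hp
    rw [Nat.mem_divisorsAntidiagonal] at hp
    obtain ⟨hmn, -⟩ := hp
    simp only at hmn ⊢
    have hm : 1 ≤ m := Nat.pos_of_ne_zero (by rintro rfl; simp at hmn; omega)
    have hn : 1 ≤ n := Nat.pos_of_ne_zero (by rintro rfl; simp at hmn; omega)
    have hm0 : (0 : ℝ) < m := by exact_mod_cast hm
    have hn0 : (0 : ℝ) < n := by exact_mod_cast hn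
    have hk0 : (0 : ℝ) < k := by exact_mod_cast hk
    have hkmn : (k : ℝ) = m * n := by rw [← hmn]; push_cast; ring
    set a : ℝ := (Real.sqrt q / m) ^ (3 / 4 : ℝ) with ha
    set b : ℝ := (Real.sqrt q / n) ^ (3 / 4 : ℝ) with hb
    have ha0 : 0 ≤ a := by positivity
    have hb0 : 0 ≤ b := by positivity
    have hab : a * b = ((q : ℝ) / k) ^ (3 / 4 : ℝ) := by
      rw [ha, hb, ← Real.mul_rpow (by positivity) (by positivity)]
      congr 1
      rw [hkmn, div_mul_div_comm, Real.mul_self_sqrt (Nat.cast_nonneg q)]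
    have hmin : min 1 a * min 1 b ≤ min 1 (((q : ℝ) / k) ^ (3 / 4 : ℝ)) := by
      rw [← hab]
      apply le_min
      · calc min 1 a * min 1 b ≤ 1 * 1 :=
              mul_le_mul (min_le_left _ _) (min_le_left _ _) (le_min zero_le_one hb0) zero_le_one
          _ = 1 := one_mul 1
      · exact mul_le_mul (min_le_right _ _) (min_le_right _ _) (le_min zero_le_one hb0) ha0
    rw [norm_mul]
    have h2 := hc m hm
    have h3 := hc n hn
    calc ‖c m‖ * ‖c n‖ ≤ (K * ((m : ℝ) ^ (-(1 / 2) : ℝ) * min 1 a)) *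
          (K * ((n : ℝ) ^ (-(1 / 2) : ℝ) * min 1 b)) :=
          mul_le_mul h2 h3 (norm_nonneg _) (by
            have : 0 ≤ min 1 a := le_min zero_le_one ha0
            positivity)
      _ = K ^ 2 * (((m : ℝ) ^ (-(1 / 2) : ℝ) * (n : ℝ) ^ (-(1 / 2) : ℝ)) * (min 1 a * min 1 b)) := by ring
      _ = K ^ 2 * ((k : ℝ) ^ (-(1 / 2) : ℝ) * (min 1 a * min 1 b)) := by
          rw [← Real.mul_rpow hm0.le hn0.le, ← hkmn]
      _ ≤ _ := by
          apply mul_le_mul_of_nonneg_left _ (by positivity)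
          exact mul_le_mul_of_nonneg_left hmin (by positivity)
  refine (Finset.sum_le_card_nsmul _ _ _ h1).trans (le_of_eq ?_)
  have h2 : k.divisorsAntidiagonal.card = k.divisors.card := by
    rw [Finset.card_eq_sum_ones, Finset.card_eq_sum_ones,
      Nat.sum_divisorsAntidiagonal (f := fun _ _ => 1)]
  rw [nsmul_eq_mul, h2]
  ring

/-- summability of the coefficients -/
theorem c_summable {q : ℕ} {K : ℝ} (hK : 0 ≤ K) {c : ℕ → ℂ} (hc0 : c 0 = 0)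
    (hc : ∀ n : ℕ, 1 ≤ n → ‖c n‖ ≤ K * ((n : ℝ) ^ (-(1 / 2) : ℝ) * min 1 ((Real.sqrt q / n) ^ (3 / 4 : ℝ)))) :
    Summable (fun n => ‖c n‖) := by
  have h1 : Summable (fun n : ℕ => K * (Real.sqrt q) ^ (3 / 4 : ℝ) * (n : ℝ) ^ (-(5 / 4) : ℝ)) :=
    (Real.summable_nat_rpow.2 (by norm_num)).mul_left _
  refine Summable.of_nonneg_of_le (fun n => norm_nonneg _) (fun n => ?_) h1
  rcases Nat.eq_zero_or_pos n with rfl | hn
  · rw [hc0, norm_zero]; positivity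
  · have hn0 : (0 : ℝ) < n := by exact_mod_cast hn
    refine (hc n hn).trans ?_
    rw [mul_assoc]
    apply mul_le_mul_of_nonneg_left _ hK
    calc (n : ℝ) ^ (-(1 / 2) : ℝ) * min 1 ((Real.sqrt q / n) ^ (3 / 4 : ℝ))
        ≤ (n : ℝ) ^ (-(1 / 2) : ℝ) * (Real.sqrt q / n) ^ (3 / 4 : ℝ) :=
          mul_le_mul_of_nonneg_left (min_le_right _ _) (by positivity)
      _ = (Real.sqrt q) ^ (3 / 4 : ℝ) * (n : ℝ) ^ (-(5 / 4) : ℝ) := by
          rw [Real.div_rpow (Real.sqrt_nonneg _) hn0.le]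
          have : (n : ℝ) ^ (-(5 / 4) : ℝ) = (n : ℝ) ^ (-(1 / 2) : ℝ) / (n : ℝ) ^ (3 / 4 : ℝ) := by
            rw [← Real.rpow_sub hn0]; norm_num
          rw [this]; ring

/-- the square of the character sum -/
theorem sq_eq {q : ℕ} [NeZero q] (χ : DirichletCharacter ℂ q) {c : ℕ → ℂ} (hc0 : c 0 = 0)
    (hs : Summable (fun n => ‖c n‖)) :
    Summable (fun k : ℕ => χ (k : ZMod q) * c2 c k) ∧
    (∑' n : ℕ, χ (n : ZMod q) * c n) ^ 2 = ∑' k : ℕ, χ (k : ZMod q) * c2 c k := by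
  set f : ℕ → ℂ := fun n => χ (n : ZMod q) * c n with hf
  have hf0 : f 0 = 0 := by simp [hf, hc0]
  have hterm : ∀ g : ℕ → ℂ, g 0 = 0 → LSeries.term g 0 = g := by
    intro g hg
    funext n
    rw [LSeries.term_def]
    split_ifs with h
    · rw [h, hg]
    · simp
  have hfs : Summable f := by
    refine Summable.of_norm_bounded hs (fun n => ?_)
    rw [hf, norm_mul]
    calc ‖χ (n : ZMod q)‖ * ‖c n‖ ≤ 1 * ‖c n‖ :=
          mul_le_mul_of_nonneg_right (χ.norm_le_one _) (norm_nonneg _)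
      _ = ‖c n‖ := one_mul _
  have hL : LSeriesSummable f 0 := by
    unfold LSeriesSummable
    rw [hterm f hf0]
    exact hfs
  have hconv : LSeries.convolution f f = fun k : ℕ => χ (k : ZMod q) * c2 c k := by
    rw [LSeries.convolution_def]
    funext k
    unfold c2
    rw [Finset.mul_sum]
    refine Finset.sum_congr rfl fun p hp => ?_
    have h1 : (k : ZMod q) = (p.1 : ZMod q) * (p.2 : ZMod q) := by
      rw [← (Nat.mem_divisorsAntidiagonal.1 hp).1]; push_cast; ring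
    rw [h1, map_mul]
    simp only [hf]
    ring
  have hconv0 : LSeries.convolution f f 0 = 0 := LSeries.convolution_map_zero f f
  have h1 := LSeries_convolution' hL hL
  have h2 := LSeriesSummable.convolution hL hL
  unfold LSeries at h1
  unfold LSeriesSummable at h2
  rw [hterm _ hconv0, hconv] at h1 h2
  rw [hterm f hf0] at h1
  exact ⟨h2, by rw [sq, ← h1]⟩

end Orth4Aux

open Orth4Aux in
theorem orth4 (ε : ℝ) (hε : 0 < ε) : ∃ C : ℝ, 0 < C ∧ ∀ (q : ℕ) [NeZero q] (K : ℝ) (c : ℕ → ℂ), 0 ≤ K → c 0 = 0 →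
    (∀ n : ℕ, 1 ≤ n → ‖c n‖ ≤ K * ((n : ℝ) ^ (-(1 / 2) : ℝ) * min 1 ((Real.sqrt q / n) ^ (3 / 4 : ℝ)))) →
    ∑ χ : DirichletCharacter ℂ q, ‖∑' n : ℕ, χ (n : ZMod q) * c n‖ ^ 4 ≤ C * K ^ 4 * (q : ℝ) ^ (1 + ε) := by
  set e : ℝ := min (ε / 4) (1 / 8) with he
  have he0 : 0 < e := by rw [he]; positivity
  have he1 : e ≤ ε / 4 := min_le_left _ _
  have he2 : e ≤ 1 / 8 := min_le_right _ _
  obtain ⟨C1, hC1, htau⟩ := tau_le e he0
  set S : ℝ := ∑' m : ℕ, ((m : ℝ) + 1) ^ (-(5 / 4 - e)) with hS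
  set Z : ℝ := ∑' n : ℕ, (n : ℝ) ^ (-(1 + 2 * e)) with hZ
  have hSs : Summable (fun m : ℕ => ((m : ℝ) + 1) ^ (-(5 / 4 - e))) := by
    have h1 : Summable (fun m : ℕ => (m : ℝ) ^ (-(5 / 4 - e))) :=
      Real.summable_nat_rpow.2 (by linarith)
    have h2 := (summable_nat_add_iff 1).2 h1
    refine h2.congr fun m => ?_
    push_cast
    rfl
  have hZs : Summable (fun n : ℕ => (n : ℝ) ^ (-(1 + 2 * e))) :=
    Real.summable_nat_rpow.2 (by linarith)
  have hS0 : 0 ≤ S := tsum_nonneg fun m => by positivity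
  have hZ0 : 0 ≤ Z := tsum_nonneg fun m => by positivity
  have hC0 : 0 < C1 := by linarith
  refine ⟨2 * C1 ^ 2 * (Z + S ^ 2) + 1, by positivity, fun q _ K c hK hc0 hc => ?_⟩
  have hq : 1 ≤ q := Nat.pos_of_ne_zero (NeZero.ne q)
  have hq1 : (1 : ℝ) ≤ q := by exact_mod_cast hq
  have hq0 : (0 : ℝ) < q := by linarith
  have hs := c_summable hK hc0 hc
  -- bounds for `c2`
  have hc2 : ∀ k : ℕ, 1 ≤ k → ‖c2 c k‖ ≤ K ^ 2 * C1 * (k : ℝ) ^ (e - 1 / 2) ∧
      ‖c2 c k‖ ≤ K ^ 2 * C1 * ((k : ℝ) ^ (e - 5 / 4) * (q : ℝ) ^ (3 / 4 : ℝ)) := by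
    intro k hk
    have hk0 : (0 : ℝ) < k := by exact_mod_cast hk
    have h1 := c2_norm hK hc hk
    have h2 := htau k hk
    have hmin0 : 0 ≤ min 1 (((q : ℝ) / k) ^ (3 / 4 : ℝ)) := le_min zero_le_one (by positivity)
    have h3 : ‖c2 c k‖ ≤ K ^ 2 * C1 * ((k : ℝ) ^ (e - 1 / 2) * min 1 (((q : ℝ) / k) ^ (3 / 4 : ℝ))) := by
      refine h1.trans ?_
      calc K ^ 2 * (k.divisors.card : ℝ) * ((k : ℝ) ^ (-(1 / 2) : ℝ) * min 1 (((q : ℝ) / k) ^ (3 / 4 : ℝ)))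
          ≤ K ^ 2 * (C1 * (k : ℝ) ^ e) * ((k : ℝ) ^ (-(1 / 2) : ℝ) * min 1 (((q : ℝ) / k) ^ (3 / 4 : ℝ))) := by
            apply mul_le_mul_of_nonneg_right _ (by positivity)
            exact mul_le_mul_of_nonneg_left h2 (by positivity)
        _ = K ^ 2 * C1 * (((k : ℝ) ^ e * (k : ℝ) ^ (-(1 / 2) : ℝ)) * min 1 (((q : ℝ) / k) ^ (3 / 4 : ℝ))) := by ring
        _ = _ := by
            rw [← Real.rpow_add hk0]
            rfl
    constructor
    · refine h3.trans ?_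
      apply mul_le_mul_of_nonneg_left _ (by positivity)
      calc (k : ℝ) ^ (e - 1 / 2) * min 1 (((q : ℝ) / k) ^ (3 / 4 : ℝ)) ≤ (k : ℝ) ^ (e - 1 / 2) * 1 :=
            mul_le_mul_of_nonneg_left (min_le_left _ _) (by positivity)
        _ = _ := mul_one _
    · refine h3.trans ?_
      apply mul_le_mul_of_nonneg_left _ (by positivity)
      calc (k : ℝ) ^ (e - 1 / 2) * min 1 (((q : ℝ) / k) ^ (3 / 4 : ℝ)) ≤
            (k : ℝ) ^ (e - 1 / 2) * ((q : ℝ) / k) ^ (3 / 4 : ℝ) :=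
            mul_le_mul_of_nonneg_left (min_le_right _ _) (by positivity)
        _ = _ := by
            rw [Real.div_rpow hq0.le hk0.le]
            have : (k : ℝ) ^ (e - 5 / 4) = (k : ℝ) ^ (e - 1 / 2) / (k : ℝ) ^ (3 / 4 : ℝ) := by
              rw [← Real.rpow_sub hk0]; congr 1; ring
            rw [this]; ring
  -- the norms of `c2` are summable
  have hc2s : Summable (fun k => ‖c2 c k‖) := by
    have h1 : Summable (fun k : ℕ => K ^ 2 * C1 * ((k : ℝ) ^ (e - 5 / 4) * (q : ℝ) ^ (3 / 4 : ℝ))) :=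
      ((Real.summable_nat_rpow.2 (by linarith)).mul_right _).mul_left _
    refine Summable.of_nonneg_of_le (fun n => norm_nonneg _) (fun k => ?_) h1
    rcases Nat.eq_zero_or_pos k with rfl | hk
    · rw [c2_zero, norm_zero]; positivity
    · exact (hc2 k hk).2
  set F : ZMod q → ℂ := fun r => ∑' m : ℕ, c2 c (r.val + q * m) with hF
  have hinj : ∀ r : ZMod q, Function.Injective (fun m : ℕ => r.val + q * m) := by
    intro r a b hab
    have : q * a = q * b := Nat.add_left_cancel hab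
    exact Nat.eq_of_mul_eq_mul_left hq this
  have hmain : ∀ χ : DirichletCharacter ℂ q, ‖∑' n : ℕ, χ (n : ZMod q) * c n‖ ^ 4 =
      ‖∑ r : ZMod q, χ r * F r‖ ^ 2 := by
    intro χ
    obtain ⟨h1, h2⟩ := sq_eq χ hc0 hs
    have h3 : ‖∑' n : ℕ, χ (n : ZMod q) * c n‖ ^ 4 = ‖(∑' n : ℕ, χ (n : ZMod q) * c n) ^ 2‖ ^ 2 := by
      rw [norm_pow]; ring
    rw [h3, h2, Nat.sumByResidueClasses h1 q]
    congr 2
    refine Finset.sum_congr rfl fun r _ => ?_
    rw [hF, ← tsum_mul_left]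
    refine tsum_congr fun m => ?_
    congr 2
    push_cast
    rw [ZMod.natCast_zmod_val, ZMod.natCast_self, zero_mul, add_zero]
  rw [Finset.sum_congr rfl fun χ _ => hmain χ]
  refine (char_parseval F).trans ?_
  -- bound for `F`
  have hFb : ∀ r : ZMod q, ‖F r‖ ≤ K ^ 2 * C1 * ((r.val : ℝ) ^ (e - 1 / 2) + S * (q : ℝ) ^ (e - 1 / 2)) := by
    intro r
    have hsr : Summable (fun m : ℕ => ‖c2 c (r.val + q * m)‖) := hc2s.comp_injective (hinj r)
    refine (norm_tsum_le_tsum_norm hsr).trans ?_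
    rw [hsr.tsum_eq_zero_add, mul_add]
    apply add_le_add
    · rw [mul_zero, add_zero]
      rcases Nat.eq_zero_or_pos r.val with hr | hr
      · rw [hr, c2_zero, norm_zero]; positivity
      · exact (hc2 _ hr).1
    · have h1 : ∀ m : ℕ, ‖c2 c (r.val + q * (m + 1))‖ ≤
          K ^ 2 * C1 * (q : ℝ) ^ (e - 1 / 2) * ((m : ℝ) + 1) ^ (-(5 / 4 - e)) := by
        intro m
        have hk : 1 ≤ r.val + q * (m + 1) := by
          have : 1 ≤ q * (m + 1) := Nat.mul_pos hq (Nat.succ_pos m)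
          omega
        have h2 := (hc2 _ hk).2
        refine h2.trans ?_
        have hm0 : (0 : ℝ) < (m : ℝ) + 1 := by positivity
        have h3 : (((r.val + q * (m + 1) : ℕ) : ℝ)) ^ (e - 5 / 4) ≤ ((q : ℝ) * ((m : ℝ) + 1)) ^ (e - 5 / 4) := by
          apply Real.rpow_le_rpow_of_nonpos (by positivity) _ (by linarith)
          push_cast
          have : (0 : ℝ) ≤ (r.val : ℝ) := Nat.cast_nonneg _
          linarith
        calc K ^ 2 * C1 * ((((r.val + q * (m + 1) : ℕ) : ℝ)) ^ (e - 5 / 4) * (q : ℝ) ^ (3 / 4 : ℝ))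
            ≤ K ^ 2 * C1 * (((q : ℝ) * ((m : ℝ) + 1)) ^ (e - 5 / 4) * (q : ℝ) ^ (3 / 4 : ℝ)) := by
              apply mul_le_mul_of_nonneg_left _ (by positivity)
              exact mul_le_mul_of_nonneg_right h3 (by positivity)
          _ = K ^ 2 * C1 * (((q : ℝ) ^ (e - 5 / 4) * (q : ℝ) ^ (3 / 4 : ℝ)) * ((m : ℝ) + 1) ^ (e - 5 / 4)) := by
              rw [Real.mul_rpow hq0.le hm0.le]; ring
          _ = _ := by
              rw [← Real.rpow_add hq0, show e - 5 / 4 + 3 / 4 = e - 1 / 2 by ring,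
                show -(5 / 4 - e) = e - 5 / 4 by ring]
              ring
      have h4 : Summable (fun m : ℕ => ‖c2 c (r.val + q * (m + 1))‖) :=
        (summable_nat_add_iff (f := fun m : ℕ => ‖c2 c (r.val + q * m)‖) 1).2 hsr
      refine (h4.tsum_le_tsum h1 (hSs.mul_left _)).trans (le_of_eq ?_)
      rw [tsum_mul_left, ← hS]
      ring
  -- the sum of the squares
  have hsq : ∀ r : ZMod q, ‖F r‖ ^ 2 ≤ 2 * K ^ 4 * C1 ^ 2 *
      ((r.val : ℝ) ^ (-(1 + 2 * e)) * (q : ℝ) ^ (4 * e) + S ^ 2 * (q : ℝ) ^ (2 * e - 1)) := by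
    intro r
    have h1 := hFb r
    have h2 : ‖F r‖ ^ 2 ≤ (K ^ 2 * C1 * ((r.val : ℝ) ^ (e - 1 / 2) + S * (q : ℝ) ^ (e - 1 / 2))) ^ 2 :=
      pow_le_pow_left₀ (norm_nonneg _) h1 2
    refine h2.trans ?_
    have h3 : (K ^ 2 * C1 * ((r.val : ℝ) ^ (e - 1 / 2) + S * (q : ℝ) ^ (e - 1 / 2))) ^ 2 ≤
        2 * K ^ 4 * C1 ^ 2 * (((r.val : ℝ) ^ (e - 1 / 2)) ^ 2 + S ^ 2 * ((q : ℝ) ^ (e - 1 / 2)) ^ 2) := by
      have : ((r.val : ℝ) ^ (e - 1 / 2) + S * (q : ℝ) ^ (e - 1 / 2)) ^ 2 ≤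
          2 * (((r.val : ℝ) ^ (e - 1 / 2)) ^ 2 + S ^ 2 * ((q : ℝ) ^ (e - 1 / 2)) ^ 2) := by
        nlinarith [sq_nonneg ((r.val : ℝ) ^ (e - 1 / 2) - S * (q : ℝ) ^ (e - 1 / 2))]
      calc (K ^ 2 * C1 * ((r.val : ℝ) ^ (e - 1 / 2) + S * (q : ℝ) ^ (e - 1 / 2))) ^ 2
          = (K ^ 4 * C1 ^ 2) * ((r.val : ℝ) ^ (e - 1 / 2) + S * (q : ℝ) ^ (e - 1 / 2)) ^ 2 := by ring
        _ ≤ (K ^ 4 * C1 ^ 2) * (2 * (((r.val : ℝ) ^ (e - 1 / 2)) ^ 2 + S ^ 2 * ((q : ℝ) ^ (e - 1 / 2)) ^ 2)) :=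
            mul_le_mul_of_nonneg_left this (by positivity)
        _ = _ := by ring
    refine h3.trans ?_
    apply mul_le_mul_of_nonneg_left _ (by positivity)
    apply add_le_add
    · rcases Nat.eq_zero_or_pos r.val with hr | hr
      · rw [hr, Nat.cast_zero, Real.zero_rpow (by linarith)]
        have : (0 : ℝ) ≤ 0 ^ (-(1 + 2 * e)) * (q : ℝ) ^ (4 * e) := by positivity
        simpa using this
      · have hr0 : (0 : ℝ) < (r.val : ℝ) := by exact_mod_cast hr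
        have hrq : (r.val : ℝ) ≤ q := by exact_mod_cast (ZMod.val_lt r).le
        have h4 : ((r.val : ℝ) ^ (e - 1 / 2)) ^ 2 = (r.val : ℝ) ^ (-(1 + 2 * e)) * (r.val : ℝ) ^ (4 * e) := by
          rw [← Real.rpow_natCast, ← Real.rpow_mul hr0.le, ← Real.rpow_add hr0]
          congr 1
          push_cast
          ring
        rw [h4]
        apply mul_le_mul_of_nonneg_left _ (by positivity)
        exact Real.rpow_le_rpow hr0.le hrq (by positivity)
    · apply mul_le_mul_of_nonneg_left _ (by positivity)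
      apply le_of_eq
      rw [← Real.rpow_natCast, ← Real.rpow_mul hq0.le]
      congr 1
      push_cast
      ring
  have hsum : ∑ r : ZMod q, (r.val : ℝ) ^ (-(1 + 2 * e)) ≤ Z := by
    have h1 : ∑ r : ZMod q, (r.val : ℝ) ^ (-(1 + 2 * e)) =
        ∑ k ∈ (Finset.univ : Finset (ZMod q)).image ZMod.val, (k : ℝ) ^ (-(1 + 2 * e)) := by
      rw [Finset.sum_image]
      intro a _ b _ hab
      exact ZMod.val_injective q hab
    rw [h1]
    exact hZs.sum_le_tsum _ fun i _ => by positivity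
  have htot : ∑ r : ZMod q, ‖F r‖ ^ 2 ≤ 2 * K ^ 4 * C1 ^ 2 * (Z + S ^ 2) * (q : ℝ) ^ (4 * e) := by
    refine (Finset.sum_le_sum fun r _ => hsq r).trans ?_
    rw [← Finset.mul_sum, Finset.sum_add_distrib, ← Finset.sum_mul, Finset.sum_const,
      Finset.card_univ, ZMod.card, nsmul_eq_mul]
    have h1 : (q : ℝ) * (S ^ 2 * (q : ℝ) ^ (2 * e - 1)) = S ^ 2 * (q : ℝ) ^ (2 * e) := by
      rw [Real.rpow_sub hq0, Real.rpow_one]
      field_simp
    have h2 : (q : ℝ) ^ (2 * e) ≤ (q : ℝ) ^ (4 * e) :=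
      Real.rpow_le_rpow_of_exponent_le hq1 (by linarith)
    have h3 : (∑ r : ZMod q, (r.val : ℝ) ^ (-(1 + 2 * e))) * (q : ℝ) ^ (4 * e) ≤ Z * (q : ℝ) ^ (4 * e) :=
      mul_le_mul_of_nonneg_right hsum (by positivity)
    have h4 : S ^ 2 * (q : ℝ) ^ (2 * e) ≤ S ^ 2 * (q : ℝ) ^ (4 * e) :=
      mul_le_mul_of_nonneg_left h2 (by positivity)
    rw [h1, mul_assoc _ (Z + S ^ 2)]
    apply mul_le_mul_of_nonneg_left _ (by positivity)
    linarith
  have hfin : (q : ℝ) * (q : ℝ) ^ (4 * e) ≤ (q : ℝ) ^ (1 + ε) := by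
    rw [Real.rpow_add hq0, Real.rpow_one]
    exact mul_le_mul_of_nonneg_left (Real.rpow_le_rpow_of_exponent_le hq1 (by linarith)) hq0.le
  calc (q : ℝ) * ∑ r : ZMod q, ‖F r‖ ^ 2
      ≤ (q : ℝ) * (2 * K ^ 4 * C1 ^ 2 * (Z + S ^ 2) * (q : ℝ) ^ (4 * e)) :=
        mul_le_mul_of_nonneg_left htot hq0.le
    _ = (2 * C1 ^ 2 * (Z + S ^ 2)) * K ^ 4 * ((q : ℝ) * (q : ℝ) ^ (4 * e)) := by ring
    _ ≤ (2 * C1 ^ 2 * (Z + S ^ 2)) * K ^ 4 * (q : ℝ) ^ (1 + ε) :=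
        mul_le_mul_of_nonneg_left hfin (by positivity)
    _ ≤ (2 * C1 ^ 2 * (Z + S ^ 2) + 1) * K ^ 4 * (q : ℝ) ^ (1 + ε) := by
        apply mul_le_mul_of_nonneg_right _ (by positivity)
        apply mul_le_mul_of_nonneg_right _ (by positivity)
        linarith

end Pool.Agent.P07318m
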