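import Pool.Agent.Lib.P07318m.Defs
import Pool.Agent.Lib.P07318m.AfePrim
import Pool.Agent.Lib.P07318m.Orth4
import Pool.Agent.Lib.BV.CharSum

/-!
# P07318m.FM: fourth moment of Dirichlet L-functions for a single modulus

`fm_prim`: `∑_{χ primitive mod q} |L(s,χ)|^4 ≤ C q^{1+ε} (1+|Im s|)^6`, `1/2 ≤ Re s ≤ 9/16`, `q ≥ 2`.
PROOF. `afe_prim`: `|L(s,χ)|^4 ≤ 8 |∑χγ_0|^4 + 8 ∑_κ |∑ χ⁻¹ γ_κ|^4`; extend to all characters, `orth4` with
`K = C q^{ε/8}(1+|Im s|)^{3/2}` (`χ ↦ χ⁻¹` is a bijection).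
`fourth_moment`: the sum over ALL `χ ≠ 1` mod `q`. PROOF. `χ` is induced by its primitive character `χ*` mod `d = conductor | q`, `d ≥ 2`
(`χ ≠ 1`): `L(s,χ) = L(s,χ*) ∏_{p | q} (1 - χ*(p)p^{-s})`, so
`|L(s,χ)| ≤ 2^{ω(q)} |L(s,χ*)|`, and `χ ↦ (d, χ*)` is injective; sum over `d | q` (`BV.char_sum_fixed`).
-/

set_option autoImplicit false

open MeasureTheory Complex

namespace Pool.Agent.P07318m

open DirichletCharacter

namespace FMAux

theorem pow_four_add (x y : ℝ) : (x + y) ^ 4 ≤ 8 * x ^ 4 + 8 * y ^ 4 := by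
  nlinarith [sq_nonneg (x - y), sq_nonneg (x + y), sq_nonneg (x ^ 2 - y ^ 2),
    mul_nonneg (sq_nonneg (x - y)) (sq_nonneg (x + y)), sq_nonneg (x * (x - y)), sq_nonneg (y * (x - y)),
    mul_nonneg (sq_nonneg (x - y)) (sq_nonneg x), mul_nonneg (sq_nonneg (x - y)) (sq_nonneg y),
    mul_nonneg (sq_nonneg (x - y)) (sq_nonneg (x - y))]

theorem inv_sum {q : ℕ} [NeZero q] (f : DirichletCharacter ℂ q → ℝ) :
    ∑ χ : DirichletCharacter ℂ q, f χ⁻¹ = ∑ χ : DirichletCharacter ℂ q, f χ :=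
  Equiv.sum_comp (Equiv.inv (DirichletCharacter ℂ q)) f

/-- the value of the `L`-function, as a function of the modulus and the character -/
noncomputable def Lpw (s : ℂ) (d : ℕ) (ψ : DirichletCharacter ℂ d) : ℝ :=
  if h : d ≠ 0 then haveI : NeZero d := ⟨h⟩; ‖LFunction ψ s‖ ^ 4 else 0

theorem Lpw_nonneg (s : ℂ) (d : ℕ) (ψ : DirichletCharacter ℂ d) : 0 ≤ Lpw s d ψ := by
  unfold Lpw
  split_ifs
  · positivity
  · exact le_rfl

theorem Lpw_eq (s : ℂ) {d : ℕ} [hd : NeZero d] (ψ : DirichletCharacter ℂ d) :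
    Lpw s d ψ = ‖LFunction ψ s‖ ^ 4 := by
  unfold Lpw
  rw [dif_pos hd.out]

theorem norm_factor {d : ℕ} (ψ : DirichletCharacter ℂ d) {p : ℕ} (hp : p.Prime) {s : ℂ}
    (hs : 1 / 2 ≤ s.re) : ‖1 - ψ p * (p : ℂ) ^ (-s)‖ ≤ 2 := by
  refine (norm_sub_le _ _).trans ?_
  rw [norm_one, norm_mul]
  have h1 : ‖ψ p‖ ≤ 1 := ψ.norm_le_one _
  have h2 : ‖(p : ℂ) ^ (-s)‖ ≤ 1 := by
    rw [Complex.norm_natCast_cpow_of_pos hp.pos]
    apply Real.rpow_le_one_of_one_le_of_nonpos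
    · exact_mod_cast hp.one_le
    · rw [Complex.neg_re]; linarith
  have h3 : ‖ψ p‖ * ‖(p : ℂ) ^ (-s)‖ ≤ 1 * 1 := mul_le_mul h1 h2 (norm_nonneg _) zero_le_one
  linarith

/-- the comparison with the primitive character -/
theorem norm_le_prim {q : ℕ} [NeZero q] (χ : DirichletCharacter ℂ q) (hχ : χ ≠ 1) {s : ℂ}
    (hs : 1 / 2 ≤ s.re) :
    ‖LFunction χ s‖ ^ 4 ≤ ((2 : ℝ) ^ q.primeFactors.card) ^ 4 * Lpw s χ.conductor χ.primitiveCharacter := by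
  have hc0 : χ.conductor ≠ 0 := DirichletCharacter.conductor_ne_zero χ
  haveI : NeZero χ.conductor := ⟨hc0⟩
  rw [Lpw_eq]
  have hne : χ.primitiveCharacter ≠ 1 := by
    intro h
    apply hχ
    rw [← χ.changeLevel_primitiveCharacter, h, changeLevel_one]
  have h1 : LFunction χ s = LFunction χ.primitiveCharacter s *
      ∏ p ∈ q.primeFactors, (1 - χ.primitiveCharacter p * (p : ℂ) ^ (-s)) := by
    have h2 := LFunction_changeLevel χ.conductor_dvd_level χ.primitiveCharacter (s := s) (Or.inl hne)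
    rw [χ.changeLevel_primitiveCharacter] at h2
    exact h2
  have h3 : ‖∏ p ∈ q.primeFactors, (1 - χ.primitiveCharacter p * (p : ℂ) ^ (-s))‖ ≤
      (2 : ℝ) ^ q.primeFactors.card := by
    rw [norm_prod]
    calc ∏ p ∈ q.primeFactors, ‖1 - χ.primitiveCharacter p * (p : ℂ) ^ (-s)‖
        ≤ ∏ p ∈ q.primeFactors, (2 : ℝ) := by
          refine Finset.prod_le_prod (fun _ _ => norm_nonneg _) fun p hp => ?_
          exact norm_factor _ (Nat.prime_of_mem_primeFactors hp) hs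
      _ = _ := by rw [Finset.prod_const]
  rw [h1, norm_mul, mul_pow, mul_comm]
  apply mul_le_mul_of_nonneg_right _ (by positivity)
  exact pow_le_pow_left₀ (norm_nonneg _) h3 4

end FMAux

open FMAux

open Classical in
theorem fm_prim (ε : ℝ) (hε : 0 < ε) : ∃ C : ℝ, 0 < C ∧ ∀ (q : ℕ) [NeZero q], 2 ≤ q → ∀ s : ℂ,
    1 / 2 ≤ s.re → s.re ≤ 9 / 16 →
    ∑ χ : DirichletCharacter ℂ q, (if χ.IsPrimitive then ‖LFunction χ s‖ ^ 4 else 0) ≤
      C * (q : ℝ) ^ (1 + ε) * (1 + |s.im|) ^ 6 := by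
  obtain ⟨CA, hCA, hafe⟩ := afe_prim (ε / 8) (by positivity)
  obtain ⟨CO, hCO, horth⟩ := orth4 (ε / 2) (by positivity)
  refine ⟨24 * CO * CA ^ 4, by positivity, fun q _ hq s hs1 hs2 => ?_⟩
  have hq0 : (0 : ℝ) < q := by
    have : 0 < q := by omega
    exact_mod_cast this
  obtain ⟨γ₀, γ, h0, hγ, h00, hγ0, hL⟩ := hafe q hq s hs1 hs2
  set T : ℝ := 1 + |s.im| with hT
  have hT0 : 0 < T := by positivity
  set K : ℝ := CA * (q : ℝ) ^ (ε / 8) * T ^ (3 / 2 : ℝ) with hK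
  have hK0 : 0 ≤ K := by positivity
  have hK4 : K ^ 4 = CA ^ 4 * (q : ℝ) ^ (ε / 2) * T ^ 6 := by
    have e6 : (T ^ (3 / 2 : ℝ)) ^ 4 = T ^ 6 := by
      have e7 : T ^ 6 = T ^ (6 : ℝ) := by
        rw [← Real.rpow_natCast]; norm_num
      rw [e7, ← Real.rpow_natCast (T ^ (3 / 2 : ℝ)), ← Real.rpow_mul hT0.le]
      congr 1
      norm_num
    have e8 : ((q : ℝ) ^ (ε / 8)) ^ 4 = (q : ℝ) ^ (ε / 2) := by
      rw [← Real.rpow_natCast, ← Real.rpow_mul hq0.le]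
      congr 1
      push_cast
      ring
    rw [hK, mul_pow, mul_pow, e6, e8]
  have o0 := horth q K γ₀ hK0 h00 h0
  have o1 : ∀ κ, ∑ χ : DirichletCharacter ℂ q, ‖∑' n : ℕ, χ⁻¹ (n : ZMod q) * γ κ n‖ ^ 4 ≤
      CO * K ^ 4 * (q : ℝ) ^ (1 + ε / 2) := by
    intro κ
    rw [inv_sum (fun χ => ‖∑' n : ℕ, χ (n : ZMod q) * γ κ n‖ ^ 4)]
    exact horth q K (γ κ) hK0 (hγ0 κ) (hγ κ)
  have hpt : ∀ χ : DirichletCharacter ℂ q, (if χ.IsPrimitive then ‖LFunction χ s‖ ^ 4 else 0) ≤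
      8 * ‖∑' n : ℕ, χ (n : ZMod q) * γ₀ n‖ ^ 4 +
      8 * (‖∑' n : ℕ, χ⁻¹ (n : ZMod q) * γ true n‖ ^ 4 + ‖∑' n : ℕ, χ⁻¹ (n : ZMod q) * γ false n‖ ^ 4) := by
    intro χ
    split_ifs with hχ
    · obtain ⟨κ, w, hw, hLχ⟩ := hL χ hχ
      rw [hLχ]
      have h1 : ‖∑' n : ℕ, χ (n : ZMod q) * γ₀ n + w * ∑' n : ℕ, χ⁻¹ (n : ZMod q) * γ κ n‖ ≤
          ‖∑' n : ℕ, χ (n : ZMod q) * γ₀ n‖ + ‖∑' n : ℕ, χ⁻¹ (n : ZMod q) * γ κ n‖ := by
        refine (norm_add_le _ _).trans ?_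
        rw [norm_mul]
        have := mul_le_mul_of_nonneg_right hw (norm_nonneg (∑' n : ℕ, χ⁻¹ (n : ZMod q) * γ κ n))
        linarith
      have h2 : ‖∑' n : ℕ, χ⁻¹ (n : ZMod q) * γ κ n‖ ^ 4 ≤
          ‖∑' n : ℕ, χ⁻¹ (n : ZMod q) * γ true n‖ ^ 4 + ‖∑' n : ℕ, χ⁻¹ (n : ZMod q) * γ false n‖ ^ 4 := by
        have p1 : 0 ≤ ‖∑' n : ℕ, χ⁻¹ (n : ZMod q) * γ true n‖ ^ 4 := by positivity
        have p2 : 0 ≤ ‖∑' n : ℕ, χ⁻¹ (n : ZMod q) * γ false n‖ ^ 4 := by positivity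
        cases κ
        · linarith
        · linarith
      calc ‖∑' n : ℕ, χ (n : ZMod q) * γ₀ n + w * ∑' n : ℕ, χ⁻¹ (n : ZMod q) * γ κ n‖ ^ 4
          ≤ (‖∑' n : ℕ, χ (n : ZMod q) * γ₀ n‖ + ‖∑' n : ℕ, χ⁻¹ (n : ZMod q) * γ κ n‖) ^ 4 :=
            pow_le_pow_left₀ (norm_nonneg _) h1 4
        _ ≤ 8 * ‖∑' n : ℕ, χ (n : ZMod q) * γ₀ n‖ ^ 4 + 8 * ‖∑' n : ℕ, χ⁻¹ (n : ZMod q) * γ κ n‖ ^ 4 :=
            pow_four_add _ _
        _ ≤ _ := by linarith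
    · positivity
  refine (Finset.sum_le_sum fun χ _ => hpt χ).trans ?_
  rw [Finset.sum_add_distrib, ← Finset.mul_sum, ← Finset.mul_sum, Finset.sum_add_distrib]
  have h1 := o1 true
  have h2 := o1 false
  have e1 : 24 * CO * CA ^ 4 * (q : ℝ) ^ (1 + ε) * T ^ 6 = 24 * (CO * K ^ 4 * (q : ℝ) ^ (1 + ε / 2)) := by
    rw [hK4]
    have : (q : ℝ) ^ (1 + ε) = (q : ℝ) ^ (ε / 2) * (q : ℝ) ^ (1 + ε / 2) := by
      rw [← Real.rpow_add hq0]; congr 1; ring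
    rw [this]; ring
  rw [e1]
  linarith

open Classical in
theorem fourth_moment (ε : ℝ) (hε : 0 < ε) : ∃ C : ℝ, 0 < C ∧ ∀ (q : ℕ) [NeZero q] (s : ℂ),
    1 / 2 ≤ s.re → s.re ≤ 9 / 16 →
    ∑ χ ∈ Finset.univ.erase (1 : DirichletCharacter ℂ q), ‖LFunction χ s‖ ^ 4 ≤
      C * (q : ℝ) ^ (1 + ε) * (1 + |s.im|) ^ 6 := by
  obtain ⟨CP, hCP, hprim⟩ := fm_prim (ε / 2) (by positivity)
  obtain ⟨C2, hC2, hom⟩ := pow_omega_le (ε / 16) (by positivity)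
  obtain ⟨C3, hC3, htau⟩ := tau_le (ε / 4) (by positivity)
  refine ⟨C2 ^ 4 * C3 * CP, by positivity, fun q _ s hs1 hs2 => ?_⟩
  obtain ⟨k, rfl⟩ : ∃ k, q = k + 1 := ⟨q - 1, by
    have := NeZero.ne q
    omega⟩
  set T : ℝ := 1 + |s.im| with hT
  have hT0 : 0 < T := by positivity
  have hq0 : (0 : ℝ) < ((k + 1 : ℕ) : ℝ) := by exact_mod_cast Nat.succ_pos k
  have hq1 : (1 : ℝ) ≤ ((k + 1 : ℕ) : ℝ) := by exact_mod_cast Nat.succ_le_succ (Nat.zero_le k)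
  set W : ℝ := ((2 : ℝ) ^ (k + 1).primeFactors.card) ^ 4 with hW
  have hW0 : 0 ≤ W := by positivity
  have h1 : ∑ χ ∈ Finset.univ.erase (1 : DirichletCharacter ℂ (k + 1)), ‖LFunction χ s‖ ^ 4 ≤
      W * ∑ χ : DirichletCharacter ℂ (k + 1),
        (if χ = 1 then 0 else Lpw s χ.conductor χ.primitiveCharacter) := by
    rw [Finset.mul_sum]
    have h2 : ∑ χ ∈ Finset.univ.erase (1 : DirichletCharacter ℂ (k + 1)), ‖LFunction χ s‖ ^ 4 ≤
        ∑ χ ∈ Finset.univ.erase (1 : DirichletCharacter ℂ (k + 1)),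
          W * (if χ = 1 then 0 else Lpw s χ.conductor χ.primitiveCharacter) := by
      refine Finset.sum_le_sum fun χ hχ => ?_
      have hne : χ ≠ 1 := Finset.ne_of_mem_erase hχ
      rw [if_neg hne]
      exact norm_le_prim χ hne hs1
    refine h2.trans ?_
    refine Finset.sum_le_sum_of_subset_of_nonneg (Finset.erase_subset _ _) fun χ _ _ => ?_
    split_ifs
    · simp
    · exact mul_nonneg hW0 (Lpw_nonneg _ _ _)
  have h2 := Pool.Agent.Lib.BV.char_sum_fixed (k + 1) (Lpw s) (Lpw_nonneg s) k (Nat.lt_succ_self k)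
  have h3 : ∀ d ∈ Finset.range (k + 1), (if d + 1 ∣ k + 1 then
      (∑ ψ : DirichletCharacter ℂ (d+1), if ψ.IsPrimitive then
      (if d + 1 = 1 then 0 else Lpw s (d+1) ψ) else 0) else 0) ≤
      if d + 1 ∣ k + 1 then CP * ((k + 1 : ℕ) : ℝ) ^ (1 + ε / 2) * T ^ 6 else 0 := by
    intro d hd
    rw [Finset.mem_range] at hd
    by_cases hdv : d + 1 ∣ k + 1
    · rw [if_pos hdv, if_pos hdv]
      by_cases hd1 : d + 1 = 1
      · have hz : ∀ ψ : DirichletCharacter ℂ (d + 1), (if ψ.IsPrimitive then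
            (if d + 1 = 1 then 0 else Lpw s (d + 1) ψ) else 0) = 0 := by
          intro ψ
          rw [if_pos hd1, ite_self]
        rw [Finset.sum_congr rfl fun ψ _ => hz ψ, Finset.sum_const_zero]
        positivity
      · simp only [if_neg hd1]
        have h4 := hprim (d + 1) (by omega) s hs1 hs2
        have h5 : ∑ ψ : DirichletCharacter ℂ (d + 1), (if ψ.IsPrimitive then Lpw s (d + 1) ψ else 0) =
            ∑ ψ : DirichletCharacter ℂ (d + 1), (if ψ.IsPrimitive then ‖LFunction ψ s‖ ^ 4 else 0) := by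
          refine Finset.sum_congr rfl fun ψ _ => ?_
          rw [Lpw_eq]
        rw [h5]
        refine h4.trans ?_
        apply mul_le_mul_of_nonneg_right _ (by positivity)
        apply mul_le_mul_of_nonneg_left _ hCP.le
        apply Real.rpow_le_rpow (by positivity) _ (by positivity)
        exact_mod_cast Nat.succ_le_of_lt hd
    · rw [if_neg hdv, if_neg hdv]
  have h4 : ∑ d ∈ Finset.range (k + 1), (if d + 1 ∣ k + 1 then CP * ((k + 1 : ℕ) : ℝ) ^ (1 + ε / 2) * T ^ 6 else 0) ≤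
      ((k + 1).divisors.card : ℝ) * (CP * ((k + 1 : ℕ) : ℝ) ^ (1 + ε / 2) * T ^ 6) := by
    rw [← Finset.sum_filter, Finset.sum_const, nsmul_eq_mul]
    apply mul_le_mul_of_nonneg_right _ (by positivity)
    have : ((Finset.range (k + 1)).filter (fun d => d + 1 ∣ k + 1)).card ≤ (k + 1).divisors.card := by
      apply Finset.card_le_card_of_injOn (fun d => d + 1)
      · intro d hd
        rw [Finset.mem_coe, Finset.mem_filter] at hd
        exact Nat.mem_divisors.2 ⟨hd.2, Nat.succ_ne_zero k⟩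
      · intro a _ b _ hab
        exact Nat.succ_injective hab
    exact_mod_cast this
  have h5 : ∑ χ ∈ Finset.univ.erase (1 : DirichletCharacter ℂ (k + 1)), ‖LFunction χ s‖ ^ 4 ≤
      W * (((k + 1).divisors.card : ℝ) * (CP * ((k + 1 : ℕ) : ℝ) ^ (1 + ε / 2) * T ^ 6)) := by
    refine h1.trans (mul_le_mul_of_nonneg_left ?_ hW0)
    exact h2.trans ((Finset.sum_le_sum h3).trans h4)
  refine h5.trans ?_
  have hW4 : W ≤ C2 ^ 4 * ((k + 1 : ℕ) : ℝ) ^ (ε / 4) := by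
    have h6 := hom (k + 1) (Nat.succ_le_succ (Nat.zero_le k))
    calc W ≤ (C2 * ((k + 1 : ℕ) : ℝ) ^ (ε / 16)) ^ 4 := pow_le_pow_left₀ (by positivity) h6 4
      _ = C2 ^ 4 * ((k + 1 : ℕ) : ℝ) ^ (ε / 4) := by
          rw [mul_pow, ← Real.rpow_natCast (((k + 1 : ℕ) : ℝ) ^ (ε / 16)), ← Real.rpow_mul hq0.le]
          congr 2
          push_cast
          ring
  have h7 := htau (k + 1) (Nat.succ_le_succ (Nat.zero_le k))
  calc W * (((k + 1).divisors.card : ℝ) * (CP * ((k + 1 : ℕ) : ℝ) ^ (1 + ε / 2) * T ^ 6))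
      ≤ (C2 ^ 4 * ((k + 1 : ℕ) : ℝ) ^ (ε / 4)) * ((C3 * ((k + 1 : ℕ) : ℝ) ^ (ε / 4)) *
          (CP * ((k + 1 : ℕ) : ℝ) ^ (1 + ε / 2) * T ^ 6)) := by
        apply mul_le_mul hW4 _ (by positivity) (by positivity)
        exact mul_le_mul_of_nonneg_right h7 (by positivity)
    _ = C2 ^ 4 * C3 * CP * (((k + 1 : ℕ) : ℝ) ^ (ε / 4) * ((k + 1 : ℕ) : ℝ) ^ (ε / 4) *
          ((k + 1 : ℕ) : ℝ) ^ (1 + ε / 2)) * T ^ 6 := by ring
    _ = C2 ^ 4 * C3 * CP * ((k + 1 : ℕ) : ℝ) ^ (1 + ε) * T ^ 6 := by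
        rw [← Real.rpow_add hq0, ← Real.rpow_add hq0]
        congr 3
        ring

end Pool.Agent.P07318m
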