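import Pool.Agent.Lib.P07318m.Defs
import Pool.Agent.Lib.P07318m.DAux

/-!
# P07318m.EulerB: the Dirichlet series `∑_m d3(g m) χ(m) m^{-z}`

`d3_twist`: for a Dirichlet character `χ` mod `q` (any, also `q = 1`), `g ≥ 1`, `Re z > 1`:
`∑_m d3(g m) χ(m) m^{-z} = L(z,χ)^3 ∏_{p^j || g} Bp j (χ(p) p^{-z})`, absolutely convergent.
PROOF. `d3 = σ_0 * ζ` is multiplicative, `d3(p^k) = (k+1)(k+2)/2`, so
`f(m) = d3(g m)/d3(g) · χ(m) m^{-z}` satisfies `f(1) = 1`, `f(mn) = f(m) f(n)` for coprime `m, n` and is summable in norm. Euler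
product: `∑ f(m) = ∏_p ∑_k f(p^k)`. With `x = χ(p) p^{-z}`, `p^j || g`:
`∑_k (j+k+1)(j+k+2)/2 x^k = Bp j x / (1-x)^3` and `d3(p^j) = (j+1)(j+2)/2`. Compare with
`L(z,χ) = ∏ (1-χ(p)p^{-z})^{-1}`.
`d3_zeta`: the case `q = 1`, written for `riemannZeta`. `zeta_cube`: the case `g = 1`.
-/

set_option autoImplicit false

open MeasureTheory Complex

namespace Pool.Agent.P07318m

namespace EulerBAux

open Finset

/-- `d3` as an arithmetic function. -/
noncomputable def D3 : ArithmeticFunction ℕ := ArithmeticFunction.sigma 0 * ArithmeticFunction.zeta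

lemma D3_apply (n : ℕ) : D3 n = d3 n := by
  unfold D3 d3
  rw [ArithmeticFunction.mul_zeta_apply]
  refine Finset.sum_congr rfl fun d _ => ?_
  rw [ArithmeticFunction.sigma_zero_apply]

lemma D3_mult : D3.IsMultiplicative :=
  ArithmeticFunction.isMultiplicative_sigma.mul ArithmeticFunction.isMultiplicative_zeta

lemma d3_mul {m n : ℕ} (h : m.Coprime n) : d3 (m * n) = d3 m * d3 n := by
  rw [← D3_apply, ← D3_apply, ← D3_apply, D3_mult.map_mul_of_coprime h]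

lemma d3_one : d3 1 = 1 := by
  rw [← D3_apply, D3_mult.map_one]

lemma d3_zero : d3 0 = 0 := by simp [d3]

lemma d3_pow {p : ℕ} (hp : p.Prime) (k : ℕ) :
    ((d3 (p ^ k) : ℕ) : ℂ) = ((k : ℂ) + 1) * ((k : ℂ) + 2) / 2 := by
  have h1 : d3 (p ^ k) = ∑ i ∈ Finset.range (k + 1), (i + 1) := by
    unfold d3
    rw [Nat.sum_divisors_prime_pow hp]
    refine Finset.sum_congr rfl fun i _ => ?_
    rw [Nat.divisors_prime_pow hp, Finset.card_map, Finset.card_range]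
  rw [h1]
  clear h1
  induction k with
  | zero => simp
  | succ k ih =>
    rw [Finset.sum_range_succ, Nat.cast_add, ih]
    push_cast
    ring

lemma d3_pos {n : ℕ} (hn : 1 ≤ n) : 0 < d3 n := by
  unfold d3
  refine Finset.sum_pos (fun d hd => ?_) ⟨1, Nat.one_mem_divisors.2 (by omega)⟩
  exact Finset.card_pos.2 ⟨1, Nat.one_mem_divisors.2 (Nat.pos_of_mem_divisors hd).ne'⟩

/-- `d3` as a product over a large finite set. -/
lemma d3_prod {N : ℕ} (hN : N ≠ 0) {S : Finset ℕ} (hS : N.primeFactors ⊆ S) :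
    d3 N = ∏ p ∈ S, d3 (p ^ N.factorization p) := by
  rw [← D3_apply, D3_mult.multiplicative_factorization D3 hN, Finsupp.prod,
    Nat.support_factorization]
  rw [Finset.prod_subset hS]
  · refine Finset.prod_congr rfl fun p _ => ?_
    rw [D3_apply]
  · intro p _ hp
    rw [← Nat.support_factorization, Finsupp.notMem_support_iff] at hp
    rw [hp, pow_zero, D3_apply, d3_one]

lemma d3_mul_mul {g m n : ℕ} (hg : g ≠ 0) (hm : m ≠ 0) (hn : n ≠ 0) (h : m.Coprime n) :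
    d3 (g * (m * n)) * d3 g = d3 (g * m) * d3 (g * n) := by
  set S := (g * (m * n)).primeFactors with hS
  have hN : g * (m * n) ≠ 0 := mul_ne_zero hg (mul_ne_zero hm hn)
  rw [d3_prod hN (S := S) subset_rfl,
    d3_prod hg (S := S) (Nat.primeFactors_mono (Dvd.intro _ rfl) hN),
    d3_prod (mul_ne_zero hg hm) (S := S) (Nat.primeFactors_mono (Dvd.intro n (by ring)) hN),
    d3_prod (mul_ne_zero hg hn) (S := S) (Nat.primeFactors_mono (Dvd.intro m (by ring)) hN),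
    ← Finset.prod_mul_distrib, ← Finset.prod_mul_distrib]
  refine Finset.prod_congr rfl fun p hp => ?_
  have hpp : p.Prime := Nat.prime_of_mem_primeFactors hp
  rw [Nat.factorization_mul hg (mul_ne_zero hm hn), Nat.factorization_mul hm hn,
    Nat.factorization_mul hg hm, Nat.factorization_mul hg hn]
  simp only [Finsupp.add_apply]
  by_cases hpm : p ∣ m
  · have hpn : ¬ p ∣ n := fun hpn => hpp.one_lt.ne' (Nat.dvd_one.1 (h ▸ Nat.dvd_gcd hpm hpn))
    rw [Nat.factorization_eq_zero_of_not_dvd hpn]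
    simp only [add_zero]
  · rw [Nat.factorization_eq_zero_of_not_dvd hpm]
    simp only [add_zero, zero_add]
    ring

lemma d3_mul_pow {g p : ℕ} (hg : g ≠ 0) (hp : p.Prime) (k : ℕ) :
    d3 (g * p ^ k) * d3 (p ^ g.factorization p) = d3 g * d3 (p ^ (g.factorization p + k)) := by
  have h1 : p ^ g.factorization p * (g / p ^ g.factorization p) = g :=
    Nat.ordProj_mul_ordCompl_eq_self g p
  have hcop : Nat.Coprime p (g / p ^ g.factorization p) := Nat.coprime_ordCompl hp hg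
  set j := g.factorization p with hj
  set g' := g / p ^ j with hg'
  have h2 : d3 g = d3 (p ^ j) * d3 g' := by
    conv_lhs => rw [← h1]
    exact d3_mul (Nat.Coprime.pow_left j hcop)
  have h3 : d3 (g * p ^ k) = d3 (p ^ (j + k)) * d3 g' := by
    conv_lhs => rw [← h1]
    rw [show p ^ j * g' * p ^ k = p ^ (j + k) * g' by rw [pow_add]; ring]
    exact d3_mul (Nat.Coprime.pow_left _ hcop)
  rw [h2, h3]
  ring

/-- The local sum. -/
lemma hasSum_loc (j : ℕ) {x : ℂ} (hx : ‖x‖ < 1) :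
    HasSum (fun k : ℕ => (((j + k : ℕ) : ℂ) + 1) * (((j + k : ℕ) : ℂ) + 2) / 2 * x ^ k)
      (Bp j x * ((1 - x)⁻¹) ^ 3) := by
  have h0 := hasSum_choose_mul_geometric_of_norm_lt_one 0 hx
  have h1 := hasSum_choose_mul_geometric_of_norm_lt_one 1 hx
  have h2 := hasSum_choose_mul_geometric_of_norm_lt_one 2 hx
  have h := (h2.add (h1.mul_left (j : ℂ))).add (h0.mul_left ((j : ℂ) * ((j : ℂ) + 1) / 2))
  have hx1 : 1 - x ≠ 0 := by
    intro h
    have : x = 1 := by linear_combination -h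
    rw [this, norm_one] at hx
    exact lt_irrefl _ hx
  have e1 : (fun k : ℕ => (((j + k : ℕ) : ℂ) + 1) * (((j + k : ℕ) : ℂ) + 2) / 2 * x ^ k) =
      fun b : ℕ => (((b + 2).choose 2 : ℕ) : ℂ) * x ^ b +
        (j : ℂ) * ((((b + 1).choose 1 : ℕ) : ℂ) * x ^ b) +
        (j : ℂ) * ((j : ℂ) + 1) / 2 * ((((b + 0).choose 0 : ℕ) : ℂ) * x ^ b) := by
    funext k
    rw [Nat.cast_choose_two, Nat.choose_one_right, Nat.choose_zero_right]
    push_cast
    ring
  have e2 : Bp j x * ((1 - x)⁻¹) ^ 3 = 1 / (1 - x) ^ (2 + 1) + (j : ℂ) * (1 / (1 - x) ^ (1 + 1)) +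
      (j : ℂ) * ((j : ℂ) + 1) / 2 * (1 / (1 - x) ^ (0 + 1)) := by
    unfold Bp
    field_simp
    ring
  rw [e1, e2]
  exact h

variable {q : ℕ} (χ : DirichletCharacter ℂ q)

/-- The local variable. -/
noncomputable def xp (z : ℂ) (p : ℕ) : ℂ := χ (p : ZMod q) * (p : ℂ) ^ (-z)

lemma norm_xp_lt {z : ℂ} (hz : 0 < z.re) {p : ℕ} (hp : p.Prime) : ‖xp χ z p‖ < 1 := by
  unfold xp
  rw [norm_mul, norm_natCast_cpow_of_pos hp.pos, neg_re]
  have h1 : ‖χ (p : ZMod q)‖ ≤ 1 := DirichletCharacter.norm_le_one χ _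
  have h2 : (p : ℝ) ^ (-z.re) < 1 :=
    Real.rpow_lt_one_of_one_lt_of_neg (by exact_mod_cast hp.one_lt) (by linarith)
  have h3 : 0 ≤ (p : ℝ) ^ (-z.re) := by positivity
  calc ‖χ (p : ZMod q)‖ * (p : ℝ) ^ (-z.re) ≤ 1 * (p : ℝ) ^ (-z.re) :=
        mul_le_mul_of_nonneg_right h1 h3
    _ < 1 := by linarith

lemma xp_pow (z : ℂ) (p k : ℕ) :
    χ ((p ^ k : ℕ) : ZMod q) * ((p ^ k : ℕ) : ℂ) ^ (-z) = xp χ z p ^ k := by
  unfold xp
  rw [mul_pow, Nat.cast_pow, map_pow]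
  congr 1
  rw [Nat.cast_pow, ← Complex.natCast_cpow_natCast_mul, ← Complex.cpow_nat_mul]

/-- The normalised coefficients. -/
noncomputable def ff (g : ℕ) (z : ℂ) (m : ℕ) : ℂ :=
  ((d3 (g * m) : ℕ) : ℂ) * χ (m : ZMod q) * (m : ℂ) ^ (-z) / ((d3 g : ℕ) : ℂ)

lemma norm_term_le (C ε : ℝ) (hC1 : 1 ≤ C)
    (hC : ∀ n : ℕ, 1 ≤ n → (d3 n : ℝ) ≤ C * (n : ℝ) ^ ε) {g : ℕ} (hg : 1 ≤ g) {z : ℂ} (m : ℕ) :
    ‖((d3 (g * m) : ℕ) : ℂ) * χ (m : ZMod q) * (m : ℂ) ^ (-z)‖ ≤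
      C * (g : ℝ) ^ ε * (m : ℝ) ^ (ε - z.re) := by
  rcases Nat.eq_zero_or_pos m with rfl | hm
  · rw [mul_zero, d3_zero]
    simp only [Nat.cast_zero, zero_mul, norm_zero]
    have : 0 ≤ C := by linarith
    positivity
  · have hm0 : (0 : ℝ) < m := by exact_mod_cast hm
    have hg0 : (0 : ℝ) < g := by exact_mod_cast hg
    rw [norm_mul, norm_mul, Complex.norm_natCast, norm_natCast_cpow_of_pos hm, neg_re]
    have h1 : ‖χ (m : ZMod q)‖ ≤ 1 := DirichletCharacter.norm_le_one χ _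
    have h2 := hC (g * m) (Nat.mul_pos hg hm)
    have h3 : (0 : ℝ) ≤ (m : ℝ) ^ (-z.re) := by positivity
    calc (d3 (g * m) : ℝ) * ‖χ (m : ZMod q)‖ * (m : ℝ) ^ (-z.re)
        ≤ (d3 (g * m) : ℝ) * 1 * (m : ℝ) ^ (-z.re) := by gcongr
      _ ≤ (C * ((g * m : ℕ) : ℝ) ^ ε) * (m : ℝ) ^ (-z.re) := by
          rw [mul_one]
          gcongr
      _ = C * (g : ℝ) ^ ε * (m : ℝ) ^ (ε - z.re) := by
          rw [Nat.cast_mul, Real.mul_rpow hg0.le hm0.le, Real.rpow_sub hm0, Real.rpow_neg hm0.le]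
          ring

end EulerBAux

open EulerBAux

theorem d3_summable_twist {q : ℕ} [NeZero q] (χ : DirichletCharacter ℂ q) {g : ℕ} (hg : 1 ≤ g) {z : ℂ} (hz : 1 < z.re) :
    Summable (fun m : ℕ => ‖((d3 (g * m) : ℕ) : ℂ) * χ (m : ZMod q) * (m : ℂ) ^ (-z)‖) := by
  obtain ⟨C, hC1, hC⟩ := d3_le ((z.re - 1) / 2) (by linarith)
  refine Summable.of_nonneg_of_le (fun _ => norm_nonneg _)
    (fun m => norm_term_le χ C _ hC1 hC hg m) ?_
  apply Summable.mul_left
  rw [Real.summable_nat_rpow]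
  linarith

theorem d3_twist {q : ℕ} [NeZero q] (χ : DirichletCharacter ℂ q) {g : ℕ} (hg : 1 ≤ g) {z : ℂ} (hz : 1 < z.re) :
    ∑' m : ℕ, ((d3 (g * m) : ℕ) : ℂ) * χ (m : ZMod q) * (m : ℂ) ^ (-z) =
      DirichletCharacter.LFunction χ z ^ 3 * Bg (fun n => χ (n : ZMod q)) g z := by
  have hg0 : g ≠ 0 := by omega
  have hdg : ((d3 g : ℕ) : ℂ) ≠ 0 := by
    exact_mod_cast (d3_pos hg).ne'
  have hz0 : 0 < z.re := by linarith
  have hsum := d3_summable_twist χ hg hz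
  have hf1 : ff χ g z 1 = 1 := by
    unfold ff
    rw [mul_one]
    simp only [Nat.cast_one, map_one, mul_one, Complex.one_cpow]
    exact div_self hdg
  have hfm : ∀ {m n : ℕ}, Nat.Coprime m n → ff χ g z (m * n) = ff χ g z m * ff χ g z n := by
    intro m n h
    rcases Nat.eq_zero_or_pos m with rfl | hm
    · have : ff χ g z 0 = 0 := by
        unfold ff
        rw [mul_zero, d3_zero]
        simp
      rw [zero_mul, this, zero_mul]
    rcases Nat.eq_zero_or_pos n with rfl | hn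
    · have : ff χ g z 0 = 0 := by
        unfold ff
        rw [mul_zero, d3_zero]
        simp
      rw [mul_zero, this, mul_zero]
    have h1 : ((d3 (g * (m * n)) : ℕ) : ℂ) * ((d3 g : ℕ) : ℂ) =
        ((d3 (g * m) : ℕ) : ℂ) * ((d3 (g * n) : ℕ) : ℂ) := by
      exact_mod_cast d3_mul_mul hg0 hm.ne' hn.ne' h
    unfold ff
    rw [Nat.cast_mul m n, map_mul, Nat.cast_mul m n, natCast_mul_natCast_cpow]
    field_simp
    linear_combination χ (m : ZMod q) * χ (n : ZMod q) * (m : ℂ) ^ (-z) * (n : ℂ) ^ (-z) * h1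
  have hfs : Summable (fun m : ℕ => ‖ff χ g z m‖) := by
    have h1 := hsum.div_const ‖((d3 g : ℕ) : ℂ)‖
    refine h1.congr fun m => ?_
    unfold ff
    rw [norm_div]
  have hf0 : ff χ g z 0 = 0 := by
    unfold ff
    rw [mul_zero, d3_zero]
    simp
  have hP := EulerProduct.eulerProduct_hasProd hf1 hfm hfs hf0
  -- the local factors
  have hloc : ∀ p : Nat.Primes, ∑' e : ℕ, ff χ g z ((p : ℕ) ^ e) =
      ((1 - xp χ z p)⁻¹) ^ 3 *
        (if (p : ℕ) ∈ g.primeFactors then Bp (g.factorization p) (xp χ z p) /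
          ((d3 ((p : ℕ) ^ g.factorization p) : ℕ) : ℂ) else 1) := by
    intro p
    have hp := p.2
    set j := g.factorization (p : ℕ) with hj
    have hdj : ((d3 ((p : ℕ) ^ j) : ℕ) : ℂ) ≠ 0 := by
      exact_mod_cast (d3_pos (Nat.one_le_pow _ _ hp.pos)).ne'
    have h1 : ∀ e : ℕ, ff χ g z ((p : ℕ) ^ e) =
        (((j + e : ℕ) : ℂ) + 1) * (((j + e : ℕ) : ℂ) + 2) / 2 * xp χ z p ^ e /
          ((d3 ((p : ℕ) ^ j) : ℕ) : ℂ) := by
      intro e
      have h2 : ((d3 (g * (p : ℕ) ^ e) : ℕ) : ℂ) * ((d3 ((p : ℕ) ^ j) : ℕ) : ℂ) =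
          ((d3 g : ℕ) : ℂ) * ((d3 ((p : ℕ) ^ (j + e)) : ℕ) : ℂ) := by
        exact_mod_cast d3_mul_pow hg0 hp e
      rw [← d3_pow hp (j + e)]
      unfold ff
      rw [mul_assoc (((d3 (g * (p : ℕ) ^ e) : ℕ) : ℂ)), xp_pow]
      field_simp
      linear_combination xp χ z p ^ e * h2
    have h3 := (hasSum_loc j (norm_xp_lt χ hz0 hp)).div_const ((d3 ((p : ℕ) ^ j) : ℕ) : ℂ)
    rw [tsum_congr h1, h3.tsum_eq]
    by_cases hpg : (p : ℕ) ∈ g.primeFactors
    · rw [if_pos hpg]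
      ring
    · rw [if_neg hpg]
      have hj0 : j = 0 := by
        rw [← Nat.support_factorization, Finsupp.notMem_support_iff] at hpg
        exact hpg
      rw [hj0, pow_zero, d3_one]
      unfold Bp
      simp
  have hL : HasProd (fun p : Nat.Primes => (1 - xp χ z p)⁻¹)
      (DirichletCharacter.LFunction χ z) := by
    rw [DirichletCharacter.LFunction_eq_LSeries χ hz]
    exact DirichletCharacter.LSeries_eulerProduct_hasProd χ hz
  have hL3 : HasProd (fun p : Nat.Primes => ((1 - xp χ z p)⁻¹) ^ 3)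
      (DirichletCharacter.LFunction χ z ^ 3) := by
    have h := (hL.mul hL).mul hL
    have e1 : (fun p : Nat.Primes => ((1 - xp χ z p)⁻¹) ^ 3) = fun p : Nat.Primes =>
        (1 - xp χ z p)⁻¹ * (1 - xp χ z p)⁻¹ * (1 - xp χ z p)⁻¹ := by
      funext p
      ring
    have e2 : DirichletCharacter.LFunction χ z ^ 3 = DirichletCharacter.LFunction χ z *
        DirichletCharacter.LFunction χ z * DirichletCharacter.LFunction χ z := by ring
    rw [e1, e2]
    exact h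
  -- the finite product
  have hfin : HasProd (fun p : Nat.Primes =>
      (if (p : ℕ) ∈ g.primeFactors then Bp (g.factorization p) (xp χ z p) /
          ((d3 ((p : ℕ) ^ g.factorization p) : ℕ) : ℂ) else 1))
      (Bg (fun n => χ (n : ZMod q)) g z / ((d3 g : ℕ) : ℂ)) := by
    have h1 : Bg (fun n => χ (n : ZMod q)) g z / ((d3 g : ℕ) : ℂ) =
        ∏ p ∈ g.primeFactors, Bp (g.factorization p) (xp χ z p) /
          ((d3 (p ^ g.factorization p) : ℕ) : ℂ) := by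
      rw [Finset.prod_div_distrib, ← Nat.cast_prod, ← d3_prod hg0 subset_rfl]
      rfl
    rw [h1]
    set S : Finset Nat.Primes := g.primeFactors.attach.image
      (fun p => ⟨p.1, Nat.prime_of_mem_primeFactors p.2⟩) with hS
    have h2 : ∏ p ∈ g.primeFactors, Bp (g.factorization p) (xp χ z p) /
          ((d3 (p ^ g.factorization p) : ℕ) : ℂ) =
        ∏ p ∈ S, (if (p : ℕ) ∈ g.primeFactors then Bp (g.factorization p) (xp χ z p) /
          ((d3 ((p : ℕ) ^ g.factorization p) : ℕ) : ℂ) else 1) := by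
      rw [hS, Finset.prod_image, ← Finset.prod_attach]
      · refine Finset.prod_congr rfl fun p _ => ?_
        rw [if_pos p.2]
      · intro a _ b _ hab
        have := congrArg (fun t : Nat.Primes => (t : ℕ)) hab
        exact Subtype.ext this
    rw [h2]
    apply hasProd_prod_of_ne_finset_one
    intro p hp
    rw [if_neg]
    intro hpg
    apply hp
    rw [hS, Finset.mem_image]
    exact ⟨⟨p, hpg⟩, Finset.mem_attach _ _, rfl⟩
  have hR := hL3.mul hfin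
  have hP' : HasProd (fun p : Nat.Primes => ∑' e : ℕ, ff χ g z ((p : ℕ) ^ e))
      (DirichletCharacter.LFunction χ z ^ 3 *
        (Bg (fun n => χ (n : ZMod q)) g z / ((d3 g : ℕ) : ℂ))) := by
    rw [funext hloc]
    exact hR
  have huniq := hP.unique hP'
  have h4 : ∑' m : ℕ, ff χ g z m = (∑' m : ℕ, ((d3 (g * m) : ℕ) : ℂ) * χ (m : ZMod q) *
      (m : ℂ) ^ (-z)) / ((d3 g : ℕ) : ℂ) := by
    rw [← tsum_div_const]
    rfl
  rw [h4, ← mul_div_assoc] at huniq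
  exact (div_left_inj' hdg).1 huniq

theorem d3_zeta {g : ℕ} (hg : 1 ≤ g) {z : ℂ} (hz : 1 < z.re) :
    (Summable fun m : ℕ => ‖((d3 (g * m) : ℕ) : ℂ) * (m : ℂ) ^ (-z)‖) ∧
    ∑' m : ℕ, ((d3 (g * m) : ℕ) : ℂ) * (m : ℂ) ^ (-z) = riemannZeta z ^ 3 * Bg (fun _ => 1) g z := by
  have h1 := d3_summable_twist (1 : DirichletCharacter ℂ 1) hg hz
  have h2 := d3_twist (1 : DirichletCharacter ℂ 1) hg hz
  have h3 : ∀ m : ℕ, (1 : DirichletCharacter ℂ 1) (m : ZMod 1) = 1 := by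
    intro m
    exact MulChar.one_apply (isUnit_of_subsingleton _)
  simp only [h3, mul_one, DirichletCharacter.LFunction_modOne_eq] at h1 h2
  exact ⟨h1, h2⟩

theorem zeta_cube {z : ℂ} (hz : 1 < z.re) :
    (Summable fun m : ℕ => ‖((d3 m : ℕ) : ℂ) * (m : ℂ) ^ (-z)‖) ∧
    ∑' m : ℕ, ((d3 m : ℕ) : ℂ) * (m : ℂ) ^ (-z) = riemannZeta z ^ 3 := by
  have h := d3_zeta (g := 1) le_rfl hz
  simp only [one_mul] at h
  have hB : Bg (fun _ => 1) 1 z = 1 := by
    unfold Bg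
    simp
  rw [hB, mul_one] at h
  exact h

/-- A bound for the finite Euler product. -/
theorem Bg_norm_le (ε : ℝ) (hε : 0 < ε) : ∃ C : ℝ, 1 ≤ C ∧ ∀ (f : ℕ → ℂ) (g : ℕ) (z : ℂ), 1 ≤ g → 0 ≤ z.re →
    (∀ n, ‖f n‖ ≤ 1) → ‖Bg f g z‖ ≤ C * (g : ℝ) ^ ε := by
  obtain ⟨C, hC1, hC⟩ := prod_le 3 (by norm_num) 2 ε hε
  refine ⟨C, hC1, fun f g z hg hz hf => le_trans ?_ (hC g hg)⟩
  unfold Bg
  rw [norm_prod]
  refine Finset.prod_le_prod (fun _ _ => norm_nonneg _) fun p hp => ?_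
  have hpp := Nat.prime_of_mem_primeFactors hp
  have hx : ‖f p * (p : ℂ) ^ (-z)‖ ≤ 1 := by
    rw [norm_mul, norm_natCast_cpow_of_pos hpp.pos, neg_re]
    have h2 : (p : ℝ) ^ (-z.re) ≤ 1 :=
      Real.rpow_le_one_of_one_le_of_nonpos (by exact_mod_cast hpp.one_lt.le) (by linarith)
    have h3 : 0 ≤ (p : ℝ) ^ (-z.re) := by positivity
    calc ‖f p‖ * (p : ℝ) ^ (-z.re) ≤ 1 * 1 := mul_le_mul (hf p) h2 h3 zero_le_one
      _ = 1 := one_mul 1
  set x := f p * (p : ℂ) ^ (-z) with hxdef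
  set j := g.factorization p with hj
  have hj0 : (0 : ℝ) ≤ (j : ℝ) := Nat.cast_nonneg j
  unfold Bp
  have n1 : ‖((j : ℂ) + 1) * ((j : ℂ) + 2) / 2‖ = ((j : ℝ) + 1) * ((j : ℝ) + 2) / 2 := by
    have : ((j : ℂ) + 1) * ((j : ℂ) + 2) / 2 = ((((j : ℝ) + 1) * ((j : ℝ) + 2) / 2 : ℝ) : ℂ) := by
      push_cast
      ring
    rw [this, Complex.norm_real, Real.norm_eq_abs, abs_of_nonneg (by positivity)]
  have n2 : ‖(j : ℂ) * ((j : ℂ) + 2) * x‖ ≤ (j : ℝ) * ((j : ℝ) + 2) := by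
    have : (j : ℂ) * ((j : ℂ) + 2) = (((j : ℝ) * ((j : ℝ) + 2) : ℝ) : ℂ) := by
      push_cast
      ring
    rw [norm_mul, this, Complex.norm_real, Real.norm_eq_abs, abs_of_nonneg (by positivity)]
    exact mul_le_of_le_one_right (by positivity) hx
  have n3 : ‖(j : ℂ) * ((j : ℂ) + 1) / 2 * x ^ 2‖ ≤ (j : ℝ) * ((j : ℝ) + 1) / 2 := by
    have : (j : ℂ) * ((j : ℂ) + 1) / 2 = (((j : ℝ) * ((j : ℝ) + 1) / 2 : ℝ) : ℂ) := by
      push_cast
      ring
    rw [norm_mul, this, Complex.norm_real, Real.norm_eq_abs, abs_of_nonneg (by positivity),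
      norm_pow]
    exact mul_le_of_le_one_right (by positivity) (pow_le_one₀ (norm_nonneg _) hx)
  have h := (norm_add_le (((j : ℂ) + 1) * ((j : ℂ) + 2) / 2 - (j : ℂ) * ((j : ℂ) + 2) * x)
    ((j : ℂ) * ((j : ℂ) + 1) / 2 * x ^ 2))
  have h' := norm_sub_le (((j : ℂ) + 1) * ((j : ℂ) + 2) / 2) ((j : ℂ) * ((j : ℂ) + 2) * x)
  rw [n1] at h'
  nlinarith

theorem Bg_diff (f : ℕ → ℂ) (g : ℕ) : Differentiable ℂ (Bg f g) := by
  unfold Bg
  apply Differentiable.fun_finsetProd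
  intro p hp
  have hpp := Nat.prime_of_mem_primeFactors hp
  have hp0 : (p : ℂ) ≠ 0 := by exact_mod_cast hpp.ne_zero
  have h1 : Differentiable ℂ (fun z : ℂ => (p : ℂ) ^ (-z)) := by
    intro z
    exact (differentiableAt_id.neg).const_cpow (Or.inl hp0)
  unfold Bp
  fun_prop

end Pool.Agent.P07318m
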