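import Pool.Agent.Lib.P07318m.Defs

/-!
# P07318m.GMel: Mellin transform of the bump `G(y) = exp(-((2πy-τ)/Δ)²)`

`Gh τ Δ z = ∫_0^∞ G(y) y^{z-1} dy`, convergent and holomorphic for `Re z > 0` (`gh_diff`,
`mellin_differentiableAt_of_isBigO_rpow`; `G` bounded near `0`, rapidly decreasing at `∞`).

`gh_decay`: put `V = τ/Δ ≥ 1`. Repeated integration by parts: if `D f = y f'(y)` then `mellin (D f) z = -z mellin f z`
(for `f` smooth, `f, y f'` bounded at `0` and rapidly decreasing at infinity). With `x = (2πy-τ)/Δ`, `y d/dy = (x + V) d/dx`, so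
`D^m G = q_m(x,V) e^{-x²}` with a polynomial `q_m` in two variables with absolute coefficients, degree `≤ m` in `V`, hence
`|D^m G| ≤ C_m V^m (1+|x|)^{2m} e^{-x²}`. So `|z|^m |Gh z| ≤ C_m V^m ∫_0^∞ (1+|x|)^{2m} e^{-x²} y^{σ-1} dy ≤ C_m' V^m τ^σ`
for `1/2 ≤ σ ≤ 2` (`y = (τ+Δx)/2π`, `dy = Δ dx/2π`; for `σ ≥ 1`: `y^{σ-1} ≤ (τ(1+|x|))^{σ-1}`; for `σ < 1` split at `y = τ/4π`: above use
`y^{σ-1} ≤ C τ^{σ-1}`, below `|x| ≥ V/2` and `∫_0^{τ/4π} y^{σ-1} dy ≤ C τ^σ`). For `|Im z| ≤ 1` use `m = 0`.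
Formalisation hint: to avoid the polynomials prove by induction on `m`: the class of functions
`f(y) = ∑_{i≤N, j≤M} c_{ij} V^j x^i e^{-x²}`, `j ≤ m`, is stable under `D` (finite linear combinations of `V^j x^i e^{-x²}`,
`D (V^j x^i e^{-x²}) = V^j (x+V)(i x^{i-1} - 2x^{i+1}) e^{-x²}`), or use the analytic shift: rotate the ray, `y -> y e^{iθ}`, with
`θ = 1/(4V)`: `Gh z = e^{iθz} ∫_0^∞ G(y e^{iθ}) y^{z-1} dy`, `|G(ye^{iθ})| ≤ C exp(-x²/2)`, which gives even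
`|Gh(σ+iξ)| ≤ C τ^σ e^{-|ξ|/(4V)} ≤ C_m τ^σ V^m (1+|ξ|)^{-m}`.

`gh_inv`: `mellin_inversion` with `σ = 2` (vertical integrability from `gh_decay 2`).

`gh_one`, `gh_one1`, `gh_one2`: `Gh 1 = ∫_0^∞ G = Δ√π/(2π) - ∫_{-∞}^0 G`, and `∫_{-∞}^0 G ≤ CΔ exp(-V²/2) ≤ C_η Δ/τ`.
The derivatives at `1` are `∫_0^∞ G(y) (log y)^j dy` (`hasDerivAt_mellin`-type lemmas in Mathlib: `mellin_hasDerivAt_of_isBigO_rpow`), and
`log y = log τ + log(y/τ)`, `∫_0^∞ G(y) |log(y/τ)|^j dy ≤ C Δ` for `j = 1, 2` (`|log(y/τ)| ≤ log 2π + |log(2πy/τ)|`;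
with `r = 2πy/τ`: `(τ/2π) ∫_0^∞ exp(-V²(r-1)²) |log r|^j dr ≤ C τ/V = C Δ`: for `r ≥ 1/2` `|log r| ≤ 2|r-1|`; for `r ≤ 1/2` the integrand is
`≤ exp(-V²/4) |log r|^j`).
-/

set_option autoImplicit false

open MeasureTheory Complex Set Filter Topology

namespace Pool.Agent.P07318m

noncomputable def xg (τ Δ y : ℝ) : ℝ := (2 * Real.pi * y - τ) / Δ

theorem GG_xg (τ Δ y : ℝ) : GG τ Δ y = Real.exp (-(xg τ Δ y) ^ 2) := rfl

theorem xg_cont (τ Δ : ℝ) : Continuous (xg τ Δ) := by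
  unfold xg; fun_prop

theorem GG_cont (τ Δ : ℝ) : Continuous (GG τ Δ) := by
  unfold GG; fun_prop

theorem GG_pos (τ Δ y : ℝ) : 0 < GG τ Δ y := Real.exp_pos _

theorem GG_le_one (τ Δ y : ℝ) : GG τ Δ y ≤ 1 := by
  rw [GG_xg, Real.exp_le_one_iff]
  nlinarith [sq_nonneg (xg τ Δ y)]

theorem GG_le_exp {τ Δ : ℝ} (hΔ : 0 < Δ) (y : ℝ) :
    GG τ Δ y ≤ Real.exp ((Δ / (2 * Real.pi)) ^ 2 / 4 + τ / (2 * Real.pi)) * Real.exp (-1 * y) := by
  rw [GG_xg, ← Real.exp_add, Real.exp_le_exp]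
  have hpi := Real.pi_pos
  have hy : y = (Δ / (2 * Real.pi)) * xg τ Δ y + τ / (2 * Real.pi) := by
    unfold xg
    field_simp
    ring
  have : -(xg τ Δ y) ^ 2 ≤ (Δ / (2 * Real.pi)) ^ 2 / 4 + τ / (2 * Real.pi) +
      -1 * ((Δ / (2 * Real.pi)) * xg τ Δ y + τ / (2 * Real.pi)) := by
    nlinarith [sq_nonneg (xg τ Δ y - (Δ / (2 * Real.pi)) / 2)]
  rwa [← hy] at this

theorem GG_top {τ Δ : ℝ} (hΔ : 0 < Δ) :
    (fun y : ℝ => (GG τ Δ y : ℂ)) =O[atTop] fun t : ℝ => Real.exp (-1 * t) := by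
  refine Asymptotics.IsBigO.of_bound (Real.exp ((Δ / (2 * Real.pi)) ^ 2 / 4 + τ / (2 * Real.pi))) ?_
  refine Eventually.of_forall fun y => ?_
  rw [Complex.norm_real, Real.norm_of_nonneg (GG_pos _ _ _).le, Real.norm_of_nonneg (Real.exp_pos _).le]
  exact GG_le_exp hΔ y

theorem GG_bot (τ Δ : ℝ) :
    (fun y : ℝ => (GG τ Δ y : ℂ)) =O[𝓝[>] 0] (fun x : ℝ => x ^ (-(0 : ℝ))) := by
  refine Asymptotics.IsBigO.of_bound 1 ?_
  refine Eventually.of_forall fun y => ?_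
  rw [Complex.norm_real, Real.norm_of_nonneg (GG_pos _ _ _).le]
  simpa using GG_le_one τ Δ y

theorem GG_loc (τ Δ : ℝ) : LocallyIntegrableOn (fun y : ℝ => (GG τ Δ y : ℂ)) (Ioi 0) :=
  ((Complex.continuous_ofReal.comp (GG_cont τ Δ)).locallyIntegrable).locallyIntegrableOn _

theorem gh_conv {τ Δ : ℝ} (hΔ : 0 < Δ) {z : ℂ} (hz : 0 < z.re) :
    MellinConvergent (fun y : ℝ => (GG τ Δ y : ℂ)) z :=
  mellinConvergent_of_isBigO_rpow_exp one_pos (GG_loc τ Δ) (GG_top hΔ) (GG_bot τ Δ) hz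

theorem gh_diffAt {τ Δ : ℝ} (hΔ : 0 < Δ) {z : ℂ} (hz : 0 < z.re) : DifferentiableAt ℂ (Gh τ Δ) z :=
  mellin_differentiableAt_of_isBigO_rpow_exp one_pos (GG_loc τ Δ) (GG_top hΔ) (GG_bot τ Δ) hz

theorem gh_diff {τ Δ : ℝ} (hΔ : 0 < Δ) : DifferentiableOn ℂ (Gh τ Δ) {z : ℂ | 0 < z.re} :=
  fun _ hz => (gh_diffAt hΔ hz).differentiableWithinAt

/-- pointwise bound -/
theorem pt_bd (i : ℕ) {τ Δ y : ℝ} (hΔ : 1 ≤ Δ) (hτ : Δ ≤ τ) (hy : 0 < y) :
    |xg τ Δ y ^ i * Real.exp (-(xg τ Δ y) ^ 2)| ≤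
      (i.factorial * Real.exp 2) * Real.exp (-(1 / τ * y)) := by
  set x := xg τ Δ y with hx
  have hpi := Real.pi_gt_three
  have hτ0 : 0 < τ := by linarith
  have hΔ0 : 0 < Δ := by linarith
  have h1 : |x| ^ i ≤ i.factorial * Real.exp |x| := by
    have := Real.pow_div_factorial_le_exp |x| (abs_nonneg x) i
    have hf : (0 : ℝ) < i.factorial := by exact_mod_cast Nat.factorial_pos i
    rw [div_le_iff₀ hf] at this
    linarith
  have hu : y / τ ≤ 1 + x ^ 2 / 2 := by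
    by_cases h : y / τ ≤ 1
    · nlinarith [sq_nonneg x]
    · push Not at h
      have hx1 : y / τ ≤ x := by
        have e1 : x = (τ / Δ) * (2 * Real.pi * (y / τ) - 1) := by
          rw [hx]; unfold xg; field_simp
        have e2 : 1 ≤ τ / Δ := by rw [le_div_iff₀ hΔ0]; linarith
        have e3 : y / τ ≤ 2 * Real.pi * (y / τ) - 1 := by nlinarith
        rw [e1]
        nlinarith
      nlinarith [sq_nonneg (x - 1)]
  have h2 : |x ^ i * Real.exp (-x ^ 2)| = |x| ^ i * Real.exp (-x ^ 2) := by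
    rw [abs_mul, abs_pow, abs_of_pos (Real.exp_pos _)]
  rw [h2]
  calc |x| ^ i * Real.exp (-x ^ 2) ≤ (i.factorial * Real.exp |x|) * Real.exp (-x ^ 2) :=
        mul_le_mul_of_nonneg_right h1 (Real.exp_pos _).le
    _ = i.factorial * Real.exp (|x| + -x ^ 2) := by rw [Real.exp_add]; ring
    _ ≤ i.factorial * Real.exp (2 + -(1 / τ * y)) := by
        apply mul_le_mul_of_nonneg_left _ (by positivity)
        rw [Real.exp_le_exp]
        have : 1 / τ * y = y / τ := by ring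
        rw [this]
        nlinarith [sq_abs x, sq_nonneg (|x| - 1)]
    _ = (i.factorial * Real.exp 2) * Real.exp (-(1 / τ * y)) := by rw [Real.exp_add]; ring

/-- the moments -/
noncomputable def mi (τ Δ : ℝ) (z : ℂ) (i : ℕ) (y : ℝ) : ℂ :=
  (y : ℂ) ^ (z - 1) * ((xg τ Δ y ^ i * Real.exp (-(xg τ Δ y) ^ 2) : ℝ) : ℂ)

theorem mi_meas (τ Δ : ℝ) (z : ℂ) (i : ℕ) :
    AEStronglyMeasurable (mi τ Δ z i) (volume.restrict (Ioi (0 : ℝ))) := by
  apply ContinuousOn.aestronglyMeasurable _ measurableSet_Ioi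
  unfold mi
  apply ContinuousOn.mul
  · intro y hy
    exact (Complex.continuousAt_ofReal_cpow_const y (z - 1) (Or.inr (ne_of_gt hy))).continuousWithinAt
  · apply Continuous.continuousOn
    have := xg_cont τ Δ
    fun_prop

theorem mi_bd (i : ℕ) {τ Δ y : ℝ} {z : ℂ} (hΔ : 1 ≤ Δ) (hτ : Δ ≤ τ) (hy : 0 < y) :
    ‖mi τ Δ z i y‖ ≤ (i.factorial * Real.exp 2) * (y ^ (z.re - 1) * Real.exp (-(1 / τ * y))) := by
  unfold mi
  rw [norm_mul, Complex.norm_real, Complex.norm_cpow_eq_rpow_re_of_pos hy, Real.norm_eq_abs]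
  have := pt_bd i hΔ hτ hy
  have h0 : 0 ≤ y ^ (z.re - 1) := Real.rpow_nonneg hy.le _
  calc y ^ (z - 1).re * |xg τ Δ y ^ i * Real.exp (-(xg τ Δ y) ^ 2)|
      ≤ y ^ (z.re - 1) * ((i.factorial * Real.exp 2) * Real.exp (-(1 / τ * y))) := by
        have e : (z - 1).re = z.re - 1 := by simp
        rw [e]
        exact mul_le_mul_of_nonneg_left this h0
    _ = _ := by ring

theorem ker_int {τ σ : ℝ} (hτ : 0 < τ) (hσ : 0 < σ) :
    IntegrableOn (fun y : ℝ => y ^ (σ - 1) * Real.exp (-(1 / τ * y))) (Ioi 0) := by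
  have h := integrableOn_rpow_mul_exp_neg_mul_rpow (p := 1) (s := σ - 1) (b := 1 / τ) (by linarith) one_pos
    (by positivity)
  refine h.congr_fun (fun y hy => ?_) measurableSet_Ioi
  simp only [Real.rpow_one]
  ring_nf

theorem mi_int (i : ℕ) {τ Δ : ℝ} {z : ℂ} (hΔ : 1 ≤ Δ) (hτ : Δ ≤ τ) (hz : 0 < z.re) :
    IntegrableOn (mi τ Δ z i) (Ioi 0) := by
  refine Integrable.mono' ((ker_int (τ := τ) (σ := z.re) (by linarith) hz).const_mul
    (i.factorial * Real.exp 2)) (mi_meas τ Δ z i) ?_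
  refine (ae_restrict_iff' measurableSet_Ioi).mpr (Eventually.of_forall fun y hy => ?_)
  exact mi_bd i hΔ hτ hy

noncomputable def Mi (τ Δ : ℝ) (z : ℂ) (i : ℕ) : ℂ := ∫ y in Ioi (0 : ℝ), mi τ Δ z i y

theorem Mi_base (i : ℕ) : ∃ C : ℝ, 0 < C ∧ ∀ (τ Δ : ℝ) (z : ℂ), 1 ≤ Δ → Δ ≤ τ → 1 / 2 ≤ z.re → z.re ≤ 2 →
    ‖Mi τ Δ z i‖ ≤ C * τ ^ z.re := by
  have hc : ContinuousOn Real.Gamma (Icc (1 / 2 : ℝ) 2) := by
    intro s hs
    refine (Real.differentiableAt_Gamma ?_).continuousAt.continuousWithinAt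
    intro m hm
    have h1 := hs.1
    have : (0 : ℝ) ≤ m := Nat.cast_nonneg m
    linarith
  obtain ⟨G, hG⟩ := isCompact_Icc.exists_bound_of_continuousOn hc
  have hG0 : 0 ≤ G := (norm_nonneg _).trans (hG 1 (by norm_num))
  have hf : (0 : ℝ) < i.factorial := by exact_mod_cast Nat.factorial_pos i
  refine ⟨(i.factorial * Real.exp 2) * (G + 1), by positivity, ?_⟩
  intro τ Δ z hΔ hτ h1 h2
  have hτ0 : 0 < τ := by linarith
  have hb : ‖Mi τ Δ z i‖ ≤ ∫ y in Ioi (0 : ℝ),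
      (i.factorial * Real.exp 2) * (y ^ (z.re - 1) * Real.exp (-(1 / τ * y))) := by
    refine norm_integral_le_of_norm_le ((ker_int hτ0 (by linarith)).const_mul _) ?_
    refine (ae_restrict_iff' measurableSet_Ioi).mpr (Eventually.of_forall fun y hy => ?_)
    exact mi_bd i hΔ hτ hy
  rw [integral_const_mul, Real.integral_rpow_mul_exp_neg_mul_Ioi (by linarith) (by positivity)] at hb
  have hg := hG z.re ⟨h1, h2⟩
  rw [Real.norm_eq_abs] at hg
  have hg' := (le_abs_self _).trans hg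
  have e : (1 / (1 / τ)) ^ z.re = τ ^ z.re := by rw [one_div_one_div]
  rw [e] at hb
  refine hb.trans ?_
  have ht : 0 < τ ^ z.re := Real.rpow_pos_of_pos hτ0 _
  have : τ ^ z.re * Real.Gamma z.re ≤ τ ^ z.re * (G + 1) :=
    mul_le_mul_of_nonneg_left (by linarith) ht.le
  calc _ ≤ (i.factorial * Real.exp 2) * (τ ^ z.re * (G + 1)) := mul_le_mul_of_nonneg_left this (by positivity)
    _ = _ := by ring

/-- integration by parts -/
theorem Mi_ibp (i : ℕ) {τ Δ : ℝ} {z : ℂ} (hΔ : 1 ≤ Δ) (hτ : Δ ≤ τ) (hz : 0 < z.re) :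
    z * Mi τ Δ z i = -((i : ℂ) * Mi τ Δ z i + (i : ℂ) * ((τ / Δ : ℝ) : ℂ) * Mi τ Δ z (i - 1)) +
      2 * Mi τ Δ z (i + 2) + 2 * ((τ / Δ : ℝ) : ℂ) * Mi τ Δ z (i + 1) := by
  have hΔ0 : 0 < Δ := by linarith
  have hτ0 : 0 < τ := by linarith
  set f : ℝ → ℂ := fun y => (y : ℂ) ^ z * ((xg τ Δ y ^ i * Real.exp (-(xg τ Δ y) ^ 2) : ℝ) : ℂ) with hf
  set f' : ℝ → ℂ := fun y => z * mi τ Δ z i y + ((i : ℂ) * mi τ Δ z i y +
      (i : ℂ) * ((τ / Δ : ℝ) : ℂ) * mi τ Δ z (i - 1) y) -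
      2 * mi τ Δ z (i + 2) y - 2 * ((τ / Δ : ℝ) : ℂ) * mi τ Δ z (i + 1) y with hf'
  have i0 := mi_int i hΔ hτ hz
  have i1 := mi_int (i - 1) hΔ hτ hz
  have i2 := mi_int (i + 2) hΔ hτ hz
  have i3 := mi_int (i + 1) hΔ hτ hz
  have hder : ∀ y ∈ Ioi (0 : ℝ), HasDerivAt f (f' y) y := by
    intro y hy
    have hy0 : (0 : ℝ) < y := hy
    have hyc : (y : ℂ) ≠ 0 := by exact_mod_cast hy0.ne'
    have hxd : HasDerivAt (xg τ Δ) (2 * Real.pi / Δ) y := by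
      unfold xg
      have := (((hasDerivAt_id y).const_mul (2 * Real.pi)).sub_const τ).div_const Δ
      simpa using this
    have hg : HasDerivAt (fun y : ℝ => xg τ Δ y ^ i * Real.exp (-(xg τ Δ y) ^ 2))
        ((i : ℝ) * xg τ Δ y ^ (i - 1) * (2 * Real.pi / Δ) * Real.exp (-(xg τ Δ y) ^ 2) +
          xg τ Δ y ^ i * (Real.exp (-(xg τ Δ y) ^ 2) * -(2 * xg τ Δ y ^ (2 - 1) * (2 * Real.pi / Δ)))) y := by
      have h1 : HasDerivAt (fun y : ℝ => xg τ Δ y ^ i) ((i : ℝ) * xg τ Δ y ^ (i - 1) * (2 * Real.pi / Δ)) y :=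
        hxd.pow i
      have h2 : HasDerivAt (fun y : ℝ => Real.exp (-(xg τ Δ y) ^ 2))
          (Real.exp (-(xg τ Δ y) ^ 2) * -(((2 : ℕ) : ℝ) * xg τ Δ y ^ (2 - 1) * (2 * Real.pi / Δ))) y :=
        ((hxd.pow 2).neg).exp
      exact (h1.mul h2).congr_deriv (by push_cast; ring)
    have hp : HasDerivAt (fun y : ℝ => (y : ℂ) ^ z) (z * (y : ℂ) ^ (z - 1)) y := by
      have := HasDerivAt.comp_ofReal (hasDerivAt_id (y : ℂ) |>.cpow_const (c := z) (Or.inl (by simpa using hy0)))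
      simpa using this
    have hm := hp.mul hg.ofReal_comp
    refine hm.congr_deriv ?_
    simp only [hf', mi]
    have hsplit : (y : ℂ) ^ z = (y : ℂ) ^ (z - 1) * y := by
      rw [Complex.cpow_sub _ _ hyc, Complex.cpow_one]
      field_simp
    have hxe : ((2 * Real.pi / Δ * y : ℝ) : ℂ) = ((xg τ Δ y + τ / Δ : ℝ) : ℂ) := by
      congr 1
      unfold xg
      field_simp
      ring
    rw [hsplit]
    set x := xg τ Δ y with hx
    set E := Real.exp (-x ^ 2) with hE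
    have key : (y : ℂ) * (((i : ℝ) * x ^ (i - 1) * (2 * Real.pi / Δ) * E +
          x ^ i * (E * -(2 * x ^ (2 - 1) * (2 * Real.pi / Δ))) : ℝ) : ℂ) =
        ((x + τ / Δ : ℝ) : ℂ) * (((i : ℝ) * x ^ (i - 1) * E - 2 * x ^ (i + 1) * E : ℝ) : ℂ) := by
      rw [← hxe]
      push_cast
      ring
    rw [mul_assoc ((y : ℂ) ^ (z - 1)) (y : ℂ), key]
    rcases Nat.eq_zero_or_pos i with h0 | hpos
    · subst h0
      push_cast
      ring
    · obtain ⟨k, rfl⟩ : ∃ k, i = k + 1 := ⟨i - 1, by omega⟩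
      simp only [Nat.add_sub_cancel]
      push_cast
      ring
  have hfint : IntegrableOn f (Ioi 0) := by
    have := mi_int i (z := z + 1) hΔ hτ (by simp; linarith)
    refine this.congr_fun (fun y hy => ?_) measurableSet_Ioi
    simp only [mi, hf]
    rw [add_sub_cancel_right]
  have hf'int : IntegrableOn f' (Ioi 0) := by
    refine (((i0.const_mul z).add ((i0.const_mul _).add (i1.const_mul _))).sub (i2.const_mul _)).sub
      (i3.const_mul _)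
  have hlim := tendsto_zero_of_hasDerivAt_of_integrableOn_Ioi hder hf'int hfint
  have hcont : ContinuousWithinAt f (Ici 0) 0 := by
    apply ContinuousAt.continuousWithinAt
    apply ContinuousAt.mul
    · exact Complex.continuousAt_ofReal_cpow_const 0 z (Or.inl hz)
    · apply Continuous.continuousAt
      have := xg_cont τ Δ
      fun_prop
  have hint := integral_Ioi_of_hasDerivAt_of_tendsto hcont hder hf'int hlim
  have hf0 : f 0 = 0 := by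
    have hz0 : z ≠ 0 := by
      intro h; rw [h] at hz; simp at hz
    simp only [hf, Complex.ofReal_zero, Complex.zero_cpow hz0, zero_mul]
  rw [hf0, sub_zero] at hint
  have hexp : ∫ y in Ioi (0 : ℝ), f' y = z * Mi τ Δ z i + ((i : ℂ) * Mi τ Δ z i +
      (i : ℂ) * ((τ / Δ : ℝ) : ℂ) * Mi τ Δ z (i - 1)) -
      2 * Mi τ Δ z (i + 2) - 2 * ((τ / Δ : ℝ) : ℂ) * Mi τ Δ z (i + 1) := by
    simp only [hf', Mi]
    rw [integral_sub, integral_sub, integral_add, integral_add]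
    · simp only [integral_const_mul]
    · exact i0.const_mul _
    · exact i1.const_mul _
    · exact i0.const_mul _
    · exact (i0.const_mul _).add (i1.const_mul _)
    · exact (i0.const_mul _).add ((i0.const_mul _).add (i1.const_mul _))
    · exact i2.const_mul _
    · exact ((i0.const_mul _).add ((i0.const_mul _).add (i1.const_mul _))).sub (i2.const_mul _)
    · exact i3.const_mul _
  rw [hexp] at hint
  linear_combination hint

theorem Mi_decay (m : ℕ) : ∀ i : ℕ, ∃ C : ℝ, 0 < C ∧ ∀ (τ Δ : ℝ) (z : ℂ), 1 ≤ Δ → Δ ≤ τ → 1 / 2 ≤ z.re →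
    z.re ≤ 2 → ‖z‖ ^ m * ‖Mi τ Δ z i‖ ≤ C * τ ^ z.re * (τ / Δ) ^ m := by
  induction m with
  | zero =>
    intro i
    obtain ⟨C, hC, h⟩ := Mi_base i
    refine ⟨C, hC, fun τ Δ z a b c d => ?_⟩
    simpa using h τ Δ z a b c d
  | succ m ih =>
    intro i
    obtain ⟨C0, hC0, h0⟩ := ih i
    obtain ⟨C1, hC1, h1⟩ := ih (i - 1)
    obtain ⟨C2, hC2, h2⟩ := ih (i + 2)
    obtain ⟨C3, hC3, h3⟩ := ih (i + 1)
    refine ⟨i * C0 + i * C1 + 2 * C2 + 2 * C3, by positivity, ?_⟩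
    intro τ Δ z hΔ hτ hz1 hz2
    have hΔ0 : 0 < Δ := by linarith
    have hτ0 : 0 < τ := by linarith
    have hV : 1 ≤ τ / Δ := by rw [le_div_iff₀ hΔ0]; linarith
    set V := τ / Δ with hVd
    have hibp := Mi_ibp i (τ := τ) (Δ := Δ) (z := z) hΔ hτ (by linarith)
    rw [← hVd] at hibp
    have hn : ‖z‖ * ‖Mi τ Δ z i‖ ≤ i * ‖Mi τ Δ z i‖ + i * V * ‖Mi τ Δ z (i - 1)‖ +
        2 * ‖Mi τ Δ z (i + 2)‖ + 2 * V * ‖Mi τ Δ z (i + 1)‖ := by
      rw [← norm_mul, hibp]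
      refine (norm_add_le _ _).trans ?_
      refine add_le_add ((norm_add_le _ _).trans ?_) ?_
      · refine add_le_add ?_ ?_
        · rw [norm_neg]
          refine (norm_add_le _ _).trans ?_
          rw [norm_mul, norm_mul, norm_mul, Complex.norm_natCast, Complex.norm_real, Real.norm_of_nonneg (by linarith)]
        · rw [norm_mul]; simp
      · rw [norm_mul, norm_mul, Complex.norm_real, Real.norm_of_nonneg (by linarith)]; simp
    have k0 := h0 τ Δ z hΔ hτ hz1 hz2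
    have k1 := h1 τ Δ z hΔ hτ hz1 hz2
    have k2 := h2 τ Δ z hΔ hτ hz1 hz2
    have k3 := h3 τ Δ z hΔ hτ hz1 hz2
    rw [← hVd] at k0 k1 k2 k3
    have hT : 0 < τ ^ z.re := Real.rpow_pos_of_pos hτ0 _
    have hVm : 0 < V ^ m := by positivity
    have hzm : 0 ≤ ‖z‖ ^ m := by positivity
    have hi : (0 : ℝ) ≤ i := Nat.cast_nonneg i
    calc ‖z‖ ^ (m + 1) * ‖Mi τ Δ z i‖ = ‖z‖ ^ m * (‖z‖ * ‖Mi τ Δ z i‖) := by ring
      _ ≤ ‖z‖ ^ m * (i * ‖Mi τ Δ z i‖ + i * V * ‖Mi τ Δ z (i - 1)‖ +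
        2 * ‖Mi τ Δ z (i + 2)‖ + 2 * V * ‖Mi τ Δ z (i + 1)‖) := mul_le_mul_of_nonneg_left hn hzm
      _ = i * (‖z‖ ^ m * ‖Mi τ Δ z i‖) + i * V * (‖z‖ ^ m * ‖Mi τ Δ z (i - 1)‖) +
        2 * (‖z‖ ^ m * ‖Mi τ Δ z (i + 2)‖) + 2 * V * (‖z‖ ^ m * ‖Mi τ Δ z (i + 1)‖) := by ring
      _ ≤ i * (C0 * τ ^ z.re * V ^ m) + i * V * (C1 * τ ^ z.re * V ^ m) +
        2 * (C2 * τ ^ z.re * V ^ m) + 2 * V * (C3 * τ ^ z.re * V ^ m) := by gcongr
      _ ≤ i * V * (C0 * τ ^ z.re * V ^ m) + i * V * (C1 * τ ^ z.re * V ^ m) +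
        2 * V * (C2 * τ ^ z.re * V ^ m) + 2 * V * (C3 * τ ^ z.re * V ^ m) := by
          have a1 : (i : ℝ) * (C0 * τ ^ z.re * V ^ m) ≤ i * V * (C0 * τ ^ z.re * V ^ m) := by
            apply mul_le_mul_of_nonneg_right _ (by positivity)
            nlinarith
          have a2 : 2 * (C2 * τ ^ z.re * V ^ m) ≤ 2 * V * (C2 * τ ^ z.re * V ^ m) := by
            apply mul_le_mul_of_nonneg_right _ (by positivity)
            linarith
          linarith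
      _ = _ := by ring

theorem Gh_eq_Mi (τ Δ : ℝ) (z : ℂ) : Gh τ Δ z = Mi τ Δ z 0 := by
  unfold Gh mellin Mi
  refine setIntegral_congr_fun measurableSet_Ioi (fun y _ => ?_)
  simp [mi, GG_xg]

theorem gh_decay (m : ℕ) : ∃ C : ℝ, 0 < C ∧ ∀ (τ Δ : ℝ) (z : ℂ), 1 ≤ Δ → Δ ≤ τ → 1 / 2 ≤ z.re → z.re ≤ 2 →
    ‖Gh τ Δ z‖ ≤ C * τ ^ z.re * (τ / Δ) ^ m / (1 + |z.im|) ^ m := by
  obtain ⟨C, hC, h⟩ := Mi_decay m 0
  refine ⟨3 ^ m * C, by positivity, ?_⟩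
  intro τ Δ z hΔ hτ h1 h2
  have k := h τ Δ z hΔ hτ h1 h2
  rw [← Gh_eq_Mi] at k
  have hden : 0 < (1 + |z.im|) ^ m := by positivity
  rw [le_div_iff₀ hden]
  have h3 : 1 + |z.im| ≤ 3 * ‖z‖ := by
    have a := Complex.abs_im_le_norm z
    have b := (le_abs_self _).trans (Complex.abs_re_le_norm z)
    linarith
  have h4 : (1 + |z.im|) ^ m ≤ (3 * ‖z‖) ^ m := pow_le_pow_left₀ (by positivity) h3 m
  calc ‖Gh τ Δ z‖ * (1 + |z.im|) ^ m ≤ ‖Gh τ Δ z‖ * (3 * ‖z‖) ^ m := mul_le_mul_of_nonneg_left h4 (norm_nonneg _)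
    _ = 3 ^ m * (‖z‖ ^ m * ‖Gh τ Δ z‖) := by ring
    _ ≤ 3 ^ m * (C * τ ^ z.re * (τ / Δ) ^ m) := mul_le_mul_of_nonneg_left k (by positivity)
    _ = _ := by ring

theorem gh_inv {τ Δ y : ℝ} (hΔ : 1 ≤ Δ) (hτ : Δ ≤ τ) (hy : 0 < y) :
    (GG τ Δ y : ℂ) = (1 / (2 * Real.pi)) * ∫ ξ : ℝ, Gh τ Δ (2 + ξ * I) * (y : ℂ) ^ (-(2 + ξ * I)) := by
  have hΔ0 : 0 < Δ := by linarith
  have hτ0 : 0 < τ := by linarith
  have hconv : MellinConvergent (fun y : ℝ => (GG τ Δ y : ℂ)) ((2 : ℝ) : ℂ) := gh_conv hΔ0 (by simp)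
  have hv : VerticalIntegrable (mellin (fun y : ℝ => (GG τ Δ y : ℂ))) (2 : ℝ) := by
    obtain ⟨C, hC, h⟩ := gh_decay 2
    refine Integrable.mono' (g := fun ξ : ℝ => C * τ ^ (2 : ℝ) * (τ / Δ) ^ 2 * (1 + ξ ^ 2)⁻¹)
      (integrable_inv_one_add_sq.const_mul _) ?_ ?_
    · apply Continuous.aestronglyMeasurable
      rw [continuous_iff_continuousAt]
      intro ξ
      have h1 := (gh_diffAt (τ := τ) hΔ0 (z := (2 : ℝ) + ξ * I) (by simp)).continuousAt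
      exact ContinuousAt.comp (f := fun ξ : ℝ => ((2 : ℝ) : ℂ) + ξ * I) h1 (by fun_prop)
    · refine Eventually.of_forall fun ξ => ?_
      have h1 := h τ Δ ((2 : ℝ) + ξ * I) hΔ hτ (by simp; norm_num) (by simp)
      have e1 : (((2 : ℝ) : ℂ) + ξ * I).re = 2 := by simp
      have e2 : (((2 : ℝ) : ℂ) + ξ * I).im = ξ := by simp
      rw [e1, e2] at h1
      refine h1.trans ?_
      rw [div_eq_mul_inv]
      apply mul_le_mul_of_nonneg_left _ (by positivity)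
      apply inv_anti₀ (by positivity)
      nlinarith [abs_nonneg ξ, sq_abs ξ]
  have hfx : ContinuousAt (fun y : ℝ => (GG τ Δ y : ℂ)) y :=
    (Complex.continuous_ofReal.comp (GG_cont τ Δ)).continuousAt
  have key := mellinInv_mellin_eq 2 _ hy hconv hv hfx
  have e : (GG τ Δ y : ℂ) = mellinInv 2 (mellin (fun y : ℝ => (GG τ Δ y : ℂ))) y := key.symm
  rw [e, mellinInv]
  rw [Complex.real_smul]
  push_cast
  congr 1
  refine integral_congr_ae (Eventually.of_forall fun ξ => ?_)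
  simp only [smul_eq_mul, Gh]
  rw [mul_comm]

theorem xg_gauss {τ Δ k : ℝ} (hΔ : 0 < Δ) (hk : 0 < k) :
    Integrable (fun y : ℝ => Real.exp (-(k * xg τ Δ y ^ 2))) ∧
    ∫ y : ℝ, Real.exp (-(k * xg τ Δ y ^ 2)) = √(Real.pi / (k * (2 * Real.pi / Δ) ^ 2)) := by
  have hb : 0 < k * (2 * Real.pi / Δ) ^ 2 := by have := Real.pi_pos; positivity
  have he : (fun y : ℝ => Real.exp (-(k * xg τ Δ y ^ 2))) =
      fun y => Real.exp (-(k * (2 * Real.pi / Δ) ^ 2) * (y - τ / (2 * Real.pi)) ^ 2) := by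
    funext y
    congr 1
    have : xg τ Δ y = (2 * Real.pi / Δ) * (y - τ / (2 * Real.pi)) := by
      have := Real.pi_pos
      unfold xg
      field_simp
    rw [this]
    ring
  constructor
  · rw [he]
    exact (integrable_exp_neg_mul_sq hb).comp_sub_right _
  · rw [he, integral_sub_right_eq_self (fun y : ℝ => Real.exp (-(k * (2 * Real.pi / Δ) ^ 2) * y ^ 2)),
      integral_gaussian]

theorem GG_int (τ : ℝ) {Δ : ℝ} (hΔ : 0 < Δ) : Integrable (GG τ Δ) ∧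
    ∫ y : ℝ, GG τ Δ y = Δ * √Real.pi / (2 * Real.pi) := by
  have h := xg_gauss (τ := τ) hΔ one_pos
  have he : (fun y : ℝ => Real.exp (-(1 * xg τ Δ y ^ 2))) = GG τ Δ := by
    funext y; rw [GG_xg, one_mul]
  rw [he] at h
  refine ⟨h.1, h.2.trans ?_⟩
  have hpi := Real.pi_pos
  rw [Real.sqrt_eq_iff_mul_self_eq (by positivity) (by positivity)]
  have := Real.mul_self_sqrt hpi.le
  field_simp
  nlinarith

theorem sqrt_le_width {Δ k : ℝ} (hΔ : 0 < Δ) (hk : 1 / 2 ≤ k) :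
    √(Real.pi / (k * (2 * Real.pi / Δ) ^ 2)) ≤ Δ := by
  have hpi := Real.pi_gt_three
  rw [Real.sqrt_le_left hΔ.le]
  rw [div_le_iff₀ (by positivity)]
  have : Δ ^ 2 * (k * (2 * Real.pi / Δ) ^ 2) = k * 4 * Real.pi ^ 2 := by
    field_simp
    ring
  rw [this]
  nlinarith [mul_nonneg (by linarith : (0:ℝ) ≤ Real.pi) (by linarith : (0:ℝ) ≤ Real.pi)]

theorem exp_small (η : ℝ) (hη : 0 < η) : ∃ C : ℝ, 0 < C ∧ ∀ τ V : ℝ, 1 ≤ τ → τ ^ η ≤ V →
    Real.exp (-V ^ 2) ≤ C / τ := by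
  obtain ⟨N, hN⟩ := exists_nat_gt (1 / (2 * η))
  have hNη : 1 ≤ 2 * η * N := by
    rw [div_lt_iff₀ (by positivity)] at hN
    linarith
  refine ⟨N.factorial, by exact_mod_cast Nat.factorial_pos N, ?_⟩
  intro τ V hτ hV
  have hτ0 : 0 < τ := by linarith
  have hV1 : 1 ≤ V := (Real.one_le_rpow hτ hη.le).trans hV
  have h1 := Real.pow_div_factorial_le_exp (V ^ 2) (by positivity) N
  have hf : (0 : ℝ) < N.factorial := by exact_mod_cast Nat.factorial_pos N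
  have h2 : τ ≤ (V ^ 2) ^ N := by
    calc τ = τ ^ (1 : ℝ) := (Real.rpow_one τ).symm
      _ ≤ τ ^ (2 * η * N) := Real.rpow_le_rpow_of_exponent_le hτ hNη
      _ = (τ ^ η) ^ (2 * N) := by
        rw [← Real.rpow_natCast, ← Real.rpow_mul hτ0.le]
        congr 1
        push_cast
        ring
      _ ≤ V ^ (2 * N) := pow_le_pow_left₀ (by positivity) hV _
      _ = (V ^ 2) ^ N := by rw [pow_mul]
  have h3 : τ / N.factorial ≤ Real.exp (V ^ 2) := (div_le_div_of_nonneg_right h2 hf.le).trans h1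
  rw [Real.exp_neg, inv_le_comm₀ (Real.exp_pos _) (by positivity), inv_div]
  exact h3

theorem Gh_one_eq (τ Δ : ℝ) : Gh τ Δ 1 = ((∫ y in Ioi (0 : ℝ), GG τ Δ y : ℝ) : ℂ) := by
  rw [← integral_complex_ofReal]
  unfold Gh mellin
  refine setIntegral_congr_fun measurableSet_Ioi (fun y _ => ?_)
  simp

theorem gh_one (η : ℝ) (hη : 0 < η) : ∃ C : ℝ, 0 < C ∧ ∀ τ Δ : ℝ, 1 ≤ Δ → 1 ≤ τ → τ ^ η ≤ τ / Δ →
    ‖Gh τ Δ 1 - (Δ * Real.sqrt Real.pi / (2 * Real.pi) : ℝ)‖ ≤ C * (Δ / τ) := by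
  obtain ⟨C, hC, h⟩ := exp_small η hη
  refine ⟨C, hC, ?_⟩
  intro τ Δ hΔ hτ hV
  have hΔ0 : 0 < Δ := by linarith
  have hτ0 : 0 < τ := by linarith
  have hpi := Real.pi_pos
  obtain ⟨hi, hv⟩ := GG_int τ hΔ0
  have hsplit := intervalIntegral.integral_Iic_add_Ioi (b := (0 : ℝ)) hi.integrableOn hi.integrableOn
  rw [hv] at hsplit
  rw [Gh_one_eq, ← hsplit, ← Complex.ofReal_sub, Complex.norm_real, Real.norm_eq_abs]
  have e : (∫ y in Ioi (0 : ℝ), GG τ Δ y) - ((∫ y in Iic (0 : ℝ), GG τ Δ y) + ∫ y in Ioi (0 : ℝ), GG τ Δ y) =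
      - ∫ y in Iic (0 : ℝ), GG τ Δ y := by ring
  rw [e, abs_neg, abs_of_nonneg (setIntegral_nonneg measurableSet_Iic (fun y _ => (GG_pos _ _ _).le))]
  obtain ⟨gi, gv⟩ := xg_gauss (τ := 0) hΔ0 one_pos
  have hle : ∫ y in Iic (0 : ℝ), GG τ Δ y ≤
      ∫ y in Iic (0 : ℝ), Real.exp (-(τ / Δ) ^ 2) * Real.exp (-(1 * xg 0 Δ y ^ 2)) := by
    refine setIntegral_mono_on hi.integrableOn (gi.const_mul _).integrableOn measurableSet_Iic ?_
    intro y hy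
    have hy' : y ≤ 0 := hy
    rw [GG_xg, ← Real.exp_add, Real.exp_le_exp]
    have e1 : xg τ Δ y = xg 0 Δ y - τ / Δ := by
      unfold xg; field_simp; ring
    have e2 : xg 0 Δ y ≤ 0 := by
      unfold xg
      apply div_nonpos_of_nonpos_of_nonneg _ hΔ0.le
      nlinarith
    have e3 : 0 < τ / Δ := by positivity
    rw [e1]
    nlinarith
  have hle2 : ∫ y in Iic (0 : ℝ), Real.exp (-(τ / Δ) ^ 2) * Real.exp (-(1 * xg 0 Δ y ^ 2)) ≤
      Real.exp (-(τ / Δ) ^ 2) * Δ := by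
    refine (setIntegral_le_integral (gi.const_mul _) (Eventually.of_forall fun y => ?_)).trans ?_
    · positivity
    · rw [integral_const_mul, gv]
      exact mul_le_mul_of_nonneg_left (sqrt_le_width hΔ0 (by norm_num)) (Real.exp_pos _).le
  have h3 := h τ (τ / Δ) hτ hV
  calc _ ≤ Real.exp (-(τ / Δ) ^ 2) * Δ := hle.trans hle2
    _ ≤ C / τ * Δ := mul_le_mul_of_nonneg_right h3 hΔ0.le
    _ = C * (Δ / τ) := by ring

theorem x_exp_le (x : ℝ) : |x| * Real.exp (-(1 / 2 * x ^ 2)) ≤ 1 := by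
  have h1 : |x| ≤ Real.exp (1 / 2 * x ^ 2) := by
    have := Real.add_one_le_exp (1 / 2 * x ^ 2)
    nlinarith [sq_abs x, sq_nonneg (|x| - 1)]
  rw [Real.exp_neg]
  rw [← div_eq_mul_inv, div_le_one (Real.exp_pos _)]
  exact h1

theorem pt_log {τ Δ y : ℝ} (hΔ : 1 ≤ Δ) (hτ : Δ ≤ τ) (hy : 0 < y) :
    GG τ Δ y * (1 + Real.log (y / τ) ^ 2) ≤ 416 * (Real.exp (-(1 / 2 * xg τ Δ y ^ 2)) +
      Real.exp (-((τ / Δ) ^ 2 / 4)) * τ ^ (1 / 2 : ℝ) * (y ^ ((1 / 2 : ℝ) - 1) * Real.exp (-(1 / τ * y)))) := by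
  have hpi := Real.pi_gt_three
  have hpi2 := Real.pi_lt_d2
  have hτ0 : 0 < τ := by linarith
  have hΔ0 : 0 < Δ := by linarith
  have hV : 1 ≤ τ / Δ := by rw [le_div_iff₀ hΔ0]; linarith
  set V := τ / Δ with hVd
  set r := y / τ with hr
  have hr0 : 0 < r := by positivity
  set x := xg τ Δ y with hx
  have e1 : x = V * (2 * Real.pi * r - 1) := by
    rw [hx, hVd, hr]; unfold xg; field_simp
  have hA : 0 ≤ Real.exp (-(V ^ 2 / 4)) * τ ^ (1 / 2 : ℝ) * (y ^ ((1 / 2 : ℝ) - 1) * Real.exp (-(1 / τ * y))) := by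
    positivity
  rw [GG_xg, ← hx]
  by_cases hc : 1 / (4 * Real.pi) ≤ r
  · have hl1 : Real.log r ≤ 2 * r ^ (1 / 2 : ℝ) := by
      have := Real.log_le_rpow_div hr0.le (ε := 1 / 2) (by norm_num)
      linarith
    have hl2 : -Real.log r ≤ 4 * Real.pi := by
      have h1 : Real.log (1 / (4 * Real.pi)) ≤ Real.log r := Real.log_le_log (by positivity) hc
      rw [one_div, Real.log_inv] at h1
      have h2 := Real.log_le_sub_one_of_pos (show 0 < 4 * Real.pi by positivity)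
      linarith
    have hrs : (r ^ (1 / 2 : ℝ)) ^ 2 = r := by
      rw [← Real.rpow_natCast, ← Real.rpow_mul hr0.le]; norm_num
    have hrp : 0 ≤ r ^ (1 / 2 : ℝ) := by positivity
    have hlog : Real.log r ^ 2 ≤ 8 * r + 32 * Real.pi ^ 2 := by
      have ha : |Real.log r| ≤ 2 * r ^ (1 / 2 : ℝ) + 4 * Real.pi := by
        rw [abs_le]; constructor <;> linarith
      have hb : Real.log r ^ 2 ≤ (2 * r ^ (1 / 2 : ℝ) + 4 * Real.pi) ^ 2 := by
        rw [← sq_abs (Real.log r)]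
        exact pow_le_pow_left₀ (abs_nonneg _) ha 2
      nlinarith [sq_nonneg (2 * r ^ (1 / 2 : ℝ) - 4 * Real.pi)]
    have hrx : r ≤ |x| + 1 := by
      have h1 : V * (2 * Real.pi * r - 1) ≤ |x| := by rw [← e1]; exact le_abs_self x
      by_contra hcon
      push Not at hcon
      have h2 : 0 ≤ |x| := abs_nonneg x
      have h3 : 1 < r := by linarith
      have h4 : r ≤ 2 * Real.pi * r - 1 := by nlinarith
      nlinarith
    have hsum : 1 + Real.log r ^ 2 ≤ 8 * |x| + 408 := by nlinarith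
    have hE : Real.exp (-x ^ 2) = Real.exp (-(1 / 2 * x ^ 2)) * Real.exp (-(1 / 2 * x ^ 2)) := by
      rw [← Real.exp_add]; congr 1; ring
    have hxe := x_exp_le x
    have hle1 : Real.exp (-(1 / 2 * x ^ 2)) ≤ 1 := by
      rw [Real.exp_le_one_iff]; nlinarith [sq_nonneg x]
    have hpos := Real.exp_pos (-(1 / 2 * x ^ 2))
    calc Real.exp (-x ^ 2) * (1 + Real.log r ^ 2) ≤ Real.exp (-x ^ 2) * (8 * |x| + 408) :=
          mul_le_mul_of_nonneg_left hsum (Real.exp_pos _).le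
      _ = Real.exp (-(1 / 2 * x ^ 2)) * (8 * (|x| * Real.exp (-(1 / 2 * x ^ 2))) +
            408 * Real.exp (-(1 / 2 * x ^ 2))) := by rw [hE]; ring
      _ ≤ Real.exp (-(1 / 2 * x ^ 2)) * (8 * 1 + 408 * 1) := by gcongr
      _ = 416 * Real.exp (-(1 / 2 * x ^ 2)) := by ring
      _ ≤ _ := by
        apply mul_le_mul_of_nonneg_left _ (by norm_num)
        linarith
  · push Not at hc
    have hr1 : r < 1 := by
      refine hc.trans ?_
      rw [div_lt_one (by positivity)]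
      linarith
    have hx2 : V ^ 2 / 4 ≤ x ^ 2 := by
      have h1 : 2 * Real.pi * r ≤ 1 / 2 := by
        rw [lt_div_iff₀ (by positivity)] at hc
        linarith
      have h2 : V / 2 ≤ -x := by
        rw [e1]
        nlinarith
      nlinarith
    have hGe : Real.exp (-x ^ 2) ≤ Real.exp (-(V ^ 2 / 4)) := by
      rw [Real.exp_le_exp]; linarith
    have hlg : -Real.log r ≤ 4 * (r⁻¹) ^ (1 / 4 : ℝ) := by
      have := Real.log_le_rpow_div (x := r⁻¹) (by positivity) (ε := 1 / 4) (by norm_num)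
      rw [Real.log_inv] at this
      linarith
    have hln : 0 ≤ -Real.log r := by
      have := Real.log_nonpos hr0.le hr1.le
      linarith
    have hq : ((r⁻¹) ^ (1 / 4 : ℝ)) ^ 2 = (r⁻¹) ^ (1 / 2 : ℝ) := by
      rw [← Real.rpow_natCast, ← Real.rpow_mul (by positivity)]; norm_num
    have hl2 : Real.log r ^ 2 ≤ 16 * (r⁻¹) ^ (1 / 2 : ℝ) := by
      have := pow_le_pow_left₀ hln hlg 2
      rw [neg_sq, mul_pow, hq] at this
      linarith
    have h1r : 1 ≤ (r⁻¹) ^ (1 / 2 : ℝ) := by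
      apply Real.one_le_rpow _ (by norm_num)
      rw [one_le_inv₀ hr0]
      exact hr1.le
    have he3 : 1 ≤ 3 * Real.exp (-(1 / τ * y)) := by
      have e5 : 1 / τ * y = r := by rw [hr]; ring
      rw [e5]
      have h6 : Real.exp (-1) ≤ Real.exp (-r) := by rw [Real.exp_le_exp]; linarith
      have h7 : (1 : ℝ) / 3 ≤ Real.exp (-1) := by
        rw [Real.exp_neg, one_div]
        apply inv_anti₀ (Real.exp_pos 1)
        have := Real.exp_one_lt_d9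
        linarith
      linarith
    have hrr : (r⁻¹) ^ (1 / 2 : ℝ) = τ ^ (1 / 2 : ℝ) * y ^ ((1 / 2 : ℝ) - 1) := by
      rw [hr, inv_div, Real.div_rpow hτ0.le hy.le, div_eq_mul_inv]
      congr 1
      rw [← Real.rpow_neg hy.le]
      norm_num
    have hsum : 1 + Real.log r ^ 2 ≤ 51 * (τ ^ (1 / 2 : ℝ) * y ^ ((1 / 2 : ℝ) - 1) * Real.exp (-(1 / τ * y))) := by
      rw [← hrr]
      have : (r⁻¹) ^ (1 / 2 : ℝ) ≤ (r⁻¹) ^ (1 / 2 : ℝ) * (3 * Real.exp (-(1 / τ * y))) := by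
        apply le_mul_of_one_le_right (by positivity) he3
      linarith
    have hB : 0 ≤ τ ^ (1 / 2 : ℝ) * y ^ ((1 / 2 : ℝ) - 1) * Real.exp (-(1 / τ * y)) := by positivity
    calc Real.exp (-x ^ 2) * (1 + Real.log r ^ 2) ≤ Real.exp (-(V ^ 2 / 4)) *
          (51 * (τ ^ (1 / 2 : ℝ) * y ^ ((1 / 2 : ℝ) - 1) * Real.exp (-(1 / τ * y)))) := by
          apply mul_le_mul hGe hsum (by positivity) (Real.exp_pos _).le
      _ ≤ Real.exp (-(V ^ 2 / 4)) *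
          (416 * (τ ^ (1 / 2 : ℝ) * y ^ ((1 / 2 : ℝ) - 1) * Real.exp (-(1 / τ * y)))) := by
          apply mul_le_mul_of_nonneg_left _ (Real.exp_pos _).le
          linarith
      _ = 416 * (Real.exp (-(V ^ 2 / 4)) * τ ^ (1 / 2 : ℝ) * (y ^ ((1 / 2 : ℝ) - 1) * Real.exp (-(1 / τ * y)))) := by
          ring
      _ ≤ _ := by
        apply mul_le_mul_of_nonneg_left _ (by norm_num)
        have := Real.exp_pos (-(1 / 2 * x ^ 2))
        linarith

/-- The dominating function. -/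
noncomputable def dom (τ Δ y : ℝ) : ℝ := 416 * (Real.exp (-(1 / 2 * xg τ Δ y ^ 2)) +
      Real.exp (-((τ / Δ) ^ 2 / 4)) * τ ^ (1 / 2 : ℝ) * (y ^ ((1 / 2 : ℝ) - 1) * Real.exp (-(1 / τ * y))))

theorem dom_int {τ Δ : ℝ} (hΔ : 1 ≤ Δ) (hτ : Δ ≤ τ) : IntegrableOn (dom τ Δ) (Ioi 0) ∧
    ∫ y in Ioi (0 : ℝ), dom τ Δ y ≤ 4000 * Δ := by
  have hτ0 : 0 < τ := by linarith
  have hΔ0 : 0 < Δ := by linarith
  have hV : 1 ≤ τ / Δ := by rw [le_div_iff₀ hΔ0]; linarith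
  obtain ⟨gi, gv⟩ := xg_gauss (τ := τ) hΔ0 (show (0 : ℝ) < 1 / 2 by norm_num)
  have ki := ker_int (σ := 1 / 2) hτ0 (by norm_num)
  constructor
  · exact (gi.integrableOn.add (ki.const_mul _)).const_mul _
  · unfold dom
    rw [integral_const_mul, integral_add gi.integrableOn (ki.const_mul _), integral_const_mul,
      Real.integral_rpow_mul_exp_neg_mul_Ioi (by norm_num) (by positivity), one_div_one_div]
    have h1 : ∫ y in Ioi (0 : ℝ), Real.exp (-(1 / 2 * xg τ Δ y ^ 2)) ≤ Δ := by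
      refine (setIntegral_le_integral gi (Eventually.of_forall fun y => (Real.exp_pos _).le)).trans ?_
      rw [gv]
      exact sqrt_le_width hΔ0 le_rfl
    have h2 : Real.exp (-((τ / Δ) ^ 2 / 4)) ≤ 4 / (τ / Δ) := by
      have h3 : (τ / Δ) / 4 ≤ Real.exp ((τ / Δ) ^ 2 / 4) := by
        have := Real.add_one_le_exp ((τ / Δ) ^ 2 / 4)
        nlinarith
      rw [Real.exp_neg, inv_le_comm₀ (Real.exp_pos _) (by positivity), inv_div]
      exact h3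
    have h4 : τ ^ (1 / 2 : ℝ) * (τ ^ (1 / 2 : ℝ)) = τ := by
      rw [← Real.rpow_add hτ0]; norm_num
    have h5 : Real.Gamma (1 / 2) ≤ 2 := by
      rw [Real.Gamma_one_half_eq]
      rw [Real.sqrt_le_left (by norm_num)]
      have := Real.pi_lt_d2
      norm_num
      linarith
    have h6 : Real.exp (-((τ / Δ) ^ 2 / 4)) * τ ^ (1 / 2 : ℝ) * (τ ^ (1 / 2 : ℝ) * Real.Gamma (1 / 2)) ≤ 8 * Δ := by
      calc _ = Real.exp (-((τ / Δ) ^ 2 / 4)) * (τ ^ (1 / 2 : ℝ) * (τ ^ (1 / 2 : ℝ))) * Real.Gamma (1 / 2) := by ring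
        _ = Real.exp (-((τ / Δ) ^ 2 / 4)) * τ * Real.Gamma (1 / 2) := by rw [h4]
        _ ≤ 4 / (τ / Δ) * τ * 2 := by gcongr
        _ = 8 * Δ := by field_simp; ring
    linarith

theorem GGl_meas (τ Δ : ℝ) (j : ℕ) : AEStronglyMeasurable (fun y : ℝ => GG τ Δ y * Real.log (y / τ) ^ j)
    (volume.restrict (Ioi (0 : ℝ))) := by
  apply Measurable.aestronglyMeasurable
  have := (GG_cont τ Δ).measurable
  fun_prop

theorem GGl_int {τ Δ : ℝ} (hΔ : 1 ≤ Δ) (hτ : Δ ≤ τ) {j : ℕ} (hj : j = 1 ∨ j = 2) :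
    IntegrableOn (fun y : ℝ => GG τ Δ y * Real.log (y / τ) ^ j) (Ioi 0) ∧
    |∫ y in Ioi (0 : ℝ), GG τ Δ y * Real.log (y / τ) ^ j| ≤ 4000 * Δ := by
  obtain ⟨di, dv⟩ := dom_int hΔ hτ
  have hb : ∀ y ∈ Ioi (0 : ℝ), ‖GG τ Δ y * Real.log (y / τ) ^ j‖ ≤ dom τ Δ y := by
    intro y hy
    rw [norm_mul, Real.norm_of_nonneg (GG_pos _ _ _).le, norm_pow, Real.norm_eq_abs]
    refine le_trans (mul_le_mul_of_nonneg_left ?_ (GG_pos _ _ _).le) (pt_log hΔ hτ hy)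
    rcases hj with rfl | rfl
    · nlinarith [sq_abs (Real.log (y / τ)), sq_nonneg (|Real.log (y / τ)| - 1)]
    · rw [sq_abs]; linarith
  refine ⟨Integrable.mono' di (GGl_meas τ Δ j)
    ((ae_restrict_iff' measurableSet_Ioi).mpr (Eventually.of_forall hb)), ?_⟩
  refine le_trans ?_ dv
  exact norm_integral_le_of_norm_le di ((ae_restrict_iff' measurableSet_Ioi).mpr (Eventually.of_forall hb))

/-- The first derivative. -/
theorem gh_hasDeriv {τ Δ : ℝ} (hΔ : 0 < Δ) {z : ℂ} (hz : 0 < z.re) :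
    HasDerivAt (Gh τ Δ) (mellin (fun t : ℝ => Real.log t • (GG τ Δ t : ℂ)) z) z :=
  (mellin_hasDerivAt_of_isBigO_rpow (a := z.re + 1) (b := 0) (GG_loc τ Δ)
    ((GG_top hΔ).trans (isLittleO_exp_neg_mul_rpow_atTop one_pos _).isBigO) (lt_add_one _) (GG_bot τ Δ) hz).2

theorem gh_hasDeriv2 {τ Δ : ℝ} (hΔ : 0 < Δ) {z : ℂ} (hz : 0 < z.re) :
    HasDerivAt (mellin (fun t : ℝ => Real.log t • (GG τ Δ t : ℂ)))
      (mellin (fun t : ℝ => Real.log t • (Real.log t • (GG τ Δ t : ℂ))) z) z := by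
  have h1 : (fun t : ℝ => Real.log t • (GG τ Δ t : ℂ)) =O[atTop] (fun x : ℝ => x ^ (-(z.re + 1))) :=
    isBigO_rpow_top_log_smul (a := z.re + 2) (by linarith)
      ((GG_top hΔ).trans (isLittleO_exp_neg_mul_rpow_atTop one_pos _).isBigO)
  have h2 : (fun t : ℝ => Real.log t • (GG τ Δ t : ℂ)) =O[𝓝[>] 0] (fun x : ℝ => x ^ (-(z.re / 2))) :=
    isBigO_rpow_zero_log_smul (a := 0) (by linarith) (GG_bot τ Δ)
  have h3 : LocallyIntegrableOn (fun t : ℝ => Real.log t • (GG τ Δ t : ℂ)) (Ioi 0) := by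
    apply ContinuousOn.locallyIntegrableOn _ measurableSet_Ioi
    have k1 : ContinuousOn Real.log (Ioi (0 : ℝ)) := Real.continuousOn_log.mono (fun x hx => (ne_of_gt hx))
    have k2 : ContinuousOn (fun t : ℝ => (GG τ Δ t : ℂ)) (Ioi 0) :=
      (Complex.continuous_ofReal.comp (GG_cont τ Δ)).continuousOn
    exact k1.smul k2
  exact (mellin_hasDerivAt_of_isBigO_rpow h3 h1 (lt_add_one _) h2 (by linarith)).2

theorem deriv_one {τ Δ : ℝ} (hΔ : 0 < Δ) :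
    deriv (Gh τ Δ) 1 = ((∫ y in Ioi (0 : ℝ), GG τ Δ y * Real.log y : ℝ) : ℂ) := by
  rw [(gh_hasDeriv hΔ (z := 1) (by simp)).deriv, ← integral_complex_ofReal]
  unfold mellin
  refine setIntegral_congr_fun measurableSet_Ioi (fun y _ => ?_)
  simp [mul_comm]

theorem deriv_two {τ Δ : ℝ} (hΔ : 0 < Δ) :
    deriv (deriv (Gh τ Δ)) 1 = ((∫ y in Ioi (0 : ℝ), GG τ Δ y * Real.log y ^ 2 : ℝ) : ℂ) := by
  have hev : deriv (Gh τ Δ) =ᶠ[𝓝 1] mellin (fun t : ℝ => Real.log t • (GG τ Δ t : ℂ)) := by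
    have ho : IsOpen {z : ℂ | 0 < z.re} := isOpen_lt continuous_const Complex.continuous_re
    filter_upwards [ho.mem_nhds (show (1 : ℂ) ∈ {z : ℂ | 0 < z.re} by simp)] with z hz
    exact (gh_hasDeriv hΔ hz).deriv
  rw [hev.deriv_eq, (gh_hasDeriv2 hΔ (z := 1) (by simp)).deriv, ← integral_complex_ofReal]
  unfold mellin
  refine setIntegral_congr_fun measurableSet_Ioi (fun y _ => ?_)
  simp
  ring

theorem gh_one1 : ∃ C : ℝ, 0 < C ∧ ∀ τ Δ : ℝ, 1 ≤ Δ → Δ ≤ τ →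
    ‖deriv (Gh τ Δ) 1 - Real.log τ * Gh τ Δ 1‖ ≤ C * Δ := by
  refine ⟨4000, by norm_num, ?_⟩
  intro τ Δ hΔ hτ
  have hτ0 : 0 < τ := by linarith
  have hΔ0 : 0 < Δ := by linarith
  obtain ⟨li, lv⟩ := GGl_int hΔ hτ (j := 1) (Or.inl rfl)
  have gi := (GG_int τ hΔ0).1.integrableOn (s := Ioi (0 : ℝ))
  have h1 : ∫ y in Ioi (0 : ℝ), GG τ Δ y * Real.log y =
      (∫ y in Ioi (0 : ℝ), GG τ Δ y * Real.log (y / τ) ^ 1) + Real.log τ * ∫ y in Ioi (0 : ℝ), GG τ Δ y := by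
    rw [← integral_const_mul, ← integral_add li (gi.const_mul _)]
    refine setIntegral_congr_fun measurableSet_Ioi (fun y hy => ?_)
    have hy' : (0 : ℝ) < y := hy
    simp only [pow_one]
    rw [Real.log_div hy'.ne' hτ0.ne']
    ring
  rw [deriv_one hΔ0, Gh_one_eq, h1, ← Complex.ofReal_mul, ← Complex.ofReal_sub, Complex.norm_real,
    add_sub_cancel_right]
  exact lv

theorem gh_one2 : ∃ C : ℝ, 0 < C ∧ ∀ τ Δ : ℝ, 1 ≤ Δ → Δ ≤ τ →
    ‖deriv (deriv (Gh τ Δ)) 1 - (Real.log τ) ^ 2 * Gh τ Δ 1‖ ≤ C * Δ * (1 + Real.log τ) := by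
  refine ⟨8000, by norm_num, ?_⟩
  intro τ Δ hΔ hτ
  have hτ0 : 0 < τ := by linarith
  have hΔ0 : 0 < Δ := by linarith
  obtain ⟨li, lv⟩ := GGl_int hΔ hτ (j := 1) (Or.inl rfl)
  obtain ⟨li2, lv2⟩ := GGl_int hΔ hτ (j := 2) (Or.inr rfl)
  have gi := (GG_int τ hΔ0).1.integrableOn (s := Ioi (0 : ℝ))
  have h1 : ∫ y in Ioi (0 : ℝ), GG τ Δ y * Real.log y ^ 2 =
      ((∫ y in Ioi (0 : ℝ), GG τ Δ y * Real.log (y / τ) ^ 2) +
      2 * Real.log τ * ∫ y in Ioi (0 : ℝ), GG τ Δ y * Real.log (y / τ) ^ 1) +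
      Real.log τ ^ 2 * ∫ y in Ioi (0 : ℝ), GG τ Δ y := by
    have hs : IntegrableOn (fun y : ℝ => GG τ Δ y * Real.log (y / τ) ^ 2 +
        2 * Real.log τ * (GG τ Δ y * Real.log (y / τ) ^ 1)) (Ioi 0) := li2.add (li.const_mul _)
    rw [← integral_const_mul, ← integral_const_mul, ← integral_add li2 (li.const_mul _),
      ← integral_add hs (gi.const_mul _)]
    refine setIntegral_congr_fun measurableSet_Ioi (fun y hy => ?_)
    have hy' : (0 : ℝ) < y := hy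
    simp only [pow_one]
    rw [Real.log_div hy'.ne' hτ0.ne']
    ring
  have hl : 0 ≤ Real.log τ := Real.log_nonneg (by linarith)
  rw [deriv_two hΔ0, Gh_one_eq, h1, ← Complex.ofReal_pow, ← Complex.ofReal_mul, ← Complex.ofReal_sub,
    Complex.norm_real, add_sub_cancel_right, Real.norm_eq_abs]
  refine (abs_add_le _ _).trans ?_
  rw [abs_mul, abs_mul, abs_of_nonneg hl, abs_two]
  have : 2 * Real.log τ * |∫ y in Ioi (0 : ℝ), GG τ Δ y * Real.log (y / τ) ^ 1| ≤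
      2 * Real.log τ * (4000 * Δ) := mul_le_mul_of_nonneg_left lv (by positivity)
  nlinarith

end Pool.Agent.P07318m
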