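import Pool.Agent.Lib.P07318m.Defs
import Pool.Agent.Lib.P07318m.EulerB
import Pool.Agent.Lib.P07318m.GMel
import Pool.Agent.Lib.P4f18dfS.ShiftPoly
import Pool.Agent.Lib.KeZhao.LBounds

/-!
# P07318m.NonPrChar: Mellin representation of a character sum

For `χ ≠ 1` mod `q`, `g, b ≥ 1`:
`∑_m d3(g m) χ(m) G(m b/q) = (1/2π) ∫ Gh(z) (q/b)^z L(z,χ)^3 Bg χ g z dξ`, `z = 1/2 + iξ`.
PROOF. `gh_inv` on `Re z = 2`, interchange sum and integral (`∑ d3(gm) m^{-2} ∫ |Gh(2+iξ)| dξ < ∞`, `gh_decay 2`), `d3_twist`: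
the sum is `(1/2π) ∫ F(2+iξ) dξ` with `F(z) = Gh(z) (q/b)^z L(z,χ)^3 Bg χ g z`. `F` is holomorphic on `{0 < Re z}`
(`DirichletCharacter.differentiable_LFunction` for `χ ≠ 1`, `gh_diff`, `Bg_diff`) and in `1/2 ≤ Re z ≤ 2`
`|L(z,χ)| ≤ q |z| cZ` (`KeZhao.norm_LFunction_le`), `|Gh| ≤ C (1+|ξ|)^{-5}` (`gh_decay 5`), `Bg` bounded: so
`‖F z‖ ≤ K/(1+|Im z|)^2` and `shift_poly_on` moves the line to `Re z = 1/2`.
-/

set_option autoImplicit false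

open MeasureTheory Complex

namespace Pool.Agent.P07318m

open DirichletCharacter

namespace NonPrCharAux

open Pool.Agent.P4f18dfS

/-- the integrand -/
noncomputable def FF {q : ℕ} (χ : DirichletCharacter ℂ q) [NeZero q] (τ Δ : ℝ) (g b : ℕ) (z : ℂ) : ℂ :=
  Gh τ Δ z * (q : ℂ) ^ z * (b : ℂ) ^ (-z) * LFunction χ z ^ 3 * Bg (fun n => χ (n : ZMod q)) g z

lemma isOpen_re : IsOpen {z : ℂ | 0 < z.re} := isOpen_lt continuous_const continuous_re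

lemma line_cont {F : ℂ → ℂ} (hF : DifferentiableOn ℂ F {z : ℂ | 0 < z.re}) {c : ℝ} (hc : 0 < c) :
    Continuous (fun t : ℝ => F (c + t * I)) := by
  rw [continuous_iff_continuousAt]
  intro t
  have h1 : ((c : ℂ) + t * I) ∈ {z : ℂ | 0 < z.re} := by simpa using hc
  have h2 : ContinuousAt F ((c : ℂ) + t * I) :=
    (hF.differentiableAt (isOpen_re.mem_nhds h1)).continuousAt
  have h3 : ContinuousAt (fun t : ℝ => (c : ℂ) + t * I) t := by fun_prop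
  exact ContinuousAt.comp (f := fun t : ℝ => (c : ℂ) + t * I) h2 h3

lemma line_integrable {F : ℂ → ℂ} (hF : DifferentiableOn ℂ F {z : ℂ | 0 < z.re}) {c : ℝ} (hc : 0 < c)
    {K : ℝ} (hK : ∀ t : ℝ, ‖F (c + t * I)‖ ≤ K / (1 + |t|) ^ 2) :
    Integrable (fun t : ℝ => F (c + t * I)) := by
  have hK0 : 0 ≤ K := by
    have := (norm_nonneg _).trans (hK 0)
    simpa using this
  refine Integrable.mono' (integrable_inv_one_add_sq.const_mul K)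
    (line_cont hF hc).aestronglyMeasurable (Filter.Eventually.of_forall fun t => ?_)
  exact (hK t).trans (ShiftPolyAux.inv_sq_le hK0)

lemma FF_diff {q : ℕ} [NeZero q] (χ : DirichletCharacter ℂ q) (hχ : χ ≠ 1) {τ Δ : ℝ} (hΔ : 1 ≤ Δ)
    {g b : ℕ} (hb : 1 ≤ b) : DifferentiableOn ℂ (FF χ τ Δ g b) {z : ℂ | 0 < z.re} := by
  have hq : (q : ℂ) ≠ 0 := by exact_mod_cast NeZero.ne q
  have hb0 : (b : ℂ) ≠ 0 := by exact_mod_cast (by omega : b ≠ 0)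
  have h1 : DifferentiableOn ℂ (Gh τ Δ) {z : ℂ | 0 < z.re} := gh_diff (by linarith)
  have h2 : Differentiable ℂ (fun z : ℂ => (q : ℂ) ^ z) := fun z =>
    differentiableAt_id.const_cpow (Or.inl hq)
  have h3 : Differentiable ℂ (fun z : ℂ => (b : ℂ) ^ (-z)) := fun z =>
    (differentiableAt_id.neg).const_cpow (Or.inl hb0)
  have h4 : Differentiable ℂ (LFunction χ) := differentiable_LFunction hχ
  have h5 := Bg_diff (fun n => χ (n : ZMod q)) g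
  exact (((h1.mul h2.differentiableOn).mul h3.differentiableOn).mul
    (h4.pow 3).differentiableOn).mul h5.differentiableOn

lemma FF_bound {q : ℕ} [NeZero q] (χ : DirichletCharacter ℂ q) (hχ : χ ≠ 1) {τ Δ : ℝ} (hΔ : 1 ≤ Δ)
    (hτ : Δ ≤ τ) {g b : ℕ} (hg : 1 ≤ g) (hb : 1 ≤ b) : ∃ K : ℝ, ∀ z : ℂ, 1 / 2 ≤ z.re → z.re ≤ 2 →
      ‖FF χ τ Δ g b z‖ ≤ K / (1 + |z.im|) ^ 2 := by
  obtain ⟨C, hC, hG⟩ := gh_decay 5
  obtain ⟨C', hC', hB⟩ := Bg_norm_le 1 one_pos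
  have hτ1 : 1 ≤ τ := hΔ.trans hτ
  have hq1 : 1 ≤ q := Nat.one_le_iff_ne_zero.2 (NeZero.ne q)
  have hqr : (1 : ℝ) ≤ (q : ℝ) := by exact_mod_cast hq1
  have hbr : (1 : ℝ) ≤ (b : ℝ) := by exact_mod_cast hb
  refine ⟨(C * τ ^ (2 : ℝ) * (τ / Δ) ^ 5) * (q : ℝ) ^ (2 : ℝ) * 1 *
    ((q : ℝ) * 2 * KeZhao.cZ) ^ 3 * (C' * (g : ℝ) ^ (1 : ℝ)), fun z h1 h2 => ?_⟩
  have hy : 0 < 1 + |z.im| := by positivity
  have hcZ := KeZhao.cZ_nonneg
  have g1 : ‖Gh τ Δ z‖ ≤ (C * τ ^ (2 : ℝ) * (τ / Δ) ^ 5) / (1 + |z.im|) ^ 5 := by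
    refine (hG τ Δ z hΔ hτ h1 h2).trans ?_
    have : τ ^ z.re ≤ τ ^ (2 : ℝ) := Real.rpow_le_rpow_of_exponent_le hτ1 h2
    have hΔ0 : 0 < Δ := by linarith
    have hτ0 : 0 < τ := by linarith
    gcongr
  have g2 : ‖(q : ℂ) ^ z‖ ≤ (q : ℝ) ^ (2 : ℝ) := by
    rw [norm_natCast_cpow_of_pos hq1]
    exact Real.rpow_le_rpow_of_exponent_le hqr h2
  have g3 : ‖(b : ℂ) ^ (-z)‖ ≤ 1 := by
    rw [norm_natCast_cpow_of_pos hb, neg_re]
    exact Real.rpow_le_one_of_one_le_of_nonpos hbr (by linarith)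
  have g4 : ‖LFunction χ z‖ ≤ ((q : ℝ) * 2 * KeZhao.cZ) * (1 + |z.im|) := by
    refine (KeZhao.norm_LFunction_le hχ h1).trans ?_
    have hz : ‖z‖ ≤ 2 * (1 + |z.im|) := by
      refine (Complex.norm_le_abs_re_add_abs_im z).trans ?_
      rw [abs_of_nonneg (by linarith)]
      have := abs_nonneg z.im
      linarith
    calc (q : ℝ) * ‖z‖ * KeZhao.cZ ≤ (q : ℝ) * (2 * (1 + |z.im|)) * KeZhao.cZ := by gcongr
      _ = _ := by ring
  have g5 : ‖Bg (fun n => χ (n : ZMod q)) g z‖ ≤ C' * (g : ℝ) ^ (1 : ℝ) :=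
    hB _ g z hg (by linarith) (fun n => χ.norm_le_one _)
  have h0 : 0 ≤ C * τ ^ (2 : ℝ) * (τ / Δ) ^ 5 := by
    have hΔ0 : 0 < Δ := by linarith
    positivity
  unfold FF
  rw [norm_mul, norm_mul, norm_mul, norm_mul, norm_pow]
  calc ‖Gh τ Δ z‖ * ‖(q : ℂ) ^ z‖ * ‖(b : ℂ) ^ (-z)‖ * ‖LFunction χ z‖ ^ 3 *
        ‖Bg (fun n => χ (n : ZMod q)) g z‖
      ≤ ((C * τ ^ (2 : ℝ) * (τ / Δ) ^ 5) / (1 + |z.im|) ^ 5) * (q : ℝ) ^ (2 : ℝ) * 1 *
        (((q : ℝ) * 2 * KeZhao.cZ) * (1 + |z.im|)) ^ 3 * (C' * (g : ℝ) ^ (1 : ℝ)) := by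
        gcongr
    _ = _ := by
        field_simp

end NonPrCharAux

open NonPrCharAux

/-- integrability on the line `Re z = 1/2` -/
theorem nonpr_integrable {q : ℕ} [NeZero q] (χ : DirichletCharacter ℂ q) (hχ : χ ≠ 1) {τ Δ : ℝ} (hΔ : 1 ≤ Δ) (hτ : Δ ≤ τ)
    {g b : ℕ} (hg : 1 ≤ g) (hb : 1 ≤ b) :
    Integrable (fun ξ : ℝ => Gh τ Δ (1 / 2 + ξ * I) * (q : ℂ) ^ (1 / 2 + ξ * I) * (b : ℂ) ^ (-(1 / 2 + ξ * I)) *
        LFunction χ (1 / 2 + ξ * I) ^ 3 * Bg (fun n => χ (n : ZMod q)) g (1 / 2 + ξ * I)) := by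
  obtain ⟨K, hK⟩ := FF_bound χ hχ hΔ hτ hg hb
  have h := line_integrable (FF_diff χ hχ (τ := τ) hΔ (g := g) hb) (c := 1 / 2) (by norm_num) (K := K)
    (fun t => by
      have := hK (((1 / 2 : ℝ) : ℂ) + t * I) (by simp) (by simp; norm_num)
      simpa using this)
  have e : (fun ξ : ℝ => Gh τ Δ (1 / 2 + ξ * I) * (q : ℂ) ^ (1 / 2 + ξ * I) * (b : ℂ) ^ (-(1 / 2 + ξ * I)) *
        LFunction χ (1 / 2 + ξ * I) ^ 3 * Bg (fun n => χ (n : ZMod q)) g (1 / 2 + ξ * I)) =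
      fun t : ℝ => FF χ τ Δ g b (((1 / 2 : ℝ) : ℂ) + t * I) := by
    funext t
    have : (((1 / 2 : ℝ) : ℂ)) = 1 / 2 := by push_cast; ring
    rw [this]
    rfl
  rw [e]
  exact h

theorem nonpr_char {q : ℕ} [NeZero q] (χ : DirichletCharacter ℂ q) (hχ : χ ≠ 1) {τ Δ : ℝ} (hΔ : 1 ≤ Δ) (hτ : Δ ≤ τ)
    {g b : ℕ} (hg : 1 ≤ g) (hb : 1 ≤ b) :
    ∑' m : ℕ, ((d3 (g * m) : ℕ) : ℂ) * χ (m : ZMod q) * (GG τ Δ (m * b / (q : ℝ)) : ℂ) =
      (1 / (2 * Real.pi)) * ∫ ξ : ℝ, Gh τ Δ (1 / 2 + ξ * I) * (q : ℂ) ^ (1 / 2 + ξ * I) * (b : ℂ) ^ (-(1 / 2 + ξ * I)) *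
        LFunction χ (1 / 2 + ξ * I) ^ 3 * Bg (fun n => χ (n : ZMod q)) g (1 / 2 + ξ * I) := by
  obtain ⟨K, hK⟩ := FF_bound χ hχ hΔ hτ hg hb
  have hq1 : 1 ≤ q := Nat.one_le_iff_ne_zero.2 (NeZero.ne q)
  have hqr : (0 : ℝ) < (q : ℝ) := by exact_mod_cast hq1
  have hbr : (0 : ℝ) < (b : ℝ) := by exact_mod_cast hb
  have hdiff := FF_diff χ hχ (τ := τ) hΔ (g := g) hb
  have hshift := P4f18dfS.shift_poly_on (F := FF χ τ Δ g b) (a := 1 / 2) (b := 2) (K := K)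
    (by norm_num) isOpen_re (fun s h1 _ => by
      change 0 < s.re
      linarith) hdiff hK
  -- the sum as an integral on the line `Re z = 2`
  set W : ℝ → ℂ := fun ξ => Gh τ Δ (((2 : ℝ) : ℂ) + ξ * I) with hW
  have hWint : Integrable W := by
    obtain ⟨C, hC, hG⟩ := gh_decay 2
    refine line_integrable (gh_diff (by linarith)) (c := 2) (by norm_num)
      (K := C * τ ^ (2 : ℝ) * (τ / Δ) ^ 2) (fun t => ?_)
    have := hG τ Δ (((2 : ℝ) : ℂ) + t * I) hΔ hτ (by simp; norm_num) (by simp)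
    simpa using this
  set a : ℕ → ℝ → ℂ := fun m ξ => ((d3 (g * m) : ℕ) : ℂ) * χ (m : ZMod q) *
    (m : ℂ) ^ (-(((2 : ℝ) : ℂ) + ξ * I)) with ha
  set V : ℝ → ℂ := fun ξ => (q : ℂ) ^ (((2 : ℝ) : ℂ) + ξ * I) * (b : ℂ) ^ (-(((2 : ℝ) : ℂ) + ξ * I))
    with hV
  have hd0 : d3 0 = 0 := by simp [d3]
  have hnorm : ∀ m ξ, ‖a m ξ‖ = ‖((d3 (g * m) : ℕ) : ℂ) * χ (m : ZMod q) * (m : ℂ) ^ (-(2 : ℂ))‖ := by
    intro m ξ
    rcases Nat.eq_zero_or_pos m with rfl | hm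
    · simp [ha, hd0]
    · simp only [ha]
      rw [norm_mul, norm_mul _ ((m : ℂ) ^ (-(2 : ℂ))), norm_natCast_cpow_of_pos hm,
        norm_natCast_cpow_of_pos hm]
      congr 2
      simp
  have hVnorm : ∀ ξ, ‖V ξ‖ = (q : ℝ) ^ (2 : ℝ) * (b : ℝ) ^ (-2 : ℝ) := by
    intro ξ
    simp only [hV]
    rw [norm_mul, norm_natCast_cpow_of_pos hq1, norm_natCast_cpow_of_pos hb]
    simp
  have hVcont : Continuous V := by
    have hq0 : (q : ℂ) ≠ 0 := by exact_mod_cast NeZero.ne q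
    have hb0 : (b : ℂ) ≠ 0 := by exact_mod_cast (by omega : b ≠ 0)
    refine Continuous.mul ?_ ?_
    · exact Continuous.const_cpow (by fun_prop) (Or.inl hq0)
    · exact Continuous.const_cpow (by fun_prop) (Or.inl hb0)
  have hacont : ∀ m, Continuous (a m) := by
    intro m
    rcases Nat.eq_zero_or_pos m with rfl | hm
    · have : a 0 = fun _ => 0 := by
        funext ξ
        simp [ha, hd0]
      rw [this]
      exact continuous_const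
    · have hm0 : (m : ℂ) ≠ 0 := by exact_mod_cast hm.ne'
      exact continuous_const.mul (Continuous.const_cpow (by fun_prop) (Or.inl hm0))
  have hint : ∀ m, Integrable (fun ξ => W ξ * V ξ * a m ξ) := by
    intro m
    refine Integrable.mono' (hWint.norm.mul_const (((q : ℝ) ^ (2 : ℝ) * (b : ℝ) ^ (-2 : ℝ)) *
      ‖((d3 (g * m) : ℕ) : ℂ) * χ (m : ZMod q) * (m : ℂ) ^ (-(2 : ℂ))‖))
      ((hWint.aestronglyMeasurable.mul hVcont.aestronglyMeasurable).mul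
        (hacont m).aestronglyMeasurable) (Filter.Eventually.of_forall fun ξ => ?_)
    rw [norm_mul, norm_mul, hVnorm, hnorm, mul_assoc]
  have hsumn : Summable (fun m => ∫ ξ, ‖W ξ * V ξ * a m ξ‖) := by
    have h1 : ∀ m, ∫ ξ, ‖W ξ * V ξ * a m ξ‖ = (∫ ξ, ‖W ξ‖) *
        (((q : ℝ) ^ (2 : ℝ) * (b : ℝ) ^ (-2 : ℝ)) *
      ‖((d3 (g * m) : ℕ) : ℂ) * χ (m : ZMod q) * (m : ℂ) ^ (-(2 : ℂ))‖) := by
      intro m
      rw [← integral_mul_const]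
      refine integral_congr_ae (Filter.Eventually.of_forall fun ξ => ?_)
      simp only
      rw [norm_mul, norm_mul, hVnorm, hnorm, mul_assoc]
    rw [funext h1]
    exact ((d3_summable_twist χ hg (z := 2) (by norm_num)).mul_left _).mul_left _
  have hmain := hasSum_integral_of_summable_integral_norm hint hsumn
  have hterm : ∀ m, ((d3 (g * m) : ℕ) : ℂ) * χ (m : ZMod q) * (GG τ Δ (m * b / (q : ℝ)) : ℂ) =
      (1 / (2 * Real.pi)) * ∫ ξ, W ξ * V ξ * a m ξ := by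
    intro m
    rcases Nat.eq_zero_or_pos m with rfl | hm
    · simp [ha, hd0]
    · have hmr : (0 : ℝ) < (m : ℝ) := by exact_mod_cast hm
      rw [gh_inv hΔ hτ (by positivity : (0 : ℝ) < (m : ℝ) * b / q)]
      rw [mul_left_comm, ← integral_const_mul]
      congr 1
      refine integral_congr_ae (Filter.Eventually.of_forall fun ξ => ?_)
      simp only [hW, hV, ha]
      have e1 : (((2 : ℝ) : ℂ) + ξ * I) = 2 + ξ * I := by push_cast; ring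
      rw [e1]
      have e2 : (((m : ℝ) * b / q : ℝ) : ℂ) ^ (-(2 + ξ * I)) =
          (m : ℂ) ^ (-(2 + ξ * I)) * ((q : ℂ) ^ (2 + ξ * I) * (b : ℂ) ^ (-(2 + ξ * I))) := by
        rw [Complex.ofReal_div, Complex.ofReal_mul]
        rw [div_eq_mul_inv, ← Complex.ofReal_inv, ← Complex.ofReal_mul]
        rw [Complex.mul_cpow_ofReal_nonneg (by positivity) (by positivity)]
        rw [Complex.ofReal_mul, Complex.mul_cpow_ofReal_nonneg (by positivity) (by positivity)]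
        rw [Complex.ofReal_inv, Complex.inv_cpow _ _ (by
          rw [Complex.arg_ofReal_of_nonneg hqr.le]; exact Real.pi_pos.ne), ← Complex.cpow_neg, neg_neg]
        push_cast
        ring
      rw [e2]
      ring
  rw [tsum_congr hterm, tsum_mul_left, hmain.tsum_eq]
  have hpt : ∀ ξ : ℝ, ∑' m, W ξ * V ξ * a m ξ = FF χ τ Δ g b (((2 : ℝ) : ℂ) + ξ * I) := by
    intro ξ
    rw [tsum_mul_left]
    have h1 := d3_twist χ hg (z := ((2 : ℝ) : ℂ) + ξ * I) (by simp)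
    simp only [ha]
    rw [h1]
    simp only [hW, hV, FF]
    ring
  rw [integral_congr_ae (Filter.Eventually.of_forall hpt), ← hshift]
  congr 1
  refine integral_congr_ae (Filter.Eventually.of_forall fun ξ => ?_)
  have : (((1 / 2 : ℝ) : ℂ)) = 1 / 2 := by push_cast; ring
  simp only
  rw [this]
  rfl

end Pool.Agent.P07318m
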