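import Pool.Agent.Lib.P07318m.Defs
import Pool.Agent.Lib.P07318m.GaussChar
import Pool.Agent.Lib.P07318m.DAux

/-!
# P07318m.NonPrSum: the non-principal part of `∑ d3(n) e(-nb/a) G(nb/a)`

For `a ≥ 1`, `b ≥ 1` coprime to `a`:
`∑_n d3(n) (e(-nb/a) - rho(a,n)) G(nb/a) = ∑_{q | a} (1/φ(q)) ∑_{χ ≠ 1 mod q} τ(χ⁻¹) χ(-1) χ(b) ∑_m d3((a/q) m) χ(m) G(m b/q)`.
(The sum over the divisors `q = k+1` of `a` is written over `k < a`.)
PROOF. For `n ≥ 1` let `g = gcd(n,a)`, `q = a/g`, `n = g m`, `(m,q) = 1`; `e(-nb/a) = e(-mb/q)`, `mb` is coprime to `q`, and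
`rho a n = μ(q)/φ(q)` by definition. `ee_expand` with `x = m b` gives the difference, which only involves `χ(m)χ(b)`.
Conversely, for fixed `q | a` and every `m ≥ 1` with `(m,q) = 1`, `n = (a/q) m` has `gcd(n,a) = a/q`; the terms with `(m,q) > 1` vanish because
`χ(m) = 0`. So `n ↦ (q,m)` is a bijection from `{n ≥ 1}` to `{(q,m) : q | a, (m,q)=1, m ≥ 1}` and `nb/a = mb/q`.
All series converge absolutely.
-/

set_option autoImplicit false

open MeasureTheory Complex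

namespace Pool.Agent.P07318m

namespace NonPrAux

theorem d3_zero : d3 0 = 0 := by simp [d3]

theorem d3_le_sq (n : ℕ) : d3 n ≤ n ^ 2 := by
  unfold d3
  calc ∑ d ∈ n.divisors, d.divisors.card ≤ ∑ d ∈ n.divisors, n := by
        refine Finset.sum_le_sum fun d hd => ?_
        exact (Nat.card_divisors_le_self d).trans (Nat.divisor_le hd)
    _ = n.divisors.card * n := by rw [Finset.sum_const, smul_eq_mul]
    _ ≤ n * n := Nat.mul_le_mul_right _ (Nat.card_divisors_le_self n)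
    _ = n ^ 2 := by ring

theorem gg_nonneg (τ Δ y : ℝ) : 0 ≤ GG τ Δ y := (Real.exp_pos _).le

theorem gg_bound {τ Δ : ℝ} (hΔ : 0 < Δ) {c : ℝ} (hc : 0 < c) (m : ℕ) :
    GG τ Δ (m * c) ≤ Real.exp (τ ^ 2 / Δ ^ 2) * Real.exp (-((2 * Real.pi * c) ^ 2 / (2 * Δ ^ 2)) * m) := by
  unfold GG
  rw [← Real.exp_add]
  apply Real.exp_le_exp.2
  have h1 : ((2 * Real.pi * (m * c) - τ) / Δ) ^ 2 = (2 * Real.pi * (m * c) - τ) ^ 2 / Δ ^ 2 := by
    rw [div_pow]
  have h2 : (2 * Real.pi * c) ^ 2 / (2 * Δ ^ 2) * (m : ℝ) ^ 2 - τ ^ 2 / Δ ^ 2 ≤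
      (2 * Real.pi * (m * c) - τ) ^ 2 / Δ ^ 2 := by
    have h3 : (2 * Real.pi * c) ^ 2 / (2 * Δ ^ 2) * (m : ℝ) ^ 2 - τ ^ 2 / Δ ^ 2 =
        ((2 * Real.pi * (m * c)) ^ 2 / 2 - τ ^ 2) / Δ ^ 2 := by
      field_simp
    rw [h3]
    apply div_le_div_of_nonneg_right _ (by positivity)
    nlinarith [sq_nonneg (2 * Real.pi * (m * c) - 2 * τ)]
  have h4 : (m : ℝ) ≤ (m : ℝ) ^ 2 := by
    rcases Nat.eq_zero_or_pos m with rfl | hm
    · simp
    · have : (1 : ℝ) ≤ m := by exact_mod_cast hm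
      nlinarith
  have h5 : (2 * Real.pi * c) ^ 2 / (2 * Δ ^ 2) * (m : ℝ) ≤
      (2 * Real.pi * c) ^ 2 / (2 * Δ ^ 2) * (m : ℝ) ^ 2 :=
    mul_le_mul_of_nonneg_left h4 (by positivity)
  rw [h1]
  linarith

theorem norm_ee (x : ℝ) : ‖ee x‖ = 1 := by
  unfold ee
  have : (2 * Real.pi * x * I : ℂ) = ((2 * Real.pi * x : ℝ) : ℂ) * I := by push_cast; ring
  rw [this, Complex.norm_exp_ofReal_mul_I]

theorem abs_rho (a n : ℕ) : |rho a n| ≤ 1 := by
  unfold rho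
  rw [abs_div]
  have h1 : |(((ArithmeticFunction.moebius (a / n.gcd a) : ℤ) : ℝ))| ≤ 1 := by
    exact_mod_cast ArithmeticFunction.abs_moebius_le_one (n := a / n.gcd a)
  rcases Nat.eq_zero_or_pos ((a / n.gcd a).totient) with h | h
  · rw [h]; simp
  · have h2 : (1 : ℝ) ≤ ((a / n.gcd a).totient : ℝ) := by exact_mod_cast h
    rw [Nat.abs_cast, div_le_one (by linarith)]
    linarith

end NonPrAux

open NonPrAux

theorem g_summable {τ Δ : ℝ} (hΔ : 0 < Δ) {g : ℕ} (hg : 1 ≤ g) {c : ℝ} (hc : 0 < c) :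
    Summable (fun m : ℕ => (d3 (g * m) : ℝ) * GG τ Δ (m * c)) := by
  have hB : 0 < (2 * Real.pi * c) ^ 2 / (2 * Δ ^ 2) := by positivity
  have h1 := (Real.summable_pow_mul_exp_neg_nat_mul 2 hB).mul_left
    ((g : ℝ) ^ 2 * Real.exp (τ ^ 2 / Δ ^ 2))
  refine Summable.of_nonneg_of_le (fun m => mul_nonneg (Nat.cast_nonneg _) (gg_nonneg _ _ _))
    (fun m => ?_) h1
  have h2 : (d3 (g * m) : ℝ) ≤ (g : ℝ) ^ 2 * (m : ℝ) ^ 2 := by
    have := d3_le_sq (g * m)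
    calc (d3 (g * m) : ℝ) ≤ (((g * m) ^ 2 : ℕ) : ℝ) := by exact_mod_cast this
      _ = _ := by push_cast; ring
  have h3 := gg_bound (τ := τ) hΔ hc m
  calc (d3 (g * m) : ℝ) * GG τ Δ (m * c) ≤ ((g : ℝ) ^ 2 * (m : ℝ) ^ 2) *
        (Real.exp (τ ^ 2 / Δ ^ 2) * Real.exp (-((2 * Real.pi * c) ^ 2 / (2 * Δ ^ 2)) * m)) :=
        mul_le_mul h2 h3 (gg_nonneg _ _ _) (by positivity)
    _ = _ := by ring

namespace NonPrAux

/-- the summand -/
noncomputable def ft (τ Δ : ℝ) (a b n : ℕ) : ℂ :=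
  ((d3 n : ℕ) : ℂ) * (ee (-(n * b / a)) - (rho a n : ℂ)) * (GG τ Δ (n * b / a) : ℂ)

theorem ft_zero (τ Δ : ℝ) (a b : ℕ) : ft τ Δ a b 0 = 0 := by
  simp [ft, d3_zero]

theorem ft_summable {τ Δ : ℝ} (hΔ : 0 < Δ) {a b : ℕ} (ha : 1 ≤ a) (hb : 1 ≤ b) :
    Summable (ft τ Δ a b) := by
  have ha0 : (0 : ℝ) < a := by exact_mod_cast ha
  have hb0 : (0 : ℝ) < b := by exact_mod_cast hb
  have h1 := (g_summable (τ := τ) hΔ (le_refl 1) (div_pos hb0 ha0)).mul_left 2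
  refine Summable.of_norm_bounded h1 fun n => ?_
  unfold ft
  have e : (n : ℝ) * ((b : ℝ) / a) = n * b / a := by ring
  rw [norm_mul, norm_mul, Complex.norm_natCast, Complex.norm_real, Real.norm_eq_abs,
    abs_of_nonneg (gg_nonneg _ _ _), one_mul, e]
  have h2 : ‖ee (-(n * b / a)) - (rho a n : ℂ)‖ ≤ 2 := by
    refine (norm_sub_le _ _).trans ?_
    rw [norm_ee, Complex.norm_real, Real.norm_eq_abs]
    linarith [abs_rho a n]
  have h3 : 0 ≤ (d3 n : ℝ) := Nat.cast_nonneg _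
  have h4 := gg_nonneg τ Δ (n * b / a)
  calc (d3 n : ℝ) * ‖ee (-(n * b / a)) - (rho a n : ℂ)‖ * GG τ Δ (n * b / a)
      ≤ (d3 n : ℝ) * 2 * GG τ Δ (n * b / a) :=
        mul_le_mul_of_nonneg_right (mul_le_mul_of_nonneg_left h2 h3) h4
    _ = 2 * ((d3 n : ℝ) * GG τ Δ (n * b / a)) := by ring

open Classical in
/-- the part with `gcd(n,a) = a/q` -/
theorem part_eq {τ Δ : ℝ} (hΔ : 0 < Δ) {a b q g : ℕ} [NeZero q] (hg : 1 ≤ g) (haq : a = g * q)
    (hb : 1 ≤ b) (hab : b.Coprime a) :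
    (1 / ((q.totient : ℕ) : ℂ)) * ∑ χ ∈ Finset.univ.erase (1 : DirichletCharacter ℂ q),
      gaussSum χ⁻¹ (ZMod.stdAddChar (N := q)) * χ (-1) * χ (b : ZMod q) *
        ∑' m : ℕ, ((d3 (g * m) : ℕ) : ℂ) * χ (m : ZMod q) * (GG τ Δ (m * b / (q : ℝ)) : ℂ) =
      ∑' n : ℕ, if n.gcd a = g then ft τ Δ a b n else 0 := by
  have hq : 1 ≤ q := Nat.pos_of_ne_zero (NeZero.ne q)
  have hq0 : (0 : ℝ) < q := by exact_mod_cast hq
  have hg0 : (0 : ℝ) < g := by exact_mod_cast hg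
  have hb0 : (0 : ℝ) < b := by exact_mod_cast hb
  have hbq : b.Coprime q := Nat.Coprime.coprime_dvd_right ⟨g, by rw [haq]; ring⟩ hab
  have hsum : ∀ χ : DirichletCharacter ℂ q,
      Summable (fun m : ℕ => ((d3 (g * m) : ℕ) : ℂ) * χ (m : ZMod q) * (GG τ Δ (m * b / (q : ℝ)) : ℂ)) := by
    intro χ
    refine Summable.of_norm_bounded (g_summable (τ := τ) hΔ hg (div_pos hb0 hq0)) fun m => ?_
    have e : (m : ℝ) * ((b : ℝ) / q) = m * b / q := by ring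
    rw [norm_mul, norm_mul, Complex.norm_natCast, Complex.norm_real, Real.norm_eq_abs,
      abs_of_nonneg (gg_nonneg _ _ _), e]
    apply mul_le_mul_of_nonneg_right _ (gg_nonneg _ _ _)
    calc (d3 (g * m) : ℝ) * ‖χ (m : ZMod q)‖ ≤ (d3 (g * m) : ℝ) * 1 :=
          mul_le_mul_of_nonneg_left (χ.norm_le_one _) (Nat.cast_nonneg _)
      _ = _ := mul_one _
  -- move the sum over the characters inside
  have h1 : (1 / ((q.totient : ℕ) : ℂ)) * ∑ χ ∈ Finset.univ.erase (1 : DirichletCharacter ℂ q),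
      gaussSum χ⁻¹ (ZMod.stdAddChar (N := q)) * χ (-1) * χ (b : ZMod q) *
        ∑' m : ℕ, ((d3 (g * m) : ℕ) : ℂ) * χ (m : ZMod q) * (GG τ Δ (m * b / (q : ℝ)) : ℂ) =
      ∑' m : ℕ, ((d3 (g * m) : ℕ) : ℂ) * (GG τ Δ (m * b / (q : ℝ)) : ℂ) *
        ((1 / ((q.totient : ℕ) : ℂ)) * ∑ χ ∈ Finset.univ.erase (1 : DirichletCharacter ℂ q),
          gaussSum χ⁻¹ (ZMod.stdAddChar (N := q)) * χ (-1) * χ ((m * b : ℕ) : ZMod q)) := by
    have h2 : ∀ χ : DirichletCharacter ℂ q,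
        gaussSum χ⁻¹ (ZMod.stdAddChar (N := q)) * χ (-1) * χ (b : ZMod q) *
          ∑' m : ℕ, ((d3 (g * m) : ℕ) : ℂ) * χ (m : ZMod q) * (GG τ Δ (m * b / (q : ℝ)) : ℂ) =
        ∑' m : ℕ, gaussSum χ⁻¹ (ZMod.stdAddChar (N := q)) * χ (-1) * χ (b : ZMod q) *
          (((d3 (g * m) : ℕ) : ℂ) * χ (m : ZMod q) * (GG τ Δ (m * b / (q : ℝ)) : ℂ)) :=
      fun χ => tsum_mul_left.symm
    rw [Finset.sum_congr rfl fun χ _ => h2 χ,
      ← Summable.tsum_finsetSum (fun χ _ => (hsum χ).mul_left _), ← tsum_mul_left]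
    refine tsum_congr fun m => ?_
    rw [Finset.mul_sum, Finset.mul_sum, Finset.mul_sum]
    refine Finset.sum_congr rfl fun χ _ => ?_
    rw [Nat.cast_mul, map_mul]
    ring
  rw [h1]
  -- the injection
  have hinj : Function.Injective (fun m : ℕ => g * m) := fun x y hxy =>
    Nat.eq_of_mul_eq_mul_left hg hxy
  have hsupp : Function.support (fun n : ℕ => if n.gcd a = g then ft τ Δ a b n else 0) ⊆
      Set.range (fun m : ℕ => g * m) := by
    intro n hn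
    rw [Function.mem_support] at hn
    have h3 : n.gcd a = g := by
      by_contra h
      exact hn (if_neg h)
    obtain ⟨m, hm⟩ : g ∣ n := h3 ▸ Nat.gcd_dvd_left n a
    exact ⟨m, hm.symm⟩
  rw [← hinj.tsum_eq hsupp]
  refine tsum_congr fun m => ?_
  have hgcd : (g * m).gcd a = g * m.gcd q := by rw [haq, Nat.gcd_mul_left]
  have hiff : (g * m).gcd a = g ↔ m.Coprime q := by
    rw [hgcd]
    constructor
    · intro h
      exact Nat.eq_of_mul_eq_mul_left hg (by rw [h, mul_one])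
    · intro h
      rw [Nat.Coprime] at h
      rw [h, mul_one]
  have harg : (((g * m : ℕ) : ℝ)) * b / (a : ℝ) = m * b / q := by
    rw [haq]; push_cast; field_simp
  by_cases hm : m.Coprime q
  · rw [if_pos (hiff.2 hm)]
    have hmb : (m * b).Coprime q := Nat.Coprime.mul_left hm hbq
    have h4 := ee_expand hmb
    rw [← h4]
    unfold ft
    rw [harg]
    have h5 : (rho a (g * m) : ℂ) = ((ArithmeticFunction.moebius q : ℤ) : ℂ) / ((q.totient : ℕ) : ℂ) := by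
      unfold rho
      rw [hiff.2 hm]
      have h6 : a / g = q := by rw [haq]; exact Nat.mul_div_cancel_left q hg
      rw [h6]
      push_cast
      rfl
    rw [h5]
    push_cast
    ring
  · rw [if_neg (fun h => hm (hiff.1 h))]
    rw [Finset.sum_eq_zero, mul_zero, mul_zero]
    intro χ _
    rw [Nat.cast_mul, map_mul, MulChar.map_nonunit χ (a := (m : ZMod q)), zero_mul, mul_zero]
    intro h
    exact hm ((ZMod.isUnit_iff_coprime m q).1 h)

end NonPrAux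

open Classical in
theorem nonpr_sum {τ Δ : ℝ} (hΔ : 0 < Δ) {a b : ℕ} (ha : 1 ≤ a) (hb : 1 ≤ b) (hab : b.Coprime a) :
    ∑' n : ℕ, ((d3 n : ℕ) : ℂ) * (ee (-(n * b / a)) - (rho a n : ℂ)) * (GG τ Δ (n * b / a) : ℂ) =
      ∑ k ∈ (Finset.range a).filter (fun k => (k + 1) ∣ a), (1 / (((k + 1).totient : ℕ) : ℂ)) *
        ∑ χ ∈ Finset.univ.erase (1 : DirichletCharacter ℂ (k + 1)),
          gaussSum χ⁻¹ (ZMod.stdAddChar (N := k + 1)) * χ (-1) * χ (b : ZMod (k + 1)) *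
            ∑' m : ℕ, ((d3 (a / (k + 1) * m) : ℕ) : ℂ) * χ (m : ZMod (k + 1)) *
              (GG τ Δ (m * b / ((k + 1 : ℕ) : ℝ)) : ℂ) := by
  have hft := ft_summable (τ := τ) hΔ ha hb
  have h1 : ∀ k ∈ (Finset.range a).filter (fun k => (k + 1) ∣ a), (1 / (((k + 1).totient : ℕ) : ℂ)) *
        ∑ χ ∈ Finset.univ.erase (1 : DirichletCharacter ℂ (k + 1)),
          gaussSum χ⁻¹ (ZMod.stdAddChar (N := k + 1)) * χ (-1) * χ (b : ZMod (k + 1)) *
            ∑' m : ℕ, ((d3 (a / (k + 1) * m) : ℕ) : ℂ) * χ (m : ZMod (k + 1)) *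
              (GG τ Δ (m * b / ((k + 1 : ℕ) : ℝ)) : ℂ) =
      ∑' n : ℕ, if n.gcd a = a / (k + 1) then ft τ Δ a b n else 0 := by
    intro k hk
    rw [Finset.mem_filter] at hk
    have hg : 1 ≤ a / (k + 1) := Nat.div_pos (Nat.le_of_dvd ha hk.2) (Nat.succ_pos k)
    exact part_eq hΔ hg (Nat.div_mul_cancel hk.2).symm hb hab
  rw [Finset.sum_congr rfl h1]
  have h2 : ∀ k ∈ (Finset.range a).filter (fun k => (k + 1) ∣ a),
      Summable (fun n : ℕ => if n.gcd a = a / (k + 1) then ft τ Δ a b n else 0) := by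
    intro k _
    refine Summable.of_norm_bounded hft.norm fun n => ?_
    split_ifs
    · exact le_rfl
    · rw [norm_zero]; exact norm_nonneg _
  rw [← Summable.tsum_finsetSum h2]
  refine tsum_congr fun n => ?_
  change ft τ Δ a b n = _
  have hgd : n.gcd a ∣ a := Nat.gcd_dvd_right n a
  have hgp : 0 < n.gcd a := Nat.gcd_pos_of_pos_right n ha
  have hq1 : 0 < a / n.gcd a := Nat.div_pos (Nat.le_of_dvd ha hgd) hgp
  rw [Finset.sum_eq_single (a / n.gcd a - 1)]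
  · rw [if_pos]
    rw [Nat.sub_add_cancel hq1]
    exact (Nat.div_div_self hgd (by omega)).symm
  · intro k hk hne
    rw [Finset.mem_filter] at hk
    rw [if_neg]
    intro h
    apply hne
    rw [h, Nat.div_div_self hk.2 (by omega)]
    omega
  · intro hk
    exfalso
    apply hk
    rw [Finset.mem_filter, Finset.mem_range, Nat.sub_add_cancel hq1]
    have h3 : a / n.gcd a ≤ a := Nat.div_le_self _ _
    exact ⟨by omega, Nat.div_dvd_of_dvd hgd⟩

end Pool.Agent.P07318m
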