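import Pool.Agent.Lib.P07318m.Defs
import Pool.Agent.Lib.P07318m.NonPrSum
import Pool.Agent.Lib.P07318m.NonPrChar
import Pool.Agent.Lib.P07318m.BSum
import Pool.Agent.Lib.P07318m.FM
import Pool.Agent.Lib.P07318m.DAux

/-!
# P07318m.ErBound: the non-principal characters contribute little

For `1 ≤ Δ ≤ τ`, `1 ≤ a ≤ τ`, `1 ≤ X ≤ τ`:
`|∑_{b ≤ X, (b,a)=1} log²(X/b) ∑_n d3(n)(e(-nb/a) - rho(a,n)) G(nb/a)| ≤ C (τ/Δ)^20 τ^{1/2+ε} a`.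
PROOF. `V = τ/Δ`. Insert `nonpr_sum`, `nonpr_char` (`g = a/q`, `q = k+1 | a`) and take the finite sum over `b` inside the integral
(`nonpr_integrable`): the sum equals
`∑_{q | a} φ(q)⁻¹ ∑_{χ≠1} τ(χ⁻¹) χ(-1) (1/2π) ∫ Gh(z) q^z L(z,χ)^3 Bg χ g z · [∑_{b≤X,(b,a)=1} log²(X/b) χ(b) b^{-z}] dξ`, `z = 1/2+iξ`.
`|τ(χ⁻¹)| ≤ √q`, `|q^z| = √q`, `|Bg| ≤ C a^{ε'}`, `|Gh| ≤ C τ^{1/2} V^{20} (1+|ξ|)^{-20}` (`gh_decay 20`), `bsum` with `δ = min(ε', 1/16)`: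
so the sum is bounded by
`C a^{2ε'} τ^{1/2} V^{20} τ^δ ∑_{q|a} (q/φ(q)) ∫∫ (1+|ξ|)^{-20} (1+|v|)^{-3} ∑_{χ≠1} |L(z,χ)|^3 |L(z+δ+iv,χ)| dv dξ`.
Young: with `r = (1+|v|)^{3/2}`: `x³ y ≤ r x⁴ + r⁻³ y⁴` (`x³y ≤ (3/4) r x⁴ + (1/4) r^{-3} y⁴`). `fourth_moment` (exponent `ε'`):
`∑_χ |L(z,χ)|^4 ≤ C q^{1+ε'} (1+|ξ|)^6`, `∑_χ |L(z+δ+iv,χ)|^4 ≤ C q^{1+ε'} (1+|ξ|)^6 (1+|v|)^6`. So the inner sum over `χ` is
`≤ C q^{1+ε'} (1+|ξ|)^6 ((1+|v|)^{3/2} + (1+|v|)^{6-9/2}) = 2 C q^{1+ε'} (1+|ξ|)^6 (1+|v|)^{3/2}`, and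
`∫∫ (1+|ξ|)^{-14} (1+|v|)^{-3/2} < ∞`. Finally `∑_{q | a} q^{1+2ε'} ≤ C a^{1+3ε'}` (`tot_le`, `tau_le`, `a ≤ τ`).
(To avoid interchanging integrals: for fixed `ξ` bound the sum over `χ` of `|L(z,χ)|^3 ∫ |L(z+δ+iv,χ)| (1+|v|)^{-3} dv` by moving the finite sum
over `χ` inside the `v`-integral.)
-/

set_option autoImplicit false

open MeasureTheory Complex

namespace Pool.Agent.P07318m

namespace ErB

open DirichletCharacter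

theorem young {x y r : ℝ} (hx : 0 ≤ x) (hy : 0 ≤ y) (hr : 0 < r) :
    x ^ 3 * y ≤ r * x ^ 4 + (r ^ 3)⁻¹ * y ^ 4 := by
  rcases le_total y (r * x) with h | h
  · have h1 : x ^ 3 * y ≤ x ^ 3 * (r * x) := mul_le_mul_of_nonneg_left h (by positivity)
    have h2 : 0 ≤ (r ^ 3)⁻¹ * y ^ 4 := by positivity
    have h3 : x ^ 3 * (r * x) = r * x ^ 4 := by ring
    linarith
  · have h2 : x ≤ y / r := by
      rw [le_div_iff₀ hr]
      linarith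
    have h3 : x ^ 3 ≤ (y / r) ^ 3 := pow_le_pow_left₀ hx h2 3
    have h4 : x ^ 3 * y ≤ (y / r) ^ 3 * y := mul_le_mul_of_nonneg_right h3 hy
    have e : (y / r) ^ 3 * y = (r ^ 3)⁻¹ * y ^ 4 := by
      field_simp
    have h5 : 0 ≤ r * x ^ 4 := by positivity
    linarith

theorem exp1 {u : ℝ} (hu : 0 < u) : (u ^ 3)⁻¹ * u ^ (3 / 2 : ℝ) = u ^ (-(3 / 2) : ℝ) := by
  rw [← Real.rpow_natCast u 3, ← Real.rpow_neg hu.le, ← Real.rpow_add hu]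
  norm_num

theorem exp2 {u : ℝ} (hu : 0 < u) :
    (u ^ 3)⁻¹ * (((u ^ (3 / 2 : ℝ)) ^ 3)⁻¹ * u ^ 6) = u ^ (-(3 / 2) : ℝ) := by
  rw [← Real.rpow_natCast u 3, ← Real.rpow_natCast u 6, ← Real.rpow_natCast (u ^ (3 / 2 : ℝ)) 3,
    ← Real.rpow_mul hu.le, ← Real.rpow_neg hu.le, ← Real.rpow_neg hu.le, ← Real.rpow_add hu,
    ← Real.rpow_add hu]
  norm_num

theorem exp3 {u : ℝ} (hu : 0 < u) : (u ^ 20)⁻¹ * u ^ 6 = u ^ (-(14 : ℝ)) := by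
  rw [← Real.rpow_natCast u 20, ← Real.rpow_natCast u 6, ← Real.rpow_neg hu.le,
    ← Real.rpow_add hu]
  norm_num

theorem int_rpow {p : ℝ} (hp : 1 < p) : Integrable (fun v : ℝ => (1 + |v|) ^ (-p)) := by
  have h := integrable_one_add_norm (E := ℝ) (μ := volume) (r := p) (by simpa using hp)
  simpa [Real.norm_eq_abs] using h

open Classical in
theorem char_int (e : ℝ) (he : 0 < e) (δ : ℝ) (hδ : 0 < δ) (hδ' : δ ≤ 1 / 16) :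
    ∃ C : ℝ, 0 < C ∧ ∀ (q : ℕ) [NeZero q] (ξ : ℝ),
    ∑ χ ∈ Finset.univ.erase (1 : DirichletCharacter ℂ q), ‖LFunction χ (1 / 2 + ξ * I)‖ ^ 3 *
      ∫ v : ℝ, ‖LFunction χ (1 / 2 + δ + ((ξ + v : ℝ) : ℂ) * I)‖ * ((1 + |v|) ^ 3)⁻¹ ≤
      C * (q : ℝ) ^ (1 + e) * (1 + |ξ|) ^ 6 := by
  obtain ⟨C, hC, hF⟩ := fourth_moment e he
  have hint := int_rpow (p := 3 / 2) (by norm_num)
  have hJ : 0 ≤ ∫ v : ℝ, (1 + |v|) ^ (-(3 / 2) : ℝ) := integral_nonneg fun v => by positivity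
  set J : ℝ := ∫ v : ℝ, (1 + |v|) ^ (-(3 / 2) : ℝ) with hJd
  refine ⟨2 * C * J + 1, by positivity, ?_⟩
  intro q _ ξ
  have hi : ∀ χ ∈ Finset.univ.erase (1 : DirichletCharacter ℂ q), Integrable (fun v : ℝ =>
      ‖LFunction χ (1 / 2 + ξ * I)‖ ^ 3 *
        (‖LFunction χ (1 / 2 + δ + ((ξ + v : ℝ) : ℂ) * I)‖ * ((1 + |v|) ^ 3)⁻¹)) := fun χ hχ =>
    (bsum_integrable χ (Finset.ne_of_mem_erase hχ) hδ ξ).const_mul _
  have hq0 : 0 ≤ (q : ℝ) ^ (1 + e) := by positivity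
  have hξ0 : 0 ≤ (1 + |ξ|) ^ 6 := by positivity
  calc ∑ χ ∈ Finset.univ.erase (1 : DirichletCharacter ℂ q), ‖LFunction χ (1 / 2 + ξ * I)‖ ^ 3 *
      ∫ v : ℝ, ‖LFunction χ (1 / 2 + δ + ((ξ + v : ℝ) : ℂ) * I)‖ * ((1 + |v|) ^ 3)⁻¹
      = ∫ v : ℝ, ∑ χ ∈ Finset.univ.erase (1 : DirichletCharacter ℂ q),
          ‖LFunction χ (1 / 2 + ξ * I)‖ ^ 3 *
        (‖LFunction χ (1 / 2 + δ + ((ξ + v : ℝ) : ℂ) * I)‖ * ((1 + |v|) ^ 3)⁻¹) := by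
        rw [integral_finsetSum _ hi]
        refine Finset.sum_congr rfl fun χ _ => ?_
        rw [integral_const_mul]
    _ ≤ ∫ v : ℝ, (2 * C * (q : ℝ) ^ (1 + e) * (1 + |ξ|) ^ 6) * (1 + |v|) ^ (-(3 / 2) : ℝ) := by
        refine integral_mono (integrable_finsetSum _ hi) (hint.const_mul _) fun v => ?_
        have hu : 0 < 1 + |v| := by positivity
        set u : ℝ := 1 + |v| with hud
        set r : ℝ := u ^ (3 / 2 : ℝ) with hr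
        have hr0 : 0 < r := by positivity
        have h1 : ∑ χ ∈ Finset.univ.erase (1 : DirichletCharacter ℂ q),
            ‖LFunction χ (1 / 2 + ξ * I)‖ ^ 4 ≤ C * (q : ℝ) ^ (1 + e) * (1 + |ξ|) ^ 6 := by
          have h := hF q (1 / 2 + ξ * I) (by simp) (by norm_num)
          have e1 : (1 / 2 + ξ * I : ℂ).im = ξ := by simp
          rw [e1] at h
          exact h
        have h2 : ∑ χ ∈ Finset.univ.erase (1 : DirichletCharacter ℂ q),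
            ‖LFunction χ (1 / 2 + δ + ((ξ + v : ℝ) : ℂ) * I)‖ ^ 4 ≤
              C * (q : ℝ) ^ (1 + e) * (1 + |ξ|) ^ 6 * u ^ 6 := by
          have h := hF q (1 / 2 + δ + ((ξ + v : ℝ) : ℂ) * I) (by simp; linarith)
            (by simp; linarith)
          have e1 : (1 / 2 + δ + ((ξ + v : ℝ) : ℂ) * I : ℂ).im = ξ + v := by simp
          rw [e1] at h
          refine h.trans ?_
          rw [mul_assoc (C * (q : ℝ) ^ (1 + e)), ← mul_pow]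
          refine mul_le_mul_of_nonneg_left (pow_le_pow_left₀ (by positivity) ?_ 6) (by positivity)
          have := abs_add_le ξ v
          have h3 : 0 ≤ |ξ| * |v| := by positivity
          rw [hud]
          linarith [show (1 + |ξ|) * (1 + |v|) = 1 + |ξ| + |v| + |ξ| * |v| by ring]
        have hw : 0 ≤ (u ^ 3)⁻¹ := by positivity
        calc ∑ χ ∈ Finset.univ.erase (1 : DirichletCharacter ℂ q),
            ‖LFunction χ (1 / 2 + ξ * I)‖ ^ 3 *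
              (‖LFunction χ (1 / 2 + δ + ((ξ + v : ℝ) : ℂ) * I)‖ * (u ^ 3)⁻¹)
            ≤ ∑ χ ∈ Finset.univ.erase (1 : DirichletCharacter ℂ q),
              (u ^ 3)⁻¹ * (r * ‖LFunction χ (1 / 2 + ξ * I)‖ ^ 4 + (r ^ 3)⁻¹ *
                ‖LFunction χ (1 / 2 + δ + ((ξ + v : ℝ) : ℂ) * I)‖ ^ 4) := by
              refine Finset.sum_le_sum fun χ _ => ?_
              have hy := young (norm_nonneg (LFunction χ (1 / 2 + ξ * I)))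
                (norm_nonneg (LFunction χ (1 / 2 + δ + ((ξ + v : ℝ) : ℂ) * I))) hr0
              calc _ = (u ^ 3)⁻¹ * (‖LFunction χ (1 / 2 + ξ * I)‖ ^ 3 *
                    ‖LFunction χ (1 / 2 + δ + ((ξ + v : ℝ) : ℂ) * I)‖) := by ring
                _ ≤ _ := mul_le_mul_of_nonneg_left hy hw
          _ = (u ^ 3)⁻¹ * (r * ∑ χ ∈ Finset.univ.erase (1 : DirichletCharacter ℂ q),
                ‖LFunction χ (1 / 2 + ξ * I)‖ ^ 4 + (r ^ 3)⁻¹ *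
                ∑ χ ∈ Finset.univ.erase (1 : DirichletCharacter ℂ q),
                ‖LFunction χ (1 / 2 + δ + ((ξ + v : ℝ) : ℂ) * I)‖ ^ 4) := by
              rw [← Finset.mul_sum, Finset.sum_add_distrib, ← Finset.mul_sum, ← Finset.mul_sum]
          _ ≤ (u ^ 3)⁻¹ * (r * (C * (q : ℝ) ^ (1 + e) * (1 + |ξ|) ^ 6) + (r ^ 3)⁻¹ *
                (C * (q : ℝ) ^ (1 + e) * (1 + |ξ|) ^ 6 * u ^ 6)) := by
              gcongr
          _ = (C * (q : ℝ) ^ (1 + e) * (1 + |ξ|) ^ 6) * ((u ^ 3)⁻¹ * r) +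
              (C * (q : ℝ) ^ (1 + e) * (1 + |ξ|) ^ 6) * ((u ^ 3)⁻¹ * ((r ^ 3)⁻¹ * u ^ 6)) := by
              ring
          _ = (2 * C * (q : ℝ) ^ (1 + e) * (1 + |ξ|) ^ 6) * u ^ (-(3 / 2) : ℝ) := by
              rw [hr, exp1 hu, exp2 hu]
              ring
    _ = (2 * C * J) * (q : ℝ) ^ (1 + e) * (1 + |ξ|) ^ 6 := by
        rw [integral_const_mul]
        ring
    _ ≤ (2 * C * J + 1) * (q : ℝ) ^ (1 + e) * (1 + |ξ|) ^ 6 := by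
        have : 0 ≤ (q : ℝ) ^ (1 + e) * (1 + |ξ|) ^ 6 := by positivity
        linarith [show (2 * C * J + 1) * (q : ℝ) ^ (1 + e) * (1 + |ξ|) ^ 6 =
          (2 * C * J) * (q : ℝ) ^ (1 + e) * (1 + |ξ|) ^ 6 + (q : ℝ) ^ (1 + e) * (1 + |ξ|) ^ 6 by ring]

/-- the sum over `b` -/
noncomputable def Sb (X : ℝ) (a : ℕ) {q : ℕ} (χ : DirichletCharacter ℂ q) (ξ : ℝ) : ℂ :=
  ∑ b ∈ (Finset.Icc 1 ⌊X⌋₊).filter (fun b => b.Coprime a),
    ((Real.log (X / b) ^ 2 : ℝ) : ℂ) * χ (b : ZMod q) * (b : ℂ) ^ (-(1 / 2 + ξ * I))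

/-- the integrand -/
noncomputable def Fi (τ Δ X : ℝ) (a : ℕ) {q : ℕ} [NeZero q] (χ : DirichletCharacter ℂ q)
    (ξ : ℝ) : ℂ :=
  (Gh τ Δ (1 / 2 + ξ * I) * (q : ℂ) ^ (1 / 2 + ξ * I) * LFunction χ (1 / 2 + ξ * I) ^ 3 *
    Bg (fun n => χ (n : ZMod q)) (a / q) (1 / 2 + ξ * I)) * Sb X a χ ξ

theorem Fi_eq (τ Δ X : ℝ) (a : ℕ) {q : ℕ} [NeZero q] (χ : DirichletCharacter ℂ q) (ξ : ℝ) :
    Fi τ Δ X a χ ξ = ∑ b ∈ (Finset.Icc 1 ⌊X⌋₊).filter (fun b => b.Coprime a),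
      (((Real.log (X / b) ^ 2 : ℝ) : ℂ) * χ (b : ZMod q)) *
        (Gh τ Δ (1 / 2 + ξ * I) * (q : ℂ) ^ (1 / 2 + ξ * I) * (b : ℂ) ^ (-(1 / 2 + ξ * I)) *
        LFunction χ (1 / 2 + ξ * I) ^ 3 * Bg (fun n => χ (n : ZMod q)) (a / q) (1 / 2 + ξ * I)) := by
  unfold Fi Sb
  rw [Finset.mul_sum]
  refine Finset.sum_congr rfl fun b _ => ?_
  ring

theorem Fi_int {τ Δ X : ℝ} (hΔ : 1 ≤ Δ) (hτ : Δ ≤ τ) {a q : ℕ} [NeZero q] (ha : 1 ≤ a)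
    (hq : q ∣ a) (χ : DirichletCharacter ℂ q) (hχ : χ ≠ 1) :
    Integrable (Fi τ Δ X a χ) ∧
      (1 / (2 * Real.pi)) * ∫ ξ : ℝ, Fi τ Δ X a χ ξ =
        ∑ b ∈ (Finset.Icc 1 ⌊X⌋₊).filter (fun b => b.Coprime a),
          (((Real.log (X / b) ^ 2 : ℝ) : ℂ) * χ (b : ZMod q)) *
          ∑' m : ℕ, ((d3 (a / q * m) : ℕ) : ℂ) * χ (m : ZMod q) * (GG τ Δ (m * b / (q : ℝ)) : ℂ) := by
  have hg : 1 ≤ a / q := Nat.div_pos (Nat.le_of_dvd ha hq) (Nat.pos_of_ne_zero (NeZero.ne q))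
  have hfun : Fi τ Δ X a χ = fun ξ : ℝ => ∑ b ∈ (Finset.Icc 1 ⌊X⌋₊).filter (fun b => b.Coprime a),
      (((Real.log (X / b) ^ 2 : ℝ) : ℂ) * χ (b : ZMod q)) *
        (Gh τ Δ (1 / 2 + ξ * I) * (q : ℂ) ^ (1 / 2 + ξ * I) * (b : ℂ) ^ (-(1 / 2 + ξ * I)) *
        LFunction χ (1 / 2 + ξ * I) ^ 3 *
        Bg (fun n => χ (n : ZMod q)) (a / q) (1 / 2 + ξ * I)) := by
    funext ξ
    exact Fi_eq τ Δ X a χ ξ
  have hb1 : ∀ b ∈ (Finset.Icc 1 ⌊X⌋₊).filter (fun b => b.Coprime a), 1 ≤ b := fun b hb =>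
    (Finset.mem_Icc.1 (Finset.mem_filter.1 hb).1).1
  have hi : ∀ b ∈ (Finset.Icc 1 ⌊X⌋₊).filter (fun b => b.Coprime a), Integrable (fun ξ : ℝ =>
      (((Real.log (X / b) ^ 2 : ℝ) : ℂ) * χ (b : ZMod q)) *
        (Gh τ Δ (1 / 2 + ξ * I) * (q : ℂ) ^ (1 / 2 + ξ * I) * (b : ℂ) ^ (-(1 / 2 + ξ * I)) *
        LFunction χ (1 / 2 + ξ * I) ^ 3 *
        Bg (fun n => χ (n : ZMod q)) (a / q) (1 / 2 + ξ * I))) := fun b hb =>
    (nonpr_integrable χ hχ hΔ hτ hg (hb1 b hb)).const_mul _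
  constructor
  · rw [hfun]
    exact integrable_finsetSum _ hi
  · rw [hfun, integral_finsetSum _ hi, Finset.mul_sum]
    refine Finset.sum_congr rfl fun b hb => ?_
    rw [integral_const_mul, nonpr_char χ hχ hΔ hτ hg (hb1 b hb)]
    ring

open Classical in
theorem q_part {τ Δ X : ℝ} (hΔ : 1 ≤ Δ) (hτ : Δ ≤ τ) {a q : ℕ} [NeZero q] (ha : 1 ≤ a)
    (hq : q ∣ a) {δ A1 A2 A3 A4 : ℝ} (hA1 : 0 ≤ A1) (hA2 : 0 ≤ A2) (hA3 : 0 ≤ A3)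
    (hG : ∀ ξ : ℝ, ‖Gh τ Δ (1 / 2 + ξ * I)‖ ≤ A1 * ((1 + |ξ|) ^ 20)⁻¹)
    (hB : ∀ (χ : DirichletCharacter ℂ q) (ξ : ℝ),
      ‖Bg (fun n => χ (n : ZMod q)) (a / q) (1 / 2 + ξ * I)‖ ≤ A2)
    (hS : ∀ (χ : DirichletCharacter ℂ q), χ ≠ 1 → ∀ ξ : ℝ, ‖Sb X a χ ξ‖ ≤
      A3 * ∫ v : ℝ, ‖LFunction χ (1 / 2 + δ + ((ξ + v : ℝ) : ℂ) * I)‖ * ((1 + |v|) ^ 3)⁻¹)
    (hL : ∀ ξ : ℝ, ∑ χ ∈ Finset.univ.erase (1 : DirichletCharacter ℂ q),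
      ‖LFunction χ (1 / 2 + ξ * I)‖ ^ 3 *
      ∫ v : ℝ, ‖LFunction χ (1 / 2 + δ + ((ξ + v : ℝ) : ℂ) * I)‖ * ((1 + |v|) ^ 3)⁻¹ ≤
      A4 * (1 + |ξ|) ^ 6) :
    ‖∑ b ∈ (Finset.Icc 1 ⌊X⌋₊).filter (fun b => b.Coprime a), ((Real.log (X / b) ^ 2 : ℝ) : ℂ) *
      ∑ χ ∈ Finset.univ.erase (1 : DirichletCharacter ℂ q),
        gaussSum χ⁻¹ (ZMod.stdAddChar (N := q)) * χ (-1) * χ (b : ZMod q) *
          ∑' m : ℕ, ((d3 (a / q * m) : ℕ) : ℂ) * χ (m : ZMod q) *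
            (GG τ Δ (m * b / (q : ℝ)) : ℂ)‖ ≤
      q * (A1 * A2 * A3 * A4) * ∫ ξ : ℝ, (1 + |ξ|) ^ (-(14 : ℝ)) := by
  have hqpos : 0 < q := Nat.pos_of_ne_zero (NeZero.ne q)
  have hq0 : (0 : ℝ) < q := by exact_mod_cast hqpos
  -- rearrange
  have hre : ∑ b ∈ (Finset.Icc 1 ⌊X⌋₊).filter (fun b => b.Coprime a),
      ((Real.log (X / b) ^ 2 : ℝ) : ℂ) *
      ∑ χ ∈ Finset.univ.erase (1 : DirichletCharacter ℂ q),
        gaussSum χ⁻¹ (ZMod.stdAddChar (N := q)) * χ (-1) * χ (b : ZMod q) *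
          ∑' m : ℕ, ((d3 (a / q * m) : ℕ) : ℂ) * χ (m : ZMod q) *
            (GG τ Δ (m * b / (q : ℝ)) : ℂ) =
      ∑ χ ∈ Finset.univ.erase (1 : DirichletCharacter ℂ q),
        (gaussSum χ⁻¹ (ZMod.stdAddChar (N := q)) * χ (-1)) *
          ((1 / (2 * Real.pi)) * ∫ ξ : ℝ, Fi τ Δ X a χ ξ) := by
    simp only [Finset.mul_sum]
    rw [Finset.sum_comm]
    refine Finset.sum_congr rfl fun χ hχ => ?_
    rw [(Fi_int hΔ hτ ha hq χ (Finset.ne_of_mem_erase hχ)).2, Finset.mul_sum]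
    refine Finset.sum_congr rfl fun b _ => ?_
    ring
  rw [hre]
  have hgauss : ∀ χ : DirichletCharacter ℂ q,
      ‖gaussSum χ⁻¹ (ZMod.stdAddChar (N := q)) * χ (-1)‖ ≤ Real.sqrt q := by
    intro χ
    rw [norm_mul]
    calc _ ≤ Real.sqrt q * 1 := mul_le_mul (norm_gauss_le χ⁻¹) (χ.norm_le_one _)
          (norm_nonneg _) (Real.sqrt_nonneg _)
      _ = Real.sqrt q := mul_one _
  have hpt : ∀ ξ : ℝ, ∑ χ ∈ Finset.univ.erase (1 : DirichletCharacter ℂ q),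
      ‖Fi τ Δ X a χ ξ‖ ≤ (Real.sqrt q * (A1 * A2 * A3 * A4)) * (1 + |ξ|) ^ (-(14 : ℝ)) := by
    intro ξ
    have hu : 0 < 1 + |ξ| := by positivity
    have hqn : ‖(q : ℂ) ^ (1 / 2 + ξ * I : ℂ)‖ = Real.sqrt q := by
      rw [Complex.norm_natCast_cpow_of_pos hqpos, Real.sqrt_eq_rpow]
      congr 1
      simp
    calc ∑ χ ∈ Finset.univ.erase (1 : DirichletCharacter ℂ q), ‖Fi τ Δ X a χ ξ‖
        ≤ ∑ χ ∈ Finset.univ.erase (1 : DirichletCharacter ℂ q),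
          (A1 * ((1 + |ξ|) ^ 20)⁻¹ * Real.sqrt q * A2 * A3) *
          (‖LFunction χ (1 / 2 + ξ * I)‖ ^ 3 *
      ∫ v : ℝ, ‖LFunction χ (1 / 2 + δ + ((ξ + v : ℝ) : ℂ) * I)‖ * ((1 + |v|) ^ 3)⁻¹) := by
          refine Finset.sum_le_sum fun χ hχ => ?_
          unfold Fi
          rw [norm_mul, norm_mul, norm_mul, norm_mul, norm_pow, hqn]
          have s1 := hG ξ
          have s2 := hB χ ξ
          have s3 := hS χ (Finset.ne_of_mem_erase hχ) ξ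
          have hI : 0 ≤ ∫ v : ℝ, ‖LFunction χ (1 / 2 + δ + ((ξ + v : ℝ) : ℂ) * I)‖ *
              ((1 + |v|) ^ 3)⁻¹ := integral_nonneg fun v => by positivity
          calc _ ≤ (A1 * ((1 + |ξ|) ^ 20)⁻¹) * Real.sqrt q *
                ‖LFunction χ (1 / 2 + ξ * I)‖ ^ 3 * A2 *
                (A3 * ∫ v : ℝ, ‖LFunction χ (1 / 2 + δ + ((ξ + v : ℝ) : ℂ) * I)‖ *
              ((1 + |v|) ^ 3)⁻¹) := by gcongr
            _ = _ := by ring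
      _ = (A1 * ((1 + |ξ|) ^ 20)⁻¹ * Real.sqrt q * A2 * A3) *
          ∑ χ ∈ Finset.univ.erase (1 : DirichletCharacter ℂ q),
          (‖LFunction χ (1 / 2 + ξ * I)‖ ^ 3 *
      ∫ v : ℝ, ‖LFunction χ (1 / 2 + δ + ((ξ + v : ℝ) : ℂ) * I)‖ * ((1 + |v|) ^ 3)⁻¹) := by
          rw [Finset.mul_sum]
      _ ≤ (A1 * ((1 + |ξ|) ^ 20)⁻¹ * Real.sqrt q * A2 * A3) * (A4 * (1 + |ξ|) ^ 6) :=
          mul_le_mul_of_nonneg_left (hL ξ) (by positivity)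
      _ = (Real.sqrt q * (A1 * A2 * A3 * A4)) * (((1 + |ξ|) ^ 20)⁻¹ * (1 + |ξ|) ^ 6) := by ring
      _ = _ := by rw [exp3 hu]
  have hint := int_rpow (p := 14) (by norm_num)
  have hFi : ∀ χ ∈ Finset.univ.erase (1 : DirichletCharacter ℂ q),
      Integrable (fun ξ => ‖Fi τ Δ X a χ ξ‖) := fun χ hχ =>
    ((Fi_int hΔ hτ ha hq χ (Finset.ne_of_mem_erase hχ)).1).norm
  have hpi : ‖((1 / (2 * Real.pi) : ℂ))‖ ≤ 1 := by
    have h1 : ((1 / (2 * Real.pi) : ℂ)) = ((1 / (2 * Real.pi) : ℝ) : ℂ) := by push_cast; rfl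
    rw [h1, Complex.norm_real, Real.norm_of_nonneg (by positivity)]
    rw [div_le_one (by positivity)]
    linarith [Real.pi_gt_three]
  calc ‖∑ χ ∈ Finset.univ.erase (1 : DirichletCharacter ℂ q),
        (gaussSum χ⁻¹ (ZMod.stdAddChar (N := q)) * χ (-1)) *
          ((1 / (2 * Real.pi)) * ∫ ξ : ℝ, Fi τ Δ X a χ ξ)‖
      ≤ ∑ χ ∈ Finset.univ.erase (1 : DirichletCharacter ℂ q),
        Real.sqrt q * ∫ ξ : ℝ, ‖Fi τ Δ X a χ ξ‖ := by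
        refine (norm_sum_le _ _).trans (Finset.sum_le_sum fun χ _ => ?_)
        rw [norm_mul]
        refine mul_le_mul (hgauss χ) ?_ (norm_nonneg _) (Real.sqrt_nonneg _)
        rw [norm_mul]
        have h1 := norm_integral_le_integral_norm (μ := volume) (Fi τ Δ X a χ)
        calc _ ≤ 1 * ∫ ξ : ℝ, ‖Fi τ Δ X a χ ξ‖ :=
              mul_le_mul hpi h1 (norm_nonneg _) (by norm_num)
          _ = _ := one_mul _
    _ = Real.sqrt q * ∫ ξ : ℝ, ∑ χ ∈ Finset.univ.erase (1 : DirichletCharacter ℂ q),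
          ‖Fi τ Δ X a χ ξ‖ := by
        rw [integral_finsetSum _ hFi, Finset.mul_sum]
    _ ≤ Real.sqrt q * ∫ ξ : ℝ, (Real.sqrt q * (A1 * A2 * A3 * A4)) * (1 + |ξ|) ^ (-(14 : ℝ)) := by
        refine mul_le_mul_of_nonneg_left ?_ (Real.sqrt_nonneg _)
        exact integral_mono (integrable_finsetSum _ hFi) (hint.const_mul _) hpt
    _ = (Real.sqrt q * Real.sqrt q) * (A1 * A2 * A3 * A4) * ∫ ξ : ℝ, (1 + |ξ|) ^ (-(14 : ℝ)) := by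
        rw [integral_const_mul]
        ring
    _ = _ := by rw [Real.mul_self_sqrt hq0.le]

/-- the exponents -/
theorem final_exp {τ V e ε δ a : ℝ} {q : ℝ} (he : 0 < e) (hε : 8 * e = ε) (hδ : δ ≤ e)
    (ha : 1 ≤ a) (haτ : a ≤ τ) {X : ℝ} (hX : 1 ≤ X) (hXτ : X ≤ τ) (hδ0 : 0 < δ)
    (hV : 0 ≤ V) (hq1 : 1 ≤ q) (hqa : q ≤ a) :
    a ^ e * (q ^ e * q ^ (1 + e)) * (τ ^ (1 / 2 : ℝ) * V) * a ^ e * a ^ e * X ^ δ ≤
      V * τ ^ (1 / 2 + ε) * a := by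
  have hτ1 : 1 ≤ τ := ha.trans haτ
  have hτ0 : 0 < τ := by linarith
  have ha0 : 0 < a := by linarith
  have hq0 : 0 < q := by linarith
  have h1 : a ^ e ≤ τ ^ e := Real.rpow_le_rpow ha0.le haτ he.le
  have h2 : q ^ e ≤ τ ^ e := Real.rpow_le_rpow hq0.le (hqa.trans haτ) he.le
  have h3 : q ^ (1 + e) ≤ a * τ ^ e := by
    rw [Real.rpow_add hq0, Real.rpow_one]
    exact mul_le_mul hqa h2 (by positivity) ha0.le
  have h4 : X ^ δ ≤ τ ^ e := by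
    calc X ^ δ ≤ τ ^ δ := Real.rpow_le_rpow (by linarith) hXτ hδ0.le
      _ ≤ τ ^ e := Real.rpow_le_rpow_of_exponent_le hτ1 hδ
  calc a ^ e * (q ^ e * q ^ (1 + e)) * (τ ^ (1 / 2 : ℝ) * V) * a ^ e * a ^ e * X ^ δ
      ≤ τ ^ e * (τ ^ e * (a * τ ^ e)) * (τ ^ (1 / 2 : ℝ) * V) * τ ^ e * τ ^ e * τ ^ e := by
        gcongr
    _ = V * (τ ^ (1 / 2 : ℝ) * (τ ^ e) ^ 6) * a := by ring
    _ ≤ V * τ ^ (1 / 2 + ε) * a := by
        have h5 : τ ^ (1 / 2 : ℝ) * (τ ^ e) ^ 6 ≤ τ ^ (1 / 2 + ε) := by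
          rw [← Real.rpow_natCast (τ ^ e) 6, ← Real.rpow_mul hτ0.le, ← Real.rpow_add hτ0]
          apply Real.rpow_le_rpow_of_exponent_le hτ1
          push_cast
          linarith
        gcongr

end ErB

open ErB DirichletCharacter in
theorem er_bound (ε : ℝ) (hε : 0 < ε) : ∃ C : ℝ, 0 < C ∧ ∀ (τ Δ X : ℝ) (a : ℕ), 1 ≤ Δ → Δ ≤ τ →
    1 ≤ a → (a : ℝ) ≤ τ → 1 ≤ X → X ≤ τ →
    ‖∑ b ∈ (Finset.Icc 1 ⌊X⌋₊).filter (fun b => b.Coprime a), ((Real.log (X / b) ^ 2 : ℝ) : ℂ) *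
      ∑' n : ℕ, ((d3 n : ℕ) : ℂ) * (ee (-(n * b / a)) - (rho a n : ℂ)) * (GG τ Δ (n * b / a) : ℂ)‖ ≤
      C * (τ / Δ) ^ 20 * τ ^ (1 / 2 + ε) * a := by
  classical
  set e : ℝ := ε / 8 with hed
  have he : 0 < e := by positivity
  set δ : ℝ := min e (1 / 16) with hδd
  have hδ : 0 < δ := lt_min he (by norm_num)
  have hδ' : δ ≤ 1 / 16 := min_le_right _ _
  have hδe : δ ≤ e := min_le_left _ _
  obtain ⟨C1, hC1, hG⟩ := gh_decay 20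
  obtain ⟨C2, hC2, hB⟩ := Bg_norm_le e he
  obtain ⟨C3, hC3, hS⟩ := bsum δ hδ hδ'
  obtain ⟨C4, hC4, hA⟩ := char_int e he δ hδ hδ'
  obtain ⟨C5, hC5, hO⟩ := pow_omega_le e he
  obtain ⟨C6, hC6, hT⟩ := tau_le e he
  obtain ⟨C7, hC7, hφ⟩ := tot_le e he
  have hI : 0 ≤ ∫ ξ : ℝ, (1 + |ξ|) ^ (-(14 : ℝ)) := integral_nonneg fun ξ => by positivity
  set J : ℝ := ∫ ξ : ℝ, (1 + |ξ|) ^ (-(14 : ℝ)) with hJ
  refine ⟨C1 * C2 * C3 * C4 * C5 * C6 * C7 * J + 1, by positivity, ?_⟩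
  intro τ Δ X a hΔ hτ ha haτ hX hXτ
  have hΔ0 : 0 < Δ := by linarith
  have hτ1 : 1 ≤ τ := hΔ.trans hτ
  have hτ0 : 0 < τ := by linarith
  have ha1 : (1 : ℝ) ≤ a := by exact_mod_cast ha
  have ha0 : (0 : ℝ) < a := by linarith
  set V : ℝ := (τ / Δ) ^ 20 with hV
  have hV0 : 0 ≤ V := by positivity
  -- insert the formula
  have hre : ∑ b ∈ (Finset.Icc 1 ⌊X⌋₊).filter (fun b => b.Coprime a),
      ((Real.log (X / b) ^ 2 : ℝ) : ℂ) *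
      ∑' n : ℕ, ((d3 n : ℕ) : ℂ) * (ee (-(n * b / a)) - (rho a n : ℂ)) * (GG τ Δ (n * b / a) : ℂ) =
      ∑ k ∈ (Finset.range a).filter (fun k => (k + 1) ∣ a), (1 / (((k + 1).totient : ℕ) : ℂ)) *
        ∑ b ∈ (Finset.Icc 1 ⌊X⌋₊).filter (fun b => b.Coprime a),
          ((Real.log (X / b) ^ 2 : ℝ) : ℂ) *
        ∑ χ ∈ Finset.univ.erase (1 : DirichletCharacter ℂ (k + 1)),
          gaussSum χ⁻¹ (ZMod.stdAddChar (N := k + 1)) * χ (-1) * χ (b : ZMod (k + 1)) *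
            ∑' m : ℕ, ((d3 (a / (k + 1) * m) : ℕ) : ℂ) * χ (m : ZMod (k + 1)) *
              (GG τ Δ (m * b / ((k + 1 : ℕ) : ℝ)) : ℂ) := by
    have h1 : ∀ b ∈ (Finset.Icc 1 ⌊X⌋₊).filter (fun b => b.Coprime a),
        ((Real.log (X / b) ^ 2 : ℝ) : ℂ) *
      ∑' n : ℕ, ((d3 n : ℕ) : ℂ) * (ee (-(n * b / a)) - (rho a n : ℂ)) * (GG τ Δ (n * b / a) : ℂ) =
      ∑ k ∈ (Finset.range a).filter (fun k => (k + 1) ∣ a), (1 / (((k + 1).totient : ℕ) : ℂ)) *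
        (((Real.log (X / b) ^ 2 : ℝ) : ℂ) *
        ∑ χ ∈ Finset.univ.erase (1 : DirichletCharacter ℂ (k + 1)),
          gaussSum χ⁻¹ (ZMod.stdAddChar (N := k + 1)) * χ (-1) * χ (b : ZMod (k + 1)) *
            ∑' m : ℕ, ((d3 (a / (k + 1) * m) : ℕ) : ℂ) * χ (m : ZMod (k + 1)) *
              (GG τ Δ (m * b / ((k + 1 : ℕ) : ℝ)) : ℂ)) := by
      intro b hb
      have hb' := Finset.mem_filter.1 hb
      rw [nonpr_sum hΔ0 ha (Finset.mem_Icc.1 hb'.1).1 hb'.2, Finset.mul_sum]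
      refine Finset.sum_congr rfl fun k _ => ?_
      rw [mul_left_comm]
    rw [Finset.sum_congr rfl h1, Finset.sum_comm]
    refine Finset.sum_congr rfl fun k _ => ?_
    rw [Finset.mul_sum]
  rw [hre]
  have hper : ∀ k ∈ (Finset.range a).filter (fun k => (k + 1) ∣ a),
      ‖(1 / (((k + 1).totient : ℕ) : ℂ)) *
        ∑ b ∈ (Finset.Icc 1 ⌊X⌋₊).filter (fun b => b.Coprime a),
          ((Real.log (X / b) ^ 2 : ℝ) : ℂ) *
        ∑ χ ∈ Finset.univ.erase (1 : DirichletCharacter ℂ (k + 1)),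
          gaussSum χ⁻¹ (ZMod.stdAddChar (N := k + 1)) * χ (-1) * χ (b : ZMod (k + 1)) *
            ∑' m : ℕ, ((d3 (a / (k + 1) * m) : ℕ) : ℂ) * χ (m : ZMod (k + 1)) *
              (GG τ Δ (m * b / ((k + 1 : ℕ) : ℝ)) : ℂ)‖ ≤
      (C1 * C2 * C3 * C4 * C5 * C7 * J) * ((((k + 1 : ℕ) : ℝ) ^ e * ((k + 1 : ℕ) : ℝ) ^ (1 + e)) *
        (τ ^ (1 / 2 : ℝ) * V) * (a : ℝ) ^ e * (a : ℝ) ^ e * X ^ δ) := by
    intro k hk
    have hq : (k + 1) ∣ a := (Finset.mem_filter.1 hk).2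
    have hqa : k + 1 ≤ a := Nat.le_of_dvd ha hq
    set q : ℕ := k + 1 with hqd
    have hq1 : (1 : ℝ) ≤ q := by exact_mod_cast Nat.succ_le_succ (Nat.zero_le k)
    have hφ0 : (0 : ℝ) < (q.totient : ℝ) := by
      exact_mod_cast Nat.totient_pos.2 (by omega)
    have hg1 : 1 ≤ a / q := Nat.div_pos hqa (by omega)
    have hmain := q_part (τ := τ) (Δ := Δ) (X := X) hΔ hτ ha hq (δ := δ)
      (A1 := C1 * τ ^ (1 / 2 : ℝ) * V) (A2 := C2 * (a : ℝ) ^ e)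
      (A3 := C3 * (C5 * (a : ℝ) ^ e) * X ^ δ) (A4 := C4 * (q : ℝ) ^ (1 + e))
      (by positivity) (by positivity) (by positivity)
      (by
        intro ξ
        have h := hG τ Δ (1 / 2 + ξ * I) hΔ hτ (by simp) (by norm_num)
        have e1 : (1 / 2 + ξ * I : ℂ).im = ξ := by simp
        have e2 : (1 / 2 + ξ * I : ℂ).re = 1 / 2 := by simp
        rw [e1, e2] at h
        rw [← div_eq_mul_inv]
        exact h)
      (by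
        intro χ ξ
        refine (hB (fun n => χ (n : ZMod q)) (a / q) (1 / 2 + ξ * I) hg1 (by simp)
          (fun n => χ.norm_le_one _)).trans ?_
        refine mul_le_mul_of_nonneg_left ?_ (by linarith)
        refine Real.rpow_le_rpow (by positivity) ?_ he.le
        exact_mod_cast Nat.div_le_self a q)
      (by
        intro χ hχ ξ
        have hJ0 : 0 ≤ ∫ v : ℝ, ‖LFunction χ (1 / 2 + δ + ((ξ + v : ℝ) : ℂ) * I)‖ *
              ((1 + |v|) ^ 3)⁻¹ := integral_nonneg fun v => by positivity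
        refine (hS a q χ ha hq hχ X ξ hX).trans ?_
        refine mul_le_mul_of_nonneg_right ?_ hJ0
        have := hO a ha
        gcongr)
      (by
        intro ξ
        exact hA q ξ)
    rw [norm_mul]
    have e1 : ‖(1 / ((q.totient : ℕ) : ℂ))‖ = 1 / (q.totient : ℝ) := by
      rw [norm_div, norm_one, Complex.norm_natCast]
    rw [e1]
    have htot := hφ q (by omega)
    calc (1 / (q.totient : ℝ)) * _ ≤ (1 / (q.totient : ℝ)) * (q * ((C1 * τ ^ (1 / 2 : ℝ) * V) *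
          (C2 * (a : ℝ) ^ e) * (C3 * (C5 * (a : ℝ) ^ e) * X ^ δ) * (C4 * (q : ℝ) ^ (1 + e))) * J) :=
          mul_le_mul_of_nonneg_left hmain (by positivity)
      _ = ((q : ℝ) / (q.totient : ℝ)) * ((C1 * τ ^ (1 / 2 : ℝ) * V) *
          (C2 * (a : ℝ) ^ e) * (C3 * (C5 * (a : ℝ) ^ e) * X ^ δ) * (C4 * (q : ℝ) ^ (1 + e)) * J) := by
          ring
      _ ≤ (C7 * (q : ℝ) ^ e) * ((C1 * τ ^ (1 / 2 : ℝ) * V) *
          (C2 * (a : ℝ) ^ e) * (C3 * (C5 * (a : ℝ) ^ e) * X ^ δ) * (C4 * (q : ℝ) ^ (1 + e)) * J) :=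
          mul_le_mul_of_nonneg_right htot (by positivity)
      _ = _ := by ring
  have hcard : (((Finset.range a).filter (fun k => (k + 1) ∣ a)).card : ℝ) ≤ C6 * (a : ℝ) ^ e := by
    refine le_trans ?_ (hT a ha)
    have : ((Finset.range a).filter (fun k => (k + 1) ∣ a)).card ≤ a.divisors.card := by
      refine Finset.card_le_card_of_injOn (fun k => k + 1) ?_ ?_
      · intro k hk
        have hk' := Finset.mem_filter.1 hk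
        exact Nat.mem_divisors.2 ⟨hk'.2, by omega⟩
      · intro k _ l _ h
        simpa using h
    exact_mod_cast this
  have hper2 : ∀ k ∈ (Finset.range a).filter (fun k => (k + 1) ∣ a),
      (a : ℝ) ^ e * (((((k + 1 : ℕ) : ℝ) ^ e * ((k + 1 : ℕ) : ℝ) ^ (1 + e)) *
        (τ ^ (1 / 2 : ℝ) * V) * (a : ℝ) ^ e * (a : ℝ) ^ e * X ^ δ)) ≤ V * τ ^ (1 / 2 + ε) * a := by
    intro k hk
    have hq : (k + 1) ∣ a := (Finset.mem_filter.1 hk).2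
    have hqa : k + 1 ≤ a := Nat.le_of_dvd ha hq
    have h := final_exp (τ := τ) (V := V) (e := e) (ε := ε) (δ := δ) (a := (a : ℝ))
      (q := ((k + 1 : ℕ) : ℝ)) he (by rw [hed]; ring) hδe ha1 haτ hX hXτ hδ hV0
      (by exact_mod_cast Nat.succ_le_succ (Nat.zero_le k)) (by exact_mod_cast hqa)
    refine le_trans (le_of_eq ?_) h
    ring
  have hae : 0 < (a : ℝ) ^ e := by positivity
  set R : ℝ := V * τ ^ (1 / 2 + ε) * a with hR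
  have hR0 : 0 ≤ R := by positivity
  have hper3 : ∀ k ∈ (Finset.range a).filter (fun k => (k + 1) ∣ a),
      (C1 * C2 * C3 * C4 * C5 * C7 * J) * ((((k + 1 : ℕ) : ℝ) ^ e * ((k + 1 : ℕ) : ℝ) ^ (1 + e)) *
        (τ ^ (1 / 2 : ℝ) * V) * (a : ℝ) ^ e * (a : ℝ) ^ e * X ^ δ) ≤
      (C1 * C2 * C3 * C4 * C5 * C7 * J) * (R / (a : ℝ) ^ e) := by
    intro k hk
    refine mul_le_mul_of_nonneg_left ?_ (by positivity)
    rw [le_div_iff₀ hae]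
    have := hper2 k hk
    linarith
  calc _ ≤ ∑ k ∈ (Finset.range a).filter (fun k => (k + 1) ∣ a),
        (C1 * C2 * C3 * C4 * C5 * C7 * J) * (R / (a : ℝ) ^ e) :=
        (norm_sum_le _ _).trans (Finset.sum_le_sum fun k hk => (hper k hk).trans (hper3 k hk))
    _ = (((Finset.range a).filter (fun k => (k + 1) ∣ a)).card : ℝ) *
        ((C1 * C2 * C3 * C4 * C5 * C7 * J) * (R / (a : ℝ) ^ e)) := by
        rw [Finset.sum_const, nsmul_eq_mul]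
    _ ≤ (C6 * (a : ℝ) ^ e) * ((C1 * C2 * C3 * C4 * C5 * C7 * J) * (R / (a : ℝ) ^ e)) :=
        mul_le_mul_of_nonneg_right hcard (by positivity)
    _ = (C1 * C2 * C3 * C4 * C5 * C6 * C7 * J) * R := by
        field_simp
    _ ≤ (C1 * C2 * C3 * C4 * C5 * C6 * C7 * J + 1) * R :=
        mul_le_mul_of_nonneg_right (by linarith) hR0
    _ = _ := by rw [hR]; ring

end Pool.Agent.P07318m
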