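import Pool.Agent.Lib.P07318m.Defs
import Pool.Agent.Lib.P4f18dfS.XFac
import Pool.Agent.Lib.P4f18dfS.ShiftPoly

/-!
# P07318m.WFun: the kernel `W(Y)` on other lines, and its decay for large `Y`

`wf_line`: for `c ≥ 1/2` the line `Re s = 1/2` in the definition of `Wf` may be replaced by `Re s = c`
(`ga τ Δ (1/2+it) = wt τ Δ t`, `XF (1/2 - it) = XF (1 - s)`). PROOF. `shift_poly_on` with
`F(s) = ga τ Δ s * XF (1-s) * Y^{-s}` on `U = {0 < Re s}`: `XF (1-s)` is holomorphic for `Re s > 0` (`xf_diff`),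
`‖XF (1-s)‖ ≤ C (1+|Im s|)^{n+2}` for `1/4 ≤ Re s ≤ 1+n` (`xf_growth`), and
`‖ga τ Δ (σ+it)‖ = exp(((σ-1/2)^2 - (t-τ)^2)/Δ^2)`.

`wf_integrable`: integrability of the integrand on the line `Re s = c`.

`wf_tail`: take `c = 1/2 + k`: `‖Y^{-s}‖ = Y^{-1/2-k}`, `‖ga‖ ≤ e^{k^2} exp(-((t-τ)/Δ)^2)` (as `Δ ≥ 1`),
`‖XF(1-s)‖ ≤ C (1+|t|)^{k+2}`, `∫ exp(-((t-τ)/Δ)^2) (1+|t|)^{k+2} dt ≤ C_k Δ τ^{k+2}` (as `1 ≤ Δ ≤ τ`:
`1+|t| ≤ 1 + τ + Δ |x| ≤ 3 τ (1+|x|)`, `t = τ + Δ x`).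
-/

set_option autoImplicit false

open MeasureTheory Complex Filter Topology

namespace Pool.Agent.P07318m

open Pool.Agent.P4f18dfS (wt XF shift_poly_on xf_diff xf_growth)

theorem ga_half (τ Δ t : ℝ) : ga τ Δ (1 / 2 + t * I) = (wt τ Δ t : ℂ) := by
  unfold ga wt
  rw [Complex.ofReal_exp]
  congr 1
  have h1 : (1 / 2 + (t : ℂ) * I - 1 / 2 - τ * I) = ((t - τ : ℝ) : ℂ) * I := by
    push_cast
    ring
  rw [h1]
  push_cast
  rw [div_pow, mul_pow, I_sq]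
  ring

theorem ga_norm (τ Δ : ℝ) (s : ℂ) :
    ‖ga τ Δ s‖ = Real.exp ((s.re - 1 / 2) ^ 2 / Δ ^ 2) * Real.exp (-((s.im - τ) / Δ) ^ 2) := by
  unfold ga
  rw [Complex.norm_exp, ← Real.exp_add]
  congr 1
  have h1 : ((s - 1 / 2 - τ * I) / Δ) = (((s.re - 1 / 2) / Δ : ℝ) : ℂ) + (((s.im - τ) / Δ : ℝ) : ℂ) * I := by
    conv_lhs => rw [← Complex.re_add_im s]
    push_cast
    ring
  rw [h1]
  simp only [pow_two, Complex.mul_re, Complex.add_re, Complex.ofReal_re, Complex.mul_im, Complex.add_im,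
    Complex.ofReal_im, Complex.I_re, Complex.I_im]
  ring

namespace WFunAux

lemma gauss_pow (m : ℕ) (x : ℝ) :
    (1 + |x|) ^ m * Real.exp (-x ^ 2) ≤ m.factorial * Real.exp 2 * Real.exp (-(1 / 2) * x ^ 2) := by
  have h1 := Real.pow_div_factorial_le_exp (1 + |x|) (by positivity) m
  rw [div_le_iff₀ (by positivity)] at h1
  have h2 : Real.exp (1 + |x|) * Real.exp (-x ^ 2) ≤ Real.exp 2 * Real.exp (-(1 / 2) * x ^ 2) := by
    rw [← Real.exp_add, ← Real.exp_add]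
    apply Real.exp_le_exp.2
    nlinarith [sq_nonneg (|x| - 1), sq_abs x]
  calc (1 + |x|) ^ m * Real.exp (-x ^ 2)
      ≤ (Real.exp (1 + |x|) * m.factorial) * Real.exp (-x ^ 2) :=
        mul_le_mul_of_nonneg_right h1 (Real.exp_pos _).le
    _ = m.factorial * (Real.exp (1 + |x|) * Real.exp (-x ^ 2)) := by ring
    _ ≤ m.factorial * (Real.exp 2 * Real.exp (-(1 / 2) * x ^ 2)) :=
        mul_le_mul_of_nonneg_left h2 (by positivity)
    _ = _ := by ring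

/-- The integrand. -/
noncomputable def Fi (τ Δ Y : ℝ) (s : ℂ) : ℂ := ga τ Δ s * XF (1 - s) * (Y : ℂ) ^ (-s)

lemma fi_diff (τ Δ : ℝ) {Y : ℝ} (hY : 0 < Y) : DifferentiableOn ℂ (Fi τ Δ Y) {s : ℂ | 0 < s.re} := by
  have h1 : DifferentiableOn ℂ (fun s : ℂ => XF (1 - s)) {s : ℂ | 0 < s.re} := by
    apply xf_diff.comp (by fun_prop)
    intro s hs
    have hs' : 0 < s.re := hs
    simp only [Set.mem_ofPred_eq, Complex.sub_re, Complex.one_re]
    linarith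
  have h2 : Differentiable ℂ (ga τ Δ) := by
    unfold ga
    fun_prop
  have h3 : Differentiable ℂ (fun s : ℂ => (Y : ℂ) ^ (-s)) := by
    intro s
    apply DifferentiableAt.const_cpow (by fun_prop)
    left
    exact_mod_cast hY.ne'
  exact (h2.differentiableOn.mul h1).mul h3.differentiableOn

lemma fi_norm_le {τ Δ Y C : ℝ} {n : ℕ} (hY : 0 < Y)
    (hC : ∀ w : ℂ, -(n : ℝ) ≤ w.re → w.re ≤ 3 / 4 → ‖XF w‖ ≤ C * (1 + |w.im|) ^ (n + 2)) (s : ℂ)
    (h1 : 1 / 2 ≤ s.re) (h2 : s.re ≤ 1 + n) :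
    ‖Fi τ Δ Y s‖ ≤ Real.exp ((s.re - 1 / 2) ^ 2 / Δ ^ 2) * Real.exp (-((s.im - τ) / Δ) ^ 2) *
      (C * (1 + |s.im|) ^ (n + 2)) * Y ^ (-s.re) := by
  unfold Fi
  rw [norm_mul, norm_mul, ga_norm, Complex.norm_cpow_eq_rpow_re_of_pos hY, Complex.neg_re]
  apply mul_le_mul_of_nonneg_right _ (Real.rpow_nonneg hY.le _)
  apply mul_le_mul_of_nonneg_left _ (by positivity)
  have h3 := hC (1 - s) (by simp; linarith) (by simp; linarith)
  have h4 : |(1 - s).im| = |s.im| := by simp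
  rwa [h4] at h3

lemma fi_bound {τ Δ Y : ℝ} (hΔ : 0 < Δ) (hY : 0 < Y) (c : ℝ) : ∃ K : ℝ, 0 ≤ K ∧ ∀ s : ℂ, 1 / 2 ≤ s.re →
    s.re ≤ c → ‖Fi τ Δ Y s‖ ≤ K / (1 + |s.im|) ^ 2 := by
  set n : ℕ := ⌈c⌉₊ with hn
  have hcn : c ≤ n := Nat.le_ceil c
  obtain ⟨C, hC0, hC⟩ := xf_growth n
  set L : ℝ := 1 + |τ| + Δ with hL
  have hL0 : 0 < L := by positivity
  refine ⟨Real.exp (c ^ 2 / Δ ^ 2) * (C * (L ^ (n + 4) * ((n + 4).factorial * Real.exp 2))) *
    Real.exp (c * |Real.log Y|), by positivity, ?_⟩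
  intro s h1 h2
  have hc : 0 ≤ c := by linarith
  have hp : 0 < (1 + |s.im|) ^ 2 := by positivity
  rw [le_div_iff₀ hp]
  have h3 := fi_norm_le (τ := τ) (Δ := Δ) hY hC s h1 (by linarith)
  set x : ℝ := (s.im - τ) / Δ with hx
  have hsx : s.im = τ + Δ * x := by rw [hx]; field_simp; ring
  have h4 : 1 + |s.im| ≤ L * (1 + |x|) := by
    have : |s.im| ≤ |τ| + Δ * |x| := by
      rw [hsx]
      refine (abs_add_le _ _).trans ?_
      rw [abs_mul, abs_of_pos hΔ]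
    rw [hL]
    nlinarith [abs_nonneg τ, abs_nonneg x, mul_nonneg (abs_nonneg τ) (abs_nonneg x)]
  have h5 : (1 + |s.im|) ^ (n + 4) * Real.exp (-x ^ 2) ≤ L ^ (n + 4) * ((n + 4).factorial * Real.exp 2) := by
    calc (1 + |s.im|) ^ (n + 4) * Real.exp (-x ^ 2) ≤ (L * (1 + |x|)) ^ (n + 4) * Real.exp (-x ^ 2) :=
          mul_le_mul_of_nonneg_right (pow_le_pow_left₀ (by positivity) h4 _) (Real.exp_pos _).le
      _ = L ^ (n + 4) * ((1 + |x|) ^ (n + 4) * Real.exp (-x ^ 2)) := by rw [mul_pow]; ring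
      _ ≤ L ^ (n + 4) * ((n + 4).factorial * Real.exp 2 * 1) := by
          apply mul_le_mul_of_nonneg_left _ (by positivity)
          refine (gauss_pow (n + 4) x).trans ?_
          apply mul_le_mul_of_nonneg_left _ (by positivity)
          apply Real.exp_le_one_iff.2
          nlinarith [sq_nonneg x]
      _ = _ := by ring
  have h6 : Real.exp ((s.re - 1 / 2) ^ 2 / Δ ^ 2) ≤ Real.exp (c ^ 2 / Δ ^ 2) := by
    apply Real.exp_le_exp.2
    apply div_le_div_of_nonneg_right _ (by positivity)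
    apply sq_le_sq' <;> linarith
  have h7 : Y ^ (-s.re) ≤ Real.exp (c * |Real.log Y|) := by
    rw [Real.rpow_def_of_pos hY]
    apply Real.exp_le_exp.2
    calc Real.log Y * -s.re ≤ |Real.log Y * -s.re| := le_abs_self _
      _ = |Real.log Y| * s.re := by rw [abs_mul, abs_neg, abs_of_pos (by linarith : 0 < s.re)]
      _ ≤ |Real.log Y| * c := mul_le_mul_of_nonneg_left h2 (abs_nonneg _)
      _ = _ := by ring
  calc ‖Fi τ Δ Y s‖ * (1 + |s.im|) ^ 2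
      ≤ (Real.exp ((s.re - 1 / 2) ^ 2 / Δ ^ 2) * Real.exp (-x ^ 2) *
      (C * (1 + |s.im|) ^ (n + 2)) * Y ^ (-s.re)) * (1 + |s.im|) ^ 2 :=
        mul_le_mul_of_nonneg_right h3 hp.le
    _ = Real.exp ((s.re - 1 / 2) ^ 2 / Δ ^ 2) * (C * ((1 + |s.im|) ^ (n + 4) * Real.exp (-x ^ 2))) *
        Y ^ (-s.re) := by ring
    _ ≤ _ := by
        apply mul_le_mul _ h7 (Real.rpow_nonneg hY.le _) (by positivity)
        apply mul_le_mul h6 _ (by positivity) (by positivity)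
        exact mul_le_mul_of_nonneg_left h5 hC0.le

lemma fi_cont (τ Δ : ℝ) {Y c : ℝ} (hY : 0 < Y) (hc : 1 / 2 ≤ c) :
    Continuous (fun t : ℝ => Fi τ Δ Y (c + t * I)) := by
  rw [continuous_iff_continuousAt]
  intro t
  have hU : IsOpen {s : ℂ | 0 < s.re} := isOpen_lt continuous_const Complex.continuous_re
  have h1 : ((c : ℂ) + t * I) ∈ {s : ℂ | 0 < s.re} := by
    simp only [Set.mem_ofPred_eq, Complex.add_re, Complex.ofReal_re, Complex.mul_re, Complex.I_re, mul_zero,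
      Complex.ofReal_im, Complex.I_im, mul_one, sub_self, add_zero]
    linarith
  have h2 : ContinuousAt (Fi τ Δ Y) ((c : ℂ) + t * I) :=
    ((fi_diff τ Δ hY).differentiableAt (hU.mem_nhds h1)).continuousAt
  have h3 : ContinuousAt (fun t : ℝ => (c : ℂ) + t * I) t := by fun_prop
  exact ContinuousAt.comp (f := fun t : ℝ => (c : ℂ) + t * I) h2 h3

lemma gauss_int (τ : ℝ) {Δ : ℝ} (hΔ : 0 < Δ) :
    Integrable (fun t : ℝ => Real.exp (-(1 / 2) * ((t - τ) / Δ) ^ 2)) ∧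
    ∫ t : ℝ, Real.exp (-(1 / 2) * ((t - τ) / Δ) ^ 2) = Δ * Real.sqrt (2 * Real.pi) := by
  have e : (fun t : ℝ => Real.exp (-(1 / 2) * ((t - τ) / Δ) ^ 2)) =
      fun t => (fun y : ℝ => Real.exp (-(1 / (2 * Δ ^ 2)) * y ^ 2)) (t - τ) := by
    funext t
    simp only
    congr 1
    field_simp
  have hb : 0 < 1 / (2 * Δ ^ 2) := by positivity
  constructor
  · rw [e]
    exact (integrable_exp_neg_mul_sq hb).comp_sub_right τ
  · rw [e, integral_sub_right_eq_self (fun y : ℝ => Real.exp (-(1 / (2 * Δ ^ 2)) * y ^ 2)) τ,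
      integral_gaussian]
    have : Real.pi / (1 / (2 * Δ ^ 2)) = Δ ^ 2 * (2 * Real.pi) := by field_simp
    rw [this, Real.sqrt_mul (by positivity), Real.sqrt_sq hΔ.le]

end WFunAux

open WFunAux

theorem wf_integrable {τ Δ Y c : ℝ} (hΔ : 0 < Δ) (hY : 0 < Y) (hc : 1 / 2 ≤ c) :
    Integrable (fun t : ℝ => ga τ Δ (c + t * I) * XF (1 - (c + t * I)) * (Y : ℂ) ^ (-((c : ℂ) + t * I))) := by
  obtain ⟨K, hK0, hK⟩ := fi_bound (τ := τ) hΔ hY c
  refine (integrable_inv_one_add_sq.const_mul K).mono' (fi_cont τ Δ hY hc).aestronglyMeasurable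
    (Eventually.of_forall fun t => ?_)
  have h := hK ((c : ℂ) + t * I) (by simpa using hc) (by simp)
  have him : ((c : ℂ) + t * I).im = t := by simp
  rw [him] at h
  exact h.trans (Pool.Agent.P4f18dfS.ShiftPolyAux.inv_sq_le hK0)

theorem wf_line {τ Δ Y c : ℝ} (hΔ : 0 < Δ) (hY : 0 < Y) (hc : 1 / 2 ≤ c) :
    Wf τ Δ Y = ∫ t : ℝ, ga τ Δ (c + t * I) * XF (1 - (c + t * I)) * (Y : ℂ) ^ (-((c : ℂ) + t * I)) := by
  obtain ⟨K, hK0, hK⟩ := fi_bound (τ := τ) hΔ hY c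
  have h := shift_poly_on (F := Fi τ Δ Y) (a := 1 / 2) (b := c) (K := K) hc
    (isOpen_lt continuous_const Complex.continuous_re)
    (fun s h1 _ => by
      show (0 : ℝ) < s.re
      linarith) (fi_diff τ Δ hY) hK
  have h2 : Wf τ Δ Y = ∫ t : ℝ, Fi τ Δ Y (((1 / 2 : ℝ) : ℂ) + t * I) := by
    unfold Wf
    refine integral_congr_ae (Eventually.of_forall fun t => ?_)
    have e1 : (((1 / 2 : ℝ) : ℂ) + t * I) = 1 / 2 + t * I := by push_cast; ring
    simp only [Fi, e1, ga_half]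
    have e2 : (1 : ℂ) - (1 / 2 + t * I) = 1 / 2 - t * I := by ring
    rw [e2]
  rw [h2, h]
  rfl

theorem wf_tail (k : ℕ) : ∃ C : ℝ, 0 < C ∧ ∀ τ Δ Y : ℝ, 1 ≤ Δ → Δ ≤ τ → 0 < Y →
    ‖Wf τ Δ Y‖ ≤ C * Δ * τ ^ 2 * (τ / Y) ^ k * Y ^ (-(1 / 2) : ℝ) := by
  obtain ⟨C, hC0, hC⟩ := xf_growth k
  refine ⟨Real.exp (k ^ 2) * C * (2 ^ (k + 2) * ((k + 2).factorial * Real.exp 2)) *
    Real.sqrt (2 * Real.pi), by positivity, ?_⟩
  intro τ Δ Y hΔ hτ hY
  have hΔ0 : 0 < Δ := by linarith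
  have hτ0 : 0 < τ := by linarith
  set c : ℝ := 1 / 2 + k with hc
  have hk0 : (0 : ℝ) ≤ k := Nat.cast_nonneg k
  have hc2 : 1 / 2 ≤ c := by linarith
  rw [wf_line hΔ0 hY hc2]
  set A : ℝ := Real.exp (k ^ 2) * C * (2 ^ (k + 2) * ((k + 2).factorial * Real.exp 2)) *
    (τ ^ (k + 2) * Y ^ (-c)) with hA
  have hpt : ∀ t : ℝ, ‖ga τ Δ (c + t * I) * XF (1 - (c + t * I)) * (Y : ℂ) ^ (-((c : ℂ) + t * I))‖ ≤
      A * Real.exp (-(1 / 2) * ((t - τ) / Δ) ^ 2) := by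
    intro t
    have h1 := fi_norm_le (τ := τ) (Δ := Δ) hY hC ((c : ℂ) + t * I) (by simpa using hc2) (by
      simp only [Complex.add_re, Complex.ofReal_re, Complex.mul_re, Complex.I_re, mul_zero,
        Complex.ofReal_im, Complex.I_im, mul_one, sub_self, add_zero]
      linarith)
    have hre : ((c : ℂ) + t * I).re = c := by simp
    have him : ((c : ℂ) + t * I).im = t := by simp
    rw [hre, him] at h1
    set x : ℝ := (t - τ) / Δ with hx
    have htx : t = τ + Δ * x := by rw [hx]; field_simp; ring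
    have h4 : 1 + |t| ≤ 2 * τ * (1 + |x|) := by
      have : |t| ≤ τ + Δ * |x| := by
        rw [htx]
        refine (abs_add_le _ _).trans ?_
        rw [abs_mul, abs_of_pos hΔ0, abs_of_pos hτ0]
      nlinarith [abs_nonneg x, mul_nonneg (sub_nonneg.2 hτ) (abs_nonneg x), mul_nonneg hτ0.le (abs_nonneg x)]
    have h5 : (1 + |t|) ^ (k + 2) * Real.exp (-x ^ 2) ≤
        (2 * τ) ^ (k + 2) * ((k + 2).factorial * Real.exp 2 * Real.exp (-(1 / 2) * x ^ 2)) := by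
      calc (1 + |t|) ^ (k + 2) * Real.exp (-x ^ 2) ≤ (2 * τ * (1 + |x|)) ^ (k + 2) * Real.exp (-x ^ 2) :=
            mul_le_mul_of_nonneg_right (pow_le_pow_left₀ (by positivity) h4 _) (Real.exp_pos _).le
        _ = (2 * τ) ^ (k + 2) * ((1 + |x|) ^ (k + 2) * Real.exp (-x ^ 2)) := by rw [mul_pow]; ring
        _ ≤ _ := mul_le_mul_of_nonneg_left (gauss_pow (k + 2) x) (by positivity)
    have h6 : Real.exp ((c - 1 / 2) ^ 2 / Δ ^ 2) ≤ Real.exp (k ^ 2) := by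
      apply Real.exp_le_exp.2
      have : c - 1 / 2 = k := by rw [hc]; ring
      rw [this]
      apply div_le_self (by positivity)
      exact one_le_pow₀ hΔ
    calc ‖ga τ Δ (c + t * I) * XF (1 - (c + t * I)) * (Y : ℂ) ^ (-((c : ℂ) + t * I))‖
        ≤ Real.exp ((c - 1 / 2) ^ 2 / Δ ^ 2) * Real.exp (-x ^ 2) *
          (C * (1 + |t|) ^ (k + 2)) * Y ^ (-c) := h1
      _ = Real.exp ((c - 1 / 2) ^ 2 / Δ ^ 2) * (C * ((1 + |t|) ^ (k + 2) * Real.exp (-x ^ 2))) *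
          Y ^ (-c) := by ring
      _ ≤ Real.exp (k ^ 2) * (C * ((2 * τ) ^ (k + 2) * ((k + 2).factorial * Real.exp 2 *
            Real.exp (-(1 / 2) * x ^ 2)))) * Y ^ (-c) := by
          apply mul_le_mul_of_nonneg_right _ (Real.rpow_nonneg hY.le _)
          apply mul_le_mul h6 _ (by positivity) (by positivity)
          exact mul_le_mul_of_nonneg_left h5 hC0.le
      _ = _ := by rw [hA, mul_pow]; ring
  obtain ⟨hgi, hge⟩ := gauss_int τ hΔ0
  have h8 := norm_integral_le_of_norm_le (hgi.const_mul A) (Eventually.of_forall hpt)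
  rw [integral_const_mul, hge] at h8
  refine h8.trans (le_of_eq ?_)
  have h9 : Y ^ (-c) = Y ^ (-(1 / 2) : ℝ) / Y ^ k := by
    rw [hc, neg_add, ← sub_eq_add_neg, Real.rpow_sub hY, Real.rpow_natCast]
  rw [hA, h9, div_pow, pow_add τ k 2]
  ring

end Pool.Agent.P07318m
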