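import Pool.Agent.Lib.P07318m.Defs
import Pool.Agent.Lib.P07318m.Poles
import Pool.Agent.Lib.P07318m.WFun
import Pool.Agent.Lib.P07318m.EulerB
import Pool.Agent.Lib.P07318m.DAux
import Pool.Agent.Lib.P4f18dfS.ZPoly

/-!
# P07318m.JForm: the twisted moment as a sum over `n`

`J(a,b) = ∫ w(t) ζ(s)^2 ζ(1-s) (a/b)^{it} dt = (b/a)^{1/2} ∑_n d3(n) W(n b/a) + O(τ a b exp(-(τ/Δ)^2))`.
PROOF. With `s = 1/2+it`: `w(t) = ga τ Δ s`, `(a/b)^{it} = (a/b)^{s-1/2}` (`= cexp((s-1/2)(log a - log b))`). The function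
`H(s) = ga τ Δ s * zE(s)^2 * ζ(1-s) * (a/b)^{s-1/2}` (`zE s = (s-1) ζ(s)` entire, `P4f18dfS/ZPoly.lean`, grep `zE`) is holomorphic on
`U = {0 < Re s}` (`ζ(1-s)` has its pole at `s = 0` only) and decays like a Gaussian in the strip `1/2 ≤ Re s ≤ 3/2`
(polynomial bounds `zE_poly`; `ζ(1-s) = zE(1-s)/(-s)`). `pole2` with `ρ = 1`:
`∫ H(3/2+it)/(s-1)^2 dt = J(a,b) + 2π H'(1)`, and
`|H'(1)| ≤ C τ (a/b)^{1/2} (1+|log(a/b)|) exp(-(τ/Δ)^2) ≤ C' τ a b exp(-(τ/Δ)^2)` since `‖ga τ Δ s‖ ≤ C exp(-(τ/Δ)^2)` type bounds at `s = 1`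
(`‖ga(1)‖ = exp(1/(4Δ²) - τ²/Δ²)`, `ga'(1) = 2 (1/2 - iτ)/Δ² ga(1)`; `Δ ≥ 1`, `Δ ≤ τ`); a Cauchy estimate on a small circle would
lose in the exponential, so differentiate the product directly (the other factors are fixed functions of `s` and `(a/b)^{s-1/2}`).
On `Re s = 3/2`: `ζ(1-s) = XF(1-s) ζ(s)` (`xf_eq`), `ζ(s)^3 = ∑ d3(n) n^{-s}` (`zeta_cube`), interchange sum and integral
(`∑ d3(n) n^{-3/2} ∫ ‖ga‖ ‖XF(1-s)‖ < ∞`, `integral_tsum_of_summable_integral_norm`), and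
`(a/b)^{s-1/2} n^{-s} = (b/a)^{1/2} (n b/a)^{-s}`; `wf_line` with `c = 3/2`.
The summability is `d3(n) ‖W(nb/a)‖ ≤ C d3(n) (nb/a)^{-3/2}` (from the same integral).
-/

set_option autoImplicit false

open MeasureTheory Complex

namespace Pool.Agent.P07318m

open Pool.Agent.P4f18dfS (wt XF)

open Pool.Agent.P4f18dfV (zE zE_one zE_of_ne zE_diff zE_half)
open Pool.Agent.P4f18dfS (zE_poly xf_eq)

namespace JFormAux

lemma gauss_bd (N : ℕ) (τ Δ : ℝ) (hΔ : 0 < Δ) : ∃ K : ℝ, 0 ≤ K ∧ ∀ t : ℝ,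
    (1 + |t|) ^ N * Real.exp (-((t - τ) / Δ) ^ 2) ≤ K := by
  refine ⟨((1 + |τ|) * (1 + Δ)) ^ N * (N.factorial * Real.exp (5 / 4)), by positivity, fun t => ?_⟩
  set x : ℝ := |(t - τ) / Δ| with hx
  have hx0 : 0 ≤ x := abs_nonneg _
  have h1 : 1 + |t| ≤ ((1 + |τ|) * (1 + Δ)) * (1 + x) := by
    have h2 : |t| ≤ |τ| + |t - τ| := by
      calc |t| = |τ + (t - τ)| := by ring_nf
        _ ≤ _ := abs_add_le _ _
    have h3 : |t - τ| = Δ * x := by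
      rw [hx, abs_div, abs_of_pos hΔ]
      field_simp
    rw [h3] at h2
    have := abs_nonneg τ
    nlinarith [mul_nonneg this hΔ.le, mul_nonneg hΔ.le hx0, mul_nonneg this hx0,
      mul_nonneg (mul_nonneg this hΔ.le) hx0]
  have h4 : (1 + x) ^ N ≤ N.factorial * Real.exp (1 + x) := by
    have := Real.pow_div_factorial_le_exp (1 + x) (by positivity) N
    rw [div_le_iff₀ (by positivity)] at this
    linarith
  have h5 : -((t - τ) / Δ) ^ 2 = -x ^ 2 := by rw [hx, sq_abs]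
  rw [h5]
  calc (1 + |t|) ^ N * Real.exp (-x ^ 2)
      ≤ (((1 + |τ|) * (1 + Δ)) * (1 + x)) ^ N * Real.exp (-x ^ 2) := by gcongr
    _ = ((1 + |τ|) * (1 + Δ)) ^ N * ((1 + x) ^ N * Real.exp (-x ^ 2)) := by rw [mul_pow]; ring
    _ ≤ ((1 + |τ|) * (1 + Δ)) ^ N * ((N.factorial * Real.exp (1 + x)) * Real.exp (-x ^ 2)) := by
        gcongr
    _ ≤ _ := by
      apply mul_le_mul_of_nonneg_left _ (by positivity)
      rw [mul_assoc, ← Real.exp_add]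
      apply mul_le_mul_of_nonneg_left _ (by positivity)
      apply Real.exp_le_exp.2
      nlinarith [sq_nonneg (x - 1 / 2)]

/-- The fixed factor. -/
noncomputable def Qf (s : ℂ) : ℂ := zE s ^ 2 * riemannZeta (1 - s)

/-- The function whose line integrals are compared. -/
noncomputable def Hf (τ Δ L : ℝ) (s : ℂ) : ℂ := ga τ Δ s * (Qf s * cexp ((s - 1 / 2) * L))

lemma Qf_diff {s : ℂ} (hs : 0 < s.re) : DifferentiableAt ℂ Qf s := by
  unfold Qf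
  apply DifferentiableAt.mul
  · exact (zE_diff s).pow 2
  · have h1 : (1 - s) ≠ 1 := by
      intro h
      have : s = 0 := by linear_combination -h
      rw [this] at hs
      simp at hs
    exact DifferentiableAt.comp (g := riemannZeta) (f := fun s : ℂ => 1 - s) s
      (differentiableAt_riemannZeta h1) (by fun_prop)

lemma ga_diff (τ Δ : ℝ) : Differentiable ℂ (ga τ Δ) := by
  unfold ga
  fun_prop

lemma Hf_diff (τ Δ L : ℝ) {s : ℂ} (hs : 0 < s.re) : DifferentiableAt ℂ (Hf τ Δ L) s := by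
  unfold Hf
  apply DifferentiableAt.mul (ga_diff τ Δ s)
  exact (Qf_diff hs).mul (by fun_prop)

lemma Qf_bd : ∃ C : ℝ, 0 ≤ C ∧ ∀ s : ℂ, 1 / 2 ≤ s.re → s.re ≤ 3 / 2 → ‖Qf s‖ ≤ C * (1 + |s.im|) ^ 7 := by
  obtain ⟨C1, hC1, h1⟩ := zE_half
  obtain ⟨C2, hC2, h2⟩ := zE_poly 1 le_rfl
  refine ⟨(C1 * (5 / 2) ^ 2) ^ 2 * (2 * (C2 * (5 / 2) ^ 3)), by positivity, fun s hs1 hs2 => ?_⟩
  set t : ℝ := |s.im| with ht
  have ht0 : 0 ≤ t := abs_nonneg _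
  have hs : ‖s‖ ≤ 3 / 2 + t := by
    have := Complex.norm_le_abs_re_add_abs_im s
    have h3 : |s.re| ≤ 3 / 2 := by rw [abs_le]; constructor <;> linarith
    linarith
  have hs' : ‖1 - s‖ ≤ 1 / 2 + t := by
    have := Complex.norm_le_abs_re_add_abs_im (1 - s)
    have h3 : |(1 - s).re| ≤ 1 / 2 := by
      rw [abs_le]
      simp only [Complex.sub_re, Complex.one_re]
      constructor <;> linarith
    have h4 : |(1 - s).im| = t := by simp [ht]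
    linarith
  have hn : (1 / 2 : ℝ) ≤ ‖s‖ := hs1.trans (Complex.re_le_norm s)
  have hs0 : s ≠ 0 := by
    rintro rfl
    simp at hn
    linarith
  have e1 : ‖zE s‖ ≤ C1 * (5 / 2) ^ 2 * (1 + t) ^ 2 := by
    refine (h1 s (by linarith)).trans ?_
    rw [mul_assoc, ← mul_pow]
    apply mul_le_mul_of_nonneg_left _ hC1.le
    apply pow_le_pow_left₀ (by positivity)
    linarith
  have e2 : ‖riemannZeta (1 - s)‖ ≤ 2 * (C2 * (5 / 2) ^ 3) * (1 + t) ^ 3 := by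
    have h3 : zE (1 - s) = (-s) * riemannZeta (1 - s) := by
      rw [zE_of_ne]
      · ring
      · intro h
        apply hs0
        linear_combination -h
    have h4 : ‖zE (1 - s)‖ ≤ C2 * (1 + ‖1 - s‖) ^ 3 := by
      have := h2 (1 - s) (by simp; linarith)
      simpa using this
    rw [h3, norm_mul, norm_neg] at h4
    have h5 : C2 * (1 + ‖1 - s‖) ^ 3 ≤ C2 * (5 / 2) ^ 3 * (1 + t) ^ 3 := by
      rw [mul_assoc, ← mul_pow]
      apply mul_le_mul_of_nonneg_left _ hC2.le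
      apply pow_le_pow_left₀ (by positivity)
      linarith
    have h6 : (1 / 2) * ‖riemannZeta (1 - s)‖ ≤ ‖s‖ * ‖riemannZeta (1 - s)‖ :=
      mul_le_mul_of_nonneg_right hn (norm_nonneg _)
    linarith
  unfold Qf
  rw [norm_mul, norm_pow]
  calc ‖zE s‖ ^ 2 * ‖riemannZeta (1 - s)‖
      ≤ (C1 * (5 / 2) ^ 2 * (1 + t) ^ 2) ^ 2 * (2 * (C2 * (5 / 2) ^ 3) * (1 + t) ^ 3) := by
        apply mul_le_mul _ e2 (norm_nonneg _) (by positivity)
        exact pow_le_pow_left₀ (norm_nonneg _) e1 2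
    _ = _ := by ring

lemma Hf_bd (τ Δ L : ℝ) (hΔ : 0 < Δ) : ∃ K : ℝ, ∀ s : ℂ, 1 / 2 ≤ s.re → s.re ≤ 3 / 2 →
    ‖Hf τ Δ L s‖ ≤ K / (1 + |s.im|) ^ 2 := by
  obtain ⟨C, hC, h1⟩ := Qf_bd
  obtain ⟨K, hK, h2⟩ := gauss_bd 9 τ Δ hΔ
  refine ⟨Real.exp (1 / Δ ^ 2) * C * Real.exp |L| * K, fun s hs1 hs2 => ?_⟩
  have hp : 0 < (1 + |s.im|) ^ 2 := by positivity
  rw [le_div_iff₀ hp]
  have h3 : ‖ga τ Δ s‖ ≤ Real.exp (1 / Δ ^ 2) * Real.exp (-((s.im - τ) / Δ) ^ 2) := by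
    rw [ga_norm]
    apply mul_le_mul_of_nonneg_right _ (Real.exp_pos _).le
    apply Real.exp_le_exp.2
    apply div_le_div_of_nonneg_right _ (by positivity)
    nlinarith
  have h4 : ‖cexp ((s - 1 / 2) * L)‖ ≤ Real.exp |L| := by
    rw [Complex.norm_exp]
    apply Real.exp_le_exp.2
    have : ((s - 1 / 2) * (L : ℂ)).re = (s.re - 1 / 2) * L := by
      simp
    rw [this]
    calc (s.re - 1 / 2) * L ≤ (s.re - 1 / 2) * |L| :=
          mul_le_mul_of_nonneg_left (le_abs_self L) (by linarith)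
      _ ≤ 1 * |L| := mul_le_mul_of_nonneg_right (by linarith) (abs_nonneg _)
      _ = |L| := one_mul _
  unfold Hf
  rw [norm_mul, norm_mul]
  calc ‖ga τ Δ s‖ * (‖Qf s‖ * ‖cexp ((s - 1 / 2) * L)‖) * (1 + |s.im|) ^ 2
      ≤ (Real.exp (1 / Δ ^ 2) * Real.exp (-((s.im - τ) / Δ) ^ 2)) *
          ((C * (1 + |s.im|) ^ 7) * Real.exp |L|) * (1 + |s.im|) ^ 2 := by
        apply mul_le_mul_of_nonneg_right _ hp.le
        apply mul_le_mul h3 _ (by positivity) (by positivity)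
        exact mul_le_mul (h1 s hs1 hs2) h4 (norm_nonneg _) (by positivity)
    _ = Real.exp (1 / Δ ^ 2) * C * Real.exp |L| *
          ((1 + |s.im|) ^ 9 * Real.exp (-((s.im - τ) / Δ) ^ 2)) := by ring
    _ ≤ _ := mul_le_mul_of_nonneg_left (h2 _) (by positivity)

lemma ga_deriv (τ Δ : ℝ) : HasDerivAt (ga τ Δ) (2 * (1 / 2 - τ * I) / Δ ^ 2 * ga τ Δ 1) 1 := by
  have h1 : HasDerivAt (fun s : ℂ => ((s - 1 / 2 - τ * I) / Δ) ^ 2)
      (2 * (((1 : ℂ) - 1 / 2 - τ * I) / Δ) ^ 1 * (1 / Δ)) 1 := by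
    have h2 : HasDerivAt (fun s : ℂ => (s - 1 / 2 - τ * I) / Δ) (1 / (Δ : ℂ)) 1 := by
      have := (((hasDerivAt_id (1 : ℂ)).sub_const (1 / 2 : ℂ)).sub_const ((τ : ℂ) * I)).div_const (Δ : ℂ)
      simpa using this
    have := h2.fun_pow 2
    simpa using this
  have h3 := h1.cexp
  refine h3.congr_deriv ?_
  unfold ga
  ring

lemma cexp_deriv (L : ℝ) : HasDerivAt (fun s : ℂ => cexp ((s - 1 / 2) * L))
    (L * cexp (((1 : ℂ) - 1 / 2) * L)) 1 := by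
  have h2 : HasDerivAt (fun s : ℂ => (s - 1 / 2) * (L : ℂ)) (L : ℂ) 1 := by
    have := ((hasDerivAt_id (1 : ℂ)).sub_const (1 / 2 : ℂ)).mul_const (L : ℂ)
    simpa using this
  have h3 := h2.cexp
  refine h3.congr_deriv ?_
  ring

lemma Hf_deriv (τ Δ L : ℝ) : deriv (Hf τ Δ L) 1 =
    ga τ Δ 1 * cexp (((1 : ℂ) - 1 / 2) * L) *
      (2 * (1 / 2 - τ * I) / Δ ^ 2 * Qf 1 + deriv Qf 1 + L * Qf 1) := by
  have hQ : HasDerivAt Qf (deriv Qf 1) 1 := (Qf_diff (by simp)).hasDerivAt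
  have h := (ga_deriv τ Δ).mul (hQ.mul (cexp_deriv L))
  have h2 : HasDerivAt (Hf τ Δ L) _ 1 := h
  rw [h2.deriv]
  simp only [Pi.mul_apply]
  ring

/-- The crude bound for the elementary factor. -/
lemma elem {a b : ℕ} (ha : 1 ≤ a) (hb : 1 ≤ b) :
    Real.exp ((Real.log a - Real.log b) / 2) * (1 + |Real.log a - Real.log b|) ≤ 2 * (a * b) := by
  have ha' : (1 : ℝ) ≤ a := by exact_mod_cast ha
  have hb' : (1 : ℝ) ≤ b := by exact_mod_cast hb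
  set x : ℝ := Real.log a with hx
  set y : ℝ := Real.log b with hy
  have hx0 : 0 ≤ x := Real.log_nonneg ha'
  have hy0 : 0 ≤ y := Real.log_nonneg hb'
  have hax : (a : ℝ) = Real.exp x := (Real.exp_log (by linarith)).symm
  have hby : (b : ℝ) = Real.exp y := (Real.exp_log (by linarith)).symm
  have h1 : |x - y| ≤ x + y := by
    rw [abs_le]
    constructor <;> linarith
  have h2 : 1 + |x - y| ≤ 2 * Real.exp ((x + y) / 2) := by
    have := Real.add_one_le_exp ((x + y) / 2)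
    linarith
  calc Real.exp ((x - y) / 2) * (1 + |x - y|)
      ≤ Real.exp ((x - y) / 2) * (2 * Real.exp ((x + y) / 2)) :=
        mul_le_mul_of_nonneg_left h2 (Real.exp_pos _).le
    _ = 2 * Real.exp x := by
        rw [show Real.exp ((x - y) / 2) * (2 * Real.exp ((x + y) / 2)) =
          2 * (Real.exp ((x - y) / 2) * Real.exp ((x + y) / 2)) by ring, ← Real.exp_add]
        congr 2
        ring
    _ ≤ 2 * (a * b) := by
        rw [← hax]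
        nlinarith

lemma Hf_deriv_bd {τ Δ : ℝ} {a b : ℕ} (hΔ : 1 ≤ Δ) (hτ : Δ ≤ τ) (ha : 1 ≤ a) (hb : 1 ≤ b) :
    ‖deriv (Hf τ Δ (Real.log a - Real.log b)) 1‖ ≤
      (Real.exp 1 * (4 * ‖Qf 1‖ + ‖deriv Qf 1‖) * 2) * τ * a * b * Real.exp (-(τ / Δ) ^ 2) := by
  set L : ℝ := Real.log a - Real.log b with hL
  have hτ1 : 1 ≤ τ := hΔ.trans hτ
  have h1 : ‖ga τ Δ 1‖ ≤ Real.exp 1 * Real.exp (-(τ / Δ) ^ 2) := by
    rw [ga_norm]
    have e1 : ((1 : ℂ).im - τ) / Δ = -(τ / Δ) := by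
      simp
      ring
    rw [e1, neg_sq]
    apply mul_le_mul_of_nonneg_right _ (Real.exp_pos _).le
    apply Real.exp_le_exp.2
    rw [div_le_one (by positivity)]
    simp
    nlinarith
  have h2 : ‖cexp (((1 : ℂ) - 1 / 2) * L)‖ = Real.exp (L / 2) := by
    rw [Complex.norm_exp]
    congr 1
    have : ((1 : ℂ) - 1 / 2) * (L : ℂ) = ((L / 2 : ℝ) : ℂ) := by
      push_cast
      ring
    rw [this, Complex.ofReal_re]
  have h3 : ‖2 * (1 / 2 - τ * I) / (Δ : ℂ) ^ 2‖ ≤ 3 * τ := by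
    rw [norm_div, norm_mul, norm_pow, Complex.norm_real, Real.norm_of_nonneg (by linarith : (0 : ℝ) ≤ Δ)]
    have h4 : ‖(1 / 2 - τ * I : ℂ)‖ ≤ 1 / 2 + τ := by
      refine (norm_sub_le _ _).trans ?_
      rw [norm_mul, Complex.norm_I, Complex.norm_real, Real.norm_of_nonneg (by linarith : (0 : ℝ) ≤ τ)]
      norm_num
    have h5 : (1 : ℝ) ≤ Δ ^ 2 := one_le_pow₀ hΔ
    rw [div_le_iff₀ (by positivity)]
    have h6 : ‖(2 : ℂ)‖ = 2 := by norm_num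
    rw [h6]
    calc 2 * ‖(1 / 2 - τ * I : ℂ)‖ ≤ 2 * (1 / 2 + τ) := by linarith
      _ ≤ 3 * τ * 1 := by linarith
      _ ≤ 3 * τ * Δ ^ 2 := mul_le_mul_of_nonneg_left h5 (by linarith)
  have h4 : ‖2 * (1 / 2 - τ * I) / (Δ : ℂ) ^ 2 * Qf 1 + deriv Qf 1 + L * Qf 1‖ ≤
      (4 * ‖Qf 1‖ + ‖deriv Qf 1‖) * τ * (1 + |L|) := by
    have h5 : ‖2 * (1 / 2 - τ * I) / (Δ : ℂ) ^ 2 * Qf 1 + deriv Qf 1 + L * Qf 1‖ ≤
        3 * τ * ‖Qf 1‖ + ‖deriv Qf 1‖ + |L| * ‖Qf 1‖ := by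
      refine (norm_add_le _ _).trans ?_
      apply add_le_add
      · refine (norm_add_le _ _).trans ?_
        rw [norm_mul]
        gcongr
      · rw [norm_mul, Complex.norm_real, Real.norm_eq_abs]
    refine h5.trans ?_
    have hq := norm_nonneg (Qf 1)
    have hq' := norm_nonneg (deriv Qf 1)
    have hl := abs_nonneg L
    have e1 : 3 * τ * ‖Qf 1‖ ≤ 3 * τ * ‖Qf 1‖ * (1 + |L|) :=
      le_mul_of_one_le_right (by positivity) (by linarith)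
    have e2 : ‖deriv Qf 1‖ ≤ ‖deriv Qf 1‖ * τ * (1 + |L|) := by
      calc ‖deriv Qf 1‖ = ‖deriv Qf 1‖ * 1 * 1 := by ring
        _ ≤ ‖deriv Qf 1‖ * τ * (1 + |L|) := by
            apply mul_le_mul _ (by linarith) zero_le_one (by positivity)
            exact mul_le_mul_of_nonneg_left hτ1 hq'
    have e3 : |L| * ‖Qf 1‖ ≤ τ * ‖Qf 1‖ * (1 + |L|) := by
      calc |L| * ‖Qf 1‖ = 1 * ‖Qf 1‖ * |L| := by ring
        _ ≤ τ * ‖Qf 1‖ * (1 + |L|) := by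
            apply mul_le_mul _ (by linarith) hl (by positivity)
            exact mul_le_mul_of_nonneg_right hτ1 hq
    calc 3 * τ * ‖Qf 1‖ + ‖deriv Qf 1‖ + |L| * ‖Qf 1‖
        ≤ 3 * τ * ‖Qf 1‖ * (1 + |L|) + ‖deriv Qf 1‖ * τ * (1 + |L|) + τ * ‖Qf 1‖ * (1 + |L|) :=
          add_le_add (add_le_add e1 e2) e3
      _ = _ := by ring
  rw [Hf_deriv, norm_mul, norm_mul, h2]
  have h6 := elem ha hb
  rw [← hL] at h6
  calc ‖ga τ Δ 1‖ * Real.exp (L / 2) * ‖2 * (1 / 2 - τ * I) / (Δ : ℂ) ^ 2 * Qf 1 + deriv Qf 1 + L * Qf 1‖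
      ≤ (Real.exp 1 * Real.exp (-(τ / Δ) ^ 2)) * Real.exp (L / 2) *
          ((4 * ‖Qf 1‖ + ‖deriv Qf 1‖) * τ * (1 + |L|)) := by
        apply mul_le_mul _ h4 (norm_nonneg _) (by positivity)
        exact mul_le_mul_of_nonneg_right h1 (Real.exp_pos _).le
    _ = Real.exp 1 * Real.exp (-(τ / Δ) ^ 2) * (4 * ‖Qf 1‖ + ‖deriv Qf 1‖) * τ *
          (Real.exp (L / 2) * (1 + |L|)) := by ring
    _ ≤ Real.exp 1 * Real.exp (-(τ / Δ) ^ 2) * (4 * ‖Qf 1‖ + ‖deriv Qf 1‖) * τ * (2 * (a * b)) := by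
        apply mul_le_mul_of_nonneg_left h6 (by positivity)
    _ = _ := by ring

/-- The line integral on `Re s = 1/2`. -/
lemma left_int (τ Δ : ℝ) (a b : ℕ) :
    ∫ t : ℝ, Hf τ Δ (Real.log a - Real.log b) (((1 / 2 : ℝ) : ℂ) + t * I) /
      (((1 / 2 : ℝ) : ℂ) + t * I - 1) ^ 2 = Jt τ Δ a b := by
  unfold Jt
  refine integral_congr_ae (Filter.Eventually.of_forall fun t => ?_)
  have hs : (((1 / 2 : ℝ) : ℂ) + t * I) = 1 / 2 + t * I := by push_cast; ring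
  have hne : (1 / 2 + t * I : ℂ) ≠ 1 := by
    intro h
    have := congrArg Complex.re h
    norm_num at this
  have hne' : (1 / 2 + t * I - 1 : ℂ) ≠ 0 := sub_ne_zero.2 hne
  simp only [hs]
  unfold Hf Qf
  rw [zE_of_ne hne, ga_half]
  have e1 : (1 : ℂ) - (1 / 2 + t * I) = 1 / 2 - t * I := by ring
  have e2 : ((1 / 2 + t * I : ℂ) - 1 / 2) * ((Real.log a - Real.log b : ℝ) : ℂ) =
      ((t * (Real.log a - Real.log b) : ℝ) : ℂ) * I := by
    push_cast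
    ring
  rw [e1, e2]
  generalize riemannZeta (1 / 2 + t * I) = z1
  generalize riemannZeta (1 / 2 - t * I) = z2
  generalize (1 / 2 + t * I - 1 : ℂ) = d at hne' ⊢
  field_simp

lemma d3z : d3 0 = 0 := by simp [d3]

/-- The summand on the line `Re s = 3/2`. -/
noncomputable def Fn (τ Δ : ℝ) (a b n : ℕ) (t : ℝ) : ℂ :=
  ((d3 n : ℕ) : ℂ) * (ga τ Δ (((3 / 2 : ℝ) : ℂ) + t * I) * XF (1 - (((3 / 2 : ℝ) : ℂ) + t * I)) *
    (((n * b / a : ℝ)) : ℂ) ^ (-(((3 / 2 : ℝ) : ℂ) + t * I)))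

lemma Fn_int {τ Δ : ℝ} {a b : ℕ} (hΔ : 0 < Δ) (ha : 1 ≤ a) (hb : 1 ≤ b) (n : ℕ) :
    Integrable (Fn τ Δ a b n) := by
  rcases Nat.eq_zero_or_pos n with rfl | hn
  · have : Fn τ Δ a b 0 = fun _ => 0 := by
      funext t
      unfold Fn
      rw [d3z]
      simp
    rw [this]
    exact integrable_zero _ _ _
  · have ha' : (0 : ℝ) < a := by exact_mod_cast ha
    have hb' : (0 : ℝ) < b := by exact_mod_cast hb
    have hn' : (0 : ℝ) < n := by exact_mod_cast hn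
    exact (wf_integrable hΔ (by positivity : (0 : ℝ) < n * b / a) (by norm_num : (1 : ℝ) / 2 ≤ 3 / 2)).const_mul _

lemma Fn_integral {τ Δ : ℝ} {a b : ℕ} (hΔ : 0 < Δ) (ha : 1 ≤ a) (hb : 1 ≤ b) (n : ℕ) :
    ∫ t : ℝ, Fn τ Δ a b n t = ((d3 n : ℕ) : ℂ) * Wf τ Δ (n * b / a) := by
  rcases Nat.eq_zero_or_pos n with rfl | hn
  · unfold Fn
    rw [d3z]
    simp
  · have ha' : (0 : ℝ) < a := by exact_mod_cast ha
    have hb' : (0 : ℝ) < b := by exact_mod_cast hb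
    have hn' : (0 : ℝ) < n := by exact_mod_cast hn
    unfold Fn
    rw [integral_const_mul, wf_line hΔ (by positivity : (0 : ℝ) < n * b / a) (by norm_num : (1 : ℝ) / 2 ≤ 3 / 2)]

lemma Fn_norm (τ Δ : ℝ) {a b : ℕ} (ha : 1 ≤ a) (hb : 1 ≤ b) (n : ℕ) (t : ℝ) :
    ‖Fn τ Δ a b n t‖ = ((d3 n : ℝ) * (n : ℝ) ^ (-(3 / 2 : ℝ))) * ((b / a : ℝ) ^ (-(3 / 2 : ℝ)) *
      ‖ga τ Δ (((3 / 2 : ℝ) : ℂ) + t * I) * XF (1 - (((3 / 2 : ℝ) : ℂ) + t * I))‖) := by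
  rcases Nat.eq_zero_or_pos n with rfl | hn
  · unfold Fn
    rw [d3z]
    simp
  · have ha' : (0 : ℝ) < a := by exact_mod_cast ha
    have hb' : (0 : ℝ) < b := by exact_mod_cast hb
    have hn' : (0 : ℝ) < n := by exact_mod_cast hn
    unfold Fn
    rw [norm_mul, norm_mul _ (((n * b / a : ℝ) : ℂ) ^ _), Complex.norm_natCast,
      Complex.norm_cpow_eq_rpow_re_of_pos (by positivity : (0 : ℝ) < n * b / a)]
    have e : (-(((3 / 2 : ℝ) : ℂ) + t * I)).re = -(3 / 2) := by simp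
    rw [e, mul_div_assoc, Real.mul_rpow hn'.le (by positivity)]
    ring

lemma Fn_summable {τ Δ : ℝ} {a b : ℕ} (ha : 1 ≤ a) (hb : 1 ≤ b) :
    Summable (fun n : ℕ => ∫ t : ℝ, ‖Fn τ Δ a b n t‖) := by
  have h1 := d3_summable (c := 3 / 2) (by norm_num)
  have e : (fun n : ℕ => ∫ t : ℝ, ‖Fn τ Δ a b n t‖) = fun n : ℕ =>
      ((d3 n : ℝ) * (n : ℝ) ^ (-(3 / 2 : ℝ))) * (∫ t : ℝ, ((b / a : ℝ) ^ (-(3 / 2 : ℝ)) *
      ‖ga τ Δ (((3 / 2 : ℝ) : ℂ) + t * I) * XF (1 - (((3 / 2 : ℝ) : ℂ) + t * I))‖)) := by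
    funext n
    rw [← integral_const_mul]
    refine integral_congr_ae (Filter.Eventually.of_forall fun t => ?_)
    exact Fn_norm τ Δ ha hb n t
  rw [e]
  exact h1.mul_right _

lemma Wf_summable {τ Δ : ℝ} {a b : ℕ} (hΔ : 0 < Δ) (ha : 1 ≤ a) (hb : 1 ≤ b) :
    Summable fun n : ℕ => (d3 n : ℝ) * ‖Wf τ Δ (n * b / a)‖ := by
  refine Summable.of_nonneg_of_le (fun n => by positivity) (fun n => ?_)
    (Fn_summable (τ := τ) (Δ := Δ) ha hb)
  have h1 := norm_integral_le_integral_norm (μ := volume) (Fn τ Δ a b n)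
  rw [Fn_integral hΔ ha hb n, norm_mul, Complex.norm_natCast] at h1
  exact h1

/-- The line integral on `Re s = 3/2`. -/
lemma right_int {τ Δ : ℝ} {a b : ℕ} (hΔ : 0 < Δ) (ha : 1 ≤ a) (hb : 1 ≤ b) :
    ∫ t : ℝ, Hf τ Δ (Real.log a - Real.log b) (((3 / 2 : ℝ) : ℂ) + t * I) /
      (((3 / 2 : ℝ) : ℂ) + t * I - 1) ^ 2 =
    ((((b : ℝ) / a) ^ (1 / 2 : ℝ) : ℝ) : ℂ) * ∑' n : ℕ, ((d3 n : ℕ) : ℂ) * Wf τ Δ (n * b / a) := by
  have ha' : (0 : ℝ) < a := by exact_mod_cast ha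
  have hb' : (0 : ℝ) < b := by exact_mod_cast hb
  have e1 : ∑' n : ℕ, ((d3 n : ℕ) : ℂ) * Wf τ Δ (n * b / a) = ∑' n : ℕ, ∫ t : ℝ, Fn τ Δ a b n t :=
    tsum_congr fun n => (Fn_integral hΔ ha hb n).symm
  rw [e1, integral_tsum_of_summable_integral_norm (Fn_int hΔ ha hb) (Fn_summable ha hb),
    ← integral_const_mul]
  refine integral_congr_ae (Filter.Eventually.of_forall fun t => ?_)
  simp only
  set s : ℂ := ((3 / 2 : ℝ) : ℂ) + t * I with hs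
  have hsre : s.re = 3 / 2 := by simp [hs]
  have hne : s ≠ 1 := by
    intro h
    rw [h] at hsre
    norm_num at hsre
  have hne' : s - 1 ≠ 0 := sub_ne_zero.2 hne
  have hz : riemannZeta (1 - s) = XF (1 - s) * riemannZeta s := by
    have := xf_eq (w := 1 - s) (by
      intro h
      apply hne
      linear_combination -h) (by
      rw [Complex.sub_re, hsre]
      norm_num)
    rw [this]
    congr 2
    ring
  obtain ⟨hsum, hcube⟩ := zeta_cube (z := s) (by rw [hsre]; norm_num)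
  have hfac : ∀ n : ℕ, ((d3 n : ℕ) : ℂ) * (ga τ Δ s * XF (1 - s) * (((n * b / a : ℝ)) : ℂ) ^ (-s)) =
      (ga τ Δ s * XF (1 - s) * (((b / a : ℝ)) : ℂ) ^ (-s)) * (((d3 n : ℕ) : ℂ) * (n : ℂ) ^ (-s)) := by
    intro n
    have : ((n * b / a : ℝ) : ℂ) ^ (-s) = (n : ℂ) ^ (-s) * ((b / a : ℝ) : ℂ) ^ (-s) := by
      rw [mul_div_assoc, Complex.ofReal_mul, Complex.mul_cpow_ofReal_nonneg (Nat.cast_nonneg n) (by positivity),
        Complex.ofReal_natCast]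
    rw [this]
    ring
  have e2 : ∑' n : ℕ, Fn τ Δ a b n t =
      (ga τ Δ s * XF (1 - s) * (((b / a : ℝ)) : ℂ) ^ (-s)) * riemannZeta s ^ 3 := by
    rw [← hcube, ← tsum_mul_left]
    refine tsum_congr fun n => ?_
    exact hfac n
  rw [e2]
  have hL : Real.log (b / a) = Real.log b - Real.log a :=
    Real.log_div hb'.ne' ha'.ne'
  have hba : ((b / a : ℝ) : ℂ) ≠ 0 := by
    have : (0 : ℝ) < b / a := by positivity
    exact_mod_cast this.ne'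
  have e3 : ((((b : ℝ) / a) ^ (1 / 2 : ℝ) : ℝ) : ℂ) * ((b / a : ℝ) : ℂ) ^ (-s) =
      cexp ((s - 1 / 2) * ((Real.log a - Real.log b : ℝ) : ℂ)) := by
    rw [Complex.ofReal_cpow (by positivity), ← Complex.cpow_add _ _ hba, Complex.cpow_def_of_ne_zero hba,
      ← Complex.ofReal_log (by positivity), hL]
    congr 1
    push_cast
    ring
  unfold Hf Qf
  rw [zE_of_ne hne, hz, ← e3]
  field_simp

end JFormAux

open JFormAux

theorem jform : ∃ C : ℝ, 0 < C ∧ ∀ (τ Δ : ℝ) (a b : ℕ), 1 ≤ Δ → Δ ≤ τ → 1 ≤ a → 1 ≤ b →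
    (Summable fun n : ℕ => (d3 n : ℝ) * ‖Wf τ Δ (n * b / a)‖) ∧
    ‖Jt τ Δ a b - ((((b : ℝ) / a) ^ (1 / 2 : ℝ) : ℝ) : ℂ) * ∑' n : ℕ, ((d3 n : ℕ) : ℂ) * Wf τ Δ (n * b / a)‖ ≤
      C * τ * a * b * Real.exp (-(τ / Δ) ^ 2) := by
  refine ⟨2 * Real.pi * (Real.exp 1 * (4 * ‖Qf 1‖ + ‖deriv Qf 1‖) * 2) + 1, ?_, ?_⟩
  · have := Real.pi_pos
    positivity
  intro τ Δ a b hΔ hτ ha hb
  have hΔ0 : 0 < Δ := by linarith
  refine ⟨Wf_summable hΔ0 ha hb, ?_⟩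
  set L : ℝ := Real.log a - Real.log b with hL
  obtain ⟨K, hK⟩ := Hf_bd τ Δ L hΔ0
  have hU : IsOpen {s : ℂ | 0 < s.re} := isOpen_lt continuous_const Complex.continuous_re
  have key := pole2 (F := Hf τ Δ L) (a := 1 / 2) (b := 3 / 2) (K := K) hU
    (fun s h1 _ => by
      show 0 < s.re
      linarith)
    (fun s hs => (Hf_diff τ Δ L hs).differentiableWithinAt) hK (ρ := 1) (by norm_num) (by norm_num)
  rw [left_int, right_int hΔ0 ha hb] at key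
  have e : Jt τ Δ a b - ((((b : ℝ) / a) ^ (1 / 2 : ℝ) : ℝ) : ℂ) * ∑' n : ℕ, ((d3 n : ℕ) : ℂ) * Wf τ Δ (n * b / a) =
      -(2 * Real.pi * deriv (Hf τ Δ L) 1) := by
    rw [key]
    ring
  rw [e, norm_neg, norm_mul]
  have h1 : ‖(2 * Real.pi : ℂ)‖ = 2 * Real.pi := by
    rw [norm_mul, Complex.norm_real, Real.norm_of_nonneg Real.pi_pos.le]
    norm_num
  rw [h1]
  have h2 := Hf_deriv_bd hΔ hτ ha hb
  rw [← hL] at h2
  have hτ0 : 0 ≤ τ := by linarith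
  calc 2 * Real.pi * ‖deriv (Hf τ Δ L) 1‖
      ≤ 2 * Real.pi * ((Real.exp 1 * (4 * ‖Qf 1‖ + ‖deriv Qf 1‖) * 2) * τ * a * b *
          Real.exp (-(τ / Δ) ^ 2)) := mul_le_mul_of_nonneg_left h2 (by positivity)
    _ = (2 * Real.pi * (Real.exp 1 * (4 * ‖Qf 1‖ + ‖deriv Qf 1‖) * 2)) *
          (τ * a * b * Real.exp (-(τ / Δ) ^ 2)) := by ring
    _ ≤ (2 * Real.pi * (Real.exp 1 * (4 * ‖Qf 1‖ + ‖deriv Qf 1‖) * 2) + 1) *
          (τ * a * b * Real.exp (-(τ / Δ) ^ 2)) :=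
        mul_le_mul_of_nonneg_right (by linarith) (by positivity)
    _ = _ := by ring

end Pool.Agent.P07318m
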