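import Pool.Agent.Lib.P07318m.Defs
import Pool.Agent.Lib.P4f18dfS.MV

/-!
# P07318m.OmegaId: `W(Y) = Ω(Y) + Ω(-Y)` for `Y > 0`

PROOF. For `s = 1/2 + it`: `XF (1/2 - it) = Gammaℝ s / Gammaℝ (1-s) = Gammaℂ s * cos(π s/2)`
(`Complex.Gammaℝ_div_Gammaℝ_one_sub`), `Gammaℂ s = 2 (2π)^{-s} Γ(s)`. So with `2 cos(πs/2) = e^{iπs/2} + e^{-iπs/2}`:
`W(Y) = ∑_± ∫ w(t) Γ(s) (2πY)^{-s} e^{∓ iπs/2} dt`.
For `η > 0`, `r = η ± 2πiY`: `∫_0^∞ e^{-r x} x^{s-1} dx = (1/r)^s Γ(s)` (`Complex.integral_cpow_mul_exp_neg_mul_Ioi`).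
Hence by Fubini (`|e^{-rx} x^{s-1}| = e^{-ηx} x^{-1/2}`, integrable against the Gaussian weight `w(t) dt`)
`∫ w(t) (1/r)^s Γ(s) dt = ∫_0^∞ e^{-r x} (∫ w(t) x^{-1/2+it} dt) dx`,
and the inner integral is `x^{-1/2} √π Δ exp(iτ log x) exp(-Δ² log² x/4)` (`P4f18dfS.gauss_int` in `P4f18dfS/MV.lean`, with `x := -log x`).
Let `η → 0+`. Right side: dominated convergence (dominated by `√π Δ x^{-1/2} exp(-Δ² log² x/4)`, integrable on `(0,∞)`:
substitute `x = e^u`), limit after `x = e^u` (`integral_comp_exp`-type change of variables,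
e.g. `MeasureTheory.integral_image_eq_integral_abs_deriv_smul` or `integral_comp_mul_deriv_Ioi`) is `Om τ Δ (±Y)`.
Left side: dominated convergence in `t`: `|(1/r)^s Γ(s)| ≤ |r|^{-1/2} e^{|t| |arg r|} |Γ(1/2+it)| ≤ (2πY)^{-1/2} e^{π|t|/2} √(π / cosh(πt))
≤ C_Y` because `|Γ(1/2+it)|² = Γ(1/2+it)Γ(1/2-it) = π / sin(π(1/2+it)) = π/cosh(πt)` (`Complex.Gamma_mul_Gamma_one_sub`);
pointwise limit `(1/(±2πiY))^s Γ(s) = (2πY)^{-s} e^{∓iπs/2} Γ(s)`.
(Integrability of `w(t) Γ(s) (..)` follows from the same bound.)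
-/

set_option autoImplicit false

open MeasureTheory Complex

namespace Pool.Agent.P07318m

open Pool.Agent.P4f18dfS (wt XF)

namespace OmegaIdAux

lemma rp_int {c b : ℝ} (hc : -1 < c) (hb : 0 < b) :
    IntegrableOn (fun x : ℝ => x ^ c * Real.exp (-(b * x))) (Set.Ioi 0) := by
  have h := integrableOn_rpow_mul_exp_neg_mul_rpow hc one_pos hb
  simpa [Real.rpow_one] using h

lemma ker_norm {a r : ℂ} {x : ℝ} (hx : 0 < x) :
    ‖(x : ℂ) ^ (a - 1) * cexp (-(r * x))‖ = x ^ (a.re - 1) * Real.exp (-(r.re * x)) := by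
  rw [norm_mul, Complex.norm_cpow_eq_rpow_re_of_pos hx, Complex.norm_exp]
  simp

lemma ker_cont {a : ℂ} (g : ℝ → ℂ) (hg : Continuous g) :
    ContinuousOn (fun x : ℝ => (x : ℂ) ^ (a - 1) * g x) (Set.Ioi 0) := by
  refine ContinuousOn.mul (fun x hx => ContinuousAt.continuousWithinAt ?_) hg.continuousOn
  exact Complex.continuousAt_ofReal_cpow_const _ _ (Or.inr (ne_of_gt hx))

lemma ker_meas {a : ℂ} (g : ℝ → ℂ) (hg : Continuous g) :
    AEStronglyMeasurable (fun x : ℝ => (x : ℂ) ^ (a - 1) * g x) (volume.restrict (Set.Ioi 0)) :=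
  (ker_cont g hg).aestronglyMeasurable measurableSet_Ioi

lemma ker_int {a r : ℂ} (ha : 0 < a.re) (hr : 0 < r.re) :
    IntegrableOn (fun x : ℝ => (x : ℂ) ^ (a - 1) * cexp (-(r * x))) (Set.Ioi 0) := by
  refine Integrable.mono' (rp_int (c := a.re - 1) (b := r.re) (by linarith) hr)
    (ker_meas _ (by fun_prop)) ?_
  filter_upwards [ae_restrict_mem measurableSet_Ioi] with x hx
  exact (ker_norm hx).le

/-- The Laplace-Mellin integral with a complex parameter. -/
theorem gamma_lap {a r : ℂ} (ha : 0 < a.re) (hr : 0 < r.re) :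
    ∫ x in Set.Ioi (0:ℝ), (x : ℂ) ^ (a - 1) * cexp (-(r * x)) = (1 / r) ^ a * Complex.Gamma a := by
  have hopen : IsOpen {z : ℂ | 0 < z.re} := isOpen_lt continuous_const Complex.continuous_re
  have hconv : Convex ℝ {z : ℂ | 0 < z.re} := convex_halfSpace_re_gt 0
  have hF : DifferentiableOn ℂ (fun r : ℂ => ∫ x in Set.Ioi (0:ℝ), (x : ℂ) ^ (a - 1) *
      cexp (-(r * x))) {z : ℂ | 0 < z.re} := by
    intro r0 hr0
    have hr0' : 0 < r0.re := hr0
    refine DifferentiableAt.differentiableWithinAt ?_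
    have hs : {z : ℂ | r0.re / 2 < z.re} ∈ nhds r0 :=
      (isOpen_lt continuous_const Complex.continuous_re).mem_nhds (by
        show r0.re / 2 < r0.re
        linarith)
    have h := hasDerivAt_integral_of_dominated_loc_of_deriv_le (𝕜 := ℂ)
      (μ := volume.restrict (Set.Ioi (0:ℝ)))
      (F := fun (r : ℂ) (x : ℝ) => (x : ℂ) ^ (a - 1) * cexp (-(r * x)))
      (F' := fun (r : ℂ) (x : ℝ) => (x : ℂ) ^ (a - 1) * (cexp (-(r * x)) * (-x)))
      (bound := fun x => x ^ (a.re) * Real.exp (-(r0.re / 2 * x)))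
      hs (Filter.Eventually.of_forall (fun r => ker_meas _ (by fun_prop))) (ker_int ha hr0')
      (ker_meas _ (by fun_prop)) ?_ (rp_int (by linarith) (by linarith)) ?_
    · exact h.2.differentiableAt
    · filter_upwards [ae_restrict_mem measurableSet_Ioi] with x hx z hz
      have hx0 : (0:ℝ) < x := hx
      have hz0 : r0.re / 2 < z.re := hz
      rw [norm_mul, norm_mul, Complex.norm_cpow_eq_rpow_re_of_pos hx0, Complex.norm_exp,
        norm_neg, Complex.norm_real, Real.norm_eq_abs, abs_of_pos hx0]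
      have h1 : x ^ (a - 1).re * (Real.exp (-(z * x)).re * x) =
          x ^ a.re * Real.exp (-(z.re * x)) := by
        have h2 : x ^ a.re = x ^ (a - 1).re * x := by
          rw [Complex.sub_re, Complex.one_re, ← Real.rpow_add_one hx0.ne']
          congr 1
          ring
        rw [h2]
        simp
        ring
      rw [h1]
      refine mul_le_mul_of_nonneg_left (Real.exp_le_exp.2 ?_) (by positivity)
      nlinarith
    · filter_upwards [ae_restrict_mem measurableSet_Ioi] with x hx z hz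
      have h0 : HasDerivAt (fun z : ℂ => z * (x:ℂ)) (x:ℂ) z := by
        simpa using (hasDerivAt_id z).mul_const (x:ℂ)
      have h1 : HasDerivAt (fun z : ℂ => -(z * (x:ℂ))) (-(x:ℂ)) z := h0.fun_neg
      exact (h1.cexp).const_mul _
  have hG : DifferentiableOn ℂ (fun r : ℂ => (1 / r) ^ a * Complex.Gamma a) {z : ℂ | 0 < z.re} := by
    intro z hz
    have hz0 : 0 < z.re := hz
    have hne : z ≠ 0 := by
      rintro rfl
      simp at hz0
    refine DifferentiableAt.differentiableWithinAt ?_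
    refine DifferentiableAt.mul_const ?_ _
    refine DifferentiableAt.cpow_const ?_ ?_
    · exact (differentiableAt_const _).div differentiableAt_id hne
    · left
      rw [one_div, Complex.inv_re]
      exact div_pos hz0 (Complex.normSq_pos.2 hne)
  have key := (hF.analyticOnNhd hopen).eqOn_of_preconnected_of_frequently_eq
    (hG.analyticOnNhd hopen) hconv.isPreconnected (z₀ := (1:ℂ)) (by simp) ?_
  · exact key hr
  · have htend : Filter.Tendsto (fun n : ℕ => ((1 + 1 / ((n:ℝ) + 1) : ℝ) : ℂ)) Filter.atTop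
        (nhdsWithin 1 {1}ᶜ) := by
      rw [tendsto_nhdsWithin_iff]
      constructor
      · have h1 := (tendsto_one_div_add_atTop_nhds_zero_nat (𝕜 := ℝ)).const_add 1
        have h2 := (Complex.continuous_ofReal.tendsto _).comp h1
        simpa [Function.comp_def] using h2
      · refine Filter.Eventually.of_forall (fun n => ?_)
        simp only [Set.mem_compl_iff, Set.mem_singleton_iff]
        intro h
        have h3 : (1 + 1 / ((n:ℝ) + 1) : ℝ) = 1 := by exact_mod_cast h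
        have : (0:ℝ) < 1 / ((n:ℝ) + 1) := by positivity
        linarith
    refine htend.frequently (Filter.Frequently.of_forall (fun n => ?_))
    exact Complex.integral_cpow_mul_exp_neg_mul_Ioi ha (by positivity)

/-- The Gaussian average of `x^{-1/2+it}`. -/
noncomputable def KK (τ Δ x : ℝ) : ℂ :=
  (x : ℂ) ^ ((1 / 2 : ℂ) - 1) * (cexp (I * (Real.log x : ℝ) * τ) *
    ((Real.exp (-(Δ ^ 2 * (Real.log x) ^ 2 / 4)) : ℝ) : ℂ))

lemma inner_int {τ Δ x : ℝ} (hΔ : 0 < Δ) (hx : 0 < x) :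
    ∫ t : ℝ, (wt τ Δ t : ℂ) * (x : ℂ) ^ ((1 / 2 + t * I : ℂ) - 1) =
      ((Real.sqrt Real.pi * Δ : ℝ) : ℂ) * KK τ Δ x := by
  have hx' : (x : ℂ) ≠ 0 := by exact_mod_cast hx.ne'
  have h := Pool.Agent.P4f18dfS.MVAux.gauss_int hΔ τ (-Real.log x)
  have h1 : ∀ t : ℝ, (wt τ Δ t : ℂ) * (x : ℂ) ^ ((1 / 2 + t * I : ℂ) - 1) =
      (x : ℂ) ^ ((1 / 2 : ℂ) - 1) *
        ((wt τ Δ t : ℂ) * cexp (-(I * ((-Real.log x : ℝ) : ℂ) * t))) := by
    intro t
    have h2 : (x : ℂ) ^ ((1 / 2 + t * I : ℂ) - 1) = (x : ℂ) ^ ((1 / 2 : ℂ) - 1) *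
        cexp (-(I * ((-Real.log x : ℝ) : ℂ) * t)) := by
      rw [show (1 / 2 + t * I : ℂ) - 1 = ((1 / 2 : ℂ) - 1) + t * I by ring,
        Complex.cpow_add _ _ hx']
      congr 1
      rw [Complex.cpow_def_of_ne_zero hx', ← Complex.ofReal_log hx.le]
      congr 1
      push_cast
      ring
    rw [h2]
    ring
  simp_rw [h1]
  rw [MeasureTheory.integral_const_mul, h, KK]
  have h3 : cexp (-(I * ((-Real.log x : ℝ) : ℂ) * τ)) = cexp (I * (Real.log x : ℝ) * τ) := by
    congr 1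
    push_cast
    ring
  rw [h3]
  have h4 : (-Real.log x) ^ 2 = (Real.log x) ^ 2 := by ring
  rw [h4]
  ring

lemma wt_int {τ Δ : ℝ} (hΔ : 0 < Δ) : Integrable (fun t : ℝ => wt τ Δ t) := by
  have h := (integrable_exp_neg_mul_sq (b := 1 / Δ ^ 2) (by positivity)).comp_sub_right τ
  refine h.congr (Filter.Eventually.of_forall (fun t => ?_))
  unfold wt
  simp only
  congr 1
  field_simp

lemma wt_cont (τ Δ : ℝ) : Continuous (fun t : ℝ => wt τ Δ t) := by
  unfold wt
  fun_prop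

lemma fub {τ Δ : ℝ} {r : ℂ} (hΔ : 0 < Δ) (hr : 0 < r.re) :
    ∫ t : ℝ, (wt τ Δ t : ℂ) * ((1 / r) ^ (1 / 2 + t * I : ℂ) * Complex.Gamma (1 / 2 + t * I)) =
      ((Real.sqrt Real.pi * Δ : ℝ) : ℂ) * ∫ x in Set.Ioi (0:ℝ), KK τ Δ x * cexp (-(r * x)) := by
  have h1 : ∀ t : ℝ, (wt τ Δ t : ℂ) * ((1 / r) ^ (1 / 2 + t * I : ℂ) *
      Complex.Gamma (1 / 2 + t * I)) =
      ∫ x in Set.Ioi (0:ℝ), (wt τ Δ t : ℂ) * ((x : ℂ) ^ ((1 / 2 + t * I : ℂ) - 1) *
        cexp (-(r * x))) := by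
    intro t
    rw [MeasureTheory.integral_const_mul, gamma_lap (by simp) hr]
  simp_rw [h1]
  rw [MeasureTheory.integral_integral_swap]
  · rw [← MeasureTheory.integral_const_mul]
    refine MeasureTheory.setIntegral_congr_fun measurableSet_Ioi (fun x hx => ?_)
    have hx0 : (0:ℝ) < x := hx
    show ∫ t : ℝ, (wt τ Δ t : ℂ) * ((x : ℂ) ^ ((1 / 2 + t * I : ℂ) - 1) * cexp (-(r * x))) =
      ((Real.sqrt Real.pi * Δ : ℝ) : ℂ) * (KK τ Δ x * cexp (-(r * x)))
    rw [← mul_assoc, ← inner_int hΔ hx0, ← MeasureTheory.integral_mul_const]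
    refine MeasureTheory.integral_congr_ae (Filter.Eventually.of_forall (fun t => ?_))
    simp only
    ring
  · have hg := (wt_int (τ := τ) hΔ).mul_prod
      (rp_int (c := 1 / 2 - 1) (b := r.re) (by norm_num) hr)
    refine Integrable.mono' hg ?_ ?_
    · refine Measurable.aestronglyMeasurable ?_
      have hw : Measurable (fun z : ℝ × ℝ => (wt τ Δ z.1 : ℂ)) :=
        (Complex.continuous_ofReal.comp ((wt_cont τ Δ).comp continuous_fst)).measurable
      have he : Measurable (fun z : ℝ × ℝ => cexp (-(r * (z.2 : ℂ)))) := by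
        refine Continuous.measurable ?_
        fun_prop
      have hp : Measurable (fun z : ℝ × ℝ => (z.2 : ℂ) ^ ((1 / 2 + z.1 * I : ℂ) - 1)) := by
        refine Measurable.pow ?_ ?_
        · exact (Complex.continuous_ofReal.comp continuous_snd).measurable
        · refine Continuous.measurable ?_
          fun_prop
      exact hw.mul (hp.mul he)
    · have hm : MeasurableSet {z : ℝ × ℝ | 0 < z.2} := measurableSet_lt measurable_const measurable_snd
      have : ∀ᵐ z : ℝ × ℝ ∂(volume.prod (volume.restrict (Set.Ioi (0:ℝ)))), 0 < z.2 := by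
        rw [MeasureTheory.Measure.ae_prod_iff_ae_ae hm]
        refine Filter.Eventually.of_forall (fun t => ?_)
        filter_upwards [ae_restrict_mem measurableSet_Ioi] with x hx using hx
      filter_upwards [this] with z hz
      simp only [Function.uncurry]
      rw [norm_mul, ker_norm hz, Complex.norm_real, Real.norm_eq_abs,
        abs_of_pos (Pool.Agent.P4f18dfS.MVAux.wt_pos _ _ _)]
      simp


lemma KK_exp (τ Δ u : ℝ) :
    ((Real.exp u : ℝ) : ℂ) * KK τ Δ (Real.exp u) =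
      cexp ((u / 2 - Δ ^ 2 * u ^ 2 / 4 : ℝ) + (τ * u : ℝ) * I) := by
  have hne : ((Real.exp u : ℝ) : ℂ) ≠ 0 := by exact_mod_cast (Real.exp_pos u).ne'
  rw [KK, Real.log_exp, Complex.cpow_def_of_ne_zero hne, ← Complex.ofReal_log (Real.exp_pos u).le,
    Real.log_exp, Complex.ofReal_exp, Complex.ofReal_exp, ← Complex.exp_add, ← Complex.exp_add,
    ← Complex.exp_add]
  congr 1
  push_cast
  ring

lemma exp_quad_int {Δ : ℝ} (hΔ : 0 < Δ) :
    Integrable (fun u : ℝ => Real.exp (u / 2 - Δ ^ 2 * u ^ 2 / 4)) := by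
  have h := ((integrable_exp_neg_mul_sq (b := Δ ^ 2 / 4) (by positivity)).comp_sub_right
    (1 / Δ ^ 2)).const_mul (Real.exp (1 / (4 * Δ ^ 2)))
  refine h.congr (Filter.Eventually.of_forall (fun t => ?_))
  simp only
  rw [← Real.exp_add]
  congr 1
  field_simp
  ring

lemma KK_intc {τ Δ : ℝ} (hΔ : 0 < Δ) (g : ℝ → ℂ) (hg : Continuous g) (C : ℝ)
    (hgC : ∀ x, 0 < x → ‖g x‖ ≤ C) : IntegrableOn (fun x => KK τ Δ x * g x) (Set.Ioi 0) := by
  have himg : Real.exp '' Set.univ = Set.Ioi 0 := by rw [Set.image_univ, Real.range_exp]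
  rw [← himg, MeasureTheory.integrableOn_image_iff_integrableOn_abs_deriv_smul MeasurableSet.univ
    (fun x _ => (Real.hasDerivAt_exp x).hasDerivWithinAt) Real.exp_injective.injOn,
    MeasureTheory.integrableOn_univ]
  have h1 : (fun u : ℝ => |Real.exp u| • (KK τ Δ (Real.exp u) * g (Real.exp u))) =
      fun u : ℝ => cexp ((u / 2 - Δ ^ 2 * u ^ 2 / 4 : ℝ) + (τ * u : ℝ) * I) * g (Real.exp u) := by
    funext u
    rw [abs_of_pos (Real.exp_pos u), Complex.real_smul, ← mul_assoc, KK_exp]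
  rw [h1]
  refine Integrable.mono' ((exp_quad_int hΔ).mul_const C) ?_ ?_
  · refine Continuous.aestronglyMeasurable ?_
    have : Continuous (fun u => g (Real.exp u)) := hg.comp Real.continuous_exp
    fun_prop
  · refine Filter.Eventually.of_forall (fun u => ?_)
    rw [norm_mul, Complex.norm_exp]
    have h2 : (((u / 2 - Δ ^ 2 * u ^ 2 / 4 : ℝ) : ℂ) + ((τ * u : ℝ) : ℂ) * I).re =
        u / 2 - Δ ^ 2 * u ^ 2 / 4 := by
      simp only [Complex.add_re, Complex.ofReal_re, Complex.mul_re, Complex.I_re, Complex.I_im,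
        Complex.ofReal_im]
      ring
    rw [h2]
    exact mul_le_mul_of_nonneg_left (hgC _ (Real.exp_pos u)) (Real.exp_pos _).le

lemma KK_subst {τ Δ : ℝ} (y : ℝ) :
    ∫ x in Set.Ioi (0:ℝ), KK τ Δ x * cexp (-((2 * Real.pi * y : ℝ) * I * x)) =
      ∫ u : ℝ, cexp ((u / 2 - Δ ^ 2 * u ^ 2 / 4 : ℝ) +
        ((τ * u - 2 * Real.pi * y * Real.exp u : ℝ) : ℂ) * I) := by
  have himg : Real.exp '' Set.univ = Set.Ioi 0 := by rw [Set.image_univ, Real.range_exp]
  rw [← himg, MeasureTheory.integral_image_eq_integral_abs_deriv_smul MeasurableSet.univ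
    (fun x _ => (Real.hasDerivAt_exp x).hasDerivWithinAt) Real.exp_injective.injOn,
    MeasureTheory.setIntegral_univ]
  refine MeasureTheory.integral_congr_ae (Filter.Eventually.of_forall (fun u => ?_))
  simp only
  rw [abs_of_pos (Real.exp_pos u), Complex.real_smul, ← mul_assoc, KK_exp, ← Complex.exp_add]
  congr 1
  push_cast
  ring

/-- the limit of the right side -/
lemma lim_right {τ Δ : ℝ} (hΔ : 0 < Δ) (y : ℝ) :
    Filter.Tendsto (fun n : ℕ => ((Real.sqrt Real.pi * Δ : ℝ) : ℂ) *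
      ∫ x in Set.Ioi (0:ℝ), KK τ Δ x *
        cexp (-(((1 / ((n:ℝ) + 1) : ℝ) + (2 * Real.pi * y : ℝ) * I) * x)))
      Filter.atTop (nhds (Om τ Δ y)) := by
  rw [Om, ← KK_subst]
  refine Filter.Tendsto.const_mul _ ?_
  have hK := KK_intc (τ := τ) hΔ (fun _ => (1:ℂ)) continuous_const 1 (by simp)
  simp only [mul_one] at hK
  refine MeasureTheory.tendsto_integral_of_dominated_convergence (fun x => ‖KK τ Δ x‖) ?_ hK.norm ?_ ?_
  · intro n
    refine (hK.aestronglyMeasurable).mul ?_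
    refine Continuous.aestronglyMeasurable ?_
    fun_prop
  · intro n
    filter_upwards [ae_restrict_mem measurableSet_Ioi] with x hx
    have hx0 : (0:ℝ) < x := hx
    rw [norm_mul]
    refine mul_le_of_le_one_right (norm_nonneg _) ?_
    rw [Complex.norm_exp]
    refine Real.exp_le_one_iff.2 ?_
    have h2 : (-(((1 / ((n:ℝ) + 1) : ℝ) + (2 * Real.pi * y : ℝ) * I) * (x:ℂ))).re =
        -((1 / ((n:ℝ) + 1)) * x) := by
      simp only [Complex.add_re, Complex.ofReal_re, Complex.mul_re, Complex.I_re, Complex.I_im,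
        Complex.ofReal_im, Complex.neg_re, Complex.add_im, Complex.mul_im]
      ring
    rw [h2]
    have : 0 < (1 / ((n:ℝ) + 1)) * x := by positivity
    linarith
  · filter_upwards [ae_restrict_mem measurableSet_Ioi] with x hx
    refine Filter.Tendsto.const_mul _ ?_
    have h1 : Filter.Tendsto (fun n : ℕ => ((1 / ((n:ℝ) + 1) : ℝ) : ℂ)) Filter.atTop (nhds 0) := by
      have h2 := (Complex.continuous_ofReal.tendsto _).comp
        (tendsto_one_div_add_atTop_nhds_zero_nat (𝕜 := ℝ))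
      simpa [Function.comp_def] using h2
    have h3 : Filter.Tendsto (fun n : ℕ => -((((1 / ((n:ℝ) + 1) : ℝ) : ℂ) +
        (2 * Real.pi * y : ℝ) * I) * (x : ℂ))) Filter.atTop
        (nhds (-((0 + (2 * Real.pi * y : ℝ) * I) * (x:ℂ)))) :=
      ((h1.add_const _).mul_const _).neg
    rw [zero_add] at h3
    exact (Complex.continuous_exp.tendsto _).comp h3


lemma gam_norm (t : ℝ) : ‖Complex.Gamma (1 / 2 + t * I)‖ ^ 2 = Real.pi / Real.cosh (Real.pi * t) := by
  have h := Complex.Gamma_mul_Gamma_one_sub (1 / 2 + t * I)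
  have h1 : (1 : ℂ) - (1 / 2 + t * I) = (starRingEnd ℂ) (1 / 2 + t * I) := by
    apply Complex.ext
    · simp
      norm_num
    · simp
  rw [h1, Complex.Gamma_conj] at h
  have h2 : Complex.sin (Real.pi * (1 / 2 + t * I)) = ((Real.cosh (Real.pi * t) : ℝ) : ℂ) := by
    rw [show (Real.pi * (1 / 2 + t * I) : ℂ) = ((Real.pi * t : ℝ) : ℂ) * I + Real.pi / 2 by
      push_cast; ring]
    rw [Complex.sin_add_pi_div_two, Complex.cos_mul_I, Complex.ofReal_cosh]
  rw [h2] at h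
  have h3 := congrArg (fun z : ℂ => ‖z‖) h
  simp only [norm_mul, norm_div, RCLike.norm_conj, Complex.norm_real, Real.norm_eq_abs] at h3
  rw [abs_of_pos Real.pi_pos, abs_of_pos (Real.cosh_pos _)] at h3
  rw [sq]
  exact h3

lemma gam_le (t : ℝ) : ‖Complex.Gamma (1 / 2 + t * I)‖ ≤
    Real.sqrt (2 * Real.pi) * Real.exp (-(Real.pi / 2 * |t|)) := by
  have h1 := gam_norm t
  have h2 : Real.exp (Real.pi * |t|) / 2 ≤ Real.cosh (Real.pi * t) := by
    rw [← Real.cosh_abs, abs_mul, abs_of_pos Real.pi_pos, Real.cosh_eq]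
    have := Real.exp_pos (-(Real.pi * |t|))
    linarith
  have h3 : ‖Complex.Gamma (1 / 2 + t * I)‖ ^ 2 ≤
      (Real.sqrt (2 * Real.pi) * Real.exp (-(Real.pi / 2 * |t|))) ^ 2 := by
    rw [h1, mul_pow, Real.sq_sqrt (by positivity), ← Real.exp_nat_mul]
    have h4 : ((2 : ℕ) : ℝ) * -(Real.pi / 2 * |t|) = -(Real.pi * |t|) := by
      push_cast
      ring
    rw [h4, Real.exp_neg, div_le_iff₀ (Real.cosh_pos _)]
    have h5 := Real.exp_pos (Real.pi * |t|)
    have h6 : 2 * Real.pi * (Real.exp (Real.pi * |t|))⁻¹ * (Real.exp (Real.pi * |t|) / 2) =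
        Real.pi := by
      field_simp
    calc Real.pi = 2 * Real.pi * (Real.exp (Real.pi * |t|))⁻¹ * (Real.exp (Real.pi * |t|) / 2) :=
          h6.symm
      _ ≤ _ := mul_le_mul_of_nonneg_left h2 (by positivity)
  exact (pow_le_pow_iff_left₀ (norm_nonneg _) (by positivity) two_ne_zero).1 h3

lemma cp_le {r : ℂ} (hr : 0 < r.re) (t : ℝ) :
    ‖(1 / r) ^ (1 / 2 + t * I : ℂ)‖ ≤ ‖1 / r‖ ^ (1 / 2 : ℝ) * Real.exp (Real.pi / 2 * |t|) := by
  have hr0 : r ≠ 0 := by
    rintro rfl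
    simp at hr
  have h1r : (1 / r) ≠ 0 := one_div_ne_zero hr0
  rw [Complex.norm_cpow_of_ne_zero h1r]
  have h1 : (1 / 2 + t * I : ℂ).re = 1 / 2 := by simp
  have h2 : (1 / 2 + t * I : ℂ).im = t := by simp
  rw [h1, h2, div_eq_mul_inv, ← Real.exp_neg]
  refine mul_le_mul_of_nonneg_left (Real.exp_le_exp.2 ?_) (by positivity)
  have h3 : |Complex.arg (1 / r)| ≤ Real.pi / 2 := by
    rw [Complex.abs_arg_le_pi_div_two_iff, one_div, Complex.inv_re]
    exact (div_pos hr (Complex.normSq_pos.2 hr0)).le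
  calc -(Complex.arg (1 / r) * t) ≤ |Complex.arg (1 / r) * t| := neg_le_abs _
    _ = |Complex.arg (1 / r)| * |t| := abs_mul _ _
    _ ≤ _ := mul_le_mul_of_nonneg_right h3 (abs_nonneg _)

lemma cg_le {r : ℂ} (hr : 0 < r.re) (t : ℝ) :
    ‖(1 / r) ^ (1 / 2 + t * I : ℂ) * Complex.Gamma (1 / 2 + t * I)‖ ≤
      ‖1 / r‖ ^ (1 / 2 : ℝ) * Real.sqrt (2 * Real.pi) := by
  rw [norm_mul]
  refine (mul_le_mul (cp_le hr t) (gam_le t) (norm_nonneg _) (by positivity)).trans (le_of_eq ?_)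
  have : Real.exp (Real.pi / 2 * |t|) * Real.exp (-(Real.pi / 2 * |t|)) = 1 := by
    rw [← Real.exp_add, add_neg_cancel, Real.exp_zero]
  calc ‖1 / r‖ ^ (1 / 2 : ℝ) * Real.exp (Real.pi / 2 * |t|) *
        (Real.sqrt (2 * Real.pi) * Real.exp (-(Real.pi / 2 * |t|)))
      = ‖1 / r‖ ^ (1 / 2 : ℝ) * Real.sqrt (2 * Real.pi) *
        (Real.exp (Real.pi / 2 * |t|) * Real.exp (-(Real.pi / 2 * |t|))) := by ring
    _ = _ := by rw [this, mul_one]

lemma cg_cont {r : ℂ} (hr : r ≠ 0) :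
    Continuous (fun t : ℝ => (1 / r) ^ (1 / 2 + t * I : ℂ) * Complex.Gamma (1 / 2 + t * I)) := by
  have h1r : (1 / r) ≠ 0 := one_div_ne_zero hr
  refine continuous_iff_continuousAt.2 (fun t => ?_)
  refine ContinuousAt.mul ?_ ?_
  · have hc : Continuous (fun t : ℝ => (1 / 2 + t * I : ℂ)) := by fun_prop
    exact (hc.const_cpow (Or.inl h1r)).continuousAt
  · have hc : ContinuousAt (fun t : ℝ => (1 / 2 + t * I : ℂ)) t := by fun_prop
    refine ContinuousAt.comp (f := fun t : ℝ => (1 / 2 + t * I : ℂ)) ?_ hc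
    refine Complex.continuousAt_Gamma _ (fun m h => ?_)
    have h2 := congrArg Complex.re h
    simp at h2
    have h3 : (0:ℝ) ≤ m := Nat.cast_nonneg m
    linarith

/-- the limit of the left side -/
lemma lim_left {τ Δ : ℝ} (hΔ : 0 < Δ) {y : ℝ} (hy : y ≠ 0) :
    Filter.Tendsto (fun n : ℕ => ∫ t : ℝ, (wt τ Δ t : ℂ) *
      ((1 / ((1 / ((n:ℝ) + 1) : ℝ) + (2 * Real.pi * y : ℝ) * I)) ^ (1 / 2 + t * I : ℂ) *
        Complex.Gamma (1 / 2 + t * I)))
      Filter.atTop (nhds (∫ t : ℝ, (wt τ Δ t : ℂ) *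
      ((1 / ((2 * Real.pi * y : ℝ) * I)) ^ (1 / 2 + t * I : ℂ) *
        Complex.Gamma (1 / 2 + t * I)))) := by
  have hpy : 2 * Real.pi * y ≠ 0 := by positivity
  have hre : ∀ n : ℕ, (((1 / ((n:ℝ) + 1) : ℝ) : ℂ) + (2 * Real.pi * y : ℝ) * I).re =
      1 / ((n:ℝ) + 1) := by
    intro n
    simp only [Complex.add_re, Complex.ofReal_re, Complex.mul_re, Complex.I_re, Complex.I_im,
        Complex.ofReal_im]
    ring
  have him : ∀ n : ℕ, (((1 / ((n:ℝ) + 1) : ℝ) : ℂ) + (2 * Real.pi * y : ℝ) * I).im =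
      2 * Real.pi * y := by
    intro n
    simp only [Complex.add_im, Complex.ofReal_re, Complex.mul_im, Complex.I_re, Complex.I_im,
        Complex.ofReal_im]
    ring
  have hpos : ∀ n : ℕ, 0 < (((1 / ((n:ℝ) + 1) : ℝ) : ℂ) + (2 * Real.pi * y : ℝ) * I).re := by
    intro n
    rw [hre]
    positivity
  have hne : ∀ n : ℕ, (((1 / ((n:ℝ) + 1) : ℝ) : ℂ) + (2 * Real.pi * y : ℝ) * I) ≠ 0 := by
    intro n h
    have := hpos n
    rw [h] at this
    simp at this
  refine MeasureTheory.tendsto_integral_of_dominated_convergence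
    (fun t => wt τ Δ t * ((1 / |2 * Real.pi * y|) ^ (1 / 2 : ℝ) * Real.sqrt (2 * Real.pi))) ?_
    ((wt_int hΔ).mul_const _) ?_ ?_
  · intro n
    refine Continuous.aestronglyMeasurable ?_
    exact (Complex.continuous_ofReal.comp (wt_cont τ Δ)).mul (cg_cont (hne n))
  · intro n
    refine Filter.Eventually.of_forall (fun t => ?_)
    rw [norm_mul, Complex.norm_real, Real.norm_eq_abs,
      abs_of_pos (Pool.Agent.P4f18dfS.MVAux.wt_pos _ _ _)]
    refine mul_le_mul_of_nonneg_left ?_ (Pool.Agent.P4f18dfS.MVAux.wt_pos _ _ _).le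
    refine (cg_le (hpos n) t).trans ?_
    refine mul_le_mul_of_nonneg_right ?_ (Real.sqrt_nonneg _)
    refine Real.rpow_le_rpow (norm_nonneg _) ?_ (by norm_num)
    rw [norm_div, norm_one]
    refine one_div_le_one_div_of_le (abs_pos.2 hpy) ?_
    calc |2 * Real.pi * y| = |(((1 / ((n:ℝ) + 1) : ℝ) : ℂ) + (2 * Real.pi * y : ℝ) * I).im| := by
          rw [him]
      _ ≤ _ := Complex.abs_im_le_norm _
  · refine Filter.Eventually.of_forall (fun t => ?_)
    refine Filter.Tendsto.const_mul _ (Filter.Tendsto.mul_const _ ?_)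
    have h1 : Filter.Tendsto (fun n : ℕ => ((1 / ((n:ℝ) + 1) : ℝ) : ℂ)) Filter.atTop (nhds 0) := by
      have h2 := (Complex.continuous_ofReal.tendsto _).comp
        (tendsto_one_div_add_atTop_nhds_zero_nat (𝕜 := ℝ))
      simpa [Function.comp_def] using h2
    have hI : ((2 * Real.pi * y : ℝ) : ℂ) * I ≠ 0 :=
      mul_ne_zero (by exact_mod_cast hpy) Complex.I_ne_zero
    have h3 : Filter.Tendsto (fun n : ℕ => 1 / (((1 / ((n:ℝ) + 1) : ℝ) : ℂ) +
        (2 * Real.pi * y : ℝ) * I)) Filter.atTop (nhds (1 / ((2 * Real.pi * y : ℝ) * I))) := by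
      have h4 := (h1.add_const (((2 * Real.pi * y : ℝ) : ℂ) * I))
      rw [zero_add] at h4
      exact tendsto_const_nhds.div h4 hI
    refine ((continuousAt_cpow_const ?_).tendsto).comp h3
    rw [Complex.mem_slitPlane_iff]
    right
    rw [one_div, Complex.inv_im]
    refine div_ne_zero ?_ (Complex.normSq_pos.2 hI).ne'
    simpa using hy

lemma om_eq {τ Δ : ℝ} (hΔ : 0 < Δ) {y : ℝ} (hy : y ≠ 0) :
    ∫ t : ℝ, (wt τ Δ t : ℂ) * ((1 / ((2 * Real.pi * y : ℝ) * I)) ^ (1 / 2 + t * I : ℂ) *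
        Complex.Gamma (1 / 2 + t * I)) = Om τ Δ y := by
  have h1 := lim_left (τ := τ) hΔ hy
  have h2 := lim_right (τ := τ) hΔ y
  refine tendsto_nhds_unique h1 (h2.congr (fun n => ?_))
  rw [fub hΔ]
  simp only [Complex.add_re, Complex.ofReal_re, Complex.mul_re, Complex.I_re, Complex.I_im,
        Complex.ofReal_im, mul_zero, sub_zero, mul_one, add_zero]
  positivity

lemma om_int {τ Δ : ℝ} (hΔ : 0 < Δ) {y : ℝ} (hy : y ≠ 0) :
    Integrable (fun t : ℝ => (wt τ Δ t : ℂ) *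
      ((1 / ((2 * Real.pi * y : ℝ) * I)) ^ (1 / 2 + t * I : ℂ) *
        Complex.Gamma (1 / 2 + t * I))) := by
  have hpy : 2 * Real.pi * y ≠ 0 := by positivity
  have hI : ((2 * Real.pi * y : ℝ) : ℂ) * I ≠ 0 :=
      mul_ne_zero (by exact_mod_cast hpy) Complex.I_ne_zero
  refine Integrable.mono' ((wt_int (τ := τ) hΔ).mul_const
    (‖1 / (((2 * Real.pi * y : ℝ) : ℂ) * I)‖ ^ (1 / 2 : ℝ) * Real.sqrt (2 * Real.pi))) ?_ ?_
  · refine Continuous.aestronglyMeasurable ?_
    exact (Complex.continuous_ofReal.comp (wt_cont τ Δ)).mul (cg_cont hI)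
  · refine Filter.Eventually.of_forall (fun t => ?_)
    rw [norm_mul, Complex.norm_real, Real.norm_eq_abs,
      abs_of_pos (Pool.Agent.P4f18dfS.MVAux.wt_pos _ _ _)]
    refine mul_le_mul_of_nonneg_left ?_ (Pool.Agent.P4f18dfS.MVAux.wt_pos _ _ _).le
    rw [norm_mul]
    have h1 : ‖(1 / (((2 * Real.pi * y : ℝ) : ℂ) * I)) ^ (1 / 2 + t * I : ℂ)‖ ≤
        ‖1 / (((2 * Real.pi * y : ℝ) : ℂ) * I)‖ ^ (1 / 2 : ℝ) * Real.exp (Real.pi / 2 * |t|) := by
      rw [Complex.norm_cpow_of_ne_zero (one_div_ne_zero hI)]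
      have h1 : (1 / 2 + t * I : ℂ).re = 1 / 2 := by simp
      have h2 : (1 / 2 + t * I : ℂ).im = t := by simp
      rw [h1, h2, div_eq_mul_inv, ← Real.exp_neg]
      refine mul_le_mul_of_nonneg_left (Real.exp_le_exp.2 ?_) (by positivity)
      have h3 : |Complex.arg (1 / (((2 * Real.pi * y : ℝ) : ℂ) * I))| ≤ Real.pi / 2 := by
        rw [Complex.abs_arg_le_pi_div_two_iff, one_div, Complex.inv_re]
        have : (((2 * Real.pi * y : ℝ) : ℂ) * I).re = 0 := by simp
        rw [this]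
        simp
      calc -(Complex.arg (1 / (((2 * Real.pi * y : ℝ) : ℂ) * I)) * t)
          ≤ |Complex.arg (1 / (((2 * Real.pi * y : ℝ) : ℂ) * I)) * t| := neg_le_abs _
        _ = |Complex.arg (1 / (((2 * Real.pi * y : ℝ) : ℂ) * I))| * |t| := abs_mul _ _
        _ ≤ _ := mul_le_mul_of_nonneg_right h3 (abs_nonneg _)
    refine (mul_le_mul h1 (gam_le t) (norm_nonneg _) (by positivity)).trans (le_of_eq ?_)
    have : Real.exp (Real.pi / 2 * |t|) * Real.exp (-(Real.pi / 2 * |t|)) = 1 := by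
      rw [← Real.exp_add, add_neg_cancel, Real.exp_zero]
    calc ‖1 / (((2 * Real.pi * y : ℝ) : ℂ) * I)‖ ^ (1 / 2 : ℝ) * Real.exp (Real.pi / 2 * |t|) *
          (Real.sqrt (2 * Real.pi) * Real.exp (-(Real.pi / 2 * |t|)))
        = ‖1 / (((2 * Real.pi * y : ℝ) : ℂ) * I)‖ ^ (1 / 2 : ℝ) * Real.sqrt (2 * Real.pi) *
          (Real.exp (Real.pi / 2 * |t|) * Real.exp (-(Real.pi / 2 * |t|))) := by ring
      _ = _ := by rw [this, mul_one]

lemma cp_pos {x : ℝ} (hx : 0 < x) (s : ℂ) :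
    (1 / ((x : ℂ) * I)) ^ s = cexp (-(s * (Real.log x : ℝ)) - Real.pi * s / 2 * I) := by
  have h1 : 1 / ((x : ℂ) * I) = ((1 / x : ℝ) : ℂ) * (-I) := by
    rw [one_div, mul_inv, Complex.inv_I]
    push_cast
    rw [one_div]
  have hx' : (0:ℝ) < 1 / x := by positivity
  rw [h1, Complex.cpow_def_of_ne_zero (mul_ne_zero (by exact_mod_cast hx'.ne')
    (neg_ne_zero.2 Complex.I_ne_zero)), Complex.log_ofReal_mul hx' (neg_ne_zero.2 Complex.I_ne_zero),
    Complex.log_neg_I, one_div, Real.log_inv]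
  congr 1
  push_cast
  ring

lemma cp_neg {x : ℝ} (hx : 0 < x) (s : ℂ) :
    (1 / (((-x : ℝ) : ℂ) * I)) ^ s = cexp (-(s * (Real.log x : ℝ)) + Real.pi * s / 2 * I) := by
  have h1 : 1 / (((-x : ℝ) : ℂ) * I) = ((1 / x : ℝ) : ℂ) * I := by
    rw [one_div, mul_inv, Complex.inv_I]
    push_cast
    rw [inv_neg, one_div]
    ring
  have hx' : (0:ℝ) < 1 / x := by positivity
  rw [h1, Complex.cpow_def_of_ne_zero (mul_ne_zero (by exact_mod_cast hx'.ne')
    Complex.I_ne_zero), Complex.log_ofReal_mul hx' Complex.I_ne_zero,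
    Complex.log_I, one_div, Real.log_inv]
  congr 1
  push_cast
  ring

end OmegaIdAux

open OmegaIdAux

theorem wf_omega {τ Δ Y : ℝ} (hΔ : 0 < Δ) (hY : 0 < Y) : Wf τ Δ Y = Om τ Δ Y + Om τ Δ (-Y) := by
  rw [← om_eq hΔ hY.ne', ← om_eq hΔ (neg_ne_zero.2 hY.ne'), Wf,
    ← MeasureTheory.integral_add (om_int hΔ hY.ne') (om_int hΔ (neg_ne_zero.2 hY.ne'))]
  refine MeasureTheory.integral_congr_ae (Filter.Eventually.of_forall (fun t => ?_))
  simp only
  rw [mul_assoc, ← mul_add]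
  congr 1
  set s : ℂ := 1 / 2 + t * I with hs
  have hxf : XF (1 / 2 - t * I) = Complex.Gammaℂ s * Complex.cos (Real.pi * s / 2) := by
    rw [← Complex.Gammaℝ_div_Gammaℝ_one_sub, Pool.Agent.P4f18dfS.XF]
    · congr 2
      · rw [hs]; ring
      · rw [hs]; ring
    · intro n h
      have h2 := congrArg Complex.re h
      simp [hs] at h2
      have h3 : (0:ℝ) ≤ n := Nat.cast_nonneg n
      linarith
  have h2pY : 0 < 2 * Real.pi * Y := by positivity
  have hm : 2 * Real.pi * -Y = -(2 * Real.pi * Y) := by ring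
  rw [hxf, hm, cp_pos h2pY, cp_neg h2pY, Complex.Gammaℂ_def]
  have h2p : (2 * (Real.pi : ℂ)) = ((2 * Real.pi : ℝ) : ℂ) := by push_cast; ring
  have hp0 : (0:ℝ) < 2 * Real.pi := by positivity
  rw [h2p, Complex.cpow_def_of_ne_zero (by exact_mod_cast hp0.ne'),
    Complex.cpow_def_of_ne_zero (x := (Y : ℂ)) (by exact_mod_cast hY.ne'),
    ← Complex.ofReal_log hp0.le, ← Complex.ofReal_log hY.le, Real.log_mul hp0.ne' hY.ne']
  have hcos : Complex.cos (Real.pi * s / 2) =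
      (cexp (Real.pi * s / 2 * I) + cexp (-(Real.pi * s / 2 * I))) / 2 := by
    rw [← neg_mul]
    rfl
  rw [hcos]
  have e1 : cexp (-(s * ((Real.log (2 * Real.pi) + Real.log Y : ℝ) : ℂ)) - Real.pi * s / 2 * I) =
      cexp ((Real.log (2 * Real.pi) : ℝ) * -s) * cexp ((Real.log Y : ℝ) * -s) *
        cexp (-(Real.pi * s / 2 * I)) := by
    rw [← Complex.exp_add, ← Complex.exp_add]
    congr 1
    push_cast
    ring
  have e2 : cexp (-(s * ((Real.log (2 * Real.pi) + Real.log Y : ℝ) : ℂ)) + Real.pi * s / 2 * I) =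
      cexp ((Real.log (2 * Real.pi) : ℝ) * -s) * cexp ((Real.log Y : ℝ) * -s) *
        cexp (Real.pi * s / 2 * I) := by
    rw [← Complex.exp_add, ← Complex.exp_add]
    congr 1
    push_cast
    ring
  rw [e1, e2]
  ring

end Pool.Agent.P07318m
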