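import Pool.Agent.Lib.P07318m.Defs
import Pool.Agent.Lib.P07318m.OmegaId

/-!
# P07318m.OmegaCmp: `Ω(y) ≈ 2π e(-y) G(y)` and `W(Y) ≈ 2π e(-Y) G(Y)`

`om_cmp`: PROOF. `e^u = 1 + u + r(u)`, `|r(u)| ≤ u² e^{|u|}/2`. The phase is `τu - 2πy e^u = (τ-2πy)u - 2πy - 2πy r(u)`.
`√π Δ ∫ exp(i(τ-2πy)u - Δ²u²/4) du = 2π exp(-((τ-2πy)/Δ)²)` (Gaussian Fourier transform, `integral_cexp_quadratic` or
`fourierIntegral_gaussian`), times `e^{-2πiy}` this is exactly `2π ee(-y) GG τ Δ y`. The difference is at most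
`√π Δ ∫ |exp(u/2 - 2πiy r(u)) - 1| exp(-Δ²u²/4) du`, and `|e^(p+iq) - 1| ≤ |p| e^|p| + |q|`, so this is
`≤ √π Δ ∫ (|u|/2 e^{|u|/2} + π|y|u² e^{|u|}) e^{-Δ²u²/4} du ≤ C (1/Δ + |y|/Δ²)` for `Δ ≥ 1`
(substitute `u = x/Δ`).

`wf_cmp`: combine with `wf_omega`; `‖2π ee(Y) GG τ Δ (-Y)‖ ≤ 2π exp(-(τ/Δ)²)` for `τ ≥ 0`, `Y > 0`.
-/

set_option autoImplicit false

open MeasureTheory Complex

namespace Pool.Agent.P07318m

open Pool.Agent.P4f18dfS (wt XF)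

namespace OmCmpAux

/-- the remainder of the exponential function -/
noncomputable def rr (u : ℝ) : ℝ := Real.exp u - 1 - u

/-- the integrand -/
noncomputable def aa (τ Δ y u : ℝ) : ℂ := cexp ((u / 2 - Δ ^ 2 * u ^ 2 / 4 : ℝ) +
    ((τ * u - 2 * Real.pi * y * Real.exp u : ℝ) : ℂ) * I)

/-- the linearised integrand -/
noncomputable def bb (τ Δ y u : ℝ) : ℂ := ee (-y) * cexp ((-(Δ ^ 2 * u ^ 2 / 4) : ℝ) +
    (((τ - 2 * Real.pi * y) * u : ℝ) : ℂ) * I)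

theorem norm_ee (x : ℝ) : ‖ee x‖ = 1 := by
  unfold ee
  have : (2 * (Real.pi : ℂ) * (x : ℂ) * I) = ((2 * Real.pi * x : ℝ) : ℂ) * I := by push_cast; ring
  rw [this, norm_exp_ofReal_mul_I]

theorem abs_rr (u : ℝ) : |rr u| ≤ u ^ 2 * Real.exp |u| := by
  have h1 : 0 ≤ rr u := by
    unfold rr
    have := Real.add_one_le_exp u
    linarith
  rw [abs_of_nonneg h1]
  unfold rr
  -- `e^u - 1 ≤ u e^u`, so `e^u - 1 - u ≤ u (e^u - 1) ≤ u² e^{|u|}`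
  have h2 : Real.exp u - 1 ≤ u * Real.exp u := by
    have h3 := Real.add_one_le_exp (-u)
    have h4 : Real.exp (-u) * Real.exp u = 1 := by rw [← Real.exp_add]; simp
    nlinarith [Real.exp_pos u]
  have h5 := Real.add_one_le_exp u
  rcases le_total 0 u with h | h
  · rw [abs_of_nonneg h]
    nlinarith [mul_nonneg h (Real.exp_pos u).le]
  · rw [abs_of_nonpos h]
    have h6 : 1 ≤ Real.exp (-u) := Real.one_le_exp (by linarith)
    have h7 : u * (Real.exp u - 1) ≤ u ^ 2 := by nlinarith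
    nlinarith [sq_nonneg u]

theorem exp_sub_one (p q : ℝ) : ‖cexp ((p : ℂ) + (q : ℂ) * I) - 1‖ ≤
    |p| * Real.exp |p| + |q| := by
  have h1 : cexp ((p : ℂ) + (q : ℂ) * I) - 1 =
      ((Real.exp p - 1 : ℝ) : ℂ) * cexp ((q : ℂ) * I) + (cexp (I * (q : ℂ)) - 1) := by
    rw [Complex.exp_add]
    push_cast
    rw [mul_comm I (q : ℂ)]
    ring
  rw [h1]
  refine (norm_add_le _ _).trans (add_le_add ?_ ?_)
  · rw [norm_mul, norm_exp_ofReal_mul_I, mul_one, Complex.norm_real, Real.norm_eq_abs]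
    rcases le_total 0 p with h | h
    · have h3 := Real.add_one_le_exp (-p)
      have h4 : Real.exp (-p) * Real.exp p = 1 := by rw [← Real.exp_add]; simp
      have h5 : 1 ≤ Real.exp p := Real.one_le_exp h
      rw [abs_of_nonneg (by linarith), abs_of_nonneg h]
      nlinarith [Real.exp_pos p]
    · have h3 := Real.add_one_le_exp p
      have h5 : Real.exp p ≤ 1 := Real.exp_le_one_iff.2 h
      rw [abs_of_nonpos (by linarith), abs_of_nonpos h]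
      have h6 : 1 ≤ Real.exp (-p) := Real.one_le_exp (by linarith)
      nlinarith
  · exact Real.norm_exp_I_mul_ofReal_sub_one_le

theorem aa_eq (τ Δ y u : ℝ) : aa τ Δ y u = bb τ Δ y u *
    cexp (((u / 2 : ℝ) : ℂ) + ((-(2 * Real.pi * y * rr u) : ℝ) : ℂ) * I) := by
  unfold aa bb ee rr
  rw [mul_assoc, ← Complex.exp_add, ← Complex.exp_add]
  congr 1
  push_cast
  ring

theorem norm_bb (τ Δ y u : ℝ) : ‖bb τ Δ y u‖ = Real.exp (-(Δ ^ 2 * u ^ 2 / 4)) := by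
  unfold bb
  rw [norm_mul, norm_ee, one_mul, Complex.exp_add, norm_mul, norm_exp_ofReal_mul_I, mul_one,
    ← Complex.ofReal_exp, Complex.norm_real, Real.norm_of_nonneg (Real.exp_pos _).le]

/-- the majorant -/
noncomputable def hm (x : ℝ) : ℝ := 2 * Real.exp 8 * Real.exp (-(1 / 8) * x ^ 2)

theorem poly_le (x : ℝ) : |x| * Real.exp |x| * Real.exp (-(x ^ 2 / 4)) ≤ hm x ∧
    x ^ 2 * Real.exp |x| * Real.exp (-(x ^ 2 / 4)) ≤ hm x := by
  have h1 : |x| ≤ Real.exp |x| := by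
    have := Real.add_one_le_exp |x|
    linarith
  have h2 : x ^ 2 ≤ 2 * Real.exp |x| := by
    have := Real.quadratic_le_exp_of_nonneg (abs_nonneg x)
    rw [sq_abs] at this
    have := abs_nonneg x
    linarith
  have h3 : Real.exp |x| * Real.exp |x| * Real.exp (-(x ^ 2 / 4)) ≤
      Real.exp 8 * Real.exp (-(1 / 8) * x ^ 2) := by
    rw [← Real.exp_add, ← Real.exp_add, ← Real.exp_add]
    apply Real.exp_le_exp.2
    nlinarith [sq_nonneg (|x| - 8), sq_abs x]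
  have h4 : 0 < Real.exp |x| * Real.exp (-(x ^ 2 / 4)) := by positivity
  unfold hm
  constructor
  · calc |x| * Real.exp |x| * Real.exp (-(x ^ 2 / 4))
        = |x| * (Real.exp |x| * Real.exp (-(x ^ 2 / 4))) := by ring
      _ ≤ Real.exp |x| * (Real.exp |x| * Real.exp (-(x ^ 2 / 4))) :=
          mul_le_mul_of_nonneg_right h1 h4.le
      _ = Real.exp |x| * Real.exp |x| * Real.exp (-(x ^ 2 / 4)) := by ring
      _ ≤ Real.exp 8 * Real.exp (-(1 / 8) * x ^ 2) := h3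
      _ ≤ 2 * Real.exp 8 * Real.exp (-(1 / 8) * x ^ 2) := by
          have : 0 < Real.exp 8 * Real.exp (-(1 / 8) * x ^ 2) := by positivity
          linarith
  · calc x ^ 2 * Real.exp |x| * Real.exp (-(x ^ 2 / 4))
        = x ^ 2 * (Real.exp |x| * Real.exp (-(x ^ 2 / 4))) := by ring
      _ ≤ 2 * Real.exp |x| * (Real.exp |x| * Real.exp (-(x ^ 2 / 4))) :=
          mul_le_mul_of_nonneg_right h2 h4.le
      _ = 2 * (Real.exp |x| * Real.exp |x| * Real.exp (-(x ^ 2 / 4))) := by ring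
      _ ≤ 2 * (Real.exp 8 * Real.exp (-(1 / 8) * x ^ 2)) := by linarith
      _ = _ := by ring

theorem diff_le {τ Δ y u : ℝ} (hΔ : 1 ≤ Δ) : ‖aa τ Δ y u - bb τ Δ y u‖ ≤
    (1 / Δ + 2 * Real.pi * |y| / Δ ^ 2) * hm (Δ * u) := by
  have hΔ0 : 0 < Δ := by linarith
  rw [aa_eq]
  have e : bb τ Δ y u * cexp (((u / 2 : ℝ) : ℂ) + ((-(2 * Real.pi * y * rr u) : ℝ) : ℂ) * I) -
      bb τ Δ y u = bb τ Δ y u *
      (cexp (((u / 2 : ℝ) : ℂ) + ((-(2 * Real.pi * y * rr u) : ℝ) : ℂ) * I) - 1) := by ring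
  rw [e, norm_mul, norm_bb]
  have h1 := exp_sub_one (u / 2) (-(2 * Real.pi * y * rr u))
  have h2 := abs_rr u
  have hx : |Δ * u| = Δ * |u| := by rw [abs_mul, abs_of_pos hΔ0]
  obtain ⟨p1, p2⟩ := poly_le (Δ * u)
  have hE : Real.exp |u| ≤ Real.exp |Δ * u| := by
    apply Real.exp_le_exp.2
    rw [hx]
    nlinarith [abs_nonneg u]
  have hG : Real.exp (-(Δ ^ 2 * u ^ 2 / 4)) = Real.exp (-((Δ * u) ^ 2 / 4)) := by
    congr 1; ring
  rw [hG]
  set G := Real.exp (-((Δ * u) ^ 2 / 4)) with hGdef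
  have hG0 : 0 < G := Real.exp_pos _
  have h3 : |u / 2| * Real.exp |u / 2| ≤ 1 / Δ * (|Δ * u| * Real.exp |Δ * u|) := by
    have h4 : |u / 2| ≤ |u| := by
      rw [abs_div, abs_two]
      have := abs_nonneg u
      linarith
    have h5 : Real.exp |u / 2| ≤ Real.exp |Δ * u| := (Real.exp_le_exp.2 h4).trans hE
    calc |u / 2| * Real.exp |u / 2| ≤ |u| * Real.exp |Δ * u| :=
          mul_le_mul h4 h5 (Real.exp_pos _).le (abs_nonneg _)
      _ = 1 / Δ * (|Δ * u| * Real.exp |Δ * u|) := by rw [hx]; field_simp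
  have h6 : |-(2 * Real.pi * y * rr u)| ≤
      2 * Real.pi * |y| / Δ ^ 2 * ((Δ * u) ^ 2 * Real.exp |Δ * u|) := by
    rw [abs_neg, abs_mul, abs_mul, abs_of_pos (by positivity : (0 : ℝ) < 2 * Real.pi)]
    calc 2 * Real.pi * |y| * |rr u| ≤ 2 * Real.pi * |y| * (u ^ 2 * Real.exp |u|) :=
          mul_le_mul_of_nonneg_left h2 (by positivity)
      _ ≤ 2 * Real.pi * |y| * (u ^ 2 * Real.exp |Δ * u|) :=
          mul_le_mul_of_nonneg_left (mul_le_mul_of_nonneg_left hE (sq_nonneg _)) (by positivity)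
      _ = _ := by field_simp
  calc G * ‖cexp (((u / 2 : ℝ) : ℂ) + ((-(2 * Real.pi * y * rr u) : ℝ) : ℂ) * I) - 1‖
      ≤ G * (1 / Δ * (|Δ * u| * Real.exp |Δ * u|) +
        2 * Real.pi * |y| / Δ ^ 2 * ((Δ * u) ^ 2 * Real.exp |Δ * u|)) :=
        mul_le_mul_of_nonneg_left (h1.trans (add_le_add h3 h6)) hG0.le
    _ = 1 / Δ * (|Δ * u| * Real.exp |Δ * u| * G) +
        2 * Real.pi * |y| / Δ ^ 2 * ((Δ * u) ^ 2 * Real.exp |Δ * u| * G) := by ring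
    _ ≤ 1 / Δ * hm (Δ * u) + 2 * Real.pi * |y| / Δ ^ 2 * hm (Δ * u) :=
        add_le_add (mul_le_mul_of_nonneg_left p1 (by positivity))
          (mul_le_mul_of_nonneg_left p2 (by positivity))
    _ = _ := by ring

theorem hm_integrable : Integrable hm := by
  unfold hm
  exact (integrable_exp_neg_mul_sq (by norm_num : (0 : ℝ) < 1 / 8)).const_mul _

theorem hm_nonneg (x : ℝ) : 0 ≤ hm x := by unfold hm; positivity

theorem bb_integrable {τ Δ y : ℝ} (hΔ : 0 < Δ) : Integrable (bb τ Δ y) := by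
  have h1 : Integrable (fun u : ℝ => Real.exp (-(Δ ^ 2 / 4) * u ^ 2)) :=
    integrable_exp_neg_mul_sq (by positivity)
  refine h1.mono' ?_ (Filter.Eventually.of_forall fun u => ?_)
  · apply Continuous.aestronglyMeasurable
    unfold bb
    fun_prop
  · rw [norm_bb]
    apply le_of_eq
    congr 1
    ring

theorem integral_bb {τ Δ y : ℝ} (hΔ : 0 < Δ) :
    (Real.sqrt Real.pi * Δ : ℝ) * ∫ u : ℝ, bb τ Δ y u =
      2 * Real.pi * ee (-y) * (GG τ Δ y : ℂ) := by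
  unfold bb
  rw [integral_const_mul]
  have h1 : ∀ u : ℝ, cexp ((-(Δ ^ 2 * u ^ 2 / 4) : ℝ) +
      (((τ - 2 * Real.pi * y) * u : ℝ) : ℂ) * I) =
      cexp ((-(Δ ^ 2 / 4) : ℂ) * (u : ℂ) ^ 2 + (((τ - 2 * Real.pi * y : ℝ) : ℂ) * I) * (u : ℂ) + 0) := by
    intro u
    congr 1
    push_cast
    ring
  simp_rw [h1]
  have hre : (-(Δ ^ 2 / 4) : ℂ).re < 0 := by
    have : (-(Δ ^ 2 / 4) : ℂ) = ((-(Δ ^ 2 / 4) : ℝ) : ℂ) := by push_cast; ring
    rw [this, Complex.ofReal_re]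
    have : 0 < Δ ^ 2 := by positivity
    linarith
  rw [integral_cexp_quadratic hre]
  have h2 : ((Real.pi : ℂ) / -(-(Δ ^ 2 / 4) : ℂ)) ^ (1 / 2 : ℂ) =
      ((2 * Real.sqrt Real.pi / Δ : ℝ) : ℂ) := by
    have h3 : ((Real.pi : ℂ) / -(-(Δ ^ 2 / 4) : ℂ)) = ((Real.pi / (Δ ^ 2 / 4) : ℝ) : ℂ) := by
      push_cast; ring
    have h4 : (1 / 2 : ℂ) = ((1 / 2 : ℝ) : ℂ) := by push_cast; rfl
    rw [h3, h4, ← Complex.ofReal_cpow (by positivity)]
    congr 1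
    rw [← Real.sqrt_eq_rpow]
    have h5 : Real.pi / (Δ ^ 2 / 4) = (2 * Real.sqrt Real.pi / Δ) ^ 2 := by
      rw [div_pow, mul_pow, Real.sq_sqrt Real.pi_pos.le]
      field_simp
      ring
    rw [h5, Real.sqrt_sq (by positivity)]
  have h6 : (0 : ℂ) - (((τ - 2 * Real.pi * y : ℝ) : ℂ) * I) ^ 2 / (4 * (-(Δ ^ 2 / 4) : ℂ)) =
      ((-((2 * Real.pi * y - τ) / Δ) ^ 2 : ℝ) : ℂ) := by
    have hΔc : (Δ : ℂ) ≠ 0 := by exact_mod_cast hΔ.ne'
    rw [mul_pow, I_sq]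
    push_cast
    field_simp
    ring
  rw [h2, h6]
  unfold GG
  rw [Complex.ofReal_exp]
  have h7 : (Real.sqrt Real.pi : ℝ) * Real.sqrt Real.pi = Real.pi := Real.mul_self_sqrt Real.pi_pos.le
  have h8 : (((Real.sqrt Real.pi * Δ : ℝ)) : ℂ) * ((2 * Real.sqrt Real.pi / Δ : ℝ) : ℂ) =
      2 * (Real.pi : ℂ) := by
    rw [← Complex.ofReal_mul]
    have : Real.sqrt Real.pi * Δ * (2 * Real.sqrt Real.pi / Δ) = 2 * Real.pi := by
      field_simp
      nlinarith [h7]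
    rw [this]
    push_cast
    ring
  calc (((Real.sqrt Real.pi * Δ : ℝ)) : ℂ) * (ee (-y) * (((2 * Real.sqrt Real.pi / Δ : ℝ) : ℂ) *
        cexp ((-((2 * Real.pi * y - τ) / Δ) ^ 2 : ℝ) : ℂ)))
      = ((((Real.sqrt Real.pi * Δ : ℝ)) : ℂ) * ((2 * Real.sqrt Real.pi / Δ : ℝ) : ℂ)) * ee (-y) *
        cexp ((-((2 * Real.pi * y - τ) / Δ) ^ 2 : ℝ) : ℂ) := by ring
    _ = _ := by rw [h8]

end OmCmpAux

open OmCmpAux

theorem om_cmp : ∃ C : ℝ, 0 < C ∧ ∀ τ Δ y : ℝ, 1 ≤ Δ →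
    ‖Om τ Δ y - 2 * Real.pi * ee (-y) * (GG τ Δ y : ℂ)‖ ≤ C * ((1 + |y| / Δ) / Δ) := by
  have hint0 : 0 ≤ ∫ x, hm x := integral_nonneg hm_nonneg
  refine ⟨Real.sqrt Real.pi * (2 * Real.pi) * (∫ x, hm x) + 1, by positivity, ?_⟩
  intro τ Δ y hΔ
  have hΔ0 : 0 < Δ := by linarith
  have hmi : Integrable (fun u : ℝ => (1 / Δ + 2 * Real.pi * |y| / Δ ^ 2) * hm (Δ * u)) :=
    (hm_integrable.comp_mul_left' hΔ0.ne').const_mul _
  have hb := bb_integrable (τ := τ) (y := y) hΔ0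
  have hab : Integrable (fun u => aa τ Δ y u - bb τ Δ y u) := by
    refine hmi.mono' ?_ (Filter.Eventually.of_forall fun u => diff_le hΔ)
    apply Continuous.aestronglyMeasurable
    unfold aa bb
    fun_prop
  have ha : Integrable (aa τ Δ y) := by
    have := hab.add hb
    refine this.congr (Filter.Eventually.of_forall fun u => ?_)
    simp
  have e1 : Om τ Δ y - 2 * Real.pi * ee (-y) * (GG τ Δ y : ℂ) =
      (Real.sqrt Real.pi * Δ : ℝ) * ∫ u : ℝ, (aa τ Δ y u - bb τ Δ y u) := by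
    rw [integral_sub ha hb, mul_sub, integral_bb hΔ0]
    rfl
  rw [e1, norm_mul, Complex.norm_real, Real.norm_of_nonneg (by positivity)]
  have h1 : ‖∫ u : ℝ, (aa τ Δ y u - bb τ Δ y u)‖ ≤
      (1 / Δ + 2 * Real.pi * |y| / Δ ^ 2) * (Δ⁻¹ * ∫ x, hm x) := by
    refine (norm_integral_le_of_norm_le hmi (Filter.Eventually.of_forall fun u => diff_le hΔ)).trans
      (le_of_eq ?_)
    rw [integral_const_mul, Measure.integral_comp_mul_left, abs_of_pos (inv_pos.2 hΔ0), smul_eq_mul]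
  calc Real.sqrt Real.pi * Δ * ‖∫ u : ℝ, (aa τ Δ y u - bb τ Δ y u)‖
      ≤ Real.sqrt Real.pi * Δ * ((1 / Δ + 2 * Real.pi * |y| / Δ ^ 2) * (Δ⁻¹ * ∫ x, hm x)) :=
        mul_le_mul_of_nonneg_left h1 (by positivity)
    _ = Real.sqrt Real.pi * (∫ x, hm x) * (1 / Δ + 2 * Real.pi * |y| / Δ ^ 2) := by
        field_simp
    _ ≤ Real.sqrt Real.pi * (∫ x, hm x) * (2 * Real.pi * ((1 + |y| / Δ) / Δ)) := by
        refine mul_le_mul_of_nonneg_left ?_ (by positivity)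
        have e2 : 2 * Real.pi * ((1 + |y| / Δ) / Δ) =
            2 * Real.pi * (1 / Δ) + 2 * Real.pi * |y| / Δ ^ 2 := by
          field_simp
        rw [e2]
        have h2 : (1 : ℝ) ≤ 2 * Real.pi := by
          have := Real.pi_gt_three
          linarith
        have h3 : 0 ≤ 1 / Δ := by positivity
        nlinarith
    _ ≤ (Real.sqrt Real.pi * (2 * Real.pi) * (∫ x, hm x) + 1) * ((1 + |y| / Δ) / Δ) := by
        have h4 : 0 ≤ (1 + |y| / Δ) / Δ := by positivity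
        nlinarith

theorem wf_cmp : ∃ C : ℝ, 0 < C ∧ ∀ τ Δ Y : ℝ, 1 ≤ Δ → 0 ≤ τ → 0 < Y →
    ‖Wf τ Δ Y - 2 * Real.pi * ee (-Y) * (GG τ Δ Y : ℂ)‖ ≤
      C * ((1 + Y / Δ) / Δ) + 2 * Real.pi * Real.exp (-(τ / Δ) ^ 2) := by
  obtain ⟨C, hC, h⟩ := om_cmp
  refine ⟨2 * C, by positivity, ?_⟩
  intro τ Δ Y hΔ hτ hY
  have hΔ0 : 0 < Δ := by linarith
  have h1 := h τ Δ Y hΔ
  have h2 := h τ Δ (-Y) hΔ
  rw [abs_of_pos hY] at h1
  rw [abs_neg, abs_of_pos hY] at h2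
  have h3 : ‖2 * (Real.pi : ℂ) * ee (-(-Y)) * (GG τ Δ (-Y) : ℂ)‖ ≤
      2 * Real.pi * Real.exp (-(τ / Δ) ^ 2) := by
    rw [norm_mul, norm_mul, norm_ee, mul_one, norm_mul, Complex.norm_real, Complex.norm_real,
      Complex.norm_ofNat, Real.norm_of_nonneg Real.pi_pos.le]
    refine mul_le_mul_of_nonneg_left ?_ (by positivity)
    unfold GG
    rw [Real.norm_of_nonneg (Real.exp_pos _).le]
    apply Real.exp_le_exp.2
    rw [div_pow, div_pow, neg_le_neg_iff]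
    apply div_le_div_of_nonneg_right _ (by positivity)
    have h4 : 0 < 2 * Real.pi * Y := by positivity
    nlinarith
  rw [wf_omega hΔ0 hY]
  have e : Om τ Δ Y + Om τ Δ (-Y) - 2 * Real.pi * ee (-Y) * (GG τ Δ Y : ℂ) =
      (Om τ Δ Y - 2 * Real.pi * ee (-Y) * (GG τ Δ Y : ℂ)) +
      ((Om τ Δ (-Y) - 2 * (Real.pi : ℂ) * ee (-(-Y)) * (GG τ Δ (-Y) : ℂ)) +
      2 * (Real.pi : ℂ) * ee (-(-Y)) * (GG τ Δ (-Y) : ℂ)) := by ring
  rw [e]
  refine (norm_add_le _ _).trans ?_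
  have h5 := norm_add_le (Om τ Δ (-Y) - 2 * (Real.pi : ℂ) * ee (-(-Y)) * (GG τ Δ (-Y) : ℂ))
    (2 * (Real.pi : ℂ) * ee (-(-Y)) * (GG τ Δ (-Y) : ℂ))
  linarith

end Pool.Agent.P07318m
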