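import Pool.Agent.Lib.P07318m.Defs
import Pool.Agent.Lib.P07318m.OmegaCmp
import Pool.Agent.Lib.P07318m.JForm

/-!
# P07318m.JApprox: the twisted moment as a smooth sum of `d3(n) e(-nb/a)`

PROOF. `jform` gives `J = (b/a)^{1/2} ∑ d3(n) W(nb/a) + tiny`: `C τ ab exp(-(τ/Δ)²) ≤ C τ² exp(-τ^{2η}) ≤ C_η`.
Put `V = τ/Δ ≥ τ^η`, `V ≥ 1`, `N = τ V² a/b` (`Y = nb/a ≤ τV²` iff `n ≤ N`), `W - 2π e(-Y) G(Y) =: R(Y)`.
(i) `n ≤ N`: by `wf_cmp` `|R(Y)| ≤ C (1+Y/Δ)/Δ + 2π exp(-V²) ≤ C' V³/Δ + C_η τ^{-2}`-type bound (`Y/Δ ≤ V³`;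
`exp(-V²) ≤ exp(-τ^{2η}) ≤ C_η/τ ≤ C_η/Δ`). `∑_{n≤N} d3(n) ≤ C N^{1+ε'}` (`sum_d3_le`). Total, with the factor `(b/a)^{1/2}`:
`(b/a)^{1/2} (τV²a/b)^{1+ε'} V³/Δ = (a/b)^{1/2+ε'} τ^{ε'} V^{6+2ε'} ≤ τ^{2ε'} V^8 a^{1/2}` (as `a ≤ τ`, `b ≥ 1`).
(ii) `n > N`: `|R(Y)| ≤ |W(Y)| + 2π G(Y)`, by `wf_tail k`: `|W(Y)| ≤ C_k Δ τ² (τ/Y)^k Y^{-1/2}`; and for `Y ≥ τ`,
`G(Y) ≤ exp(-(5Y/Δ)²) ≤ C_k (Δ/Y)^k ≤ C_k (τ/Y)^k`. Since `τ/Y ≤ V^{-2} ≤ τ^{-2η}` there,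
`(τ/Y)^k ≤ τ^{-2η(k-2)} (τ/Y)^2`, `∑ d3(n) (τ a/(n b))² < C τ² a²`, and with `k` large in terms of `η` everything is `≤ C_η`.
Summability of all series: `d3(n) (1/n)^2`-type bounds.
-/

set_option autoImplicit false

open MeasureTheory Complex

namespace Pool.Agent.P07318m

open Pool.Agent.P4f18dfS (wt XF)

namespace JApproxAux

lemma exp_bd (η : ℝ) (hη : 0 < η) : ∃ C : ℝ, 0 < C ∧ ∀ τ V : ℝ, 1 ≤ τ → τ ^ η ≤ V →
    τ ^ 2 * Real.exp (-V ^ 2) ≤ C := by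
  set k : ℕ := ⌈1 / η⌉₊ with hk
  have hk1 : 1 / η ≤ k := Nat.le_ceil _
  have hk2 : 1 ≤ k * η := by
    rw [div_le_iff₀ hη] at hk1
    exact hk1
  refine ⟨k.factorial, by positivity, ?_⟩
  intro τ V hτ hV
  have hτ0 : 0 < τ := by linarith
  have hV0 : 0 < V := lt_of_lt_of_le (Real.rpow_pos_of_pos hτ0 η) hV
  have h1 := Real.pow_div_factorial_le_exp (V ^ 2) (by positivity) k
  rw [div_le_iff₀ (by positivity)] at h1
  have h2 : τ ≤ V ^ k := by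
    calc τ = τ ^ (1 : ℝ) := (Real.rpow_one τ).symm
      _ ≤ τ ^ (η * k) := Real.rpow_le_rpow_of_exponent_le hτ (by linarith)
      _ = (τ ^ η) ^ k := by rw [Real.rpow_mul hτ0.le, Real.rpow_natCast]
      _ ≤ V ^ k := pow_le_pow_left₀ (Real.rpow_nonneg hτ0.le _) hV k
  have h3 : τ ^ 2 ≤ (V ^ 2) ^ k := by
    calc τ ^ 2 ≤ (V ^ k) ^ 2 := pow_le_pow_left₀ hτ0.le h2 2
      _ = (V ^ 2) ^ k := by rw [← pow_mul, ← pow_mul, mul_comm]
  calc τ ^ 2 * Real.exp (-V ^ 2) ≤ (Real.exp (V ^ 2) * k.factorial) * Real.exp (-V ^ 2) :=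
        mul_le_mul_of_nonneg_right (h3.trans h1) (Real.exp_pos _).le
    _ = k.factorial * (Real.exp (V ^ 2) * Real.exp (-V ^ 2)) := by ring
    _ = k.factorial := by rw [← Real.exp_add]; simp

lemma ee_norm (x : ℝ) : ‖ee x‖ = 1 := by
  unfold ee
  rw [Complex.norm_exp]
  simp

lemma GG_nonneg (τ Δ y : ℝ) : 0 ≤ GG τ Δ y := (Real.exp_pos _).le

lemma GG_tail {τ Δ Y : ℝ} (hΔ : 1 ≤ Δ) (hτ : Δ ≤ τ) (hY : τ ≤ Y) (k : ℕ) :
    GG τ Δ Y ≤ k.factorial * (τ / Y) ^ k := by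
  have hΔ0 : 0 < Δ := by linarith
  have hτ0 : 0 < τ := by linarith
  have hY0 : 0 < Y := by linarith
  have h1 := Real.pow_div_factorial_le_exp (Y / τ) (by positivity) k
  rw [div_le_iff₀ (by positivity)] at h1
  have h2 : Y / τ ≤ ((2 * Real.pi * Y - τ) / Δ) ^ 2 := by
    have h3 : Y ≤ 2 * Real.pi * Y - τ := by nlinarith [Real.pi_gt_three]
    have h4 : Y / τ ≤ (2 * Real.pi * Y - τ) / Δ := by
      apply div_le_div₀ (by linarith) h3 hΔ0 hτ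
    have h5 : 1 ≤ Y / τ := (one_le_div hτ0).2 hY
    nlinarith
  have h3 : GG τ Δ Y ≤ Real.exp (-(Y / τ)) := by
    unfold GG
    apply Real.exp_le_exp.2
    linarith
  have h4 : (τ / Y) ^ k * (Y / τ) ^ k = 1 := by
    rw [← mul_pow]
    have : τ / Y * (Y / τ) = 1 := by field_simp
    rw [this, one_pow]
  calc GG τ Δ Y ≤ Real.exp (-(Y / τ)) := h3
    _ = Real.exp (-(Y / τ)) * ((τ / Y) ^ k * (Y / τ) ^ k) := by rw [h4, mul_one]
    _ = (τ / Y) ^ k * Real.exp (-(Y / τ)) * (Y / τ) ^ k := by ring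
    _ ≤ (τ / Y) ^ k * Real.exp (-(Y / τ)) * (Real.exp (Y / τ) * k.factorial) := by
        apply mul_le_mul_of_nonneg_left h1 (by positivity)
    _ = k.factorial * (τ / Y) ^ k * (Real.exp (Y / τ) * Real.exp (-(Y / τ))) := by ring
    _ = _ := by rw [← Real.exp_add]; simp

/-- The difference. -/
noncomputable def RR (τ Δ Y : ℝ) : ℂ := Wf τ Δ Y - 2 * Real.pi * ee (-Y) * (GG τ Δ Y : ℂ)

lemma rr_small {η C1 CE : ℝ} (hC1 : 0 < C1) (hCE : 0 < CE)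
    (hcmp : ∀ τ Δ Y : ℝ, 1 ≤ Δ → 0 ≤ τ → 0 < Y →
      ‖Wf τ Δ Y - 2 * Real.pi * ee (-Y) * (GG τ Δ Y : ℂ)‖ ≤
        C1 * ((1 + Y / Δ) / Δ) + 2 * Real.pi * Real.exp (-(τ / Δ) ^ 2))
    (hE : ∀ τ V : ℝ, 1 ≤ τ → τ ^ η ≤ V → τ ^ 2 * Real.exp (-V ^ 2) ≤ CE)
    {τ Δ Y : ℝ} (hΔ : 1 ≤ Δ) (hτ : Δ ≤ τ) (hV : τ ^ η ≤ τ / Δ) (hY0 : 0 < Y) (hY : Y ≤ τ * (τ / Δ) ^ 2) :
    ‖RR τ Δ Y‖ ≤ (2 * C1 + 2 * Real.pi * CE) * ((τ / Δ) ^ 3 / Δ) := by
  have hΔ0 : 0 < Δ := by linarith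
  have hτ0 : 0 < τ := by linarith
  set V : ℝ := τ / Δ with hVd
  have hV1 : 1 ≤ V := (one_le_div hΔ0).2 hτ
  have h1 := hcmp τ Δ Y hΔ hτ0.le hY0
  have h2 : Y / Δ ≤ V ^ 3 := by
    rw [div_le_iff₀ hΔ0]
    have : V * Δ = τ := by rw [hVd]; field_simp
    calc Y ≤ τ * V ^ 2 := hY
      _ = (V * Δ) * V ^ 2 := by rw [this]
      _ = V ^ 3 * Δ := by ring
  have h3 : Real.exp (-V ^ 2) ≤ CE / Δ := by
    rw [le_div_iff₀ hΔ0]
    have h4 := hE τ V (by linarith) hV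
    have h5 : Δ ≤ τ ^ 2 := by nlinarith
    calc Real.exp (-V ^ 2) * Δ ≤ Real.exp (-V ^ 2) * τ ^ 2 :=
          mul_le_mul_of_nonneg_left h5 (Real.exp_pos _).le
      _ ≤ CE := by rw [mul_comm]; exact h4
  have hV3 : 1 ≤ V ^ 3 := one_le_pow₀ hV1
  have hpi := Real.pi_pos
  calc ‖RR τ Δ Y‖ ≤ C1 * ((1 + Y / Δ) / Δ) + 2 * Real.pi * Real.exp (-V ^ 2) := h1
    _ ≤ C1 * ((V ^ 3 + V ^ 3) / Δ) + 2 * Real.pi * (CE * V ^ 3 / Δ) := by
        apply add_le_add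
        · apply mul_le_mul_of_nonneg_left _ hC1.le
          apply div_le_div_of_nonneg_right _ hΔ0.le
          linarith
        · apply mul_le_mul_of_nonneg_left _ (by positivity)
          refine h3.trans ?_
          apply div_le_div_of_nonneg_right _ hΔ0.le
          nlinarith
    _ = _ := by ring

lemma rr_large {η Ck : ℝ} {m : ℕ} (hm : 8 ≤ 2 * m * η) (hCk : 0 < Ck)
    (htail : ∀ τ Δ Y : ℝ, 1 ≤ Δ → Δ ≤ τ → 0 < Y →
      ‖Wf τ Δ Y‖ ≤ Ck * Δ * τ ^ 2 * (τ / Y) ^ (m + 2) * Y ^ (-(1 / 2) : ℝ))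
    {τ Δ Y : ℝ} (hΔ : 1 ≤ Δ) (hτ : Δ ≤ τ) (hV : τ ^ η ≤ τ / Δ) (hY : τ * (τ / Δ) ^ 2 ≤ Y) :
    ‖RR τ Δ Y‖ ≤ (Ck + 2 * Real.pi * (m + 2).factorial) * (1 / (τ ^ 3 * Y ^ 2)) := by
  have hΔ0 : 0 < Δ := by linarith
  have hτ0 : 0 < τ := by linarith
  have hτ1 : 1 ≤ τ := by linarith
  set V : ℝ := τ / Δ with hVd
  have hV1 : 1 ≤ V := (one_le_div hΔ0).2 hτ
  have hV0 : 0 < V := by linarith
  have hpi := Real.pi_pos
  have hYτ : τ ≤ Y := by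
    refine le_trans ?_ hY
    have : 1 ≤ V ^ 2 := one_le_pow₀ hV1
    nlinarith
  have hY0 : 0 < Y := by linarith
  have hY1 : 1 ≤ Y := by linarith
  have h1 := htail τ Δ Y hΔ hτ hY0
  have h2 : Y ^ (-(1 / 2) : ℝ) ≤ 1 := Real.rpow_le_one_of_one_le_of_nonpos hY1 (by norm_num)
  have h3 : ‖Wf τ Δ Y‖ ≤ Ck * τ ^ 3 * (τ / Y) ^ (m + 2) := by
    calc ‖Wf τ Δ Y‖ ≤ Ck * Δ * τ ^ 2 * (τ / Y) ^ (m + 2) * Y ^ (-(1 / 2) : ℝ) := h1
      _ ≤ Ck * τ * τ ^ 2 * (τ / Y) ^ (m + 2) * 1 := by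
          apply mul_le_mul _ h2 (Real.rpow_nonneg hY0.le _) (by positivity)
          apply mul_le_mul_of_nonneg_right _ (by positivity)
          apply mul_le_mul_of_nonneg_right _ (by positivity)
          exact mul_le_mul_of_nonneg_left hτ hCk.le
      _ = _ := by ring
  have h4 := GG_tail hΔ hτ hYτ (m + 2)
  have h5 : GG τ Δ Y ≤ (m + 2).factorial * (τ ^ 3 * (τ / Y) ^ (m + 2)) := by
    refine h4.trans ?_
    apply mul_le_mul_of_nonneg_left _ (by positivity)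
    have : 1 ≤ τ ^ 3 := one_le_pow₀ hτ1
    have h6 : 0 ≤ (τ / Y) ^ (m + 2) := by positivity
    nlinarith
  have h6 : (τ / Y) ^ (m + 2) ≤ 1 / τ ^ 8 * (τ / Y) ^ 2 := by
    rw [pow_add]
    apply mul_le_mul_of_nonneg_right _ (by positivity)
    have h7 : τ / Y ≤ 1 / V ^ 2 := by
      rw [div_le_div_iff₀ hY0 (by positivity)]
      linarith
    have h8 : τ ^ 8 ≤ (V ^ 2) ^ m := by
      calc τ ^ 8 = τ ^ (8 : ℝ) := by rw [← Real.rpow_natCast]; norm_num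
        _ ≤ τ ^ (η * (2 * m : ℕ)) := by
            apply Real.rpow_le_rpow_of_exponent_le hτ1
            push_cast
            linarith
        _ = (τ ^ η) ^ (2 * m) := by rw [Real.rpow_mul hτ0.le, Real.rpow_natCast]
        _ ≤ V ^ (2 * m) := pow_le_pow_left₀ (Real.rpow_nonneg hτ0.le _) hV _
        _ = (V ^ 2) ^ m := by rw [pow_mul]
    calc (τ / Y) ^ m ≤ (1 / V ^ 2) ^ m := pow_le_pow_left₀ (by positivity) h7 m
      _ = 1 / (V ^ 2) ^ m := by rw [div_pow, one_pow]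
      _ ≤ 1 / τ ^ 8 := one_div_le_one_div_of_le (by positivity) h8
  have h7 : τ ^ 3 * (τ / Y) ^ (m + 2) ≤ 1 / (τ ^ 3 * Y ^ 2) := by
    calc τ ^ 3 * (τ / Y) ^ (m + 2) ≤ τ ^ 3 * (1 / τ ^ 8 * (τ / Y) ^ 2) :=
          mul_le_mul_of_nonneg_left h6 (by positivity)
      _ = 1 / (τ ^ 3 * Y ^ 2) := by field_simp
  calc ‖RR τ Δ Y‖ ≤ ‖Wf τ Δ Y‖ + ‖2 * Real.pi * ee (-Y) * (GG τ Δ Y : ℂ)‖ := norm_sub_le _ _
    _ = ‖Wf τ Δ Y‖ + 2 * Real.pi * GG τ Δ Y := by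
        congr 1
        rw [norm_mul, norm_mul, ee_norm, norm_mul]
        simp [abs_of_pos hpi, abs_of_nonneg (GG_nonneg τ Δ Y)]
    _ ≤ Ck * (τ ^ 3 * (τ / Y) ^ (m + 2)) + 2 * Real.pi * ((m + 2).factorial * (τ ^ 3 * (τ / Y) ^ (m + 2))) := by
        apply add_le_add
        · refine h3.trans (le_of_eq (by ring))
        · exact mul_le_mul_of_nonneg_left h5 (by positivity)
    _ = (Ck + 2 * Real.pi * (m + 2).factorial) * (τ ^ 3 * (τ / Y) ^ (m + 2)) := by ring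
    _ ≤ _ := mul_le_mul_of_nonneg_left h7 (by positivity)

end JApproxAux

open JApproxAux

theorem japprox (ε η : ℝ) (hε : 0 < ε) (hη : 0 < η) : ∃ C : ℝ, 0 < C ∧ ∀ (τ Δ : ℝ) (a b : ℕ),
    1 ≤ Δ → 1 ≤ τ → τ ^ η ≤ τ / Δ → 1 ≤ a → 1 ≤ b → (a : ℝ) * b ≤ τ →
    ‖Jt τ Δ a b - 2 * Real.pi * ((((b : ℝ) / a) ^ (1 / 2 : ℝ) : ℝ) : ℂ) *
        ∑' n : ℕ, ((d3 n : ℕ) : ℂ) * ee (-(n * b / a)) * (GG τ Δ (n * b / a) : ℂ)‖ ≤
      C * (τ / Δ) ^ 20 * τ ^ ε * (a : ℝ) ^ (1 / 2 : ℝ) := by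
  obtain ⟨CJ, hCJ, hJ⟩ := jform
  obtain ⟨C1, hC1, hcmp⟩ := wf_cmp
  obtain ⟨CE, hCE, hE⟩ := exp_bd η hη
  set m : ℕ := ⌈4 / η⌉₊ with hm
  have hm1 : 4 / η ≤ m := Nat.le_ceil _
  have hm2 : 8 ≤ 2 * m * η := by
    rw [div_le_iff₀ hη] at hm1
    linarith
  obtain ⟨Ck, hCk, htail⟩ := wf_tail (m + 2)
  set e' : ℝ := min (ε / 2) 1 with he'
  have he0 : 0 < e' := lt_min (by positivity) one_pos
  have he1 : e' ≤ 1 := min_le_right _ _
  have he2 : e' ≤ ε / 2 := min_le_left _ _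
  obtain ⟨C3, hC3, hsum⟩ := sum_d3_le e' he0
  have hS2 : Summable (fun n : ℕ => (d3 n : ℝ) * (n : ℝ) ^ (-2 : ℝ)) := d3_summable (by norm_num)
  set S : ℝ := ∑' n : ℕ, (d3 n : ℝ) * (n : ℝ) ^ (-2 : ℝ) with hS
  have hS0 : 0 ≤ S := tsum_nonneg fun n => by positivity
  have hpi := Real.pi_pos
  set D1 : ℝ := 2 * C1 + 2 * Real.pi * CE with hD1
  set D2 : ℝ := Ck + 2 * Real.pi * (m + 2).factorial with hD2
  have hD10 : 0 < D1 := by positivity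
  have hD20 : 0 < D2 := by positivity
  refine ⟨CJ * CE + D1 * C3 + D2 * S, by positivity, ?_⟩
  intro τ Δ a b hΔ hτ1 hV ha hb hab
  have hΔ0 : 0 < Δ := by linarith
  have hτ0 : 0 < τ := by linarith
  have ha1 : (1 : ℝ) ≤ a := by exact_mod_cast ha
  have hb1 : (1 : ℝ) ≤ b := by exact_mod_cast hb
  have ha0 : (0 : ℝ) < a := by linarith
  have hb0 : (0 : ℝ) < b := by linarith
  have haτ : (a : ℝ) ≤ τ := by nlinarith
  have hbτ : (b : ℝ) ≤ τ := by nlinarith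
  have hV1 : 1 ≤ τ / Δ := (Real.one_le_rpow hτ1 hη.le).trans hV
  have hτ : Δ ≤ τ := (one_le_div hΔ0).1 hV1
  obtain ⟨hWs, hJb⟩ := hJ τ Δ a b hΔ hτ ha hb
  set V : ℝ := τ / Δ with hVd
  have hV0 : 0 < V := by linarith
  set N : ℝ := τ * V ^ 2 * a / b with hN
  have hN0 : 0 ≤ N := by positivity
  set f : ℕ → ℂ := fun n => ((d3 n : ℕ) : ℂ) * RR τ Δ (n * b / a) with hf
  set g : ℕ → ℝ := fun n => (if n ∈ Finset.Icc 1 ⌊N⌋₊ then D1 * (V ^ 3 / Δ) * (d3 n : ℝ) else 0) +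
    D2 * (1 / τ) * ((d3 n : ℝ) * (n : ℝ) ^ (-2 : ℝ)) with hg
  have hfg : ∀ n : ℕ, ‖f n‖ ≤ g n := by
    intro n
    rcases Nat.eq_zero_or_pos n with rfl | hn
    · simp [hf, hg, d3]
    have hn1 : (1 : ℝ) ≤ n := by exact_mod_cast hn
    have hn0 : (0 : ℝ) < n := by linarith
    have hYpos : 0 < (n : ℝ) * b / a := by positivity
    have hfn : ‖f n‖ = (d3 n : ℝ) * ‖RR τ Δ (n * b / a)‖ := by
      rw [hf]
      simp only
      rw [norm_mul, Complex.norm_natCast]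
    rw [hfn]
    by_cases hnN : n ∈ Finset.Icc 1 ⌊N⌋₊
    · have h1 : (n : ℝ) ≤ N := (Nat.le_floor_iff hN0).1 (Finset.mem_Icc.1 hnN).2
      have h2 : (n : ℝ) * b / a ≤ τ * V ^ 2 := by
        rw [hN, le_div_iff₀ hb0] at h1
        rw [div_le_iff₀ ha0]
        exact h1
      have h3 := rr_small hC1 hCE hcmp hE hΔ hτ hV hYpos h2
      have h4 : 0 ≤ D2 * (1 / τ) * ((d3 n : ℝ) * (n : ℝ) ^ (-2 : ℝ)) := by positivity
      simp only [hg, if_pos hnN]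
      calc (d3 n : ℝ) * ‖RR τ Δ (n * b / a)‖ ≤ (d3 n : ℝ) * (D1 * (V ^ 3 / Δ)) :=
            mul_le_mul_of_nonneg_left h3 (Nat.cast_nonneg _)
        _ = D1 * (V ^ 3 / Δ) * (d3 n : ℝ) := by ring
        _ ≤ _ := le_add_of_nonneg_right h4
    · have h1 : N < n := by
        rw [Finset.mem_Icc, not_and] at hnN
        have := hnN hn
        exact (Nat.floor_lt hN0).1 (not_le.1 this)
      have h2 : τ * V ^ 2 ≤ (n : ℝ) * b / a := by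
        rw [hN, div_lt_iff₀ hb0] at h1
        rw [le_div_iff₀ ha0]
        exact h1.le
      have h3 := rr_large hm2 hCk htail hΔ hτ hV h2
      have h4 : 1 / (τ ^ 3 * ((n : ℝ) * b / a) ^ 2) ≤ 1 / τ * (n : ℝ) ^ (-2 : ℝ) := by
        have e : (n : ℝ) ^ (-2 : ℝ) = 1 / (n : ℝ) ^ 2 := by
          rw [Real.rpow_neg hn0.le, one_div]
          congr 1
          rw [← Real.rpow_natCast]
          norm_num
        rw [e, one_div_mul_one_div]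
        apply one_div_le_one_div_of_le (by positivity)
        have h5 : (a : ℝ) ^ 2 ≤ τ ^ 2 := pow_le_pow_left₀ ha0.le haτ 2
        have h6 : 1 ≤ (b : ℝ) ^ 2 := one_le_pow₀ hb1
        have h7 : 1 ≤ τ ^ 2 * (b : ℝ) ^ 2 / a ^ 2 := by
          rw [le_div_iff₀ (by positivity)]
          nlinarith [sq_nonneg τ]
        calc τ * (n : ℝ) ^ 2 = (τ * (n : ℝ) ^ 2) * 1 := (mul_one _).symm
          _ ≤ (τ * (n : ℝ) ^ 2) * (τ ^ 2 * (b : ℝ) ^ 2 / a ^ 2) :=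
              mul_le_mul_of_nonneg_left h7 (by positivity)
          _ = _ := by ring
      simp only [hg, if_neg hnN, zero_add]
      calc (d3 n : ℝ) * ‖RR τ Δ (n * b / a)‖ ≤ (d3 n : ℝ) * (D2 * (1 / τ * (n : ℝ) ^ (-2 : ℝ))) :=
            mul_le_mul_of_nonneg_left (h3.trans (mul_le_mul_of_nonneg_left h4 hD20.le)) (Nat.cast_nonneg _)
        _ = _ := by ring
  have hg1 : Summable (fun n : ℕ => if n ∈ Finset.Icc 1 ⌊N⌋₊ then D1 * (V ^ 3 / Δ) * (d3 n : ℝ) else 0) :=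
    summable_of_ne_finset_zero (s := Finset.Icc 1 ⌊N⌋₊) (fun n hn => if_neg hn)
  have hg2 : Summable (fun n : ℕ => D2 * (1 / τ) * ((d3 n : ℝ) * (n : ℝ) ^ (-2 : ℝ))) := hS2.mul_left _
  have hgs : Summable g := hg1.add hg2
  have hgt : ∑' n, g n ≤ D1 * (V ^ 3 / Δ) * (C3 * N ^ (1 + e')) + D2 * (1 / τ) * S := by
    rw [hg, hg1.tsum_add hg2, tsum_mul_left]
    apply add_le_add _ le_rfl
    rw [tsum_eq_sum (s := Finset.Icc 1 ⌊N⌋₊) (fun n hn => if_neg hn)]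
    rw [Finset.sum_congr rfl (fun n hn => if_pos hn), ← Finset.mul_sum]
    exact mul_le_mul_of_nonneg_left (hsum N hN0) (by positivity)
  have hfs : Summable (fun n => ‖f n‖) := Summable.of_nonneg_of_le (fun _ => norm_nonneg _) hfg hgs
  have hft : ‖∑' n, f n‖ ≤ D1 * (V ^ 3 / Δ) * (C3 * N ^ (1 + e')) + D2 * (1 / τ) * S :=
    (norm_tsum_le_tsum_norm hfs).trans ((hfs.tsum_le_tsum hfg hgs).trans hgt)
  have hWs2 : Summable (fun n : ℕ => ((d3 n : ℕ) : ℂ) * Wf τ Δ (n * b / a)) := by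
    apply Summable.of_norm
    refine hWs.congr fun n => ?_
    rw [norm_mul, Complex.norm_natCast]
  have hfs2 : Summable f := Summable.of_norm hfs
  have hGs : ∑' n : ℕ, f n = (∑' n : ℕ, ((d3 n : ℕ) : ℂ) * Wf τ Δ (n * b / a)) -
      2 * Real.pi * ∑' n : ℕ, ((d3 n : ℕ) : ℂ) * ee (-(n * b / a)) * (GG τ Δ (n * b / a) : ℂ) := by
    rw [← tsum_mul_left]
    have h1 : (fun n : ℕ => 2 * (Real.pi : ℂ) * (((d3 n : ℕ) : ℂ) * ee (-(n * b / a)) *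
        (GG τ Δ (n * b / a) : ℂ))) = fun n : ℕ => ((d3 n : ℕ) : ℂ) * Wf τ Δ (n * b / a) - f n := by
      funext n
      simp only [hf, RR]
      ring
    rw [h1, hWs2.tsum_sub hfs2]
    ring
  set B : ℝ := ((b : ℝ) / a) ^ (1 / 2 : ℝ) with hB
  have hB0 : 0 ≤ B := by positivity
  have hsplit : Jt τ Δ a b - 2 * Real.pi * ((B : ℝ) : ℂ) *
        ∑' n : ℕ, ((d3 n : ℕ) : ℂ) * ee (-(n * b / a)) * (GG τ Δ (n * b / a) : ℂ) =
      (Jt τ Δ a b - (B : ℂ) * ∑' n : ℕ, ((d3 n : ℕ) : ℂ) * Wf τ Δ (n * b / a)) +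
        (B : ℂ) * ∑' n : ℕ, f n := by
    rw [hGs]
    ring
  rw [hsplit]
  have hA1 : 1 ≤ (a : ℝ) ^ (1 / 2 : ℝ) := Real.one_le_rpow ha1 (by norm_num)
  have hτe : 1 ≤ τ ^ ε := Real.one_le_rpow hτ1 hε.le
  have hV20 : 1 ≤ V ^ 20 := one_le_pow₀ hV1
  set T : ℝ := V ^ 20 * τ ^ ε * (a : ℝ) ^ (1 / 2 : ℝ) with hT
  have hT1 : 1 ≤ T := by
    rw [hT]
    have : 1 ≤ V ^ 20 * τ ^ ε := one_le_mul_of_one_le_of_one_le hV20 hτe
    exact one_le_mul_of_one_le_of_one_le this hA1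
  have p1 : CJ * τ * a * b * Real.exp (-V ^ 2) ≤ CJ * CE * T := by
    have h1 := hE τ V hτ1 hV
    calc CJ * τ * a * b * Real.exp (-V ^ 2) = CJ * (τ * (a * b) * Real.exp (-V ^ 2)) := by ring
      _ ≤ CJ * (τ * τ * Real.exp (-V ^ 2)) := by
          apply mul_le_mul_of_nonneg_left _ hCJ.le
          apply mul_le_mul_of_nonneg_right _ (Real.exp_pos _).le
          exact mul_le_mul_of_nonneg_left hab hτ0.le
      _ = CJ * (τ ^ 2 * Real.exp (-V ^ 2)) := by ring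
      _ ≤ CJ * CE := mul_le_mul_of_nonneg_left h1 hCJ.le
      _ = CJ * CE * 1 := (mul_one _).symm
      _ ≤ _ := mul_le_mul_of_nonneg_left hT1 (by positivity)
  have hBb : B ≤ b := by
    have h1 : (b : ℝ) / a ≤ b := div_le_self hb0.le ha1
    calc B ≤ (b : ℝ) ^ (1 / 2 : ℝ) := Real.rpow_le_rpow (by positivity) h1 (by norm_num)
      _ ≤ (b : ℝ) ^ (1 : ℝ) := Real.rpow_le_rpow_of_exponent_le hb1 (by norm_num)
      _ = b := Real.rpow_one _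
  have p3 : B * (D2 * (1 / τ) * S) ≤ D2 * S * T := by
    have h1 : B * (1 / τ) ≤ 1 := by
      rw [mul_one_div, div_le_one hτ0]
      linarith
    calc B * (D2 * (1 / τ) * S) = (D2 * S) * (B * (1 / τ)) := by ring
      _ ≤ (D2 * S) * T := mul_le_mul_of_nonneg_left (h1.trans hT1) (by positivity)
  have p2 : B * (D1 * (V ^ 3 / Δ) * (C3 * N ^ (1 + e'))) ≤ D1 * C3 * T := by
    have hC30 : 0 < C3 := by linarith
    have h1 : B * (N ^ (1 + e')) * (V ^ 3 / Δ) ≤ T := by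
      set r : ℝ := (a : ℝ) / b with hr
      have hr0 : 0 < r := by positivity
      have hra : r ≤ a := div_le_self ha0.le hb1
      have hBr : B = r ^ (-(1 / 2) : ℝ) := by
        rw [hB, hr, Real.rpow_neg (by positivity), ← Real.inv_rpow (by positivity), inv_div]
      have hNr : N ^ (1 + e') = τ * τ ^ e' * (V ^ 2) ^ (1 + e') * r ^ (1 + e') := by
        have : N = τ * V ^ 2 * r := by rw [hN, hr]; ring
        rw [this, Real.mul_rpow (by positivity) hr0.le, Real.mul_rpow hτ0.le (by positivity),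
          Real.rpow_add hτ0, Real.rpow_one]
      have hV4 : (V ^ 2) ^ (1 + e') ≤ V ^ 4 := by
        have h2 : 1 ≤ V ^ 2 := one_le_pow₀ hV1
        calc (V ^ 2) ^ (1 + e') ≤ (V ^ 2) ^ (2 : ℝ) :=
              Real.rpow_le_rpow_of_exponent_le h2 (by linarith)
          _ = V ^ 4 := by
              rw [show (2 : ℝ) = ((2 : ℕ) : ℝ) by norm_num, Real.rpow_natCast]
              ring
      have hrr : r ^ (-(1 / 2) : ℝ) * r ^ (1 + e') ≤ (a : ℝ) ^ (1 / 2 : ℝ) * τ ^ e' := by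
        rw [← Real.rpow_add hr0]
        calc r ^ (-(1 / 2) + (1 + e')) = r ^ (1 / 2 + e') := by congr 1; ring
          _ ≤ (a : ℝ) ^ (1 / 2 + e') := Real.rpow_le_rpow hr0.le hra (by positivity)
          _ = (a : ℝ) ^ (1 / 2 : ℝ) * (a : ℝ) ^ e' := Real.rpow_add ha0 _ _
          _ ≤ _ := mul_le_mul_of_nonneg_left (Real.rpow_le_rpow ha0.le haτ he0.le) (by positivity)
      have hττ : τ ^ e' * τ ^ e' ≤ τ ^ ε := by
        rw [← Real.rpow_add hτ0]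
        exact Real.rpow_le_rpow_of_exponent_le hτ1 (by linarith)
      calc B * (N ^ (1 + e')) * (V ^ 3 / Δ)
          = (r ^ (-(1 / 2) : ℝ) * r ^ (1 + e')) * τ ^ e' * (V ^ 2) ^ (1 + e') * V ^ 3 * (τ / Δ) := by
            rw [hBr, hNr]; ring
        _ ≤ ((a : ℝ) ^ (1 / 2 : ℝ) * τ ^ e') * τ ^ e' * V ^ 4 * V ^ 3 * V := by
            rw [← hVd]
            apply mul_le_mul_of_nonneg_right _ hV0.le
            apply mul_le_mul_of_nonneg_right _ (by positivity)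
            apply mul_le_mul _ hV4 (by positivity) (by positivity)
            exact mul_le_mul_of_nonneg_right hrr (by positivity)
        _ = (a : ℝ) ^ (1 / 2 : ℝ) * (τ ^ e' * τ ^ e') * V ^ 8 := by ring
        _ ≤ (a : ℝ) ^ (1 / 2 : ℝ) * τ ^ ε * V ^ 20 := by
            apply mul_le_mul _ (pow_le_pow_right₀ hV1 (by norm_num)) (by positivity) (by positivity)
            exact mul_le_mul_of_nonneg_left hττ (by positivity)
        _ = T := by rw [hT]; ring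
    calc B * (D1 * (V ^ 3 / Δ) * (C3 * N ^ (1 + e'))) = D1 * C3 * (B * (N ^ (1 + e')) * (V ^ 3 / Δ)) := by
          ring
      _ ≤ _ := mul_le_mul_of_nonneg_left h1 (by positivity)
  calc ‖(Jt τ Δ a b - (B : ℂ) * ∑' n : ℕ, ((d3 n : ℕ) : ℂ) * Wf τ Δ (n * b / a)) +
        (B : ℂ) * ∑' n : ℕ, f n‖
      ≤ CJ * τ * a * b * Real.exp (-V ^ 2) +
        B * (D1 * (V ^ 3 / Δ) * (C3 * N ^ (1 + e')) + D2 * (1 / τ) * S) := by
        refine (norm_add_le _ _).trans (add_le_add hJb ?_)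
        rw [norm_mul, Complex.norm_real, Real.norm_of_nonneg hB0]
        exact mul_le_mul_of_nonneg_left hft hB0
    _ ≤ CJ * CE * T + (D1 * C3 * T + D2 * S * T) := by
        rw [mul_add]
        exact add_le_add p1 (add_le_add p2 p3)
    _ = (CJ * CE + D1 * C3 + D2 * S) * V ^ 20 * τ ^ ε * (a : ℝ) ^ (1 / 2 : ℝ) := by
        rw [hT]; ring

end Pool.Agent.P07318m
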