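import Pool.Agent.Lib.P07318m.Defs
import Pool.Agent.Lib.P07318m.DAux

/-!
# P07318m.KLoc: the function `Ka a z`: values and derivatives at `z = 1`, bounds

Local computations, `x = p^{-z}` (`x = 1/p` at `z = 1`), `v ≥ 1`, `Kl p v z = (Bp v x - p^{z-1} Bp (v-1) x)/(1-1/p)`:
* `Kl p v 1 = 1 + v(1-1/p)` (`Bp v x - Bp (v-1) x = (v+1) - (2v+1)x + v x² = (1-x)(v+1-vx)`);
* `(Kl p v)'(1) = -(v/2) log p · (v+1-(v+3)/p)`;
* `(Kl p v)''(1) = -(v/2) log² p · (v+1+(3v+5)/p)`.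
(With `θ = x d/dx`, `d/dz = -log p · θ` and `p^{z-1} = 1/(p x)`: `(1-1/p) Kl = Bp v x - (1/p)(c0/x - c1 + c2 x)`, `c0 = v(v+1)/2`, `c1 = (v-1)(v+1)`,
`c2 = v(v-1)/2`.) In particular, with `λ1 = Kl'/Kl`, `λ2 = Kl''/Kl - λ1²` at `1`:
`λ1 = -(v/2) log p (1 - 3/(p(v+1-v/p)))`, so `|λ1 + (v/2) log p| ≤ 3/2 · v log p/p`;
`λ2 = -(v/2+v²/4) log² p (1+O(1/p))`, so for `v = 1`: `|λ2 + 3/4 log² p| ≤ C log² p / p`, for `v ≥ 2`: `|λ2 + 3/4 log² p| ≤ C v² log² p`.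
* `Ka = ∏ Kl`: `Ka a 1 = hh a > 0`; `(Ka a)'(1) = hh a · Σ λ1`, `(Ka a)''(1) = hh a ((Σ λ1)² + Σ λ2)` (logarithmic derivative of a finite product;
`Σ over p | a` with `v = v_p(a)`). `Σ v log p = log a`. So `|Σ λ1 + ½ log a| ≤ C Σ v log p/p ≤ C min(dl a, log a)`,
`|(Σλ1)² - ¼ log² a| ≤ C log a · dl a`, `|Σ λ2 + ¾ sg a| ≤ C log a · dl a` (`log p ≤ log a`, definition of `dl`).
* bounds: for `Re z = 1/2`: `|x| ≤ 1`, `|Bp v x| ≤ 3(v+1)²`, `|p^{z-1}| ≤ 1`, `1-1/p ≥ 1/2`: `|Kl p v z| ≤ 12 (v+1)²`, `DAux.prod_le`.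
-/

set_option autoImplicit false

open MeasureTheory Complex

namespace Pool.Agent.P07318m

namespace KLocAux

/-- real value at 1 -/
noncomputable def kr (p v : ℕ) : ℝ := 1 + (v : ℝ) * (1 - 1 / (p : ℝ))

/-- logarithmic derivative at 1 -/
noncomputable def al (p v : ℕ) : ℝ :=
  -((v : ℝ) / 2) * Real.log p * ((v : ℝ) + 1 - ((v : ℝ) + 3) / p) / kr p v

/-- second derivative over value at 1 -/
noncomputable def be (p v : ℕ) : ℝ :=
  -((v : ℝ) / 2) * Real.log p ^ 2 * ((v : ℝ) + 1 + (3 * (v : ℝ) + 5) / p) / kr p v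

noncomputable def k0 (p v : ℕ) : ℂ :=
  (((v : ℂ) + 1) * ((v : ℂ) + 2) / 2 + ((v : ℂ) - 1) * ((v : ℂ) + 1) / p) / (1 - 1 / (p : ℂ))
noncomputable def k1 (p v : ℕ) : ℂ :=
  -((v : ℂ) * ((v : ℂ) + 2) + ((v : ℂ) - 1) * (v : ℂ) / 2 / p) / (1 - 1 / (p : ℂ))
noncomputable def k2 (p v : ℕ) : ℂ :=
  ((v : ℂ) * ((v : ℂ) + 1) / 2) / (1 - 1 / (p : ℂ))
noncomputable def k3 (p v : ℕ) : ℂ :=
  -((v : ℂ) * ((v : ℂ) + 1) / 2 / p) / (1 - 1 / (p : ℂ))

/-- the exponential form -/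
noncomputable def kf (p v : ℕ) (z : ℂ) : ℂ :=
  k0 p v + k1 p v * cexp (-(Real.log p : ℂ) * z) + k2 p v * cexp (-(2 * Real.log p : ℂ) * z) +
    k3 p v * cexp ((Real.log p : ℂ) * z)

theorem pne {p : ℕ} (hp : p.Prime) : (p : ℂ) ≠ 0 ∧ (p : ℂ) - 1 ≠ 0 ∧ (1 - 1 / (p : ℂ)) ≠ 0 := by
  have hp0 : (p : ℂ) ≠ 0 := by exact_mod_cast hp.ne_zero
  have hp1 : (p : ℂ) - 1 ≠ 0 := by
    intro h
    have : (p : ℂ) = ((1 : ℕ) : ℂ) := by simpa using sub_eq_zero.mp h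
    exact hp.one_lt.ne' (by exact_mod_cast this)
  refine ⟨hp0, hp1, ?_⟩
  intro h; apply hp1
  have h2 : (p : ℂ) * (1 - 1 / (p : ℂ)) = 0 := by rw [h, mul_zero]
  rw [mul_sub, mul_one, mul_one_div_cancel hp0] at h2
  exact h2

theorem Kl_eq {p : ℕ} (hp : p.Prime) {v : ℕ} (hv : 1 ≤ v) (z : ℂ) : Kl p v z = kf p v z := by
  have hp0 : (p : ℂ) ≠ 0 := by exact_mod_cast hp.ne_zero
  have hx : (p : ℂ) ^ (-z) = cexp (-(Real.log p : ℂ) * z) := by
    rw [Complex.cpow_def_of_ne_zero hp0, ← Complex.natCast_log]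
    congr 1; ring
  have hy : (p : ℂ) ^ (z - 1) = cexp ((Real.log p : ℂ) * z) / p := by
    rw [Complex.cpow_sub _ _ hp0, Complex.cpow_one, Complex.cpow_def_of_ne_zero hp0, ← Complex.natCast_log]
  have hmul : cexp (-(Real.log p : ℂ) * z) * cexp ((Real.log p : ℂ) * z) = 1 := by
    rw [← Complex.exp_add]; simp
  have hsq : cexp (-(2 * Real.log p : ℂ) * z) = cexp (-(Real.log p : ℂ) * z) ^ 2 := by
    rw [← Complex.exp_nat_mul]; congr 1; push_cast; ring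
  have hv1 : ((v - 1 : ℕ) : ℂ) = (v : ℂ) - 1 := by
    rw [Nat.cast_sub hv]; simp
  unfold Kl kf Bp k0 k1 k2 k3
  rw [hx, hy, hsq, hv1]
  set x := cexp (-(Real.log p : ℂ) * z) with hxd
  set y := cexp ((Real.log p : ℂ) * z) with hyd
  have e1 : x * y = 1 := hmul
  have key : (((v : ℂ) + 1) * ((v : ℂ) + 2) / 2 - (v : ℂ) * ((v : ℂ) + 2) * x + (v : ℂ) * ((v : ℂ) + 1) / 2 * x ^ 2) -
      y / p * ((((v : ℂ) - 1) + 1) * (((v : ℂ) - 1) + 2) / 2 - ((v : ℂ) - 1) * (((v : ℂ) - 1) + 2) * x +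
        ((v : ℂ) - 1) * (((v : ℂ) - 1) + 1) / 2 * x ^ 2) =
      (((v : ℂ) + 1) * ((v : ℂ) + 2) / 2 + ((v : ℂ) - 1) * ((v : ℂ) + 1) / p) +
      (-((v : ℂ) * ((v : ℂ) + 2) + ((v : ℂ) - 1) * (v : ℂ) / 2 / p)) * x +
      ((v : ℂ) * ((v : ℂ) + 1) / 2) * x ^ 2 + (-((v : ℂ) * ((v : ℂ) + 1) / 2 / p)) * y := by
    have e2 : x ^ 2 * y = x := by linear_combination x * e1
    field_simp
    linear_combination (2 * ((v:ℂ) - 1) * ((v:ℂ) + 1)) * e1 - (((v:ℂ) - 1) * v) * e2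
  rw [key]
  ring

theorem kf_hasDeriv (p v : ℕ) (z : ℂ) : HasDerivAt (kf p v)
    (-(Real.log p : ℂ) * k1 p v * cexp (-(Real.log p : ℂ) * z) +
      -(2 * Real.log p : ℂ) * k2 p v * cexp (-(2 * Real.log p : ℂ) * z) +
      (Real.log p : ℂ) * k3 p v * cexp ((Real.log p : ℂ) * z)) z := by
  have h : ∀ c k : ℂ, HasDerivAt (fun z : ℂ => k * cexp (c * z)) (c * k * cexp (c * z)) z := by
    intro c k
    have h1 : HasDerivAt (fun z : ℂ => c * z) c z := by simpa using (hasDerivAt_id z).const_mul c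
    exact ((h1.cexp).const_mul k).congr_deriv (by ring)
  have := ((((h (-(Real.log p : ℂ)) (k1 p v)).const_add (k0 p v))).add (h (-(2 * Real.log p : ℂ)) (k2 p v))).add
    (h (Real.log p : ℂ) (k3 p v))
  exact this

noncomputable def kf' (p v : ℕ) (z : ℂ) : ℂ :=
  -(Real.log p : ℂ) * k1 p v * cexp (-(Real.log p : ℂ) * z) +
      -(2 * Real.log p : ℂ) * k2 p v * cexp (-(2 * Real.log p : ℂ) * z) +
      (Real.log p : ℂ) * k3 p v * cexp ((Real.log p : ℂ) * z)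

theorem kf'_hasDeriv (p v : ℕ) (z : ℂ) : HasDerivAt (kf' p v)
    ((Real.log p : ℂ) ^ 2 * k1 p v * cexp (-(Real.log p : ℂ) * z) +
      (2 * Real.log p : ℂ) ^ 2 * k2 p v * cexp (-(2 * Real.log p : ℂ) * z) +
      (Real.log p : ℂ) ^ 2 * k3 p v * cexp ((Real.log p : ℂ) * z)) z := by
  have h : ∀ c k : ℂ, HasDerivAt (fun z : ℂ => k * cexp (c * z)) (c * k * cexp (c * z)) z := by
    intro c k
    have h1 : HasDerivAt (fun z : ℂ => c * z) c z := by simpa using (hasDerivAt_id z).const_mul c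
    exact ((h1.cexp).const_mul k).congr_deriv (by ring)
  have := ((h (-(Real.log p : ℂ)) (-(Real.log p : ℂ) * k1 p v)).add
    (h (-(2 * Real.log p : ℂ)) (-(2 * Real.log p : ℂ) * k2 p v))).add
    (h (Real.log p : ℂ) ((Real.log p : ℂ) * k3 p v))
  exact this.congr_deriv (by ring)

theorem kf_deriv (p v : ℕ) : deriv (kf p v) = kf' p v := by
  funext z; exact (kf_hasDeriv p v z).deriv

theorem Kl_fun {p : ℕ} (hp : p.Prime) {v : ℕ} (hv : 1 ≤ v) : Kl p v = kf p v := by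
  funext z; exact Kl_eq hp hv z

theorem Kl_differentiable {p : ℕ} (hp : p.Prime) {v : ℕ} (hv : 1 ≤ v) : Differentiable ℂ (Kl p v) := by
  rw [Kl_fun hp hv]; intro z; exact (kf_hasDeriv p v z).differentiableAt

theorem one_div_lt {p : ℕ} (hp : p.Prime) : 1 / (p : ℝ) ≤ 1 / 2 := by
  have : (2 : ℝ) ≤ p := by exact_mod_cast hp.two_le
  exact one_div_le_one_div_of_le (by norm_num) this

theorem kr_ge {p : ℕ} (hp : p.Prime) (v : ℕ) : 1 + (v : ℝ) / 2 ≤ kr p v := by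
  unfold kr
  have := one_div_lt hp
  have hv : (0 : ℝ) ≤ v := Nat.cast_nonneg v
  nlinarith

theorem kr_pos {p : ℕ} (hp : p.Prime) (v : ℕ) : 0 < kr p v := by
  have := kr_ge hp v
  have hv : (0 : ℝ) ≤ v := Nat.cast_nonneg v
  linarith

theorem exp_one {p : ℕ} (hp : p.Prime) : cexp (-(Real.log p : ℂ) * 1) = 1 / p ∧
    cexp (-(2 * Real.log p : ℂ) * 1) = 1 / (p : ℂ) ^ 2 ∧ cexp ((Real.log p : ℂ) * 1) = p := by
  have hp0 : (0 : ℝ) < p := by exact_mod_cast hp.pos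
  have h : cexp ((Real.log p : ℂ)) = p := by
    rw [← Complex.ofReal_exp, Real.exp_log hp0]; simp
  refine ⟨?_, ?_, ?_⟩
  · rw [mul_one, Complex.exp_neg, h]; simp
  · rw [mul_one, Complex.exp_neg, two_mul, Complex.exp_add, h]; simp [sq]
  · rw [mul_one, h]

theorem kval {p : ℕ} (hp : p.Prime) (v : ℕ) : kf p v 1 = (kr p v : ℂ) := by
  obtain ⟨h1, h2, h3⟩ := exp_one hp
  unfold kf k0 k1 k2 k3 kr
  rw [h1, h2, h3]
  obtain ⟨hp0, hp1, h1p⟩ := pne hp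
  push_cast
  field_simp
  ring

theorem kder {p : ℕ} (hp : p.Prime) (v : ℕ) : kf' p v 1 = ((kr p v * al p v : ℝ) : ℂ) := by
  obtain ⟨h1, h2, h3⟩ := exp_one hp
  have hk := (kr_pos hp v).ne'
  have : kr p v * al p v = -((v : ℝ) / 2) * Real.log p * ((v : ℝ) + 1 - ((v : ℝ) + 3) / p) := by
    unfold al; field_simp
  rw [this]
  unfold kf' k1 k2 k3
  rw [h1, h2, h3]
  obtain ⟨hp0, hp1, h1p⟩ := pne hp
  push_cast
  field_simp
  ring

theorem kder2 {p : ℕ} (hp : p.Prime) (v : ℕ) :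
    ((Real.log p : ℂ) ^ 2 * k1 p v * cexp (-(Real.log p : ℂ) * 1) +
      (2 * Real.log p : ℂ) ^ 2 * k2 p v * cexp (-(2 * Real.log p : ℂ) * 1) +
      (Real.log p : ℂ) ^ 2 * k3 p v * cexp ((Real.log p : ℂ) * 1)) = ((kr p v * be p v : ℝ) : ℂ) := by
  obtain ⟨h1, h2, h3⟩ := exp_one hp
  have hk := (kr_pos hp v).ne'
  have : kr p v * be p v = -((v : ℝ) / 2) * Real.log p ^ 2 * ((v : ℝ) + 1 + (3 * (v : ℝ) + 5) / p) := by
    unfold be; field_simp
  rw [this]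
  unfold k1 k2 k3
  rw [h1, h2, h3]
  obtain ⟨hp0, hp1, h1p⟩ := pne hp
  push_cast
  field_simp
  ring


theorem prodDeriv {ι : Type*} [DecidableEq ι] (S : Finset ι) (K : ι → ℂ → ℂ) (k α β : ι → ℂ)
    (hd : ∀ i ∈ S, Differentiable ℂ (K i)) (h0 : ∀ i ∈ S, K i 1 = k i)
    (h1 : ∀ i ∈ S, deriv (K i) 1 = k i * α i) (h2 : ∀ i ∈ S, deriv (deriv (K i)) 1 = k i * β i) :
    Differentiable ℂ (fun z => ∏ i ∈ S, K i z) ∧ (∏ i ∈ S, K i 1 = ∏ i ∈ S, k i) ∧
      deriv (fun z => ∏ i ∈ S, K i z) 1 = (∏ i ∈ S, k i) * ∑ i ∈ S, α i ∧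
      deriv (deriv (fun z => ∏ i ∈ S, K i z)) 1 =
        (∏ i ∈ S, k i) * ((∑ i ∈ S, α i) ^ 2 + ∑ i ∈ S, (β i - α i ^ 2)) := by
  induction S using Finset.induction_on with
  | empty => simp
  | insert a S ha ih =>
    obtain ⟨i1, i2, i3, i4⟩ := ih (fun i hi => hd i (Finset.mem_insert_of_mem hi))
      (fun i hi => h0 i (Finset.mem_insert_of_mem hi)) (fun i hi => h1 i (Finset.mem_insert_of_mem hi))
      (fun i hi => h2 i (Finset.mem_insert_of_mem hi))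
    have hda := hd a (Finset.mem_insert_self a S)
    have h0a := h0 a (Finset.mem_insert_self a S)
    have h1a := h1 a (Finset.mem_insert_self a S)
    have h2a := h2 a (Finset.mem_insert_self a S)
    have hf : (fun z => ∏ i ∈ insert a S, K i z) = fun z => K a z * (∏ i ∈ S, K i z) := by
      funext z; rw [Finset.prod_insert ha]
    set g : ℂ → ℂ := fun z => ∏ i ∈ S, K i z with hg
    have hf1 : deriv (fun z => K a z * g z) = fun z => deriv (K a) z * g z + K a z * deriv g z := by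
      funext z
      exact deriv_fun_mul (hda z) (i1 z)
    have hdd : ∀ z, DifferentiableAt ℂ (deriv (K a)) z := fun z => ((hda.analyticAt z).deriv).differentiableAt
    have hdg : ∀ z, DifferentiableAt ℂ (deriv g) z := fun z => ((i1.analyticAt z).deriv).differentiableAt
    have hf2 : deriv (fun z => deriv (K a) z * g z + K a z * deriv g z) 1 =
        (deriv (deriv (K a)) 1 * g 1 + deriv (K a) 1 * deriv g 1) +
          (deriv (K a) 1 * deriv g 1 + K a 1 * deriv (deriv g) 1) := by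
      exact (((hdd 1).hasDerivAt.mul (i1 1).hasDerivAt).add ((hda 1).hasDerivAt.mul (hdg 1).hasDerivAt)).deriv
    have g1 : g 1 = ∏ i ∈ S, k i := i2
    refine ⟨?_, ?_, ?_, ?_⟩
    · rw [hf]; exact hda.mul i1
    · rw [Finset.prod_insert ha, Finset.prod_insert ha, h0a, i2]
    · rw [hf, hf1, Finset.prod_insert ha, Finset.sum_insert ha]
      simp only
      rw [h1a, h0a, i3, g1]; ring
    · rw [hf, hf1, hf2, Finset.prod_insert ha, Finset.sum_insert ha, Finset.sum_insert ha, h2a, h1a, h0a, i3, i4, g1]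
      ring

theorem fac_pos {a p : ℕ} (hp : p ∈ a.primeFactors) : p.Prime ∧ 1 ≤ a.factorization p := by
  have h1 := Nat.prime_of_mem_primeFactors hp
  refine ⟨h1, ?_⟩
  have := Nat.dvd_of_mem_primeFactors hp
  have ha : a ≠ 0 := by
    rintro rfl; simp at hp
  exact h1.factorization_pos_of_dvd ha this

theorem main (a : ℕ) : Differentiable ℂ (Ka a) ∧ Ka a 1 = (hh a : ℂ) ∧
    deriv (Ka a) 1 = ((hh a * ∑ p ∈ a.primeFactors, al p (a.factorization p) : ℝ) : ℂ) ∧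
    deriv (deriv (Ka a)) 1 = ((hh a * ((∑ p ∈ a.primeFactors, al p (a.factorization p)) ^ 2 +
      ∑ p ∈ a.primeFactors, (be p (a.factorization p) - al p (a.factorization p) ^ 2)) : ℝ) : ℂ) := by
  have hK : Ka a = fun z => ∏ p ∈ a.primeFactors, Kl p (a.factorization p) z := rfl
  have hh' : (hh a : ℂ) = ∏ p ∈ a.primeFactors, ((kr p (a.factorization p) : ℝ) : ℂ) := by
    unfold hh; rw [Complex.ofReal_prod]; rfl
  obtain ⟨h1, h2, h3, h4⟩ := prodDeriv a.primeFactors (fun p => Kl p (a.factorization p))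
    (fun p => ((kr p (a.factorization p) : ℝ) : ℂ)) (fun p => ((al p (a.factorization p) : ℝ) : ℂ))
    (fun p => ((be p (a.factorization p) : ℝ) : ℂ))
    (fun p hp => Kl_differentiable (fac_pos hp).1 (fac_pos hp).2)
    (fun p hp => by rw [Kl_fun (fac_pos hp).1 (fac_pos hp).2]; exact kval (fac_pos hp).1 _)
    (fun p hp => by
      rw [Kl_fun (fac_pos hp).1 (fac_pos hp).2, kf_deriv, kder (fac_pos hp).1]; push_cast; rfl)
    (fun p hp => by
      rw [Kl_fun (fac_pos hp).1 (fac_pos hp).2, kf_deriv, (kf'_hasDeriv p _ 1).deriv, kder2 (fac_pos hp).1]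
      push_cast; rfl)
  refine ⟨h1, ?_, ?_, ?_⟩
  · rw [hK, hh']; exact h2
  · rw [hK, h3, ← hh']; push_cast; rfl
  · rw [hK, h4, ← hh']; push_cast; rfl

theorem log_p_nonneg {p : ℕ} (_ : p.Prime) : 0 ≤ Real.log p := Real.log_natCast_nonneg p

theorem inv_p {p : ℕ} (hp : p.Prime) : 0 < 1 / (p : ℝ) := by
  have : (0 : ℝ) < p := by exact_mod_cast hp.pos
  positivity

/-- the summand of dl -/
noncomputable def tm (p v : ℕ) : ℝ := if v = 1 then Real.log p / p else (v : ℝ) ^ 2 * Real.log p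

theorem kr_eq (p v : ℕ) : kr p v = (v : ℝ) + 1 - v * (1 / (p : ℝ)) := by unfold kr; ring

theorem al_eq {p : ℕ} (hp : p.Prime) (v : ℕ) :
    al p v = -((v : ℝ) / 2) * Real.log p * (1 - 3 * (1 / (p : ℝ)) / kr p v) := by
  have hk := (kr_pos hp v).ne'
  have h : ((v : ℝ) + 1 - ((v : ℝ) + 3) / p) = kr p v - 3 * (1 / (p : ℝ)) := by rw [kr_eq]; ring
  unfold al
  rw [h]; field_simp

theorem al_bd {p : ℕ} (hp : p.Prime) {v : ℕ} (hv : 1 ≤ v) :
    |al p v + (v : ℝ) / 2 * Real.log p| ≤ 3 / 2 * tm p v ∧ |al p v| ≤ (v : ℝ) / 2 * Real.log p := by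
  have hL := log_p_nonneg hp
  have hx := inv_p hp
  have hx2 := one_div_lt hp
  have hk := kr_ge hp v
  have hv1 : (1 : ℝ) ≤ v := by exact_mod_cast hv
  have hk0 := kr_pos hp v
  set x := 1 / (p : ℝ) with hxd
  have r0 : 0 ≤ 3 * x / kr p v := by positivity
  have r1 : 3 * x / kr p v ≤ 1 := by rw [div_le_one hk0]; linarith
  have r2 : 3 * x / kr p v ≤ 3 * x := by
    rw [div_le_iff₀ hk0]; nlinarith
  have hvL : 0 ≤ (v : ℝ) / 2 * Real.log p := by positivity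
  constructor
  · have e : al p v + (v : ℝ) / 2 * Real.log p = (v : ℝ) / 2 * Real.log p * (3 * x / kr p v) := by
      rw [al_eq hp]; ring
    rw [e, abs_of_nonneg (mul_nonneg hvL r0)]
    unfold tm
    split_ifs with h
    · subst h
      have : Real.log p / p = Real.log p * x := by rw [hxd]; ring
      rw [this]
      calc ((1 : ℕ) : ℝ) / 2 * Real.log p * (3 * x / kr p 1) ≤ ((1 : ℕ) : ℝ) / 2 * Real.log p * (3 * x) :=
            mul_le_mul_of_nonneg_left r2 (by simpa using hvL)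
        _ = 3 / 2 * (Real.log p * x) := by push_cast; ring
    · calc (v : ℝ) / 2 * Real.log p * (3 * x / kr p v) ≤ (v : ℝ) / 2 * Real.log p * (3 * x) :=
            mul_le_mul_of_nonneg_left r2 hvL
        _ = 3 / 2 * ((v : ℝ) * Real.log p * x) := by ring
        _ ≤ 3 / 2 * ((v : ℝ) ^ 2 * Real.log p) := by
            have : (v : ℝ) * Real.log p * x ≤ (v : ℝ) * Real.log p * 1 := by
              apply mul_le_mul_of_nonneg_left (by linarith); positivity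
            have h3 : (v : ℝ) * Real.log p ≤ (v : ℝ) ^ 2 * Real.log p := by
              apply mul_le_mul_of_nonneg_right _ hL; nlinarith
            linarith
  · rw [al_eq hp, abs_mul, abs_mul, abs_neg, abs_of_nonneg (by positivity : (0 : ℝ) ≤ (v : ℝ) / 2), abs_of_nonneg hL,
      abs_of_nonneg (by linarith : (0 : ℝ) ≤ 1 - 3 * x / kr p v)]
    calc (v : ℝ) / 2 * Real.log p * (1 - 3 * x / kr p v) ≤ (v : ℝ) / 2 * Real.log p * 1 :=
          mul_le_mul_of_nonneg_left (by linarith) hvL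
      _ = _ := by ring

theorem be_bd {p : ℕ} (hp : p.Prime) {v : ℕ} (hv : 1 ≤ v) :
    |be p v - al p v ^ 2 + 3 / 4 * Real.log p ^ 2| ≤ 3 * (Real.log p * tm p v) := by
  have hL := log_p_nonneg hp
  have hx := inv_p hp
  have hx2 := one_div_lt hp
  have hk := kr_ge hp v
  have hv1 : (1 : ℝ) ≤ v := by exact_mod_cast hv
  have hk0 := kr_pos hp v
  have hp0 : (p : ℝ) ≠ 0 := by exact_mod_cast hp.ne_zero
  unfold tm
  split_ifs with h
  · subst h
    have e1 : kr p 1 = 2 - 1 / (p : ℝ) := by rw [kr_eq]; push_cast; ring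
    set x := 1 / (p : ℝ) with hxd
    have h2x : (0 : ℝ) < 2 - x := by linarith
    have e : be p 1 - al p 1 ^ 2 + 3 / 4 * Real.log p ^ 2 =
        -(Real.log p ^ 2 * (3 * x * (8 - x) / (4 * (2 - x) ^ 2))) := by
      unfold be
      rw [al_eq hp, e1, ← hxd]
      have : (3 * ((1 : ℕ) : ℝ) + 5) / p = 8 * x := by rw [hxd]; push_cast; ring
      rw [this]
      push_cast
      field_simp
      ring
    rw [e, abs_neg, abs_of_nonneg (by
      apply mul_nonneg (by positivity)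
      apply div_nonneg _ (by positivity)
      apply mul_nonneg (by positivity); linarith)]
    have : Real.log p * (Real.log p / p) = Real.log p ^ 2 * x := by rw [hxd]; ring
    rw [this]
    have h3 : 3 * x * (8 - x) / (4 * (2 - x) ^ 2) ≤ 3 * x := by
      rw [div_le_iff₀ (by positivity)]
      have : (8 - x) ≤ 4 * (2 - x) ^ 2 := by nlinarith
      calc 3 * x * (8 - x) ≤ 3 * x * (4 * (2 - x) ^ 2) := mul_le_mul_of_nonneg_left this (by positivity)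
        _ = _ := by ring
    calc Real.log p ^ 2 * (3 * x * (8 - x) / (4 * (2 - x) ^ 2)) ≤ Real.log p ^ 2 * (3 * x) :=
          mul_le_mul_of_nonneg_left h3 (by positivity)
      _ = 3 * (Real.log p ^ 2 * x) := by ring
  · have hv2 : (2 : ℝ) ≤ v := by
      have : 2 ≤ v := by omega
      exact_mod_cast this
    have h1 := (al_bd hp hv).2
    have ha2 : al p v ^ 2 ≤ ((v : ℝ) / 2 * Real.log p) ^ 2 := by
      rw [← sq_abs]; exact pow_le_pow_left₀ (abs_nonneg _) h1 2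
    have hb : |be p v| ≤ 5 / 2 * (v : ℝ) * Real.log p ^ 2 := by
      unfold be
      have e : -((v : ℝ) / 2) * Real.log p ^ 2 * ((v : ℝ) + 1 + (3 * (v : ℝ) + 5) / p) / kr p v =
          -((v : ℝ) / 2 * Real.log p ^ 2 * (((v : ℝ) + 1 + (3 * (v : ℝ) + 5) * (1 / p)) / kr p v)) := by ring
      have hq0 : 0 ≤ ((v : ℝ) + 1 + (3 * (v : ℝ) + 5) * (1 / p)) / kr p v := by positivity
      have hq : ((v : ℝ) + 1 + (3 * (v : ℝ) + 5) * (1 / p)) / kr p v ≤ 5 := by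
        rw [div_le_iff₀ hk0]
        have : (3 * (v : ℝ) + 5) * (1 / p) ≤ (3 * (v : ℝ) + 5) * (1 / 2) :=
          mul_le_mul_of_nonneg_left hx2 (by positivity)
        linarith
      rw [e, abs_neg, abs_of_nonneg (by positivity)]
      calc (v : ℝ) / 2 * Real.log p ^ 2 * (((v : ℝ) + 1 + (3 * (v : ℝ) + 5) * (1 / p)) / kr p v) ≤
            (v : ℝ) / 2 * Real.log p ^ 2 * 5 := mul_le_mul_of_nonneg_left hq (by positivity)
        _ = _ := by ring
    have hb' := abs_le.mp hb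
    have hL2 : 0 ≤ Real.log p ^ 2 := by positivity
    have hvL : (v : ℝ) * Real.log p ^ 2 ≤ (v : ℝ) ^ 2 / 2 * Real.log p ^ 2 := by
      apply mul_le_mul_of_nonneg_right _ hL2; nlinarith
    have h4 : 4 * Real.log p ^ 2 ≤ (v : ℝ) ^ 2 * Real.log p ^ 2 := by
      apply mul_le_mul_of_nonneg_right _ hL2; nlinarith
    have ha0 : 0 ≤ al p v ^ 2 := sq_nonneg _
    have e3 : 3 * (Real.log p * ((v : ℝ) ^ 2 * Real.log p)) = 3 * ((v : ℝ) ^ 2 * Real.log p ^ 2) := by ring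
    rw [e3, abs_le]
    have ha3 : ((v : ℝ) / 2 * Real.log p) ^ 2 = 1 / 4 * ((v : ℝ) ^ 2 * Real.log p ^ 2) := by ring
    rw [ha3] at ha2
    constructor <;> nlinarith

theorem log_le {a p : ℕ} (hp : p ∈ a.primeFactors) : Real.log p ≤ Real.log a := by
  have h1 := (fac_pos hp).1
  have ha : 0 < a := Nat.pos_of_ne_zero (by rintro rfl; simp at hp)
  exact Real.log_le_log (by exact_mod_cast h1.pos) (by exact_mod_cast Nat.le_of_dvd ha (Nat.dvd_of_mem_primeFactors hp))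

theorem log_sum (a : ℕ) : Real.log a = ∑ p ∈ a.primeFactors, (a.factorization p : ℝ) * Real.log p := by
  rw [Real.log_nat_eq_sum_factorization]
  rfl

theorem tm_nonneg {p : ℕ} (hp : p.Prime) (v : ℕ) : 0 ≤ tm p v := by
  have hL := log_p_nonneg hp
  unfold tm; split_ifs <;> positivity

theorem dl_eq (a : ℕ) : dl a = ∑ p ∈ a.primeFactors, tm p (a.factorization p) := rfl

theorem sumA (a : ℕ) : |(∑ p ∈ a.primeFactors, al p (a.factorization p)) + Real.log a / 2| ≤ 3 / 2 * dl a ∧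
    |∑ p ∈ a.primeFactors, al p (a.factorization p)| ≤ Real.log a / 2 := by
  constructor
  · rw [log_sum, Finset.sum_div, ← Finset.sum_add_distrib, dl_eq, Finset.mul_sum]
    refine (Finset.abs_sum_le_sum_abs _ _).trans (Finset.sum_le_sum fun p hp => ?_)
    refine le_trans (le_of_eq ?_) (al_bd (fac_pos hp).1 (fac_pos hp).2).1
    congr 1
    ring
  · rw [log_sum, Finset.sum_div]
    refine (Finset.abs_sum_le_sum_abs _ _).trans (Finset.sum_le_sum fun p hp => ?_)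
    have := (al_bd (fac_pos hp).1 (fac_pos hp).2).2
    refine this.trans (le_of_eq (by ring))

theorem sumB (a : ℕ) : |(∑ p ∈ a.primeFactors, (be p (a.factorization p) - al p (a.factorization p) ^ 2)) +
    3 / 4 * sg a| ≤ 3 * (Real.log a * dl a) := by
  unfold sg
  rw [dl_eq, Finset.mul_sum, ← Finset.sum_add_distrib, Finset.mul_sum, Finset.mul_sum]
  refine (Finset.abs_sum_le_sum_abs _ _).trans (Finset.sum_le_sum fun p hp => ?_)
  refine (be_bd (fac_pos hp).1 (fac_pos hp).2).trans ?_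
  apply mul_le_mul_of_nonneg_left _ (by norm_num)
  exact mul_le_mul_of_nonneg_right (log_le hp) (tm_nonneg (fac_pos hp).1 _)

theorem norm_Bp (v : ℕ) {x : ℂ} (hx : ‖x‖ ≤ 1) : ‖Bp v x‖ ≤ 3 * ((v : ℝ) + 1) ^ 2 := by
  unfold Bp
  have n1 : ‖((v : ℂ) + 1) * ((v : ℂ) + 2) / 2‖ = ((v : ℝ) + 1) * ((v : ℝ) + 2) / 2 := by
    have : ((v : ℂ) + 1) * ((v : ℂ) + 2) / 2 = ((((v : ℝ) + 1) * ((v : ℝ) + 2) / 2 : ℝ) : ℂ) := by push_cast; ring
    rw [this, Complex.norm_real, Real.norm_of_nonneg (by positivity)]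
  have n2 : ‖(v : ℂ) * ((v : ℂ) + 2)‖ = (v : ℝ) * ((v : ℝ) + 2) := by
    have : (v : ℂ) * ((v : ℂ) + 2) = (((v : ℝ) * ((v : ℝ) + 2) : ℝ) : ℂ) := by push_cast; ring
    rw [this, Complex.norm_real, Real.norm_of_nonneg (by positivity)]
  have n3 : ‖(v : ℂ) * ((v : ℂ) + 1) / 2‖ = (v : ℝ) * ((v : ℝ) + 1) / 2 := by
    have : (v : ℂ) * ((v : ℂ) + 1) / 2 = (((v : ℝ) * ((v : ℝ) + 1) / 2 : ℝ) : ℂ) := by push_cast; ring
    rw [this, Complex.norm_real, Real.norm_of_nonneg (by positivity)]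
  have hx2 : ‖x ^ 2‖ ≤ 1 := by rw [norm_pow]; exact pow_le_one₀ (norm_nonneg _) hx
  calc ‖((v : ℂ) + 1) * ((v : ℂ) + 2) / 2 - (v : ℂ) * ((v : ℂ) + 2) * x + (v : ℂ) * ((v : ℂ) + 1) / 2 * x ^ 2‖
      ≤ ‖((v : ℂ) + 1) * ((v : ℂ) + 2) / 2 - (v : ℂ) * ((v : ℂ) + 2) * x‖ + ‖(v : ℂ) * ((v : ℂ) + 1) / 2 * x ^ 2‖ :=
        norm_add_le _ _
    _ ≤ ‖((v : ℂ) + 1) * ((v : ℂ) + 2) / 2‖ + ‖(v : ℂ) * ((v : ℂ) + 2) * x‖ + ‖(v : ℂ) * ((v : ℂ) + 1) / 2 * x ^ 2‖ := by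
        gcongr; exact norm_sub_le _ _
    _ ≤ ((v : ℝ) + 1) * ((v : ℝ) + 2) / 2 + (v : ℝ) * ((v : ℝ) + 2) * 1 + (v : ℝ) * ((v : ℝ) + 1) / 2 * 1 := by
        rw [norm_mul _ x, norm_mul _ (x ^ 2), n1, n2, n3]
        gcongr
    _ ≤ 3 * ((v : ℝ) + 1) ^ 2 := by
        have hv : (0 : ℝ) ≤ v := Nat.cast_nonneg v
        nlinarith

theorem norm_Kl {p : ℕ} (hp : p.Prime) (v : ℕ) {z : ℂ} (hz : 0 ≤ z.re) {R : ℝ} (hR : (p : ℝ) ^ (z.re - 1) ≤ R) :
    ‖Kl p v z‖ ≤ 6 * (1 + R) * ((v : ℝ) + 1) ^ 2 := by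
  have hp1 : (1 : ℝ) ≤ p := by exact_mod_cast hp.one_lt.le
  have hx : ‖(p : ℂ) ^ (-z)‖ ≤ 1 := by
    rw [Complex.norm_natCast_cpow_of_pos hp.pos]
    apply Real.rpow_le_one_of_one_le_of_nonpos hp1
    simpa using hz
  have hy : ‖(p : ℂ) ^ (z - 1)‖ ≤ R := by
    rw [Complex.norm_natCast_cpow_of_pos hp.pos]
    simpa using hR
  have hR0 : 0 ≤ R := (norm_nonneg _).trans hy
  have hd : ‖(1 - 1 / (p : ℂ))‖ = 1 - 1 / (p : ℝ) := by
    have : (1 - 1 / (p : ℂ)) = ((1 - 1 / (p : ℝ) : ℝ) : ℂ) := by push_cast; ring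
    rw [this, Complex.norm_real, Real.norm_of_nonneg]
    have := one_div_lt hp; linarith
  unfold Kl
  rw [norm_div, hd, div_le_iff₀ (by have := one_div_lt hp; linarith)]
  have h1 := norm_Bp v hx
  have h2 := norm_Bp (v - 1) hx
  have h3 : 3 * (((v - 1 : ℕ) : ℝ) + 1) ^ 2 ≤ 3 * ((v : ℝ) + 1) ^ 2 := by
    have : ((v - 1 : ℕ) : ℝ) ≤ v := by exact_mod_cast Nat.sub_le v 1
    gcongr
  calc ‖Bp v ((p : ℂ) ^ (-z)) - (p : ℂ) ^ (z - 1) * Bp (v - 1) ((p : ℂ) ^ (-z))‖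
      ≤ ‖Bp v ((p : ℂ) ^ (-z))‖ + ‖(p : ℂ) ^ (z - 1) * Bp (v - 1) ((p : ℂ) ^ (-z))‖ := norm_sub_le _ _
    _ ≤ 3 * ((v : ℝ) + 1) ^ 2 + R * (3 * ((v : ℝ) + 1) ^ 2) := by
        rw [norm_mul]
        gcongr
        exact h2.trans h3
    _ = (6 * (1 + R) * ((v : ℝ) + 1) ^ 2) * (1 / 2) := by ring
    _ ≤ (6 * (1 + R) * ((v : ℝ) + 1) ^ 2) * (1 - 1 / (p : ℝ)) := by
        have := one_div_lt hp
        apply mul_le_mul_of_nonneg_left (by linarith); positivity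

end KLocAux

open KLocAux

theorem ka_diff (a : ℕ) : Differentiable ℂ (Ka a) := (main a).1

theorem ka_one (a : ℕ) : Ka a 1 = (hh a : ℂ) := (main a).2.1

theorem ka_deriv : ∃ C : ℝ, 0 < C ∧ ∀ a : ℕ, 1 ≤ a →
    ‖deriv (Ka a) 1 + ((Real.log a / 2 * hh a : ℝ) : ℂ)‖ ≤ C * hh a * dl a := by
  refine ⟨3 / 2, by norm_num, fun a ha => ?_⟩
  have hh0 : 0 ≤ hh a := zero_le_one.trans (one_le_hh a)
  rw [(main a).2.2.1, ← Complex.ofReal_add, Complex.norm_real, Real.norm_eq_abs]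
  have e : hh a * ∑ p ∈ a.primeFactors, al p (a.factorization p) + Real.log a / 2 * hh a =
      hh a * ((∑ p ∈ a.primeFactors, al p (a.factorization p)) + Real.log a / 2) := by ring
  rw [e, abs_mul, abs_of_nonneg hh0]
  calc hh a * |(∑ p ∈ a.primeFactors, al p (a.factorization p)) + Real.log a / 2| ≤ hh a * (3 / 2 * dl a) :=
        mul_le_mul_of_nonneg_left (sumA a).1 hh0
    _ = _ := by ring

theorem ka_deriv2 : ∃ C : ℝ, 0 < C ∧ ∀ a : ℕ, 1 ≤ a →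
    ‖deriv (deriv (Ka a)) 1 - (((Real.log a ^ 2 / 4 - 3 / 4 * sg a) * hh a : ℝ) : ℂ)‖ ≤
      C * hh a * (1 + Real.log a) * dl a := by
  refine ⟨5, by norm_num, fun a ha => ?_⟩
  have hh0 : 0 ≤ hh a := zero_le_one.trans (one_le_hh a)
  have hl0 : 0 ≤ Real.log a := Real.log_natCast_nonneg a
  have hd0 := dl_nonneg a
  rw [(main a).2.2.2, ← Complex.ofReal_sub, Complex.norm_real, Real.norm_eq_abs]
  set A := ∑ p ∈ a.primeFactors, al p (a.factorization p) with hA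
  set B := ∑ p ∈ a.primeFactors, (be p (a.factorization p) - al p (a.factorization p) ^ 2) with hB
  have e : hh a * (A ^ 2 + B) - (Real.log a ^ 2 / 4 - 3 / 4 * sg a) * hh a =
      hh a * ((A + Real.log a / 2) * (A - Real.log a / 2) + (B + 3 / 4 * sg a)) := by ring
  rw [e, abs_mul, abs_of_nonneg hh0]
  have h1 := (sumA a).1
  have h2 := (sumA a).2
  have h3 := sumB a
  rw [← hA] at h1 h2
  rw [← hB] at h3
  have h4 : |A - Real.log a / 2| ≤ Real.log a := by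
    rw [abs_le] at h2 ⊢
    constructor <;> linarith
  have h5 : |(A + Real.log a / 2) * (A - Real.log a / 2)| ≤ 3 / 2 * dl a * Real.log a := by
    rw [abs_mul]
    exact mul_le_mul h1 h4 (abs_nonneg _) (by positivity)
  have h6 : |(A + Real.log a / 2) * (A - Real.log a / 2) + (B + 3 / 4 * sg a)| ≤ 5 * ((1 + Real.log a) * dl a) := by
    refine (abs_add_le _ _).trans ?_
    have : 0 ≤ Real.log a * dl a := mul_nonneg hl0 hd0
    nlinarith
  calc hh a * |(A + Real.log a / 2) * (A - Real.log a / 2) + (B + 3 / 4 * sg a)| ≤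
        hh a * (5 * ((1 + Real.log a) * dl a)) := mul_le_mul_of_nonneg_left h6 hh0
    _ = _ := by ring

theorem ka_half (ε : ℝ) (hε : 0 < ε) : ∃ C : ℝ, 0 < C ∧ ∀ (a : ℕ) (ξ : ℝ), 1 ≤ a →
    ‖Ka a (1 / 2 + ξ * I)‖ ≤ C * (a : ℝ) ^ ε := by
  obtain ⟨C, hC, h⟩ := prod_le 12 (by norm_num) 2 ε hε
  refine ⟨C, by linarith, fun a ξ ha => ?_⟩
  refine le_trans ?_ (h a ha)
  unfold Ka
  rw [norm_prod]
  refine Finset.prod_le_prod (fun _ _ => norm_nonneg _) fun p hp => ?_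
  have hre : (1 / 2 + ξ * I : ℂ).re = 1 / 2 := by simp
  have hp1 : (1 : ℝ) ≤ p := by exact_mod_cast (fac_pos hp).1.one_lt.le
  have := norm_Kl (fac_pos hp).1 (a.factorization p) (z := 1 / 2 + ξ * I) (by rw [hre]; norm_num) (R := 1) (by
    rw [hre]; exact Real.rpow_le_one_of_one_le_of_nonpos hp1 (by norm_num))
  refine this.trans (le_of_eq (by ring))

theorem ka_strip (a : ℕ) (ha : 1 ≤ a) : ∃ C : ℝ, 0 < C ∧ ∀ z : ℂ, 1 / 2 ≤ z.re → z.re ≤ 2 → ‖Ka a z‖ ≤ C := by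
  refine ⟨∏ p ∈ a.primeFactors, (6 * (1 + (p : ℝ)) * ((a.factorization p : ℝ) + 1) ^ 2),
    Finset.prod_pos fun p _ => by positivity, fun z h1 h2 => ?_⟩
  unfold Ka
  rw [norm_prod]
  refine Finset.prod_le_prod (fun _ _ => norm_nonneg _) fun p hp => ?_
  have hp1 : (1 : ℝ) ≤ p := by exact_mod_cast (fac_pos hp).1.one_lt.le
  refine norm_Kl (fac_pos hp).1 (a.factorization p) (by linarith) ?_
  calc (p : ℝ) ^ (z.re - 1) ≤ (p : ℝ) ^ (1 : ℝ) := Real.rpow_le_rpow_of_exponent_le hp1 (by linarith)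
    _ = p := Real.rpow_one _

end Pool.Agent.P07318m
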