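import Pool.Agent.Lib.P07318m.Defs
import Pool.Agent.Lib.P07318m.S2Up
import Pool.Agent.Lib.P07318m.DWt

/-!
# P07318m.S1Low: lower bound for the diagonal sum of the numerator

`S1 Y D ≥ (1733/64 · a3/9! - ε) (log Y)^9` for `D = δ log Y`, `δ` small, `Y` large.
PROOF. Notation of `S2Up`: `λ, ℓ`; `log(Y/b) - ℓ/2 = λ + ℓ/2`, the bracket is `B = (λ+ℓ/2)² - ¾ sg a`, `|B| ≤ L²` (`0 ≤ λ+ℓ/2 ≤ L`, `0 ≤ sg a ≤ ℓ² ≤ L²`).
`Ph ≥ λ²+ℓλ - ℓ D/2` and `Ph ≤ λ²+ℓλ` (`ph_bounds`), so `Ph·B ≥ (λ²+ℓλ) B - (ℓ D/2) L² ≥ (λ²+ℓλ)B - δ L^4/2`.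
`∑_{PS Y} hh²/(ab) ≤ C (1+L)^5` (`e_sum` and `∑ 1/b ≤ 1+L`), so the loss is `≤ C δ L^4 (1+L)^5`.
`(λ²+ℓλ)(λ+ℓ/2)² = λ^4 + 2ℓλ^3 + 5/4 ℓ²λ² + 1/4 ℓ³λ`. Sum over `b` by `b_harm` (`j = 4,3,2,1`), `N = L - ℓ`:
`2 S1 ≥ ∑_{a≤√Y} g(a)[N^5/5 + ℓN^4/2 + 5/12 ℓ²N^3 + ℓ³N²/8] - ¾ ∑ g(a) sg(a) [N^3/3 + ℓN²/2] - C (1+L)^4 ∑ (hh²/a) Ea(a) - C δ L^9`
(for the `sg` part the `b_harm` error is `≤ C sg(a) Ea(a)(1+L)² + C ℓ sg(a) Ea(a)(1+L) ≤ C Ea(a) (1+L)^4`), then `f1_sum`, `d_wt`, `e_sum`: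
`3667/64 - 3/4 · 67/16 = 3466/64`, half of it is `1733/64`.
-/

set_option autoImplicit false

open MeasureTheory Complex Filter Topology

namespace Pool.Agent.P07318m

open S2UpAux

namespace S1LowAux

/-- The pointwise lower bound. -/
lemma point {Y D : ℝ} (hY : 1 ≤ Y) (hD : 0 < D) {p : ℕ × ℕ} (hp : p ∈ PS Y) :
    hh p.1 ^ 2 / ((p.1 : ℝ) * (p.2 : ℝ)) *
        ((Real.log (Y / (p.1 * p.2)) ^ 2 + Real.log p.1 * Real.log (Y / (p.1 * p.2))) *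
          ((Real.log (Y / (p.1 * p.2)) + Real.log p.1 / 2) ^ 2 - 3 / 4 * sg p.1) / 2) -
      D * Real.log Y ^ 3 / 4 * (hh p.1 ^ 2 / ((p.1 : ℝ) * (p.2 : ℝ))) ≤
    hh p.1 ^ 2 / ((p.1 : ℝ) * (p.2 : ℝ)) * Ph Y D p.1 p.2 *
      (((Real.log (Y / p.2) - Real.log p.1 / 2) ^ 2 - 3 / 4 * sg p.1) / 2) := by
  obtain ⟨b1, b2, b3⟩ := ph_bounds hD hp
  have hp' := hp
  unfold PS at hp'
  rw [Finset.mem_filter, Finset.mem_product, Finset.mem_Icc, Finset.mem_Icc] at hp'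
  obtain ⟨⟨⟨h1, -⟩, h3, -⟩, -, -, h7⟩ := hp'
  have h1' : (1 : ℝ) ≤ p.1 := by exact_mod_cast h1
  have h3' : (1 : ℝ) ≤ p.2 := by exact_mod_cast h3
  have hab : (0 : ℝ) < (p.1 : ℝ) * p.2 := by positivity
  have hx : 1 ≤ Y / ((p.1 : ℝ) * p.2) := by
    rw [le_div_iff₀ hab]
    linarith
  have hx0 : 0 < Y / ((p.1 : ℝ) * p.2) := by linarith
  have hlam := Real.log_nonneg hx
  have hell := Real.log_nonneg h1'
  have hb := Real.log_nonneg h3'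
  have hL := Real.log_nonneg hY
  have hY0 : (0 : ℝ) < Y := by linarith
  have hsum : Real.log (Y / (p.1 * p.2)) = Real.log Y - Real.log p.1 - Real.log p.2 := by
    rw [Real.log_div hY0.ne' hab.ne', Real.log_mul (by positivity) (by positivity)]
    ring
  have hYb : Real.log (Y / p.2) = Real.log (Y / (p.1 * p.2)) + Real.log p.1 := by
    rw [hsum, Real.log_div hY0.ne' (by positivity)]
    ring
  have hs0 := sg_nonneg p.1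
  have hs1 := sg_le p.1 h1
  rw [hYb]
  have hw : 0 ≤ hh p.1 ^ 2 / ((p.1 : ℝ) * (p.2 : ℝ)) := by positivity
  obtain ⟨w, ew⟩ : ∃ w : ℝ, w = hh p.1 ^ 2 / ((p.1 : ℝ) * (p.2 : ℝ)) := ⟨_, rfl⟩
  obtain ⟨ph, ep⟩ : ∃ ph : ℝ, ph = Ph Y D p.1 p.2 := ⟨_, rfl⟩
  obtain ⟨lam, el⟩ : ∃ lam : ℝ, lam = Real.log (Y / (p.1 * p.2)) := ⟨_, rfl⟩
  obtain ⟨ell, ee⟩ : ∃ ell : ℝ, ell = Real.log p.1 := ⟨_, rfl⟩
  obtain ⟨L, eL⟩ : ∃ L : ℝ, L = Real.log Y := ⟨_, rfl⟩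
  obtain ⟨s, es⟩ : ∃ s : ℝ, s = sg p.1 := ⟨_, rfl⟩
  rw [← el, ← eL, ← ee] at hsum
  rw [← el] at hlam
  rw [← ee] at hell
  rw [← eL] at hL
  rw [← es] at hs0 hs1
  rw [← ee] at hs1
  rw [← ep, ← el, ← ee] at b2 b3
  rw [← ew] at hw
  rw [← ep] at b1
  rw [← ew, ← ep, ← el, ← ee, ← eL, ← es]
  have hle : lam + ell ≤ L := by linarith
  have hB1 : (lam + ell / 2) ^ 2 - 3 / 4 * s ≤ L ^ 2 := by
    have : (lam + ell / 2) ^ 2 ≤ L ^ 2 := pow_le_pow_left₀ (by linarith) (by linarith) 2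
    linarith
  have hB2 : -L ^ 2 ≤ (lam + ell / 2) ^ 2 - 3 / 4 * s := by
    have h1 : ell ^ 2 ≤ L ^ 2 := pow_le_pow_left₀ hell (by linarith) 2
    nlinarith [sq_nonneg (lam + ell / 2)]
  obtain ⟨B, eB⟩ : ∃ B : ℝ, B = (lam + ell / 2) ^ 2 - 3 / 4 * s := ⟨_, rfl⟩
  have e1 : (lam + ell - ell / 2) ^ 2 - 3 / 4 * s = B := by
    rw [eB]
    ring
  rw [e1, ← eB]
  rw [← eB] at hB1 hB2
  have hd0 : 0 ≤ lam ^ 2 + ell * lam - ph := by linarith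
  have hd1 : lam ^ 2 + ell * lam - ph ≤ L * D / 2 := by
    have : ell * D ≤ L * D := mul_le_mul_of_nonneg_right (by linarith) hD.le
    linarith
  have key : (lam ^ 2 + ell * lam - ph) * B ≤ D * L ^ 3 / 2 := by
    calc (lam ^ 2 + ell * lam - ph) * B ≤ (lam ^ 2 + ell * lam - ph) * L ^ 2 :=
          mul_le_mul_of_nonneg_left hB1 hd0
      _ ≤ (L * D / 2) * L ^ 2 := mul_le_mul_of_nonneg_right hd1 (sq_nonneg L)
      _ = _ := by ring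
  have := mul_le_mul_of_nonneg_left key hw
  linarith

lemma sum_inv_le {Y : ℝ} (hY : 1 ≤ Y) {a : ℕ} (ha : a ∈ Finset.Icc 1 ⌊Real.sqrt Y⌋₊) :
    ∑ b ∈ (Finset.Icc 1 ⌊Y / a⌋₊).filter (fun b => b.Coprime a), (1 / (b : ℝ)) ≤
      1 + Real.log Y := by
  have ha' := ha
  rw [Finset.mem_Icc] at ha'
  have ha1 : (1 : ℝ) ≤ a := by exact_mod_cast ha'.1
  obtain ⟨l1, l2⟩ := log_le_of_mem hY ha
  have ha2 : (a : ℝ) ≤ Real.sqrt Y :=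
    (Nat.cast_le.mpr ha'.2).trans (Nat.floor_le (Real.sqrt_nonneg _))
  have ha3 : (a : ℝ) ≤ Y := by
    refine ha2.trans ?_
    rw [Real.sqrt_le_left (by linarith)]
    nlinarith
  have hX : 1 ≤ Y / a := by
    rw [le_div_iff₀ (by linarith)]
    linarith
  have h1 : ∑ b ∈ (Finset.Icc 1 ⌊Y / a⌋₊).filter (fun b => b.Coprime a), (1 / (b : ℝ)) ≤
      ∑ b ∈ Finset.Icc 1 ⌊Y / a⌋₊, (1 / (b : ℝ)) :=
    Finset.sum_le_sum_of_subset_of_nonneg (Finset.filter_subset _ _) fun _ _ _ => by positivity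
  have h2 := harmonic_floor_le_one_add_log (Y / a) hX
  have h3 : ((harmonic ⌊Y / a⌋₊ : ℚ) : ℝ) = ∑ b ∈ Finset.Icc 1 ⌊Y / a⌋₊, (1 / (b : ℝ)) := by
    rw [harmonic_eq_sum_Icc]
    push_cast
    exact Finset.sum_congr rfl fun _ _ => (one_div _).symm
  rw [h3, Real.log_div (by linarith) (by linarith)] at h2
  linarith

lemma sum_w : ∃ C : ℝ, 0 < C ∧ ∀ Y : ℝ, 1 ≤ Y →
    ∑ p ∈ PS Y, hh p.1 ^ 2 / ((p.1 : ℝ) * (p.2 : ℝ)) ≤ C * (1 + Real.log Y) ^ 5 := by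
  obtain ⟨C, hC, hE⟩ := sum_E
  refine ⟨C, hC, fun Y hY => ?_⟩
  have hL := Real.log_nonneg hY
  rw [ps_sum hY (fun a b => hh a ^ 2 / ((a : ℝ) * (b : ℝ)))]
  have h1 : ∀ a ∈ Finset.Icc 1 ⌊Real.sqrt Y⌋₊,
      ∑ b ∈ (Finset.Icc 1 ⌊Y / a⌋₊).filter (fun b => b.Coprime a), hh a ^ 2 / ((a : ℝ) * (b : ℝ)) ≤
        (1 + Real.log Y) * (hh a ^ 2 / a * (1 + Ea a)) := by
    intro a ha
    have e : ∑ b ∈ (Finset.Icc 1 ⌊Y / a⌋₊).filter (fun b => b.Coprime a),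
        hh a ^ 2 / ((a : ℝ) * (b : ℝ)) = hh a ^ 2 / a *
        ∑ b ∈ (Finset.Icc 1 ⌊Y / a⌋₊).filter (fun b => b.Coprime a), (1 / (b : ℝ)) := by
      rw [Finset.mul_sum]
      refine Finset.sum_congr rfl fun b _ => ?_
      rw [← div_div]
      ring
    rw [e]
    have hw : 0 ≤ hh a ^ 2 / (a : ℝ) := by positivity
    have h2 := mul_le_mul_of_nonneg_left (sum_inv_le hY ha) hw
    have h3 : hh a ^ 2 / (a : ℝ) ≤ hh a ^ 2 / a * (1 + Ea a) := by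
      have := mul_nonneg hw (Ea_nonneg a)
      linarith
    have h4 := mul_le_mul_of_nonneg_left h3 (show 0 ≤ 1 + Real.log Y by linarith)
    linarith
  refine (Finset.sum_le_sum h1).trans ?_
  rw [← Finset.mul_sum]
  have h5 := mul_le_mul_of_nonneg_left (hE Y hY) (show 0 ≤ 1 + Real.log Y by linarith)
  refine h5.trans (le_of_eq ?_)
  ring

/-- The lower bound for fixed `a`. -/
lemma step (C4 C3 C2 C1 : ℝ) (hC4 : 0 < C4) (hC3 : 0 < C3) (hC2 : 0 < C2) (hC1 : 0 < C1)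
    {L ℓ E φ T4 T3 T2 T1 N s : ℝ} (hL : 0 ≤ L) (hℓ : 0 ≤ ℓ) (hℓL : ℓ ≤ L) (hE : 0 ≤ E)
    (hs0 : 0 ≤ s) (hs : s ≤ ℓ ^ 2)
    (h4 : |T4 - φ * (N ^ 5 / 5)| ≤ C4 * E * (1 + L) ^ 4)
    (h3 : |T3 - φ * (N ^ 4 / 4)| ≤ C3 * E * (1 + L) ^ 3)
    (h2 : |T2 - φ * (N ^ 3 / 3)| ≤ C2 * E * (1 + L) ^ 2)
    (h1 : |T1 - φ * (N ^ 2 / 2)| ≤ C1 * E * (1 + L)) :
    φ * (N ^ 5 / 5 + ℓ * N ^ 4 / 2 + 5 / 12 * ℓ ^ 2 * N ^ 3 + ℓ ^ 3 * N ^ 2 / 8) -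
      3 / 4 * (φ * s * (N ^ 3 / 3 + ℓ * N ^ 2 / 2)) -
      (C4 + 2 * C3 + 3 * C2 + 2 * C1) * (E * (1 + L) ^ 4) ≤
    T4 + 2 * ℓ * T3 + 5 / 4 * ℓ ^ 2 * T2 + 1 / 4 * ℓ ^ 3 * T1 - 3 / 4 * s * (T2 + ℓ * T1) := by
  have hL1 : 1 ≤ 1 + L := by linarith
  have hℓ1 : ℓ ≤ 1 + L := by linarith
  have hℓ2 : ℓ ^ 2 ≤ (1 + L) ^ 2 := pow_le_pow_left₀ hℓ hℓ1 2
  have hℓ3 : ℓ ^ 3 ≤ (1 + L) ^ 3 := pow_le_pow_left₀ hℓ hℓ1 3
  have hs2 : s ≤ (1 + L) ^ 2 := hs.trans hℓ2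
  obtain ⟨h4a, -⟩ := abs_le.mp h4
  obtain ⟨h3a, -⟩ := abs_le.mp h3
  obtain ⟨h2a, h2b⟩ := abs_le.mp h2
  obtain ⟨h1a, h1b⟩ := abs_le.mp h1
  obtain ⟨F, eF⟩ : ∃ F : ℝ, F = E * (1 + L) ^ 4 := ⟨_, rfl⟩
  have hF0 : 0 ≤ F := by
    rw [eF]
    positivity
  have k3 : ℓ * (C3 * E * (1 + L) ^ 3) ≤ C3 * F := by
    have := mul_le_mul_of_nonneg_right hℓ1 (show 0 ≤ C3 * E * (1 + L) ^ 3 by positivity)
    refine this.trans (le_of_eq ?_)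
    rw [eF]
    ring
  have k2 : ℓ ^ 2 * (C2 * E * (1 + L) ^ 2) ≤ C2 * F := by
    have := mul_le_mul_of_nonneg_right hℓ2 (show 0 ≤ C2 * E * (1 + L) ^ 2 by positivity)
    refine this.trans (le_of_eq ?_)
    rw [eF]
    ring
  have k1 : ℓ ^ 3 * (C1 * E * (1 + L)) ≤ C1 * F := by
    have := mul_le_mul_of_nonneg_right hℓ3 (show 0 ≤ C1 * E * (1 + L) by positivity)
    refine this.trans (le_of_eq ?_)
    rw [eF]
    ring
  have j2 : s * (C2 * E * (1 + L) ^ 2) ≤ C2 * F := by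
    have := mul_le_mul_of_nonneg_right hs2 (show 0 ≤ C2 * E * (1 + L) ^ 2 by positivity)
    refine this.trans (le_of_eq ?_)
    rw [eF]
    ring
  have j1 : s * (ℓ * (C1 * E * (1 + L))) ≤ C1 * F := by
    have h5 : ℓ * (C1 * E * (1 + L)) ≤ (1 + L) * (C1 * E * (1 + L)) :=
      mul_le_mul_of_nonneg_right hℓ1 (by positivity)
    have h6 : s * (ℓ * (C1 * E * (1 + L))) ≤ (1 + L) ^ 2 * ((1 + L) * (C1 * E * (1 + L))) :=
      mul_le_mul hs2 h5 (by positivity) (by positivity)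
    refine h6.trans (le_of_eq ?_)
    rw [eF]
    ring
  have m4 : φ * (N ^ 5 / 5) - C4 * F ≤ T4 := by
    rw [eF]
    linarith
  have m3 : ℓ * (φ * (N ^ 4 / 4)) - C3 * F ≤ ℓ * T3 := by
    have := mul_le_mul_of_nonneg_left h3a hℓ
    linarith
  have m2 : ℓ ^ 2 * (φ * (N ^ 3 / 3)) - C2 * F ≤ ℓ ^ 2 * T2 := by
    have := mul_le_mul_of_nonneg_left h2a (sq_nonneg ℓ)
    linarith
  have m1 : ℓ ^ 3 * (φ * (N ^ 2 / 2)) - C1 * F ≤ ℓ ^ 3 * T1 := by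
    have := mul_le_mul_of_nonneg_left h1a (pow_nonneg hℓ 3)
    linarith
  have n2 : s * T2 ≤ s * (φ * (N ^ 3 / 3)) + C2 * F := by
    have := mul_le_mul_of_nonneg_left h2b hs0
    linarith
  have n1 : s * (ℓ * T1) ≤ s * (ℓ * (φ * (N ^ 2 / 2))) + C1 * F := by
    have h5 := mul_le_mul_of_nonneg_left h1b (mul_nonneg hs0 hℓ)
    have h6 : s * ℓ * (C1 * E * (1 + L)) ≤ C1 * F := by
      rw [mul_assoc]
      exact j1
    linarith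
  rw [← eF]
  have hC2F : 0 ≤ C2 * F := by positivity
  have hC1F : 0 ≤ C1 * F := by positivity
  linarith

end S1LowAux

open S1LowAux

theorem s1_low (ε : ℝ) (hε : 0 < ε) : ∃ δ : ℝ, 0 < δ ∧ δ < 1 / 100 ∧ ∀ᶠ Y : ℝ in atTop,
    (1733 / 64 * (a3 / (Nat.factorial 9 : ℝ)) - ε) * Real.log Y ^ 9 ≤ S1 Y (δ * Real.log Y) := by
  obtain ⟨C4, hC4, h4⟩ := tj_bound 4 (by norm_num)
  obtain ⟨C3, hC3, h3⟩ := tj_bound 3 (by norm_num)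
  obtain ⟨C2, hC2, h2⟩ := tj_bound 2 (by norm_num)
  obtain ⟨C1, hC1, h1⟩ := tj_bound 1 (by norm_num)
  obtain ⟨C, hC, hE⟩ := sum_E
  obtain ⟨W, hW, hw⟩ := sum_w
  obtain ⟨K, eK⟩ : ∃ K : ℝ, K = C4 + 2 * C3 + 3 * C2 + 2 * C1 := ⟨_, rfl⟩
  have hK : 0 < K := by
    rw [eK]
    positivity
  obtain ⟨δ, hδ0, hδ1, hδ2⟩ : ∃ δ : ℝ, 0 < δ ∧ δ < 1 / 100 ∧ δ * (32 * W) ≤ ε := by
    refine ⟨min (1 / 200) (ε / (32 * W)), ?_, ?_, ?_⟩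
    · exact lt_min (by norm_num) (by positivity)
    · exact lt_of_le_of_lt (min_le_left _ _) (by norm_num)
    · have := min_le_right (1 / 200) (ε / (32 * W))
      rwa [le_div_iff₀ (by positivity)] at this
  refine ⟨δ, hδ0, hδ1, ?_⟩
  filter_upwards [f1_sum (ε / 4) (by positivity), d_wt (ε / 4) (by positivity),
    small_pow (K * C) (show 0 < ε / 4 by positivity),
    Real.tendsto_log_atTop.eventually (eventually_ge_atTop (1 : ℝ)),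
    eventually_ge_atTop (1 : ℝ)] with Y hF hDw hS hL1 hY
  have hL0 : 0 < Real.log Y := by linarith
  have hD : 0 < δ * Real.log Y := by positivity
  -- step 1
  have step1 : ∑ p ∈ PS Y, (hh p.1 ^ 2 / ((p.1 : ℝ) * (p.2 : ℝ)) *
        ((Real.log (Y / (p.1 * p.2)) ^ 2 + Real.log p.1 * Real.log (Y / (p.1 * p.2))) *
          ((Real.log (Y / (p.1 * p.2)) + Real.log p.1 / 2) ^ 2 - 3 / 4 * sg p.1) / 2)) -
      δ * Real.log Y * Real.log Y ^ 3 / 4 * ∑ p ∈ PS Y, (hh p.1 ^ 2 / ((p.1 : ℝ) * (p.2 : ℝ))) ≤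
      S1 Y (δ * Real.log Y) := by
    unfold S1
    rw [Finset.mul_sum, ← Finset.sum_sub_distrib]
    exact Finset.sum_le_sum fun p hp => point hY hD hp
  refine le_trans ?_ step1
  -- the error from `D`
  have herr : δ * Real.log Y * Real.log Y ^ 3 / 4 *
      ∑ p ∈ PS Y, (hh p.1 ^ 2 / ((p.1 : ℝ) * (p.2 : ℝ))) ≤ ε / 4 * Real.log Y ^ 9 := by
    have g1 := hw Y hY
    have g2 : (1 + Real.log Y) ^ 5 ≤ (2 * Real.log Y) ^ 5 :=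
      pow_le_pow_left₀ (by linarith) (by linarith) 5
    have g3 : ∑ p ∈ PS Y, (hh p.1 ^ 2 / ((p.1 : ℝ) * (p.2 : ℝ))) ≤ W * (2 * Real.log Y) ^ 5 :=
      g1.trans (mul_le_mul_of_nonneg_left g2 hW.le)
    have g4 := mul_le_mul_of_nonneg_left g3
      (show 0 ≤ δ * Real.log Y * Real.log Y ^ 3 / 4 by positivity)
    refine g4.trans ?_
    have g5 : δ * Real.log Y * Real.log Y ^ 3 / 4 * (W * (2 * Real.log Y) ^ 5) =
        δ * (32 * W) * (Real.log Y ^ 9 / 4) := by ring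
    rw [g5]
    have g6 := mul_le_mul_of_nonneg_right hδ2 (show 0 ≤ Real.log Y ^ 9 / 4 by positivity)
    refine g6.trans (le_of_eq ?_)
    ring
  -- the main sum
  rw [ps_sum hY (fun a b => hh a ^ 2 / ((a : ℝ) * (b : ℝ)) *
        ((Real.log (Y / (a * b)) ^ 2 + Real.log a * Real.log (Y / (a * b))) *
          ((Real.log (Y / (a * b)) + Real.log a / 2) ^ 2 - 3 / 4 * sg a) / 2))]
  have step2 : ∀ a ∈ Finset.Icc 1 ⌊Real.sqrt Y⌋₊,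
      1 / 2 * (hh a ^ 2 * (a.totient : ℝ) / (a : ℝ) ^ 2 *
      ((Real.log Y - Real.log a) ^ 5 / 5 + Real.log a * (Real.log Y - Real.log a) ^ 4 / 2 +
        5 / 12 * Real.log a ^ 2 * (Real.log Y - Real.log a) ^ 3 + Real.log a ^ 3 * (Real.log Y - Real.log a) ^ 2 / 8)) -
      3 / 8 * (hh a ^ 2 * (a.totient : ℝ) / (a : ℝ) ^ 2 * sg a *
      ((Real.log Y - Real.log a) ^ 3 / 3 + Real.log a * (Real.log Y - Real.log a) ^ 2 / 2)) -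
      K * (1 + Real.log Y) ^ 4 / 2 * (hh a ^ 2 / a * (1 + Ea a)) ≤
      ∑ b ∈ (Finset.Icc 1 ⌊Y / a⌋₊).filter (fun b => b.Coprime a), hh a ^ 2 / ((a : ℝ) * (b : ℝ)) *
        ((Real.log (Y / (a * b)) ^ 2 + Real.log a * Real.log (Y / (a * b))) *
          ((Real.log (Y / (a * b)) + Real.log a / 2) ^ 2 - 3 / 4 * sg a) / 2) := by
    intro a ha
    obtain ⟨l1, l2⟩ := log_le_of_mem hY ha
    have ha0 := (Finset.mem_Icc.mp ha).1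
    have e : ∑ b ∈ (Finset.Icc 1 ⌊Y / a⌋₊).filter (fun b => b.Coprime a),
        hh a ^ 2 / ((a : ℝ) * (b : ℝ)) *
        ((Real.log (Y / (a * b)) ^ 2 + Real.log a * Real.log (Y / (a * b))) *
          ((Real.log (Y / (a * b)) + Real.log a / 2) ^ 2 - 3 / 4 * sg a) / 2) =
        1 / 2 * (hh a ^ 2 / a) * (Tj 4 Y a + 2 * Real.log a * Tj 3 Y a +
          5 / 4 * Real.log a ^ 2 * Tj 2 Y a + 1 / 4 * Real.log a ^ 3 * Tj 1 Y a -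
          3 / 4 * sg a * (Tj 2 Y a + Real.log a * Tj 1 Y a)) := by
      unfold Tj
      simp only [Finset.mul_sum, ← Finset.sum_add_distrib, ← Finset.sum_sub_distrib]
      refine Finset.sum_congr rfl fun b _ => ?_
      rw [← div_div Y, div_mul_eq_div_div]
      ring
    rw [e]
    have hEa := Ea_nonneg a
    have b4 := h4 Y a hY ha
    have b3 := h3 Y a hY ha
    have b2 := h2 Y a hY ha
    have b1 := h1 Y a hY ha
    norm_num at b4 b3 b2 b1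
    have hstep := step C4 C3 C2 C1 hC4 hC3 hC2 hC1 hL0.le l1 (by linarith) hEa (sg_nonneg a)
      (sg_le a ha0) b4 b3 b2 b1
    rw [← eK] at hstep
    have hwt : 0 ≤ 1 / 2 * (hh a ^ 2 / (a : ℝ)) := by positivity
    have hmul := mul_le_mul_of_nonneg_left hstep hwt
    refine le_trans ?_ hmul
    have h7 : hh a ^ 2 / (a : ℝ) * Ea a ≤ hh a ^ 2 / a * (1 + Ea a) :=
      mul_le_mul_of_nonneg_left (by linarith) (by positivity)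
    have h8 := mul_le_mul_of_nonneg_left h7 (show 0 ≤ K * (1 + Real.log Y) ^ 4 / 2 by positivity)
    have e9 : 1 / 2 * (hh a ^ 2 / (a : ℝ)) * ((a.totient : ℝ) / a *
        ((Real.log Y - Real.log a) ^ 5 / 5 + Real.log a * (Real.log Y - Real.log a) ^ 4 / 2 +
        5 / 12 * Real.log a ^ 2 * (Real.log Y - Real.log a) ^ 3 +
          Real.log a ^ 3 * (Real.log Y - Real.log a) ^ 2 / 8) -
      3 / 4 * ((a.totient : ℝ) / a * sg a * ((Real.log Y - Real.log a) ^ 3 / 3 +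
        Real.log a * (Real.log Y - Real.log a) ^ 2 / 2)) -
      K * (Ea a * (1 + Real.log Y) ^ 4)) =
      1 / 2 * (hh a ^ 2 * (a.totient : ℝ) / (a : ℝ) ^ 2 *
      ((Real.log Y - Real.log a) ^ 5 / 5 + Real.log a * (Real.log Y - Real.log a) ^ 4 / 2 +
        5 / 12 * Real.log a ^ 2 * (Real.log Y - Real.log a) ^ 3 + Real.log a ^ 3 * (Real.log Y - Real.log a) ^ 2 / 8)) -
      3 / 8 * (hh a ^ 2 * (a.totient : ℝ) / (a : ℝ) ^ 2 * sg a *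
      ((Real.log Y - Real.log a) ^ 3 / 3 + Real.log a * (Real.log Y - Real.log a) ^ 2 / 2)) -
      K * (1 + Real.log Y) ^ 4 / 2 * (hh a ^ 2 / (a : ℝ) * Ea a) := by
      ring
    rw [e9]
    linarith
  have hsum := Finset.sum_le_sum step2
  rw [Finset.sum_sub_distrib, Finset.sum_sub_distrib, ← Finset.mul_sum, ← Finset.mul_sum,
    ← Finset.mul_sum] at hsum
  have hE' := mul_le_mul_of_nonneg_left (hE Y hY)
    (show 0 ≤ K * (1 + Real.log Y) ^ 4 / 2 by positivity)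
  have e6 : K * (1 + Real.log Y) ^ 4 / 2 * (C * (1 + Real.log Y) ^ 4) =
      K * C * (1 + Real.log Y) ^ 8 / 2 := by ring
  rw [e6] at hE'
  have hL9 : 0 < Real.log Y ^ 9 := by positivity
  have hεL : 0 < ε * Real.log Y ^ 9 := by positivity
  linarith

end Pool.Agent.P07318m
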