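import Pool.Agent.Lib.P07318m.DenUp
import Pool.Agent.Lib.P07318m.S1Low

/-!
# P07318m.LocalLow: the local lower bound
-/

set_option autoImplicit false

open MeasureTheory Complex Filter Topology

namespace Pool.Agent.P07318m

open Pool.Agent.P4f18dfS (wt XF)

theorem local_low : ∃ η : ℝ, 0 < η ∧ η < 1 / 4 ∧ ∃ τ₀ : ℝ, 1 ≤ τ₀ ∧ ∀ τ Δ : ℝ, τ₀ ≤ τ → τ ^ (1 - 2 * η) ≤ Δ →
    Δ ≤ τ ^ (1 - η) →
    Δ * Real.sqrt Real.pi * ((28 + 1 / 20) * (a3 / (Nat.factorial 9 : ℝ))) * Real.log τ ^ 9 ≤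
      ∫ t : ℝ, wt τ Δ t * ‖riemannZeta (1 / 2 + t * I)‖ ^ 6 := by
  set κ : ℝ := 1 / 10000 with hκ
  set η : ℝ := 1 / 1000000 with hη
  have hκ0 : 0 < κ := by rw [hκ]; norm_num
  have hκ1 : κ < 1 / 4 := by rw [hκ]; norm_num
  have hη0 : 0 < η := by rw [hη]; norm_num
  set A : ℝ := a3 / (Nat.factorial 9 : ℝ) with hA
  have hA0 : 0 < A := div_pos a3_pos (by positivity)
  obtain ⟨δ, hδ, hδ1, hs1⟩ := s1_low (A / 1000) (by positivity)
  have hs2 := s2_up (A / 1000) (by positivity)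
  obtain ⟨C1, hC1, hnum⟩ := num_low κ η δ hκ0 hκ1 hη0 hδ
  obtain ⟨C2, hC2, hden⟩ := den_up κ η hκ0 hκ1 hη0
  rw [← hA] at hs1 hs2
  obtain ⟨Y1, hY1⟩ := eventually_atTop.1 (hs1.and hs2)
  have hpi := Real.pi_pos
  have hspi : 0 < Real.sqrt Real.pi := Real.sqrt_pos.2 hpi
  -- l
  set l : ℝ := 1733 / 1666 with hl
  set CC : ℝ := 2 * l * C1 * 2 + l ^ 2 / 2 * C2 with hCC
  have hCC0 : 0 < CC := by positivity
  -- eventually conditions
  have t1 : Tendsto (fun τ : ℝ => τ ^ (1 - 2 * κ)) atTop atTop := tendsto_rpow_atTop (by rw [hκ]; norm_num)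
  have t2 : Tendsto (fun τ : ℝ => τ ^ (2 * κ)) atTop atTop := tendsto_rpow_atTop (by positivity)
  have ev1 := t1.eventually_ge_atTop (max Y1 2)
  have ev2 := t2.eventually_ge_atTop (4 * Real.pi)
  have ev3 := Real.tendsto_log_atTop.eventually_ge_atTop (max 1 (CC * 256 / (A * Real.sqrt Real.pi / 100)))
  obtain ⟨τ1, hτ1⟩ := eventually_atTop.1 (ev1.and (ev2.and ev3))
  refine ⟨η, hη0, by rw [hη]; norm_num, max τ1 1, le_max_right _ _, fun τ Δ k1 k2 k3 => ?_⟩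
  have k0 : 1 ≤ τ := (le_max_right _ _).trans k1
  have hτ : 0 < τ := by linarith
  obtain ⟨f1, f2, f3⟩ := hτ1 τ ((le_max_left _ _).trans k1)
  set Y : ℝ := τ ^ (1 - 2 * κ) with hY
  have g1 : Y1 ≤ Y := (le_max_left _ _).trans f1
  have g2 : 2 ≤ Y := (le_max_right _ _).trans f1
  have hL1 : 1 ≤ Real.log τ := (le_max_left _ _).trans f3
  have hL2 : CC * 256 / (A * Real.sqrt Real.pi / 100) ≤ Real.log τ := (le_max_right _ _).trans f3
  have hΔ1 : 1 ≤ Δ := by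
    refine le_trans ?_ k2
    exact Real.one_le_rpow k0 (by rw [hη]; norm_num)
  have hΔ : 0 < Δ := by linarith
  have hV1 : τ ^ η ≤ τ / Δ := by
    rw [le_div_iff₀ hΔ]
    calc τ ^ η * Δ ≤ τ ^ η * τ ^ (1 - η) := mul_le_mul_of_nonneg_left k3 (by positivity)
      _ = τ ^ (η + (1 - η)) := (Real.rpow_add hτ _ _).symm
      _ = τ := by rw [add_sub_cancel, Real.rpow_one]
  have hV2 : τ / Δ ≤ τ ^ (2 * η) := by
    rw [div_le_iff₀ hΔ]
    calc τ = τ ^ (2 * η + (1 - 2 * η)) := by rw [add_sub_cancel, Real.rpow_one]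
      _ = τ ^ (2 * η) * τ ^ (1 - 2 * η) := Real.rpow_add hτ _ _
      _ ≤ τ ^ (2 * η) * Δ := mul_le_mul_of_nonneg_left k2 (by positivity)
  have hΔκ : τ ^ (1 - κ) ≤ Δ := le_trans (Real.rpow_le_rpow_of_exponent_le k0 (by rw [hκ, hη]; norm_num)) k2
  have h4pi : 4 * Real.pi * Y ≤ τ := by
    calc 4 * Real.pi * Y ≤ τ ^ (2 * κ) * τ ^ (1 - 2 * κ) := mul_le_mul_of_nonneg_right f2 (by positivity)
      _ = τ ^ (2 * κ + (1 - 2 * κ)) := (Real.rpow_add hτ _ _).symm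
      _ = τ := by rw [add_sub_cancel, Real.rpow_one]
  have hlogY : Real.log Y = (1 - 2 * κ) * Real.log τ := Real.log_rpow hτ _
  have hLY : 0 < Real.log Y := Real.log_pos (by linarith)
  set D : ℝ := δ * Real.log Y with hD
  have hD0 : 0 < D := by positivity
  obtain ⟨u1, u2⟩ := hY1 Y g1
  have n1 := hnum τ Δ Y hΔ1 k0 hV1 (by linarith) le_rfl
  have n2 := hden τ Δ Y D hΔ1 k0 hV1 hΔκ (by linarith) le_rfl h4pi hD0
  rw [← hD] at u1 n1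
  have u2' := u2 D hD0
  have n3 := sixth_ge (τ := τ) hΔ (PS Y) (ct Y D) l
  refine le_trans ?_ n3
  -- the error V^20
  have hV20 : (τ / Δ) ^ 20 * τ ^ (1 - κ / 2) ≤ Δ := by
    refine le_trans ?_ k2
    calc (τ / Δ) ^ 20 * τ ^ (1 - κ / 2) ≤ (τ ^ (2 * η)) ^ 20 * τ ^ (1 - κ / 2) := by
          apply mul_le_mul_of_nonneg_right _ (by positivity)
          exact pow_le_pow_left₀ (by positivity) hV2 20
      _ = τ ^ (2 * η * ((20 : ℕ) : ℝ) + (1 - κ / 2)) := by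
          rw [Real.rpow_add hτ, Real.rpow_mul hτ.le (2 * η), Real.rpow_natCast]
      _ ≤ _ := Real.rpow_le_rpow_of_exponent_le k0 (by rw [hκ, hη]; push_cast; norm_num)
  set J : ℝ := (Jn τ Δ (PS Y) (ct Y D)).re with hJ
  set Q : ℝ := (∫ t : ℝ, wt τ Δ t * ‖As (PS Y) (ct Y D) t‖ ^ 2) +
      (∫ t : ℝ, (wt τ Δ t : ℂ) * XF (1 / 2 - t * I) * As (PS Y) (ct Y D) t ^ 2).re with hQ
  set Λ : ℝ := Real.log τ with hΛ
  have hP : 1 ≤ (1 + Λ) ^ 8 := one_le_pow₀ (by linarith)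
  have b1 : Δ * Real.sqrt Real.pi * ((1733 / 64 * A - A / 1000) * Real.log Y ^ 9) - C1 * 2 * Δ * (1 + Λ) ^ 8 ≤ J := by
    have c1 : Δ * Real.sqrt Real.pi * ((1733 / 64 * A - A / 1000) * Real.log Y ^ 9) ≤ Δ * Real.sqrt Real.pi * S1 Y D :=
      mul_le_mul_of_nonneg_left u1 (by positivity)
    have c2 : C1 * (τ / Δ) ^ 20 * τ ^ (1 - κ / 2) ≤ C1 * Δ * (1 + Λ) ^ 8 := by
      calc C1 * (τ / Δ) ^ 20 * τ ^ (1 - κ / 2) = C1 * ((τ / Δ) ^ 20 * τ ^ (1 - κ / 2)) := by ring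
        _ ≤ C1 * Δ := mul_le_mul_of_nonneg_left hV20 hC1.le
        _ ≤ C1 * Δ * (1 + Λ) ^ 8 := le_mul_of_one_le_right (by positivity) hP
    linarith
  have b2 : Q ≤ Δ * Real.sqrt Real.pi * ((833 / 16 * A + A / 1000) * Real.log Y ^ 9) + C2 * Δ * (1 + Λ) ^ 8 := by
    have c1 : Δ * Real.sqrt Real.pi * S2 Y D ≤ Δ * Real.sqrt Real.pi * ((833 / 16 * A + A / 1000) * Real.log Y ^ 9) :=
      mul_le_mul_of_nonneg_left u2' (by positivity)
    have c2 : C2 * Δ ≤ C2 * Δ * (1 + Λ) ^ 8 := le_mul_of_one_le_right (by positivity) hP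
    linarith
  have b3 := mul_le_mul_of_nonneg_left b1 (by rw [hl]; norm_num : (0:ℝ) ≤ 2 * l)
  have b4 := mul_le_mul_of_nonneg_left b2 (by rw [hl]; norm_num : (0:ℝ) ≤ l ^ 2 / 2)
  -- error terms
  have b5 : CC * Δ * (1 + Λ) ^ 8 ≤ Δ * Real.sqrt Real.pi * (A / 100) * Λ ^ 9 := by
    have c1 : (1 + Λ) ^ 8 ≤ 256 * Λ ^ 8 := by
      calc (1 + Λ) ^ 8 ≤ (2 * Λ) ^ 8 := pow_le_pow_left₀ (by linarith) (by linarith) 8
        _ = _ := by ring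
    have c2 : CC * 256 ≤ Λ * (A * Real.sqrt Real.pi / 100) := by
      rwa [div_le_iff₀ (by positivity)] at hL2
    calc CC * Δ * (1 + Λ) ^ 8 ≤ CC * Δ * (256 * Λ ^ 8) := mul_le_mul_of_nonneg_left c1 (by positivity)
      _ = (CC * 256) * (Δ * Λ ^ 8) := by ring
      _ ≤ (Λ * (A * Real.sqrt Real.pi / 100)) * (Δ * Λ ^ 8) := mul_le_mul_of_nonneg_right c2 (by positivity)
      _ = _ := by ring
  -- main constant
  have b6 : (28 + 11 / 100) * A * Λ ^ 9 ≤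
      (2 * l * (1733 / 64 * A - A / 1000) - l ^ 2 / 2 * (833 / 16 * A + A / 1000)) * Real.log Y ^ 9 := by
    rw [hlogY, mul_pow, ← mul_assoc]
    apply mul_le_mul_of_nonneg_right _ (by positivity)
    have c1 : (2 * l * (1733 / 64 * A - A / 1000) - l ^ 2 / 2 * (833 / 16 * A + A / 1000)) * (1 - 2 * κ) ^ 9 =
        ((2 * l * (1733 / 64 - 1 / 1000) - l ^ 2 / 2 * (833 / 16 + 1 / 1000)) * (1 - 2 * κ) ^ 9) * A := by ring
    rw [c1]
    apply mul_le_mul_of_nonneg_right _ hA0.le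
    rw [hl, hκ]
    norm_num
  have b7 := mul_le_mul_of_nonneg_left b6 (by positivity : (0:ℝ) ≤ Δ * Real.sqrt Real.pi)
  have b8 : 0 ≤ Δ * Real.sqrt Real.pi * (A * Λ ^ 9) := by positivity
  have b9 : CC * Δ * (1 + Λ) ^ 8 = 2 * l * (C1 * 2 * Δ * (1 + Λ) ^ 8) + l ^ 2 / 2 * (C2 * Δ * (1 + Λ) ^ 8) := by
    rw [hCC]; ring
  have goal1 : Δ * Real.sqrt Real.pi * ((28 + 1 / 20) * A) * Λ ^ 9 ≤ 2 * l * J - l ^ 2 / 2 * Q := by
    linarith
  exact goal1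

end Pool.Agent.P07318m
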