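import Pool.Agent.Lib.P07318m.Defs
import Pool.Agent.Lib.P07318m.OmegaCmp
import Pool.Agent.Lib.P4f18dfS.MV
import Pool.Agent.Lib.P4f18dfS.XFac

/-!
# P07318m.MeanSq: mean square of the test function and the cross term

`mean_sq`: for a finite set `S` of reduced fractions of height `p.1 * p.2 ≤ Y` and real coefficients:
`|∫ w |∑ c_p (p.1/p.2)^{-it}|² dt - √π Δ ∑ c_p²| ≤ √π Δ (∑|c_p|)² exp(-Δ²/(16 Y²))`.
PROOF. Expand the square; `∫ w(t) exp(-it x) dt = √π Δ exp(-iτx) exp(-Δ²x²/4)` (`P4f18dfS.gauss_int` in `P4f18dfS/MV.lean`), the diagonal is exact, and for `p ≠ p'`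
`x = log(p.1/p.2) - log(p'.1/p'.2)` satisfies `|x| ≥ 1/(2 √(p.1 p.2 p'.1 p'.2)) ≥ 1/(2Y)` (reduced fractions are distinct:
`|p.1 p'.2 - p'.1 p.2| ≥ 1`; the same computation is `P07318s.spacing` in `Lib/P07318s/Spaced.lean`, for `ℕ+`), so `Δ² x²/4 ≥ Δ²/(16Y²)`.

`cross`: if moreover `p.1² ≤ P` and `4πP ≤ τ` (`P ≥ 1`), `1 ≤ Δ`:
`|∫ w(t) X(1/2-it) (∑ c_p (p.1/p.2)^{-it})² dt| ≤ C ((1+P/Δ)/Δ + exp(-(τ/Δ)²/4)) (∑ |c_p| (p.1/p.2)^{1/2})²`.
PROOF. Expand: the term of `p, p'` is `c_p c_p' ∫ w X(1/2-it) Y^{-it} dt = c_p c_p' Y^{1/2} Wf τ Δ Y` with `Y = p.1 p'.1/(p.2 p'.2) ≤ P`, `Y > 0`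
(definition of `Wf`; each integrand is integrable, `wf_integrable`-type or `|X(1/2-it)|` polynomially bounded), and by `wf_cmp`
`|Wf τ Δ Y| ≤ 2π G(Y) + C(1+Y/Δ)/Δ + 2π exp(-(τ/Δ)²)`, `G(Y) = exp(-((τ-2πY)/Δ)²) ≤ exp(-(τ/(2Δ))²)` since `2πY ≤ τ/2`.
-/

set_option autoImplicit false

open MeasureTheory Complex

namespace Pool.Agent.P07318m

open Pool.Agent.P4f18dfS (wt XF)

/-- The test function for a general finite family. -/
noncomputable def As (S : Finset (ℕ × ℕ)) (c : ℕ × ℕ → ℝ) (t : ℝ) : ℂ :=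
  ∑ p ∈ S, (c p : ℂ) * cexp (((-(t * (Real.log p.1 - Real.log p.2)) : ℝ) : ℂ) * I)

namespace MeanSqAux

open Pool.Agent.P4f18dfS (xf_diff)
open Pool.Agent.P4f18dfS.MVAux (wt_integrable wt_integrableC norm_exp_I gauss_int)
open Pool.Agent.P4f18dfS.XFac (norm_xf)

theorem log_core {m n : ℝ} (hn : 1 ≤ n) (hmn : n + 1 ≤ m) :
    1 / (2 * Real.sqrt (m * n)) ≤ Real.log m - Real.log n := by
  have hn0 : 0 < n := by linarith
  have hm0 : 0 < m := by linarith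
  rw [← Real.log_div hm0.ne' hn0.ne']
  have h1 : 1 - (m / n)⁻¹ ≤ Real.log (m / n) := Real.one_sub_inv_le_log_of_pos (by positivity)
  refine le_trans ?_ h1
  rw [inv_div]
  have h2 : 1 - n / m = (m - n) / m := by field_simp
  rw [h2]
  have hs : 0 < Real.sqrt (m * n) := Real.sqrt_pos.2 (by positivity)
  rw [div_le_div_iff₀ (by positivity) hm0]
  rw [one_mul]
  have h3 : m ≤ Real.sqrt ((2 * (m - n)) ^ 2 * (m * n)) := by
    apply Real.le_sqrt_of_sq_le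
    have hd : 1 ≤ m - n := by linarith
    have : m ≤ (2 * (m - n)) ^ 2 * n := by
      have h4 : m - n ≤ (m - n) ^ 2 * n := by nlinarith
      have h5 : n ≤ (m - n) ^ 2 * n := le_mul_of_one_le_left hn0.le (one_le_pow₀ hd)
      nlinarith
    nlinarith
  have h6 : Real.sqrt ((2 * (m - n)) ^ 2 * (m * n)) = (m - n) * (2 * Real.sqrt (m * n)) := by
    rw [Real.sqrt_mul (by positivity), Real.sqrt_sq (by linarith)]
    ring
  linarith

/-- The logarithm of a fraction. -/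
noncomputable def lf (p : ℕ × ℕ) : ℝ := Real.log p.1 - Real.log p.2

lemma spacing {p p' : ℕ × ℕ} {Y : ℝ} (hp : 1 ≤ p.1 ∧ 1 ≤ p.2 ∧ p.1.Coprime p.2 ∧ (p.1 : ℝ) * (p.2 : ℝ) ≤ Y)
    (hp' : 1 ≤ p'.1 ∧ 1 ≤ p'.2 ∧ p'.1.Coprime p'.2 ∧ (p'.1 : ℝ) * (p'.2 : ℝ) ≤ Y) (h : p ≠ p') :
    1 / (2 * Y) ≤ |lf p - lf p'| := by
  obtain ⟨a, b⟩ := p
  obtain ⟨a', b'⟩ := p'
  obtain ⟨ha, hb, hab, hY⟩ := hp
  obtain ⟨ha', hb', hab', hY'⟩ := hp'
  simp only at ha hb hab hY ha' hb' hab' hY'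
  unfold lf
  simp only
  have hne : a * b' ≠ a' * b := by
    intro he
    apply h
    have h1 : a ∣ a' := by
      have : a ∣ a' * b := ⟨_, he.symm⟩
      exact Nat.Coprime.dvd_of_dvd_mul_right hab this
    have h2 : a' ∣ a := by
      have : a' ∣ a * b' := ⟨_, he⟩
      exact Nat.Coprime.dvd_of_dvd_mul_right hab' this
    have h3 : a = a' := Nat.dvd_antisymm h1 h2
    have h4 : b' = b := by
      rw [h3] at he
      exact Nat.eq_of_mul_eq_mul_left ha' he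
    rw [h3, h4]
  have ha1 : (1 : ℝ) ≤ a := by exact_mod_cast ha
  have hb1 : (1 : ℝ) ≤ b := by exact_mod_cast hb
  have ha1' : (1 : ℝ) ≤ a' := by exact_mod_cast ha'
  have hb1' : (1 : ℝ) ≤ b' := by exact_mod_cast hb'
  have e1 : Real.log (a : ℝ) - Real.log (b : ℝ) - (Real.log (a' : ℝ) - Real.log (b' : ℝ)) =
      Real.log ((a : ℝ) * b') - Real.log ((a' : ℝ) * b) := by
    rw [Real.log_mul (by linarith) (by linarith), Real.log_mul (by linarith) (by linarith)]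
    ring
  rw [e1]
  have hab1 : (1 : ℝ) ≤ (a : ℝ) * b := by nlinarith
  have hYpos : 0 < Y := by linarith
  have hprod : ((a : ℝ) * b') * ((a' : ℝ) * b) ≤ Y ^ 2 := by
    have : ((a : ℝ) * b') * ((a' : ℝ) * b) = ((a : ℝ) * b) * ((a' : ℝ) * b') := by ring
    rw [this, sq]
    exact mul_le_mul hY hY' (by positivity) hYpos.le
  have hsq : Real.sqrt (((a : ℝ) * b') * ((a' : ℝ) * b)) ≤ Y := by
    rw [← Real.sqrt_sq hYpos.le]
    exact Real.sqrt_le_sqrt hprod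
  have hpos : 0 < Real.sqrt (((a : ℝ) * b') * ((a' : ℝ) * b)) := Real.sqrt_pos.2 (by positivity)
  have hle : 1 / (2 * Y) ≤ 1 / (2 * Real.sqrt (((a : ℝ) * b') * ((a' : ℝ) * b))) :=
    one_div_le_one_div_of_le (by positivity) (by linarith)
  refine hle.trans ?_
  rcases lt_or_gt_of_ne hne with hlt | hlt
  · have h7 : ((a : ℝ) * b') + 1 ≤ ((a' : ℝ) * b) := by exact_mod_cast hlt
    have h8 := log_core (n := (a : ℝ) * b') (by nlinarith) h7
    rw [abs_sub_comm, mul_comm ((a : ℝ) * b')]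
    exact h8.trans (le_abs_self _)
  · have h7 : ((a' : ℝ) * b) + 1 ≤ ((a : ℝ) * b') := by exact_mod_cast hlt
    have h8 := log_core (n := (a' : ℝ) * b) (by nlinarith) h7
    exact h8.trans (le_abs_self _)

lemma integrable_osc {τ Δ : ℝ} (hΔ : 0 < Δ) (x : ℝ) :
    Integrable (fun t : ℝ => (wt τ Δ t : ℂ) * cexp (-(I * (x : ℂ) * t))) := by
  refine (wt_integrableC hΔ τ).mono ?_ (Filter.Eventually.of_forall fun t => ?_)
  · refine (wt_integrableC hΔ τ).aestronglyMeasurable.mul ?_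
    exact Continuous.aestronglyMeasurable (by fun_prop)
  · rw [norm_mul, norm_exp_I, mul_one]

lemma term_eq (p : ℕ × ℕ) (t : ℝ) :
    cexp (((-(t * (Real.log p.1 - Real.log p.2)) : ℝ) : ℂ) * I) = cexp (-(I * (lf p : ℂ) * t)) := by
  unfold lf
  congr 1
  push_cast
  ring

lemma term_conj (p : ℕ × ℕ) (t : ℝ) :
    (starRingEnd ℂ) (cexp (-(I * (lf p : ℂ) * t))) = cexp (I * (lf p : ℂ) * t) := by
  rw [← Complex.exp_conj]
  congr 1
  rw [map_neg, map_mul, map_mul, Complex.conj_I, Complex.conj_ofReal, Complex.conj_ofReal]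
  ring

lemma As_eq (S : Finset (ℕ × ℕ)) (c : ℕ × ℕ → ℝ) (t : ℝ) :
    As S c t = ∑ p ∈ S, (c p : ℂ) * cexp (-(I * (lf p : ℂ) * t)) := by
  unfold As
  exact Finset.sum_congr rfl fun p _ => by rw [term_eq]

lemma As_continuous (S : Finset (ℕ × ℕ)) (c : ℕ × ℕ → ℝ) : Continuous (As S c) := by
  have : As S c = fun t : ℝ => ∑ p ∈ S, (c p : ℂ) * cexp (-(I * (lf p : ℂ) * t)) := by
    ext1 t
    exact As_eq S c t
  rw [this]
  fun_prop

lemma As_norm_le (S : Finset (ℕ × ℕ)) (c : ℕ × ℕ → ℝ) (t : ℝ) : ‖As S c t‖ ≤ ∑ p ∈ S, |c p| := by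
  rw [As_eq]
  refine (norm_sum_le _ _).trans (Finset.sum_le_sum fun p _ => ?_)
  rw [norm_mul, norm_exp_I, mul_one, Complex.norm_real, Real.norm_eq_abs]

lemma sq_expand (S : Finset (ℕ × ℕ)) (c : ℕ × ℕ → ℝ) (t : ℝ) :
    ((‖As S c t‖ ^ 2 : ℝ) : ℂ) = ∑ p ∈ S, ∑ p' ∈ S, ((c p * c p' : ℝ) : ℂ) *
      cexp (-(I * ((lf p - lf p' : ℝ) : ℂ) * t)) := by
  have h1 : ((‖As S c t‖ ^ 2 : ℝ) : ℂ) = As S c t * (starRingEnd ℂ) (As S c t) := by
    rw [Complex.mul_conj']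
    push_cast
    rfl
  rw [h1, As_eq, map_sum, Finset.sum_mul_sum]
  refine Finset.sum_congr rfl fun p _ => Finset.sum_congr rfl fun p' _ => ?_
  rw [map_mul, term_conj, Complex.conj_ofReal]
  have h2 : cexp (-(I * ((lf p - lf p' : ℝ) : ℂ) * t)) =
      cexp (-(I * (lf p : ℂ) * t)) * cexp (I * (lf p' : ℂ) * t) := by
    rw [← Complex.exp_add]
    congr 1
    push_cast
    ring
  rw [h2]
  push_cast
  ring

lemma sq_expand2 (S : Finset (ℕ × ℕ)) (c : ℕ × ℕ → ℝ) (t : ℝ) :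
    As S c t ^ 2 = ∑ p ∈ S, ∑ p' ∈ S, ((c p * c p' : ℝ) : ℂ) *
      cexp (-(I * ((lf p + lf p' : ℝ) : ℂ) * t)) := by
  rw [sq, As_eq, Finset.sum_mul_sum]
  refine Finset.sum_congr rfl fun p _ => Finset.sum_congr rfl fun p' _ => ?_
  have h2 : cexp (-(I * ((lf p + lf p' : ℝ) : ℂ) * t)) =
      cexp (-(I * (lf p : ℂ) * t)) * cexp (-(I * (lf p' : ℂ) * t)) := by
    rw [← Complex.exp_add]
    congr 1
    push_cast
    ring
  rw [h2]
  push_cast
  ring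

lemma xf_norm_le (t : ℝ) : ‖XF (1 / 2 - t * I)‖ ≤ 1 := by
  have h := norm_xf (1 / 2) (-t)
  have e : (((1 / 2 : ℝ) : ℂ) + ((-t : ℝ) : ℂ) * I) = 1 / 2 - t * I := by
    push_cast
    ring
  rw [e] at h
  rw [h]
  norm_num
  exact div_self_le_one _

lemma xf_cont : Continuous (fun t : ℝ => XF (1 / 2 - t * I)) := by
  have h := xf_diff.continuousOn
  refine h.comp_continuous (by fun_prop) (fun t => ?_)
  show ((1 / 2 : ℂ) - t * I).re < 1
  simp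
  norm_num

end MeanSqAux

open MeanSqAux in
open Pool.Agent.P4f18dfS.MVAux (wt_integrable wt_integrableC norm_exp_I gauss_int) in
theorem mean_sq {S : Finset (ℕ × ℕ)} {c : ℕ × ℕ → ℝ} {Y τ Δ : ℝ} (hΔ : 0 < Δ)
    (hS : ∀ p ∈ S, 1 ≤ p.1 ∧ 1 ≤ p.2 ∧ p.1.Coprime p.2 ∧ (p.1 : ℝ) * (p.2 : ℝ) ≤ Y) :
    (Integrable fun t : ℝ => wt τ Δ t * ‖As S c t‖ ^ 2) ∧
    |(∫ t : ℝ, wt τ Δ t * ‖As S c t‖ ^ 2) - Real.sqrt Real.pi * Δ * ∑ p ∈ S, c p ^ 2| ≤
      Real.sqrt Real.pi * Δ * (∑ p ∈ S, |c p|) ^ 2 * Real.exp (-(Δ ^ 2 / (16 * Y ^ 2))) := by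
  classical
  have hs0 : 0 ≤ ∑ p ∈ S, |c p| := Finset.sum_nonneg fun p _ => abs_nonneg _
  refine ⟨?_, ?_⟩
  · refine ((wt_integrable hΔ τ).mul_const ((∑ p ∈ S, |c p|) ^ 2)).mono ?_
      (Filter.Eventually.of_forall fun t => ?_)
    · refine (wt_integrable hΔ τ).aestronglyMeasurable.mul ?_
      exact ((As_continuous S c).norm.pow 2).aestronglyMeasurable
    · rw [norm_mul, norm_mul, norm_pow, norm_norm, Real.norm_of_nonneg (by positivity :
        0 ≤ (∑ p ∈ S, |c p|) ^ 2)]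
      have := As_norm_le S c t
      gcongr
  · have hint : ∀ p ∈ S, ∀ p' ∈ S, Integrable (fun t : ℝ => (wt τ Δ t : ℂ) *
        (((c p * c p' : ℝ) : ℂ) * cexp (-(I * ((lf p - lf p' : ℝ) : ℂ) * t)))) := by
      intro p _ p' _
      have h1 := (integrable_osc (τ := τ) hΔ (lf p - lf p')).const_mul ((c p * c p' : ℝ) : ℂ)
      refine h1.congr (Filter.Eventually.of_forall fun t => ?_)
      simp only
      ring
    have h1 : (((∫ t : ℝ, wt τ Δ t * ‖As S c t‖ ^ 2 : ℝ)) : ℂ) =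
        ∑ p ∈ S, ∑ p' ∈ S, ((c p * c p' : ℝ) : ℂ) *
          (((Real.sqrt Real.pi * Δ : ℝ) : ℂ) * (cexp (-(I * ((lf p - lf p' : ℝ) : ℂ) * τ)) *
            ((Real.exp (-(Δ ^ 2 * (lf p - lf p') ^ 2 / 4)) : ℝ) : ℂ))) := by
      rw [← integral_complex_ofReal]
      have h2 : ∀ t : ℝ, ((wt τ Δ t * ‖As S c t‖ ^ 2 : ℝ) : ℂ) =
          ∑ p ∈ S, ∑ p' ∈ S, (wt τ Δ t : ℂ) *
            (((c p * c p' : ℝ) : ℂ) * cexp (-(I * ((lf p - lf p' : ℝ) : ℂ) * t))) := by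
        intro t
        rw [Complex.ofReal_mul, sq_expand, Finset.mul_sum]
        exact Finset.sum_congr rfl fun p _ => Finset.mul_sum _ _ _
      simp_rw [h2]
      rw [integral_finsetSum _ (fun p hp => integrable_finsetSum _ (hint p hp))]
      refine Finset.sum_congr rfl fun p hp => ?_
      rw [integral_finsetSum _ (hint p hp)]
      refine Finset.sum_congr rfl fun p' _ => ?_
      rw [← gauss_int hΔ, ← integral_const_mul]
      refine integral_congr_ae (Filter.Eventually.of_forall fun t => ?_)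
      simp only
      ring
    have h3 : ((((∫ t : ℝ, wt τ Δ t * ‖As S c t‖ ^ 2) -
        Real.sqrt Real.pi * Δ * ∑ p ∈ S, c p ^ 2 : ℝ)) : ℂ) =
        ∑ p ∈ S, ∑ p' ∈ S, (if p = p' then 0 else ((c p * c p' : ℝ) : ℂ) *
          (((Real.sqrt Real.pi * Δ : ℝ) : ℂ) * (cexp (-(I * ((lf p - lf p' : ℝ) : ℂ) * τ)) *
            ((Real.exp (-(Δ ^ 2 * (lf p - lf p') ^ 2 / 4)) : ℝ) : ℂ)))) := by
      have e2 : ((Real.sqrt Real.pi * Δ * ∑ p ∈ S, c p ^ 2 : ℝ) : ℂ) =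
          ∑ p ∈ S, ((Real.sqrt Real.pi * Δ * c p ^ 2 : ℝ) : ℂ) := by
        rw [Finset.mul_sum, Complex.ofReal_sum]
      rw [Complex.ofReal_sub, h1, e2, ← Finset.sum_sub_distrib]
      refine Finset.sum_congr rfl fun p hp => ?_
      rw [← Finset.add_sum_erase S _ hp, ← Finset.add_sum_erase S (fun p' => if p = p' then (0:ℂ)
        else _) hp]
      rw [if_pos rfl, zero_add]
      have h4 : ∑ x ∈ S.erase p, (if p = x then 0 else ((c p * c x : ℝ) : ℂ) *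
          (((Real.sqrt Real.pi * Δ : ℝ) : ℂ) * (cexp (-(I * ((lf p - lf x : ℝ) : ℂ) * τ)) *
            ((Real.exp (-(Δ ^ 2 * (lf p - lf x) ^ 2 / 4)) : ℝ) : ℂ)))) =
          ∑ x ∈ S.erase p, ((c p * c x : ℝ) : ℂ) *
          (((Real.sqrt Real.pi * Δ : ℝ) : ℂ) * (cexp (-(I * ((lf p - lf x : ℝ) : ℂ) * τ)) *
            ((Real.exp (-(Δ ^ 2 * (lf p - lf x) ^ 2 / 4)) : ℝ) : ℂ))) := by
        refine Finset.sum_congr rfl fun x hx => ?_
        rw [if_neg (Finset.ne_of_mem_erase hx).symm]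
      rw [h4, sub_self]
      simp only [Complex.ofReal_zero, mul_zero, zero_mul, neg_zero, Complex.exp_zero, one_mul,
        ne_eq, OfNat.ofNat_ne_zero, not_false_eq_true, zero_pow, zero_div, Real.exp_zero,
        Complex.ofReal_one, mul_one]
      push_cast
      ring
    have h5 : |(∫ t : ℝ, wt τ Δ t * ‖As S c t‖ ^ 2) - Real.sqrt Real.pi * Δ * ∑ p ∈ S, c p ^ 2| =
        ‖((((∫ t : ℝ, wt τ Δ t * ‖As S c t‖ ^ 2) -
          Real.sqrt Real.pi * Δ * ∑ p ∈ S, c p ^ 2 : ℝ)) : ℂ)‖ := by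
      rw [Complex.norm_real, Real.norm_eq_abs]
    rw [h5, h3]
    refine (norm_sum_le _ _).trans ?_
    have h6 : Real.sqrt Real.pi * Δ * (∑ p ∈ S, |c p|) ^ 2 * Real.exp (-(Δ ^ 2 / (16 * Y ^ 2))) =
        ∑ p ∈ S, ∑ p' ∈ S, |c p| * |c p'| * (Real.sqrt Real.pi * Δ *
          Real.exp (-(Δ ^ 2 / (16 * Y ^ 2)))) := by
      rw [sq (∑ p ∈ S, |c p|), Finset.sum_mul_sum, Finset.mul_sum, Finset.sum_mul]
      refine Finset.sum_congr rfl fun p _ => ?_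
      rw [Finset.mul_sum, Finset.sum_mul]
      exact Finset.sum_congr rfl fun p' _ => by ring
    rw [h6]
    refine Finset.sum_le_sum fun p hp => (norm_sum_le _ _).trans (Finset.sum_le_sum fun p' hp' => ?_)
    by_cases hpp : p = p'
    · rw [if_pos hpp, norm_zero]
      positivity
    · rw [if_neg hpp, norm_mul, norm_mul, norm_mul, norm_exp_I, one_mul, Complex.norm_real,
        Complex.norm_real, Complex.norm_real, Real.norm_eq_abs, Real.norm_eq_abs, Real.norm_eq_abs,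
        abs_mul, abs_of_nonneg (by positivity : 0 ≤ Real.sqrt Real.pi * Δ),
        abs_of_pos (Real.exp_pos _)]
      have hsp := spacing (hS p hp) (hS p' hp') hpp
      have hYpos : 0 < Y := by
        obtain ⟨h7, h8, _, h9⟩ := hS p hp
        have h7' : (1 : ℝ) ≤ p.1 := by exact_mod_cast h7
        have h8' : (1 : ℝ) ≤ p.2 := by exact_mod_cast h8
        nlinarith
      have hsq : 1 / (4 * Y ^ 2) ≤ (lf p - lf p') ^ 2 := by
        rw [← sq_abs (lf p - lf p')]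
        calc 1 / (4 * Y ^ 2) = (1 / (2 * Y)) ^ 2 := by
              field_simp
              norm_num
          _ ≤ |lf p - lf p'| ^ 2 := pow_le_pow_left₀ (by positivity) hsp 2
      have hexp : Real.exp (-(Δ ^ 2 * (lf p - lf p') ^ 2 / 4)) ≤
          Real.exp (-(Δ ^ 2 / (16 * Y ^ 2))) := by
        apply Real.exp_le_exp.mpr
        have h9 : Δ ^ 2 * (1 / (4 * Y ^ 2)) ≤ Δ ^ 2 * (lf p - lf p') ^ 2 := by gcongr
        have h10 : Δ ^ 2 / (16 * Y ^ 2) = Δ ^ 2 * (1 / (4 * Y ^ 2)) / 4 := by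
          field_simp
          norm_num
        rw [h10]
        linarith
      gcongr

open MeanSqAux in
open Pool.Agent.P4f18dfS.MVAux (wt_integrable wt_integrableC norm_exp_I gauss_int) in
theorem cross : ∃ C : ℝ, 0 < C ∧ ∀ (S : Finset (ℕ × ℕ)) (c : ℕ × ℕ → ℝ) (P τ Δ : ℝ), 1 ≤ Δ → 1 ≤ P →
    4 * Real.pi * P ≤ τ → (∀ p ∈ S, 1 ≤ p.1 ∧ 1 ≤ p.2 ∧ (p.1 : ℝ) ^ 2 ≤ P) →
    (Integrable fun t : ℝ => (wt τ Δ t : ℂ) * XF (1 / 2 - t * I) * As S c t ^ 2) ∧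
    ‖∫ t : ℝ, (wt τ Δ t : ℂ) * XF (1 / 2 - t * I) * As S c t ^ 2‖ ≤
      C * ((1 + P / Δ) / Δ + Real.exp (-((τ / Δ) ^ 2 / 4))) *
        (∑ p ∈ S, |c p| * ((p.1 : ℝ) / p.2) ^ (1 / 2 : ℝ)) ^ 2 := by
  obtain ⟨C, hC, hwf⟩ := wf_cmp
  refine ⟨C + 4 * Real.pi, by positivity, fun S c P τ Δ hΔ hP hτ hS => ?_⟩
  have hΔ0 : 0 < Δ := by linarith
  have hpi := Real.pi_pos
  have hτ0 : 0 < τ := lt_of_lt_of_le (by positivity) hτ
  have hiX : ∀ f : ℝ → ℂ, Continuous f → ∀ M : ℝ, (∀ t, ‖f t‖ ≤ M) →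
      Integrable (fun t : ℝ => (wt τ Δ t : ℂ) * XF (1 / 2 - t * I) * f t) := by
    intro f hf M hM
    have hM0 : 0 ≤ M := (norm_nonneg _).trans (hM 0)
    refine ((wt_integrableC hΔ0 τ).mul_const (M : ℂ)).mono ?_
      (Filter.Eventually.of_forall fun t => ?_)
    · exact ((wt_integrableC hΔ0 τ).aestronglyMeasurable.mul
        xf_cont.aestronglyMeasurable).mul hf.aestronglyMeasurable
    · rw [norm_mul, norm_mul, norm_mul, Complex.norm_real M, Real.norm_of_nonneg hM0]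
      calc ‖(wt τ Δ t : ℂ)‖ * ‖XF (1 / 2 - t * I)‖ * ‖f t‖ ≤ ‖(wt τ Δ t : ℂ)‖ * 1 * M := by
            have h1 := xf_norm_le t
            have h2 := hM t
            gcongr
        _ = _ := by ring
  refine ⟨hiX (fun t => As S c t ^ 2) ((As_continuous S c).pow 2) ((∑ p ∈ S, |c p|) ^ 2)
    (fun t => by rw [norm_pow]; exact pow_le_pow_left₀ (norm_nonneg _) (As_norm_le S c t) 2), ?_⟩
  -- the value of one term
  have hterm : ∀ p ∈ S, ∀ p' ∈ S,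
      ‖∫ t : ℝ, (wt τ Δ t : ℂ) * XF (1 / 2 - t * I) * cexp (-(I * ((lf p + lf p' : ℝ) : ℂ) * t))‖ ≤
        ((p.1 : ℝ) / p.2) ^ (1 / 2 : ℝ) * ((p'.1 : ℝ) / p'.2) ^ (1 / 2 : ℝ) *
          ((C + 4 * Real.pi) * ((1 + P / Δ) / Δ + Real.exp (-((τ / Δ) ^ 2 / 4)))) := by
    intro p hp p' hp'
    obtain ⟨h1, h2, h3⟩ := hS p hp
    obtain ⟨h1', h2', h3'⟩ := hS p' hp'
    have g1 : (1 : ℝ) ≤ p.1 := by exact_mod_cast h1
    have g2 : (1 : ℝ) ≤ p.2 := by exact_mod_cast h2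
    have g1' : (1 : ℝ) ≤ p'.1 := by exact_mod_cast h1'
    have g2' : (1 : ℝ) ≤ p'.2 := by exact_mod_cast h2'
    set Y : ℝ := ((p.1 : ℝ) / p.2) * ((p'.1 : ℝ) / p'.2) with hY
    have hY0 : 0 < Y := by positivity
    have hYP : Y ≤ P := by
      have h4 : (p.1 : ℝ) / p.2 ≤ p.1 := div_le_self (by linarith) g2
      have h5 : (p'.1 : ℝ) / p'.2 ≤ p'.1 := div_le_self (by linarith) g2'
      have h6 : Y ≤ p.1 * p'.1 := mul_le_mul h4 h5 (by positivity) (by linarith)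
      nlinarith [sq_nonneg ((p.1 : ℝ) - p'.1)]
    have hlog : lf p + lf p' = Real.log Y := by
      rw [hY, Real.log_mul (by positivity) (by positivity), Real.log_div (by positivity)
        (by positivity), Real.log_div (by positivity) (by positivity)]
      rfl
    have hint : (∫ t : ℝ, (wt τ Δ t : ℂ) * XF (1 / 2 - t * I) *
        cexp (-(I * ((lf p + lf p' : ℝ) : ℂ) * t))) = (Y ^ (1 / 2 : ℝ) : ℝ) * Wf τ Δ Y := by
      unfold Wf
      rw [← integral_const_mul]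
      refine integral_congr_ae (Filter.Eventually.of_forall fun t => ?_)
      simp only
      have h7 : cexp (-(I * ((lf p + lf p' : ℝ) : ℂ) * t)) =
          ((Y ^ (1 / 2 : ℝ) : ℝ) : ℂ) * (Y : ℂ) ^ (-(1 / 2 + (t : ℂ) * I)) := by
        have hYne : (Y : ℂ) ≠ 0 := by exact_mod_cast hY0.ne'
        rw [Complex.ofReal_cpow hY0.le, ← Complex.cpow_add _ _ hYne, Complex.cpow_def_of_ne_zero hYne,
          ← Complex.ofReal_log hY0.le, hlog]
        congr 1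
        push_cast
        ring
      rw [h7]
      ring
    rw [hint, norm_mul, Complex.norm_real, Real.norm_of_nonneg (by positivity), hY,
      Real.mul_rpow (by positivity) (by positivity), ← hY]
    have hW := hwf τ Δ Y hΔ hτ0.le hY0
    have hG : GG τ Δ Y ≤ Real.exp (-((τ / Δ) ^ 2 / 4)) := by
      unfold GG
      apply Real.exp_le_exp.mpr
      have h8 : τ / 2 ≤ τ - 2 * Real.pi * Y := by nlinarith
      have h9 : (τ / Δ) / 2 ≤ (τ - 2 * Real.pi * Y) / Δ := by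
        rw [div_right_comm]
        gcongr
      have h10 : ((τ / Δ) / 2) ^ 2 ≤ ((τ - 2 * Real.pi * Y) / Δ) ^ 2 :=
        pow_le_pow_left₀ (by positivity) h9 2
      have h11 : ((2 * Real.pi * Y - τ) / Δ) ^ 2 = ((τ - 2 * Real.pi * Y) / Δ) ^ 2 := by
        ring
      rw [h11]
      nlinarith
    have hE : Real.exp (-(τ / Δ) ^ 2) ≤ Real.exp (-((τ / Δ) ^ 2 / 4)) := by
      apply Real.exp_le_exp.mpr
      nlinarith [sq_nonneg (τ / Δ)]
    have hee : ‖ee (-Y)‖ = 1 := by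
      unfold ee
      have : (2 * (Real.pi : ℂ) * ((-Y : ℝ) : ℂ) * I) = ((2 * Real.pi * (-Y) : ℝ) : ℂ) * I := by
        push_cast
        ring
      rw [this, Complex.norm_exp_ofReal_mul_I]
    have hmain : ‖2 * (Real.pi : ℂ) * ee (-Y) * (GG τ Δ Y : ℂ)‖ ≤
        2 * Real.pi * Real.exp (-((τ / Δ) ^ 2 / 4)) := by
      have hGG : 0 ≤ GG τ Δ Y := (Real.exp_pos _).le
      rw [norm_mul, norm_mul, hee, mul_one, Complex.norm_real, Real.norm_of_nonneg hGG]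
      have h12 : ‖(2 * (Real.pi : ℂ))‖ = 2 * Real.pi := by
        rw [norm_mul, Complex.norm_real, Real.norm_of_nonneg hpi.le]
        norm_num
      rw [h12]
      gcongr
    have hWn : ‖Wf τ Δ Y‖ ≤ (C + 4 * Real.pi) * ((1 + P / Δ) / Δ + Real.exp (-((τ / Δ) ^ 2 / 4))) := by
      have h13 : ‖Wf τ Δ Y‖ ≤ ‖Wf τ Δ Y - 2 * Real.pi * ee (-Y) * (GG τ Δ Y : ℂ)‖ +
          ‖2 * (Real.pi : ℂ) * ee (-Y) * (GG τ Δ Y : ℂ)‖ := by
        have := norm_add_le (Wf τ Δ Y - 2 * Real.pi * ee (-Y) * (GG τ Δ Y : ℂ))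
          (2 * (Real.pi : ℂ) * ee (-Y) * (GG τ Δ Y : ℂ))
        rwa [sub_add_cancel] at this
      have h14 : C * ((1 + Y / Δ) / Δ) ≤ C * ((1 + P / Δ) / Δ) := by gcongr
      have h15 : 0 ≤ 4 * Real.pi * ((1 + P / Δ) / Δ) := by positivity
      have h16 : 0 ≤ C * Real.exp (-((τ / Δ) ^ 2 / 4)) := by positivity
      nlinarith
    gcongr
  have hexp : ∀ t : ℝ, (wt τ Δ t : ℂ) * XF (1 / 2 - t * I) * As S c t ^ 2 =
      ∑ p ∈ S, ∑ p' ∈ S, ((c p * c p' : ℝ) : ℂ) * ((wt τ Δ t : ℂ) * XF (1 / 2 - t * I) *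
        cexp (-(I * ((lf p + lf p' : ℝ) : ℂ) * t))) := by
    intro t
    rw [sq_expand2, Finset.mul_sum]
    refine Finset.sum_congr rfl fun p _ => ?_
    rw [Finset.mul_sum]
    exact Finset.sum_congr rfl fun p' _ => by ring
  have hint : ∀ p ∈ S, ∀ p' ∈ S, Integrable (fun t : ℝ => ((c p * c p' : ℝ) : ℂ) *
      ((wt τ Δ t : ℂ) * XF (1 / 2 - t * I) * cexp (-(I * ((lf p + lf p' : ℝ) : ℂ) * t)))) := by
    intro p _ p' _
    refine (hiX (fun t => cexp (-(I * ((lf p + lf p' : ℝ) : ℂ) * t))) (by fun_prop) 1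
      (fun t => ?_)).const_mul _
    rw [norm_exp_I]
  simp_rw [hexp]
  rw [integral_finsetSum _ (fun p hp => integrable_finsetSum _ (hint p hp))]
  refine (norm_sum_le _ _).trans ?_
  have h6 : (C + 4 * Real.pi) * ((1 + P / Δ) / Δ + Real.exp (-((τ / Δ) ^ 2 / 4))) *
      (∑ p ∈ S, |c p| * ((p.1 : ℝ) / p.2) ^ (1 / 2 : ℝ)) ^ 2 =
      ∑ p ∈ S, ∑ p' ∈ S, |c p| * |c p'| * (((p.1 : ℝ) / p.2) ^ (1 / 2 : ℝ) *
        ((p'.1 : ℝ) / p'.2) ^ (1 / 2 : ℝ) *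
          ((C + 4 * Real.pi) * ((1 + P / Δ) / Δ + Real.exp (-((τ / Δ) ^ 2 / 4))))) := by
    rw [sq (∑ p ∈ S, |c p| * ((p.1 : ℝ) / p.2) ^ (1 / 2 : ℝ)), Finset.sum_mul_sum, Finset.mul_sum]
    refine Finset.sum_congr rfl fun p _ => ?_
    rw [Finset.mul_sum]
    exact Finset.sum_congr rfl fun p' _ => by ring
  rw [h6]
  refine Finset.sum_le_sum fun p hp => ?_
  rw [integral_finsetSum _ (hint p hp)]
  refine (norm_sum_le _ _).trans (Finset.sum_le_sum fun p' hp' => ?_)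
  rw [integral_const_mul, norm_mul, Complex.norm_real, Real.norm_eq_abs, abs_mul]
  exact mul_le_mul_of_nonneg_left (hterm p hp p' hp') (by positivity)

end Pool.Agent.P07318m
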