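import Pool.Agent.Lib.P07318m.Defs
import Pool.Agent.Lib.P07318m.EulerB

/-!
# P07318m.PrSeries: the Dirichlet series of the principal part

`∑ d3(n) rho(a,n) n^{-z} = ζ(z)^3 a^{-z} Ka a z` for `Re z > 1`, `a ≥ 1`.
PROOF. (1) Ramanujan sum identity: `φ(a) rho(a,n) = ∑_{d | gcd(a,n)} d μ(a/d)` for `n ≥ 1` (Hölder: `μ(q) φ(a)/φ(q)`, `q = a/gcd(a,n)`. Both sides
are multiplicative in the prime powers of `a`; for `a = p^v`, `j = v_p(n)`: both are `φ(p^v)` if `j ≥ v`, `-p^{v-1}` if `j = v-1`, `0` if `j < v-1`).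
(2) `∑_n d3(n) n^{-z} ∑_{d | (a,n)} d μ(a/d) = ∑_{d | a} d^{1-z} μ(a/d) ∑_m d3(d m) m^{-z} = ζ(z)^3 ∑_{d|a} d^{1-z} μ(a/d) Bg 1 d z` (`d3_zeta`).
(3) `∑_{d | a} μ(a/d) d^{1-z} Bg 1 d z` is a Dirichlet convolution of multiplicative functions, hence
`= ∏_{p^v || a} (p^{v(1-z)} Bp v x - p^{(v-1)(1-z)} Bp (v-1) x)`, `x = p^{-z}`, and `φ(a) = ∏ p^v (1-1/p)`;
`p^{v(1-z)} p^{z-1} = p^{(v-1)(1-z)}`, so the product divided by `φ(a)` is `a^{-z} ∏ Kl p v z`.
(Alternatively: induction over the coprime prime powers of `a` for the statement as a whole, `Nat.recOnPosPrimePosCoprime`.)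
-/

set_option autoImplicit false

open MeasureTheory Complex

namespace Pool.Agent.P07318m

theorem rho_abs_le (a n : ℕ) : |rho a n| ≤ 1 := by
  unfold rho
  rw [abs_div]
  have h1 : |((ArithmeticFunction.moebius (a / n.gcd a) : ℤ) : ℝ)| ≤ 1 := by
    exact_mod_cast ArithmeticFunction.abs_moebius_le_one (n := a / n.gcd a)
  rcases Nat.eq_zero_or_pos (a / n.gcd a).totient with h | h
  · rw [h]
    simp
  · have h2 : (1 : ℝ) ≤ ((a / n.gcd a).totient : ℝ) := by exact_mod_cast h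
    rw [abs_of_nonneg (by positivity : (0 : ℝ) ≤ ((a / n.gcd a).totient : ℝ)),
      div_le_one (by linarith)]
    linarith

namespace PrSeriesAux

lemma prod_mul (K : ℕ → ℕ → ℂ) {a b : ℕ} (h : a.Coprime b) :
    ∏ p ∈ (a * b).primeFactors, K p ((a * b).factorization p) =
      (∏ p ∈ a.primeFactors, K p (a.factorization p)) *
        ∏ p ∈ b.primeFactors, K p (b.factorization p) := by
  rw [h.primeFactors_mul, Finset.prod_union h.disjoint_primeFactors]
  congr 1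
  · refine Finset.prod_congr rfl fun p hp => ?_
    rw [Nat.factorization_eq_of_coprime_left h (by simpa using hp)]
  · refine Finset.prod_congr rfl fun p hp => ?_
    rw [Nat.factorization_eq_of_coprime_right h (by simpa using hp)]

lemma prod_pow (K : ℕ → ℕ → ℂ) {p v : ℕ} (hp : p.Prime) (hv : v ≠ 0) :
    ∏ q ∈ (p ^ v).primeFactors, K q ((p ^ v).factorization q) = K p v := by
  rw [Nat.primeFactors_prime_pow hv hp, Finset.prod_singleton, hp.factorization_pow,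
    Finsupp.single_eq_same]

/-- The numerator of `rho`. -/
noncomputable def LF (n : ℕ) : ArithmeticFunction ℝ :=
  ⟨fun a => (a.totient : ℝ) * rho a n, by simp⟩

/-- The function `a [a ∣ n]`. -/
noncomputable def gF (n : ℕ) : ArithmeticFunction ℝ :=
  ⟨fun a => if a ∣ n then (a : ℝ) else 0, by simp⟩

lemma LF_apply (n a : ℕ) : LF n a = (a.totient : ℝ) * rho a n := rfl

lemma gF_apply (n a : ℕ) : gF n a = if a ∣ n then (a : ℝ) else 0 := rfl

lemma gF_mult (n : ℕ) : (gF n).IsMultiplicative := by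
  refine ⟨by simp [gF_apply], fun {a b} hab => ?_⟩
  rw [gF_apply, gF_apply, gF_apply]
  by_cases ha : a ∣ n
  · by_cases hb : b ∣ n
    · rw [if_pos ha, if_pos hb, if_pos (hab.mul_dvd_of_dvd_of_dvd ha hb)]
      push_cast
      rfl
    · rw [if_neg hb, if_neg (fun h => hb ((dvd_mul_left b a).trans h)), mul_zero]
  · rw [if_neg ha, if_neg (fun h => ha ((dvd_mul_right a b).trans h)), zero_mul]

lemma LF_mult (n : ℕ) : (LF n).IsMultiplicative := by
  refine ⟨by simp [LF_apply, rho], fun {a b} hab => ?_⟩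
  rw [LF_apply, LF_apply, LF_apply, Nat.totient_mul hab]
  unfold rho
  rw [Nat.Coprime.gcd_mul n hab, ← Nat.div_mul_div_comm (Nat.gcd_dvd_right n a)
    (Nat.gcd_dvd_right n b)]
  have h1 : (a / n.gcd a).Coprime (b / n.gcd b) :=
    Nat.Coprime.coprime_div_left (Nat.Coprime.coprime_div_right hab (Nat.gcd_dvd_right n b))
      (Nat.gcd_dvd_right n a)
  rw [ArithmeticFunction.isMultiplicative_moebius.map_mul_of_coprime h1, Nat.totient_mul h1]
  push_cast
  rw [mul_div_mul_comm]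
  ring

lemma LF_step (n k : ℕ) {p : ℕ} (hp : p.Prime) :
    LF n (p ^ (k + 1)) = gF n (p ^ (k + 1)) - gF n (p ^ k) := by
  have hp1 : (1 : ℝ) < p := by exact_mod_cast hp.one_lt
  have hp0 : (p : ℝ) - 1 ≠ 0 := by linarith
  have hcast : ((p - 1 : ℕ) : ℝ) = (p : ℝ) - 1 := by
    rw [Nat.cast_sub hp.one_lt.le, Nat.cast_one]
  rw [LF_apply, gF_apply, gF_apply, Nat.totient_prime_pow_succ hp]
  unfold rho
  obtain ⟨j, hj, hgcd⟩ := (Nat.dvd_prime_pow hp).mp (Nat.gcd_dvd_right n (p ^ (k + 1)))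
  rw [hgcd, Nat.pow_div hj hp.pos]
  have hdn : p ^ j ∣ n := by
    rw [← hgcd]
    exact Nat.gcd_dvd_left _ _
  have hmax : ∀ i, i ≤ k + 1 → p ^ i ∣ n → i ≤ j := by
    intro i hi hin
    have h1 : p ^ i ∣ p ^ j := by
      rw [← hgcd]
      exact Nat.dvd_gcd hin (pow_dvd_pow p hi)
    exact (Nat.pow_dvd_pow_iff_le_right hp.one_lt).mp h1
  rcases Nat.lt_or_ge j (k + 1) with hjk | hjk
  · have hnot : ¬ p ^ (k + 1) ∣ n := fun h => by
      have := hmax (k + 1) le_rfl h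
      omega
    rw [if_neg hnot]
    rcases Nat.lt_or_ge j k with hjk2 | hjk2
    · have hnot2 : ¬ p ^ k ∣ n := fun h => by
        have := hmax k (by omega) h
        omega
      rw [if_neg hnot2, ArithmeticFunction.moebius_apply_prime_pow hp (by omega : k + 1 - j ≠ 0),
        if_neg (by omega : ¬ k + 1 - j = 1)]
      simp
    · have hjk3 : j = k := by omega
      rw [hjk3] at hdn ⊢
      rw [if_pos hdn, show k + 1 - k = 1 by omega, pow_one, ArithmeticFunction.moebius_apply_prime hp,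
        Nat.totient_prime hp]
      push_cast
      rw [hcast]
      field_simp
      ring
  · have hjk3 : j = k + 1 := by omega
    rw [hjk3] at hdn ⊢
    have hdn2 : p ^ k ∣ n := (pow_dvd_pow p (Nat.le_succ k)).trans hdn
    rw [if_pos hdn, if_pos hdn2, Nat.sub_self, pow_zero]
    simp only [ArithmeticFunction.moebius_apply_one, Int.cast_one, Nat.totient_one, Nat.cast_one,
      div_one, mul_one]
    push_cast
    rw [hcast]
    ring

lemma zeta_LF (n : ℕ) : (ArithmeticFunction.zeta : ArithmeticFunction ℝ) * LF n = gF n := by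
  rw [ArithmeticFunction.IsMultiplicative.eq_iff_eq_on_prime_powers _
    (ArithmeticFunction.isMultiplicative_zeta.natCast.mul (LF_mult n)) _ (gF_mult n)]
  intro p i hp
  rw [ArithmeticFunction.coe_zeta_mul_apply, Nat.sum_divisors_prime_pow hp]
  induction i with
  | zero =>
    simp only [zero_add, Finset.range_one, Finset.sum_singleton, pow_zero]
    rw [(LF_mult n).map_one, (gF_mult n).map_one]
  | succ i ih =>
    rw [Finset.sum_range_succ, ih, LF_step n i hp]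
    ring

lemma sum_LF (n a : ℕ) : ∑ d ∈ a.divisors, LF n d = if a ∣ n then (a : ℝ) else 0 := by
  rw [← gF_apply, ← zeta_LF, ArithmeticFunction.coe_zeta_mul_apply]

/-- `f(d) = d^{1-z} Bg 1 d z`. -/
noncomputable def fF (z : ℂ) : ArithmeticFunction ℂ :=
  ⟨fun d => if d = 0 then 0 else (d : ℂ) ^ (1 - z) * Bg (fun _ => 1) d z, by simp⟩

/-- `G(d) = φ(d) d^{-z} Ka d z`. -/
noncomputable def GF (z : ℂ) : ArithmeticFunction ℂ :=
  ⟨fun d => (d.totient : ℂ) * (d : ℂ) ^ (-z) * Ka d z, by simp⟩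

lemma fF_apply {z : ℂ} {d : ℕ} (hd : d ≠ 0) :
    fF z d = (d : ℂ) ^ (1 - z) * Bg (fun _ => 1) d z := if_neg hd

lemma GF_apply (z : ℂ) (d : ℕ) : GF z d = (d.totient : ℂ) * (d : ℂ) ^ (-z) * Ka d z := rfl

lemma fF_mult (z : ℂ) : (fF z).IsMultiplicative := by
  refine ⟨?_, fun {a b} hab => ?_⟩
  · rw [fF_apply one_ne_zero]
    simp [Bg]
  · by_cases ha : a = 0
    · rw [ha, zero_mul, ArithmeticFunction.map_zero, zero_mul]
    by_cases hb : b = 0
    · rw [hb, mul_zero, ArithmeticFunction.map_zero, mul_zero]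
    rw [fF_apply (mul_ne_zero ha hb), fF_apply ha, fF_apply hb, Nat.cast_mul,
      Complex.natCast_mul_natCast_cpow]
    have h1 : Bg (fun _ => 1) (a * b) z = Bg (fun _ => 1) a z * Bg (fun _ => 1) b z :=
      prod_mul (fun p v => Bp v (1 * (p : ℂ) ^ (-z))) hab
    rw [h1]
    ring

lemma GF_mult (z : ℂ) : (GF z).IsMultiplicative := by
  refine ⟨?_, fun {a b} hab => ?_⟩
  · rw [GF_apply]
    simp [Ka]
  · rw [GF_apply, GF_apply, GF_apply, Nat.totient_mul hab, Nat.cast_mul, Nat.cast_mul,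
      Complex.natCast_mul_natCast_cpow]
    have h1 : Ka (a * b) z = Ka a z * Ka b z := prod_mul (fun p v => Kl p v z) hab
    rw [h1]
    ring

lemma Bp_zero (x : ℂ) : Bp 0 x = 1 := by
  unfold Bp
  push_cast
  ring

lemma fF_pow (z : ℂ) {p : ℕ} (hp : p.Prime) (v : ℕ) :
    fF z (p ^ v) = ((p ^ v : ℕ) : ℂ) ^ (1 - z) * Bp v ((p : ℂ) ^ (-z)) := by
  rw [fF_apply (pow_ne_zero v hp.ne_zero)]
  congr 1
  rcases Nat.eq_zero_or_pos v with h | h
  · rw [h, pow_zero, Bp_zero]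
    simp [Bg]
  · have h1 : Bg (fun _ => 1) (p ^ v) z = Bp v (1 * (p : ℂ) ^ (-z)) :=
      prod_pow (fun p v => Bp v (1 * (p : ℂ) ^ (-z))) hp h.ne'
    rw [h1, one_mul]

lemma GF_step (z : ℂ) {p : ℕ} (hp : p.Prime) (v : ℕ) :
    GF z (p ^ (v + 1)) = fF z (p ^ (v + 1)) - fF z (p ^ v) := by
  have hp0 : (p : ℂ) ≠ 0 := by exact_mod_cast hp.ne_zero
  have hp1 : (p : ℂ) - 1 ≠ 0 := by
    rw [sub_ne_zero]
    exact_mod_cast hp.one_lt.ne'
  have hcast : ((p - 1 : ℕ) : ℂ) = (p : ℂ) - 1 := by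
    rw [Nat.cast_sub hp.one_lt.le, Nat.cast_one]
  have h1 : Ka (p ^ (v + 1)) z = Kl p (v + 1) z := prod_pow (fun p v => Kl p v z) hp (by omega)
  rw [GF_apply, fF_pow z hp, fF_pow z hp, h1, Nat.totient_prime_pow_succ hp]
  unfold Kl
  rw [Nat.add_sub_cancel]
  have e1 : ((p ^ (v + 1) : ℕ) : ℂ) ^ (1 - z) =
      (p : ℂ) ^ v * (p : ℂ) * ((p ^ (v + 1) : ℕ) : ℂ) ^ (-z) := by
    have h2 : ((p ^ (v + 1) : ℕ) : ℂ) ≠ 0 := by exact_mod_cast pow_ne_zero _ hp.ne_zero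
    rw [sub_eq_add_neg, Complex.cpow_add _ _ h2, Complex.cpow_one]
    push_cast
    ring
  have e2 : ((p ^ v : ℕ) : ℂ) ^ (1 - z) =
      (p : ℂ) ^ v * (p : ℂ) * ((p ^ (v + 1) : ℕ) : ℂ) ^ (-z) * (p : ℂ) ^ (z - 1) := by
    have h2 : ((p ^ v : ℕ) : ℂ) ≠ 0 := by exact_mod_cast pow_ne_zero _ hp.ne_zero
    have h3 : ((p ^ (v + 1) : ℕ) : ℂ) ^ (-z) = ((p ^ v : ℕ) : ℂ) ^ (-z) * (p : ℂ) ^ (-z) := by
      rw [pow_succ, Nat.cast_mul, Complex.natCast_mul_natCast_cpow]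
    have h4 : (p : ℂ) * (p : ℂ) ^ (-z) * (p : ℂ) ^ (z - 1) = 1 := by
      have h5 : (p : ℂ) ^ (-z) * (p : ℂ) ^ (z - 1) = (p : ℂ)⁻¹ := by
        rw [← Complex.cpow_add _ _ hp0, show -z + (z - 1) = -1 by ring, Complex.cpow_neg_one]
      rw [mul_assoc, h5, mul_inv_cancel₀ hp0]
    rw [sub_eq_add_neg, Complex.cpow_add _ _ h2, Complex.cpow_one, h3]
    push_cast
    linear_combination (-((p : ℂ) ^ v * ((p : ℂ) ^ v) ^ (-z))) * h4
  rw [e1, e2]
  push_cast
  rw [hcast]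
  field_simp

lemma zeta_GF (z : ℂ) : (ArithmeticFunction.zeta : ArithmeticFunction ℂ) * GF z = fF z := by
  rw [ArithmeticFunction.IsMultiplicative.eq_iff_eq_on_prime_powers _
    (ArithmeticFunction.isMultiplicative_zeta.natCast.mul (GF_mult z)) _ (fF_mult z)]
  intro p i hp
  rw [ArithmeticFunction.coe_zeta_mul_apply, Nat.sum_divisors_prime_pow hp]
  induction i with
  | zero =>
    simp only [zero_add, Finset.range_one, Finset.sum_singleton, pow_zero]
    rw [(GF_mult z).map_one, (fF_mult z).map_one]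
  | succ i ih =>
    rw [Finset.sum_range_succ, ih, GF_step z hp i]
    ring

lemma tsum_mult {a : ℕ} (ha : 1 ≤ a) {z : ℂ} :
    ∑' n : ℕ, ((d3 n : ℕ) : ℂ) * (n : ℂ) ^ (-z) * (((if a ∣ n then (a : ℝ) else 0 : ℝ)) : ℂ) =
      (a : ℂ) ^ (1 - z) * ∑' m : ℕ, ((d3 (a * m) : ℕ) : ℂ) * (m : ℂ) ^ (-z) := by
  have hinj : Function.Injective (fun m : ℕ => a * m) := fun x y h =>
    Nat.eq_of_mul_eq_mul_left ha h
  have h1 := hinj.tsum_eq (f := fun n : ℕ => ((d3 n : ℕ) : ℂ) * (n : ℂ) ^ (-z) *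
    (((if a ∣ n then (a : ℝ) else 0 : ℝ)) : ℂ)) (by
      intro n hn
      by_contra h
      apply hn
      have h2 : ¬ a ∣ n := by
        rintro ⟨m, rfl⟩
        exact h ⟨m, rfl⟩
      simp only [if_neg h2, Complex.ofReal_zero, mul_zero])
  rw [← h1, ← tsum_mul_left]
  refine tsum_congr fun m => ?_
  simp only [dvd_mul_right, if_true]
  have hane : (a : ℂ) ≠ 0 := by
    have : a ≠ 0 := by omega
    exact_mod_cast this
  rw [Nat.cast_mul, Complex.natCast_mul_natCast_cpow, sub_eq_add_neg, Complex.cpow_add _ _ hane,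
    Complex.cpow_one]
  push_cast
  ring

end PrSeriesAux

open PrSeriesAux in
theorem pr_series {a : ℕ} (ha : 1 ≤ a) {z : ℂ} (hz : 1 < z.re) :
    (Summable fun n : ℕ => ‖((d3 n : ℕ) : ℂ) * (rho a n : ℂ) * (n : ℂ) ^ (-z)‖) ∧
    ∑' n : ℕ, ((d3 n : ℕ) : ℂ) * (rho a n : ℂ) * (n : ℂ) ^ (-z) =
      riemannZeta z ^ 3 * (a : ℂ) ^ (-z) * Ka a z := by
  obtain ⟨hsum, _⟩ := zeta_cube hz
  have hS : ∀ d : ℕ, Summable fun n : ℕ => ((d3 n : ℕ) : ℂ) * (n : ℂ) ^ (-z) * (rho d n : ℂ) := by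
    intro d
    refine Summable.of_norm_bounded hsum fun n => ?_
    rw [norm_mul, Complex.norm_real, Real.norm_eq_abs]
    exact mul_le_of_le_one_right (norm_nonneg _) (rho_abs_le d n)
  refine ⟨?_, ?_⟩
  · refine Summable.of_nonneg_of_le (fun n => norm_nonneg _) (fun n => ?_) hsum
    rw [mul_right_comm, norm_mul, Complex.norm_real, Real.norm_eq_abs]
    exact mul_le_of_le_one_right (norm_nonneg _) (rho_abs_le a n)
  -- the sums with the factor `φ(d)`
  set Sg : ℕ → ℂ := fun d => ∑' n : ℕ, ((d3 n : ℕ) : ℂ) * (n : ℂ) ^ (-z) * ((LF n d : ℝ) : ℂ)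
    with hSg
  have hSgs : ∀ d : ℕ, Summable fun n : ℕ => ((d3 n : ℕ) : ℂ) * (n : ℂ) ^ (-z) *
      ((LF n d : ℝ) : ℂ) := by
    intro d
    refine ((hS d).mul_left (d.totient : ℂ)).congr fun n => ?_
    rw [LF_apply]
    push_cast
    ring
  have hSgv : ∀ d : ℕ, Sg d = (d.totient : ℂ) *
      ∑' n : ℕ, ((d3 n : ℕ) : ℂ) * (rho d n : ℂ) * (n : ℂ) ^ (-z) := by
    intro d
    rw [hSg, ← tsum_mul_left]
    refine tsum_congr fun n => ?_
    rw [LF_apply]
    push_cast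
    ring
  have hdiv : ∀ b : ℕ, b > 0 → ∑ d ∈ b.divisors, Sg d = riemannZeta z ^ 3 * fF z b := by
    intro b hb
    have h1 : ∑ d ∈ b.divisors, Sg d = ∑' n : ℕ, ((d3 n : ℕ) : ℂ) * (n : ℂ) ^ (-z) *
        (((if b ∣ n then (b : ℝ) else 0 : ℝ)) : ℂ) := by
      rw [hSg]
      simp only
      rw [← Summable.tsum_finsetSum (fun d _ => hSgs d)]
      refine tsum_congr fun n => ?_
      rw [← Finset.mul_sum, ← sum_LF n b]
      push_cast
      rfl
    rw [h1, tsum_mult hb, (d3_zeta hb hz).2, fF_apply (by omega)]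
    ring
  have hGd : ∀ b : ℕ, b > 0 → ∑ d ∈ b.divisors, riemannZeta z ^ 3 * GF z d =
      riemannZeta z ^ 3 * fF z b := by
    intro b _
    rw [← Finset.mul_sum, ← ArithmeticFunction.coe_zeta_mul_apply, zeta_GF]
  have e1 := ArithmeticFunction.sum_eq_iff_sum_mul_moebius_eq.mp hdiv a ha
  have e2 := ArithmeticFunction.sum_eq_iff_sum_mul_moebius_eq.mp hGd a ha
  have e3 : (a.totient : ℂ) * ∑' n : ℕ, ((d3 n : ℕ) : ℂ) * (rho a n : ℂ) * (n : ℂ) ^ (-z) =
      riemannZeta z ^ 3 * ((a.totient : ℂ) * (a : ℂ) ^ (-z) * Ka a z) := by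
    rw [← hSgv, ← GF_apply, ← e1, ← e2]
  have hφ : (a.totient : ℂ) ≠ 0 := by
    have : a.totient ≠ 0 := (Nat.totient_pos.mpr ha).ne'
    exact_mod_cast this
  apply mul_left_cancel₀ hφ
  rw [e3]
  ring

end Pool.Agent.P07318m
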