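import Pool.Agent.Lib.P07318m.Defs
import Pool.Agent.Lib.P07318m.Poles
import Pool.Agent.Lib.P07318m.GMel
import Pool.Agent.Lib.P07318m.KLoc
import Pool.Agent.Lib.P07318m.PrSeries
import Pool.Agent.Lib.P07318m.DAux
import Pool.Agent.Lib.P4f18dfS.ZPoly

/-!
# P07318m.PrMain: asymptotic evaluation of the principal part

For `1 ≤ Δ`, `τ^η ≤ τ/Δ`, `ab ≤ τ`:
`∑ d3(n) rho(a,n) G(nb/a) = (Δ√π/(2π b)) hh(a) ½[(log(τ/b) - ½ log a)² - ¾ sg a] + O((Δ/b) hh(a)(1+log τ)(1+dl a)) + O(V^20 τ^{1/2+ε} b^{-1/2})`.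
PROOF. `gh_inv` on `Re z = 2` and `pr_series` (`(nb/a)^{-z}`, `(a/b)^z a^{-z} = b^{-z}`; sum and integral interchanged absolutely):
the sum is `(1/2π) ∫ Gh(z) b^{-z} ζ(z)^3 Ka a z dξ` on `Re z = 2`. With `zE z = (z-1)ζ(z)` (entire, `P4f18dfS/ZPoly.lean`) put
`F(z) = Gh(z) b^{-z} Ka a z (zE z)^3`, `U = {0 < Re z}`; `pole3` (`ρ = 1`, `a = 1/2`, `b = 2`; `|F| ≤ K/(1+|Im z|)^2` from `gh_decay 20`, `ka_strip`,
`zE_poly 1`): the sum is `(1/2π) ∫_{Re z=1/2} Gh b^{-z} ζ^3 Ka dξ + ½ F''(1)`.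
Line `1/2`: `|Gh| ≤ C τ^{1/2} V^{20} (1+|ξ|)^{-20}`, `|ζ(1/2+iξ)|^3 ≤ C (1+|ξ|)^9`, `|Ka| ≤ C a^ε ≤ C τ^ε` (`ka_half`), `|b^{-z}| = b^{-1/2}`.
At `1`: `zE(1) = 1`. With `A(z) = Gh(z) b^{-z} Ka a z`: `|F''(1) - A''(1)| ≤ C(|A'(1)| + |A(1)|)`. With `u(z) = Gh(z) b^{-z}`, `ℓ = log(τ/b) ≥ 0`,
`g0 = Gh(1)`: `u(1) = g0/b`, `u'(1) = (g0 ℓ + O(Δ))/b`, `u''(1) = (g0 ℓ² + O(Δ(1+log τ)))/b` (`gh_one1`, `gh_one2`, `log b ≤ log τ`), `|g0| ≤ CΔ`,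
`A'' = u'' Ka + 2u' Ka' + u Ka''`, `ka_one`, `ka_deriv`, `ka_deriv2`:
`A''(1) = (g0/b) hh(a) [ℓ² - ℓ log a + ¼ log² a - ¾ sg a] + O((Δ/b) hh(a) (1+log τ)(1+dl a))` and `[..] = (ℓ - ½ log a)² - ¾ sg a`,
`|[..]| ≤ C (1+log τ)²`; `g0 = Δ√π/(2π) + O(Δ/τ)` (`gh_one`), the error here is `≤ C (Δ/(τ b)) hh(a) (1+log τ)² ≤ C (Δ/b) hh(a)(1+log τ)`.
`|A'(1)| + |A(1)| ≤ C (Δ/b) hh(a) (1+log τ)(1+dl a)`. Note the left side is real (`(..).re`), the statement is about a real series.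
-/

set_option autoImplicit false

open MeasureTheory Complex

namespace Pool.Agent.P07318m

open Pool.Agent.P4f18dfV

private lemma pm_deriv2_mul {f g : ℂ → ℂ} {U : Set ℂ} (hU : IsOpen U)
    (hf : DifferentiableOn ℂ f U) (hg : DifferentiableOn ℂ g U) {z : ℂ} (hz : z ∈ U) :
    deriv (fun w => f w * g w) z = deriv f z * g z + f z * deriv g z ∧
    deriv (deriv (fun w => f w * g w)) z =
      deriv (deriv f) z * g z + 2 * (deriv f z * deriv g z) + f z * deriv (deriv g) z := by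
  have hfd : ∀ w ∈ U, DifferentiableAt ℂ f w := fun w hw =>
    (hf w hw).differentiableAt (hU.mem_nhds hw)
  have hgd : ∀ w ∈ U, DifferentiableAt ℂ g w := fun w hw =>
    (hg w hw).differentiableAt (hU.mem_nhds hw)
  have hfd' : DifferentiableAt ℂ (deriv f) z :=
    ((hf.deriv hU) z hz).differentiableAt (hU.mem_nhds hz)
  have hgd' : DifferentiableAt ℂ (deriv g) z :=
    ((hg.deriv hU) z hz).differentiableAt (hU.mem_nhds hz)
  have h1 : ∀ w ∈ U, deriv (fun w => f w * g w) w = deriv f w * g w + f w * deriv g w :=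
    fun w hw => deriv_fun_mul (hfd w hw) (hgd w hw)
  refine ⟨h1 z hz, ?_⟩
  have h2 : deriv (fun w => f w * g w) =ᶠ[nhds z] fun w => deriv f w * g w + f w * deriv g w := by
    filter_upwards [hU.mem_nhds hz] with w hw using h1 w hw
  rw [h2.deriv_eq, deriv_fun_add (hfd'.fun_mul (hgd z hz)) ((hfd z hz).fun_mul hgd'),
    deriv_fun_mul hfd' (hgd z hz), deriv_fun_mul (hfd z hz) hgd']
  ring

private lemma pm_alg (C1 C2 C3 C4 C5 : ℝ) (hC1 : 0 ≤ C1) (hC2 : 0 ≤ C2) (hC3 : 0 ≤ C3)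
    (hC4 : 0 ≤ C4) (hC5 : 0 ≤ C5) (B1 B2 : ℂ) : ∃ C : ℝ, 0 < C ∧
    ∀ (τ Δ h d la lb s G0 : ℝ) (g0 g1 g2 K1 K2 : ℂ), 1 ≤ τ → 0 ≤ Δ → 0 ≤ h → 0 ≤ d → 0 ≤ la →
      la ≤ Real.log τ → 0 ≤ lb → lb ≤ Real.log τ → 0 ≤ s → s ≤ la ^ 2 → 0 ≤ G0 → G0 ≤ Δ →
      ‖g0 - (G0 : ℂ)‖ ≤ C1 * (Δ / τ) → ‖g1 - Real.log τ * g0‖ ≤ C2 * Δ →
      ‖g2 - (Real.log τ) ^ 2 * g0‖ ≤ C3 * Δ * (1 + Real.log τ) →
      ‖K1 + ((la / 2 * h : ℝ) : ℂ)‖ ≤ C4 * h * d →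
      ‖K2 - (((la ^ 2 / 4 - 3 / 4 * s) * h : ℝ) : ℂ)‖ ≤ C5 * h * (1 + la) * d →
      ‖((g2 - 2 * lb * g1 + lb ^ 2 * g0) * h + 2 * ((g1 - lb * g0) * K1) + g0 * K2) +
        2 * (((g1 - lb * g0) * h + g0 * K1) * B1) + g0 * h * B2 -
        ((G0 * h * ((Real.log τ - lb - la / 2) ^ 2 - 3 / 4 * s) : ℝ) : ℂ)‖ ≤
      C * (Δ * h * (1 + Real.log τ) * (1 + d)) := by
  set C0 : ℝ := 1 + C1 with hC0
  have hC0' : 0 ≤ C0 := by positivity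
  refine ⟨2 * C1 + (C3 + 2 * C2) + 2 * C0 * C4 + 2 * C2 * (1 + C4) + C0 * C5 +
    2 * ‖B1‖ * ((C0 + C2) + C0 * (1 + C4)) + C0 * ‖B2‖ + 1, by positivity, ?_⟩
  intro τ Δ h d la lb s G0 g0 g1 g2 K1 K2 hτ hΔ hh hd hla hla' hlb hlb' hs hs' hG0 hG0' n1 n2 n3
    n4 n5
  set lt : ℝ := Real.log τ with hlt
  have hlt0 : 0 ≤ lt := Real.log_nonneg hτ
  have hlτ : 1 + lt ≤ τ := by
    have := Real.log_le_sub_one_of_pos (lt_of_lt_of_le one_pos hτ)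
    rw [hlt]
    linarith
  clear_value lt
  set L : ℝ := 1 + lt with hL
  have hL1 : 1 ≤ L := by linarith
  set e1 : ℂ := g1 - lt * g0 with he1
  set e2' : ℂ := g2 - lt ^ 2 * g0 with he2'
  set k1 : ℂ := K1 + ((la / 2 * h : ℝ) : ℂ) with hk1
  set k2 : ℂ := K2 - (((la ^ 2 / 4 - 3 / 4 * s) * h : ℝ) : ℂ) with hk2
  set d0 : ℂ := g0 - (G0 : ℂ) with hd0
  clear_value e1 e2' k1 k2 d0
  have hτ0 : 0 < τ := by linarith
  have hg0 : ‖g0‖ ≤ C0 * Δ := by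
    have h1 : g0 = d0 + (G0 : ℂ) := by rw [hd0]; ring
    rw [h1]
    refine (norm_add_le _ _).trans ?_
    rw [Complex.norm_real, Real.norm_of_nonneg hG0]
    have h2 : Δ / τ ≤ Δ := div_le_self hΔ hτ
    have h3 := mul_le_mul_of_nonneg_left h2 hC1
    rw [hC0]
    linarith
  set ℓ : ℝ := lt - lb with hℓ
  have hℓ0 : 0 ≤ ℓ := by linarith
  have hℓL : ℓ ≤ L := by linarith
  set Q : ℝ := (ℓ - la / 2) ^ 2 - 3 / 4 * s with hQ
  clear_value C0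
  have hQ' : |Q| ≤ 2 * L ^ 2 := by
    have h1 : |ℓ - la / 2| ≤ L := by
      rw [abs_le]
      constructor <;> linarith
    have h2 : (ℓ - la / 2) ^ 2 ≤ L ^ 2 := by
      rw [← sq_abs]
      exact pow_le_pow_left₀ (abs_nonneg _) h1 2
    have h3 : s ≤ L ^ 2 := hs'.trans (pow_le_pow_left₀ hla (by linarith) 2)
    rw [abs_le]
    constructor
    · nlinarith [sq_nonneg (ℓ - la / 2), sq_nonneg L]
    · nlinarith [sq_nonneg L]
  have key : ((g2 - 2 * lb * g1 + lb ^ 2 * g0) * h + 2 * ((g1 - lb * g0) * K1) + g0 * K2) +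
        2 * (((g1 - lb * g0) * h + g0 * K1) * B1) + g0 * h * B2 -
        ((G0 * h * Q : ℝ) : ℂ) =
      d0 * (h * Q : ℝ) + (e2' - 2 * lb * e1) * h + 2 * g0 * ℓ * k1 +
        2 * e1 * (k1 - (la / 2 * h : ℝ)) + g0 * k2 +
        2 * (((g0 * ℓ + e1) * h + g0 * (k1 - (la / 2 * h : ℝ))) * B1) + g0 * h * B2 := by
    rw [hd0, he1, he2', hk1, hk2, hQ, hℓ]
    clear n1 n2 n3 n4 n5 hQ' hg0 hd0 he1 he2' hk1 hk2
    push_cast
    ring
  rw [key]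
  clear key
  clear_value ℓ Q
  have hX0 : 0 ≤ Δ * h := by positivity
  set X : ℝ := Δ * h * L * (1 + d) with hX
  have x1 : Δ * h ≤ X := by
    rw [hX, mul_assoc]
    have : 1 ≤ L * (1 + d) := by nlinarith
    nlinarith
  have x2 : Δ * h * L ≤ X := by
    rw [hX]
    have : 0 ≤ Δ * h * L * d := by positivity
    linarith
  have x3 : Δ * h * L * d ≤ X := by
    rw [hX]
    have : 0 ≤ Δ * h * L := by positivity
    linarith
  have x4 : Δ * h * d ≤ X := by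
    refine le_trans ?_ x3
    have : 0 ≤ Δ * h * d := by positivity
    nlinarith
  have hK1 : ‖k1 - ((la / 2 * h : ℝ) : ℂ)‖ ≤ C4 * h * d + L * h := by
    refine (norm_sub_le _ _).trans (add_le_add n4 ?_)
    rw [Complex.norm_real, Real.norm_of_nonneg (by positivity)]
    exact mul_le_mul_of_nonneg_right (by linarith) hh
  have t1 : ‖d0 * ((h * Q : ℝ) : ℂ)‖ ≤ 2 * C1 * X := by
    rw [norm_mul, Complex.norm_real, Real.norm_eq_abs, abs_mul, abs_of_nonneg hh]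
    calc ‖d0‖ * (h * |Q|) ≤ (C1 * (Δ / τ)) * (h * (2 * L ^ 2)) :=
          mul_le_mul n1 (mul_le_mul_of_nonneg_left hQ' hh) (by positivity) (by positivity)
      _ = 2 * C1 * (Δ * h * L * (L / τ)) := by
          field_simp
      _ ≤ 2 * C1 * (Δ * h * L * 1) := by
          have : L / τ ≤ 1 := by
            rw [div_le_one hτ0]
            exact hlτ
          gcongr
      _ ≤ 2 * C1 * X := by
          rw [mul_one]
          gcongr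
  have t2 : ‖(e2' - 2 * lb * e1) * (h : ℂ)‖ ≤ (C3 + 2 * C2) * X := by
    rw [norm_mul, Complex.norm_real, Real.norm_of_nonneg hh]
    have h1 : ‖e2' - 2 * lb * e1‖ ≤ C3 * Δ * L + 2 * L * (C2 * Δ) := by
      refine (norm_sub_le _ _).trans (add_le_add n3 ?_)
      rw [norm_mul, norm_mul, Complex.norm_real, Real.norm_of_nonneg hlb, Complex.norm_ofNat]
      have : lb ≤ L := by linarith
      gcongr
    calc ‖e2' - 2 * lb * e1‖ * h ≤ (C3 * Δ * L + 2 * L * (C2 * Δ)) * h :=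
          mul_le_mul_of_nonneg_right h1 hh
      _ = (C3 + 2 * C2) * (Δ * h * L) := by ring
      _ ≤ (C3 + 2 * C2) * X := mul_le_mul_of_nonneg_left x2 (by positivity)
  have t3 : ‖2 * g0 * ℓ * k1‖ ≤ 2 * C0 * C4 * X := by
    rw [norm_mul, norm_mul, norm_mul, Complex.norm_real, Real.norm_of_nonneg hℓ0,
      Complex.norm_ofNat]
    calc 2 * ‖g0‖ * ℓ * ‖k1‖ ≤ 2 * (C0 * Δ) * L * (C4 * h * d) := by gcongr
      _ = 2 * C0 * C4 * (Δ * h * L * d) := by ring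
      _ ≤ 2 * C0 * C4 * X := mul_le_mul_of_nonneg_left x3 (by positivity)
  have t4 : ‖2 * e1 * (k1 - ((la / 2 * h : ℝ) : ℂ))‖ ≤ 2 * C2 * (1 + C4) * X := by
    rw [norm_mul, norm_mul, Complex.norm_ofNat]
    calc 2 * ‖e1‖ * ‖k1 - ((la / 2 * h : ℝ) : ℂ)‖ ≤ 2 * (C2 * Δ) * (C4 * h * d + L * h) := by gcongr
      _ = 2 * C2 * (C4 * (Δ * h * d) + Δ * h * L) := by ring
      _ ≤ 2 * C2 * (C4 * X + X) := by gcongr
      _ = 2 * C2 * (1 + C4) * X := by ring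
  have t5 : ‖g0 * k2‖ ≤ C0 * C5 * X := by
    rw [norm_mul]
    have : 1 + la ≤ L := by linarith
    calc ‖g0‖ * ‖k2‖ ≤ (C0 * Δ) * (C5 * h * (1 + la) * d) := by gcongr
      _ ≤ (C0 * Δ) * (C5 * h * L * d) := by gcongr
      _ = C0 * C5 * (Δ * h * L * d) := by ring
      _ ≤ C0 * C5 * X := mul_le_mul_of_nonneg_left x3 (by positivity)
  have t6 : ‖2 * (((g0 * ℓ + e1) * h + g0 * (k1 - ((la / 2 * h : ℝ) : ℂ))) * B1)‖ ≤
      2 * ‖B1‖ * ((C0 + C2) + C0 * (1 + C4)) * X := by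
    rw [norm_mul, norm_mul, Complex.norm_ofNat]
    have h1 : ‖(g0 * ℓ + e1) * h + g0 * (k1 - ((la / 2 * h : ℝ) : ℂ))‖ ≤
        ((C0 * Δ) * L + C2 * Δ) * h + (C0 * Δ) * (C4 * h * d + L * h) := by
      refine (norm_add_le _ _).trans (add_le_add ?_ ?_)
      · rw [norm_mul, Complex.norm_real, Real.norm_of_nonneg hh]
        refine mul_le_mul_of_nonneg_right ((norm_add_le _ _).trans (add_le_add ?_ n2)) hh
        rw [norm_mul, Complex.norm_real, Real.norm_of_nonneg hℓ0]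
        gcongr
      · rw [norm_mul]
        gcongr
    have h2 : ((C0 * Δ) * L + C2 * Δ) * h + (C0 * Δ) * (C4 * h * d + L * h) ≤
        ((C0 + C2) + C0 * (1 + C4)) * X := by
      have : ((C0 * Δ) * L + C2 * Δ) * h + (C0 * Δ) * (C4 * h * d + L * h) =
          C0 * (Δ * h * L) + C2 * (Δ * h) + C0 * (C4 * (Δ * h * d) + Δ * h * L) := by ring
      rw [this]
      have : ((C0 + C2) + C0 * (1 + C4)) * X = C0 * X + C2 * X + C0 * (C4 * X + X) := by ring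
      rw [this]
      gcongr
    calc 2 * (‖(g0 * ℓ + e1) * h + g0 * (k1 - ((la / 2 * h : ℝ) : ℂ))‖ * ‖B1‖)
        ≤ 2 * ((((C0 + C2) + C0 * (1 + C4)) * X) * ‖B1‖) := by
          gcongr
          exact h1.trans h2
      _ = _ := by ring
  have t7 : ‖g0 * h * B2‖ ≤ C0 * ‖B2‖ * X := by
    rw [norm_mul, norm_mul, Complex.norm_real, Real.norm_of_nonneg hh]
    calc ‖g0‖ * h * ‖B2‖ ≤ (C0 * Δ) * h * ‖B2‖ := by gcongr
      _ = C0 * ‖B2‖ * (Δ * h) := by ring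
      _ ≤ C0 * ‖B2‖ * X := mul_le_mul_of_nonneg_left x1 (by positivity)
  have hX00 : 0 ≤ X := hX0.trans x1
  have s1 := norm_add_le (d0 * ((h * Q : ℝ) : ℂ) + (e2' - 2 * lb * e1) * (h : ℂ) + 2 * g0 * ℓ * k1 +
        2 * e1 * (k1 - ((la / 2 * h : ℝ) : ℂ)) + g0 * k2 +
        2 * (((g0 * ℓ + e1) * h + g0 * (k1 - ((la / 2 * h : ℝ) : ℂ))) * B1)) (g0 * h * B2)
  have s2 := norm_add_le (d0 * ((h * Q : ℝ) : ℂ) + (e2' - 2 * lb * e1) * (h : ℂ) + 2 * g0 * ℓ * k1 +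
        2 * e1 * (k1 - ((la / 2 * h : ℝ) : ℂ)) + g0 * k2)
        (2 * (((g0 * ℓ + e1) * h + g0 * (k1 - ((la / 2 * h : ℝ) : ℂ))) * B1))
  have s3 := norm_add_le (d0 * ((h * Q : ℝ) : ℂ) + (e2' - 2 * lb * e1) * (h : ℂ) + 2 * g0 * ℓ * k1 +
        2 * e1 * (k1 - ((la / 2 * h : ℝ) : ℂ))) (g0 * k2)
  have s4 := norm_add_le (d0 * ((h * Q : ℝ) : ℂ) + (e2' - 2 * lb * e1) * (h : ℂ) + 2 * g0 * ℓ * k1)
        (2 * e1 * (k1 - ((la / 2 * h : ℝ) : ℂ)))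
  have s5 := norm_add_le (d0 * ((h * Q : ℝ) : ℂ) + (e2' - 2 * lb * e1) * (h : ℂ))
    (2 * g0 * ℓ * k1)
  have s6 := norm_add_le (d0 * ((h * Q : ℝ) : ℂ)) ((e2' - 2 * lb * e1) * (h : ℂ))
  linarith


/-- the entire function `b ^ (-z)` -/
private noncomputable def pmP (b : ℕ) (w : ℂ) : ℂ := cexp (-((Real.log b : ℝ) : ℂ) * w)

private lemma pmP_eq {b : ℕ} (hb : 1 ≤ b) (w : ℂ) : (b : ℂ) ^ (-w) = pmP b w := by
  have h0 : (b : ℂ) ≠ 0 := by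
    have : b ≠ 0 := by omega
    exact_mod_cast this
  rw [Complex.cpow_def_of_ne_zero h0, pmP, Complex.ofReal_log (Nat.cast_nonneg b),
    Complex.ofReal_natCast]
  congr 1
  ring

private lemma pmP_hasDeriv (b : ℕ) (w : ℂ) :
    HasDerivAt (pmP b) (-((Real.log b : ℝ) : ℂ) * pmP b w) w := by
  have h : HasDerivAt (fun x : ℂ => cexp (-((Real.log b : ℝ) : ℂ) * x))
      (cexp (-((Real.log b : ℝ) : ℂ) * w) * (-((Real.log b : ℝ) : ℂ))) w := by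
    simpa using ((hasDerivAt_id w).const_mul (-((Real.log b : ℝ) : ℂ))).cexp
  unfold pmP
  rw [mul_comm]
  exact h

private lemma pmP_deriv (b : ℕ) : deriv (pmP b) = fun w => -((Real.log b : ℝ) : ℂ) * pmP b w :=
  funext fun w => (pmP_hasDeriv b w).deriv

private lemma pmP_deriv2 (b : ℕ) (w : ℂ) :
    deriv (deriv (pmP b)) w = ((Real.log b : ℝ) : ℂ) ^ 2 * pmP b w := by
  rw [pmP_deriv]
  have h := (pmP_hasDeriv b w).const_mul (-((Real.log b : ℝ) : ℂ))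
  rw [h.deriv]
  ring

private lemma pmP_diff (b : ℕ) : Differentiable ℂ (pmP b) := fun w =>
  (pmP_hasDeriv b w).differentiableAt

private lemma pmP_norm {b : ℕ} (hb : 1 ≤ b) (w : ℂ) : ‖pmP b w‖ = (b : ℝ) ^ (-w.re) := by
  have hb0 : (0 : ℝ) < b := by
    have : 0 < b := by omega
    exact_mod_cast this
  rw [pmP, Complex.norm_exp, Real.rpow_def_of_pos hb0]
  congr 1
  rw [neg_mul, Complex.neg_re, Complex.re_ofReal_mul]
  ring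

private lemma pmP_one {b : ℕ} (hb : 1 ≤ b) : pmP b 1 = ((b : ℝ)⁻¹ : ℝ) := by
  rw [← pmP_eq hb, Complex.cpow_neg_one]
  push_cast
  rfl

/-- The function whose second derivative at one is the residue. -/
private noncomputable def pmF (τ Δ : ℝ) (a b : ℕ) (z : ℂ) : ℂ :=
  ((Gh τ Δ z * pmP b z) * Ka a z) * (zE z) ^ 3

private lemma pmF_diff {τ Δ : ℝ} (hΔ : 0 < Δ) (a b : ℕ) :
    DifferentiableOn ℂ (pmF τ Δ a b) {z : ℂ | 0 < z.re} :=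
  (((gh_diff hΔ).mul (pmP_diff b).differentiableOn).mul (ka_diff a).differentiableOn).mul
    (zE_diff.pow 3).differentiableOn

private lemma pmF_second {τ Δ : ℝ} (hΔ : 0 < Δ) (a : ℕ) {b : ℕ} (hb : 1 ≤ b) :
    deriv (deriv (pmF τ Δ a b)) 1 = ((b : ℝ)⁻¹ : ℝ) *
      (((deriv (deriv (Gh τ Δ)) 1 - 2 * (Real.log b : ℝ) * deriv (Gh τ Δ) 1 +
          (Real.log b : ℝ) ^ 2 * Gh τ Δ 1) * (hh a : ℝ) +
        2 * ((deriv (Gh τ Δ) 1 - (Real.log b : ℝ) * Gh τ Δ 1) * deriv (Ka a) 1) +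
        Gh τ Δ 1 * deriv (deriv (Ka a)) 1) +
      2 * (((deriv (Gh τ Δ) 1 - (Real.log b : ℝ) * Gh τ Δ 1) * (hh a : ℝ) +
        Gh τ Δ 1 * deriv (Ka a) 1) * deriv (fun w => zE w ^ 3) 1) +
      Gh τ Δ 1 * (hh a : ℝ) * deriv (deriv (fun w => zE w ^ 3)) 1) := by
  have hU : IsOpen {z : ℂ | 0 < z.re} := isOpen_lt continuous_const Complex.continuous_re
  have h1 : (1 : ℂ) ∈ {z : ℂ | 0 < z.re} := by simp
  have hG := gh_diff (τ := τ) hΔ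
  have hP := (pmP_diff b).differentiableOn (s := {z : ℂ | 0 < z.re})
  have hK := (ka_diff a).differentiableOn (s := {z : ℂ | 0 < z.re})
  have hB := (zE_diff.pow 3).differentiableOn (s := {z : ℂ | 0 < z.re})
  obtain ⟨a1, a2⟩ := pm_deriv2_mul hU hG hP h1
  obtain ⟨b1, b2⟩ := pm_deriv2_mul hU (hG.mul hP) hK h1
  obtain ⟨c1, c2⟩ := pm_deriv2_mul hU ((hG.mul hP).mul hK) hB h1
  have hF : pmF τ Δ a b = fun w => ((Gh τ Δ * pmP b) * Ka a) w * (zE ^ 3) w := rfl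
  have hA : ((Gh τ Δ * pmP b) * Ka a) = fun w => (Gh τ Δ * pmP b) w * Ka a w := rfl
  have hu : Gh τ Δ * pmP b = fun w => Gh τ Δ w * pmP b w := rfl
  have hz3 : (zE ^ 3) = fun w => zE w ^ 3 := rfl
  rw [hF, c2, hA, b1, b2, hu, a1, a2, pmP_deriv2, pmP_deriv]
  simp only
  rw [pmP_one hb, ka_one, hz3]
  simp only
  rw [zE_one]
  push_cast
  ring

private lemma pm_sum {τ Δ : ℝ} (hΔ : 1 ≤ Δ) (hτ : Δ ≤ τ) {a b : ℕ} (ha : 1 ≤ a) (hb : 1 ≤ b) :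
    HasSum (fun n : ℕ => (((d3 n : ℝ) * rho a n * GG τ Δ (n * b / a) : ℝ) : ℂ))
      ((1 / (2 * Real.pi)) * ∫ ξ : ℝ, pmF τ Δ a b (2 + ξ * I) / (2 + ξ * I - 1) ^ 3) := by
  have ha0 : (0 : ℝ) < a := by exact_mod_cast ha
  have hb0 : (0 : ℝ) < b := by exact_mod_cast hb
  have hre : ∀ ξ : ℝ, ((2 : ℂ) + ξ * I).re = 2 := fun ξ => by simp
  have him : ∀ ξ : ℝ, ((2 : ℂ) + ξ * I).im = ξ := fun ξ => by simp
  have hd30 : d3 0 = 0 := by simp [d3]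
  set g : ℝ → ℂ := fun ξ => Gh τ Δ (2 + ξ * I) with hg
  have hgc : Continuous g := by
    refine (gh_diff (by linarith : 0 < Δ)).continuousOn.comp_continuous (by fun_prop) fun ξ => ?_
    change 0 < ((2 : ℂ) + ξ * I).re
    rw [hre]
    norm_num
  have hgi : Integrable g := by
    obtain ⟨C, hC, hCb⟩ := gh_decay 2
    refine Integrable.mono' (integrable_inv_one_add_sq.const_mul (C * τ ^ (2 : ℝ) * (τ / Δ) ^ 2))
      hgc.aestronglyMeasurable (ae_of_all _ fun ξ => ?_)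
    have h1 := hCb τ Δ (2 + ξ * I) hΔ hτ (by rw [hre]; norm_num) (by rw [hre])
    rw [hre, him] at h1
    refine h1.trans ?_
    rw [div_eq_mul_inv]
    have hτ0 : 0 < τ := by linarith
    refine mul_le_mul_of_nonneg_left ?_ (by positivity)
    apply inv_anti₀ (by positivity)
    have := sq_abs ξ
    have := abs_nonneg ξ
    nlinarith
  -- powers
  have hpow : ∀ (n : ℕ), 1 ≤ n → ∀ ξ : ℝ, (((n : ℝ) * b / a : ℝ) : ℂ) ^ (-(2 + ξ * I : ℂ)) =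
      (n : ℂ) ^ (-(2 + ξ * I : ℂ)) * (pmP b (2 + ξ * I) *
        cexp (((Real.log a : ℝ) : ℂ) * (2 + ξ * I))) := by
    intro n hn ξ
    have hn0 : (0 : ℝ) < n := by exact_mod_cast hn
    have hy : (0 : ℝ) < n * b / a := by positivity
    rw [pmP_eq hn, pmP, pmP, Complex.cpow_def_of_ne_zero (by exact_mod_cast hy.ne'),
      ← Complex.ofReal_log hy.le, ← Complex.exp_add, ← Complex.exp_add,
      Real.log_div (by positivity) ha0.ne', Real.log_mul hn0.ne' hb0.ne']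
    congr 1
    push_cast
    ring
  set Fn : ℕ → ℝ → ℂ := fun n ξ => (((d3 n : ℕ) : ℂ) * (rho a n : ℂ) * (n : ℂ) ^ (-(2 + ξ * I : ℂ))) *
    (g ξ * (pmP b (2 + ξ * I) * cexp (((Real.log a : ℝ) : ℂ) * (2 + ξ * I)))) with hFn
  have hFn0 : ∀ ξ, Fn 0 ξ = 0 := by
    intro ξ
    simp only [hFn]
    rw [hd30]
    simp
  have hnorm : ∀ n ξ, ‖Fn n ξ‖ = ‖((d3 n : ℕ) : ℂ) * (rho a n : ℂ) * (n : ℂ) ^ (-(2 : ℂ))‖ *
      (‖g ξ‖ * ((b : ℝ) ^ (-(2 : ℝ)) * Real.exp (Real.log a * 2))) := by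
    intro n ξ
    rcases Nat.eq_zero_or_pos n with h0 | h0
    · subst h0
      rw [hFn0, hd30]
      simp
    · simp only [hFn]
      have h1 : ‖(n : ℂ) ^ (-(2 + ξ * I : ℂ))‖ = ‖(n : ℂ) ^ (-(2 : ℂ))‖ := by
        rw [pmP_eq h0, pmP_eq h0, pmP_norm h0, pmP_norm h0, hre]
        simp
      have h2 : ‖cexp (((Real.log a : ℝ) : ℂ) * (2 + ξ * I))‖ = Real.exp (Real.log a * 2) := by
        rw [Complex.norm_exp, Complex.re_ofReal_mul, hre]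
      rw [norm_mul, norm_mul (g ξ), norm_mul (pmP b _), h2, pmP_norm hb, hre, norm_mul, h1,
        ← norm_mul]
  have hFnc : ∀ n, Continuous (Fn n) := by
    intro n
    rcases Nat.eq_zero_or_pos n with h0 | h0
    · subst h0
      have : Fn 0 = fun _ => 0 := funext hFn0
      rw [this]
      exact continuous_const
    · simp only [hFn]
      simp_rw [pmP_eq h0]
      unfold pmP
      fun_prop
  have hFi : ∀ n, Integrable (Fn n) := by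
    intro n
    refine Integrable.mono' ((hgi.norm.mul_const ((b : ℝ) ^ (-(2 : ℝ)) *
      Real.exp (Real.log a * 2))).const_mul
      ‖((d3 n : ℕ) : ℂ) * (rho a n : ℂ) * (n : ℂ) ^ (-(2 : ℂ))‖) (hFnc n).aestronglyMeasurable
      (ae_of_all _ fun ξ => ?_)
    rw [hnorm]
  have hser := fun ξ : ℝ => pr_series ha (z := 2 + ξ * I) (by rw [hre]; norm_num)
  have hFs : Summable fun n => ∫ ξ, ‖Fn n ξ‖ := by
    have h1 := (pr_series ha (z := (2 : ℂ)) (by norm_num)).1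
    have h2 := h1.mul_right (∫ ξ, (‖g ξ‖ * ((b : ℝ) ^ (-(2 : ℝ)) * Real.exp (Real.log a * 2))))
    refine h2.congr fun n => ?_
    rw [← integral_const_mul]
    exact integral_congr_ae (ae_of_all _ fun ξ => (hnorm n ξ).symm)
  have hmain := hasSum_integral_of_summable_integral_norm hFi hFs
  have htsum : ∀ ξ, ∑' n, Fn n ξ = pmF τ Δ a b (2 + ξ * I) / (2 + ξ * I - 1) ^ 3 := by
    intro ξ
    simp only [hFn]
    rw [tsum_mul_right, (hser ξ).2, pmP_eq ha]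
    have hne : (2 + ξ * I : ℂ) ≠ 1 := by
      intro h
      have := congrArg Complex.re h
      rw [hre] at this
      norm_num at this
    have hne' : (2 + ξ * I : ℂ) - 1 ≠ 0 := sub_ne_zero.2 hne
    rw [pmF, zE_of_ne hne]
    have hae : pmP a (2 + ξ * I) * cexp (((Real.log a : ℝ) : ℂ) * (2 + ξ * I)) = 1 := by
      rw [pmP, ← Complex.exp_add, neg_mul, neg_add_cancel, Complex.exp_zero]
    rw [mul_pow]
    rw [show Gh τ Δ (2 + ξ * I) = g ξ from rfl]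
    have hd : (2 + (ξ : ℂ) * I - 1) ^ 3 ≠ 0 := pow_ne_zero 3 hne'
    rw [eq_div_iff hd]
    calc _ = (2 + (ξ : ℂ) * I - 1) ^ 3 * riemannZeta (2 + ξ * I) ^ 3 * Ka a (2 + ξ * I) * g ξ *
          pmP b (2 + ξ * I) *
          (pmP a (2 + ξ * I) * cexp (((Real.log a : ℝ) : ℂ) * (2 + ξ * I))) := by ring
      _ = _ := by
          rw [hae]
          ring
  have hint : (∫ ξ, ∑' n, Fn n ξ) =
      ∫ ξ : ℝ, pmF τ Δ a b (2 + ξ * I) / (2 + ξ * I - 1) ^ 3 :=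
    integral_congr_ae (ae_of_all _ htsum)
  rw [hint] at hmain
  have h3 := hmain.mul_left (1 / (2 * (Real.pi : ℂ)))
  refine h3.congr_fun ?_
  intro n
  rcases Nat.eq_zero_or_pos n with h0 | h0
  · subst h0
    rw [hd30]
    simp [hFn0]
  · have hn0 : (0 : ℝ) < n := by exact_mod_cast h0
    have hy : (0 : ℝ) < n * b / a := by positivity
    push_cast
    rw [gh_inv hΔ hτ (by simpa using hy)]
    rw [mul_left_comm, ← integral_const_mul]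
    congr 1
    refine integral_congr_ae (ae_of_all _ fun ξ => ?_)
    simp only [hFn]
    have h4 := hpow n h0 ξ
    rw [h4]
    simp only [hg]
    ring

private lemma pmF_strip {τ Δ : ℝ} (hΔ : 1 ≤ Δ) (hτ : Δ ≤ τ) {a b : ℕ} (ha : 1 ≤ a) (hb : 1 ≤ b) :
    ∃ K : ℝ, ∀ s : ℂ, 1 / 2 ≤ s.re → s.re ≤ 2 → ‖pmF τ Δ a b s‖ ≤ K / (1 + |s.im|) ^ 2 := by
  obtain ⟨C, hC, hCb⟩ := gh_decay 20
  obtain ⟨Cz, hCz, hz⟩ := zE_half
  obtain ⟨Ck, hCk, hk⟩ := ka_strip a ha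
  have hτ0 : 0 < τ := by linarith
  refine ⟨C * τ ^ (2 : ℝ) * (τ / Δ) ^ 20 * Ck * (Cz * 9) ^ 3, fun s hs1 hs2 => ?_⟩
  have ht : 0 ≤ |s.im| := abs_nonneg _
  have hn : ‖s‖ ≤ 2 + |s.im| := by
    have h1 := Complex.norm_le_abs_re_add_abs_im s
    have h2 : |s.re| ≤ 2 := by
      rw [abs_le]
      constructor <;> linarith
    linarith
  have b1 : ‖Gh τ Δ s‖ ≤ C * τ ^ (2 : ℝ) * (τ / Δ) ^ 20 / (1 + |s.im|) ^ 20 := by
    refine (hCb τ Δ s hΔ hτ hs1 hs2).trans ?_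
    have : τ ^ s.re ≤ τ ^ (2 : ℝ) := Real.rpow_le_rpow_of_exponent_le (by linarith) hs2
    gcongr
  have b2 : ‖pmP b s‖ ≤ 1 := by
    rw [pmP_norm hb]
    exact Real.rpow_le_one_of_one_le_of_nonpos (by exact_mod_cast hb) (by linarith)
  have b3 := hk s hs1 hs2
  have b4 : ‖zE s‖ ≤ (Cz * 9) * (1 + |s.im|) ^ 2 := by
    refine (hz s (by linarith)).trans ?_
    calc Cz * (1 + ‖s‖) ^ 2 ≤ Cz * (3 * (1 + |s.im|)) ^ 2 := by
          gcongr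
          linarith
      _ = _ := by ring
  have b5 : ‖zE s ^ 3‖ ≤ (Cz * 9) ^ 3 * (1 + |s.im|) ^ 6 := by
    rw [norm_pow]
    calc ‖zE s‖ ^ 3 ≤ ((Cz * 9) * (1 + |s.im|) ^ 2) ^ 3 := by gcongr
      _ = _ := by ring
  rw [pmF, norm_mul, norm_mul, norm_mul]
  calc ‖Gh τ Δ s‖ * ‖pmP b s‖ * ‖Ka a s‖ * ‖zE s ^ 3‖
      ≤ (C * τ ^ (2 : ℝ) * (τ / Δ) ^ 20 / (1 + |s.im|) ^ 20) * 1 * Ck *
        ((Cz * 9) ^ 3 * (1 + |s.im|) ^ 6) := by gcongr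
    _ = C * τ ^ (2 : ℝ) * (τ / Δ) ^ 20 * Ck * (Cz * 9) ^ 3 / (1 + |s.im|) ^ 14 := by
        field_simp
    _ ≤ _ := by
        have h1 : (1 + |s.im|) ^ 2 ≤ (1 + |s.im|) ^ 14 :=
          pow_le_pow_right₀ (by linarith) (by norm_num)
        gcongr

private lemma pm_half (ε : ℝ) (hε : 0 < ε) : ∃ C : ℝ, 0 < C ∧ ∀ (τ Δ : ℝ) (a b : ℕ),
    1 ≤ Δ → Δ ≤ τ → 1 ≤ a → 1 ≤ b → (a : ℝ) ≤ τ →
    ‖∫ ξ : ℝ, pmF τ Δ a b (((1 / 2 : ℝ) : ℂ) + ξ * I) / (((1 / 2 : ℝ) : ℂ) + ξ * I - 1) ^ 3‖ ≤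
      C * (τ / Δ) ^ 20 * τ ^ (1 / 2 + ε) * (b : ℝ) ^ (-(1 / 2) : ℝ) := by
  obtain ⟨C, hC, hCb⟩ := gh_decay 20
  obtain ⟨Cz, hCz, hz⟩ := zE_half
  obtain ⟨Ck, hCk, hk⟩ := ka_half ε hε
  refine ⟨C * Ck * (Cz * 4) ^ 3 * 8 * Real.pi, by positivity, ?_⟩
  intro τ Δ a b hΔ hτ ha hb haτ
  have hτ0 : 0 < τ := by linarith
  have ha0 : (0 : ℝ) < a := by exact_mod_cast ha
  have hb0 : (0 : ℝ) < b := by exact_mod_cast hb
  set M : ℝ := C * Ck * (Cz * 4) ^ 3 * 8 * ((τ / Δ) ^ 20 * τ ^ (1 / 2 + ε) *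
    (b : ℝ) ^ (-(1 / 2) : ℝ)) with hM
  have hM0 : 0 ≤ M := by positivity
  have hbound : ∀ ξ : ℝ, ‖pmF τ Δ a b (((1 / 2 : ℝ) : ℂ) + ξ * I) /
      (((1 / 2 : ℝ) : ℂ) + ξ * I - 1) ^ 3‖ ≤ M * (1 + ξ ^ 2)⁻¹ := by
    intro ξ
    set s : ℂ := ((1 / 2 : ℝ) : ℂ) + ξ * I with hs
    have hre : s.re = 1 / 2 := by simp [hs]
    have him : s.im = ξ := by simp [hs]
    have ht : 0 ≤ |ξ| := abs_nonneg _
    have hn : ‖s‖ ≤ 1 / 2 + |ξ| := by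
      have h1 := Complex.norm_le_abs_re_add_abs_im s
      rw [hre, him, abs_of_pos (by norm_num : (0 : ℝ) < 1 / 2)] at h1
      exact h1
    have b1 := hCb τ Δ s hΔ hτ (by rw [hre]) (by rw [hre]; norm_num)
    rw [hre, him] at b1
    have b2 := pmP_norm hb s
    rw [hre] at b2
    have b3 : ‖Ka a s‖ ≤ Ck * τ ^ ε := by
      have h1 := hk a ξ ha
      have h2 : s = 1 / 2 + ξ * I := by
        rw [hs]
        push_cast
        ring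
      rw [h2]
      refine h1.trans ?_
      have : (a : ℝ) ^ ε ≤ τ ^ ε := Real.rpow_le_rpow ha0.le haτ hε.le
      gcongr
    have b4 : ‖zE s‖ ≤ (Cz * 4) * (1 + |ξ|) ^ 2 := by
      refine (hz s (by rw [hre]; norm_num)).trans ?_
      calc Cz * (1 + ‖s‖) ^ 2 ≤ Cz * (2 * (1 + |ξ|)) ^ 2 := by
            gcongr
            linarith
        _ = _ := by ring
    have b5 : ‖zE s ^ 3‖ ≤ (Cz * 4) ^ 3 * (1 + |ξ|) ^ 6 := by
      rw [norm_pow]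
      calc ‖zE s‖ ^ 3 ≤ ((Cz * 4) * (1 + |ξ|) ^ 2) ^ 3 := by gcongr
        _ = _ := by ring
    have b6 : 1 / 8 ≤ ‖(s - 1) ^ 3‖ := by
      rw [norm_pow]
      have h1 : 1 / 2 ≤ ‖s - 1‖ := by
        have h2 := Complex.abs_re_le_norm (s - 1)
        rw [Complex.sub_re, hre, Complex.one_re] at h2
        refine le_trans ?_ h2
        rw [abs_of_nonpos (by norm_num)]
        norm_num
      calc (1 / 8 : ℝ) = (1 / 2) ^ 3 := by norm_num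
        _ ≤ ‖s - 1‖ ^ 3 := by gcongr
    have b7 : ‖pmF τ Δ a b s‖ ≤ C * Ck * (Cz * 4) ^ 3 * ((τ / Δ) ^ 20 * τ ^ (1 / 2 + ε) *
        (b : ℝ) ^ (-(1 / 2) : ℝ)) / (1 + |ξ|) ^ 14 := by
      rw [pmF, norm_mul, norm_mul, norm_mul, b2]
      calc ‖Gh τ Δ s‖ * (b : ℝ) ^ (-(1 / 2) : ℝ) * ‖Ka a s‖ * ‖zE s ^ 3‖
          ≤ (C * τ ^ (1 / 2 : ℝ) * (τ / Δ) ^ 20 / (1 + |ξ|) ^ 20) * (b : ℝ) ^ (-(1 / 2) : ℝ) *
            (Ck * τ ^ ε) * ((Cz * 4) ^ 3 * (1 + |ξ|) ^ 6) := by gcongr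
        _ = _ := by
            rw [Real.rpow_add hτ0]
            field_simp
    rw [norm_div, div_le_iff₀ (by positivity)]
    refine b7.trans ?_
    have h1 : (1 : ℝ) + ξ ^ 2 ≤ (1 + |ξ|) ^ 14 := by
      calc (1 : ℝ) + ξ ^ 2 ≤ (1 + |ξ|) ^ 2 := by
            have := sq_abs ξ
            nlinarith
        _ ≤ (1 + |ξ|) ^ 14 := pow_le_pow_right₀ (by linarith) (by norm_num)
    have h2 : 0 ≤ C * Ck * (Cz * 4) ^ 3 * ((τ / Δ) ^ 20 * τ ^ (1 / 2 + ε) *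
        (b : ℝ) ^ (-(1 / 2) : ℝ)) := by positivity
    calc C * Ck * (Cz * 4) ^ 3 * ((τ / Δ) ^ 20 * τ ^ (1 / 2 + ε) *
        (b : ℝ) ^ (-(1 / 2) : ℝ)) / (1 + |ξ|) ^ 14
        ≤ C * Ck * (Cz * 4) ^ 3 * ((τ / Δ) ^ 20 * τ ^ (1 / 2 + ε) *
        (b : ℝ) ^ (-(1 / 2) : ℝ)) / (1 + ξ ^ 2) := by gcongr
      _ = M * (1 + ξ ^ 2)⁻¹ * (1 / 8) := by
          rw [hM]
          field_simp
      _ ≤ M * (1 + ξ ^ 2)⁻¹ * ‖(s - 1) ^ 3‖ := by gcongr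
  refine (norm_integral_le_of_norm_le (integrable_inv_one_add_sq.const_mul M)
    (ae_of_all _ hbound)).trans (le_of_eq ?_)
  rw [integral_const_mul, integral_univ_inv_one_add_sq, hM]
  ring

theorem pr_main (ε η : ℝ) (hε : 0 < ε) (hη : 0 < η) : ∃ C : ℝ, 0 < C ∧ ∀ (τ Δ : ℝ) (a b : ℕ),
    1 ≤ Δ → 1 ≤ τ → τ ^ η ≤ τ / Δ → 1 ≤ a → 1 ≤ b → (a : ℝ) * b ≤ τ →
    (Summable fun n : ℕ => (d3 n : ℝ) * rho a n * GG τ Δ (n * b / a)) ∧
    |∑' n : ℕ, (d3 n : ℝ) * rho a n * GG τ Δ (n * b / a) -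
        Δ * Real.sqrt Real.pi / (2 * Real.pi * b) * hh a *
          (((Real.log (τ / b) - Real.log a / 2) ^ 2 - 3 / 4 * sg a) / 2)| ≤
      C * (Δ / b) * hh a * (1 + Real.log τ) * (1 + dl a) +
        C * (τ / Δ) ^ 20 * τ ^ (1 / 2 + ε) * (b : ℝ) ^ (-(1 / 2) : ℝ) := by
  obtain ⟨C1, hC1, h1⟩ := gh_one η hη
  obtain ⟨C2, hC2, h2⟩ := gh_one1
  obtain ⟨C3, hC3, h3⟩ := gh_one2
  obtain ⟨C4, hC4, h4⟩ := ka_deriv
  obtain ⟨C5, hC5, h5⟩ := ka_deriv2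
  obtain ⟨Ch, hCh, hhalf⟩ := pm_half ε hε
  obtain ⟨Ca, hCa, halg⟩ := pm_alg C1 C2 C3 C4 C5 hC1.le hC2.le hC3.le hC4.le hC5.le
    (deriv (fun w => zE w ^ 3) 1) (deriv (deriv (fun w => zE w ^ 3)) 1)
  refine ⟨Ca + Ch, by positivity, ?_⟩
  intro τ Δ a b hΔ hτ1 hητ ha hb hab
  have hΔ0 : 0 < Δ := by linarith
  have hτ0 : 0 < τ := by linarith
  have hτΔ : Δ ≤ τ := by
    have h : 1 ≤ τ ^ η := Real.one_le_rpow hτ1 hη.le
    have h' := h.trans hητ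
    rwa [le_div_iff₀ hΔ0, one_mul] at h'
  have ha0 : (0 : ℝ) < a := by exact_mod_cast ha
  have hb0 : (0 : ℝ) < b := by exact_mod_cast hb
  have ha1 : (1 : ℝ) ≤ a := by exact_mod_cast ha
  have hb1 : (1 : ℝ) ≤ b := by exact_mod_cast hb
  have haτ : (a : ℝ) ≤ τ := by nlinarith
  have hbτ : (b : ℝ) ≤ τ := by nlinarith
  set f : ℕ → ℝ := fun n => (d3 n : ℝ) * rho a n * GG τ Δ (n * b / a) with hf
  have hsum := pm_sum hΔ hτΔ ha hb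
  set T : ℂ := (1 / (2 * Real.pi)) * ∫ ξ : ℝ, pmF τ Δ a b (2 + ξ * I) / (2 + ξ * I - 1) ^ 3 with hT
  have hre : HasSum f T.re := by
    have h := Complex.reCLM.hasSum hsum
    simpa using h
  have hTre : (T.re : ℂ) = T := (Complex.hasSum_ofReal.2 hre).unique hsum
  refine ⟨hre.summable, ?_⟩
  rw [hre.tsum_eq]
  -- the contour shift
  obtain ⟨K, hK⟩ := pmF_strip hΔ hτΔ ha hb
  have hshift := pole3 (F := pmF τ Δ a b) (a := 1 / 2) (b := 2) (K := K)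
    (U := {z : ℂ | 0 < z.re}) (isOpen_lt continuous_const Complex.continuous_re)
    (fun s hs _ => by
      change 0 < s.re
      linarith) (pmF_diff hΔ0 a b) hK (ρ := 1) (by norm_num) (by norm_num)
  have hcast : ((2 : ℝ) : ℂ) = 2 := by norm_num
  rw [hcast, pmF_second hΔ0 a hb] at hshift
  have hpi : (Real.pi : ℂ) ≠ 0 := by exact_mod_cast Real.pi_ne_zero
  set I1 : ℂ := ∫ ξ : ℝ, pmF τ Δ a b (((1 / 2 : ℝ) : ℂ) + ξ * I) /
    (((1 / 2 : ℝ) : ℂ) + ξ * I - 1) ^ 3 with hI1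
  have hI1b := hhalf τ Δ a b hΔ hτΔ ha hb haτ
  rw [← hI1] at hI1b
  have hla0 : 0 ≤ Real.log a := Real.log_nonneg ha1
  have hlb0 : 0 ≤ Real.log b := Real.log_nonneg hb1
  have hla : Real.log a ≤ Real.log τ := Real.log_le_log ha0 haτ
  have hlb : Real.log b ≤ Real.log τ := Real.log_le_log hb0 hbτ
  have hhh := one_le_hh a
  have hG0 : Δ * Real.sqrt Real.pi / (2 * Real.pi) ≤ Δ := by
    rw [div_le_iff₀ (by positivity)]
    have h6 : Real.sqrt Real.pi ≤ 2 * Real.pi := by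
      have h7 : Real.sqrt Real.pi ≤ Real.pi := by
        rw [Real.sqrt_le_left Real.pi_pos.le]
        nlinarith [Real.pi_gt_three]
      have := Real.pi_pos
      linarith
    exact mul_le_mul_of_nonneg_left h6 hΔ0.le
  have hA := halg τ Δ (hh a) (dl a) (Real.log a) (Real.log b) (sg a)
    (Δ * Real.sqrt Real.pi / (2 * Real.pi)) (Gh τ Δ 1) (deriv (Gh τ Δ) 1)
    (deriv (deriv (Gh τ Δ)) 1) (deriv (Ka a) 1) (deriv (deriv (Ka a)) 1) hτ1 hΔ0.le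
    (by linarith) (dl_nonneg a) hla0 hla hlb0 hlb (sg_nonneg a) (sg_le a ha) (by positivity) hG0
    (h1 τ Δ hΔ hτ1 hητ) (h2 τ Δ hΔ hτΔ) (h3 τ Δ hΔ hτΔ) (h4 a ha) (h5 a ha)
  rw [Real.log_div hτ0.ne' hb0.ne']
  set W : ℂ := ((deriv (deriv (Gh τ Δ)) 1 - 2 * (Real.log b : ℝ) * deriv (Gh τ Δ) 1 +
          (Real.log b : ℝ) ^ 2 * Gh τ Δ 1) * (hh a : ℝ) +
        2 * ((deriv (Gh τ Δ) 1 - (Real.log b : ℝ) * Gh τ Δ 1) * deriv (Ka a) 1) +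
        Gh τ Δ 1 * deriv (deriv (Ka a)) 1) +
      2 * (((deriv (Gh τ Δ) 1 - (Real.log b : ℝ) * Gh τ Δ 1) * (hh a : ℝ) +
        Gh τ Δ 1 * deriv (Ka a) 1) * deriv (fun w => zE w ^ 3) 1) +
      Gh τ Δ 1 * (hh a : ℝ) * deriv (deriv (fun w => zE w ^ 3)) 1 with hW
  set Q : ℝ := (Real.log τ - Real.log b - Real.log a / 2) ^ 2 - 3 / 4 * sg a with hQ
  have hTW : T = (1 / (2 * Real.pi)) * I1 + (1 / 2) * (((b : ℝ)⁻¹ : ℝ) * W) := by
    rw [hT, hshift]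
    field_simp
  have hdiff : ((T.re - Δ * Real.sqrt Real.pi / (2 * Real.pi * b) * hh a * (Q / 2) : ℝ) : ℂ) =
      (1 / (2 * Real.pi)) * I1 + (1 / 2) * ((b : ℝ)⁻¹ : ℝ) *
        (W - ((Δ * Real.sqrt Real.pi / (2 * Real.pi) * hh a * Q : ℝ) : ℂ)) := by
    rw [Complex.ofReal_sub, hTre, hTW]
    have hbc : ((b : ℝ) : ℂ) ≠ 0 := by exact_mod_cast hb0.ne'
    push_cast
    push_cast at hbc
    field_simp
    ring
  have hnn : |T.re - Δ * Real.sqrt Real.pi / (2 * Real.pi * b) * hh a * (Q / 2)| =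
      ‖((T.re - Δ * Real.sqrt Real.pi / (2 * Real.pi * b) * hh a * (Q / 2) : ℝ) : ℂ)‖ := by
    rw [Complex.norm_real, Real.norm_eq_abs]
  rw [hnn, hdiff]
  refine (norm_add_le _ _).trans ?_
  have e1 : ‖(1 / (2 * (Real.pi : ℂ))) * I1‖ ≤
      Ch * (τ / Δ) ^ 20 * τ ^ (1 / 2 + ε) * (b : ℝ) ^ (-(1 / 2) : ℝ) := by
    rw [norm_mul]
    have h6 : ‖(1 / (2 * (Real.pi : ℂ)))‖ ≤ 1 := by
      rw [norm_div, norm_mul, norm_one, Complex.norm_real, Complex.norm_ofNat,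
        Real.norm_of_nonneg Real.pi_pos.le, div_le_one (by positivity)]
      nlinarith [Real.pi_gt_three]
    calc _ ≤ 1 * ‖I1‖ := mul_le_mul_of_nonneg_right h6 (norm_nonneg _)
      _ ≤ _ := by
          rw [one_mul]
          exact hI1b
  have e2 : ‖(1 / 2) * (((b : ℝ)⁻¹ : ℝ) : ℂ) *
      (W - ((Δ * Real.sqrt Real.pi / (2 * Real.pi) * hh a * Q : ℝ) : ℂ))‖ ≤
      Ca * (Δ / b) * hh a * (1 + Real.log τ) * (1 + dl a) := by
    rw [norm_mul, norm_mul, Complex.norm_real, Real.norm_of_nonneg (by positivity)]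
    have h6 : ‖(1 / 2 : ℂ)‖ ≤ 1 := by
      rw [norm_div, norm_one, Complex.norm_ofNat]
      norm_num
    have hdl := dl_nonneg a
    have hlt0 : 0 ≤ Real.log τ := Real.log_nonneg hτ1
    calc ‖(1 / 2 : ℂ)‖ * (b : ℝ)⁻¹ *
          ‖W - ((Δ * Real.sqrt Real.pi / (2 * Real.pi) * hh a * Q : ℝ) : ℂ)‖
        ≤ 1 * (b : ℝ)⁻¹ * (Ca * (Δ * hh a * (1 + Real.log τ) * (1 + dl a))) := by
          gcongr
      _ = _ := by
          field_simp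
  have hdl := dl_nonneg a
  have hlt0 : 0 ≤ Real.log τ := Real.log_nonneg hτ1
  have p1 : 0 ≤ Ch * (Δ / b) * hh a * (1 + Real.log τ) * (1 + dl a) := by positivity
  have p2 : 0 ≤ Ca * (τ / Δ) ^ 20 * τ ^ (1 / 2 + ε) * (b : ℝ) ^ (-(1 / 2) : ℝ) := by positivity
  calc _ ≤ Ch * (τ / Δ) ^ 20 * τ ^ (1 / 2 + ε) * (b : ℝ) ^ (-(1 / 2) : ℝ) +
        Ca * (Δ / b) * hh a * (1 + Real.log τ) * (1 + dl a) := add_le_add e1 e2
    _ ≤ _ := by linarith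

end Pool.Agent.P07318m
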