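import Pool.Agent.Lib.P07318m.SixthGe
import Pool.Agent.Lib.P07318m.JApprox
import Pool.Agent.Lib.P07318m.ErBound
import Pool.Agent.Lib.P07318m.PrMain
import Pool.Agent.Lib.P07318m.CSum

/-!
# P07318m.NumLow: lower bound for the numerator
-/

set_option autoImplicit false

open MeasureTheory Complex

namespace Pool.Agent.P07318m

open Pool.Agent.P4f18dfS (wt XF)

theorem jt_integrable {τ Δ : ℝ} (hΔ : 0 < Δ) (x : ℝ) :
    Integrable (fun t : ℝ => (wt τ Δ t : ℂ) * (riemannZeta (1 / 2 + t * I) ^ 2 * riemannZeta (1 / 2 - t * I)) *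
    cexp (((t * x : ℝ) : ℂ) * I)) := by
  obtain ⟨C, hC, hz⟩ := zhalf_bound
  have hconj : ∀ t : ℝ, riemannZeta (1 / 2 - t * I) = (starRingEnd ℂ) (riemannZeta (1 / 2 + t * I)) := by
    intro t
    rw [← riemannZeta_conj, conj_half]
  have hcont : Continuous (fun t : ℝ => (riemannZeta (1 / 2 + t * I) ^ 2 * riemannZeta (1 / 2 - t * I)) *
    cexp (((t * x : ℝ) : ℂ) * I)) := by
    simp_rw [hconj]
    exact ((zhalf_continuous.pow 2).mul (Complex.continuous_conj.comp zhalf_continuous)).mul (by fun_prop)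
  have := wt_poly_integrable (τ := τ) hΔ hcont (K := C ^ 3) (n := 3) (fun t => by
    rw [norm_mul, norm_mul, norm_pow, hconj, Complex.norm_conj, Complex.norm_exp_ofReal_mul_I, mul_one]
    have h1 := hz t
    calc ‖riemannZeta (1 / 2 + t * I)‖ ^ 2 * ‖riemannZeta (1 / 2 + t * I)‖
        = ‖riemannZeta (1 / 2 + t * I)‖ ^ 3 := by ring
      _ ≤ (C * (1 + |t|)) ^ 3 := pow_le_pow_left₀ (norm_nonneg _) h1 3
      _ = _ := by ring)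
  refine this.congr (Filter.Eventually.of_forall fun t => ?_)
  simp only [Complex.real_smul]
  ring

theorem as_conj (S : Finset (ℕ × ℕ)) (c : ℕ × ℕ → ℝ) (t : ℝ) : (starRingEnd ℂ) (As S c t) =
    ∑ p ∈ S, (c p : ℂ) * cexp (((t * (Real.log p.1 - Real.log p.2) : ℝ) : ℂ) * I) := by
  unfold As
  rw [map_sum]
  refine Finset.sum_congr rfl fun p _ => ?_
  rw [map_mul, Complex.conj_ofReal, ← Complex.exp_conj, map_mul, Complex.conj_ofReal, Complex.conj_I]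
  congr 2
  push_cast
  ring

theorem jn_eq {τ Δ : ℝ} (hΔ : 0 < Δ) (S : Finset (ℕ × ℕ)) (c : ℕ × ℕ → ℝ) :
    Jn τ Δ S c = ∑ p ∈ S, (c p : ℂ) * Jt τ Δ p.1 p.2 := by
  unfold Jn Jt
  simp_rw [as_conj, Finset.mul_sum]
  rw [integral_finset_sum]
  · refine Finset.sum_congr rfl fun p _ => ?_
    rw [← integral_const_mul]
    congr 1
    ext t
    ring
  · intro p _
    refine ((jt_integrable (τ := τ) hΔ (Real.log p.1 - Real.log p.2)).const_mul (c p : ℂ)).congr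
      (Filter.Eventually.of_forall fun t => ?_)
    simp only []
    ring

/-- The non-principal series. -/
noncomputable def Ser (τ Δ : ℝ) (a b : ℕ) : ℂ :=
  ∑' n : ℕ, ((d3 n : ℕ) : ℂ) * (ee (-(n * b / a)) - (rho a n : ℂ)) * (GG τ Δ (n * b / a) : ℂ)

/-- The principal series. -/
noncomputable def Spr (τ Δ : ℝ) (a b : ℕ) : ℝ :=
  ∑' n : ℕ, (d3 n : ℝ) * rho a n * GG τ Δ (n * b / a)

theorem ee_norm (x : ℝ) : ‖ee x‖ = 1 := by
  unfold ee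
  have : (2 * (Real.pi : ℂ) * (x : ℂ) * I) = ((2 * Real.pi * x : ℝ) : ℂ) * I := by push_cast; ring
  rw [this, Complex.norm_exp_ofReal_mul_I]

theorem gg_nonneg (τ Δ y : ℝ) : 0 ≤ GG τ Δ y := (Real.exp_pos _).le

theorem d3gg_summable {τ Δ : ℝ} (hΔ : 0 < Δ) {a b : ℕ} (ha : 1 ≤ a) (hb : 1 ≤ b) :
    Summable (fun n : ℕ => (d3 n : ℝ) * GG τ Δ (n * b / a)) := by
  have ha' : (0:ℝ) < a := by exact_mod_cast ha
  have hb' : (0:ℝ) < b := by exact_mod_cast hb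
  have h := g_summable (τ := τ) hΔ (g := 1) le_rfl (c := (b : ℝ) / a) (by positivity)
  refine h.congr fun n => ?_
  rw [one_mul, mul_div_assoc]

theorem series_split {τ Δ : ℝ} (hΔ : 0 < Δ) {a b : ℕ} (ha : 1 ≤ a) (hb : 1 ≤ b) :
    ∑' n : ℕ, ((d3 n : ℕ) : ℂ) * ee (-(n * b / a)) * (GG τ Δ (n * b / a) : ℂ) =
      Ser τ Δ a b + (Spr τ Δ a b : ℂ) := by
  have h0 := d3gg_summable (τ := τ) hΔ ha hb
  have h1 : Summable (fun n : ℕ => ((d3 n : ℕ) : ℂ) * (ee (-(n * b / a)) - (rho a n : ℂ)) * (GG τ Δ (n * b / a) : ℂ)) := by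
    refine Summable.of_norm_bounded (h0.mul_left 2) fun n => ?_
    rw [norm_mul, norm_mul, Complex.norm_natCast, Complex.norm_real, Real.norm_of_nonneg (gg_nonneg _ _ _)]
    have h2 : ‖ee (-(n * b / a)) - (rho a n : ℂ)‖ ≤ 2 := by
      refine (norm_sub_le _ _).trans ?_
      rw [ee_norm, Complex.norm_real, Real.norm_eq_abs]
      linarith [rho_abs_le a n]
    calc (d3 n : ℝ) * ‖ee (-(n * b / a)) - (rho a n : ℂ)‖ * GG τ Δ (n * b / a)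
        ≤ (d3 n : ℝ) * 2 * GG τ Δ (n * b / a) :=
          mul_le_mul_of_nonneg_right (mul_le_mul_of_nonneg_left h2 (Nat.cast_nonneg _)) (gg_nonneg _ _ _)
      _ = _ := by ring
  have h2 : Summable (fun n : ℕ => (((d3 n : ℝ) * rho a n * GG τ Δ (n * b / a) : ℝ) : ℂ)) := by
    refine Summable.of_norm_bounded h0 fun n => ?_
    rw [Complex.norm_real, norm_mul, norm_mul, Real.norm_of_nonneg (Nat.cast_nonneg _),
      Real.norm_of_nonneg (gg_nonneg _ _ _), Real.norm_eq_abs]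
    exact mul_le_mul_of_nonneg_right (mul_le_of_le_one_right (Nat.cast_nonneg _) (rho_abs_le a n)) (gg_nonneg _ _ _)
  unfold Ser Spr
  rw [Complex.ofReal_tsum, ← h1.tsum_add h2]
  congr 1
  ext n
  push_cast
  ring

theorem ps_sum_c {Y : ℝ} (hY : 1 ≤ Y) (f : ℕ → ℕ → ℂ) :
    ∑ p ∈ PS Y, f p.1 p.2 = ∑ a ∈ Finset.Icc 1 ⌊Real.sqrt Y⌋₊,
      ∑ b ∈ (Finset.Icc 1 ⌊Y / a⌋₊).filter (fun b => b.Coprime a), f a b := by
  apply Complex.ext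
  · rw [Complex.re_sum, Complex.re_sum, ps_sum hY (fun a b => (f a b).re)]
    simp_rw [Complex.re_sum]
  · rw [Complex.im_sum, Complex.im_sum, ps_sum hY (fun a b => (f a b).im)]
    simp_rw [Complex.im_sum]

theorem lp_sum {X X1 : ℝ} (hX : 0 < X) (h1 : X ≤ X1) (a : ℕ) (f : ℕ → ℂ) :
    ∑ b ∈ (Finset.Icc 1 ⌊X1⌋₊).filter (fun b => b.Coprime a), ((lp (X / b) ^ 2 : ℝ) : ℂ) * f b =
    ∑ b ∈ (Finset.Icc 1 ⌊X⌋₊).filter (fun b => b.Coprime a), ((Real.log (X / b) ^ 2 : ℝ) : ℂ) * f b := by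
  symm
  have hsub : (Finset.Icc 1 ⌊X⌋₊).filter (fun b => b.Coprime a) ⊆ (Finset.Icc 1 ⌊X1⌋₊).filter (fun b => b.Coprime a) :=
    Finset.filter_subset_filter _ (Finset.Icc_subset_Icc_right (Nat.floor_mono h1))
  rw [← Finset.sum_subset hsub]
  · refine Finset.sum_congr rfl fun b hb => ?_
    rw [Finset.mem_filter, Finset.mem_Icc] at hb
    have hb1 : (0:ℝ) < b := by exact_mod_cast hb.1.1
    have hb2 : (b : ℝ) ≤ X := (Nat.le_floor_iff hX.le).1 hb.1.2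
    have : 0 ≤ Real.log (X / b) := Real.log_nonneg ((one_le_div hb1).2 hb2)
    unfold lp
    rw [max_eq_left this]
  · intro b hb hb'
    rw [Finset.mem_filter, Finset.mem_Icc] at hb hb'
    have hb1 : (0:ℝ) < b := by exact_mod_cast hb.1.1
    have hb2 : X < b := by
      by_contra h
      push Not at h
      exact hb' ⟨⟨hb.1.1, (Nat.le_floor_iff hX.le).2 h⟩, hb.2⟩
    have : Real.log (X / b) ≤ 0 := Real.log_nonpos (by positivity) ((div_le_one hb1).2 hb2.le)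
    unfold lp
    rw [max_eq_right this]
    simp

theorem mem_ps {Y : ℝ} {p : ℕ × ℕ} (hp : p ∈ PS Y) :
    1 ≤ p.1 ∧ 1 ≤ p.2 ∧ p.1.Coprime p.2 ∧ (p.1 : ℝ) ^ 2 ≤ Y ∧ (p.1 : ℝ) * (p.2 : ℝ) ≤ Y := by
  unfold PS at hp
  simp only [Finset.mem_filter, Finset.mem_product, Finset.mem_Icc] at hp
  exact ⟨hp.1.1.1, hp.1.2.1, hp.2.1, hp.2.2.1, hp.2.2.2⟩

/-- `er_bound` for all `X ≤ τ`. -/
theorem er_bound' (ε : ℝ) (hε : 0 < ε) : ∃ C : ℝ, 0 < C ∧ ∀ (τ Δ X : ℝ) (a : ℕ), 1 ≤ Δ → Δ ≤ τ →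
    1 ≤ a → (a : ℝ) ≤ τ → X ≤ τ →
    ‖∑ b ∈ (Finset.Icc 1 ⌊X⌋₊).filter (fun b => b.Coprime a), ((Real.log (X / b) ^ 2 : ℝ) : ℂ) * Ser τ Δ a b‖ ≤
      C * (τ / Δ) ^ 20 * τ ^ (1 / 2 + ε) * a := by
  obtain ⟨C, hC, h⟩ := er_bound ε hε
  refine ⟨C, hC, fun τ Δ X a h1 h2 h3 h4 h6 => ?_⟩
  by_cases h5 : 1 ≤ X
  · exact h τ Δ X a h1 h2 h3 h4 h5 h6
  · push Not at h5
    have : ⌊X⌋₊ = 0 := Nat.floor_eq_zero.2 h5
    rw [this]
    have hτ : 0 < τ := by linarith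
    have hΔ : 0 < Δ := by linarith
    simp only [zero_lt_one, Finset.Icc_eq_empty_of_lt, Finset.filter_empty, Finset.sum_empty, norm_zero]
    positivity

/-- The contribution of the non-principal part. -/
theorem er_total (ε δ : ℝ) (hε : 0 < ε) (hδ : 0 < δ) : ∃ C : ℝ, 0 < C ∧ ∀ (τ Δ Y : ℝ), 1 ≤ Δ → Δ ≤ τ → 1 < Y → Y ≤ τ →
    ‖∑ p ∈ PS Y, ((hh p.1 / p.1 * Ph Y (δ * Real.log Y) p.1 p.2 : ℝ) : ℂ) * Ser τ Δ p.1 p.2‖ ≤
      C * (τ / Δ) ^ 20 * τ ^ (1 / 2 + ε) * Y ^ (1 / 2 + ε) := by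
  obtain ⟨C, hC, h⟩ := er_bound' ε hε
  obtain ⟨K, hK, hh_le'⟩ := hh_le ε hε
  refine ⟨C * (1 + 1 / δ) * K, by positivity, fun τ Δ Y h1 h2 hY hYτ => ?_⟩
  have hτ : 0 < τ := by linarith
  have hΔ : 0 < Δ := by linarith
  have hL : 0 < Real.log Y := Real.log_pos hY
  set D : ℝ := δ * Real.log Y with hD
  have hD0 : 0 < D := by positivity
  have hsq1 : 1 ≤ Real.sqrt Y := by
    rw [Real.one_le_sqrt]; exact hY.le
  rw [ps_sum_c hY.le (fun a b => ((hh a / a * Ph Y D a b : ℝ) : ℂ) * Ser τ Δ a b)]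
  set B : ℝ := C * (τ / Δ) ^ 20 * τ ^ (1 / 2 + ε) with hB
  have hB0 : 0 ≤ B := by positivity
  have hterm : ∀ a ∈ Finset.Icc 1 ⌊Real.sqrt Y⌋₊,
      ‖∑ b ∈ (Finset.Icc 1 ⌊Y / a⌋₊).filter (fun b => b.Coprime a), ((hh a / a * Ph Y D a b : ℝ) : ℂ) * Ser τ Δ a b‖ ≤
        K * Y ^ ε * (1 + 1 / δ) * B := by
    intro a ha
    rw [Finset.mem_Icc] at ha
    have ha1 : (1:ℝ) ≤ a := by exact_mod_cast ha.1
    have ha2 : (a : ℝ) ≤ Real.sqrt Y := (Nat.le_floor_iff (by positivity)).1 ha.2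
    have ha3 : (a : ℝ) ≤ Y := by
      have : Real.sqrt Y ≤ Y := by
        rw [Real.sqrt_le_left (by linarith)]
        nlinarith
      linarith
    have ha0 : (0:ℝ) < a := by linarith
    set X : ℝ := Y / a with hX
    set X' : ℝ := Y * Real.exp (-D) / a with hX'
    have hX0 : 0 < X := by positivity
    have hX'0 : 0 < X' := by positivity
    have hXle : X' ≤ X := by
      rw [hX, hX']
      apply div_le_div_of_nonneg_right _ ha0.le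
      have : Real.exp (-D) ≤ 1 := Real.exp_le_one_iff.2 (by linarith)
      nlinarith
    have hXτ : X ≤ τ := by
      have : X ≤ Y := div_le_self (by linarith) ha1
      linarith
    have hla : 0 ≤ Real.log a := Real.log_nonneg ha1
    have hla2 : Real.log a ≤ Real.log Y := Real.log_le_log ha0 ha3
    have e1 : ∀ b ∈ (Finset.Icc 1 ⌊Y / a⌋₊).filter (fun b => b.Coprime a),
        ((hh a / a * Ph Y D a b : ℝ) : ℂ) * Ser τ Δ a b =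
        ((hh a / a * (1 + Real.log a / (2 * D)) : ℝ) : ℂ) * (((lp (X / b) ^ 2 : ℝ) : ℂ) * Ser τ Δ a b) -
        ((hh a / a * (Real.log a / (2 * D)) : ℝ) : ℂ) * (((lp (X' / b) ^ 2 : ℝ) : ℂ) * Ser τ Δ a b) := by
      intro b hb
      have e2 : Y / (a * b) = X / b := by rw [hX, div_div]
      have e3 : Y * Real.exp (-D) / (a * b) = X' / b := by rw [hX', div_div]
      unfold Ph
      rw [e2, e3]
      push_cast
      ring
    rw [Finset.sum_congr rfl e1, Finset.sum_sub_distrib, ← Finset.mul_sum, ← Finset.mul_sum,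
      lp_sum hX0 le_rfl a (fun b => Ser τ Δ a b), lp_sum hX'0 hXle a (fun b => Ser τ Δ a b)]
    have hhp : 0 ≤ hh a := by linarith [one_le_hh a]
    have b1 := h τ Δ X a h1 h2 ha.1 (by linarith) hXτ
    have b2 := h τ Δ X' a h1 h2 ha.1 (by linarith) (by linarith)
    rw [← hB] at b1 b2
    refine (norm_sub_le _ _).trans ?_
    rw [norm_mul, norm_mul, Complex.norm_real, Complex.norm_real, Real.norm_of_nonneg (by positivity),
      Real.norm_of_nonneg (by positivity)]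
    have c1 : hh a / a * (1 + Real.log a / (2 * D)) * ‖∑ b ∈ (Finset.Icc 1 ⌊X⌋₊).filter (fun b => b.Coprime a),
        ((Real.log (X / b) ^ 2 : ℝ) : ℂ) * Ser τ Δ a b‖ ≤ hh a / a * (1 + Real.log a / (2 * D)) * (B * a) :=
      mul_le_mul_of_nonneg_left b1 (by positivity)
    have c2 : hh a / a * (Real.log a / (2 * D)) * ‖∑ b ∈ (Finset.Icc 1 ⌊X'⌋₊).filter (fun b => b.Coprime a),
        ((Real.log (X' / b) ^ 2 : ℝ) : ℂ) * Ser τ Δ a b‖ ≤ hh a / a * (Real.log a / (2 * D)) * (B * a) :=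
      mul_le_mul_of_nonneg_left b2 (by positivity)
    refine (add_le_add c1 c2).trans ?_
    have c3 : hh a / a * (1 + Real.log a / (2 * D)) * (B * a) + hh a / a * (Real.log a / (2 * D)) * (B * a) =
        hh a * (1 + Real.log a / D) * B := by
      field_simp
      ring
    rw [c3]
    have c4 : Real.log a / D ≤ 1 / δ := by
      rw [hD, div_le_div_iff₀ (by positivity) hδ]
      nlinarith
    have c5 : hh a ≤ K * Y ^ ε := (hh_le' a ha.1).trans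
      (mul_le_mul_of_nonneg_left (Real.rpow_le_rpow ha0.le ha3 hε.le) (by linarith))
    apply mul_le_mul_of_nonneg_right _ hB0
    apply mul_le_mul c5 (by linarith) (by positivity) (by positivity)
  refine (norm_sum_le _ _).trans ((Finset.sum_le_sum hterm).trans ?_)
  rw [Finset.sum_const, nsmul_eq_mul, Nat.card_Icc, Nat.add_sub_cancel]
  have hfl : ((⌊Real.sqrt Y⌋₊ : ℕ) : ℝ) ≤ Real.sqrt Y := Nat.floor_le (by positivity)
  have hY0 : 0 < Y := by linarith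
  have hsplit : Y ^ (1 / 2 + ε) = Real.sqrt Y * Y ^ ε := by
    rw [Real.rpow_add hY0, Real.sqrt_eq_rpow]
  rw [hsplit]
  have hK0 : 0 ≤ K := by linarith
  calc ((⌊Real.sqrt Y⌋₊ : ℕ) : ℝ) * (K * Y ^ ε * (1 + 1 / δ) * B)
      ≤ Real.sqrt Y * (K * Y ^ ε * (1 + 1 / δ) * B) := mul_le_mul_of_nonneg_right hfl (by positivity)
    _ = _ := by rw [hB]; ring

/-- The contribution of the principal part. -/
theorem pr_total (ε η : ℝ) (hε : 0 < ε) (hη : 0 < η) : ∃ C : ℝ, 0 < C ∧ ∀ (τ Δ Y D : ℝ), 1 ≤ Δ → 1 ≤ τ →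
    τ ^ η ≤ τ / Δ → 1 ≤ Y → Y ≤ τ → 0 < D →
    Δ * Real.sqrt Real.pi * S1 Y D - C * Δ * (1 + Real.log τ) ^ 8 - C * (τ / Δ) ^ 20 * τ ^ (1 / 2 + ε) * Y ^ (1 / 2 + ε) ≤
      2 * Real.pi * ∑ p ∈ PS Y, (hh p.1 / p.1 * Ph Y D p.1 p.2) * Spr τ Δ p.1 p.2 := by
  obtain ⟨C, hC, h⟩ := pr_main ε η hε hη
  obtain ⟨C4, hC4, h4⟩ := csum4 ε hε
  obtain ⟨C5, hC5, h5⟩ := csum5
  refine ⟨2 * Real.pi * C * (C4 + C5), by positivity, fun τ Δ Y D h1 h2 hη2 hY hYτ hD => ?_⟩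
  have hτ : 0 < τ := by linarith
  have hΔ : 0 < Δ := by linarith
  have hY0 : 0 < Y := by linarith
  have hlog : 0 ≤ Real.log τ := Real.log_nonneg h2
  have hpi := Real.pi_pos
  have hterm : ∀ p ∈ PS Y, Δ * Real.sqrt Real.pi * (hh p.1 ^ 2 / ((p.1 : ℝ) * (p.2 : ℝ)) * Ph Y D p.1 p.2 *
      (((Real.log (Y / p.2) - Real.log p.1 / 2) ^ 2 - 3 / 4 * sg p.1) / 2)) -
      2 * Real.pi * C * (Δ * (1 + Real.log τ) * (hh p.1 ^ 2 / ((p.1 : ℝ) * p.2) * Ph Y D p.1 p.2 * (1 + dl p.1)) +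
        (τ / Δ) ^ 20 * τ ^ (1 / 2 + ε) * (hh p.1 / p.1 * Ph Y D p.1 p.2 * (p.2 : ℝ) ^ (-(1 / 2) : ℝ))) ≤
      2 * Real.pi * ((hh p.1 / p.1 * Ph Y D p.1 p.2) * Spr τ Δ p.1 p.2) := by
    intro p hp
    obtain ⟨m1, m2, m3, m4, m5⟩ := mem_ps hp
    have hph := (ph_bounds hD hp).1
    have hb := (h τ Δ p.1 p.2 h1 h2 hη2 m1 m2 (by linarith)).2
    have hhp : 0 ≤ hh p.1 := by linarith [one_le_hh p.1]
    have a1 : (1:ℝ) ≤ p.1 := by exact_mod_cast m1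
    have b1 : (1:ℝ) ≤ p.2 := by exact_mod_cast m2
    have a0 : (0:ℝ) < p.1 := by linarith
    have b0 : (0:ℝ) < p.2 := by linarith
    have hS := (abs_le.1 hb).1
    -- comparison of the brackets
    have hlb : Real.log (Y / p.2) ≤ Real.log (τ / p.2) := Real.log_le_log (by positivity) (by gcongr)
    have hla : Real.log p.1 ≤ Real.log (Y / p.2) := by
      apply Real.log_le_log a0
      rw [le_div_iff₀ b0]
      exact m5
    have hla0 : 0 ≤ Real.log p.1 := Real.log_nonneg a1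
    have hbr : (Real.log (Y / p.2) - Real.log p.1 / 2) ^ 2 ≤ (Real.log (τ / p.2) - Real.log p.1 / 2) ^ 2 := by
      apply pow_le_pow_left₀ (by linarith)
      linarith
    set A : ℝ := hh p.1 / p.1 * Ph Y D p.1 p.2 with hA
    have hA0 : 0 ≤ A := by positivity
    have e1 : 2 * Real.pi * (A * (Δ * Real.sqrt Real.pi / (2 * Real.pi * p.2) * hh p.1 *
          (((Real.log (Y / p.2) - Real.log p.1 / 2) ^ 2 - 3 / 4 * sg p.1) / 2))) =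
        Δ * Real.sqrt Real.pi * (hh p.1 ^ 2 / ((p.1 : ℝ) * (p.2 : ℝ)) * Ph Y D p.1 p.2 *
      (((Real.log (Y / p.2) - Real.log p.1 / 2) ^ 2 - 3 / 4 * sg p.1) / 2)) := by
      rw [hA]
      field_simp
    have e2 : A * (Δ * Real.sqrt Real.pi / (2 * Real.pi * p.2) * hh p.1 *
          (((Real.log (Y / p.2) - Real.log p.1 / 2) ^ 2 - 3 / 4 * sg p.1) / 2)) ≤
        A * (Δ * Real.sqrt Real.pi / (2 * Real.pi * p.2) * hh p.1 *
          (((Real.log (τ / p.2) - Real.log p.1 / 2) ^ 2 - 3 / 4 * sg p.1) / 2)) := by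
      apply mul_le_mul_of_nonneg_left _ hA0
      apply mul_le_mul_of_nonneg_left _ (by positivity)
      linarith
    have e3 := mul_le_mul_of_nonneg_left hS hA0
    have e4 : A * (C * (Δ / p.2) * hh p.1 * (1 + Real.log τ) * (1 + dl p.1) +
        C * (τ / Δ) ^ 20 * τ ^ (1 / 2 + ε) * (p.2 : ℝ) ^ (-(1 / 2) : ℝ)) =
        C * (Δ * (1 + Real.log τ) * (hh p.1 ^ 2 / ((p.1 : ℝ) * p.2) * Ph Y D p.1 p.2 * (1 + dl p.1)) +
        (τ / Δ) ^ 20 * τ ^ (1 / 2 + ε) * (A * (p.2 : ℝ) ^ (-(1 / 2) : ℝ))) := by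
      rw [hA]
      field_simp
    rw [← e1]
    have e5 : Spr τ Δ p.1 p.2 = ∑' n : ℕ, (d3 n : ℝ) * rho p.1 n * GG τ Δ (n * p.2 / p.1) := rfl
    rw [← e5] at e3
    have e6 : A * (Δ * Real.sqrt Real.pi / (2 * Real.pi * p.2) * hh p.1 *
          (((Real.log (Y / p.2) - Real.log p.1 / 2) ^ 2 - 3 / 4 * sg p.1) / 2)) -
        C * (Δ * (1 + Real.log τ) * (hh p.1 ^ 2 / ((p.1 : ℝ) * p.2) * Ph Y D p.1 p.2 * (1 + dl p.1)) +
        (τ / Δ) ^ 20 * τ ^ (1 / 2 + ε) * (A * (p.2 : ℝ) ^ (-(1 / 2) : ℝ))) ≤ A * Spr τ Δ p.1 p.2 := by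
      rw [← e4]
      nlinarith [e2, e3]
    have e7 := mul_le_mul_of_nonneg_left e6 (by positivity : (0:ℝ) ≤ 2 * Real.pi)
    linarith
  have hsum := Finset.sum_le_sum hterm
  rw [Finset.sum_sub_distrib, ← Finset.mul_sum, ← Finset.mul_sum, ← Finset.mul_sum, Finset.sum_add_distrib,
    ← Finset.mul_sum, ← Finset.mul_sum] at hsum
  refine le_trans ?_ hsum
  have hS1 : S1 Y D = ∑ p ∈ PS Y, hh p.1 ^ 2 / ((p.1 : ℝ) * (p.2 : ℝ)) * Ph Y D p.1 p.2 *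
    (((Real.log (Y / p.2) - Real.log p.1 / 2) ^ 2 - 3 / 4 * sg p.1) / 2) := rfl
  rw [← hS1]
  have k4 := h4 Y D hY hD
  have k5 := h5 Y D hY hD
  have hlY : Real.log Y ≤ Real.log τ := Real.log_le_log hY0 hYτ
  have hlY0 : 0 ≤ Real.log Y := Real.log_nonneg hY
  have k5' : Δ * (1 + Real.log τ) * ∑ p ∈ PS Y, hh p.1 ^ 2 / ((p.1 : ℝ) * p.2) * Ph Y D p.1 p.2 * (1 + dl p.1) ≤
      C5 * Δ * (1 + Real.log τ) ^ 8 := by
    calc _ ≤ Δ * (1 + Real.log τ) * (C5 * (1 + Real.log Y) ^ 7) := mul_le_mul_of_nonneg_left k5 (by positivity)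
      _ ≤ Δ * (1 + Real.log τ) * (C5 * (1 + Real.log τ) ^ 7) := by gcongr
      _ = _ := by ring
  have k4' : (τ / Δ) ^ 20 * τ ^ (1 / 2 + ε) * ∑ p ∈ PS Y, hh p.1 / p.1 * Ph Y D p.1 p.2 * (p.2 : ℝ) ^ (-(1 / 2) : ℝ) ≤
      C4 * ((τ / Δ) ^ 20 * τ ^ (1 / 2 + ε) * Y ^ (1 / 2 + ε)) := by
    calc _ ≤ (τ / Δ) ^ 20 * τ ^ (1 / 2 + ε) * (C4 * Y ^ (1 / 2 + ε)) := mul_le_mul_of_nonneg_left k4 (by positivity)
      _ = _ := by ring
  have k6 : 0 ≤ Δ * (1 + Real.log τ) ^ 8 := by positivity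
  have k7 : 0 ≤ (τ / Δ) ^ 20 * τ ^ (1 / 2 + ε) * Y ^ (1 / 2 + ε) := by positivity
  have k8 := add_le_add k5' k4'
  have k9 : C5 * Δ * (1 + Real.log τ) ^ 8 + C4 * ((τ / Δ) ^ 20 * τ ^ (1 / 2 + ε) * Y ^ (1 / 2 + ε)) ≤
      (C4 + C5) * (Δ * (1 + Real.log τ) ^ 8 + (τ / Δ) ^ 20 * τ ^ (1 / 2 + ε) * Y ^ (1 / 2 + ε)) := by nlinarith
  have k10 := mul_le_mul_of_nonneg_left (k8.trans k9) (by positivity : (0:ℝ) ≤ 2 * Real.pi * C)
  linarith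

/-- Lower bound for the numerator. -/
theorem num_low (κ η δ : ℝ) (hκ : 0 < κ) (hκ' : κ < 1 / 4) (hη : 0 < η) (hδ : 0 < δ) : ∃ C : ℝ, 0 < C ∧ ∀ (τ Δ Y : ℝ),
    1 ≤ Δ → 1 ≤ τ → τ ^ η ≤ τ / Δ → 1 < Y → Y ≤ τ ^ (1 - 2 * κ) →
    Δ * Real.sqrt Real.pi * S1 Y (δ * Real.log Y) - C * Δ * (1 + Real.log τ) ^ 8 -
      C * (τ / Δ) ^ 20 * τ ^ (1 - κ / 2) ≤ (Jn τ Δ (PS Y) (ct Y (δ * Real.log Y))).re := by
  set ε : ℝ := κ / 8 with hε
  have hε0 : 0 < ε := by positivity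
  obtain ⟨C1, hC1, h1⟩ := japprox ε η hε0 hη
  obtain ⟨C2, hC2, h2⟩ := er_total ε δ hε0 hδ
  obtain ⟨C3, hC3, h3⟩ := pr_total ε η hε0 hη
  obtain ⟨C4, hC4, h4⟩ := csum3 ε hε0
  refine ⟨C3 + C1 * C4 + 2 * Real.pi * C2, by positivity, fun τ Δ Y k1 k2 k3 k4 k5 => ?_⟩
  have hτ : 0 < τ := by linarith
  have hΔ : 0 < Δ := by linarith
  have hY0 : 0 < Y := by linarith
  have hpi := Real.pi_pos
  have hL : 0 < Real.log Y := Real.log_pos k4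
  set D : ℝ := δ * Real.log Y with hD
  have hD0 : 0 < D := by positivity
  have hYτ : Y ≤ τ := by
    refine k5.trans ?_
    calc τ ^ (1 - 2 * κ) ≤ τ ^ (1 : ℝ) := Real.rpow_le_rpow_of_exponent_le k2 (by linarith)
      _ = τ := Real.rpow_one τ
  have hΔτ : Δ ≤ τ := by
    have : 1 ≤ τ / Δ := le_trans (Real.one_le_rpow k2 hη.le) k3
    rwa [le_div_iff₀ hΔ, one_mul] at this
  -- decomposition
  have hdec : Jn τ Δ (PS Y) (ct Y D) =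
      (∑ p ∈ PS Y, (ct Y D p : ℂ) * (Jt τ Δ p.1 p.2 - 2 * Real.pi * ((((p.2 : ℝ) / p.1) ^ (1 / 2 : ℝ) : ℝ) : ℂ) *
        ∑' n : ℕ, ((d3 n : ℕ) : ℂ) * ee (-(n * p.2 / p.1)) * (GG τ Δ (n * p.2 / p.1) : ℂ))) +
      2 * Real.pi * (∑ p ∈ PS Y, ((hh p.1 / p.1 * Ph Y D p.1 p.2 : ℝ) : ℂ) * Ser τ Δ p.1 p.2) +
      ((2 * Real.pi * ∑ p ∈ PS Y, (hh p.1 / p.1 * Ph Y D p.1 p.2) * Spr τ Δ p.1 p.2 : ℝ) : ℂ) := by
    rw [jn_eq hΔ]
    push_cast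
    rw [Finset.mul_sum, Finset.mul_sum, ← Finset.sum_add_distrib, ← Finset.sum_add_distrib]
    refine Finset.sum_congr rfl fun p hp => ?_
    obtain ⟨m1, m2, m3, m4, m5⟩ := mem_ps hp
    have a0 : (0:ℝ) < p.1 := by exact_mod_cast m1
    have b0 : (0:ℝ) < p.2 := by exact_mod_cast m2
    rw [series_split hΔ m1 m2]
    have hct : (ct Y D p) * ((p.2 : ℝ) / p.1) ^ (1 / 2 : ℝ) = hh p.1 / p.1 * Ph Y D p.1 p.2 := by
      unfold ct
      rw [← Real.sqrt_eq_rpow, Real.sqrt_div b0.le, Real.sqrt_mul a0.le]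
      have s1 : Real.sqrt p.2 ≠ 0 := (Real.sqrt_pos.2 b0).ne'
      have s2 : Real.sqrt p.1 ≠ 0 := (Real.sqrt_pos.2 a0).ne'
      have s3 : Real.sqrt p.1 * Real.sqrt p.1 = p.1 := Real.mul_self_sqrt a0.le
      rw [div_mul_div_comm, div_mul_eq_mul_div, div_eq_div_iff (by positivity) a0.ne']
      linear_combination (-(hh p.1 * Ph Y D p.1 p.2 * Real.sqrt p.2)) * s3
    have hct' : ((ct Y D p : ℝ) : ℂ) * ((((p.2 : ℝ) / p.1) ^ (1 / 2 : ℝ) : ℝ) : ℂ) =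
        ((hh p.1 / p.1 * Ph Y D p.1 p.2 : ℝ) : ℂ) := by
      rw [← hct]; push_cast; ring
    push_cast at hct'
    linear_combination (2 * (Real.pi : ℂ) * (Ser τ Δ p.1 p.2 + (Spr τ Δ p.1 p.2 : ℂ))) * hct'
  rw [hdec, Complex.add_re, Complex.add_re, Complex.ofReal_re]
  -- the three parts
  have p3 := h3 τ Δ Y D k1 k2 k3 k4.le hYτ hD0
  have hYpow : ∀ x : ℝ, 0 ≤ x → Y ^ x ≤ τ ^ ((1 - 2 * κ) * x) := by
    intro x hx
    rw [Real.rpow_mul hτ.le]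
    exact Real.rpow_le_rpow hY0.le k5 hx
  have q1 : τ ^ (1 / 2 + ε) * Y ^ (1 / 2 + ε) ≤ τ ^ (1 - κ / 2) := by
    calc τ ^ (1 / 2 + ε) * Y ^ (1 / 2 + ε) ≤ τ ^ (1 / 2 + ε) * τ ^ ((1 - 2 * κ) * (1 / 2 + ε)) :=
          mul_le_mul_of_nonneg_left (hYpow _ (by positivity)) (by positivity)
      _ = τ ^ (1 / 2 + ε + (1 - 2 * κ) * (1 / 2 + ε)) := (Real.rpow_add hτ _ _).symm
      _ ≤ _ := Real.rpow_le_rpow_of_exponent_le k2 (by rw [hε]; nlinarith)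
  have q2 : τ ^ ε * Y ^ (3 / 4 + ε) ≤ τ ^ (1 - κ / 2) := by
    calc τ ^ ε * Y ^ (3 / 4 + ε) ≤ τ ^ ε * τ ^ ((1 - 2 * κ) * (3 / 4 + ε)) :=
          mul_le_mul_of_nonneg_left (hYpow _ (by positivity)) (by positivity)
      _ = τ ^ (ε + (1 - 2 * κ) * (3 / 4 + ε)) := (Real.rpow_add hτ _ _).symm
      _ ≤ _ := Real.rpow_le_rpow_of_exponent_le k2 (by rw [hε]; nlinarith)
  have hV : 0 ≤ (τ / Δ) ^ 20 := by positivity
  have p1 : ‖∑ p ∈ PS Y, (ct Y D p : ℂ) * (Jt τ Δ p.1 p.2 - 2 * Real.pi * ((((p.2 : ℝ) / p.1) ^ (1 / 2 : ℝ) : ℝ) : ℂ) *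
        ∑' n : ℕ, ((d3 n : ℕ) : ℂ) * ee (-(n * p.2 / p.1)) * (GG τ Δ (n * p.2 / p.1) : ℂ))‖ ≤
      C1 * C4 * (τ / Δ) ^ 20 * τ ^ (1 - κ / 2) := by
    refine (norm_sum_le _ _).trans ?_
    have hb : ∀ p ∈ PS Y, ‖(ct Y D p : ℂ) * (Jt τ Δ p.1 p.2 - 2 * Real.pi * ((((p.2 : ℝ) / p.1) ^ (1 / 2 : ℝ) : ℝ) : ℂ) *
        ∑' n : ℕ, ((d3 n : ℕ) : ℂ) * ee (-(n * p.2 / p.1)) * (GG τ Δ (n * p.2 / p.1) : ℂ))‖ ≤
        (C1 * (τ / Δ) ^ 20 * τ ^ ε) * (|ct Y D p| * (p.1 : ℝ) ^ (1 / 2 : ℝ)) := by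
      intro p hp
      obtain ⟨m1, m2, m3, m4, m5⟩ := mem_ps hp
      rw [norm_mul, Complex.norm_real, Real.norm_eq_abs]
      have := h1 τ Δ p.1 p.2 k1 k2 k3 m1 m2 (by linarith)
      calc |ct Y D p| * _ ≤ |ct Y D p| * (C1 * (τ / Δ) ^ 20 * τ ^ ε * (p.1 : ℝ) ^ (1 / 2 : ℝ)) :=
            mul_le_mul_of_nonneg_left this (abs_nonneg _)
        _ = _ := by ring
    refine (Finset.sum_le_sum hb).trans ?_
    rw [← Finset.mul_sum]
    calc (C1 * (τ / Δ) ^ 20 * τ ^ ε) * ∑ p ∈ PS Y, |ct Y D p| * (p.1 : ℝ) ^ (1 / 2 : ℝ)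
        ≤ (C1 * (τ / Δ) ^ 20 * τ ^ ε) * (C4 * Y ^ (3 / 4 + ε)) :=
          mul_le_mul_of_nonneg_left (h4 Y D k4.le hD0) (by positivity)
      _ = C1 * C4 * (τ / Δ) ^ 20 * (τ ^ ε * Y ^ (3 / 4 + ε)) := by ring
      _ ≤ _ := mul_le_mul_of_nonneg_left q2 (by positivity)
  have p2 : ‖2 * (Real.pi : ℂ) * (∑ p ∈ PS Y, ((hh p.1 / p.1 * Ph Y D p.1 p.2 : ℝ) : ℂ) * Ser τ Δ p.1 p.2)‖ ≤
      2 * Real.pi * C2 * (τ / Δ) ^ 20 * τ ^ (1 - κ / 2) := by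
    have h2pi : ‖2 * (Real.pi : ℂ)‖ = 2 * Real.pi := by
      rw [norm_mul, Complex.norm_real, Real.norm_of_nonneg hpi.le]
      norm_num
    rw [norm_mul, h2pi]
    calc 2 * Real.pi * ‖∑ p ∈ PS Y, ((hh p.1 / p.1 * Ph Y D p.1 p.2 : ℝ) : ℂ) * Ser τ Δ p.1 p.2‖
        ≤ 2 * Real.pi * (C2 * (τ / Δ) ^ 20 * τ ^ (1 / 2 + ε) * Y ^ (1 / 2 + ε)) :=
          mul_le_mul_of_nonneg_left (h2 τ Δ Y k1 hΔτ k4 hYτ) (by positivity)
      _ = 2 * Real.pi * C2 * (τ / Δ) ^ 20 * (τ ^ (1 / 2 + ε) * Y ^ (1 / 2 + ε)) := by ring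
      _ ≤ _ := mul_le_mul_of_nonneg_left q1 (by positivity)
  have r1 := (abs_le.1 ((Complex.abs_re_le_norm _).trans p1)).1
  have r2 := (abs_le.1 ((Complex.abs_re_le_norm _).trans p2)).1
  have r3 : C3 * (τ / Δ) ^ 20 * τ ^ (1 / 2 + ε) * Y ^ (1 / 2 + ε) ≤ C3 * (τ / Δ) ^ 20 * τ ^ (1 - κ / 2) := by
    calc C3 * (τ / Δ) ^ 20 * τ ^ (1 / 2 + ε) * Y ^ (1 / 2 + ε) =
          C3 * (τ / Δ) ^ 20 * (τ ^ (1 / 2 + ε) * Y ^ (1 / 2 + ε)) := by ring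
      _ ≤ _ := mul_le_mul_of_nonneg_left q1 (by positivity)
  have r4 : 0 ≤ (C1 * C4 + 2 * Real.pi * C2) * Δ * (1 + Real.log τ) ^ 8 := by
    have := Real.log_nonneg k2
    positivity
  nlinarith [r1, r2, r3, r4, p3]

end Pool.Agent.P07318m
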