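import Pool.Agent.Lib.P07318m.Defs
import Pool.Agent.Lib.P4f18dfS.XFac
import Pool.Agent.Lib.P4f18dfS.ZPoly

/-!
# P07318m.PtIneq: the Cauchy-Schwarz inequality with the doubled test function
-/

set_option autoImplicit false

open MeasureTheory Complex

namespace Pool.Agent.P07318m

open Pool.Agent.P4f18dfS (wt XF)

theorem pt_ineq {z x A : ℂ} (hz : z = x * (starRingEnd ℂ) z) (hx : ‖x‖ = 1) (l : ℝ) :
    2 * l * (‖z‖ ^ 2 * (z * (starRingEnd ℂ) A).re) ≤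
      ‖z‖ ^ 6 + l ^ 2 * ((‖A‖ ^ 2 + ((starRingEnd ℂ) x * A ^ 2).re) / 2) := by
  set D : ℝ := (‖A‖ ^ 2 + ((starRingEnd ℂ) x * A ^ 2).re) / 2 with hD
  set R : ℝ := (z * (starRingEnd ℂ) A).re with hR
  have hzz : z ^ 2 = x * ((‖z‖ ^ 2 : ℝ) : ℂ) := by
    have h1 : z * (starRingEnd ℂ) z = ((‖z‖ ^ 2 : ℝ) : ℂ) := by
      rw [Complex.mul_conj, Complex.normSq_eq_norm_sq]
    calc z ^ 2 = z * z := by ring
      _ = (x * (starRingEnd ℂ) z) * z := by rw [← hz]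
      _ = x * (z * (starRingEnd ℂ) z) := by ring
      _ = _ := by rw [h1]
  have hDR : ‖z‖ ^ 2 * D = R ^ 2 := by
    have h2 : ∀ w : ℂ, w.re ^ 2 = (‖w‖ ^ 2 + (w ^ 2).re) / 2 := by
      intro w
      rw [← Complex.normSq_eq_norm_sq, Complex.normSq_apply, pow_two w, Complex.mul_re]
      ring
    rw [hR, h2, mul_pow]
    have h3 : (z ^ 2 * ((starRingEnd ℂ) A) ^ 2).re = ‖z‖ ^ 2 * ((starRingEnd ℂ) x * A ^ 2).re := by
      rw [hzz]
      have h4 : x * ((‖z‖ ^ 2 : ℝ) : ℂ) * ((starRingEnd ℂ) A) ^ 2 =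
          ((‖z‖ ^ 2 : ℝ) : ℂ) * (starRingEnd ℂ) ((starRingEnd ℂ) x * A ^ 2) := by
        simp only [map_mul, Complex.conj_conj, map_pow]
        ring
      rw [h4, Complex.re_ofReal_mul, Complex.conj_re]
    rw [h3, norm_mul, Complex.norm_conj, mul_pow, hD]
    ring
  have hD0 : 0 ≤ D := by
    have h5 : |((starRingEnd ℂ) x * A ^ 2).re| ≤ ‖A‖ ^ 2 := by
      refine (Complex.abs_re_le_norm _).trans ?_
      rw [norm_mul, Complex.norm_conj, hx, one_mul, norm_pow]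
    have := (abs_le.1 h5).1
    rw [hD]
    linarith
  by_cases h0 : ‖z‖ = 0
  · rw [h0]
    have : 0 ≤ l ^ 2 * D := by positivity
    simp only [ne_eq, OfNat.ofNat_ne_zero, not_false_eq_true, zero_pow, zero_mul, mul_zero, zero_add]
    exact this
  · have hp : 0 < ‖z‖ := lt_of_le_of_ne (norm_nonneg z) (Ne.symm h0)
    have hDe : D = (R / ‖z‖) ^ 2 := by
      field_simp
      linarith
    rw [hDe]
    have h6 : 0 ≤ (‖z‖ ^ 3 - l * (R / ‖z‖)) ^ 2 := sq_nonneg _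
    have h7 : ‖z‖ ^ 3 * (R / ‖z‖) = ‖z‖ ^ 2 * R := by
      field_simp
    have h8 : (‖z‖ ^ 3 - l * (R / ‖z‖)) ^ 2 =
        ‖z‖ ^ 6 + l ^ 2 * (R / ‖z‖) ^ 2 - 2 * l * (‖z‖ ^ 3 * (R / ‖z‖)) := by ring
    rw [h8, h7] at h6
    linarith

end Pool.Agent.P07318m
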