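import Pool.Agent.Lib.P07318m.Defs
import Pool.Agent.Lib.P07318m.PtIneq
import Pool.Agent.Lib.P07318m.MeanSq
import Pool.Agent.Lib.P4f18dfS.XFac
import Pool.Agent.Lib.P4f18dfV.HalfPlane

/-!
# P07318m.SixthGe: the integrated Cauchy-Schwarz inequality
-/

set_option autoImplicit false

open MeasureTheory Complex

namespace Pool.Agent.P07318m

open Pool.Agent.P4f18dfS (wt XF)

theorem zhalf_continuous : Continuous (fun t : ℝ => riemannZeta (1 / 2 + t * I)) := by
  rw [continuous_iff_continuousAt]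
  intro x
  have h1 : ((1:ℂ) / 2 + x * I) ≠ 1 := by
    intro h
    have := congrArg Complex.re h
    simp at this
  have h2 : ContinuousAt (fun x : ℝ => ((1:ℂ) / 2 + x * I)) x := by fun_prop
  exact ContinuousAt.comp (g := riemannZeta) (f := fun x : ℝ => ((1:ℂ) / 2 + x * I))
    (differentiableAt_riemannZeta h1).continuousAt h2

theorem zhalf_bound : ∃ C : ℝ, 0 < C ∧ ∀ t : ℝ, ‖riemannZeta (1 / 2 + t * I)‖ ≤ C * (1 + |t|) := by
  obtain ⟨C, hC, h⟩ := Pool.Agent.P4f18dfV.zE_half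
  refine ⟨16 * C, by positivity, fun t => ?_⟩
  set s : ℂ := 1 / 2 + t * I with hs
  have hre : s.re = 1 / 2 := by simp [hs]
  have him : s.im = t := by simp [hs]
  have hne : s ≠ 1 := by
    intro h0
    rw [h0] at hre
    norm_num at hre
  have h1 := h s (by rw [hre]; norm_num)
  rw [Pool.Agent.P4f18dfV.zE_of_ne hne, norm_mul] at h1
  have h2 : ‖s‖ ≤ 1 + |t| := by
    refine (Complex.norm_le_abs_re_add_abs_im s).trans ?_
    rw [hre, him]
    norm_num
  have h3 : (1 + |t|) / 4 ≤ ‖s - 1‖ := by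
    have h4 := Complex.abs_re_le_norm (s - 1)
    have h5 := Complex.abs_im_le_norm (s - 1)
    rw [Complex.sub_re, hre, Complex.one_re] at h4
    rw [Complex.sub_im, him, Complex.one_im, sub_zero] at h5
    norm_num at h4
    linarith
  have h6 : (1 + ‖s‖) ^ 2 ≤ 4 * (1 + |t|) ^ 2 := by
    have : 1 + ‖s‖ ≤ 2 * (1 + |t|) := by linarith [abs_nonneg t]
    have h7 : 0 ≤ 1 + ‖s‖ := by positivity
    nlinarith
  have hp : 0 < 1 + |t| := by positivity
  have h8 : (1 + |t|) / 4 * ‖riemannZeta s‖ ≤ C * (4 * (1 + |t|) ^ 2) := by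
    calc (1 + |t|) / 4 * ‖riemannZeta s‖ ≤ ‖s - 1‖ * ‖riemannZeta s‖ :=
          mul_le_mul_of_nonneg_right h3 (norm_nonneg _)
      _ ≤ C * (1 + ‖s‖) ^ 2 := h1
      _ ≤ C * (4 * (1 + |t|) ^ 2) := mul_le_mul_of_nonneg_left h6 hC.le
  have h9 : (1 + |t|) * ‖riemannZeta s‖ ≤ (1 + |t|) * (16 * C * (1 + |t|)) := by nlinarith
  exact le_of_mul_le_mul_left h9 hp

theorem wt_cont (τ Δ : ℝ) : Continuous (fun t : ℝ => wt τ Δ t) := by
  unfold wt
  fun_prop

/-- Gaussian weight times polynomial growth is integrable. -/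
theorem wt_poly_integrable {τ Δ : ℝ} (hΔ : 0 < Δ) {E : Type*} [NormedAddCommGroup E] [NormedSpace ℝ E]
    {f : ℝ → E} (hf : Continuous f) {K : ℝ} {n : ℕ} (hb : ∀ t, ‖f t‖ ≤ K * (1 + |t|) ^ n) :
    Integrable (fun t : ℝ => wt τ Δ t • f t) := by
  -- `wt` times `(1+|t|)^n` is integrable
  have hK : 0 ≤ K := by
    have := (norm_nonneg _).trans (hb 0)
    simpa using this
  have hmain : Integrable (fun t : ℝ => (1 + |t|) ^ n * wt τ Δ t) := by
    have h1 : Integrable (fun x : ℝ => Real.exp (-(1 / (2 * Δ ^ 2)) * x ^ 2)) :=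
      integrable_exp_neg_mul_sq (by positivity)
    have h2 : Integrable (fun t : ℝ => Real.exp (-(1 / (2 * Δ ^ 2)) * (t - τ) ^ 2)) := h1.comp_sub_right τ
    -- (1+|t|)^n exp(-(t-τ)^2/(2Δ^2)) is bounded
    obtain ⟨B, hB⟩ : ∃ B : ℝ, ∀ t : ℝ, (1 + |t|) ^ n * Real.exp (-(1 / (2 * Δ ^ 2)) * (t - τ) ^ 2) ≤ B := by
      -- compare with exp
      have hexp : ∀ t : ℝ, (1 + |t|) ^ n ≤ (n.factorial : ℝ) * Real.exp (1 + |t|) := by
        intro t
        have := Real.pow_div_factorial_le_exp (x := 1 + |t|) (by positivity) n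
        rw [div_le_iff₀ (by positivity)] at this
        linarith
      refine ⟨(n.factorial : ℝ) * Real.exp (1 + |τ| + Δ ^ 2), fun t => ?_⟩
      have h3 := hexp t
      calc (1 + |t|) ^ n * Real.exp (-(1 / (2 * Δ ^ 2)) * (t - τ) ^ 2)
          ≤ ((n.factorial : ℝ) * Real.exp (1 + |t|)) * Real.exp (-(1 / (2 * Δ ^ 2)) * (t - τ) ^ 2) :=
            mul_le_mul_of_nonneg_right h3 (Real.exp_pos _).le
        _ = (n.factorial : ℝ) * Real.exp (1 + |t| + -(1 / (2 * Δ ^ 2)) * (t - τ) ^ 2) := by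
            rw [mul_assoc, ← Real.exp_add]
        _ ≤ _ := by
            apply mul_le_mul_of_nonneg_left _ (by positivity)
            apply Real.exp_le_exp.2
            have h4 : |t| ≤ |t - τ| + |τ| := by
              calc |t| = |(t - τ) + τ| := by ring_nf
                _ ≤ _ := abs_add_le _ _
            have h5 : |t - τ| ≤ Δ ^ 2 + 1 / (2 * Δ ^ 2) * (t - τ) ^ 2 := by
              have h6 : (t - τ) ^ 2 = |t - τ| ^ 2 := (sq_abs _).symm
              rw [h6]
              have h7 : 0 < Δ ^ 2 := by positivity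
              have h8 : 0 ≤ (|t - τ| - Δ ^ 2) ^ 2 := sq_nonneg _
              have h9 : Δ ^ 2 + 1 / (2 * Δ ^ 2) * |t - τ| ^ 2 - |t - τ| =
                  ((|t - τ| - Δ ^ 2) ^ 2 + (Δ ^ 2) ^ 2) / (2 * Δ ^ 2) := by
                field_simp
                ring
              have h10 : 0 ≤ ((|t - τ| - Δ ^ 2) ^ 2 + (Δ ^ 2) ^ 2) / (2 * Δ ^ 2) := by positivity
              linarith
            linarith
    have h3 : ∀ t : ℝ, ‖(1 + |t|) ^ n * wt τ Δ t‖ ≤ B * Real.exp (-(1 / (2 * Δ ^ 2)) * (t - τ) ^ 2) := by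
      intro t
      rw [Real.norm_of_nonneg (mul_nonneg (by positivity) (by unfold wt; exact (Real.exp_pos _).le))]
      have h4 : wt τ Δ t = Real.exp (-(1 / (2 * Δ ^ 2)) * (t - τ) ^ 2) * Real.exp (-(1 / (2 * Δ ^ 2)) * (t - τ) ^ 2) := by
        unfold wt
        rw [← Real.exp_add]
        congr 1
        field_simp
        ring
      rw [h4, ← mul_assoc]
      exact mul_le_mul_of_nonneg_right (hB t) (Real.exp_pos _).le
    refine (h2.const_mul B).mono' ?_ (Filter.Eventually.of_forall h3)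
    exact (((continuous_const.add continuous_abs).pow n).mul (wt_cont τ Δ)).aestronglyMeasurable
  refine (hmain.const_mul K).mono' ((wt_cont τ Δ).smul hf).aestronglyMeasurable
    (Filter.Eventually.of_forall fun t => ?_)
  rw [norm_smul, Real.norm_of_nonneg (by unfold wt; exact (Real.exp_pos _).le)]
  have hw : 0 ≤ wt τ Δ t := by unfold wt; exact (Real.exp_pos _).le
  calc wt τ Δ t * ‖f t‖ ≤ wt τ Δ t * (K * (1 + |t|) ^ n) := mul_le_mul_of_nonneg_left (hb t) hw
    _ = K * ((1 + |t|) ^ n * wt τ Δ t) := by ring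

theorem gammaR_conj (s : ℂ) : Complex.Gammaℝ ((starRingEnd ℂ) s) = (starRingEnd ℂ) (Complex.Gammaℝ s) := by
  rw [Complex.Gammaℝ_def, Complex.Gammaℝ_def, map_mul]
  congr 1
  · have h := Complex.cpow_conj (Real.pi : ℂ) (-s / 2) (by
      rw [Complex.arg_ofReal_of_nonneg Real.pi_pos.le]
      exact Real.pi_pos.ne)
    rw [Complex.conj_ofReal] at h
    rw [← h]
    congr 1
    simp [Complex.conj_ofNat]
  · rw [← Complex.Gamma_conj]
    congr 1
    simp [Complex.conj_ofNat]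

theorem xf_conj (s : ℂ) : XF ((starRingEnd ℂ) s) = (starRingEnd ℂ) (XF s) := by
  unfold XF
  rw [map_div₀, ← gammaR_conj, ← gammaR_conj]
  congr 2
  simp

theorem conj_half (t : ℝ) : (starRingEnd ℂ) (1 / 2 + t * I) = 1 / 2 - t * I := by
  simp [sub_eq_add_neg, Complex.conj_ofNat]

theorem xf_half_norm (t : ℝ) : ‖XF (1 / 2 + t * I)‖ = 1 := by
  have h0 : Complex.Gammaℝ (1 / 2 + t * I) ≠ 0 := Complex.Gammaℝ_ne_zero_of_re_pos (by simp)
  unfold XF
  have h1 : (1 : ℂ) - (1 / 2 + t * I) = (starRingEnd ℂ) (1 / 2 + t * I) := by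
    rw [conj_half]
    ring
  rw [h1, gammaR_conj, norm_div, Complex.norm_conj, div_self]
  exact norm_ne_zero_iff.2 h0

theorem xf_half_conj (t : ℝ) : (starRingEnd ℂ) (XF (1 / 2 + t * I)) = XF (1 / 2 - t * I) := by
  rw [← xf_conj, conj_half]

theorem zeta_half_fe (t : ℝ) : riemannZeta (1 / 2 + t * I) =
    XF (1 / 2 + t * I) * (starRingEnd ℂ) (riemannZeta (1 / 2 + t * I)) := by
  have h0 : (1 / 2 + t * I : ℂ) ≠ 0 := by
    intro h
    have := congrArg Complex.re h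
    simp at this
  have h1 := Pool.Agent.P4f18dfS.xf_eq (w := 1 / 2 + t * I) h0 (by simp; norm_num)
  rw [h1]
  congr 1
  rw [← h1, ← riemannZeta_conj, conj_half]
  congr 1
  ring

theorem as_continuous (S : Finset (ℕ × ℕ)) (c : ℕ × ℕ → ℝ) : Continuous (As S c) := by
  unfold As
  fun_prop

theorem as_bound (S : Finset (ℕ × ℕ)) (c : ℕ × ℕ → ℝ) (t : ℝ) : ‖As S c t‖ ≤ ∑ p ∈ S, |c p| := by
  unfold As
  refine (norm_sum_le _ _).trans (Finset.sum_le_sum fun p _ => ?_)
  rw [norm_mul, Complex.norm_exp_ofReal_mul_I, mul_one, Complex.norm_real, Real.norm_eq_abs]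

theorem xf_half_continuous : Continuous (fun t : ℝ => XF (1 / 2 - t * I)) := by
  rw [continuous_iff_continuousAt]
  intro t
  have hU : IsOpen {w : ℂ | w.re < 1} := isOpen_lt Complex.continuous_re continuous_const
  have h1 : (1 / 2 - t * I : ℂ) ∈ {w : ℂ | w.re < 1} := by simp; norm_num
  have h2 : ContinuousAt XF (1 / 2 - t * I) :=
    (Pool.Agent.P4f18dfS.xf_diff.differentiableAt (hU.mem_nhds h1)).continuousAt
  exact ContinuousAt.comp (g := XF) (f := fun t : ℝ => (1 / 2 - t * I : ℂ)) h2 (by fun_prop)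

/-- The numerator. -/
noncomputable def Jn (τ Δ : ℝ) (S : Finset (ℕ × ℕ)) (c : ℕ × ℕ → ℝ) : ℂ :=
  ∫ t : ℝ, (wt τ Δ t : ℂ) * (riemannZeta (1 / 2 + t * I) ^ 2 * riemannZeta (1 / 2 - t * I)) *
    (starRingEnd ℂ) (As S c t)

theorem jn_integrable {τ Δ : ℝ} (hΔ : 0 < Δ) (S : Finset (ℕ × ℕ)) (c : ℕ × ℕ → ℝ) :
    Integrable (fun t : ℝ => (wt τ Δ t : ℂ) * (riemannZeta (1 / 2 + t * I) ^ 2 * riemannZeta (1 / 2 - t * I)) *
    (starRingEnd ℂ) (As S c t)) := by
  obtain ⟨C, hC, hz⟩ := zhalf_bound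
  have hconj : ∀ t : ℝ, riemannZeta (1 / 2 - t * I) = (starRingEnd ℂ) (riemannZeta (1 / 2 + t * I)) := by
    intro t
    rw [← riemannZeta_conj, conj_half]
  have hcont : Continuous (fun t : ℝ => (riemannZeta (1 / 2 + t * I) ^ 2 * riemannZeta (1 / 2 - t * I)) *
    (starRingEnd ℂ) (As S c t)) := by
    simp_rw [hconj]
    exact ((zhalf_continuous.pow 2).mul (Complex.continuous_conj.comp zhalf_continuous)).mul
      (Complex.continuous_conj.comp (as_continuous S c))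
  have := wt_poly_integrable (τ := τ) hΔ hcont (K := C ^ 3 * ∑ p ∈ S, |c p|) (n := 3) (fun t => by
    rw [norm_mul, norm_mul, norm_pow, hconj, Complex.norm_conj, Complex.norm_conj]
    have h1 := hz t
    have h2 := as_bound S c t
    have h3 : 0 ≤ ∑ p ∈ S, |c p| := Finset.sum_nonneg fun p _ => abs_nonneg _
    calc ‖riemannZeta (1 / 2 + t * I)‖ ^ 2 * ‖riemannZeta (1 / 2 + t * I)‖ * ‖As S c t‖
        = ‖riemannZeta (1 / 2 + t * I)‖ ^ 3 * ‖As S c t‖ := by ring
      _ ≤ (C * (1 + |t|)) ^ 3 * ∑ p ∈ S, |c p| :=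
          mul_le_mul (pow_le_pow_left₀ (norm_nonneg _) h1 3) h2 (norm_nonneg _) (by positivity)
      _ = _ := by ring)
  refine this.congr (Filter.Eventually.of_forall fun t => ?_)
  simp only [Complex.real_smul]
  ring

theorem six_integrable {τ Δ : ℝ} (hΔ : 0 < Δ) :
    Integrable (fun t : ℝ => wt τ Δ t * ‖riemannZeta (1 / 2 + t * I)‖ ^ 6) := by
  obtain ⟨C, hC, hz⟩ := zhalf_bound
  have hcont : Continuous (fun t : ℝ => ‖riemannZeta (1 / 2 + t * I)‖ ^ 6) := zhalf_continuous.norm.pow 6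
  have := wt_poly_integrable (τ := τ) hΔ hcont (K := C ^ 6) (n := 6) (fun t => by
    rw [norm_pow, norm_norm, ← mul_pow]
    exact pow_le_pow_left₀ (norm_nonneg _) (hz t) 6)
  simpa [smul_eq_mul] using this

/-- The integrated inequality. -/
theorem sixth_ge {τ Δ : ℝ} (hΔ : 0 < Δ) (S : Finset (ℕ × ℕ)) (c : ℕ × ℕ → ℝ) (l : ℝ) :
    2 * l * (Jn τ Δ S c).re - l ^ 2 / 2 * ((∫ t : ℝ, wt τ Δ t * ‖As S c t‖ ^ 2) +
      (∫ t : ℝ, (wt τ Δ t : ℂ) * XF (1 / 2 - t * I) * As S c t ^ 2).re) ≤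
      ∫ t : ℝ, wt τ Δ t * ‖riemannZeta (1 / 2 + t * I)‖ ^ 6 := by
  have hconj : ∀ t : ℝ, riemannZeta (1 / 2 - t * I) = (starRingEnd ℂ) (riemannZeta (1 / 2 + t * I)) := by
    intro t
    rw [← riemannZeta_conj, conj_half]
  set M : ℝ := ∑ p ∈ S, |c p| with hM
  have hM0 : 0 ≤ M := Finset.sum_nonneg fun p _ => abs_nonneg _
  have i1 : Integrable (fun t : ℝ => wt τ Δ t * ‖As S c t‖ ^ 2) := by
    have hcont : Continuous (fun t : ℝ => ‖As S c t‖ ^ 2) := (as_continuous S c).norm.pow 2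
    have := wt_poly_integrable (τ := τ) hΔ hcont (K := M ^ 2) (n := 0) (fun t => by
      rw [norm_pow, norm_norm, pow_zero, mul_one]
      exact pow_le_pow_left₀ (norm_nonneg _) (as_bound S c t) 2)
    simpa [smul_eq_mul] using this
  have i2 : Integrable (fun t : ℝ => (wt τ Δ t : ℂ) * XF (1 / 2 - t * I) * As S c t ^ 2) := by
    have hcont : Continuous (fun t : ℝ => XF (1 / 2 - t * I) * As S c t ^ 2) :=
      xf_half_continuous.mul ((as_continuous S c).pow 2)
    have := wt_poly_integrable (τ := τ) hΔ hcont (K := M ^ 2)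
      (n := 0) (fun t => by
      rw [norm_mul, norm_pow, pow_zero, mul_one, ← xf_half_conj, Complex.norm_conj, xf_half_norm, one_mul]
      exact pow_le_pow_left₀ (norm_nonneg _) (as_bound S c t) 2)
    refine this.congr (Filter.Eventually.of_forall fun t => ?_)
    simp only [Complex.real_smul]
    ring
  have i3 := jn_integrable (τ := τ) hΔ S c
  have i4 := six_integrable (τ := τ) hΔ
  have e2 : (∫ t : ℝ, (wt τ Δ t : ℂ) * XF (1 / 2 - t * I) * As S c t ^ 2).re =
      ∫ t : ℝ, ((wt τ Δ t : ℂ) * XF (1 / 2 - t * I) * As S c t ^ 2).re := by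
    have := integral_re i2
    simpa using this.symm
  have e3 : (Jn τ Δ S c).re = ∫ t : ℝ, ((wt τ Δ t : ℂ) * (riemannZeta (1 / 2 + t * I) ^ 2 * riemannZeta (1 / 2 - t * I)) *
      (starRingEnd ℂ) (As S c t)).re := by
    have := integral_re i3
    unfold Jn
    simpa using this.symm
  have i2' : Integrable (fun t : ℝ => ((wt τ Δ t : ℂ) * XF (1 / 2 - t * I) * As S c t ^ 2).re) := by
    simpa using i2.re
  have i3' : Integrable (fun t : ℝ => ((wt τ Δ t : ℂ) * (riemannZeta (1 / 2 + t * I) ^ 2 *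
      riemannZeta (1 / 2 - t * I)) * (starRingEnd ℂ) (As S c t)).re) := by
    simpa using i3.re
  have i5 : Integrable (fun t : ℝ => wt τ Δ t * ‖As S c t‖ ^ 2 +
      ((wt τ Δ t : ℂ) * XF (1 / 2 - t * I) * As S c t ^ 2).re) := i1.add i2'
  rw [e2, e3, ← integral_add i1 i2', ← integral_const_mul, ← integral_const_mul,
    ← integral_sub (i3'.const_mul _) (i5.const_mul _)]
  refine integral_mono ((i3'.const_mul _).sub (i5.const_mul _)) i4 (fun t => ?_)
  have hp := pt_ineq (z := riemannZeta (1 / 2 + t * I)) (x := XF (1 / 2 + t * I)) (A := As S c t)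
    (zeta_half_fe t) (xf_half_norm t) l
  have hw : 0 ≤ wt τ Δ t := by unfold wt; exact (Real.exp_pos _).le
  have h1 : ((wt τ Δ t : ℂ) * (riemannZeta (1 / 2 + t * I) ^ 2 * riemannZeta (1 / 2 - t * I)) *
      (starRingEnd ℂ) (As S c t)).re = wt τ Δ t * (‖riemannZeta (1 / 2 + t * I)‖ ^ 2 *
        (riemannZeta (1 / 2 + t * I) * (starRingEnd ℂ) (As S c t)).re) := by
    have h2 : (wt τ Δ t : ℂ) * (riemannZeta (1 / 2 + t * I) ^ 2 * riemannZeta (1 / 2 - t * I)) *
        (starRingEnd ℂ) (As S c t) = ((wt τ Δ t * ‖riemannZeta (1 / 2 + t * I)‖ ^ 2 : ℝ) : ℂ) *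
          (riemannZeta (1 / 2 + t * I) * (starRingEnd ℂ) (As S c t)) := by
      have h3 : riemannZeta (1 / 2 + t * I) * (starRingEnd ℂ) (riemannZeta (1 / 2 + t * I)) =
          ((‖riemannZeta (1 / 2 + t * I)‖ ^ 2 : ℝ) : ℂ) := by
        rw [Complex.mul_conj, Complex.normSq_eq_norm_sq]
      rw [hconj]
      push_cast at h3 ⊢
      rw [← h3]
      ring
    rw [h2, Complex.re_ofReal_mul]
    ring
  have h4 : ((wt τ Δ t : ℂ) * XF (1 / 2 - t * I) * As S c t ^ 2).re =
      wt τ Δ t * ((starRingEnd ℂ) (XF (1 / 2 + t * I)) * As S c t ^ 2).re := by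
    rw [xf_half_conj, mul_assoc, Complex.re_ofReal_mul]
  simp only []
  rw [h1, h4]
  have h5 := mul_le_mul_of_nonneg_left hp hw
  nlinarith [h5]

end Pool.Agent.P07318m
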